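import Mathlib

/-! # [H51 BJ ALG] Elimination at nondegenerate common zeros

`W` a set of variables, `f_a` (`a ∈ W`) polynomials, `J = det (∂ f_a / ∂ z_b)_{a,b ∈ W}`. For `i ∈ W` there
is a nonzero polynomial `Q` in the variables `Wᶜ ∪ {i}` with `J^M Q ∈ (f_a : a ∈ W)` for some `M`.

Proof. `K = FractionRing (MvPolynomial (Wᶜ) ℂ)`, `R = MvPolynomial W K ⧸ (f_a)`, `A = Localization.Away J̄`.
`A` is of finite type over the field `K` and formally unramified: in `Ω[A⁄K]`, generated by the
`d w_b`, we have `0 = d f_a = ∑_b (∂ f_a/∂ w_b) d w_b` and the matrix is invertible over `A`. So `A` is a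
finite `K`-module (`Algebra.FormallyUnramified.finite_of_free`, `Algebra.EssFiniteType`), so `w_i`
satisfies in `A` an equation `q(w_i) = 0`, `q ∈ K[X]` nonzero. Clear denominators: `g q ∈ (ℂ[Wᶜ])[X]`. Equality
to zero in the localization means `J̄^M g q(w_i) ∈ (f_a)` in `MvPolynomial W K`, and clearing the denominators of
the finitely many coefficients once more (multiply by some `0 ≠ g' ∈ ℂ[Wᶜ]`) gives an identity in
`MvPolynomial (Fin n) ℂ ≅ MvPolynomial W (MvPolynomial Wᶜ ℂ)`. If `A = 0` take `q = 1`. -/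

set_option autoImplicit false

open MvPolynomial TensorProduct

noncomputable section

namespace Pool.Agent.H51.BJ

variable {n : ℕ}

/-- a derivation of the polynomial ring in terms of the partial derivatives -/
private theorem der_eq {M : Type*} [AddCommGroup M] [Module (MvPolynomial (Fin n) ℂ) M]
    [Module ℂ M] [IsScalarTower ℂ (MvPolynomial (Fin n) ℂ) M]
    (δ : Derivation ℂ (MvPolynomial (Fin n) ℂ) M)
    (W : Finset (Fin n)) (h0 : ∀ b : Fin n, b ∉ W → δ (X b) = 0) (p : MvPolynomial (Fin n) ℂ) :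
    δ p = ∑ b : W, pderiv (b : Fin n) p • δ (X (b : Fin n)) := by
  have h1 : δ = ∑ b : W, (LinearMap.toSpanSingleton (MvPolynomial (Fin n) ℂ) M
      (δ (X (b : Fin n)))).compDer (pderiv (b : Fin n)) := by
    refine MvPolynomial.derivation_ext fun i => ?_
    have h2 : (∑ b : W, (LinearMap.toSpanSingleton (MvPolynomial (Fin n) ℂ) M
      (δ (X (b : Fin n)))).compDer (pderiv (b : Fin n))) (X i)
        = ∑ b : W, pderiv (b : Fin n) (X i : MvPolynomial (Fin n) ℂ) • δ (X (b : Fin n)) := by
      rw [← Derivation.coeFnAddMonoidHom_apply]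
      simp [map_sum]
    rw [h2]
    by_cases hi : i ∈ W
    · rw [Finset.sum_eq_single (⟨i, hi⟩ : W)]
      · simp
      · intro b _ hb
        rw [pderiv_X_of_ne]
        · simp
        · intro h
          exact hb (Subtype.ext h.symm)
      · simp
    · rw [h0 i hi, Finset.sum_eq_zero]
      intro b _
      rw [pderiv_X_of_ne]
      · simp
      · intro h
        exact hi (h ▸ b.2)
  conv_lhs => rw [h1]
  rw [← Derivation.coeFnAddMonoidHom_apply]
  simp [map_sum]

/-- the localised quotient is unramified over the polynomials in the other variables -/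
private theorem unram {D A : Type} [CommRing D] [CommRing A] [Algebra ℂ D]
    [Algebra D (MvPolynomial (Fin n) ℂ)] [Algebra D A] [Algebra ℂ A]
    [Algebra (MvPolynomial (Fin n) ℂ) A] [IsScalarTower ℂ D A]
    [IsScalarTower D (MvPolynomial (Fin n) ℂ) A] [IsScalarTower ℂ (MvPolynomial (Fin n) ℂ) A]
    (W : Finset (Fin n)) (f : W → MvPolynomial (Fin n) ℂ)
    (hX : ∀ b : Fin n, b ∉ W → ∃ d : D, algebraMap D (MvPolynomial (Fin n) ℂ) d = X b)
    (hf : ∀ a, algebraMap (MvPolynomial (Fin n) ℂ) A (f a) = 0)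
    (J : MvPolynomial (Fin n) ℂ)
    (hJ : J = Matrix.det (Matrix.of fun a b : W => pderiv (b : Fin n) (f a)))
    (hu : IsUnit (algebraMap (MvPolynomial (Fin n) ℂ) A J))
    (hs : ∀ x : A, ∃ (k : ℕ) (p : MvPolynomial (Fin n) ℂ),
      x * algebraMap (MvPolynomial (Fin n) ℂ) A (J ^ k) = algebraMap (MvPolynomial (Fin n) ℂ) A p) :
    Algebra.FormallyUnramified D A := by
  constructor
  let δ : Derivation ℂ (MvPolynomial (Fin n) ℂ) Ω[A⁄D] :=
    ((KaehlerDifferential.D D A).restrictScalars ℂ).compAlgebraMap (MvPolynomial (Fin n) ℂ)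
  have hδ : ∀ p, δ p = KaehlerDifferential.D D A (algebraMap (MvPolynomial (Fin n) ℂ) A p) :=
    fun p => rfl
  have h0 : ∀ b : Fin n, b ∉ W → δ (X b) = 0 := by
    intro b hb
    obtain ⟨d, hd⟩ := hX b hb
    rw [hδ, ← hd, ← IsScalarTower.algebraMap_apply D (MvPolynomial (Fin n) ℂ) A]
    exact Derivation.map_algebraMap _ _
  have h2 : ∀ a : W, ∑ b : W, pderiv (b : Fin n) (f a) • δ (X (b : Fin n)) = 0 := by
    intro a
    rw [← der_eq δ W h0, hδ, hf a, map_zero]
  have h3 : ∀ b : W, J • δ (X (b : Fin n)) = 0 := by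
    intro b
    set N := Matrix.of fun a b : W => pderiv (b : Fin n) (f a) with hN
    have h4 : ∑ a : W, N.adjugate b a • ∑ c : W, N a c • δ (X (c : Fin n)) = 0 := by
      refine Finset.sum_eq_zero fun a _ => ?_
      have := h2 a
      simp only [hN, Matrix.of_apply]
      rw [this, smul_zero]
    have h5 : ∑ a : W, N.adjugate b a • ∑ c : W, N a c • δ (X (c : Fin n))
        = ∑ c : W, (N.adjugate * N) b c • δ (X (c : Fin n)) := by
      simp only [Finset.smul_sum, smul_smul, Matrix.mul_apply, Finset.sum_smul]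
      exact Finset.sum_comm
    rw [h5, Matrix.adjugate_mul] at h4
    rw [Finset.sum_eq_single b] at h4
    · rw [hJ]
      simpa using h4
    · intro c _ hc
      simp [Matrix.one_apply_ne (Ne.symm hc)]
    · simp
  have hJs : ∀ m : Ω[A⁄D], J • m = 0 → m = 0 := by
    intro m hm
    have h6 : (algebraMap (MvPolynomial (Fin n) ℂ) A J) • m = 0 := by
      rw [← hm]
      exact algebraMap_smul A J m
    exact (hu.smul_eq_zero).1 h6
  have h7 : ∀ p, KaehlerDifferential.D D A (algebraMap (MvPolynomial (Fin n) ℂ) A p) = 0 := by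
    intro p
    rw [← hδ, der_eq δ W h0]
    refine Finset.sum_eq_zero fun b _ => ?_
    rw [hJs _ (h3 b), smul_zero]
  have h8 : ∀ x : A, KaehlerDifferential.D D A x = 0 := by
    intro x
    obtain ⟨k, p, h9⟩ := hs x
    have h10 := congrArg (KaehlerDifferential.D D A) h9
    rw [h7 p, Derivation.leibniz, h7, smul_zero, zero_add] at h10
    rw [map_pow] at h10
    exact ((hu.pow k).smul_eq_zero).1 h10
  have h11 : (⊤ : Submodule A Ω[A⁄D]) = ⊥ := by
    rw [← KaehlerDifferential.span_range_derivation, Submodule.span_eq_bot]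
    rintro _ ⟨x, rfl⟩
    exact h8 x
  have h12 : ∀ w : Ω[A⁄D], w = 0 := fun w => by
    have : w ∈ (⊤ : Submodule A Ω[A⁄D]) := trivial
    rw [h11] at this
    simpa using this
  exact ⟨fun u v => by rw [h12 u, h12 v]⟩

/-- algebraicity of a variable in an unramified algebra of finite type -/
private theorem alg_of_unram {D A : Type} [CommRing D] [IsDomain D] [CommRing A] [Algebra D A]
    [Algebra.FormallyUnramified D A] [Algebra.FiniteType D A] (x : A) :
    ∃ (q : Polynomial D) (g : D), q ≠ 0 ∧ g ≠ 0 ∧ g • Polynomial.aeval x q = 0 := by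
  let K := FractionRing D
  have : Algebra.FiniteType K (K ⊗[D] A) := inferInstance
  have : Module.Finite K (K ⊗[D] A) := Algebra.FormallyUnramified.finite_of_free K (K ⊗[D] A)
  have h1 : IsAlgebraic K ((1 : K) ⊗ₜ[D] x) := by
    exact (Algebra.IsIntegral.isIntegral (R := K) ((1 : K) ⊗ₜ[D] x)).isAlgebraic
  have h2 : IsAlgebraic D ((1 : K) ⊗ₜ[D] x) := (IsFractionRing.isAlgebraic_iff D K _).2 h1
  obtain ⟨q, hq, h3⟩ := h2
  have h4 : Polynomial.aeval ((1 : K) ⊗ₜ[D] x) q
      = (1 : K) ⊗ₜ[D] (Polynomial.aeval x q) := by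
    have := Polynomial.aeval_algHom_apply (Algebra.TensorProduct.includeRight : A →ₐ[D] K ⊗[D] A)
      x q
    exact this
  rw [h4] at h3
  have : IsLocalizedModule (nonZeroDivisors D) (TensorProduct.mk D K A 1) :=
    (isLocalizedModule_iff_isBaseChange (nonZeroDivisors D) K _).2
      (TensorProduct.isBaseChange D A K)
  obtain ⟨g, hg⟩ := (IsLocalizedModule.eq_zero_iff (nonZeroDivisors D)
    (TensorProduct.mk D K A 1)).1 h3
  exact ⟨q, g, hq, nonZeroDivisors.ne_zero g.2, hg⟩

theorem elim (W : Finset (Fin n)) (f : W → MvPolynomial (Fin n) ℂ) (i : Fin n) (hi : i ∈ W) :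
    ∃ (Q : MvPolynomial (Fin n) ℂ) (M : ℕ), Q ≠ 0 ∧
      Q ∈ MvPolynomial.supported ℂ (((W : Set (Fin n))ᶜ) ∪ {i}) ∧
      (Matrix.det (Matrix.of fun a b : W => pderiv (b : Fin n) (f a))) ^ M * Q
        ∈ Ideal.span (Set.range f) := by
  set J := Matrix.det (Matrix.of fun a b : W => pderiv (b : Fin n) (f a)) with hJ
  set I := Ideal.span (Set.range f) with hI
  let D := MvPolynomial.supported ℂ ((W : Set (Fin n))ᶜ)
  let A := Localization.Away (Ideal.Quotient.mk I J)
  have e0 : ∀ p, algebraMap (MvPolynomial (Fin n) ℂ) A p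
      = algebraMap (MvPolynomial (Fin n) ℂ ⧸ I) A (Ideal.Quotient.mk I p) := fun p => rfl
  have hU : Algebra.FormallyUnramified D A := by
    refine unram (D := D) (A := A) W f ?_ ?_ J hJ ?_ ?_
    · intro b hb
      exact ⟨⟨X b, X_mem_supported.2 (by simpa using hb)⟩, rfl⟩
    · intro a
      rw [e0, Ideal.Quotient.eq_zero_iff_mem.2 (Ideal.subset_span (Set.mem_range_self a)), map_zero]
    · rw [e0]
      exact IsLocalization.Away.algebraMap_isUnit _
    · intro x
      obtain ⟨⟨y, s⟩, hy⟩ := IsLocalization.surj (Submonoid.powers (Ideal.Quotient.mk I J)) x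
      obtain ⟨k, hk⟩ := s.2
      obtain ⟨p, rfl⟩ := Ideal.Quotient.mk_surjective y
      refine ⟨k, p, ?_⟩
      rw [e0, e0, map_pow, ← hy]
      congr 2
  have hF : Algebra.FiniteType D A := by
    have h1 : Algebra.FiniteType ℂ (MvPolynomial (Fin n) ℂ ⧸ I) := inferInstance
    have h2 : Algebra.FiniteType ℂ A := inferInstance
    exact Algebra.FiniteType.of_restrictScalars_finiteType ℂ D A
  obtain ⟨q, g, hq, hg, h1⟩ := alg_of_unram (D := D) (A := A)
    (algebraMap (MvPolynomial (Fin n) ℂ) A (X i))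
  set Q : MvPolynomial (Fin n) ℂ := (g : MvPolynomial (Fin n) ℂ) * Polynomial.aeval (X i) q with hQ
  have h2 : algebraMap (MvPolynomial (Fin n) ℂ) A Q = 0 := by
    rw [hQ, map_mul, ← Polynomial.aeval_algebraMap_apply]
    rw [← h1, Algebra.smul_def]
    rfl
  rw [e0, IsLocalization.map_eq_zero_iff (Submonoid.powers (Ideal.Quotient.mk I J))] at h2
  obtain ⟨⟨s, M, hM⟩, hs⟩ := h2
  refine ⟨Q, M, ?_, ?_, ?_⟩
  · rw [hQ]
    refine mul_ne_zero (fun h => hg (Subtype.ext h)) ?_
    have h3 : Transcendental D (X i : MvPolynomial (Fin n) ℂ) := by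
      have := (MvPolynomial.algebraicIndependent_X (Fin n) ℂ).transcendental_adjoin
        (s := ((W : Set (Fin n))ᶜ)) (i := i) (by simpa using hi)
      exact this
    intro h4
    exact h3 ⟨q, hq, h4⟩
  · rw [hQ]
    have hle : MvPolynomial.supported ℂ ((W : Set (Fin n))ᶜ)
        ≤ MvPolynomial.supported ℂ (((W : Set (Fin n))ᶜ) ∪ {i}) :=
      MvPolynomial.supported_mono Set.subset_union_left
    refine mul_mem (hle g.2) ?_
    rw [Polynomial.aeval_eq_sum_range]
    refine sum_mem fun k _ => ?_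
    rw [Algebra.smul_def]
    refine mul_mem (hle (q.coeff k).2) (pow_mem (X_mem_supported.2 ?_) k)
    exact Or.inr rfl
  · rw [← Ideal.Quotient.eq_zero_iff_mem, map_mul, map_pow]
    have : s = (Ideal.Quotient.mk I J) ^ M := hM.symm
    rw [← this]
    exact hs

end Pool.Agent.H51.BJ
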