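import Pool.Agent.H51.BJ.RSF

/-! # [H51 BJ NGB] Taylor expansion of polynomials

`Ty f` is `f (X + Y)`, a polynomial in `Y` whose coefficients are polynomials in `X`: the variable
`Y_i` is `X i`, the variable `X_i` is `C (X i)`. `hs m f` is its coefficient at `Y^m`.

`ev_add_hs`: `eval v (map (eval p) (Ty f)) = eval (p + v) f` (equality of algebra homomorphisms in `f`,
or `MvPolynomial.induction_on`), and `eval v (map (eval p) T) = ∑ m ∈ T.support, eval p (coeff m T) * ∏ i, v i ^ m i`
(`MvPolynomial.eval_eq'` applied to `map _ T`, whose support is contained in that of `T`). `Finset.sum_subset` for the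
larger set `S`. -/

set_option autoImplicit false

open MvPolynomial Filter Pool.Agent.H60 Pool.Agent.H57.BJ
open scoped Topology

noncomputable section

namespace Pool.Agent.H51.BJ

variable {n : ℕ}

/-- the Taylor polynomial `f (X + Y)` -/
def Ty (f : MvPolynomial (Fin n) ℂ) : MvPolynomial (Fin n) (MvPolynomial (Fin n) ℂ) :=
  aeval (fun i => (C (X i) + X i : MvPolynomial (Fin n) (MvPolynomial (Fin n) ℂ))) f

/-- the Hasse derivatives -/
def hs (m : Fin n →₀ ℕ) (f : MvPolynomial (Fin n) ℂ) : MvPolynomial (Fin n) ℂ := (Ty f).coeff m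

private theorem Ty_def (f : MvPolynomial (Fin n) ℂ) :
    Ty f = eval₂ ((C : MvPolynomial (Fin n) ℂ →+* MvPolynomial (Fin n) (MvPolynomial (Fin n) ℂ)).comp C)
      (fun i => (C (X i) + X i : MvPolynomial (Fin n) (MvPolynomial (Fin n) ℂ))) f := rfl

private theorem eval_Ty (f : MvPolynomial (Fin n) ℂ) (p v : V n) :
    eval v (map (eval p) (Ty f)) = eval (p + v) f := by
  rw [Ty_def]
  induction f using MvPolynomial.induction_on with
  | C a =>
    rw [eval₂_C, RingHom.comp_apply, map_C, eval_C, eval_C, eval_C]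
  | add a b ha hb => rw [eval₂_add, RingHom.map_add, RingHom.map_add, RingHom.map_add, ha, hb]
  | mul_X a i ha =>
    rw [eval₂_mul, eval₂_X, RingHom.map_mul, RingHom.map_mul, RingHom.map_mul, ha, RingHom.map_add,
      RingHom.map_add, map_C, map_X, eval_C, eval_X, eval_X, eval_X]
    rfl

theorem ev_add_hs (f : MvPolynomial (Fin n) ℂ) (p v : V n) :
    ev f (p + v) = ∑ m ∈ (Ty f).support, ev (hs m f) p * ∏ i, v i ^ m i := by
  unfold ev hs
  rw [← eval_Ty, MvPolynomial.eval_eq']
  refine (Finset.sum_subset (MvPolynomial.support_map_subset _ _) fun m _ hm => ?_).trans ?_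
  · rw [MvPolynomial.notMem_support_iff.mp hm, zero_mul]
  · refine Finset.sum_congr rfl fun m _ => ?_
    rw [MvPolynomial.coeff_map]

end Pool.Agent.H51.BJ
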