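import Pool.Agent.H51.BJ.HLB

/-! # [H51 BJ NGC] Comparable families: products of norms of polynomials in the variables outside `W`

`CR g W h`: `h` is asymptotically a positive constant times `NN g F / NN g F'`, with `F, F'` nonzero
polynomials in the variables outside `W`.

`CR.mul`: the products `F1 F2`, `F1' F2'` are again of this kind; by `HasLim.mul` with constant limits
`C a`, `C a'` (`hT`), `NN g (F1 F2) / (NN g F1 * NN g F2) → nm (C a * C a') > 0`. `CR.inv`: exchange `F` and `F'`.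
`CR.pow`: induction (`CR.one`: `F = F' = 1`).
`tame_HH`: let `p = k k'`, `h = H/H'`, `H = (N f1/N f2)^{1/k} β^d`. Then `h^p = (N f1/N f2)^{k'} (N f2'/N f1')^k β^{d p - d' p}`
(real powers; everything is positive). If `d' ≤ d`: `h^p = β^{(d-d')p} r`, `r ∈ CR`, so `h^p` is tame by `hβt`
and `Tame.congr`; if `d < d'` the same for the inverse. Then `Tame.of_rpow`.
`max_fam`: induction on `S` (trichotomy `Tame.tri` for the ratio of the new family and the old maximal one). -/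

set_option autoImplicit false

open MvPolynomial Filter Pool.Agent.H60 Pool.Agent.H57.BJ
open scoped Topology

noncomputable section

namespace Pool.Agent.H51.BJ

variable {n : ℕ} {g : Germ n} {W : Finset (Fin n)}

/-- asymptotically a positive constant times a quotient of norms -/
def CR (g : Germ n) (W : Finset (Fin n)) (h : ℕ × II → ℝ) : Prop :=
  ∃ F F' : MvPolynomial (Fin n) ℂ, CT W F ∧ CT W F' ∧ ∃ c : ℝ, 0 < c ∧
    Tendsto (fun q => h q / (NN g F q / NN g F' q)) (LX II) (𝓝 c)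

theorem CR.base (hb : ∀ j l, 0 < g.b j l) {F F' : MvPolynomial (Fin n) ℂ} (hF : CT W F)
    (hF' : CT W F') : CR g W (fun q => NN g F q / NN g F' q) := by
  refine ⟨F, F', hF, hF', 1, one_pos, ?_⟩
  refine tendsto_const_nhds.congr fun q => ?_
  rw [div_self (div_pos (NN_pos hb hF.1 q) (NN_pos hb hF'.1 q)).ne']

private theorem CT_one : CT W (1 : MvPolynomial (Fin n) ℂ) := ⟨one_ne_zero, Subalgebra.one_mem _⟩

private theorem CT_mul {F F' : MvPolynomial (Fin n) ℂ} (hF : CT W F) (hF' : CT W F') :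
    CT W (F * F') := ⟨mul_ne_zero hF.1 hF'.1, Subalgebra.mul_mem _ hF.2 hF'.2⟩

private theorem CT_pow {F : MvPolynomial (Fin n) ℂ} (hF : CT W F) (k : ℕ) :
    CT W (F ^ k) := ⟨pow_ne_zero k hF.1, Subalgebra.pow_mem _ hF.2 k⟩

theorem CR.one (hb : ∀ j l, 0 < g.b j l) : CR g W (fun _ => 1) := by
  refine ⟨1, 1, CT_one, CT_one, 1, one_pos, ?_⟩
  refine tendsto_const_nhds.congr fun q => ?_
  rw [div_self (NN_pos hb one_ne_zero q).ne', div_one]

theorem CR.inv (hb : ∀ j l, 0 < g.b j l) {h : ℕ × II → ℝ} (hh : CR g W h) :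
    CR g W (fun q => (h q)⁻¹) := by
  obtain ⟨F, F', hF, hF', c, hc, h1⟩ := hh
  refine ⟨F', F, hF', hF, c⁻¹, inv_pos.mpr hc, ?_⟩
  refine (h1.inv₀ hc.ne').congr fun q => ?_
  show (h q / (NN g F q / NN g F' q))⁻¹ = (h q)⁻¹ / (NN g F' q / NN g F q)
  rw [← inv_div (NN g F q) (NN g F' q), div_inv_eq_mul, div_eq_mul_inv, mul_inv, inv_inv]

theorem CR.mul (hb : ∀ j l, 0 < g.b j l)
    (hT : ∀ f, CT W f → ∃ a : ℂ, a ≠ 0 ∧ HasLim g f (C a)) {h h' : ℕ × II → ℝ}
    (hh : CR g W h) (hh' : CR g W h') : CR g W (fun q => h q * h' q) := by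
  obtain ⟨F1, F1', hF1, hF1', c1, hc1, h1⟩ := hh
  obtain ⟨F2, F2', hF2, hF2', c2, hc2, h2⟩ := hh'
  obtain ⟨a, ha, hFa⟩ := hT F1 hF1
  obtain ⟨a', ha', hFa'⟩ := hT F2 hF2
  obtain ⟨d, hd, hFd⟩ := hT F1' hF1'
  obtain ⟨d', hd', hFd'⟩ := hT F2' hF2'
  obtain ⟨_, h3, h3'⟩ := HasLim.mul hb hF1.1 hF2.1 hFa hFa'
  obtain ⟨_, h4, h4'⟩ := HasLim.mul hb hF1'.1 hF2'.1 hFd hFd'
  refine ⟨F1 * F2, F1' * F2', CT_mul hF1 hF2, CT_mul hF1' hF2',
    c1 * c2 / (BJ.nm (C a * C a') / BJ.nm (C d * C d')), div_pos (mul_pos hc1 hc2) (div_pos h3' h4'), ?_⟩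
  refine ((h1.mul h2).div (h3.div h4 h4'.ne') (div_pos h3' h4').ne').congr fun q => ?_
  have p1 := (NN_pos hb hF1.1 q).ne'
  have p2 := (NN_pos hb hF2.1 q).ne'
  have p3 := (NN_pos hb hF1'.1 q).ne'
  have p4 := (NN_pos hb hF2'.1 q).ne'
  have p5 := (NN_pos hb (mul_ne_zero hF1.1 hF2.1) q).ne'
  have p6 := (NN_pos hb (mul_ne_zero hF1'.1 hF2'.1) q).ne'
  show h q / (NN g F1 q / NN g F1' q) * (h' q / (NN g F2 q / NN g F2' q)) /
      (NN g (F1 * F2) q / (NN g F1 q * NN g F2 q) / (NN g (F1' * F2') q / (NN g F1' q * NN g F2' q))) =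
    h q * h' q / (NN g (F1 * F2) q / NN g (F1' * F2') q)
  field_simp

theorem CR.pow (hb : ∀ j l, 0 < g.b j l)
    (hT : ∀ f, CT W f → ∃ a : ℂ, a ≠ 0 ∧ HasLim g f (C a)) {h : ℕ × II → ℝ}
    (hh : CR g W h) (k : ℕ) : CR g W (fun q => h q ^ k) := by
  induction k with
  | zero => simpa only [pow_zero] using CR.one (W := W) hb
  | succ k ih => simpa only [pow_succ] using CR.mul hb hT ih hh

/-- the families which occur as sizes of polynomials -/
def HH (g : Germ n) (β : ℕ → II → ℝ) (k : ℕ) (f1 f2 : MvPolynomial (Fin n) ℂ) (d : ℕ)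
    (q : ℕ × II) : ℝ :=
  (NN g f1 q / NN g f2 q) ^ ((1 : ℝ) / k) * β q.1 q.2 ^ d

theorem HH_pos (hb : ∀ j l, 0 < g.b j l) {β : ℕ → II → ℝ} (hβp : ∀ j l, 0 < β j l) (k : ℕ)
    {f1 f2 : MvPolynomial (Fin n) ℂ} (h1 : f1 ≠ 0) (h2 : f2 ≠ 0) (d : ℕ) (q : ℕ × II) :
    0 < HH g β k f1 f2 d q := by
  unfold HH
  exact mul_pos (Real.rpow_pos_of_pos (div_pos (NN_pos hb h1 q) (NN_pos hb h2 q)) _)
    (pow_pos (hβp q.1 q.2) d)

theorem tame_HH (hb : ∀ j l, 0 < g.b j l)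
    (hT : ∀ f, CT W f → ∃ a : ℂ, a ≠ 0 ∧ HasLim g f (C a)) {β : ℕ → II → ℝ}
    (hβp : ∀ j l, 0 < β j l)
    (hβt : ∀ f f', CT W f → CT W f' → ∀ p : ℕ,
      Tame (fun q => β q.1 q.2 ^ p * (NN g f q / NN g f' q)))
    {k k' : ℕ} (hk : 1 ≤ k) (hk' : 1 ≤ k') {f1 f2 f1' f2' : MvPolynomial (Fin n) ℂ}
    (h1 : CT W f1) (h2 : CT W f2) (h1' : CT W f1') (h2' : CT W f2') (d d' : ℕ) :
    Tame (fun q => HH g β k f1 f2 d q / HH g β k' f1' f2' d' q) := by
  -- tameness of `β ^ p` times a family of `CR`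
  have key : ∀ (p : ℕ) (r : ℕ × II → ℝ), CR g W r → Tame (fun q => β q.1 q.2 ^ p * r q) := by
    intro p r hr
    obtain ⟨F, F', hF, hF', c, hc, hl⟩ := hr
    refine (hβt F F' hF hF' p).congr hc ?_
    refine hl.congr fun q => ?_
    have p1 := (NN_pos hb hF.1 q).ne'
    have p2 := (NN_pos hb hF'.1 q).ne'
    have p3 := (pow_pos (hβp q.1 q.2) p).ne'
    field_simp
  have hk0 : (k : ℝ) ≠ 0 := by positivity
  have hk0' : (k' : ℝ) ≠ 0 := by positivity
  have hHk : ∀ q, HH g β k f1 f2 d q ^ k = NN g f1 q / NN g f2 q * β q.1 q.2 ^ (d * k) := by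
    intro q
    have hp := div_pos (NN_pos hb h1.1 q) (NN_pos hb h2.1 q)
    unfold HH
    rw [mul_pow, ← Real.rpow_natCast, ← Real.rpow_mul hp.le, one_div, inv_mul_cancel₀ hk0,
      Real.rpow_one, pow_mul]
  have hHk' : ∀ q, HH g β k' f1' f2' d' q ^ k' = NN g f1' q / NN g f2' q * β q.1 q.2 ^ (d' * k') := by
    intro q
    have hp := div_pos (NN_pos hb h1'.1 q) (NN_pos hb h2'.1 q)
    unfold HH
    rw [mul_pow, ← Real.rpow_natCast, ← Real.rpow_mul hp.le, one_div, inv_mul_cancel₀ hk0',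
      Real.rpow_one, pow_mul]
  have hpp : ((k * k' : ℕ) : ℝ) ≠ 0 := by positivity
  have hpos : ∀ q, 0 < HH g β k f1 f2 d q / HH g β k' f1' f2' d' q := fun q =>
    div_pos (HH_pos hb hβp k h1.1 h2.1 d q) (HH_pos hb hβp k' h1'.1 h2'.1 d' q)
  refine Tame.of_rpow hpp (Filter.Eventually.of_forall hpos) ?_
  have hr : CR g W (fun q => (NN g f1 q / NN g f2 q) ^ k' * ((NN g f1' q / NN g f2' q)⁻¹) ^ k) :=
    CR.mul hb hT (CR.pow hb hT (CR.base hb h1 h2) k')
      (CR.pow hb hT (CR.inv hb (CR.base hb h1' h2')) k)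
  have hform : ∀ q, (HH g β k f1 f2 d q / HH g β k' f1' f2' d' q) ^ ((k * k' : ℕ) : ℝ) =
      (NN g f1 q / NN g f2 q) ^ k' * ((NN g f1' q / NN g f2' q)⁻¹) ^ k *
        (β q.1 q.2 ^ (d * k * k') / β q.1 q.2 ^ (d' * k' * k)) := by
    intro q
    rw [Real.rpow_natCast, div_pow, pow_mul (HH g β k f1 f2 d q), hHk, mul_comm k k',
      pow_mul (HH g β k' f1' f2' d' q), hHk', mul_pow, mul_pow, ← pow_mul, ← pow_mul, inv_pow]
    have p1 := (pow_pos (div_pos (NN_pos hb h1'.1 q) (NN_pos hb h2'.1 q)) k).ne'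
    have p3 := (pow_pos (hβp q.1 q.2) (d' * k' * k)).ne'
    rw [div_eq_mul_inv, mul_inv, div_eq_mul_inv _ (β q.1 q.2 ^ (d' * k' * k))]
    ring
  rcases le_total (d' * k' * k) (d * k * k') with hd | hd
  · have h5 := key (d * k * k' - d' * k' * k) _ hr
    refine h5.congr one_pos ?_
    refine tendsto_const_nhds.congr fun q => ?_
    rw [hform, ← pow_sub₀ _ (hβp q.1 q.2).ne' hd |>.trans (div_eq_mul_inv _ _).symm]
    have p1 : 0 < (NN g f1 q / NN g f2 q) ^ k' := pow_pos (div_pos (NN_pos hb h1.1 q) (NN_pos hb h2.1 q)) _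
    have p2 : 0 < ((NN g f1' q / NN g f2' q)⁻¹) ^ k :=
      pow_pos (inv_pos.mpr (div_pos (NN_pos hb h1'.1 q) (NN_pos hb h2'.1 q))) _
    have p3 := pow_pos (hβp q.1 q.2) (d * k * k' - d' * k' * k)
    rw [mul_comm (β q.1 q.2 ^ (d * k * k' - d' * k' * k)), div_self (mul_pos (mul_pos p1 p2) p3).ne']
  · have h5 := (key (d' * k' * k - d * k * k') _ (CR.inv hb hr)).inv
    refine h5.congr one_pos ?_
    refine tendsto_const_nhds.congr fun q => ?_
    have p1 : 0 < (NN g f1 q / NN g f2 q) ^ k' := pow_pos (div_pos (NN_pos hb h1.1 q) (NN_pos hb h2.1 q)) _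
    have p2 : 0 < ((NN g f1' q / NN g f2' q)⁻¹) ^ k :=
      pow_pos (inv_pos.mpr (div_pos (NN_pos hb h1'.1 q) (NN_pos hb h2'.1 q))) _
    have p3 := pow_pos (hβp q.1 q.2) (d' * k' * k - d * k * k')
    have p4 : β q.1 q.2 ^ (d * k * k') / β q.1 q.2 ^ (d' * k' * k) =
        (β q.1 q.2 ^ (d' * k' * k - d * k * k'))⁻¹ := by
      rw [pow_sub₀ _ (hβp q.1 q.2).ne' hd, mul_inv, inv_inv, div_eq_mul_inv, mul_comm]
    rw [hform, p4, mul_inv, inv_inv]
    have p5 := inv_pos.mpr p3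
    rw [mul_comm ((β q.1 q.2 ^ (d' * k' * k - d * k * k'))⁻¹), div_self (mul_pos (mul_pos p1 p2) p5).ne']

/-- a maximal member of a finite set of pairwise comparable families -/
theorem max_fam {ι : Type*} (S : Finset ι) (hS : S.Nonempty) (h : ι → ℕ × II → ℝ)
    (hp : ∀ i ∈ S, ∀ q, 0 < h i q)
    (ht : ∀ i ∈ S, ∀ k ∈ S, Tame (fun q => h i q / h k q)) :
    ∃ i ∈ S, ∀ k ∈ S, ∃ c : ℝ, 0 ≤ c ∧ Tendsto (fun q => h k q / h i q) (LX II) (𝓝 c) := by
  classical
  induction hS using Finset.Nonempty.cons_induction with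
  | singleton a =>
    refine ⟨a, Finset.mem_singleton_self a, fun k hk => ?_⟩
    rw [Finset.mem_singleton] at hk
    subst hk
    refine ⟨1, zero_le_one, tendsto_const_nhds.congr fun q => ?_⟩
    rw [div_self (hp k (Finset.mem_singleton_self k) q).ne']
  | cons a T ha hT ih =>
    obtain ⟨i, hi, h1⟩ := ih (fun i hi => hp i (Finset.mem_cons.mpr (Or.inr hi)))
      (fun i hi k hk => ht i (Finset.mem_cons.mpr (Or.inr hi)) k (Finset.mem_cons.mpr (Or.inr hk)))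
    have hi' : i ∈ Finset.cons a T ha := Finset.mem_cons.mpr (Or.inr hi)
    have ha' : a ∈ Finset.cons a T ha := Finset.mem_cons.mpr (Or.inl rfl)
    have hself : ∀ k ∈ Finset.cons a T ha, Tendsto (fun q => h k q / h k q) (LX II) (𝓝 1) := by
      intro k hk
      refine tendsto_const_nhds.congr fun q => ?_
      rw [div_self (hp k hk q).ne']
    rcases (ht a ha' i hi').tri with h2 | ⟨c, hc, h2⟩ | h2
    · refine ⟨i, hi', fun k hk => ?_⟩
      rcases Finset.mem_cons.mp hk with rfl | hk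
      · exact ⟨0, le_rfl, h2⟩
      · exact h1 k hk
    · refine ⟨i, hi', fun k hk => ?_⟩
      rcases Finset.mem_cons.mp hk with rfl | hk
      · exact ⟨c, hc.le, h2⟩
      · exact h1 k hk
    · refine ⟨a, ha', fun k hk => ?_⟩
      rcases Finset.mem_cons.mp hk with rfl | hk
      · exact ⟨1, zero_le_one, hself k ha'⟩
      · obtain ⟨c, hc, h3⟩ := h1 k hk
        refine ⟨0, le_rfl, ?_⟩
        have h4 := h3.mul h2.inv_tendsto_atTop
        rw [mul_zero] at h4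
        refine h4.congr fun q => ?_
        have p1 := (hp i hi' q).ne'
        have p2 := (hp a ha' q).ne'
        simp only [Pi.inv_apply]
        field_simp

end Pool.Agent.H51.BJ
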