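import Pool.Agent.H51.BJ.LDef

/-! # [H51 BJ NGD] Geometry of the leaf at a small scale -/

set_option autoImplicit false

open MvPolynomial Filter Pool.Agent.H60 Pool.Agent.H57.BJ
open scoped Topology

noncomputable section

namespace Pool.Agent.H51.BJ

variable {n : ℕ} {W : Finset (Fin n)}

theorem ngd_tw (z : V n) : tp W z + wp W z = z := by
  funext i
  show (if i ∈ W then 0 else z i) + (if i ∈ W then z i else 0) = z i
  split_ifs <;> simp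

theorem ngd_tp_add (y z : V n) : tp W (y + z) = tp W y + tp W z := by
  funext i
  show (if i ∈ W then 0 else y i + z i) = (if i ∈ W then 0 else y i) + (if i ∈ W then 0 else z i)
  split_ifs <;> simp

theorem ngd_tp_smul (c : ℂ) (z : V n) : tp W (c • z) = c • tp W z := by
  funext i
  show (if i ∈ W then 0 else c * z i) = c * (if i ∈ W then 0 else z i)
  split_ifs <;> simp

theorem ngd_tp_norm (z : V n) : ‖tp W z‖ ≤ ‖z‖ := by
  rw [pi_norm_le_iff_of_nonneg (norm_nonneg _)]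
  intro i
  show ‖(if i ∈ W then 0 else z i : ℂ)‖ ≤ ‖z‖
  split_ifs
  · rw [norm_zero]
    exact norm_nonneg _
  · exact norm_le_pi_norm z i

theorem ngd_tp_cont : Continuous (tp W : V n → V n) := by
  refine continuous_pi fun i => ?_
  show Continuous fun z : V n => (if i ∈ W then 0 else z i : ℂ)
  split_ifs
  · exact continuous_const
  · exact continuous_apply i

variable {g : Germ n} {Q : Fin n → MvPolynomial (Fin n) ℂ} {a : ℕ → II → V n → V n}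
    {D : ℕ → II → V n → V n →L[ℂ] V n} {β : ℕ → II → ℝ} {u : V n} {e : ℕ → II → V n}

theorem ngd_ball (hb : ∀ j l, 0 < g.b j l) (heb : ∀ j l, ‖e j l‖ ≤ 1 / 4) (j : ℕ) (l : II) :
    ‖tp W (g.c j l + (g.b j l : ℂ) • e j l - g.c j l)‖ ≤ g.b j l / 4 := by
  rw [add_sub_cancel_left]
  refine (ngd_tp_norm _).trans ?_
  rw [norm_smul, Complex.norm_real, Real.norm_eq_abs, abs_of_pos (hb j l)]
  calc g.b j l * ‖e j l‖ ≤ g.b j l * (1 / 4) := mul_le_mul_of_nonneg_left (heb j l) (hb j l).le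
    _ = g.b j l / 4 := by ring

theorem ngd_lp_small (hb : ∀ j l, 0 < g.b j l) (hL : Leaf g W Q a D)
    (hew : ∀ j l, wp W (e j l) = 0) (heb : ∀ j l, ‖e j l‖ ≤ 1 / 4)
    (hes : Tendsto (fun q : ℕ × II => e q.1 q.2) (LX II) (𝓝 0)) :
    Tendsto (fun q : ℕ × II => ‖lp W a q.1 q.2 (g.c q.1 q.2 + (g.b q.1 q.2 : ℂ) • e q.1 q.2) -
      g.c q.1 q.2‖ / g.b q.1 q.2) (LX II) (𝓝 0) := by
  rw [Metric.tendsto_nhds]
  intro ε hε
  have h1 : ∀ᶠ q : ℕ × II in LX II, ‖e q.1 q.2‖ < ε / 2 := by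
    have := hes.norm
    rw [norm_zero] at this
    exact this.eventually (eventually_lt_nhds (by positivity))
  filter_upwards [h1, hL.small (ε / 4) (by positivity)] with q hq1 hq2
  have hbq := hb q.1 q.2
  have h2 := hq2 (g.c q.1 q.2 + (g.b q.1 q.2 : ℂ) • e q.1 q.2)
    ((ngd_ball hb heb q.1 q.2).trans (by linarith))
  have h3 : lp W a q.1 q.2 (g.c q.1 q.2 + (g.b q.1 q.2 : ℂ) • e q.1 q.2) - g.c q.1 q.2 =
      (g.b q.1 q.2 : ℂ) • e q.1 q.2 +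
        (a q.1 q.2 (g.c q.1 q.2 + (g.b q.1 q.2 : ℂ) • e q.1 q.2) - wp W (g.c q.1 q.2)) := by
    unfold lp
    rw [ngd_tp_add, ngd_tp_smul]
    have h4 : tp W (e q.1 q.2) = e q.1 q.2 := by
      have := ngd_tw (W := W) (e q.1 q.2)
      rw [hew, add_zero] at this
      exact this
    rw [h4]
    have h5 := ngd_tw (W := W) (g.c q.1 q.2)
    have h6 : tp W (g.c q.1 q.2) = g.c q.1 q.2 - wp W (g.c q.1 q.2) := eq_sub_of_add_eq h5
    rw [h6]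
    abel
  rw [Real.dist_eq, sub_zero, abs_of_nonneg (by positivity), div_lt_iff₀ hbq, h3]
  have h7 : ‖(g.b q.1 q.2 : ℂ) • e q.1 q.2‖ ≤ g.b q.1 q.2 * (ε / 2) := by
    rw [norm_smul, Complex.norm_real, Real.norm_eq_abs, abs_of_pos hbq]
    exact mul_le_mul_of_nonneg_left hq1.le hbq.le
  have h8 := norm_add_le ((g.b q.1 q.2 : ℂ) • e q.1 q.2)
    (a q.1 q.2 (g.c q.1 q.2 + (g.b q.1 q.2 : ℂ) • e q.1 q.2) - wp W (g.c q.1 q.2))
  have h9 : 0 < ε * g.b q.1 q.2 := by positivity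
  nlinarith

theorem ngd_delta (hb : ∀ j l, 0 < g.b j l) (hL : Leaf g W Q a D) (hβp : ∀ j l, 0 < β j l)
    (hβs : Tendsto (fun q : ℕ × II => β q.1 q.2 / g.b q.1 q.2) (LX II) (𝓝 0))
    (heb : ∀ j l, ‖e j l‖ ≤ 1 / 4) (ε : ℝ) (hε : 0 < ε) :
    ∀ᶠ q : ℕ × II in LX II, ∀ s : V n, ‖s‖ ≤ 1 →
      ‖a q.1 q.2 (g.c q.1 q.2 + (g.b q.1 q.2 : ℂ) • e q.1 q.2) -
        a q.1 q.2 (g.c q.1 q.2 + (g.b q.1 q.2 : ℂ) • e q.1 q.2 + (β q.1 q.2 : ℂ) • s)‖ ≤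
        ε * β q.1 q.2 := by
  have h1 : ∀ᶠ q : ℕ × II in LX II, β q.1 q.2 / g.b q.1 q.2 < 1 / 4 :=
    hβs.eventually (eventually_lt_nhds (by norm_num))
  filter_upwards [h1, hL.der (ε / 2) (by positivity)] with q hq1 hq2 s hs
  have hbq := hb q.1 q.2
  have hβq := hβp q.1 q.2
  rw [div_lt_iff₀ hbq] at hq1
  set y := g.c q.1 q.2 + (g.b q.1 q.2 : ℂ) • e q.1 q.2 with hy
  have hn : ‖(β q.1 q.2 : ℂ) • s‖ ≤ β q.1 q.2 := by
    rw [norm_smul, Complex.norm_real, Real.norm_eq_abs, abs_of_pos hβq]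
    calc β q.1 q.2 * ‖s‖ ≤ β q.1 q.2 * 1 := mul_le_mul_of_nonneg_left hs hβq.le
      _ = _ := mul_one _
  have hb1 : ‖tp W (y - g.c q.1 q.2)‖ ≤ g.b q.1 q.2 / 2 :=
    (ngd_ball hb heb q.1 q.2).trans (by linarith)
  have hb2 : ‖tp W (y + (β q.1 q.2 : ℂ) • s - g.c q.1 q.2)‖ ≤ g.b q.1 q.2 / 2 := by
    have h3 : y + (β q.1 q.2 : ℂ) • s - g.c q.1 q.2 =
        (y - g.c q.1 q.2) + (β q.1 q.2 : ℂ) • s := by abel
    rw [h3, ngd_tp_add]
    refine (norm_add_le _ _).trans ?_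
    have h4 := ngd_ball hb heb (W := W) (g := g) (e := e) q.1 q.2
    have h5 := (ngd_tp_norm (W := W) ((β q.1 q.2 : ℂ) • s)).trans hn
    linarith
  obtain ⟨d1, d2⟩ := hq2 y hb1
  have h6 := d2 (y + (β q.1 q.2 : ℂ) • s) hb2
  rw [add_sub_cancel_left] at h6
  have h7 := d1 ((β q.1 q.2 : ℂ) • s)
  have h8 : a q.1 q.2 y - a q.1 q.2 (y + (β q.1 q.2 : ℂ) • s) =
      -(a q.1 q.2 (y + (β q.1 q.2 : ℂ) • s) - a q.1 q.2 y -
        D q.1 q.2 y ((β q.1 q.2 : ℂ) • s)) - D q.1 q.2 y ((β q.1 q.2 : ℂ) • s) := by abel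
  rw [h8]
  refine (norm_sub_le _ _).trans ?_
  rw [norm_neg]
  have h9 : ε / 2 / g.b q.1 q.2 * ‖(β q.1 q.2 : ℂ) • s‖ ^ 2 ≤ ε / 2 * β q.1 q.2 * (1 / 4) := by
    have h10 : ‖(β q.1 q.2 : ℂ) • s‖ ^ 2 ≤ β q.1 q.2 * (g.b q.1 q.2 * (1 / 4)) := by
      have : ‖(β q.1 q.2 : ℂ) • s‖ ^ 2 ≤ β q.1 q.2 ^ 2 :=
        pow_le_pow_left₀ (norm_nonneg _) hn 2
      nlinarith
    calc ε / 2 / g.b q.1 q.2 * ‖(β q.1 q.2 : ℂ) • s‖ ^ 2 ≤
        ε / 2 / g.b q.1 q.2 * (β q.1 q.2 * (g.b q.1 q.2 * (1 / 4))) := by gcongr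
      _ = ε / 2 * β q.1 q.2 * (1 / 4) := by field_simp
  have h11 : ε / 2 * ‖(β q.1 q.2 : ℂ) • s‖ ≤ ε / 2 * β q.1 q.2 := by gcongr
  have h12 : 0 < ε * β q.1 q.2 := by positivity
  linarith

/-- the centre of the new germ is continuous -/
theorem ngd_cont (hb : ∀ j l, 0 < g.b j l) (hcc : ∀ j, Continuous (g.c j))
    (hcb : ∀ j, Continuous (g.b j)) (hL : Leaf g W Q a D)
    (hec : ∀ j, Continuous (e j)) (heb : ∀ j l, ‖e j l‖ ≤ 1 / 4) (j : ℕ) :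
    Continuous fun l => lp W a j l (g.c j l + (g.b j l : ℂ) • e j l) := by
  have h1 : Continuous fun l => g.c j l + (g.b j l : ℂ) • e j l :=
    (hcc j).add ((Complex.continuous_ofReal.comp (hcb j)).smul (hec j))
  have h2 : Continuous fun l : II => a j l (g.c j l + (g.b j l : ℂ) • e j l) := by
    have h3 := (hL.cont j).comp_continuous (continuous_id.prodMk (hec j)) (fun l => by
      refine Set.mem_prod.2 ⟨Set.mem_univ _, ?_⟩
      rw [Metric.mem_closedBall, dist_zero_right]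
      exact (heb j l).trans (by norm_num))
    exact h3
  exact (ngd_tp_cont.comp h1).add h2

/-- the new germ is a refinement -/
theorem ngd_ref (hb : ∀ j l, 0 < g.b j l) (hL : Leaf g W Q a D) (hβp : ∀ j l, 0 < β j l)
    (hβs : Tendsto (fun q : ℕ × II => β q.1 q.2 / g.b q.1 q.2) (LX II) (𝓝 0))
    (hew : ∀ j l, wp W (e j l) = 0) (heb : ∀ j l, ‖e j l‖ ≤ 1 / 4)
    (hes : Tendsto (fun q : ℕ × II => e q.1 q.2) (LX II) (𝓝 0)) :
    Ref ⟨fun j l => lp W a j l (g.c j l + (g.b j l : ℂ) • e j l) + (β j l : ℂ) • u, β⟩ g := by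
  refine ⟨?_, hβs⟩
  have h1 := ngd_lp_small hb hL hew heb hes
  have h2 := hβs.mul_const ‖u‖
  rw [zero_mul] at h2
  have h3 := h1.add h2
  rw [add_zero] at h3
  refine squeeze_zero (fun q => by have := hb q.1 q.2; positivity) (fun q => ?_) h3
  have hbq := hb q.1 q.2
  have hβq := hβp q.1 q.2
  show ‖lp W a q.1 q.2 (g.c q.1 q.2 + (g.b q.1 q.2 : ℂ) • e q.1 q.2) + (β q.1 q.2 : ℂ) • u -
    g.c q.1 q.2‖ / g.b q.1 q.2 ≤ _
  have h4 : lp W a q.1 q.2 (g.c q.1 q.2 + (g.b q.1 q.2 : ℂ) • e q.1 q.2) + (β q.1 q.2 : ℂ) • u -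
      g.c q.1 q.2 = (lp W a q.1 q.2 (g.c q.1 q.2 + (g.b q.1 q.2 : ℂ) • e q.1 q.2) -
      g.c q.1 q.2) + (β q.1 q.2 : ℂ) • u := by abel
  rw [h4, div_le_iff₀ hbq]
  refine (norm_add_le _ _).trans (le_of_eq ?_)
  rw [norm_smul, Complex.norm_real, Real.norm_eq_abs, abs_of_pos hβq]
  field_simp

end Pool.Agent.H51.BJ
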