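import Pool.Agent.H51.BJ.LVA
import Pool.Agent.H51.BJ.NGB
import Pool.Agent.H51.BJ.NGC
import Pool.Agent.H51.BJ.NGD

/-! # [H51 BJ NGL] The new germ lemma (proofs id 313, Section 4, R5)

`ng g W a β u e`: the germ with centre (leaf point over `c + b e`) `+ β u` and radius `β`. -/

set_option autoImplicit false

open MvPolynomial Filter Pool.Agent.H60 Pool.Agent.H57.BJ
open scoped Topology

noncomputable section

namespace Pool.Agent.H51.BJ

variable {n : ℕ}

/-- the new germ -/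
def ng (g : Germ n) (W : Finset (Fin n)) (a : ℕ → II → V n → V n) (β : ℕ → II → ℝ) (u : V n)
    (e : ℕ → II → V n) : Germ n :=
  ⟨fun j l => lp W a j l (g.c j l + (g.b j l : ℂ) • e j l) + (β j l : ℂ) • u, β⟩

variable {F : ℕ → V n → ℂ} {W : Finset (Fin n)} {g : Germ n} {z κ : ℕ → V n}
    {Q : Fin n → MvPolynomial (Fin n) ℂ} {φ : Fin n → ℂ} {a : ℕ → II → V n → V n}
    {D : ℕ → II → V n → V n →L[ℂ] V n} {β : ℕ → II → ℝ} {u : V n} {e : ℕ → II → V n}

/-- uniform convergence on the unit ball implies coefficientwise convergence -/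
theorem ngl_unif {p : ℕ × II → MvPolynomial (Fin n) ℂ} {A : MvPolynomial (Fin n) ℂ}
    (h : ∀ ε : ℝ, 0 < ε → ∀ᶠ q in LX II, ∀ s : V n, ‖s‖ ≤ 1 → ‖ev (p q) s - ev A s‖ ≤ ε) :
    PT (LX II) p A := by
  intro m
  rw [Metric.tendsto_nhds]
  intro ε hε
  filter_upwards [h (ε / 2) (by positivity)] with q hq
  have h1 := cauchy (p q - A) (M := ε / 2) (fun s hs => by
    have h2 : ev (p q - A) s = ev (p q) s - ev A s := by
      unfold ev
      exact map_sub _ _ _
    rw [h2]
    exact hq s hs) m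
  rw [dist_eq_norm, ← MvPolynomial.coeff_sub]
  linarith

/-- continuous functions and nearby points in a ball -/
theorem ngl_near {α : Type*} {L : Filter α} {G : V n → ℂ} (hG : Continuous G) {w w0 : α → V n}
    {R : ℝ} (h0 : ∀ x, ‖w0 x‖ ≤ R) (h : Tendsto (fun x => w x - w0 x) L (𝓝 0)) :
    Tendsto (fun x => G (w x) - G (w0 x)) L (𝓝 0) := by
  have hc : IsCompact (Metric.closedBall (0 : V n) (R + 1)) := isCompact_closedBall _ _
  have hu := hc.uniformContinuousOn_of_continuous hG.continuousOn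
  rw [Metric.uniformContinuousOn_iff] at hu
  rw [Metric.tendsto_nhds]
  intro ε hε
  obtain ⟨δ, hδ, hd⟩ := hu ε hε
  rw [Metric.tendsto_nhds] at h
  filter_upwards [h (min δ 1) (lt_min hδ one_pos)] with x hx
  rw [dist_zero_right] at hx
  have h1 : ‖w x‖ ≤ R + 1 := by
    have h2 : w x = w0 x + (w x - w0 x) := by abel
    rw [h2]
    exact (norm_add_le _ _).trans (add_le_add (h0 x) (hx.le.trans (min_le_right _ _)))
  have h3 := hd (w x) (by rw [Metric.mem_closedBall, dist_zero_right]; exact h1) (w0 x)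
    (by rw [Metric.mem_closedBall, dist_zero_right]; exact (h0 x).trans (by linarith))
    (by rw [dist_eq_norm]; exact lt_of_lt_of_le hx (min_le_left _ _))
  rw [dist_zero_right, ← dist_eq_norm]
  exact h3

/-- the ball of radius one -/
abbrev B1 (n : ℕ) : Type := ↥(Metric.closedBall (0 : V n) 1)

/-- the point of the half ball -/
def zt (g : Germ n) (β : ℕ → II → ℝ) (e : ℕ → II → V n) (x : ℕ × (II × B1 n)) : V n :=
  e x.1 x.2.1 + ((β x.1 x.2.1 / g.b x.1 x.2.1 : ℝ) : ℂ) • (x.2.2 : V n)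

open Classical in
/-- the change of parameters -/
def Ph (g : Germ n) (β : ℕ → II → ℝ) (e : ℕ → II → V n) (x : ℕ × (II × B1 n)) : ℕ × XX n :=
  (x.1, (x.2.1, if h : zt g β e x ∈ Metric.closedBall (0 : V n) (1 / 2) then ⟨zt g β e x, h⟩ else
    ⟨0, by rw [Metric.mem_closedBall, dist_self]; norm_num⟩))

theorem ngl_Ph : Tendsto (Ph g β e) (LX (II × B1 n)) (LX (XX n)) := by
  refine Tendsto.prodMk tendsto_fst ?_
  exact tendsto_top

/-- the base point of the leaf -/
def yy (g : Germ n) (β : ℕ → II → ℝ) (e : ℕ → II → V n) (x : ℕ × (II × B1 n)) : V n :=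
  g.c x.1 x.2.1 + (g.b x.1 x.2.1 : ℂ) • e x.1 x.2.1 + (β x.1 x.2.1 : ℂ) • (x.2.2 : V n)

theorem ngl_pt (hb : ∀ j l, 0 < g.b j l) (hβp : ∀ j l, 0 < β j l)
    (hβs : Tendsto (fun q : ℕ × II => β q.1 q.2 / g.b q.1 q.2) (LX II) (𝓝 0))
    (heb : ∀ j l, ‖e j l‖ ≤ 1 / 4) :
    ∀ᶠ x in LX (II × B1 n), pt g W a (Ph g β e x) = lp W a x.1 x.2.1 (yy g β e x) := by
  have h1 : ∀ᶠ q : ℕ × II in LX II, β q.1 q.2 / g.b q.1 q.2 < 1 / 4 :=
    hβs.eventually (eventually_lt_nhds (by norm_num))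
  rw [ev_LX] at h1
  rw [ev_LX]
  filter_upwards [h1] with j hj x
  obtain ⟨l, s, hs⟩ := x
  have hbq := hb j l
  have hβq := hβp j l
  have h2 := hj l
  have hs' : ‖s‖ ≤ 1 := by rwa [Metric.mem_closedBall, dist_zero_right] at hs
  have h3 : zt g β e (j, (l, ⟨s, hs⟩)) ∈ Metric.closedBall (0 : V n) (1 / 2) := by
    rw [Metric.mem_closedBall, dist_zero_right]
    refine (norm_add_le _ _).trans ?_
    rw [norm_smul, Complex.norm_real, Real.norm_eq_abs, abs_of_pos (div_pos hβq hbq)]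
    have h4 : β j l / g.b j l * ‖s‖ ≤ 1 / 4 * 1 :=
      mul_le_mul h2.le hs' (norm_nonneg _) (by norm_num)
    have h5 := heb j l
    show ‖e j l‖ + β j l / g.b j l * ‖s‖ ≤ 1 / 2
    linarith
  show lp W a j l (g.c j l + (g.b j l : ℂ) • ((Ph g β e (j, (l, ⟨s, hs⟩))).2.2 : V n)) = _
  have h6 : ((Ph g β e (j, (l, ⟨s, hs⟩))).2.2 : V n) = zt g β e (j, (l, ⟨s, hs⟩)) := by
    unfold Ph
    rw [dif_pos h3]
  rw [h6]
  congr 1
  show g.c j l + (g.b j l : ℂ) • (e j l + ((β j l / g.b j l : ℝ) : ℂ) • s) =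
    g.c j l + (g.b j l : ℂ) • e j l + (β j l : ℂ) • s
  rw [smul_add, smul_smul, ← Complex.ofReal_mul, mul_div_cancel₀ _ hbq.ne', add_assoc]

/-- the displacement, divided by the radius (with the `t`-part replaced) -/
def ww (W : Finset (Fin n)) (g : Germ n) (a : ℕ → II → V n → V n) (β : ℕ → II → ℝ) (u : V n)
    (e : ℕ → II → V n) (x : ℕ × (II × B1 n)) : V n :=
  u + (x.2.2 : V n) + ((β x.1 x.2.1 : ℂ)⁻¹) • (a x.1 x.2.1 (g.c x.1 x.2.1 +
    (g.b x.1 x.2.1 : ℂ) • e x.1 x.2.1) - a x.1 x.2.1 (yy g β e x))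

theorem ngl_ww (hb : ∀ j l, 0 < g.b j l) (hL : Leaf g W Q a D) (hβp : ∀ j l, 0 < β j l)
    (hβs : Tendsto (fun q : ℕ × II => β q.1 q.2 / g.b q.1 q.2) (LX II) (𝓝 0))
    (heb : ∀ j l, ‖e j l‖ ≤ 1 / 4) :
    Tendsto (fun x : ℕ × (II × B1 n) => ww W g a β u e x - (u + (x.2.2 : V n)))
      (LX (II × B1 n)) (𝓝 0) := by
  rw [Metric.tendsto_nhds]
  intro ε hε
  have h1 := ngd_delta hb hL hβp hβs heb (ε / 2) (by positivity)
  rw [ev_LX] at h1
  rw [ev_LX]
  filter_upwards [h1] with j hj x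
  obtain ⟨l, s, hs⟩ := x
  have hβq := hβp j l
  have hs' : ‖s‖ ≤ 1 := by rwa [Metric.mem_closedBall, dist_zero_right] at hs
  have h2 := hj l s hs'
  rw [dist_zero_right]
  unfold ww
  rw [add_sub_cancel_left, norm_smul, norm_inv, Complex.norm_real, Real.norm_eq_abs,
    abs_of_pos (show 0 < β (j, (l, (⟨s, hs⟩ : B1 n))).1 (j, (l, (⟨s, hs⟩ : B1 n))).2.1 from hβq)]
  show (β j l)⁻¹ * ‖a j l (g.c j l + (g.b j l : ℂ) • e j l) -
    a j l (g.c j l + (g.b j l : ℂ) • e j l + (β j l : ℂ) • s)‖ < ε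
  calc (β j l)⁻¹ * ‖a j l (g.c j l + (g.b j l : ℂ) • e j l) -
      a j l (g.c j l + (g.b j l : ℂ) • e j l + (β j l : ℂ) • s)‖ ≤ (β j l)⁻¹ * (ε / 2 * β j l) := by
        gcongr
    _ = ε / 2 := by field_simp
    _ < ε := by linarith

/-- the values of `f` near the new centre -/
theorem ngl_expand (hβp : ∀ j l, 0 < β j l) (hL : Leaf g W Q a D) (hu : tp W u = 0)
    (f : MvPolynomial (Fin n) ℂ) (x : ℕ × (II × B1 n)) :
    ev (rg (ng g W a β u e) f (x.1, x.2.1)) (x.2.2 : V n) =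
      ∑ m ∈ (Ty f).support, ev (hs m f) (lp W a x.1 x.2.1 (yy g β e x)) *
        (if ∀ i, i ∉ W → m i = 0 then ((β x.1 x.2.1 ^ m.degree : ℝ) : ℂ) *
          ∏ i, ww W g a β u e x i ^ m i else 0) := by
  obtain ⟨j, l, s, hs⟩ := x
  have hβq := hβp j l
  have hβc : (β j l : ℂ) ≠ 0 := by exact_mod_cast hβq.ne'
  unfold rg
  rw [ev_rs]
  set y0 : V n := g.c j l + (g.b j l : ℂ) • e j l with hy0
  set x : ℕ × (II × B1 n) := (j, (l, ⟨s, hs⟩)) with hx
  have hyy : yy g β e x = y0 + (β j l : ℂ) • s := rfl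
  set v : V n := (ng g W a β u e).c j l + (β j l : ℂ) • s - lp W a j l (yy g β e x) with hv
  have h1 : (ng g W a β u e).c (x.1, x.2.1).1 (x.1, x.2.1).2 +
      (((ng g W a β u e).b (x.1, x.2.1).1 (x.1, x.2.1).2 : ℝ) : ℂ) • (x.2.2 : V n) =
      lp W a j l (yy g β e x) + v := by
    rw [hv]
    show (ng g W a β u e).c j l + (β j l : ℂ) • s = _
    abel
  rw [h1, ev_add_hs]
  refine Finset.sum_congr rfl fun m _ => ?_
  congr 1
  -- coordinates of v
  have hvW : ∀ i, i ∉ W → v i = 0 := by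
    intro i hi
    have h2 : tp W v = 0 := by
      have h3 : v = (tp W y0 - tp W (y0 + (β j l : ℂ) • s)) +
          (a j l y0 - a j l (y0 + (β j l : ℂ) • s)) + (β j l : ℂ) • u + (β j l : ℂ) • s := by
        rw [hv, hyy]
        show lp W a j l y0 + (β j l : ℂ) • u + (β j l : ℂ) • s -
          lp W a j l (y0 + (β j l : ℂ) • s) = _
        unfold lp
        abel
      have h4 : tp W (a j l y0 - a j l (y0 + (β j l : ℂ) • s)) = 0 := by
        have h5 := hL.tpz j l y0
        have h6 := hL.tpz j l (y0 + (β j l : ℂ) • s)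
        have h7 : tp W (a j l y0) = tp W (a j l y0 - a j l (y0 + (β j l : ℂ) • s)) +
            tp W (a j l (y0 + (β j l : ℂ) • s)) := by
          rw [← ngd_tp_add]
          congr 1
          abel
        rw [h5, h6, add_zero] at h7
        exact h7.symm
      have h8 : ∀ z : V n, tp W (tp W z) = tp W z := by
        intro z
        funext i
        show (if i ∈ W then 0 else (if i ∈ W then 0 else z i)) = (if i ∈ W then 0 else z i)
        split_ifs <;> rfl
      have h9 : tp W y0 - tp W (y0 + (β j l : ℂ) • s) = -((β j l : ℂ) • tp W s) := by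
        rw [ngd_tp_add y0 ((β j l : ℂ) • s), ngd_tp_smul]
        abel
      rw [h3, ngd_tp_add, ngd_tp_add, ngd_tp_add, h4, ngd_tp_smul, hu, smul_zero, h9,
        ngd_tp_smul]
      have h10 : -((β j l : ℂ) • tp W s) = (-(β j l : ℂ)) • tp W s := by rw [neg_smul]
      rw [h10, ngd_tp_smul, h8, neg_smul]
      abel
    have h11 : tp W v i = v i := by
      show (if i ∈ W then 0 else v i) = v i
      rw [if_neg hi]
    rw [← h11, h2]
    rfl
  have hvw : ∀ i ∈ W, v i = (β j l : ℂ) * ww W g a β u e x i := by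
    intro i hi
    have h3 : v = (tp W y0 - tp W (y0 + (β j l : ℂ) • s)) +
        ((a j l y0 - a j l (y0 + (β j l : ℂ) • s)) + (β j l : ℂ) • u + (β j l : ℂ) • s) := by
      rw [hv, hyy]
      show lp W a j l y0 + (β j l : ℂ) • u + (β j l : ℂ) • s -
        lp W a j l (y0 + (β j l : ℂ) • s) = _
      unfold lp
      abel
    have h4 : (tp W y0 - tp W (y0 + (β j l : ℂ) • s)) i = 0 := by
      show (if i ∈ W then 0 else y0 i) - (if i ∈ W then 0 else (y0 + (β j l : ℂ) • s) i) = 0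
      rw [if_pos hi, if_pos hi, sub_zero]
    have h5 : (β j l : ℂ) • ww W g a β u e x =
        (a j l y0 - a j l (y0 + (β j l : ℂ) • s)) + (β j l : ℂ) • u + (β j l : ℂ) • s := by
      show (β j l : ℂ) • (u + s + ((β j l : ℂ)⁻¹) • (a j l y0 -
        a j l (y0 + (β j l : ℂ) • s))) = _
      rw [smul_add, smul_add, smul_smul, mul_inv_cancel₀ hβc, one_smul]
      abel
    have h6 : v i = ((β j l : ℂ) • ww W g a β u e x) i := by
      rw [h5]
      conv_lhs => rw [h3]
      show (tp W y0 - tp W (y0 + (β j l : ℂ) • s)) i + _ = _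
      rw [h4, zero_add]
    rw [h6]
    rfl
  split_ifs with hm
  · have h7 : ∀ i, v i ^ m i = (β j l : ℂ) ^ m i * ww W g a β u e x i ^ m i := by
      intro i
      by_cases hi : i ∈ W
      · rw [hvw i hi, mul_pow]
      · rw [hm i hi, pow_zero, pow_zero, pow_zero, mul_one]
    rw [Finset.prod_congr rfl fun i _ => h7 i, Finset.prod_mul_distrib, Finset.prod_pow_eq_pow_sum]
    congr 1
    rw [Complex.ofReal_pow]
    congr 1
    show ∑ i, m i = m.degree
    rw [Finsupp.degree_eq_sum]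
  · push Not at hm
    obtain ⟨i, hi, hmi⟩ := hm
    exact Finset.prod_eq_zero (Finset.mem_univ i) (by rw [hvW i hi, zero_pow hmi])

/-- the size and the limit of a polynomial at the new germ -/
theorem ngl_core (h : Pre F W g z κ Q φ) (hL : Leaf g W Q a D)
    (hβp : ∀ j l, 0 < β j l)
    (hβs : Tendsto (fun q : ℕ × II => β q.1 q.2 / g.b q.1 q.2) (LX II) (𝓝 0))
    (hβt : ∀ f f', CT W f → CT W f' → ∀ p : ℕ,
      Tame (fun q => β q.1 q.2 ^ p * (NN g f q / NN g f' q)))
    (hu : tp W u = 0) (heb : ∀ j l, ‖e j l‖ ≤ 1 / 4)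
    {f : MvPolynomial (Fin n) ℂ} (hf : f ≠ 0) :
    ∃ (k : ℕ) (f1 f2 : MvPolynomial (Fin n) ℂ) (d : ℕ) (G : MvPolynomial (Fin n) ℂ),
      1 ≤ k ∧ CT W f1 ∧ CT W f2 ∧ G ≠ 0 ∧ G ∈ MvPolynomial.supported ℂ (W : Set (Fin n)) ∧
        PT (LX II) (fun q => C (((HH g β k f1 f2 d q : ℝ) : ℂ)⁻¹) *
          rg (ng g W a β u e) f q) G := by
  classical
  have hb := h.pos
  have hT := h.limT
  -- uniform choice
  have hch : ∀ m : Fin n →₀ ℕ, ∃ (k : ℕ) (f1 f2 : MvPolynomial (Fin n) ℂ) (y : ℂ), 1 ≤ k ∧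
      CT W f1 ∧ CT W f2 ∧ (y = 0 → ∀ᶠ p in LX (XX n), ev (hs m f) (pt g W a p) = 0) ∧
      Tendsto (fun p : ℕ × XX n => ev (hs m f) (pt g W a p) /
        (((NN g f1 (p.1, p.2.1) / NN g f2 (p.1, p.2.1)) ^ ((1 : ℝ) / k) : ℝ) : ℂ))
        (LX (XX n)) (𝓝 y) := by
    intro m
    rcases leaf_value h hL (hs m f) with h0 | ⟨k, f1, f2, y, h1, h2, h3, h4, h5⟩
    · have hone : CT W (1 : MvPolynomial (Fin n) ℂ) := ⟨one_ne_zero, Subalgebra.one_mem _⟩
      refine ⟨1, 1, 1, 0, le_rfl, hone, hone, fun _ => h0, ?_⟩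
      refine tendsto_const_nhds.congr' ?_
      filter_upwards [h0] with p hp
      rw [hp, zero_div]
    · exact ⟨k, f1, f2, y, h1, h2, h3, fun h6 => absurd h6 h4, h5⟩
  choose k f1 f2 y hk hf1 hf2 hy0 hlim using hch
  set S0 := (Ty f).support.filter (fun m => ∀ i, i ∉ W → m i = 0) with hS0
  set M := S0.filter (fun m => y m ≠ 0) with hM
  set H : (Fin n →₀ ℕ) → ℕ × II → ℝ := fun m q => HH g β (k m) (f1 m) (f2 m) m.degree q with hH
  have hHp : ∀ m q, 0 < H m q := fun m q =>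
    HH_pos hb hβp (k m) (hf1 m).1 (hf2 m).1 m.degree q
  -- the limits of the Taylor coefficients in the new parameters
  have hpt := ngl_pt (W := W) (a := a) hb hβp hβs heb
  have hA : ∀ m, Tendsto (fun x : ℕ × (II × B1 n) =>
      ev (hs m f) (lp W a x.1 x.2.1 (yy g β e x)) /
        (((NN g (f1 m) (x.1, x.2.1) / NN g (f2 m) (x.1, x.2.1)) ^ ((1 : ℝ) / k m) : ℝ) : ℂ))
      (LX (II × B1 n)) (𝓝 (y m)) := by
    intro m
    refine ((hlim m).comp (ngl_Ph (g := g) (β := β) (e := e))).congr' ?_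
    filter_upwards [hpt] with x hx
    show ev (hs m f) (pt g W a (Ph g β e x)) / _ = _
    rw [hx]
    rfl
  have hz : ∀ m, y m = 0 → ∀ᶠ x in LX (II × B1 n),
      ev (hs m f) (lp W a x.1 x.2.1 (yy g β e x)) = 0 := by
    intro m hm
    have h1 := ngl_Ph (g := g) (β := β) (e := e) |>.eventually (hy0 m hm)
    filter_upwards [h1, hpt] with x hx1 hx2
    rwa [hx2] at hx1
  -- M is not empty
  have hMne : M.Nonempty := by
    by_contra hne
    rw [Finset.not_nonempty_iff_eq_empty] at hne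
    have h1 : ∀ m ∈ S0, y m = 0 := by
      intro m hm
      by_contra hcon
      have : m ∈ M := Finset.mem_filter.2 ⟨hm, hcon⟩
      rw [hne] at this
      exact absurd this (Finset.notMem_empty _)
    have h2 : ∀ᶠ x in LX (II × B1 n), ∀ m ∈ S0,
        ev (hs m f) (lp W a x.1 x.2.1 (yy g β e x)) = 0 :=
      (Filter.eventually_all_finset S0).2 fun m hm => hz m (h1 m hm)
    rw [ev_LX] at h2
    obtain ⟨j, hj⟩ := h2.exists
    have h3 : rg (ng g W a β u e) f (j, 0) = 0 := by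
      have h4 : ∀ m, ‖(rg (ng g W a β u e) f (j, 0)).coeff m‖ ≤ 0 := by
        refine cauchy _ (M := 0) (fun s hs => ?_)
        have hs' : s ∈ Metric.closedBall (0 : V n) 1 := by
          rwa [Metric.mem_closedBall, dist_zero_right]
        have h5 := ngl_expand (e := e) hβp hL hu f (j, ((0 : II), ⟨s, hs'⟩))
        have h6 : ev (rg (ng g W a β u e) f (j, 0)) s = 0 := by
          refine h5.trans ?_
          refine Finset.sum_eq_zero fun m hm => ?_
          split_ifs with hmW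
          · rw [hj (0, ⟨s, hs'⟩) m (Finset.mem_filter.2 ⟨hm, hmW⟩), zero_mul]
          · rw [mul_zero]
        rw [h6, norm_zero]
      refine MvPolynomial.ext _ _ fun m => ?_
      rw [MvPolynomial.coeff_zero]
      exact norm_le_zero_iff.1 (h4 m)
    exact rs_ne_zero _ (hβp j 0).ne' hf h3
  -- the maximal term
  obtain ⟨m0, hm0, hmax⟩ := max_fam M hMne H (fun m _ q => hHp m q)
    (fun m _ m' _ => tame_HH hb hT hβp hβt (hk m) (hk m') (hf1 m) (hf2 m) (hf1 m') (hf2 m')
      m.degree m'.degree)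
  have hmax' : ∀ m : Fin n →₀ ℕ, ∃ c : ℝ, 0 ≤ c ∧
      (m ∈ M → Tendsto (fun q => H m q / H m0 q) (LX II) (𝓝 c)) := by
    intro m
    by_cases hm : m ∈ M
    · obtain ⟨c, h1, h2⟩ := hmax m hm
      exact ⟨c, h1, fun _ => h2⟩
    · exact ⟨0, le_rfl, fun h3 => absurd h3 hm⟩
  choose c hc0 hc using hmax'
  have hc1 : c m0 = 1 := by
    have h1 := hc m0 hm0
    have h2 : Tendsto (fun q => H m0 q / H m0 q) (LX II) (𝓝 1) := by
      refine tendsto_const_nhds.congr fun q => ?_
      rw [div_self (hHp m0 q).ne']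
    exact tendsto_nhds_unique h1 h2
  set G0 : MvPolynomial (Fin n) ℂ := ∑ m ∈ M, monomial m ((c m : ℂ) * y m) with hG0
  have hG0c : G0.coeff m0 = y m0 := by
    rw [hG0, MvPolynomial.coeff_sum]
    rw [Finset.sum_eq_single m0]
    · rw [MvPolynomial.coeff_monomial, if_pos rfl, hc1, Complex.ofReal_one, one_mul]
    · intro m _ hne
      rw [MvPolynomial.coeff_monomial, if_neg hne]
    · intro h1
      exact absurd hm0 h1
  have hG0ne : G0 ≠ 0 := by
    intro h1
    rw [h1, MvPolynomial.coeff_zero] at hG0c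
    exact (Finset.mem_filter.1 hm0).2 hG0c.symm
  have hG0s : G0 ∈ MvPolynomial.supported ℂ (W : Set (Fin n)) := by
    rw [hG0]
    refine Subalgebra.sum_mem _ fun m hm => ?_
    have hmW := (Finset.mem_filter.1 (Finset.mem_filter.1 hm).1).2
    by_cases hr : (c m : ℂ) * y m = 0
    · rw [hr, MvPolynomial.monomial_zero]
      exact Subalgebra.zero_mem _
    rw [MvPolynomial.mem_supported, MvPolynomial.vars_monomial hr]
    intro i hi
    by_contra hiW
    exact (Finsupp.mem_support_iff.1 hi) (hmW i (by simpa using hiW))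
  refine ⟨k m0, f1 m0, f2 m0, m0.degree, rs u 1 G0, hk m0, hf1 m0, hf2 m0,
    rs_ne_zero u one_ne_zero hG0ne, rs_supported u 1 hG0s, ?_⟩
  -- convergence
  refine ngl_unif ?_
  have key : Tendsto (fun x : ℕ × (II × B1 n) =>
      ((H m0 (x.1, x.2.1) : ℝ) : ℂ)⁻¹ * ev (rg (ng g W a β u e) f (x.1, x.2.1)) (x.2.2 : V n) -
        ev (rs u 1 G0) (x.2.2 : V n)) (LX (II × B1 n)) (𝓝 0) := by
    have hw := ngl_ww (u := u) hb hL hβp hβs heb
    -- each term
    have hterm : ∀ m ∈ (Ty f).support, Tendsto (fun x : ℕ × (II × B1 n) =>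
        ((H m0 (x.1, x.2.1) : ℝ) : ℂ)⁻¹ * (ev (hs m f) (lp W a x.1 x.2.1 (yy g β e x)) *
        (if ∀ i, i ∉ W → m i = 0 then ((β x.1 x.2.1 ^ m.degree : ℝ) : ℂ) *
          ∏ i, ww W g a β u e x i ^ m i else 0)) -
        (if m ∈ M then (c m : ℂ) * y m * ∏ i, (u + (x.2.2 : V n)) i ^ m i else 0))
        (LX (II × B1 n)) (𝓝 0) := by
      intro m hm
      by_cases hmM : m ∈ M
      · have hmS := (Finset.mem_filter.1 hmM).1
        have hmW := (Finset.mem_filter.1 hmS).2
        simp only [if_pos hmM, if_pos hmW]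
        -- h m / H m0
        have t1 : Tendsto (fun x : ℕ × (II × B1 n) => ((H m (x.1, x.2.1) / H m0 (x.1, x.2.1) : ℝ) : ℂ))
            (LX (II × B1 n)) (𝓝 (c m : ℂ)) := by
          have h1 : Tendsto (fun x : ℕ × (II × B1 n) => (x.1, x.2.1)) (LX (II × B1 n)) (LX II) :=
            Tendsto.prodMk tendsto_fst tendsto_top
          exact (Complex.continuous_ofReal.tendsto _).comp ((hc m hmM).comp h1)
        have t2 := t1.mul (hA m)
        have t3 : Tendsto (fun x : ℕ × (II × B1 n) => (∏ i, ww W g a β u e x i ^ m i) -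
            ∏ i, (u + (x.2.2 : V n)) i ^ m i) (LX (II × B1 n)) (𝓝 0) := by
          refine ngl_near (G := fun v : V n => ∏ i, v i ^ m i)
            (continuous_finsetProd _ fun i _ => (continuous_apply i).pow _) (R := ‖u‖ + 1)
            (fun x => ?_) hw
          refine (norm_add_le _ _).trans (add_le_add le_rfl ?_)
          have := x.2.2.2
          rwa [Metric.mem_closedBall, dist_zero_right] at this
        have t4 : ∃ K : ℝ, ∀ x : ℕ × (II × B1 n), ‖∏ i, (u + (x.2.2 : V n)) i ^ m i‖ ≤ K := by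
          have h1 : Continuous fun v : V n => ∏ i, v i ^ m i :=
            continuous_finsetProd _ fun i _ => (continuous_apply i).pow _
          obtain ⟨K, hK⟩ := (isCompact_closedBall (0 : V n) (‖u‖ + 1)).exists_bound_of_continuousOn
            h1.continuousOn
          refine ⟨K, fun x => hK _ ?_⟩
          rw [Metric.mem_closedBall, dist_zero_right]
          refine (norm_add_le _ _).trans (add_le_add le_rfl ?_)
          have := x.2.2.2
          rwa [Metric.mem_closedBall, dist_zero_right] at this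
        obtain ⟨K, hK⟩ := t4
        have t5 : Tendsto (fun x : ℕ × (II × B1 n) =>
            (((H m (x.1, x.2.1) / H m0 (x.1, x.2.1) : ℝ) : ℂ) *
              (ev (hs m f) (lp W a x.1 x.2.1 (yy g β e x)) /
              (((NN g (f1 m) (x.1, x.2.1) / NN g (f2 m) (x.1, x.2.1)) ^ ((1 : ℝ) / k m) : ℝ) : ℂ)) -
              (c m : ℂ) * y m) * ∏ i, (u + (x.2.2 : V n)) i ^ m i) (LX (II × B1 n)) (𝓝 0) := by
          have h1 : Tendsto (fun x : ℕ × (II × B1 n) =>
              (((H m (x.1, x.2.1) / H m0 (x.1, x.2.1) : ℝ) : ℂ) *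
              (ev (hs m f) (lp W a x.1 x.2.1 (yy g β e x)) /
              (((NN g (f1 m) (x.1, x.2.1) / NN g (f2 m) (x.1, x.2.1)) ^ ((1 : ℝ) / k m) : ℝ) : ℂ)) -
              (c m : ℂ) * y m)) (LX (II × B1 n)) (𝓝 0) := by
            have h2 := t2.sub_const ((c m : ℂ) * y m)
            rwa [sub_self] at h2
          have h3 := h1.norm.mul_const K
          rw [norm_zero, zero_mul] at h3
          refine squeeze_zero_norm (fun x => ?_) h3
          rw [norm_mul]
          exact mul_le_mul_of_nonneg_left (hK x) (norm_nonneg _)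
        have t6 := (t2.mul t3).add t5
        rw [mul_zero, add_zero] at t6
        refine t6.congr fun x => ?_
        have hβq := hβp x.1 x.2.1
        have hρ : 0 < (NN g (f1 m) (x.1, x.2.1) / NN g (f2 m) (x.1, x.2.1)) ^ ((1 : ℝ) / k m) :=
          Real.rpow_pos_of_pos (div_pos (NN_pos hb (hf1 m).1 _) (NN_pos hb (hf2 m).1 _)) _
        have hHm : H m (x.1, x.2.1) =
            (NN g (f1 m) (x.1, x.2.1) / NN g (f2 m) (x.1, x.2.1)) ^ ((1 : ℝ) / k m) *
              β x.1 x.2.1 ^ m.degree := rfl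
        rw [hHm]
        have hH0 := hHp m0 (x.1, x.2.1)
        have hρc : (((NN g (f1 m) (x.1, x.2.1) / NN g (f2 m) (x.1, x.2.1)) ^ ((1 : ℝ) / k m) : ℝ)
            : ℂ) ≠ 0 := by exact_mod_cast hρ.ne'
        have hH0c : ((H m0 (x.1, x.2.1) : ℝ) : ℂ) ≠ 0 := by exact_mod_cast hH0.ne'
        push_cast
        push_cast at hρc
        field_simp
        ring
      · simp only [if_neg hmM, sub_zero]
        by_cases hmW : ∀ i, i ∉ W → m i = 0
        · have hy : y m = 0 := by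
            by_contra hcon
            exact hmM (Finset.mem_filter.2 ⟨Finset.mem_filter.2 ⟨hm, hmW⟩, hcon⟩)
          refine tendsto_const_nhds.congr' ?_
          filter_upwards [hz m hy] with x hx
          rw [hx, zero_mul, mul_zero]
        · refine tendsto_const_nhds.congr fun x => ?_
          rw [if_neg hmW, mul_zero, mul_zero]
    have hsum := tendsto_finsetSum (Ty f).support hterm
    rw [Finset.sum_const_zero] at hsum
    refine hsum.congr fun x => ?_
    rw [Finset.sum_sub_distrib, ← Finset.mul_sum, ← ngl_expand hβp hL hu f x]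
    congr 1
    rw [ev_rs, Complex.ofReal_one, one_smul, hG0]
    have h1 : ev (∑ m ∈ M, monomial m ((c m : ℂ) * y m)) (u + (x.2.2 : V n)) =
        ∑ m ∈ M, (c m : ℂ) * y m * ∏ i, (u + (x.2.2 : V n)) i ^ m i := by
      unfold ev
      rw [map_sum]
      refine Finset.sum_congr rfl fun m _ => ?_
      rw [MvPolynomial.eval_monomial, Finsupp.prod_fintype _ _ (fun i => pow_zero _)]
    rw [h1, ← Finset.sum_filter]
    refine Finset.sum_congr ?_ fun _ _ => rfl
    ext m
    rw [Finset.mem_filter]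
    constructor
    · exact fun h2 => h2.2
    · intro h2
      exact ⟨(Finset.mem_filter.1 (Finset.mem_filter.1 h2).1).1, h2⟩
  intro ε hε
  have h1 : ∀ᶠ x in LX (II × B1 n),
      ‖((H m0 (x.1, x.2.1) : ℝ) : ℂ)⁻¹ * ev (rg (ng g W a β u e) f (x.1, x.2.1)) (x.2.2 : V n) -
        ev (rs u 1 G0) (x.2.2 : V n)‖ < ε := by
    have h2 := key.norm
    rw [norm_zero] at h2
    exact h2.eventually (eventually_lt_nhds hε)
  rw [ev_LX] at h1
  rw [ev_LX]
  filter_upwards [h1] with j hj l s hs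
  have hs' : s ∈ Metric.closedBall (0 : V n) 1 := by
    rwa [Metric.mem_closedBall, dist_zero_right]
  have h3 := hj (l, ⟨s, hs'⟩)
  have h4 : ev (C (((HH g β (k m0) (f1 m0) (f2 m0) m0.degree (j, l) : ℝ) : ℂ)⁻¹) *
      rg (ng g W a β u e) f (j, l)) s =
      ((H m0 (j, l) : ℝ) : ℂ)⁻¹ * ev (rg (ng g W a β u e) f (j, l)) s := by
    rw [ev_mul]
    congr 1
    unfold ev
    rw [MvPolynomial.eval_C]
  rw [h4]
  exact h3.le

theorem new_germ (h : Pre F W g z κ Q φ) (hL : Leaf g W Q a D)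
    (hβc : ∀ j, Continuous (β j)) (hβp : ∀ j l, 0 < β j l)
    (hβs : Tendsto (fun q : ℕ × II => β q.1 q.2 / g.b q.1 q.2) (LX II) (𝓝 0))
    (hβt : ∀ f f', CT W f → CT W f' → ∀ p : ℕ,
      Tame (fun q => β q.1 q.2 ^ p * (NN g f q / NN g f' q)))
    (hu : tp W u = 0)
    (hec : ∀ j, Continuous (e j)) (hew : ∀ j l, wp W (e j l) = 0)
    (heb : ∀ j l, ‖e j l‖ ≤ 1 / 4)
    (hes : Tendsto (fun q : ℕ × II => e q.1 q.2) (LX II) (𝓝 0)) :
    GOk (ng g W a β u e) ∧ Ref (ng g W a β u e) g ∧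
      (∀ f B, f ≠ 0 → HasLim (ng g W a β u e) f B →
        B ∈ MvPolynomial.supported ℂ (W : Set (Fin n))) ∧
      ∀ i ∈ W, u i ≠ 0 → Res (ng g W a β u e) (Q i) := by
  classical
  have hb := h.pos
  have hT := h.limT
  have hb' : ∀ j l, 0 < (ng g W a β u e).b j l := hβp
  -- the size and the limit of every polynomial
  have hcore : ∀ f : MvPolynomial (Fin n) ℂ, f ≠ 0 →
      ∃ (k : ℕ) (f1 f2 : MvPolynomial (Fin n) ℂ) (d : ℕ) (G : MvPolynomial (Fin n) ℂ),
      1 ≤ k ∧ CT W f1 ∧ CT W f2 ∧ G ≠ 0 ∧ G ∈ MvPolynomial.supported ℂ (W : Set (Fin n)) ∧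
        HasLim (ng g W a β u e) f (C ((nm G : ℂ)⁻¹) * G) ∧
        Tendsto (fun q => NN (ng g W a β u e) f q / HH g β k f1 f2 d q) (LX II) (𝓝 (nm G)) := by
    intro f hf
    obtain ⟨k, f1, f2, d, G, h1, h2, h3, h4, h5, h6⟩ := ngl_core h hL hβp hβs hβt hu heb hf
    obtain ⟨h7, h8⟩ := HasLim.of_norm hb' hf
      (ν := fun q => HH g β k f1 f2 d q)
      (Eventually.of_forall fun q => HH_pos hb hβp k h2.1 h3.1 d q) h4 h6
    exact ⟨k, f1, f2, d, G, h1, h2, h3, h4, h5, h7, h8⟩
  refine ⟨?_, ngd_ref hb hL hβp hβs hew heb hes, ?_, ?_⟩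
  · refine ⟨fun j => ?_, hβc, hβp, ?_, ?_⟩
    · exact (ngd_cont hb h.cc h.cb hL hec heb j).add
        ((Complex.continuous_ofReal.comp (hβc j)).smul continuous_const)
    · intro f hf
      obtain ⟨k, f1, f2, d, G, h1, h2, h3, h4, h5, h7, h8⟩ := hcore f hf
      exact ⟨_, h7⟩
    · intro f f' hf hf'
      obtain ⟨k, f1, f2, d, G, h1, h2, h3, h4, h5, h7, h8⟩ := hcore f hf
      obtain ⟨k', f1', f2', d', G', h1', h2', h3', h4', h5', h7', h8'⟩ := hcore f' hf'
      have ht := tame_HH hb hT hβp hβt h1 h1' h2 h3 h2' h3' d d'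
      have hG := nm_pos h4
      have hG' := nm_pos h4'
      refine Tame.congr ht (div_pos hG hG') ?_
      have h9 := h8.div h8' hG'.ne'
      refine h9.congr fun q => ?_
      have p1 := HH_pos hb hβp k h2.1 h3.1 d q
      have p2 := HH_pos hb hβp k' h2'.1 h3'.1 d' q
      have p3 := NN_pos hb' hf' q
      show NN (ng g W a β u e) f q / HH g β k f1 f2 d q /
        (NN (ng g W a β u e) f' q / HH g β k' f1' f2' d' q) = _
      field_simp
  · intro f B hf hB
    obtain ⟨k, f1, f2, d, G, h1, h2, h3, h4, h5, h7, h8⟩ := hcore f hf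
    rw [hB.unique h7]
    exact Subalgebra.mul_mem _ (Subalgebra.algebraMap_mem _ _) h5
  · intro i hi hui
    have hφ := h.phi i hi
    have hQ := h.limQ i hi
    set A : MvPolynomial (Fin n) ℂ := C (φ i) * X i with hA
    have hAne : A ≠ 0 := by
      intro h1
      have h2 : ev A (Pi.single i 1) = 0 := by
        rw [h1]
        unfold ev
        exact map_zero _
      rw [hA, ev_mul] at h2
      unfold ev at h2
      rw [MvPolynomial.eval_C, MvPolynomial.eval_X, Pi.single_eq_same, mul_one] at h2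
      exact hφ h2
    have hQne : Q i ≠ 0 := by
      intro h1
      rw [h1] at hQ
      have h2 : PT (LX II) (fun q => C ((NN g (0 : MvPolynomial (Fin n) ℂ) q : ℂ)⁻¹) *
          rg g (0 : MvPolynomial (Fin n) ℂ) q) 0 := by
        refine (PT.const (L := LX II) (0 : MvPolynomial (Fin n) ℂ)).congr'
          (Eventually.of_forall fun q => ?_)
        show (0 : MvPolynomial (Fin n) ℂ) = C _ * rs _ _ 0
        have h3 : rs (g.c q.1 q.2) (g.b q.1 q.2) (0 : MvPolynomial (Fin n) ℂ) = 0 := by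
          unfold rs
          exact map_zero _
        rw [h3, mul_zero]
      exact hAne (PT.unique hQ h2)
    set p0 : ℕ × II → V n := fun q => lp W a q.1 q.2 (g.c q.1 q.2 + (g.b q.1 q.2 : ℂ) • e q.1 q.2)
      with hp0
    set x0 : ℕ × II → V n := fun q => ((g.b q.1 q.2 : ℂ)⁻¹) • (p0 q - g.c q.1 q.2) with hx0
    set e' : ℕ × II → ℝ := fun q => β q.1 q.2 / g.b q.1 q.2 with he'
    have he0 : ∀ q, 0 < e' q := fun q => div_pos (hβp _ _) (hb _ _)
    set G : ℕ × II → MvPolynomial (Fin n) ℂ := fun q =>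
      C ((NN g (Q i) q : ℂ)⁻¹) * rg g (Q i) q with hG
    have hGt : PT (LX II) G A := hQ
    have hGd : ∀ q, (G q).totalDegree ≤ (Q i).totalDegree := by
      intro q
      refine (MvPolynomial.totalDegree_mul _ _).trans ?_
      rw [MvPolynomial.totalDegree_C, zero_add]
      exact totalDegree_rs_le _ _ _
    have hxt : Tendsto x0 (LX II) (𝓝 0) := by
      have h1 := ngd_lp_small hb hL hew heb hes
      rw [tendsto_zero_iff_norm_tendsto_zero]
      refine h1.congr fun q => ?_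
      have hbq := hb q.1 q.2
      show _ = ‖((g.b q.1 q.2 : ℂ)⁻¹) • (p0 q - g.c q.1 q.2)‖
      rw [norm_smul, norm_inv, Complex.norm_real, Real.norm_eq_abs, abs_of_pos hbq, div_eq_inv_mul]
    have hrs : ∀ q, rs (x0 q) (e' q) (G q) =
        C ((NN g (Q i) q : ℂ)⁻¹) * rs (p0 q) (β q.1 q.2) (Q i) := by
      intro q
      have hbq := hb q.1 q.2
      have hbc : (g.b q.1 q.2 : ℂ) ≠ 0 := by exact_mod_cast hbq.ne'
      show rs (x0 q) (e' q) (C ((NN g (Q i) q : ℂ)⁻¹) * rs (g.c q.1 q.2) (g.b q.1 q.2) (Q i)) = _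
      rw [rs_C_mul, rs_rs]
      congr 2
      · show g.c q.1 q.2 + (g.b q.1 q.2 : ℂ) • (((g.b q.1 q.2 : ℂ)⁻¹) • (p0 q - g.c q.1 q.2)) = p0 q
        rw [smul_smul, mul_inv_cancel₀ hbc, one_smul, add_sub_cancel]
      · show g.b q.1 q.2 * (β q.1 q.2 / g.b q.1 q.2) = β q.1 q.2
        rw [mul_div_cancel₀ _ hbq.ne']
    have hlead := fun m => PT.coeff_rs hGt (Eventually.of_forall hGd) hxt
      (Eventually.of_forall fun q => (he0 q).ne') m
    have het : Tendsto (fun q => (e' q : ℂ)) (LX II) (𝓝 0) := by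
      have h1 := (Complex.continuous_ofReal.tendsto 0).comp hβs
      rw [Complex.ofReal_zero] at h1
      exact h1
    have hA1 : ∀ m : Fin n →₀ ℕ, m.degree ≠ 1 → A.coeff m = 0 := by
      intro m hm
      have h1 : A.IsHomogeneous 1 := by
        have h2 := (MvPolynomial.isHomogeneous_C (Fin n) (φ i)).mul
          (MvPolynomial.isHomogeneous_X ℂ i)
        rwa [zero_add] at h2
      exact h1.coeff_eq_zero hm
    have hstep : PT (LX II) (fun q => C ((e' q : ℂ)⁻¹) * rs (x0 q) (e' q) (G q)) A := by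
      intro m
      have h1 : ∀ q, (C ((e' q : ℂ)⁻¹) * rs (x0 q) (e' q) (G q)).coeff m =
          (e' q : ℂ)⁻¹ * (rs (x0 q) (e' q) (G q)).coeff m := fun q => MvPolynomial.coeff_C_mul _ _ _
      refine Tendsto.congr (fun q => (h1 q).symm) ?_
      rcases Nat.lt_trichotomy m.degree 1 with hd | hd | hd
      · have hm0 : m = 0 := (Finsupp.degree_eq_zero_iff m).1 (by omega)
        rw [hA1 m (by omega)]
        refine tendsto_const_nhds.congr' ?_
        filter_upwards [hL.zero] with q hq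
        have h2 := hq (g.c q.1 q.2 + (g.b q.1 q.2 : ℂ) • e q.1 q.2)
          ((ngd_ball hb heb q.1 q.2).trans (by have := hb q.1 q.2; linarith)) i hi
        have h3 : (rs (x0 q) (e' q) (G q)).coeff m = 0 := by
          rw [hrs, hm0, MvPolynomial.coeff_C_mul, coeff_zero_rs]
          have h4 : ev (Q i) (p0 q) = 0 := h2
          rw [h4, mul_zero]
        rw [h3, mul_zero]
      · have h2 := hlead m
        refine h2.congr fun q => ?_
        rw [hd, pow_one, div_eq_inv_mul]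
      · have h2 := (hlead m).mul (het.pow (m.degree - 1))
        rw [zero_pow (by omega), mul_zero] at h2
        rw [hA1 m (by omega)]
        refine h2.congr fun q => ?_
        have hec : (e' q : ℂ) ≠ 0 := by exact_mod_cast (he0 q).ne'
        have h3 : (e' q : ℂ) ^ m.degree = (e' q : ℂ) ^ (m.degree - 1) * (e' q : ℂ) := by
          rw [← pow_succ]
          congr 1
          omega
        rw [h3]
        field_simp
    have hstep2 := PT.rs (D := (Q i).totalDegree) hstep (Eventually.of_forall fun q => by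
      refine (MvPolynomial.totalDegree_mul _ _).trans ?_
      rw [MvPolynomial.totalDegree_C, zero_add]
      exact (totalDegree_rs_le _ _ _).trans (hGd q)) (x := fun _ => u) (x0 := u)
      tendsto_const_nhds (e := fun _ => 1) (e0 := 1) tendsto_const_nhds
    have hB : rs u 1 A ≠ 0 := rs_ne_zero u one_ne_zero hAne
    obtain ⟨h7, -⟩ := HasLim.of_norm hb' hQne (ν := fun q => NN g (Q i) q * e' q)
      (Eventually.of_forall fun q => mul_pos (NN_pos hb hQne q) (he0 q)) hB (by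
        refine hstep2.congr' (Eventually.of_forall fun q => ?_)
        rw [hrs, rs_C_mul, rs_C_mul, rs_rs, mul_one]
        show C ((e' q : ℂ)⁻¹) * (C ((NN g (Q i) q : ℂ)⁻¹) *
          rs (p0 q + (β q.1 q.2 : ℂ) • u) (β q.1 q.2) (Q i)) =
          C (((NN g (Q i) q * e' q : ℝ) : ℂ)⁻¹) *
          rs (p0 q + (β q.1 q.2 : ℂ) • u) (β q.1 q.2) (Q i)
        rw [← mul_assoc, ← C_mul, Complex.ofReal_mul, mul_inv_rev])
    refine ⟨_, h7, ?_⟩
    rw [MvPolynomial.coeff_C_mul, coeff_zero_rs, hA, ev_mul]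
    unfold ev
    rw [MvPolynomial.eval_C, MvPolynomial.eval_X]
    refine mul_ne_zero (inv_ne_zero ?_) (mul_ne_zero hφ hui)
    have := nm_pos hB
    rw [hA] at this
    exact_mod_cast this.ne'

end Pool.Agent.H51.BJ
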