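import Pool.Agent.H51.BJ.Defs

/-! # [H51 BJ SAT] Saturation of the ultrafilter (countably many conditions)

Enumerate the countable set `S` of conditions as `p_0, p_1, ...` (`S` empty is trivial:
`α` is nonempty by the hypothesis with the empty finset). For every `k` choose `x_k : ℕ → α` with
`p_l j (x_k j)` for `UF`-many `j`, for all `l ≤ k`. Let `k(j)` be the largest `k ≤ j` such that
`p_l j (x_k j)` holds for all `l ≤ k` (and `k(j) = 0` if there is none), `x j = x_{k(j)} j`. For given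
`l` the set of `j ≥ l` with `p_{l'} j (x_l j)` for all `l' ≤ l` is in `UF`, and for such `j` we have
`k(j) ≥ l`, so `p_l j (x j)`. -/

set_option autoImplicit false

open Filter
open scoped Topology

noncomputable section

namespace Pool.Agent.H51.BJ

theorem saturation {α : Type*} (S : Set (ℕ → α → Prop)) (hS : S.Countable)
    (h : ∀ s : Finset (ℕ → α → Prop), (↑s : Set (ℕ → α → Prop)) ⊆ S →
      ∃ x : ℕ → α, ∀ p ∈ s, ∀ᶠ j in UF, p j (x j)) :
    ∃ x : ℕ → α, ∀ p ∈ S, ∀ᶠ j in UF, p j (x j) := by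
  classical
  obtain ⟨x0, -⟩ := h ∅ (by simp)
  rcases S.eq_empty_or_nonempty with rfl | hne
  · exact ⟨x0, fun p hp => absurd hp (Set.notMem_empty p)⟩
  obtain ⟨e, he⟩ := hS.exists_eq_range hne
  have h1 : ∀ k : ℕ, ∃ x : ℕ → α, ∀ l ∈ Finset.range (k + 1), ∀ᶠ j in UF, e l j (x j) := by
    intro k
    obtain ⟨x, hx⟩ := h ((Finset.range (k + 1)).image e) (by
      intro p hp
      rw [Finset.mem_coe, Finset.mem_image] at hp
      obtain ⟨l, -, rfl⟩ := hp
      rw [he]
      exact Set.mem_range_self l)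
    exact ⟨x, fun l hl => hx (e l) (Finset.mem_image_of_mem e hl)⟩
  choose x hx using h1
  obtain ⟨P, hP⟩ : ∃ P : ℕ → ℕ → Prop, ∀ j k, P j k ↔ ∀ l ∈ Finset.range (k + 1), e l j (x k j) :=
    ⟨_, fun _ _ => Iff.rfl⟩
  refine ⟨fun j => x (Nat.findGreatest (P j) j) j, ?_⟩
  intro p hp
  rw [he] at hp
  obtain ⟨l, rfl⟩ := hp
  have h2 : ∀ᶠ j in UF, P j l := by
    have := (Filter.eventually_all_finset (l := UF) (Finset.range (l + 1))
      (p := fun l' j => e l' j (x l j))).mpr (hx l)
    filter_upwards [this] with j hj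
    exact (hP j l).mpr hj
  have h3 : ∀ᶠ j in UF, l ≤ j := by
    have h4 : (UF : Filter ℕ) ≤ atTop := by
      rw [← Nat.cofinite_eq_atTop]
      exact Filter.hyperfilter_le_cofinite
    exact h4 (eventually_ge_atTop l)
  filter_upwards [h2, h3] with j hj1 hj2
  have h5 : P j (Nat.findGreatest (P j) j) := Nat.findGreatest_spec hj2 hj1
  have h6 : l ≤ Nat.findGreatest (P j) j := Nat.le_findGreatest hj2 hj1
  exact (hP _ _).mp h5 l (Finset.mem_range.mpr (by omega))

/-- the case of a directed set of constant choices: every condition of `S` holds, for `UF`-many `j`, for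
the constant choices `x` beyond some point of a directed order -/
theorem saturation_dir {β : Type*} [Preorder β] [IsDirectedOrder β] [Nonempty β]
    (S : Set (ℕ → β → Prop)) (hS : S.Countable)
    (h : ∀ p ∈ S, ∃ x0 : β, ∀ x, x0 ≤ x → ∀ᶠ j in UF, p j x) :
    ∃ x : ℕ → β, ∀ p ∈ S, ∀ᶠ j in UF, p j (x j) := by
  classical
  refine saturation S hS ?_
  intro s hs
  have h1 : ∀ p : ℕ → β → Prop, ∃ x0 : β, p ∈ s → ∀ x, x0 ≤ x → ∀ᶠ j in UF, p j x := by
    intro p
    by_cases hp : p ∈ s
    · obtain ⟨x0, hx0⟩ := h p (hs hp)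
      exact ⟨x0, fun _ => hx0⟩
    · exact ⟨Classical.arbitrary β, fun hp' => absurd hp' hp⟩
  choose x0 hx0 using h1
  obtain ⟨M, hM⟩ := Finset.exists_le (s.image x0)
  exact ⟨fun _ => M, fun p hp => hx0 p hp M (hM _ (Finset.mem_image_of_mem x0 hp))⟩

end Pool.Agent.H51.BJ
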