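import Pool.Agent.H51.BJ.LDef
import Pool.Agent.H51.BJ.SAT

/-! # [H51 BJ PRF] The profile (proofs id 313, Section 4, R3)

`profile`: a countable family of positive families with pairwise tame ratios, each of them tame, has
a common profile with all windows. For a finite set `S` of indices:
`A(s) = min (s, min_{i ∈ S} max (μ_i, min (1, q_i) s))`, `q_i = ρ_i(l)/ρ_i(0)`,
`μ_i = max (1, sqrt (ρ_i ∑_{k ∈ S, ρ_k << ρ_i} ρ_k))`. The countable case by saturation (SAT).

`profile_tame`: for `s_j → ∞` compare `s` with `ρ(0)`: `ρ → 0`: `A(s)/ρ → ∞` and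
`A(s)/s ≤ 1 ≤ (1+ε) ρ(l)/ρ(0)`; `ρ` not `→ 0`: `s/ρ(0) → 0`, `→ c` or `→ ∞` (along the ultrafilter),
use monotonicity of `A` and of `A/s` and the windows. -/

set_option autoImplicit false

open MvPolynomial Filter Pool.Agent.H60 Pool.Agent.H57.BJ
open scoped Topology

noncomputable section

namespace Pool.Agent.H51.BJ

theorem prf_id : Profile (fun _ _ s => s) where
  contl := fun _ _ _ => continuous_const
  conts := fun _ _ => continuousOn_id
  zero := fun _ _ _ => rfl
  mono := fun _ _ => monotoneOn_id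
  anti := fun _ _ s s' _ _ => le_of_eq (mul_comm s s')
  one := fun _ _ _ _ _ => rfl
  pos := fun _ _ _ h => h

theorem prf_min {A B : ℕ → II → ℝ → ℝ} (hA : Profile A) (hB : Profile B) :
    Profile (fun j l s => min (A j l s) (B j l s)) where
  contl := fun j s hs => (hA.contl j s hs).min (hB.contl j s hs)
  conts := fun j l => ContinuousOn.inf (hA.conts j l) (hB.conts j l)
  zero := fun j s hs => by
    show min (A j 0 s) (B j 0 s) = s
    rw [hA.zero j s hs, hB.zero j s hs, min_self]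
  mono := fun j l s hs s' hs' h => min_le_min (hA.mono j l hs hs' h) (hB.mono j l hs hs' h)
  anti := fun j l s s' hs h => by
    show s * min (A j l s') (B j l s') ≤ s' * min (A j l s) (B j l s)
    have hs' : 0 ≤ s' := hs.trans h
    rw [mul_min_of_nonneg _ _ hs, mul_min_of_nonneg _ _ hs']
    exact min_le_min (hA.anti j l s s' hs h) (hB.anti j l s s' hs h)
  one := fun j l s hs h => by
    show min (A j l s) (B j l s) = s
    rw [hA.one j l s hs h, hB.one j l s hs h, min_self]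
  pos := fun j l s hs => lt_min (hA.pos j l s hs) (hB.pos j l s hs)

theorem prf_term {μ q : ℕ × II → ℝ} (hμc : ∀ j, Continuous fun l => μ (j, l))
    (hqc : ∀ j, Continuous fun l => q (j, l)) (hμ : ∀ x, 1 ≤ μ x) (hq : ∀ x, 0 < q x)
    (hq0 : ∀ j, q (j, 0) = 1) :
    Profile (fun j l s => min s (max (μ (j, l)) (q (j, l) * s))) where
  contl := fun j s _ => continuous_const.min ((hμc j).max ((hqc j).mul continuous_const))
  conts := fun j l => (continuous_id.min (continuous_const.max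
    (continuous_const.mul continuous_id))).continuousOn
  zero := fun j s hs => by
    show min s (max (μ (j, 0)) (q (j, 0) * s)) = s
    rw [hq0, one_mul]
    exact min_eq_left (le_max_right _ _)
  mono := fun j l s hs s' hs' h => min_le_min h (max_le_max le_rfl
    (mul_le_mul_of_nonneg_left h (hq _).le))
  anti := fun j l s s' hs h => by
    show s * min s' (max (μ (j, l)) (q (j, l) * s')) ≤ s' * min s (max (μ (j, l)) (q (j, l) * s))
    have hs' : 0 ≤ s' := hs.trans h
    rw [mul_min_of_nonneg _ _ hs, mul_min_of_nonneg _ _ hs', mul_max_of_nonneg _ _ hs,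
      mul_max_of_nonneg _ _ hs']
    refine min_le_min (le_of_eq (mul_comm _ _)) (max_le_max ?_ (le_of_eq (by ring)))
    exact mul_le_mul_of_nonneg_right h (zero_le_one.trans (hμ _))
  one := fun j l s hs h => by
    show min s (max (μ (j, l)) (q (j, l) * s)) = s
    exact min_eq_left (h.trans ((hμ _).trans (le_max_left _ _)))
  pos := fun j l s hs => lt_min hs (lt_max_of_lt_left (lt_of_lt_of_le one_pos (hμ _)))

/-- the minimum of finitely many terms -/
theorem prf_fin {ι : Type*} (μ q : ι → ℕ × II → ℝ)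
    (hμc : ∀ i j, Continuous fun l => μ i (j, l))
    (hqc : ∀ i j, Continuous fun l => q i (j, l)) (hμ : ∀ i x, 1 ≤ μ i x) (hq : ∀ i x, 0 < q i x)
    (hq0 : ∀ i j, q i (j, 0) = 1) (S : Finset ι) :
    ∃ A : ℕ → II → ℝ → ℝ, Profile A ∧ (∀ j l s, A j l s ≤ s) ∧
      (∀ i ∈ S, ∀ j l s, A j l s ≤ max (μ i (j, l)) (q i (j, l) * s)) ∧
      ∀ j l s c, c ≤ s → (∀ i ∈ S, c ≤ max (μ i (j, l)) (q i (j, l) * s)) → c ≤ A j l s := by
  classical
  induction S using Finset.induction_on with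
  | empty =>
    exact ⟨fun _ _ s => s, prf_id, fun _ _ _ => le_rfl, fun i hi => by simp at hi,
      fun _ _ _ _ h _ => h⟩
  | insert i S hi ih =>
    obtain ⟨A, hA, a1, a2, a3⟩ := ih
    refine ⟨fun j l s => min (A j l s) (min s (max (μ i (j, l)) (q i (j, l) * s))),
      prf_min hA (prf_term (hμc i) (hqc i) (hμ i) (hq i) (hq0 i)),
      fun j l s => (min_le_left _ _).trans (a1 j l s), ?_, ?_⟩
    · intro k hk j l s
      rcases Finset.mem_insert.1 hk with rfl | hk
      · exact (min_le_right _ _).trans (min_le_right _ _)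
      · exact (min_le_left _ _).trans (a2 k hk j l s)
    · intro j l s c hc h
      refine le_min (a3 j l s c hc fun k hk => h k (Finset.mem_insert_of_mem hk)) (le_min hc ?_)
      exact h i (Finset.mem_insert_self i S)

/-- the finite case -/
theorem profile_fin {ι : Type*} (ρ : ι → ℕ × II → ℝ)
    (hc : ∀ i j, Continuous fun l => ρ i (j, l)) (hp : ∀ i q, 0 < ρ i q)
    (hr : ∀ i k, Tame (fun q => ρ i q / ρ k q)) (h1 : ∀ i, Tame (ρ i)) (S : Finset ι) :
    ∃ A : ℕ → II → ℝ → ℝ, Profile A ∧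
      ∀ i ∈ S, ¬ Tendsto (ρ i) (LX II) (𝓝 0) → Window A (ρ i) := by
  classical
  set lt : ι → ι → Prop := fun k i => Tendsto (fun q => ρ k q / ρ i q) (LX II) (𝓝 0) with hlt
  set T : ι → ℕ × II → ℝ := fun i x => ∑ k ∈ S.filter (fun k => lt k i), ρ k x with hT
  have hT0 : ∀ i x, 0 ≤ T i x := fun i x => Finset.sum_nonneg fun k _ => (hp k x).le
  obtain ⟨A, hA, a1, a2, a3⟩ := prf_fin
    (fun i x => max 1 (Real.sqrt (ρ i x * T i x)))
    (fun i x => min 1 (ρ i x / ρ i (x.1, 0)))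
    (fun i j => continuous_const.max (Real.continuous_sqrt.comp ((hc i j).mul
      (continuous_finsetSum _ fun k _ => hc k j))))
    (fun i j => continuous_const.min ((hc i j).div_const (ρ i (j, 0))))
    (fun i x => le_max_left _ _) (fun i x => lt_min one_pos (div_pos (hp _ _) (hp _ _)))
    (fun i j => by
      show min 1 (ρ i (j, 0) / ρ i (j, 0)) = 1
      rw [div_self (hp _ _).ne', min_self]) S
  refine ⟨A, hA, ?_⟩
  intro i hi hni M hM ε hε
  have hM0 : 0 < M := lt_of_lt_of_le one_pos hM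
  -- small numbers
  set e : ℝ := min ε (1 / 2) with he
  have he0 : 0 < e := lt_min hε (by norm_num)
  have he1 : e ≤ 1 / 2 := min_le_right _ _
  have heε : e ≤ ε := min_le_left _ _
  -- q_i ≤ 1 + e
  have b1 : ∀ᶠ x in LX II, ρ i x ≤ (1 + e) * ρ i (x.1, 0) := (h1 i).not_zero hni he0
  -- upper bound
  have b2 : ∀ᶠ x in LX II, ∀ s, ρ i (x.1, 0) / M ≤ s → s ≤ M * ρ i (x.1, 0) →
      A x.1 x.2 s ≤ (1 + ε) * (ρ i x / ρ i (x.1, 0)) * s := by
    rcases (h1 i).tri with h | ⟨c, hc0, h⟩ | h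
    · exact absurd h hni
    · -- ρ i → c : q_i → 1
      have h0 : Tendsto (fun x : ℕ × II => ρ i (x.1, 0)) (LX II) (𝓝 c) := by
        have := tendsto_at h 0
        exact this.comp tendsto_fst
      have hq : Tendsto (fun x : ℕ × II => (1 + ε) * (ρ i x / ρ i (x.1, 0))) (LX II)
          (𝓝 ((1 + ε) * (c / c))) := (h.div h0 hc0.ne').const_mul _
      rw [div_self hc0.ne', mul_one] at hq
      filter_upwards [hq.eventually (eventually_gt_nhds (by linarith : (1 : ℝ) < 1 + ε))]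
        with x hx s hs1 hs2
      have hs : 0 ≤ s := (div_pos (hp _ _) hM0).le.trans hs1
      calc A x.1 x.2 s ≤ s := a1 _ _ _
        _ = 1 * s := (one_mul s).symm
        _ ≤ _ := mul_le_mul_of_nonneg_right hx.le hs
    · -- ρ i → ∞
      have h2 : Tendsto (fun x => T i x / ρ i x) (LX II) (𝓝 0) := by
        have : (fun x => T i x / ρ i x) =
            fun x => ∑ k ∈ S.filter (fun k => lt k i), ρ k x / ρ i x := by
          funext x
          rw [hT, Finset.sum_div]
        rw [this]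
        have h3 : Tendsto (fun x => ∑ k ∈ S.filter (fun k => lt k i), ρ k x / ρ i x) (LX II)
            (𝓝 (∑ k ∈ S.filter (fun k => lt k i), (0 : ℝ))) :=
          tendsto_finsetSum _ fun k hk => (Finset.mem_filter.1 hk).2
        simpa using h3
      have hM2 : (0 : ℝ) < (1 / M) ^ 2 := by positivity
      filter_upwards [h2.eventually (eventually_lt_nhds hM2), h.eventually (eventually_ge_atTop M)]
        with x hx hxM s hs1 hs2
      have hs : 0 < s := lt_of_lt_of_le (div_pos (hp _ _) hM0) hs1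
      have hρ := hp i x
      have hρ0 := hp i (x.1, 0)
      refine (a2 i hi _ _ _).trans (max_le (max_le ?_ ?_) ?_)
      · -- 1 ≤
        have : 1 ≤ ρ i x / ρ i (x.1, 0) * s := by
          calc (1 : ℝ) ≤ ρ i x / M := by rw [le_div_iff₀ hM0]; linarith
            _ = ρ i x / ρ i (x.1, 0) * (ρ i (x.1, 0) / M) := by field_simp
            _ ≤ ρ i x / ρ i (x.1, 0) * s := by gcongr
        have h4 : 0 ≤ ε * (ρ i x / ρ i (x.1, 0) * s) := by positivity
        linarith
      · have h5 : Real.sqrt (ρ i x * T i x) ≤ ρ i x / M := by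
          rw [Real.sqrt_le_left (by positivity)]
          have : T i x ≤ (1 / M) ^ 2 * ρ i x := by
            have := hx.le
            rwa [div_le_iff₀ hρ] at this
          calc ρ i x * T i x ≤ ρ i x * ((1 / M) ^ 2 * ρ i x) := by gcongr
            _ = (ρ i x / M) ^ 2 := by ring
        have h6 : ρ i x / M ≤ ρ i x / ρ i (x.1, 0) * s := by
          calc ρ i x / M = ρ i x / ρ i (x.1, 0) * (ρ i (x.1, 0) / M) := by field_simp
            _ ≤ ρ i x / ρ i (x.1, 0) * s := by gcongr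
        have h4 : 0 ≤ ε * (ρ i x / ρ i (x.1, 0) * s) := by positivity
        have h7 : Real.sqrt (ρ i x * T i x) ≤ ρ i x / ρ i (x.1, 0) * s := h5.trans h6
        show Real.sqrt (ρ i (x.1, x.2) * T i (x.1, x.2)) ≤ _
        have : ((x.1, x.2) : ℕ × II) = x := rfl
        rw [this]
        linarith
      · have h8 : min 1 (ρ i (x.1, x.2) / ρ i (x.1, 0)) ≤ ρ i x / ρ i (x.1, 0) := min_le_right _ _
        have h4 : 0 ≤ ε * (ρ i x / ρ i (x.1, 0) * s) := by positivity
        have := mul_le_mul_of_nonneg_right h8 hs.le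
        show min 1 (ρ i (x.1, x.2) / ρ i (x.1, 0)) * s ≤ _
        linarith
  -- lower bound, one term
  have b3 : ∀ k ∈ S, ∀ᶠ x in LX II, ∀ s, ρ i (x.1, 0) / M ≤ s → s ≤ M * ρ i (x.1, 0) →
      (1 - ε) * (ρ i x / ρ i (x.1, 0)) * s ≤
        max (max 1 (Real.sqrt (ρ k x * T k x))) (min 1 (ρ k x / ρ k (x.1, 0)) * s) := by
    intro k hk
    by_cases hki : Tendsto (fun x => ρ i x / ρ k x) (LX II) (𝓝 0)
    · -- i << k
      have hM2 : (0 : ℝ) < (1 / M) ^ 2 := by positivity
      filter_upwards [hki.eventually (eventually_lt_nhds hM2)] with x hx s hs1 hs2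
      have hs : 0 < s := lt_of_lt_of_le (div_pos (hp _ _) hM0) hs1
      have hρ := hp i x
      have hρ0 := hp i (x.1, 0)
      have hρk := hp k x
      have h5 : M * ρ i x ≤ Real.sqrt (ρ k x * T k x) := by
        refine Real.le_sqrt_of_sq_le ?_
        have h6 : ρ i x ≤ (1 / M) ^ 2 * ρ k x := by
          have := hx.le
          rwa [div_le_iff₀ hρk] at this
        have h7 : M ^ 2 * ρ i x ≤ ρ k x := by
          calc M ^ 2 * ρ i x ≤ M ^ 2 * ((1 / M) ^ 2 * ρ k x) := by gcongr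
            _ = ρ k x := by field_simp
        have h8 : ρ i x ≤ T k x := by
          rw [hT]
          exact Finset.single_le_sum (f := fun k' => ρ k' x) (fun k' _ => (hp k' x).le)
            (Finset.mem_filter.2 ⟨hi, hki⟩)
        calc (M * ρ i x) ^ 2 = M ^ 2 * ρ i x * ρ i x := by ring
          _ ≤ ρ k x * T k x := mul_le_mul h7 h8 hρ.le hρk.le
      have h9 : ρ i x / ρ i (x.1, 0) * s ≤ M * ρ i x := by
        calc ρ i x / ρ i (x.1, 0) * s ≤ ρ i x / ρ i (x.1, 0) * (M * ρ i (x.1, 0)) := by gcongr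
          _ = M * ρ i x := by field_simp
      have h4 : 0 ≤ ε * (ρ i x / ρ i (x.1, 0) * s) := by positivity
      refine le_max_of_le_left (le_max_of_le_right ?_)
      linarith
    · -- not i << k
      have h10 := (hr i k).not_zero hki he0
      filter_upwards [h10, b1] with x hx hx1 s hs1 hs2
      have hs : 0 < s := lt_of_lt_of_le (div_pos (hp _ _) hM0) hs1
      have hρ := hp i x
      have hρ0 := hp i (x.1, 0)
      have hρk := hp k x
      have hρk0 := hp k (x.1, 0)
      refine le_max_of_le_right ?_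
      refine mul_le_mul_of_nonneg_right (le_min ?_ ?_) hs.le
      · -- (1 - ε) q_i ≤ 1
        have h11 : ρ i x / ρ i (x.1, 0) ≤ 1 + e := by rwa [div_le_iff₀ hρ0]
        have h12 : 0 < ρ i x / ρ i (x.1, 0) := by positivity
        have h13 : (1 - ε) * (ρ i x / ρ i (x.1, 0)) ≤ (1 - e) * (ρ i x / ρ i (x.1, 0)) :=
          mul_le_mul_of_nonneg_right (by linarith) h12.le
        have h14 : (1 - e) * (ρ i x / ρ i (x.1, 0)) ≤ (1 - e) * (1 + e) :=
          mul_le_mul_of_nonneg_left h11 (by linarith)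
        nlinarith
      · -- (1 - ε) q_i ≤ q_k
        have h11 : ρ i x / ρ i (x.1, 0) ≤ (1 + e) * (ρ k x / ρ k (x.1, 0)) := by
          have h15 : ρ i x * ρ k (x.1, 0) ≤ (1 + e) * ρ i (x.1, 0) * ρ k x := by
            rw [div_le_iff₀ hρk] at hx
            have h16 : (1 + e) * (ρ i (x.1, 0) / ρ k (x.1, 0)) * ρ k x * ρ k (x.1, 0) =
                (1 + e) * ρ i (x.1, 0) * ρ k x := by field_simp
            calc ρ i x * ρ k (x.1, 0) ≤
                (1 + e) * (ρ i (x.1, 0) / ρ k (x.1, 0)) * ρ k x * ρ k (x.1, 0) := by gcongr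
              _ = _ := h16
          rw [div_le_iff₀ hρ0]
          calc ρ i x = ρ i x * ρ k (x.1, 0) / ρ k (x.1, 0) := by field_simp
            _ ≤ (1 + e) * ρ i (x.1, 0) * ρ k x / ρ k (x.1, 0) := by gcongr
            _ = (1 + e) * (ρ k x / ρ k (x.1, 0)) * ρ i (x.1, 0) := by ring
        have h12 : 0 < ρ i x / ρ i (x.1, 0) := by positivity
        have h12' : 0 < ρ k x / ρ k (x.1, 0) := by positivity
        have h13 : (1 - ε) * (ρ i x / ρ i (x.1, 0)) ≤ (1 - e) * (ρ i x / ρ i (x.1, 0)) :=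
          mul_le_mul_of_nonneg_right (by linarith) h12.le
        have h14 : (1 - e) * (ρ i x / ρ i (x.1, 0)) ≤
            (1 - e) * ((1 + e) * (ρ k x / ρ k (x.1, 0))) :=
          mul_le_mul_of_nonneg_left h11 (by linarith)
        have h15 : 0 ≤ e ^ 2 * (ρ k x / ρ k (x.1, 0)) := by positivity
        have h16 : (1 - e) * ((1 + e) * (ρ k x / ρ k (x.1, 0))) =
            ρ k x / ρ k (x.1, 0) - e ^ 2 * (ρ k x / ρ k (x.1, 0)) := by ring
        show (1 - ε) * (ρ i x / ρ i (x.1, 0)) ≤ ρ k x / ρ k (x.1, 0)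
        linarith
  have b4 : ∀ᶠ x in LX II, ∀ k ∈ S, ∀ s, ρ i (x.1, 0) / M ≤ s → s ≤ M * ρ i (x.1, 0) →
      (1 - ε) * (ρ i x / ρ i (x.1, 0)) * s ≤
        max (max 1 (Real.sqrt (ρ k x * T k x))) (min 1 (ρ k x / ρ k (x.1, 0)) * s) :=
    (Filter.eventually_all_finset S).2 b3
  filter_upwards [b1, b2, b4] with x x1 x2 x4 s hs1 hs2
  have hs : 0 < s := lt_of_lt_of_le (div_pos (hp _ _) hM0) hs1
  have hρ := hp i x
  have hρ0 := hp i (x.1, 0)
  have h12 : 0 < ρ i x / ρ i (x.1, 0) := by positivity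
  have up := x2 s hs1 hs2
  have lo : (1 - ε) * (ρ i x / ρ i (x.1, 0)) * s ≤ A x.1 x.2 s := by
    refine a3 _ _ _ _ ?_ fun k hk => x4 k hk s hs1 hs2
    have h11 : ρ i x / ρ i (x.1, 0) ≤ 1 + e := by rwa [div_le_iff₀ hρ0]
    have h13 : (1 - ε) * (ρ i x / ρ i (x.1, 0)) ≤ (1 - e) * (ρ i x / ρ i (x.1, 0)) :=
      mul_le_mul_of_nonneg_right (by linarith) h12.le
    have h14 : (1 - e) * (ρ i x / ρ i (x.1, 0)) ≤ (1 - e) * (1 + e) :=
      mul_le_mul_of_nonneg_left h11 (by linarith)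
    have h15 : (1 - ε) * (ρ i x / ρ i (x.1, 0)) ≤ 1 := by nlinarith
    calc (1 - ε) * (ρ i x / ρ i (x.1, 0)) * s ≤ 1 * s := mul_le_mul_of_nonneg_right h15 hs.le
      _ = s := one_mul s
  have lo' : (1 - ε) * (ρ i x / ρ i (x.1, 0)) ≤ A x.1 x.2 s / s := by
    rw [le_div_iff₀ hs]
    exact lo
  have up' : A x.1 x.2 s / s ≤ (1 + ε) * (ρ i x / ρ i (x.1, 0)) := by
    rw [div_le_iff₀ hs]
    exact up
  rw [abs_le]
  constructor <;> linarith

theorem profile {ι : Type*} [Countable ι] (ρ : ι → ℕ × II → ℝ)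
    (hc : ∀ i j, Continuous fun l => ρ i (j, l)) (hp : ∀ i q, 0 < ρ i q)
    (hr : ∀ i k, Tame (fun q => ρ i q / ρ k q)) (h1 : ∀ i, Tame (ρ i)) :
    ∃ A : ℕ → II → ℝ → ℝ, Profile A ∧
      ∀ i, ¬ Tendsto (ρ i) (LX II) (𝓝 0) → Window A (ρ i) := by
  classical
  choose A hA hw using fun S : Finset ι => profile_fin ρ hc hp hr h1 S
  set cond : ι × ℕ × ℕ → ℕ → Finset ι → Prop := fun t j x =>
    ¬ Tendsto (ρ t.1) (LX II) (𝓝 0) → ∀ l : II, ∀ s : ℝ,
      ρ t.1 (j, 0) / (t.2.1 + 1) ≤ s → s ≤ (t.2.1 + 1) * ρ t.1 (j, 0) →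
      |A x j l s / s - ρ t.1 (j, l) / ρ t.1 (j, 0)| ≤
        (1 / ((t.2.2 : ℝ) + 1)) * (ρ t.1 (j, l) / ρ t.1 (j, 0)) with hcond
  obtain ⟨x, hx⟩ := saturation_dir (Set.range cond) (Set.countable_range cond) (by
    rintro p ⟨t, rfl⟩
    refine ⟨{t.1}, fun y hy => ?_⟩
    have hty : t.1 ∈ y := hy (Finset.mem_singleton_self _)
    by_cases hn : Tendsto (ρ t.1) (LX II) (𝓝 0)
    · exact Eventually.of_forall fun j h => absurd hn h
    · have h2 := hw y t.1 hty hn (t.2.1 + 1) (by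
        have : (0 : ℝ) ≤ (t.2.1 : ℝ) := Nat.cast_nonneg _
        linarith) (1 / ((t.2.2 : ℝ) + 1)) (by positivity)
      rw [ev_LX] at h2
      filter_upwards [h2] with j hj _ l s hs1 hs2
      exact hj l s hs1 hs2)
  refine ⟨fun j => A (x j) j, ?_, ?_⟩
  · exact ⟨fun j => (hA (x j)).contl j, fun j => (hA (x j)).conts j, fun j => (hA (x j)).zero j,
      fun j => (hA (x j)).mono j, fun j => (hA (x j)).anti j, fun j => (hA (x j)).one j,
      fun j => (hA (x j)).pos j⟩
  · intro i hni M hM ε hε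
    obtain ⟨m, hm⟩ := exists_nat_ge M
    obtain ⟨k, hk⟩ := exists_nat_ge (1 / ε)
    have h2 := hx (cond (i, m, k)) ⟨_, rfl⟩
    rw [ev_LX]
    filter_upwards [h2] with j hj l s hs1 hs2
    have hρ0 := hp i (j, 0)
    have hM0 : 0 < M := lt_of_lt_of_le one_pos hM
    refine (hj hni l s ?_ ?_).trans ?_
    · refine le_trans ?_ hs1
      show ρ i (j, 0) / ((m : ℝ) + 1) ≤ ρ i (j, 0) / M
      exact div_le_div_of_nonneg_left hρ0.le hM0 (by linarith)
    · refine hs2.trans ?_
      show M * ρ i (j, 0) ≤ ((m : ℝ) + 1) * ρ i (j, 0)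
      exact mul_le_mul_of_nonneg_right (by linarith) hρ0.le
    · refine mul_le_mul_of_nonneg_right ?_ (div_pos (hp _ _) (hp _ _)).le
      show 1 / ((k : ℝ) + 1) ≤ ε
      rw [div_le_iff₀ (by positivity)]
      rw [div_le_iff₀ hε] at hk
      nlinarith

theorem profile_small {A : ℕ → II → ℝ → ℝ} (hA : Profile A) {ρ : ℕ × II → ℝ} (hp : ∀ q, 0 < ρ q)
    (hw : Window A ρ) {s : ℕ → ℝ} (hs0 : ∀ j, 0 < s j)
    (hs : Tendsto (fun j => s j / ρ (j, 0)) UF (𝓝 0)) :
    Tendsto (fun q : ℕ × II => A q.1 q.2 (s q.1) / ρ q) (LX II) (𝓝 0) := by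
  rw [Metric.tendsto_nhds]
  intro ε hε
  set M : ℝ := max 1 (4 / ε) with hM
  have hM1 : 1 ≤ M := le_max_left _ _
  have hM0 : 0 < M := lt_of_lt_of_le one_pos hM1
  have hM2 : 4 / ε ≤ M := le_max_right _ _
  have h1 : ∀ᶠ j in UF, s j / ρ (j, 0) < 1 / M :=
    hs.eventually (eventually_lt_nhds (by positivity))
  have h2 : ∀ᶠ q in LX II, s q.1 / ρ (q.1, 0) < 1 / M := by
    rw [ev_LX]
    filter_upwards [h1] with j hj _
    exact hj
  filter_upwards [h2, hw M hM1 1 one_pos] with q hq1 hq2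
  have hρ := hp q
  have hρ0 := hp (q.1, 0)
  have hApos : 0 < A q.1 q.2 (s q.1) := hA.pos _ _ _ (hs0 _)
  have hle : s q.1 ≤ ρ (q.1, 0) / M := by
    have := hq1.le
    rw [div_le_iff₀ hρ0] at this
    calc s q.1 ≤ 1 / M * ρ (q.1, 0) := this
      _ = ρ (q.1, 0) / M := by ring
  have h3 := hA.mono q.1 q.2 (Set.mem_Ici.2 (hs0 q.1).le)
    (Set.mem_Ici.2 (div_pos hρ0 hM0).le) hle
  have h4 := hq2 (ρ (q.1, 0) / M) le_rfl (by
    calc ρ (q.1, 0) / M ≤ ρ (q.1, 0) / 1 := div_le_div_of_nonneg_left hρ0.le one_pos hM1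
      _ = 1 * ρ (q.1, 0) := by ring
      _ ≤ M * ρ (q.1, 0) := by gcongr)
  have h5 := (abs_le.1 h4).2
  have h6 : A q.1 q.2 (ρ (q.1, 0) / M) ≤ 2 * ρ q / M := by
    have h7 : A q.1 q.2 (ρ (q.1, 0) / M) / (ρ (q.1, 0) / M) ≤ 2 * (ρ q / ρ (q.1, 0)) := by
      linarith
    rw [div_le_iff₀ (div_pos hρ0 hM0)] at h7
    refine h7.trans (le_of_eq ?_)
    field_simp
  rw [Real.dist_eq, sub_zero, abs_of_pos (div_pos hApos hρ), div_lt_iff₀ hρ]
  have h8 : 2 / M ≤ ε / 2 := by
    rw [div_le_iff₀ hM0]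
    rw [div_le_iff₀ hε] at hM2
    linarith
  calc A q.1 q.2 (s q.1) ≤ 2 * ρ q / M := h3.trans h6
    _ = 2 / M * ρ q := by ring
    _ ≤ ε / 2 * ρ q := by gcongr
    _ < ε * ρ q := by
      have : 0 < ε * ρ q := by positivity
      linarith

/-- positive sequences converge in `[0, ∞]` along the ultrafilter -/
theorem prf_tri (r : ℕ → ℝ) (hr : ∀ j, 0 < r j) :
    Tendsto r UF (𝓝 0) ∨ (∃ c : ℝ, 0 < c ∧ Tendsto r UF (𝓝 c)) ∨ Tendsto r UF atTop := by
  by_cases h1 : Tendsto r UF atTop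
  · exact Or.inr (Or.inr h1)
  · rw [tendsto_atTop] at h1
    push Not at h1
    obtain ⟨B, hB⟩ := h1
    have hB' : ∀ᶠ j in UF, r j ∈ Set.Icc (0 : ℝ) B := by
      filter_upwards [hB] with j hj
      exact ⟨(hr j).le, hj.le⟩
    have hcpt : IsCompact (Set.Icc (0 : ℝ) B) := isCompact_Icc
    obtain ⟨c, hc, hlim⟩ := hcpt.ultrafilter_le_nhds ((Filter.hyperfilter ℕ).map r) (by
      rw [le_principal_iff]
      exact hB')
    have hlim' : Tendsto r UF (𝓝 c) := hlim
    rcases hc.1.eq_or_lt with h0 | h0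
    · left
      rw [h0]
      exact hlim'
    · exact Or.inr (Or.inl ⟨c, h0, hlim'⟩)

theorem profile_tame {A : ℕ → II → ℝ → ℝ} (hA : Profile A) {ρ : ℕ × II → ℝ} (hp : ∀ q, 0 < ρ q)
    (ht : Tame ρ) (hw : ¬ Tendsto ρ (LX II) (𝓝 0) → Window A ρ) (h1 : Window A (fun _ => 1))
    {s : ℕ → ℝ} (hs : Tendsto s UF atTop) (hs0 : ∀ j, 0 < s j) :
    Tame (fun q => A q.1 q.2 (s q.1) / ρ q) ∧
      Tendsto (fun q : ℕ × II => A q.1 q.2 (s q.1)) (LX II) atTop := by
  have hApos : ∀ q : ℕ × II, 0 < A q.1 q.2 (s q.1) := fun q => hA.pos _ _ _ (hs0 _)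
  have htop : Tendsto (fun q : ℕ × II => A q.1 q.2 (s q.1)) (LX II) atTop := by
    rw [tendsto_atTop]
    intro B
    set M : ℝ := max 1 (2 * B) with hM
    have hM1 : 1 ≤ M := le_max_left _ _
    have hM0 : 0 < M := lt_of_lt_of_le one_pos hM1
    have hM2 : 2 * B ≤ M := le_max_right _ _
    have h2 : ∀ᶠ q in LX II, M ≤ s q.1 := by
      rw [ev_LX]
      filter_upwards [hs.eventually (eventually_ge_atTop M)] with j hj _
      exact hj
    filter_upwards [h2, h1 M hM1 (1 / 2) (by norm_num)] with q hq1 hq2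
    have h3 := hq2 M (by rw [div_le_iff₀ hM0]; nlinarith) (by rw [mul_one])
    have h4 := (abs_le.1 h3).1
    have h5 : M / 2 ≤ A q.1 q.2 M := by
      have h6 : (1 : ℝ) / 2 ≤ A q.1 q.2 M / M := by
        norm_num at h4
        linarith
      rw [le_div_iff₀ hM0] at h6
      linarith
    have h7 := hA.mono q.1 q.2 (Set.mem_Ici.2 hM0.le) (Set.mem_Ici.2 (hs0 q.1).le) hq1
    linarith
  refine ⟨?_, htop⟩
  refine ⟨Eventually.of_forall fun q => div_pos (hApos q) (hp q), ?_⟩
  have hA0 : ∀ j, A j 0 (s j) = s j := fun j => hA.zero j (s j) (hs0 j).le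
  by_cases hn : Tendsto ρ (LX II) (𝓝 0)
  · -- ρ → 0
    left
    constructor
    · have hinv : Tendsto (fun q => (ρ q)⁻¹) (LX II) atTop := by
        refine Tendsto.inv_tendsto_nhdsGT_zero ?_
        exact tendsto_nhdsWithin_iff.2 ⟨hn, Eventually.of_forall fun q => hp q⟩
      have := htop.atTop_mul_atTop₀ hinv
      refine this.congr fun q => ?_
      rw [div_eq_mul_inv]
    · intro ε hε
      have h2 := ht.zero hn (ε := ε / (1 + ε)) (by positivity)
      have h3 : ∀ᶠ q in LX II, 1 ≤ s q.1 := by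
        rw [ev_LX]
        filter_upwards [hs.eventually (eventually_ge_atTop 1)] with j hj _
        exact hj
      filter_upwards [h2, h3] with q hq1 hq2
      have hρ := hp q
      have hρ0 := hp (q.1, 0)
      have h4 : A q.1 q.2 (s q.1) ≤ s q.1 := by
        have := hA.anti q.1 q.2 1 (s q.1) zero_le_one hq2
        rw [hA.one q.1 q.2 1 zero_le_one le_rfl] at this
        linarith
      show A q.1 q.2 (s q.1) / ρ q ≤ (1 + ε) * (A q.1 0 (s q.1) / ρ (q.1, 0))
      rw [hA0]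
      have h5 : ρ (q.1, 0) ≤ (1 + ε) * ρ q := by
        have h6 : 1 - ε / (1 + ε) = 1 / (1 + ε) := by field_simp; ring
        rw [h6] at hq1
        calc ρ (q.1, 0) = (1 + ε) * (1 / (1 + ε) * ρ (q.1, 0)) := by field_simp
          _ ≤ (1 + ε) * ρ q := by gcongr
      have hs1 := hs0 q.1
      rw [div_le_iff₀ hρ]
      calc A q.1 q.2 (s q.1) ≤ s q.1 := h4
        _ = s q.1 / ρ (q.1, 0) * ρ (q.1, 0) := by field_simp
        _ ≤ s q.1 / ρ (q.1, 0) * ((1 + ε) * ρ q) := by gcongr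
        _ = (1 + ε) * (s q.1 / ρ (q.1, 0)) * ρ q := by ring
  · have hW := hw hn
    rcases prf_tri (fun j => s j / ρ (j, 0)) (fun j => div_pos (hs0 j) (hp _)) with h | ⟨c, hc, h⟩ | h
    · -- s << ρ(0)
      right
      left
      constructor
      · have h2 := profile_small hA hp hW hs0 h
        have : Tendsto (fun q : ℕ × II => (A q.1 q.2 (s q.1) / ρ q)⁻¹) (LX II) atTop := by
          refine Tendsto.inv_tendsto_nhdsGT_zero ?_
          exact tendsto_nhdsWithin_iff.2 ⟨h2, Eventually.of_forall fun q => div_pos (hApos q) (hp q)⟩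
        exact this
      · intro ε hε
        have h3 : ∀ᶠ q in LX II, s q.1 / ρ (q.1, 0) < 1 := by
          rw [ev_LX]
          filter_upwards [h.eventually (eventually_lt_nhds one_pos)] with j hj _
          exact hj
        filter_upwards [h3, hW 1 le_rfl (ε / (1 + ε)) (by positivity)] with q hq1 hq2
        have hρ := hp q
        have hρ0 := hp (q.1, 0)
        have hs1 := hs0 q.1
        have hAq := hApos q
        have hle : s q.1 ≤ ρ (q.1, 0) := by
          rw [div_lt_one hρ0] at hq1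
          exact hq1.le
        have h4 := hq2 (ρ (q.1, 0)) (by rw [div_one]) (by rw [one_mul])
        have h5 := (abs_le.1 h4).1
        have h6 : 1 - ε / (1 + ε) = 1 / (1 + ε) := by field_simp; ring
        have h7 : 1 / (1 + ε) * ρ q ≤ A q.1 q.2 (ρ (q.1, 0)) := by
          have h8 : (1 - ε / (1 + ε)) * (ρ q / ρ (q.1, 0)) ≤
              A q.1 q.2 (ρ (q.1, 0)) / ρ (q.1, 0) := by linarith
          rw [h6, le_div_iff₀ hρ0] at h8
          calc 1 / (1 + ε) * ρ q = 1 / (1 + ε) * (ρ q / ρ (q.1, 0)) * ρ (q.1, 0) := by field_simp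
            _ ≤ _ := h8
        have h9 := hA.anti q.1 q.2 (s q.1) (ρ (q.1, 0)) hs1.le hle
        show (A q.1 q.2 (s q.1) / ρ q)⁻¹ ≤ (1 + ε) * (A q.1 0 (s q.1) / ρ (q.1, 0))⁻¹
        rw [hA0, inv_div, inv_div, div_le_iff₀ hAq]
        have h10 : s q.1 * (1 / (1 + ε) * ρ q) ≤ ρ (q.1, 0) * A q.1 q.2 (s q.1) :=
          (mul_le_mul_of_nonneg_left h7 hs1.le).trans h9
        calc ρ q = (1 + ε) / s q.1 * (s q.1 * (1 / (1 + ε) * ρ q)) := by field_simp
          _ ≤ (1 + ε) / s q.1 * (ρ (q.1, 0) * A q.1 q.2 (s q.1)) := by gcongr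
          _ = (1 + ε) * (ρ (q.1, 0) / s q.1) * A q.1 q.2 (s q.1) := by ring
    · -- s / ρ(0) → c
      right
      right
      refine ⟨c, hc, ?_⟩
      set M : ℝ := max 1 (max (2 * c) (2 / c)) with hM
      have hM1 : 1 ≤ M := le_max_left _ _
      have hM0 : 0 < M := lt_of_lt_of_le one_pos hM1
      have hM2 : 2 * c ≤ M := (le_max_left _ _).trans (le_max_right _ _)
      have hM3 : 2 / c ≤ M := (le_max_right _ _).trans (le_max_right _ _)
      have h' : Tendsto (fun q : ℕ × II => s q.1 / ρ (q.1, 0)) (LX II) (𝓝 c) :=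
        h.comp tendsto_fst
      have hlo : 1 / M < c := by
        rw [div_lt_iff₀ hM0]
        rw [div_le_iff₀ hc] at hM3
        nlinarith
      have hup : c < M := by linarith
      have hq : Tendsto (fun q : ℕ × II =>
          A q.1 q.2 (s q.1) / s q.1 / (ρ q / ρ (q.1, 0))) (LX II) (𝓝 1) := by
        rw [Metric.tendsto_nhds]
        intro ε hε
        filter_upwards [hW M hM1 (ε / 2) (by positivity),
          h'.eventually (eventually_gt_nhds hlo), h'.eventually (eventually_lt_nhds hup)]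
          with q hq1 hq2 hq3
        have hρ := hp q
        have hρ0 := hp (q.1, 0)
        have hs1 := hs0 q.1
        have h4 := hq1 (s q.1) (by
          rw [lt_div_iff₀ hρ0] at hq2
          calc ρ (q.1, 0) / M = 1 / M * ρ (q.1, 0) := by ring
            _ ≤ _ := hq2.le) (by
          rw [div_lt_iff₀ hρ0] at hq3
          exact hq3.le)
        have h5 : 0 < ρ q / ρ (q.1, 0) := div_pos hρ hρ0
        rw [Real.dist_eq]
        have h6 : A q.1 q.2 (s q.1) / s q.1 / (ρ q / ρ (q.1, 0)) - 1 =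
            (A q.1 q.2 (s q.1) / s q.1 - ρ q / ρ (q.1, 0)) / (ρ q / ρ (q.1, 0)) := by
          rw [sub_div, div_self h5.ne']
        rw [h6, abs_div, abs_of_pos h5, div_lt_iff₀ h5]
        have : ε / 2 * (ρ q / ρ (q.1, 0)) < ε * (ρ q / ρ (q.1, 0)) :=
          mul_lt_mul_of_pos_right (by linarith) h5
        linarith
      have h7 := hq.mul h'
      rw [one_mul] at h7
      refine h7.congr fun q => ?_
      have hρ := hp q
      have hρ0 := hp (q.1, 0)
      have hs1 := hs0 q.1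
      field_simp
    · -- s >> ρ(0)
      left
      have h' : ∀ K : ℝ, ∀ᶠ q in LX II, K ≤ s q.1 / ρ (q.1, 0) := by
        intro K
        rw [ev_LX]
        filter_upwards [h.eventually (eventually_ge_atTop K)] with j hj _
        exact hj
      constructor
      · rw [tendsto_atTop]
        intro B
        set K : ℝ := max 1 (2 * B) with hK
        have hK1 : 1 ≤ K := le_max_left _ _
        have hK0 : 0 < K := lt_of_lt_of_le one_pos hK1
        have hK2 : 2 * B ≤ K := le_max_right _ _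
        filter_upwards [h' K, hW K hK1 (1 / 2) (by norm_num)] with q hq1 hq2
        have hρ := hp q
        have hρ0 := hp (q.1, 0)
        have hs1 := hs0 q.1
        rw [le_div_iff₀ hρ0] at hq1
        have h4 := hq2 (K * ρ (q.1, 0)) (by
          rw [div_le_iff₀ hK0]
          have : ρ (q.1, 0) * 1 ≤ ρ (q.1, 0) * (K * K) :=
            mul_le_mul_of_nonneg_left (by nlinarith) hρ0.le
          linarith) le_rfl
        have h5 := (abs_le.1 h4).1
        have h6 : K * ρ q / 2 ≤ A q.1 q.2 (K * ρ (q.1, 0)) := by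
          have h8 : (1 / 2) * (ρ q / ρ (q.1, 0)) ≤
              A q.1 q.2 (K * ρ (q.1, 0)) / (K * ρ (q.1, 0)) := by linarith
          rw [le_div_iff₀ (by positivity)] at h8
          calc K * ρ q / 2 = (1 / 2) * (ρ q / ρ (q.1, 0)) * (K * ρ (q.1, 0)) := by field_simp
            _ ≤ _ := h8
        have h7 := hA.mono q.1 q.2 (Set.mem_Ici.2 (by positivity : 0 ≤ K * ρ (q.1, 0)))
          (Set.mem_Ici.2 hs1.le) hq1
        rw [le_div_iff₀ hρ]
        have h9 : 2 * B * ρ q ≤ K * ρ q := by gcongr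
        linarith
      · intro ε hε
        filter_upwards [h' 1, hW 1 le_rfl ε hε] with q hq1 hq2
        have hρ := hp q
        have hρ0 := hp (q.1, 0)
        have hs1 := hs0 q.1
        rw [le_div_iff₀ hρ0, one_mul] at hq1
        have h4 := hq2 (ρ (q.1, 0)) (by rw [div_one]) (by rw [one_mul])
        have h5 := (abs_le.1 h4).2
        have h7 : A q.1 q.2 (ρ (q.1, 0)) ≤ (1 + ε) * ρ q := by
          have h8 : A q.1 q.2 (ρ (q.1, 0)) / ρ (q.1, 0) ≤ (1 + ε) * (ρ q / ρ (q.1, 0)) := by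
            linarith
          rw [div_le_iff₀ hρ0] at h8
          refine h8.trans (le_of_eq ?_)
          field_simp
        have h9 := hA.anti q.1 q.2 (ρ (q.1, 0)) (s q.1) hρ0.le hq1
        show A q.1 q.2 (s q.1) / ρ q ≤ (1 + ε) * (A q.1 0 (s q.1) / ρ (q.1, 0))
        rw [hA0, div_le_iff₀ hρ]
        have h10 : ρ (q.1, 0) * A q.1 q.2 (s q.1) ≤ s q.1 * ((1 + ε) * ρ q) :=
          h9.trans (mul_le_mul_of_nonneg_left h7 hs1.le)
        calc A q.1 q.2 (s q.1) = (ρ (q.1, 0) * A q.1 q.2 (s q.1)) / ρ (q.1, 0) := by field_simp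
          _ ≤ (s q.1 * ((1 + ε) * ρ q)) / ρ (q.1, 0) := by gcongr
          _ = (1 + ε) * (s q.1 / ρ (q.1, 0)) * ρ q := by ring

end Pool.Agent.H51.BJ
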