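import Pool.Agent.H51.BJ.CAP
import Pool.Agent.H51.BJ.NGL
import Pool.Agent.H51.BJ.PRF

/-! # [H51 BJ CAA] The case `|x| → ∞`: a new state which resolves some `Q i`

`s j = max 1 (nr (xx j))` (`= nr (xx j)` for `UF`-many `j`), `β j l = A j l (s j)`, `u = lim x/|x|` along
`UF` (compactness, `nr u = 1`, `tp W u = 0`, so `u i ≠ 0` for some `i ∈ W`), `e` from `exists_e`.
Hypotheses of `new_germ`: `hβs` from `profile_small` (`s/b(0) → 0` by `Ctc.dx`, `Ctc.d0`), `hβt` is the
hypothesis `hAt` here. The state: `g' = ng g W a β u e`, points `y`, `κ'`. `top`: `profile_tame` (hypothesis `hAi`).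
`Con`: `z0`: `y - c'(0) = xx - β(0) u`, `β(0) = s = |xx|` (`Profile.zero`). `k0`:
`κ' - c'(1) = (a θ - a κ') + μ slp x - β(1) u`, `β(1) = A j 1 s = slp s`, `leafdiff`, `μ → 1`, `x/s → u`. `zt`, `kt`:
`ynr`. `zb`: `β(0) = s ≤ 2 δ b(0) ≤ 8 δ nr y`. `kb`: `β(1)/b(1) → 0` and `b(1) ≤ 4 nr κ'`. `bb`:
`A j 1 s ≤ s` (`Profile.anti` and `one`). `up`: `nr s' ≤ s/10 ≤ δ b(0)`, `slp = β(1)/β(0)`, and the factor
`1 ≤ 2`. `low`: `Ctc.low`. -/

set_option autoImplicit false

open MvPolynomial Filter Pool.Agent.H60 Pool.Agent.H57.BJ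
open scoped Topology

noncomputable section

namespace Pool.Agent.H51.BJ

variable {n : ℕ} {F : ℕ → V n → ℂ} {W : Finset (Fin n)} {g : Germ n} {z κ : ℕ → V n}
    {Q : Fin n → MvPolynomial (Fin n) ℂ} {φ : Fin n → ℂ} {a : ℕ → II → V n → V n}
    {D : ℕ → II → V n → V n →L[ℂ] V n} {A : ℕ → II → ℝ → ℝ} {y κ' θ : ℕ → V n} {μ δ : ℕ → ℝ}

private theorem caa_nr_continuous : Continuous (nr : V n → ℝ) := by
  unfold nr Nn
  exact Real.continuous_sqrt.comp (continuous_finsetSum _ fun i _ =>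
    ((continuous_apply i).norm).pow 2)

private theorem caa_nr_smul (c : ℂ) (x : V n) : nr (c • x) = ‖c‖ * nr x := by
  unfold nr Nn
  have h1 : ∑ j, ‖(c • x) j‖ ^ 2 = ‖c‖ ^ 2 * ∑ j, ‖x j‖ ^ 2 := by
    rw [Finset.mul_sum]
    refine Finset.sum_congr rfl fun j _ => ?_
    rw [Pi.smul_apply, smul_eq_mul, norm_mul, mul_pow]
  rw [h1, Real.sqrt_mul (sq_nonneg _), Real.sqrt_sq (norm_nonneg _)]

private theorem caa_norm_le_nr (x : V n) : ‖x‖ ≤ nr x := by
  rw [pi_norm_le_iff_of_nonneg (show 0 ≤ nr x from Real.sqrt_nonneg _)]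
  intro i
  unfold nr Nn
  apply Real.le_sqrt_of_sq_le
  exact Finset.single_le_sum (f := fun j => ‖x j‖ ^ 2) (fun j _ => sq_nonneg _) (Finset.mem_univ i)

theorem case_infinite (h : Pre F W g z κ Q φ) (hL : Leaf g W Q a D) (hA : Profile A)
    (hw : Window A (fun q => g.b q.1 q.2))
    (hAt : ∀ s : ℕ → ℝ, (∀ j, 0 < s j) → Tendsto s UF atTop → ∀ f f', CT W f → CT W f' →
      ∀ p : ℕ, Tame (fun q => A q.1 q.2 (s q.1) ^ p * (NN g f q / NN g f' q)))
    (hAi : ∀ s : ℕ → ℝ, (∀ j, 0 < s j) → Tendsto s UF atTop →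
      Tendsto (fun q : ℕ × II => A q.1 q.2 (s q.1)) (LX II) atTop)
    (hc : Ctc F W g z κ a A y κ' θ μ δ)
    (hx : Tendsto (fun j => nr (xx W a y j)) UF atTop) :
    ∃ τ : SS F, Ref τ.g g ∧ ∃ i ∈ W, Res τ.g (Q i) := by
  classical
  obtain ⟨e, e1, e2, e3, e4, e5, e6⟩ := exists_e h hL hc
  obtain ⟨X, hX⟩ : ∃ X : ℕ → V n, X = xx W a y := ⟨_, rfl⟩
  have hx' : Tendsto (fun j => nr (X j)) UF atTop := by
    rw [hX]
    exact hx
  obtain ⟨v, hv⟩ : ∃ v : ℕ → V n, v = fun j => ((nr (X j) : ℂ)⁻¹) • X j := ⟨_, rfl⟩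
  have hr1 : ∀ᶠ j in UF, 1 ≤ nr (X j) := hx'.eventually_ge_atTop 1
  have hvn : ∀ᶠ j in UF, nr (v j) = 1 := by
    filter_upwards [hr1] with j hj
    have hp : 0 < nr (X j) := lt_of_lt_of_le one_pos hj
    rw [hv]
    simp only
    rw [caa_nr_smul, norm_inv, Complex.norm_real, Real.norm_of_nonneg hp.le, inv_mul_cancel₀ hp.ne']
  obtain ⟨u, hu⟩ : ∃ u : V n, Tendsto v UF (𝓝 u) := by
    have h1 : (((Filter.hyperfilter ℕ).map v : Ultrafilter (V n)) : Filter (V n)) ≤
        𝓟 (Metric.closedBall (0 : V n) 1) := by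
      rw [le_principal_iff]
      show ∀ᶠ j in UF, v j ∈ Metric.closedBall (0 : V n) 1
      filter_upwards [hvn] with j hj
      rw [mem_closedBall_zero_iff, ← hj]
      exact caa_norm_le_nr _
    obtain ⟨u, _, hu⟩ := (isCompact_closedBall (0 : V n) 1).ultrafilter_le_nhds _ h1
    exact ⟨u, hu⟩
  have hun : nr u = 1 := by
    have h1 := (caa_nr_continuous.tendsto u).comp hu
    have h2 : Tendsto (fun j => nr (v j)) UF (𝓝 1) :=
      tendsto_const_nhds.congr' (by filter_upwards [hvn] with j hj; exact hj.symm)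
    exact tendsto_nhds_unique h1 h2
  have huW : ∀ i, i ∉ W → u i = 0 := by
    intro i hi
    have h1 : Tendsto (fun j => v j i) UF (𝓝 (u i)) :=
      ((continuous_apply i).tendsto u).comp hu
    have h2 : ∀ j, v j i = 0 := by
      intro j
      have h3 : X j i = 0 := by
        rw [hX]
        unfold xx
        have h4 := congrFun (hL.tpz j 0 (y j)) i
        unfold tp at h4
        rw [if_neg hi] at h4
        rw [Pi.sub_apply, h4]
        unfold wp
        rw [if_neg hi]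
        simp
      rw [hv]
      simp only [Pi.smul_apply, h3, smul_zero]
    simp only [h2] at h1
    exact (tendsto_nhds_unique h1 tendsto_const_nhds)
  have hutp : tp W u = 0 := by
    funext i
    unfold tp
    split_ifs with hi
    · rfl
    · exact huW i hi
  obtain ⟨i0, hi0, hui0⟩ : ∃ i ∈ W, u i ≠ 0 := by
    by_contra hno
    push Not at hno
    have h1 : u = 0 := by
      funext i
      by_cases hi : i ∈ W
      · exact hno i hi
      · exact huW i hi
    rw [h1] at hun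
    unfold nr Nn at hun
    simp at hun
  obtain ⟨s, hs⟩ : ∃ s : ℕ → ℝ, s = fun j => max 1 (nr (X j)) := ⟨_, rfl⟩
  have hs0 : ∀ j, 0 < s j := fun j => by
    rw [hs]
    exact lt_of_lt_of_le one_pos (le_max_left _ _)
  have hs1 : ∀ j, 1 ≤ s j := fun j => by
    rw [hs]
    exact le_max_left _ _
  have hsr : ∀ᶠ j in UF, s j = nr (X j) := by
    filter_upwards [hr1] with j hj
    rw [hs]
    exact max_eq_right hj
  have hstop : Tendsto s UF atTop := hx'.congr' (by filter_upwards [hsr] with j hj; exact hj.symm)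
  have hdx : ∀ᶠ j in UF, nr (X j) ≤ 2 * δ j * g.b j 0 := by
    rw [hX]
    exact hc.dx
  have hsb : Tendsto (fun j => s j / g.b j 0) UF (𝓝 0) := by
    have h1 : Tendsto (fun j => 2 * δ j) UF (𝓝 0) := by
      have := hc.d0.const_mul 2
      rwa [mul_zero] at this
    refine squeeze_zero' (Eventually.of_forall fun j => div_nonneg (hs0 j).le (h.pos j 0).le) ?_ h1
    filter_upwards [hsr, hdx] with j h2 h3
    rw [h2, div_le_iff₀ (h.pos j 0)]
    exact h3
  obtain ⟨β, hβ⟩ : ∃ β : ℕ → II → ℝ, β = fun j l => A j l (s j) := ⟨_, rfl⟩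
  have hβp : ∀ j l, 0 < β j l := fun j l => by
    rw [hβ]
    exact hA.pos j l (s j) (hs0 j)
  have hβs : Tendsto (fun q : ℕ × II => β q.1 q.2 / g.b q.1 q.2) (LX II) (𝓝 0) := by
    rw [hβ]
    exact profile_small hA (ρ := fun q => g.b q.1 q.2) (fun q => h.pos _ _) hw hs0 hsb
  have hβ0 : ∀ j, β j 0 = s j := fun j => by
    rw [hβ]
    exact hA.zero j (s j) (hs0 j).le
  have hβ1 : ∀ᶠ j in UF, β j 1 = slp A j (nr (X j)) * nr (X j) := by
    filter_upwards [hsr, hr1] with j h1 h2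
    have hp : nr (X j) ≠ 0 := (lt_of_lt_of_le one_pos h2).ne'
    rw [hβ]
    simp only
    unfold slp
    rw [if_neg hp, h1, div_mul_cancel₀ _ hp]
  obtain ⟨g', hg'⟩ : ∃ g' : Germ n, g' = ng g W a β u e := ⟨_, rfl⟩
  obtain ⟨G1, G2, _, G4⟩ := new_germ h hL (β := β) (u := u) (e := e)
    (fun j => by rw [hβ]; exact hA.contl j (s j) (hs0 j).le) hβp hβs
    (fun f f' hf hf' p => by
      rw [hβ]
      exact hAt s hs0 hstop f f' hf hf' p) hutp e1 e2 e3 e4
  rw [← hg'] at G1 G2 G4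
  have hb' : ∀ j l, g'.b j l = β j l := fun j l => by
    rw [hg']
    rfl
  have hc0 : ∀ᶠ j in UF, y j - g'.c j 0 = X j - (s j : ℂ) • u := by
    filter_upwards [e5] with j h1
    have h2 : g'.c j 0 = lp W a j 0 (g.c j 0 + (g.b j 0 : ℂ) • e j 0) + (β j 0 : ℂ) • u := by
      rw [hg']
      rfl
    rw [h2, hβ0, hX, ← h1]
    abel
  have hc1 : ∀ᶠ j in UF, κ' j - g'.c j 1 = (a j 1 (θ j) - a j 1 (κ' j)) +
      ((μ j * slp A j (nr (X j)) : ℝ) : ℂ) • X j - (β j 1 : ℂ) • u := by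
    filter_upwards [e6] with j h1
    have h2 : g'.c j 1 = lp W a j 1 (g.c j 1 + (g.b j 1 : ℂ) • e j 1) + (β j 1 : ℂ) • u := by
      rw [hg']
      rfl
    rw [h2, hX, ← h1]
    abel
  obtain ⟨N1, N2, N3, N4⟩ := ynr h hc
  have hcon : Con F g' y κ' := by
    refine ⟨?_, ?_, N1, N2, ?_, ?_, ?_, ?_, hc.low⟩
    · have h1 : Tendsto (fun j => ‖v j - u‖) UF (𝓝 0) := tendsto_iff_norm_sub_tendsto_zero.mp hu
      refine h1.congr' ?_
      filter_upwards [hc0, hsr, hr1] with j h2 h3 h4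
      have hp : 0 < nr (X j) := lt_of_lt_of_le one_pos h4
      have h5 : X j - (s j : ℂ) • u = (nr (X j) : ℂ) • (v j - u) := by
        rw [h3, smul_sub, hv]
        simp only
        rw [smul_smul, mul_inv_cancel₀ (Complex.ofReal_ne_zero.mpr hp.ne'), one_smul]
      rw [h2, h5, hb', hβ0, h3, norm_smul, Complex.norm_real, Real.norm_of_nonneg hp.le,
        mul_div_cancel_left₀ _ hp.ne']
    · have h1 : Tendsto (fun j => ‖((μ j : ℝ) : ℂ) • v j - u‖) UF (𝓝 0) := by
        have h2 : Tendsto (fun j => ((μ j : ℝ) : ℂ) • v j) UF (𝓝 u) := by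
          have h3 := ((Complex.continuous_ofReal.tendsto 1).comp hc.mu).smul hu
          rw [Complex.ofReal_one, one_smul] at h3
          exact h3
        exact tendsto_iff_norm_sub_tendsto_zero.mp h2
      rw [Metric.tendsto_nhds]
      intro ε hε
      have h2 := leafdiff h hL hc (half_pos hε)
      rw [← hX] at h2
      filter_upwards [hc1, h2, h1.eventually_lt_const (half_pos hε), hβ1, hr1] with j j1 j2 j3 j4 j5
      have hp : 0 < nr (X j) := lt_of_lt_of_le one_pos j5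
      have hb := hβp j 1
      have h5 : (a j 1 (θ j) - a j 1 (κ' j)) +
          ((μ j * slp A j (nr (X j)) : ℝ) : ℂ) • X j - (β j 1 : ℂ) • u =
          (a j 1 (θ j) - a j 1 (κ' j)) + (β j 1 : ℂ) • (((μ j : ℝ) : ℂ) • v j - u) := by
        have h6 : ((μ j * slp A j (nr (X j)) : ℝ) : ℂ) • X j = (β j 1 : ℂ) • ((μ j : ℝ) : ℂ) • v j := by
          rw [j4, hv]
          simp only
          rw [smul_smul, smul_smul]
          congr 1
          have hp' : (nr (X j) : ℂ) ≠ 0 := Complex.ofReal_ne_zero.mpr hp.ne'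
          push_cast
          field_simp
        rw [h6, smul_sub]
        abel
      rw [dist_zero_right, Real.norm_of_nonneg (div_nonneg (norm_nonneg _) (by rw [hb']; exact hb.le)),
        hb', div_lt_iff₀ hb, j1, h5]
      calc ‖(a j 1 (θ j) - a j 1 (κ' j)) + (β j 1 : ℂ) • (((μ j : ℝ) : ℂ) • v j - u)‖
          ≤ ‖a j 1 (θ j) - a j 1 (κ' j)‖ + ‖(β j 1 : ℂ) • (((μ j : ℝ) : ℂ) • v j - u)‖ :=
            norm_add_le _ _
        _ = ‖a j 1 (θ j) - a j 1 (κ' j)‖ + β j 1 * ‖((μ j : ℝ) : ℂ) • v j - u‖ := by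
            rw [norm_smul, Complex.norm_real, Real.norm_of_nonneg hb.le]
        _ < ε * β j 1 := by
            have k1 : ‖a j 1 (θ j) - a j 1 (κ' j)‖ ≤ ε / 2 * β j 1 := by
              rw [j4]
              exact j2
            have k2 : β j 1 * ‖((μ j : ℝ) : ℂ) • v j - u‖ < β j 1 * (ε / 2) :=
              mul_lt_mul_of_pos_left j3 hb
            linarith
    · have h1 : ∀ᶠ j in UF, δ j < 1 / 4 := hc.d0.eventually_lt_const (by norm_num)
      filter_upwards [hsr, hdx, h1, N3] with j j1 j2 j3 j4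
      rw [hb', hβ0, j1]
      have hb := h.pos j 0
      have k1 : 2 * δ j * g.b j 0 ≤ 1 / 2 * g.b j 0 :=
        mul_le_mul_of_nonneg_right (by linarith) hb.le
      linarith
    · have h1 : ∀ᶠ j in UF, β j 1 / g.b j 1 < 1 / 2 :=
        (tendsto_at hβs 1).eventually_lt_const (by norm_num)
      filter_upwards [h1, N4] with j j1 j2
      rw [hb']
      rw [div_lt_iff₀ (h.pos j 1)] at j1
      linarith
    · refine Eventually.of_forall fun j => ?_
      rw [hb', hb', hβ0]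
      have h1 := hA.anti j 1 1 (s j) zero_le_one (hs1 j)
      rw [hA.one j 1 1 zero_le_one (le_refl _), one_mul, mul_one] at h1
      have h2 := hs0 j
      have h3 : β j 1 = A j 1 (s j) := by rw [hβ]
      rw [h3]
      linarith
    · intro ε hε
      have h1 := hc.up ε hε
      rw [← hX] at h1
      filter_upwards [h1, hsr, hdx, hβ1, hr1] with j j1 j2 j3 j4 j5 s' hs'
      have hp : 0 < nr (X j) := lt_of_lt_of_le one_pos j5
      rw [hb', hβ0, j2] at hs'
      have k1 : nr s' ≤ δ j * g.b j 0 := by linarith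
      have k2 := j1 s' k1
      have k3 : slp A j (nr (X j)) = g'.b j 1 / g'.b j 0 := by
        rw [hb', hb', hβ0, j2, j4, mul_div_cancel_right₀ _ hp.ne']
      rw [k3] at k2
      refine k2.trans ?_
      apply mul_le_mul_of_nonneg_right _ (Real.exp_pos _).le
      have := norm_nonneg (F j (y j))
      linarith
  have htop : Tendsto (fun q : ℕ × II => g'.b q.1 q.2) (LX II) atTop := by
    refine (hAi s hs0 hstop).congr fun q => ?_
    rw [hb', hβ]
  exact ⟨⟨g', y, κ', ⟨G1, htop, hcon⟩⟩, G2, i0, hi0, G4 i0 hi0 hui0⟩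

end Pool.Agent.H51.BJ
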