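import Pool.Agent.H51.BJ.EGG
import Pool.Agent.H57.BJ.BU

/-! # [H51 BJ EGC] Good situations are impossible (application of the blow-up theorem)

Apply `blowup` (H57/BJ/BU.lean) with `z`, `ω = cjv κ`, `f = h`. -/

set_option autoImplicit false

open MvPolynomial Filter Pool.Agent.H60 Pool.Agent.H57.BJ
open scoped Topology

noncomputable section

namespace Pool.Agent.H51.BJ

variable {n : ℕ} {P : MvPolynomial (Fin n) ℂ} {h : ℕ → V n → ℂ} {z κ : ℕ → V n}

theorem eg_Nn_le_sup (s : V n) : Nn s ≤ n * ‖s‖ ^ 2 := by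
  unfold Nn
  calc ∑ j, ‖s j‖ ^ 2 ≤ ∑ _j : Fin n, ‖s‖ ^ 2 := Finset.sum_le_sum fun j _ =>
        pow_le_pow_left₀ (norm_nonneg _) (norm_le_pi_norm s j) 2
    _ = n * ‖s‖ ^ 2 := by simp

theorem Nn_nonneg' (s : V n) : 0 ≤ Nn s := Finset.sum_nonneg fun j _ => by positivity

theorem nr_nonneg (s : V n) : 0 ≤ nr s := Real.sqrt_nonneg _

theorem nr_sq (s : V n) : nr s ^ 2 = Nn s := Real.sq_sqrt (Nn_nonneg' s)

theorem eg_nr_le_sup (s : V n) : nr s ≤ Real.sqrt n * ‖s‖ := by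
  unfold nr
  refine (Real.sqrt_le_sqrt (eg_Nn_le_sup s)).trans ?_
  rw [Real.sqrt_mul (Nat.cast_nonneg n), Real.sqrt_sq (norm_nonneg _)]

theorem eg_nr_eq (s : V n) : nr s = ‖(WithLp.toLp 2 s : EuclideanSpace ℂ (Fin n))‖ := by
  unfold nr Nn
  rw [EuclideanSpace.norm_eq]

theorem nr_add_le (s t : V n) : nr (s + t) ≤ nr s + nr t := by
  rw [eg_nr_eq, eg_nr_eq, eg_nr_eq, WithLp.toLp_add]
  exact norm_add_le _ _

theorem hp_le (s t : V n) : ‖hp s t‖ ≤ nr s * nr t := by
  have h1 : hp s t = inner ℂ (WithLp.toLp 2 t : EuclideanSpace ℂ (Fin n)) (WithLp.toLp 2 s) := by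
    unfold hp
    rw [PiLp.inner_apply]
    rfl
  rw [h1, eg_nr_eq, eg_nr_eq, mul_comm]
  exact norm_inner_le_norm _ _

theorem pair_cjv (j : ℕ) (s : V n) : pair (cjv κ j) s = hp s (κ j) := by
  unfold pair cjv hp
  exact Finset.sum_congr rfl fun i _ => mul_comm _ _

theorem no_good (hd : Dat P h) (hG : GoodU P z (cjv κ)) {K : ℝ}
    (hup : ∀ r : ℝ, ∀ᶠ j in UF, ∀ s : V n, nr s ≤ r →
      ‖FF P h j (z j + s)‖ ≤ 2 * ‖FF P h j (z j)‖ * Real.exp ((hp s (κ j)).re + K * Nn s))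
    (hlow : ∀ᶠ j in UF, Real.exp (1 / 8 * (nr (z j) * nr (κ j))) ≤ ‖FF P h j (z j)‖)
    (hz : Tendsto (fun j => nr (z j)) UF atTop) (hk : Tendsto (fun j => nr (κ j)) UF atTop) :
    False := by
  obtain ⟨ρ, hρ⟩ := hd.rhs
  set c : ℝ := Real.sqrt n with hc
  have hc0 : 0 ≤ c := Real.sqrt_nonneg _
  refine blowup z (cjv κ) hG h hd.diff (fun r => Real.log 2 + |K| * (n * r ^ 2))
    (fun j => Real.exp (-(1 / 16 * (nr (z j) * nr (κ j))))) ?_ ?_ ?_ ?_
  · refine Real.tendsto_exp_atBot.comp (tendsto_neg_atTop_atBot.comp ?_)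
    exact (hz.atTop_mul_atTop₀ hk).const_mul_atTop (by norm_num)
  · filter_upwards [hlow] with j hj h0
    have h1 : FF P h j (z j) = 0 := h0
    rw [h1, norm_zero] at hj
    exact absurd hj (not_le.mpr (Real.exp_pos _))
  · intro r
    filter_upwards [hup (c * r)] with j hj s hs
    have h1 := hj s ((eg_nr_le_sup s).trans (mul_le_mul_of_nonneg_left hs hc0))
    refine h1.trans ?_
    rw [pair_cjv]
    have h2 : K * Nn s ≤ |K| * (n * r ^ 2) := by
      refine (mul_le_mul_of_nonneg_right (le_abs_self K) (Nn_nonneg' s)).trans ?_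
      refine mul_le_mul_of_nonneg_left ((eg_Nn_le_sup s).trans ?_) (abs_nonneg _)
      exact mul_le_mul_of_nonneg_left (pow_le_pow_left₀ (norm_nonneg _) hs 2)
        (Nat.cast_nonneg n)
    have h3 : Real.exp ((hp s (κ j)).re + (Real.log 2 + |K| * (n * r ^ 2)))
        = 2 * Real.exp ((hp s (κ j)).re + |K| * (n * r ^ 2)) := by
      rw [show (hp s (κ j)).re + (Real.log 2 + |K| * (n * r ^ 2))
        = Real.log 2 + ((hp s (κ j)).re + |K| * (n * r ^ 2)) by ring, Real.exp_add,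
        Real.exp_log (by norm_num)]
    show 2 * ‖FF P h j (z j)‖ * Real.exp ((hp s (κ j)).re + K * Nn s)
      ≤ Real.exp ((hp s (κ j)).re + (Real.log 2 + |K| * (n * r ^ 2))) * ‖FF P h j (z j)‖
    rw [h3]
    have h4 : Real.exp ((hp s (κ j)).re + K * Nn s)
        ≤ Real.exp ((hp s (κ j)).re + |K| * (n * r ^ 2)) := Real.exp_le_exp.mpr (by linarith)
    have h5 : 0 ≤ ‖FF P h j (z j)‖ := norm_nonneg _
    nlinarith [mul_le_mul_of_nonneg_left h4 h5]
  · intro r
    have hr1 : ∀ᶠ j in UF, |ρ| * (nr (z j) + c * |r|) + c * |r| * nr (κ j)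
        ≤ 1 / 16 * (nr (z j) * nr (κ j)) := by
      filter_upwards [hz.eventually_ge_atTop (64 * (c * |r|) + 1),
        hk.eventually_ge_atTop (64 * |ρ| + 1)] with j h1 h2
      have a1 : 0 ≤ |ρ| := abs_nonneg _
      have a2 : 0 ≤ c * |r| := mul_nonneg hc0 (abs_nonneg _)
      nlinarith [mul_le_mul h1 h2 (by positivity) (by linarith),
        mul_nonneg (sub_nonneg.mpr h1) (sub_nonneg.mpr h2)]
    filter_upwards [hr1, hlow] with j h1 h2 s hs
    have h3 := hρ j (z j + s)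
    have hs' : nr s ≤ c * |r| :=
      (eg_nr_le_sup s).trans (mul_le_mul_of_nonneg_left (hs.trans (le_abs_self r)) hc0)
    have h4 : ρ * nr (z j + s) ≤ |ρ| * (nr (z j) + c * |r|) := by
      refine (mul_le_mul_of_nonneg_right (le_abs_self ρ) (nr_nonneg _)).trans ?_
      exact mul_le_mul_of_nonneg_left ((nr_add_le _ _).trans (by linarith)) (abs_nonneg _)
    have h5 : -(c * |r| * nr (κ j)) ≤ (hp s (κ j)).re := by
      have := (abs_le.mp ((Complex.abs_re_le_norm (hp s (κ j))).trans (hp_le s (κ j)))).1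
      have h6 := mul_le_mul_of_nonneg_right hs' (nr_nonneg (κ j))
      linarith
    rw [pair_cjv]
    have hK : 0 ≤ Real.log 2 + |K| * (n * r ^ 2) := by
      have := Real.log_nonneg (show (1:ℝ) ≤ 2 by norm_num)
      positivity
    calc ‖Tf P (h j) (z j + s)‖ ≤ Real.exp (ρ * nr (z j + s)) := h3
      _ ≤ Real.exp (-(1 / 16 * (nr (z j) * nr (κ j))) +
            ((hp s (κ j)).re + (Real.log 2 + |K| * (n * r ^ 2))) +
            1 / 8 * (nr (z j) * nr (κ j))) := by
          apply Real.exp_le_exp.mpr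
          linarith
      _ = Real.exp (-(1 / 16 * (nr (z j) * nr (κ j)))) *
            Real.exp ((hp s (κ j)).re + (Real.log 2 + |K| * (n * r ^ 2))) *
            Real.exp (1 / 8 * (nr (z j) * nr (κ j))) := by
          rw [Real.exp_add, Real.exp_add]
      _ ≤ _ := mul_le_mul_of_nonneg_left h2 (by positivity)

theorem endgame1 (hd : Dat P h) (τ : SS (FF P h)) : ¬ Res τ.g P := by
  intro hr
  have st := τ.st
  have hb0 : Tendsto (fun j => τ.g.b j 0) UF atTop := tendsto_at st.top 0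
  refine no_good (K := 2) hd (goodU_state st.ok.pos st.top st.con.z0 st.con.k0 hd.ne hr)
    (fun r => ?_) ?_ st.con.zt st.con.kt
  · filter_upwards [st.con.up 1 one_pos, hb0.eventually_ge_atTop (10 * r), st.con.bb]
      with j h1 h2 h3 s hs
    refine (h1 s (by linarith)).trans ?_
    have hp := st.ok.pos j 0
    have h4 : τ.g.b j 1 / τ.g.b j 0 ≤ 2 := (div_le_iff₀ hp).mpr (by linarith)
    refine mul_le_mul_of_nonneg_left (Real.exp_le_exp.mpr ?_) (by positivity)
    have h5 : (1 + 1) / 2 * (τ.g.b j 1 / τ.g.b j 0) * Nn s ≤ 2 * Nn s := by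
      refine mul_le_mul_of_nonneg_right ?_ (Nn_nonneg' s)
      linarith
    linarith
  · filter_upwards [st.con.low (1 / 8) (by norm_num)] with j h1
    rw [show (1 / 4 - 1 / 8 : ℝ) = 1 / 8 by norm_num] at h1
    exact h1

end Pool.Agent.H51.BJ
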