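import Pool.Agent.H51.BJ.Defs

/-! # [H51 BJ INJ] Injectivity for polynomials in fewer variables

`W` is a proper subset of the variables, `B` a nonzero polynomial in the variables of `W`. Let
`k = #W < n`, `ι : Fin k → Fin n` injective with range `W` (`Finset.orderEmbOfFin`), `B = rename ι B0`,
`B0 ≠ 0` (`mem_supported_iff_exists_rename` or similar). Let `h` be entire with `dop (Ps B) (B h) = 0`; `dop (Ps B) (fun w => ev B w * h w) z = Tf B h z`
(the supports of `Ps B` and `B` are equal, the coefficients conjugate). Fix `y : V n` and put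
`h0 v = h (y with the coordinates in W replaced by v)`, entire on `ℂ^k`. The partial derivatives in the
directions of `W` commute with the restriction to the slice (chain rule for the affine map), so
`Tf B0 h0 v = Tf B h (y ⊔ v) = 0` for all `v`. By `est_entire` (with `s = 0`) for `B0` (hypothesis
`hind`) `h0 = 0`. So `h = 0`. -/

set_option autoImplicit false

open MvPolynomial Filter Pool.Agent.H60 Pool.Agent.H57.BJ
open scoped Topology

noncomputable section

namespace Pool.Agent.H51.BJ

variable {n : ℕ}

theorem dop_Ps (B : MvPolynomial (Fin n) ℂ) (h : V n → ℂ) (z : V n) :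
    dop (Ps B) (fun w => ev B w * h w) z = Tf B h z := by
  unfold dop Tf Ps
  rw [MvPolynomial.support_map_of_injective _ (RingHom.injective _)]
  apply Finset.sum_congr rfl
  intro m _
  rw [MvPolynomial.coeff_map]

private lemma count_Lst (m : Fin n →₀ ℕ) (i : Fin n) : (Lst m).count i = m i := by
  unfold Lst
  rw [List.count_flatMap]
  have h1 : (List.map (List.count i ∘ fun j => List.replicate (m j) j) (List.finRange n)).sum
      = ∑ j : Fin n, (if j = i then m j else 0) := by
    rw [← List.ofFn_eq_map, List.sum_ofFn]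
    apply Finset.sum_congr rfl
    intro j _
    simp only [Function.comp, List.count_replicate]
    by_cases hj : j = i
    · subst hj; simp
    · simp [hj]
  rw [h1]
  simp

private lemma sorted_Lst (m : Fin n →₀ ℕ) : (Lst m).Pairwise (· ≤ ·) := by
  unfold Lst
  rw [List.pairwise_flatMap]
  refine ⟨fun a _ => ?_, ?_⟩
  · exact List.pairwise_replicate_of_refl
  · have h1 : (List.finRange n).Pairwise (· < ·) := List.pairwise_lt_finRange n
    refine h1.imp ?_
    intro a b hab x hx y hy
    rw [List.mem_replicate] at hx hy
    rw [hx.2, hy.2]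
    exact hab.le

private lemma Lst_mapDomain {k : ℕ} (ι : Fin k ↪o Fin n) (m : Fin k →₀ ℕ) :
    Lst (m.mapDomain ι) = (Lst m).map ι := by
  refine List.Perm.eq_of_pairwise (le := (· ≤ ·)) ?_ (sorted_Lst _) ?_ ?_
  · intro a b _ _ h1 h2
    exact le_antisymm h1 h2
  · rw [List.pairwise_map]
    exact (sorted_Lst m).imp (fun h => ι.monotone h)
  · rw [List.perm_iff_count]
    intro i
    rw [count_Lst]
    by_cases hi : ∃ j, ι j = i
    · obtain ⟨j, rfl⟩ := hi
      rw [Finsupp.mapDomain_apply ι.injective, List.count_map_of_injective _ _ ι.injective,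
        count_Lst]
    · rw [Finsupp.mapDomain_notin_range _ _ (by simpa using hi)]
      symm
      rw [List.count_eq_zero]
      intro hm
      rw [List.mem_map] at hm
      obtain ⟨j, _, hj⟩ := hm
      exact hi ⟨j, hj⟩

/-- the linear embedding of the coordinates -/
private def emb {k : ℕ} (ι : Fin k → Fin n) : V k →L[ℂ] V n :=
  ∑ j, (ContinuousLinearMap.proj (R := ℂ) (φ := fun _ : Fin k => ℂ) j).smulRight
    (Pi.single (ι j) (1 : ℂ) : V n)

private lemma emb_single {k : ℕ} (ι : Fin k → Fin n) (j : Fin k) :
    emb ι (Pi.single j 1) = Pi.single (ι j) (1 : ℂ) := by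
  unfold emb
  rw [ContinuousLinearMap.sum_apply, Finset.sum_eq_single j]
  · simp
  · intro b _ hb
    simp [Pi.single_eq_of_ne hb]
  · intro h; exact absurd (Finset.mem_univ j) h

private lemma emb_apply {k : ℕ} (ι : Fin k → Fin n) (v : V k) (i : Fin n) :
    emb ι v i = ∑ j, (if ι j = i then v j else 0) := by
  unfold emb
  rw [ContinuousLinearMap.sum_apply, Finset.sum_apply]
  apply Finset.sum_congr rfl
  intro j _
  simp [Pi.single_apply, eq_comm]

private lemma pd_slice {k : ℕ} (ι : Fin k → Fin n) (a : V n) {f : V n → ℂ}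
    (hf : Differentiable ℂ f) (j : Fin k) :
    pd j (fun v => f (a + emb ι v)) = fun v => pd (ι j) f (a + emb ι v) := by
  funext v
  unfold pd
  have h1 : HasFDerivAt (fun v : V k => a + emb ι v) (emb ι) v :=
    ((emb ι).hasFDerivAt).const_add a
  have h2 := (hf (a + emb ι v)).hasFDerivAt.comp v h1
  have h3 : (f ∘ fun v : V k => a + emb ι v) = fun v => f (a + emb ι v) := rfl
  rw [h3] at h2
  rw [h2.fderiv, ContinuousLinearMap.comp_apply, emb_single]

private lemma diff_slice {k : ℕ} (ι : Fin k → Fin n) (a : V n) {f : V n → ℂ}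
    (hf : Differentiable ℂ f) : Differentiable ℂ (fun v => f (a + emb ι v)) :=
  hf.comp ((emb ι).differentiable.const_add a)

private lemma pdL_slice {k : ℕ} (ι : Fin k → Fin n) (a : V n) {f : V n → ℂ}
    (hf : Differentiable ℂ f) (l : List (Fin k)) :
    pdL l (fun v => f (a + emb ι v)) = fun v => pdL (l.map ι) f (a + emb ι v) := by
  induction l with
  | nil => rfl
  | cons j l ih =>
    have h1 : pdL (j :: l) (fun v => f (a + emb ι v))
        = pd j (pdL l (fun v => f (a + emb ι v))) := rfl
    rw [h1, ih, pd_slice ι a (differentiable_pdL _ hf)]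
    rfl

theorem inj_sub (hind : ∀ k, k < n → ∀ B : MvPolynomial (Fin k) ℂ, B ≠ 0 → GoodEst B)
    {W : Finset (Fin n)} (hW : W ≠ Finset.univ) {B : MvPolynomial (Fin n) ℂ} (hB0 : B ≠ 0)
    (hB : B ∈ MvPolynomial.supported ℂ (W : Set (Fin n))) : Inj B (Ps B) := by
  have hk : W.card < n := by
    have h1 := Finset.card_lt_univ_of_notMem (s := W) (x := Classical.choose
      (not_forall.1 (fun h => hW (Finset.eq_univ_iff_forall.2 h))))
      (Classical.choose_spec (not_forall.1 (fun h => hW (Finset.eq_univ_iff_forall.2 h))))
    simpa using h1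
  set ι : Fin W.card ↪o Fin n := W.orderEmbOfFin rfl with hι
  have hran : Set.range ι = (W : Set (Fin n)) := Finset.range_orderEmbOfFin W rfl
  obtain ⟨B0, hB0'⟩ := MvPolynomial.exists_rename_eq_of_vars_subset_range B (ι : Fin W.card → Fin n)
    ι.injective (by rw [hran]; exact MvPolynomial.mem_supported.1 hB)
  have hB00 : B0 ≠ 0 := by
    rintro rfl
    exact hB0 (by rw [← hB0', map_zero])
  intro h hd heq z
  have hz : ∀ w, Tf B h w = 0 := fun w => by rw [← dop_Ps]; exact heq w
  -- the slice
  set a : V n := fun i => if i ∈ W then 0 else z i with ha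
  have hea : ∀ v : V W.card, ∀ j, (a + emb ι v) (ι j) = v j := by
    intro v j
    rw [Pi.add_apply, emb_apply, Finset.sum_eq_single j]
    · have : ι j ∈ W := by
        have : ι j ∈ (W : Set (Fin n)) := by rw [← hran]; exact ⟨j, rfl⟩
        exact this
      simp [ha, this]
    · intro b _ hb
      rw [if_neg (fun h => hb (ι.injective h))]
    · intro h; exact absurd (Finset.mem_univ j) h
  have hBe : ∀ v : V W.card, ev B (a + emb ι v) = ev B0 v := by
    intro v
    unfold ev
    rw [← hB0', MvPolynomial.eval_rename]
    congr 2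
    funext j
    exact hea v j
  have hd0 : Differentiable ℂ (fun v : V W.card => h (a + emb ι v)) := diff_slice ι a hd
  have hT : ∀ v, Tf B0 (fun v : V W.card => h (a + emb ι v)) v = 0 := by
    intro v
    rw [← hz (a + emb ι v)]
    unfold Tf
    have h1 : (fun w : V W.card => ev B0 w * h (a + emb ι w))
        = fun w => (fun u => ev B u * h u) (a + emb ι w) := by
      funext w
      rw [← hBe w]
    have h2 : Differentiable ℂ (fun u => ev B u * h u) := differentiable_Pf B hd
    have h3 : ∀ m : Fin W.card →₀ ℕ,
        pdL (Lst m) (fun w : V W.card => (fun u => ev B u * h u) (a + emb ι w)) v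
          = pdL ((Lst m).map ι) (fun u => ev B u * h u) (a + emb ι v) := fun m => by
      rw [pdL_slice ι a h2]
    rw [h1]
    have h4 : B.support = B0.support.image (Finsupp.mapDomain ι) := by
      rw [← hB0', MvPolynomial.support_rename_of_injective ι.injective]
    rw [h4, Finset.sum_image (fun x _ y _ hxy => Finsupp.mapDomain_injective ι.injective hxy)]
    apply Finset.sum_congr rfl
    intro m _
    rw [h3, Lst_mapDomain]
    congr 2
    rw [← hB0', MvPolynomial.coeff_rename_mapDomain _ ι.injective]
  -- the estimate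
  have h0 : h z = 0 := by
    have h5 : z = a + emb ι (fun j => z (ι j)) := by
      funext i
      by_cases hi : i ∈ W
      · have : i ∈ Set.range ι := by rw [hran]; exact hi
        obtain ⟨j, rfl⟩ := this
        rw [hea]
      · rw [Pi.add_apply, emb_apply, Finset.sum_eq_zero]
        · simp [ha, hi]
        · intro j _
          rw [if_neg]
          rintro rfl
          apply hi
          have : ι j ∈ (W : Set (Fin n)) := by rw [← hran]; exact ⟨j, rfl⟩
          exact this
    obtain ⟨Cst, ρ', _, hest⟩ := est_entire (hind _ hk B0 hB00) ‖(fun j => z (ι j) : V W.card)‖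
    have h6 := hest (fun v : V W.card => h (a + emb ι v)) hd0 0 le_rfl
      (fun w _ => by rw [hT w, norm_zero]) (fun j => z (ι j))
      (by rw [mem_closedBall_zero_iff])
    rw [← h5, mul_zero] at h6
    exact norm_le_zero_iff.1 h6
  rw [h0, mul_zero]

end Pool.Agent.H51.BJ
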