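import Pool.Agent.H51.BJ.CAP
import Pool.Agent.H51.BJ.NGL
import Pool.Agent.H51.BJ.EGC
import Pool.Agent.H51.BJ.INJ
import Pool.Agent.H51.BJ.PRF

/-! # [H51 BJ CAB] The case `|x|` bounded: contradiction by induction on `n`

`xx` is bounded for `UF`-many `j`, so it converges along `UF` to some `u` with `tp W u = 0`. `β = 1`, `e` from
`exists_e`; `hβt` is `Pre.tame` with `p = 0`, `hβs` from `Pre.top`. `new_germ`: the limit `B` of `P` at
`g' = ng g W a 1 u e` exists (`GOk.lim`) and is in `supported W`, nonzero. `inj_sub`: `Inj B (Ps B)`.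
`y - g'.c 0 = xx - u → 0`; `κ' - g'.c 1 = (a θ - a κ') + μ slp x - u → 0`: `leafdiff` with `slp |x|` bounded,
`μ → 1`, and `slp A j |x| → 1`: for `|x| ≤ 1` it is `1` (`Profile.one`), for `1 ≤ |x| ≤ M` by
`Window A 1`. So `goodU_unit` applies. `hup`: `Ctc.up` with `ε = 1` on `nr s ≤ δ b(0) → ∞`, `slp ≤ 2`:
`K = 2`. `hlow`: `Ctc.low` with `ε = 1/8`. `hz`, `hk`: `ynr`. Then `no_good` gives a contradiction. -/

set_option autoImplicit false

open MvPolynomial Filter Pool.Agent.H60 Pool.Agent.H57.BJ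
open scoped Topology

noncomputable section

namespace Pool.Agent.H51.BJ

variable {n : ℕ} {P : MvPolynomial (Fin n) ℂ} {h : ℕ → V n → ℂ} {W : Finset (Fin n)} {g : Germ n}
    {z κ : ℕ → V n}
    {Q : Fin n → MvPolynomial (Fin n) ℂ} {φ : Fin n → ℂ} {a : ℕ → II → V n → V n}
    {D : ℕ → II → V n → V n →L[ℂ] V n} {A : ℕ → II → ℝ → ℝ} {y κ' θ : ℕ → V n} {μ δ : ℕ → ℝ}

private theorem sup_le_nr (s : V n) : ‖s‖ ≤ nr s := by
  rw [pi_norm_le_iff_of_nonneg (nr_nonneg s)]
  intro i
  unfold nr
  apply Real.le_sqrt_of_sq_le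
  unfold Nn
  exact Finset.single_le_sum (f := fun j => ‖s j‖ ^ 2) (fun j _ => by positivity)
    (Finset.mem_univ i)

private theorem exists_lim {x : ℕ → V n} {M : ℝ} (hx : ∀ᶠ j in UF, ‖x j‖ ≤ M) :
    ∃ u : V n, Tendsto x UF (𝓝 u) := by
  have h1 : IsCompact (Metric.closedBall (0 : V n) M) := isCompact_closedBall 0 M
  obtain ⟨u, -, hu⟩ := h1.ultrafilter_le_nhds (Ultrafilter.map x (Filter.hyperfilter ℕ)) (by
    rw [le_principal_iff]
    show ∀ᶠ j in (Filter.hyperfilter ℕ : Filter ℕ), x j ∈ Metric.closedBall (0 : V n) M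
    exact hx.mono fun j hj => by rwa [mem_closedBall_zero_iff])
  exact ⟨u, hu⟩

private theorem slp_tendsto (hA : Profile A) (h1 : Window A (fun _ => 1)) {x : ℕ → V n} {M : ℝ}
    (hx : ∀ᶠ j in UF, nr (x j) ≤ M) : Tendsto (fun j => slp A j (nr (x j))) UF (𝓝 1) := by
  rw [Metric.tendsto_nhds]
  intro ε hε
  have h2 := ev_zero (h1 (max M 1) (le_max_right _ _) (ε / 2) (half_pos hε)) 1
  rw [ev_LX] at h2
  filter_upwards [h2, hx] with j hj hxj
  have h3 := hj 0 (nr (x j))
  simp only [div_one, mul_one] at h3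
  rw [Real.dist_eq]
  have h0 : 0 ≤ nr (x j) := nr_nonneg _
  unfold slp
  by_cases e0 : nr (x j) = 0
  · rw [if_pos e0, sub_self, abs_zero]; exact hε
  · rw [if_neg e0]
    have hpos : 0 < nr (x j) := lt_of_le_of_ne h0 (Ne.symm e0)
    rcases le_total (nr (x j)) 1 with h4 | h4
    · rw [hA.one j 1 _ h0 h4, div_self e0, sub_self, abs_zero]; exact hε
    · refine lt_of_le_of_lt (h3 ?_ ?_) (half_lt_self hε)
      · refine le_trans ?_ h4
        rw [div_le_iff₀ (lt_of_lt_of_le one_pos (le_max_right _ _)), one_mul]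
        exact le_max_right _ _
      · exact hxj.trans (le_max_left _ _)

theorem case_bounded (hind : ∀ k, k < n → ∀ B : MvPolynomial (Fin k) ℂ, B ≠ 0 → GoodEst B)
    (hd : Dat P h) (hpre : Pre (FF P h) W g z κ Q φ) (hW : W ≠ Finset.univ)
    (hL : Leaf g W Q a D) (hA : Profile A) (h1 : Window A (fun _ => 1))
    (hc : Ctc (FF P h) W g z κ a A y κ' θ μ δ) {M : ℝ}
    (hx : ∀ᶠ j in UF, nr (xx W a y j) ≤ M) : False := by
  obtain ⟨u, hu⟩ := exists_lim (hx.mono fun j hj => (sup_le_nr _).trans hj)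
  have htu : tp W u = 0 := by
    funext i
    unfold tp
    by_cases hi : i ∈ W
    · simp [hi]
    · simp only [hi, if_false, Pi.zero_apply]
      have e1 : Tendsto (fun j => xx W a y j i) UF (𝓝 (u i)) :=
        ((continuous_apply i).tendsto u).comp hu
      have e2 : ∀ j, xx W a y j i = 0 := by
        intro j
        have e3 := congrFun (hL.tpz j 0 (y j)) i
        unfold tp at e3
        simp only [hi, if_false, Pi.zero_apply] at e3
        unfold xx wp
        simp [hi, e3]
      simp only [e2] at e1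
      exact (tendsto_nhds_unique e1 tendsto_const_nhds)
  obtain ⟨e, he1, he2, he3, he4, he5, he6⟩ := exists_e hpre hL hc
  have hslp := slp_tendsto hA h1 hx
  obtain ⟨hok, -, hsup, -⟩ := new_germ (β := fun _ _ => 1) (u := u) hpre hL
    (fun j => continuous_const) (fun j l => one_pos)
    (by
      have := tendsto_inv_atTop_zero.comp hpre.top
      refine this.congr fun q => ?_
      simp [Function.comp])
    (fun f f' hf hf' p => by
      have := hpre.tame f f' hf hf' 0
      simpa using this) htu he1 he2 he3 he4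
  obtain ⟨B, hB⟩ := hok.lim P hd.ne
  have hB0 : B ≠ 0 := hB.ne_zero hok.pos hd.ne
  have hI := inj_sub hind hW hB0 (hsup P B hd.ne hB)
  have hG : GoodU P y (cjv κ') := by
    refine goodU_unit (g := ng g W a (fun _ _ => 1) u e) (fun j l => rfl) ?_ ?_ hd.ne hB hI
    · have e1 : Tendsto (fun j => xx W a y j - u) UF (𝓝 0) := by
        have := hu.sub_const u
        rwa [sub_self] at this
      refine e1.congr' ?_
      filter_upwards [he5] with j hj
      rw [← hj]
      simp only [ng, Complex.ofReal_one, one_smul]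
      abel
    · have e1 : Tendsto (fun j => a j 1 (θ j) - a j 1 (κ' j)) UF (𝓝 0) := by
        rw [tendsto_zero_iff_norm_tendsto_zero, Metric.tendsto_nhds]
        intro ε hε
        filter_upwards [leafdiff hpre hL hc (ε := ε / (4 * (|M| + 1))) (by positivity), hx,
          hslp.eventually (gt_mem_nhds (show (1 : ℝ) < 2 by norm_num)),
          hslp.eventually (lt_mem_nhds (show (0 : ℝ) < 1 by norm_num))] with j j1 j2 j3 j4
        rw [Real.dist_eq, sub_zero, abs_of_nonneg (norm_nonneg _)]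
        refine lt_of_le_of_lt j1 ?_
        have k1 : nr (xx W a y j) ≤ |M| + 1 := j2.trans ((le_abs_self M).trans (by linarith))
        have k2 : slp A j (nr (xx W a y j)) * nr (xx W a y j) ≤ 2 * (|M| + 1) :=
          mul_le_mul j3.le k1 (nr_nonneg _) (by norm_num)
        have hM : 0 < |M| + 1 := by positivity
        calc ε / (4 * (|M| + 1)) * (slp A j (nr (xx W a y j)) * nr (xx W a y j))
            ≤ ε / (4 * (|M| + 1)) * (2 * (|M| + 1)) :=
              mul_le_mul_of_nonneg_left k2 (by positivity)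
          _ = ε / 2 := by field_simp; norm_num
          _ < ε := half_lt_self hε
      have e2 : Tendsto (fun j => ((μ j * slp A j (nr (xx W a y j)) : ℝ) : ℂ) • xx W a y j) UF
          (𝓝 u) := by
        have k1 : Tendsto (fun j => ((μ j * slp A j (nr (xx W a y j)) : ℝ) : ℂ)) UF
            (𝓝 ((1 * 1 : ℝ) : ℂ)) :=
          (Complex.continuous_ofReal.tendsto _).comp (hc.mu.mul hslp)
        have k2 := k1.smul hu
        simpa using k2
      have e3 := (e1.add e2).sub_const u
      rw [zero_add, sub_self] at e3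
      refine e3.congr' ?_
      filter_upwards [he6] with j hj
      rw [← hj]
      simp only [ng, Complex.ofReal_one, one_smul]
      abel
  obtain ⟨y1, y2, -, -⟩ := ynr hpre hc
  refine no_good (K := 2) hd hG (fun r => ?_) ?_ y1 y2
  · filter_upwards [hc.up 1 one_pos, hc.dinf.eventually_ge_atTop r,
      hslp.eventually (gt_mem_nhds (show (1 : ℝ) < 2 by norm_num))] with j j1 j2 j3 s hs
    refine (j1 s (hs.trans j2)).trans ?_
    have k1 : (1 + 1) / 2 * slp A j (nr (xx W a y j)) * Nn s ≤ 2 * Nn s := by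
      refine mul_le_mul_of_nonneg_right ?_ (Nn_nonneg' s)
      linarith
    have k2 : Real.exp ((hp s (κ' j)).re + (1 + 1) / 2 * slp A j (nr (xx W a y j)) * Nn s)
        ≤ Real.exp ((hp s (κ' j)).re + 2 * Nn s) := Real.exp_le_exp.mpr (by linarith)
    have k3 : 0 ≤ ‖FF P h j (y j)‖ := norm_nonneg _
    have k4 := mul_le_mul_of_nonneg_left k2 k3
    have k5 : 0 ≤ ‖FF P h j (y j)‖ * Real.exp ((hp s (κ' j)).re + 2 * Nn s) := by positivity
    linarith
  · filter_upwards [hc.low (1 / 8) (by norm_num)] with j j1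
    rw [show (1 / 4 - 1 / 8 : ℝ) = 1 / 8 by norm_num] at j1
    exact j1

end Pool.Agent.H51.BJ
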