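import Pool.Agent.H51.BJ.Defs

/-! # [H51 BJ TAM] Calculus of tame families

`Tame h`: `h` is eventually positive and either tends to infinity with `h ≤ (1+ε) h(·,0)`, or the
inverse does, or `h` tends to a positive constant (all uniformly in the parameter, this is what the
filter `LX II = UF ×ˢ ⊤` means). For `rpow`: three cases `p > 0`, `p = 0`, `p < 0`. For `congr`:
if `h'/h → c > 0` then `h' = c h (1 + o(1))` uniformly, in particular also at the parameter `0`
(`(∀ᶠ q in LX II, A q) → ∀ᶠ q in LX II, A (q.1, 0)`). `tri` is the trichotomy. -/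

set_option autoImplicit false

open MvPolynomial Filter Pool.Agent.H60 Pool.Agent.H57.BJ
open scoped Topology

noncomputable section

namespace Pool.Agent.H51.BJ

theorem ev_LX {X : Type*} {A : ℕ × X → Prop} :
    (∀ᶠ q in LX X, A q) ↔ ∀ᶠ j in UF, ∀ x, A (j, x) := by
  constructor
  · intro h
    have h1 := h.curry
    filter_upwards [h1] with j hj
    exact Filter.eventually_top.mp hj
  · intro h
    rw [Filter.eventually_prod_iff]
    exact ⟨fun j => ∀ x, A (j, x), h, fun _ => True, Filter.eventually_top.mpr (fun _ => trivial),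
      fun {j} hj {x} _ => hj x⟩

theorem ev_zero {A : ℕ × II → Prop} (h : ∀ᶠ q in LX II, A q) (l : II) :
    ∀ᶠ q in LX II, A (q.1, l) := by
  rw [ev_LX] at h
  rw [ev_LX]
  filter_upwards [h] with j hj
  exact fun _ => hj l

theorem tendsto_at {α : Type*} {f : ℕ × II → α} {M : Filter α} (h : Tendsto f (LX II) M) (l : II) :
    Tendsto (fun j => f (j, l)) UF M := by
  intro s hs
  have h1 : ∀ᶠ q in LX II, f q ∈ s := h hs
  rw [ev_LX] at h1
  exact h1.mono fun j hj => hj l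

variable {h h' : ℕ × II → ℝ}

theorem Tame.const {c : ℝ} (hc : 0 < c) : Tame (fun _ => c) :=
  ⟨Filter.Eventually.of_forall fun _ => hc, Or.inr (Or.inr ⟨c, hc, tendsto_const_nhds⟩)⟩

theorem Tame.inv (hh : Tame h) : Tame (fun q => (h q)⁻¹) := by
  obtain ⟨h0, h1⟩ := hh
  refine ⟨?_, ?_⟩
  · filter_upwards [h0] with q hq
    exact inv_pos.mpr hq
  · rcases h1 with h1 | h1 | ⟨c, hc, h1⟩
    · refine Or.inr (Or.inl ?_)
      simpa only [inv_inv] using h1
    · exact Or.inl h1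
    · exact Or.inr (Or.inr ⟨c⁻¹, inv_pos.mpr hc, h1.inv₀ hc.ne'⟩)

private theorem TInf.ratio (h0 : ∀ᶠ q in LX II, 0 < h q) (hh : TInf h) {c : ℝ} (hc : 0 < c)
    (hl : Tendsto (fun q => h' q / h q) (LX II) (𝓝 c)) : TInf h' := by
  obtain ⟨h1, h2⟩ := hh
  constructor
  · have h3 : Tendsto (fun q => h' q / h q * h q) (LX II) atTop := hl.pos_mul_atTop hc h1
    refine h3.congr' ?_
    filter_upwards [h0] with q hq
    exact div_mul_cancel₀ _ hq.ne'
  · intro ε hε
    obtain ⟨θ, hθ0, hθ⟩ : ∃ θ : ℝ, 0 < θ ∧ (1 + θ) ^ 3 ≤ 1 + ε := by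
      refine ⟨min 1 (ε / 7), lt_min one_pos (by positivity), ?_⟩
      have a1 : min 1 (ε / 7) ≤ 1 := min_le_left _ _
      have a2 : min 1 (ε / 7) ≤ ε / 7 := min_le_right _ _
      have a3 : 0 < min 1 (ε / 7) := lt_min one_pos (by positivity)
      obtain ⟨t, ht⟩ : ∃ t, t = min 1 (ε / 7) := ⟨_, rfl⟩
      rw [← ht] at a1 a2 a3 ⊢
      nlinarith [mul_pos a3 a3, mul_pos (mul_pos a3 a3) a3, mul_le_mul_of_nonneg_left a1 a3.le,
        mul_le_mul_of_nonneg_left a1 (mul_pos a3 a3).le]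
    have u1 : ∀ᶠ q in LX II, h' q / h q < c * (1 + θ) := hl.eventually_lt_const (by nlinarith)
    have u2 : ∀ᶠ q in LX II, c / (1 + θ) < h' q / h q := hl.eventually_const_lt (by
      rw [div_lt_iff₀ (by linarith)]
      nlinarith)
    filter_upwards [u1, ev_zero u2 0, h2 θ hθ0, h0, ev_zero h0 0] with q q1 q2 q3 q4 q5
    rw [div_lt_iff₀ q4] at q1
    rw [div_lt_div_iff₀ (by linarith) q5] at q2
    have v1 : h' q ≤ c * (1 + θ) * ((1 + θ) * h (q.1, 0)) :=
      q1.le.trans (mul_le_mul_of_nonneg_left q3 (by positivity))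
    have v2 : c * (1 + θ) * ((1 + θ) * h (q.1, 0)) ≤ (1 + θ) ^ 3 * h' (q.1, 0) := by
      have v3 := mul_le_mul_of_nonneg_left q2.le (by positivity : 0 ≤ (1 + θ) ^ 2)
      calc c * (1 + θ) * ((1 + θ) * h (q.1, 0)) = (1 + θ) ^ 2 * (c * h (q.1, 0)) := by ring
        _ ≤ (1 + θ) ^ 2 * (h' (q.1, 0) * (1 + θ)) := v3
        _ = (1 + θ) ^ 3 * h' (q.1, 0) := by ring
    have v4 : 0 < h' (q.1, 0) := by
      by_contra hneg
      push Not at hneg
      have : h' (q.1, 0) * (1 + θ) ≤ 0 := mul_nonpos_of_nonpos_of_nonneg hneg (by linarith)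
      have : 0 < c * h (q.1, 0) := mul_pos hc q5
      linarith
    exact v1.trans (v2.trans (mul_le_mul_of_nonneg_right hθ v4.le))

theorem Tame.congr (hh : Tame h) {c : ℝ} (hc : 0 < c)
    (hl : Tendsto (fun q => h' q / h q) (LX II) (𝓝 c)) : Tame h' := by
  obtain ⟨h0, h1⟩ := hh
  have hpos : ∀ᶠ q in LX II, 0 < h' q := by
    have u2 : ∀ᶠ q in LX II, 0 < h' q / h q := hl.eventually_const_lt hc
    filter_upwards [h0, u2] with q q1 q2
    exact (div_pos_iff_of_pos_right q1).mp q2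
  refine ⟨hpos, ?_⟩
  rcases h1 with h1 | h1 | ⟨d, hd, h1⟩
  · exact Or.inl (TInf.ratio h0 h1 hc hl)
  · refine Or.inr (Or.inl ?_)
    refine TInf.ratio (c := c⁻¹) ?_ h1 (inv_pos.mpr hc) ?_
    · filter_upwards [h0] with q hq
      exact inv_pos.mpr hq
    · refine (hl.inv₀ hc.ne').congr fun q => ?_
      rw [inv_div, div_eq_mul_inv, div_eq_mul_inv, inv_inv, mul_comm]
  · refine Or.inr (Or.inr ⟨c * d, mul_pos hc hd, ?_⟩)
    refine (hl.mul h1).congr' ?_
    filter_upwards [h0] with q hq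
    exact div_mul_cancel₀ _ hq.ne'

private theorem tame_eq (hh : Tame h) (he : ∀ᶠ q in LX II, h' q = h q) : Tame h' := by
  refine hh.congr one_pos ?_
  refine tendsto_const_nhds.congr' ?_
  filter_upwards [he, hh.1] with q q1 q2
  rw [q1, div_self q2.ne']

private theorem rpow_pos_case (hh : Tame h) {p : ℝ} (hp : 0 < p) : Tame (fun q => h q ^ p) := by
  have key : ∀ u : ℕ × II → ℝ, (∀ᶠ q in LX II, 0 < u q) → TInf u → TInf (fun q => u q ^ p) := by
    intro u hu hT
    obtain ⟨h1, h2⟩ := hT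
    constructor
    · exact (tendsto_rpow_atTop hp).comp h1
    · intro ε hε
      have hδ : (0 : ℝ) < (1 + ε) ^ (p⁻¹) - 1 := by
        have : (1 : ℝ) < (1 + ε) ^ (p⁻¹) := Real.one_lt_rpow (by linarith) (inv_pos.mpr hp)
        linarith
      filter_upwards [h2 _ hδ, hu, ev_zero hu 0] with q q1 q2 q3
      rw [add_sub_cancel] at q1
      calc u q ^ p ≤ ((1 + ε) ^ (p⁻¹) * u (q.1, 0)) ^ p := Real.rpow_le_rpow q2.le q1 hp.le
        _ = (1 + ε) * u (q.1, 0) ^ p := by
          rw [Real.mul_rpow (by positivity) q3.le, ← Real.rpow_mul (by linarith),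
            inv_mul_cancel₀ hp.ne', Real.rpow_one]
  obtain ⟨h0, h1⟩ := hh
  refine ⟨?_, ?_⟩
  · filter_upwards [h0] with q hq
    exact Real.rpow_pos_of_pos hq p
  · rcases h1 with h1 | h1 | ⟨c, hc, h1⟩
    · exact Or.inl (key h h0 h1)
    · have hi : ∀ᶠ q in LX II, 0 < (h q)⁻¹ := by
        filter_upwards [h0] with q hq
        exact inv_pos.mpr hq
      have h2 := key (fun q => (h q)⁻¹) hi h1
      refine Or.inr (Or.inl ?_)
      refine TInf.ratio (h := fun q => ((h q)⁻¹) ^ p) (c := 1) ?_ h2 one_pos ?_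
      · filter_upwards [hi] with q hq
        exact Real.rpow_pos_of_pos hq p
      · refine tendsto_const_nhds.congr' ?_
        filter_upwards [h0] with q hq
        rw [Real.inv_rpow hq.le, div_self (inv_pos.mpr (Real.rpow_pos_of_pos hq p)).ne']
    · exact Or.inr (Or.inr ⟨c ^ p, Real.rpow_pos_of_pos hc p, h1.rpow_const (Or.inl hc.ne')⟩)

theorem Tame.rpow (hh : Tame h) (p : ℝ) : Tame (fun q => h q ^ p) := by
  rcases lt_trichotomy p 0 with hp | hp | hp
  · refine tame_eq (rpow_pos_case hh.inv (neg_pos.mpr hp)) ?_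
    filter_upwards [hh.1] with q hq
    rw [Real.inv_rpow hq.le, Real.rpow_neg hq.le, inv_inv]
  · subst hp
    refine tame_eq (Tame.const one_pos) (Filter.Eventually.of_forall fun q => ?_)
    exact Real.rpow_zero _
  · exact rpow_pos_case hh hp

theorem Tame.of_rpow {p : ℝ} (hp : p ≠ 0) (h0 : ∀ᶠ q in LX II, 0 < h q)
    (hh : Tame (fun q => h q ^ p)) : Tame h := by
  refine tame_eq (hh.rpow p⁻¹) ?_
  filter_upwards [h0] with q hq
  rw [← Real.rpow_mul hq.le, mul_inv_cancel₀ hp, Real.rpow_one]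

/-- trichotomy -/
theorem Tame.tri (hh : Tame h) :
    Tendsto h (LX II) (𝓝 0) ∨ (∃ c : ℝ, 0 < c ∧ Tendsto h (LX II) (𝓝 c)) ∨
      Tendsto h (LX II) atTop := by
  rcases hh.2 with h1 | h1 | h1
  · exact Or.inr (Or.inr h1.1)
  · refine Or.inl ((tendsto_inv_atTop_zero.comp h1.1).congr fun q => ?_)
    rw [Function.comp_apply, inv_inv]
  · exact Or.inr (Or.inl h1)

/-- a tame family tending to zero is almost minimal at the parameter `0` -/
theorem Tame.zero (hh : Tame h) (h0 : Tendsto h (LX II) (𝓝 0)) {ε : ℝ} (hε : 0 < ε) :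
    ∀ᶠ q in LX II, (1 - ε) * h (q.1, 0) ≤ h q := by
  haveI : (LX II).NeBot := by
    unfold LX UF
    infer_instance
  rcases hh.2 with h1 | h1 | ⟨c, hc, h1⟩
  · exact absurd h0 (not_tendsto_nhds_of_tendsto_atTop h1.1 0)
  · filter_upwards [h1.2 ε hε, hh.1, ev_zero hh.1 0] with q q1 q2 q3
    rw [← div_eq_mul_inv, inv_eq_one_div, div_le_div_iff₀ q2 q3, one_mul] at q1
    by_cases hε1 : ε ≤ 1
    · calc (1 - ε) * h (q.1, 0) ≤ (1 - ε) * ((1 + ε) * h q) :=
          mul_le_mul_of_nonneg_left q1 (by linarith)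
        _ = (1 - ε * ε) * h q := by ring
        _ ≤ 1 * h q := mul_le_mul_of_nonneg_right (by nlinarith) q2.le
        _ = h q := one_mul _
    · push Not at hε1
      exact (mul_nonpos_of_nonpos_of_nonneg (by linarith) q3.le).trans q2.le
  · exact absurd (tendsto_nhds_unique h0 h1) hc.ne

/-- a tame family not tending to zero is almost maximal at the parameter `0` -/
theorem Tame.not_zero (hh : Tame h) (h0 : ¬ Tendsto h (LX II) (𝓝 0)) {ε : ℝ} (hε : 0 < ε) :
    ∀ᶠ q in LX II, h q ≤ (1 + ε) * h (q.1, 0) := by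
  rcases hh.2 with h1 | h1 | ⟨c, hc, h1⟩
  · exact h1.2 ε hε
  · refine absurd ((tendsto_inv_atTop_zero.comp h1.1).congr fun q => ?_) h0
    rw [Function.comp_apply, inv_inv]
  · obtain ⟨θ, hθ0, hθ⟩ : ∃ θ : ℝ, 0 < θ ∧ (1 + θ) ^ 2 ≤ 1 + ε := by
      refine ⟨min 1 (ε / 3), lt_min one_pos (by positivity), ?_⟩
      have a1 : min 1 (ε / 3) ≤ 1 := min_le_left _ _
      have a2 : min 1 (ε / 3) ≤ ε / 3 := min_le_right _ _
      have a3 : 0 < min 1 (ε / 3) := lt_min one_pos (by positivity)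
      obtain ⟨t, ht⟩ : ∃ t, t = min 1 (ε / 3) := ⟨_, rfl⟩
      rw [← ht] at a1 a2 a3 ⊢
      nlinarith [mul_pos a3 a3, mul_le_mul_of_nonneg_left a1 a3.le]
    have u1 : ∀ᶠ q in LX II, h q < c * (1 + θ) := h1.eventually_lt_const (by nlinarith)
    have u2 : ∀ᶠ q in LX II, c / (1 + θ) < h q := h1.eventually_const_lt (by
      rw [div_lt_iff₀ (by linarith)]
      nlinarith)
    filter_upwards [u1, ev_zero u2 0, ev_zero hh.1 0] with q q1 q2 q3
    rw [div_lt_iff₀ (by linarith)] at q2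
    have v1 : c * (1 + θ) ≤ (1 + θ) ^ 2 * h (q.1, 0) := by
      have v3 := mul_le_mul_of_nonneg_left q2.le (by linarith : 0 ≤ 1 + θ)
      calc c * (1 + θ) = (1 + θ) * c := by ring
        _ ≤ (1 + θ) * (h (q.1, 0) * (1 + θ)) := v3
        _ = (1 + θ) ^ 2 * h (q.1, 0) := by ring
    exact q1.le.trans (v1.trans (mul_le_mul_of_nonneg_right hθ q3.le))

end Pool.Agent.H51.BJ
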