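import Pool.Agent.H51.BJ.CTD
import Pool.Agent.H51.BJ.TAM

/-! # [H51 BJ CAP] Auxiliary facts on the new points (used in both cases)

`exists_e`: `e j l = (1-l) tp (y - c(0))/b(0) + l tp (κ' - c(1))/b(1)` if both vectors have norm `≤ 1/4`,
and `0` otherwise. Both tend to `0` (`Ctc.yz`, `Con.z0`, `Ctc.kk`, `Con.k0`).
`yc`: with such `e`: the point `c(0) + b(0) e(0)` has the `t`-part of `y`, so by `Leaf.dep`
`lp W a j 0 (c(0) + b(0) e(0)) = tp y + a j 0 (y)`, so `y` minus it is `xx`. Similarly at `l = 1`: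
`κ'` minus the leaf point is `a j 1 θ - a j 1 κ' + μ slp x`.
`leafdiff`: `‖a j 1 θ - a j 1 κ'‖ ≤ ε slp |x|`: `Leaf.der` at `y := κ'`, `y' := θ` with both replaced by their
`t`-parts (`Leaf.dep`, `tpD`): `≤ ε' ‖tp (θ-κ')‖ + ε'/b ‖tp (θ-κ')‖²` and `‖tp (θ - κ')‖ ≤ b(1)`.
`ynr`: `nr y → ∞` and `nr y ≥ nr z/2`, from `b(0) ≤ 2 nr z`; same for `κ'`. -/

set_option autoImplicit false

open MvPolynomial Filter Pool.Agent.H60 Pool.Agent.H57.BJ
open scoped Topology

noncomputable section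

namespace Pool.Agent.H51.BJ

variable {n : ℕ} {F : ℕ → V n → ℂ} {W : Finset (Fin n)} {g : Germ n} {z κ : ℕ → V n}
    {Q : Fin n → MvPolynomial (Fin n) ℂ} {φ : Fin n → ℂ} {a : ℕ → II → V n → V n}
    {D : ℕ → II → V n → V n →L[ℂ] V n} {A : ℕ → II → ℝ → ℝ} {y κ' θ : ℕ → V n} {μ δ : ℕ → ℝ}

private theorem tp_add' (W : Finset (Fin n)) (x y : V n) : tp W (x + y) = tp W x + tp W y := by
  funext i
  unfold tp
  by_cases hi : i ∈ W <;> simp [hi]

private theorem tp_sub' (W : Finset (Fin n)) (x y : V n) : tp W (x - y) = tp W x - tp W y := by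
  funext i
  unfold tp
  by_cases hi : i ∈ W <;> simp [hi]

private theorem tp_smul' (W : Finset (Fin n)) (c : ℂ) (x : V n) : tp W (c • x) = c • tp W x := by
  funext i
  unfold tp
  by_cases hi : i ∈ W <;> simp [hi]

private theorem tp_tp' (W : Finset (Fin n)) (x : V n) : tp W (tp W x) = tp W x := by
  funext i
  unfold tp
  by_cases hi : i ∈ W <;> simp [hi]

private theorem wp_smul' (W : Finset (Fin n)) (c : ℝ) (x : V n) : wp W (c • x) = c • wp W x := by
  funext i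
  unfold wp
  by_cases hi : i ∈ W <;> simp [hi]

private theorem wp_smulc' (W : Finset (Fin n)) (c : ℂ) (x : V n) : wp W (c • x) = c • wp W x := by
  funext i
  unfold wp
  by_cases hi : i ∈ W <;> simp [hi]

private theorem wp_add' (W : Finset (Fin n)) (x y : V n) : wp W (x + y) = wp W x + wp W y := by
  funext i
  unfold wp
  by_cases hi : i ∈ W <;> simp [hi]

private theorem wp_tp' (W : Finset (Fin n)) (x : V n) : wp W (tp W x) = 0 := by
  funext i
  unfold wp tp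
  by_cases hi : i ∈ W <;> simp [hi]

private theorem wp_zero' (W : Finset (Fin n)) : wp W (0 : V n) = 0 := by
  funext i
  unfold wp
  by_cases hi : i ∈ W <;> simp [hi]

private theorem tp_add_wp' (W : Finset (Fin n)) (x : V n) : tp W x + wp W x = x := by
  funext i
  unfold wp tp
  by_cases hi : i ∈ W <;> simp [hi]

private theorem norm_tp_le' (W : Finset (Fin n)) (x : V n) : ‖tp W x‖ ≤ ‖x‖ := by
  rw [pi_norm_le_iff_of_nonneg (norm_nonneg _)]
  intro i
  unfold tp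
  by_cases hi : i ∈ W
  · simp [hi]
  · simp only [hi, if_false]
    exact norm_le_pi_norm x i

private theorem nr_eq' (z : V n) : nr z = ‖(WithLp.toLp 2 z : EuclideanSpace ℂ (Fin n))‖ := by
  rw [EuclideanSpace.norm_eq]
  rfl

private theorem nr_add' (x y : V n) : nr (x + y) ≤ nr x + nr y := by
  rw [nr_eq', nr_eq', nr_eq', WithLp.toLp_add]
  exact norm_add_le _ _

private theorem nr_norm' (z : V n) : nr z ≤ (n + 1) * ‖z‖ := by
  unfold nr
  rw [Real.sqrt_le_left (by positivity)]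
  unfold Nn
  have h1 : ∀ i, ‖z i‖ ^ 2 ≤ ‖z‖ ^ 2 := fun i => by
    have := norm_le_pi_norm z i
    gcongr
  calc ∑ i, ‖z i‖ ^ 2 ≤ ∑ _i : Fin n, ‖z‖ ^ 2 := Finset.sum_le_sum fun i _ => h1 i
    _ = n * ‖z‖ ^ 2 := by simp
    _ ≤ ((n + 1) * ‖z‖) ^ 2 := by
      rw [mul_pow]
      apply mul_le_mul_of_nonneg_right _ (by positivity)
      nlinarith [Nat.cast_nonneg (α := ℝ) n]

/-- small displacement divided by the radius -/
private theorem tri_small {u v w : ℕ → V n} {b : ℕ → ℝ} (hb : ∀ j, 0 < b j)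
    (h1 : Tendsto (fun j => ‖u j - v j‖ / b j) UF (𝓝 0))
    (h2 : Tendsto (fun j => ‖v j - w j‖ / b j) UF (𝓝 0)) :
    Tendsto (fun j => ‖u j - w j‖ / b j) UF (𝓝 0) := by
  have h3 := h1.add h2
  rw [add_zero] at h3
  refine squeeze_zero (fun j => div_nonneg (norm_nonneg _) (hb j).le) (fun j => ?_) h3
  rw [← add_div]
  exact div_le_div_of_nonneg_right (norm_sub_le_norm_sub_add_norm_sub _ _ _) (hb j).le

private theorem tp_small (W : Finset (Fin n)) {u v : ℕ → V n} {b : ℕ → ℝ} (hb : ∀ j, 0 < b j)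
    (h1 : Tendsto (fun j => ‖u j - v j‖ / b j) UF (𝓝 0)) :
    Tendsto (fun j => ‖((b j : ℂ)⁻¹) • tp W (u j - v j)‖) UF (𝓝 0) := by
  refine squeeze_zero (fun j => norm_nonneg _) (fun j => ?_) h1
  rw [norm_smul, norm_inv, Complex.norm_real, Real.norm_of_nonneg (hb j).le, div_eq_inv_mul]
  exact mul_le_mul_of_nonneg_left (norm_tp_le' W _) (inv_nonneg.mpr (hb j).le)

private theorem nr_aux {z y : ℕ → V n} {b : ℕ → ℝ} (hb : ∀ j, 0 < b j)
    (h1 : Tendsto (fun j => ‖y j - z j‖ / b j) UF (𝓝 0))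
    (h2 : Tendsto (fun j => nr (z j)) UF atTop) (h3 : ∀ᶠ j in UF, b j ≤ 2 * nr (z j)) :
    Tendsto (fun j => nr (y j)) UF atTop ∧ ∀ᶠ j in UF, b j ≤ 4 * nr (y j) := by
  have hK : (0 : ℝ) < n + 1 := by positivity
  have h4 : ∀ᶠ j in UF, ‖y j - z j‖ / b j < 1 / (4 * (n + 1)) :=
    h1.eventually_lt_const (by positivity)
  have h5 : ∀ᶠ j in UF, nr (z j) / 2 ≤ nr (y j) := by
    filter_upwards [h3, h4] with j h6 h7
    rw [div_lt_iff₀ (hb j)] at h7
    have h8 : nr (z j) ≤ nr (y j) + nr (z j - y j) := by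
      have := nr_add' (y j) (z j - y j)
      rwa [add_sub_cancel] at this
    have h9 := nr_norm' (z j - y j)
    rw [norm_sub_rev] at h9
    have h10 : ((n : ℝ) + 1) * ‖y j - z j‖ ≤ (n + 1) * (1 / (4 * (n + 1)) * b j) :=
      mul_le_mul_of_nonneg_left h7.le hK.le
    have h11 : ((n : ℝ) + 1) * (1 / (4 * (n + 1)) * b j) = b j / 4 := by
      field_simp
    linarith
  refine ⟨?_, ?_⟩
  · refine tendsto_atTop_mono' UF h5 ?_
    exact h2.atTop_div_const two_pos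
  · filter_upwards [h3, h5] with j h6 h7
    linarith

private theorem tp_smul_neg (W : Finset (Fin n)) (x : V n) : tp W (-x) = -tp W x := by
  funext i
  unfold tp
  by_cases hi : i ∈ W <;> simp [hi]

theorem exists_e (h : Pre F W g z κ Q φ) (hL : Leaf g W Q a D)
    (hc : Ctc F W g z κ a A y κ' θ μ δ) :
    ∃ e : ℕ → II → V n, (∀ j, Continuous (e j)) ∧ (∀ j l, wp W (e j l) = 0) ∧
      (∀ j l, ‖e j l‖ ≤ 1 / 4) ∧ Tendsto (fun q : ℕ × II => e q.1 q.2) (LX II) (𝓝 0) ∧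
      (∀ᶠ j in UF, y j - lp W a j 0 (g.c j 0 + (g.b j 0 : ℂ) • e j 0) = xx W a y j) ∧
      ∀ᶠ j in UF, κ' j - lp W a j 1 (g.c j 1 + (g.b j 1 : ℂ) • e j 1) =
        a j 1 (θ j) - a j 1 (κ' j) +
          ((μ j * slp A j (nr (xx W a y j)) : ℝ) : ℂ) • xx W a y j := by
  classical
  have hb0 : ∀ j, 0 < g.b j 0 := fun j => h.pos j 0
  have hb1 : ∀ j, 0 < g.b j 1 := fun j => h.pos j 1
  obtain ⟨Y, hY⟩ : ∃ Y : ℕ → V n, Y = fun j => ((g.b j 0 : ℂ)⁻¹) • tp W (y j - g.c j 0) :=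
    ⟨_, rfl⟩
  obtain ⟨K, hK⟩ : ∃ K : ℕ → V n, K = fun j => ((g.b j 1 : ℂ)⁻¹) • tp W (κ' j - g.c j 1) :=
    ⟨_, rfl⟩
  have hY0 : Tendsto (fun j => ‖Y j‖) UF (𝓝 0) := by
    rw [hY]
    exact tp_small W hb0 (tri_small hb0 hc.yz h.con.z0)
  have hK0 : Tendsto (fun j => ‖K j‖) UF (𝓝 0) := by
    rw [hK]
    exact tp_small W hb1 (tri_small hb1 hc.kk h.con.k0)
  have hYw : ∀ j, wp W (Y j) = 0 := by
    intro j
    rw [hY]
    simp only
    rw [wp_smulc', wp_tp', smul_zero]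
  have hKw : ∀ j, wp W (K j) = 0 := by
    intro j
    rw [hK]
    simp only
    rw [wp_smulc', wp_tp', smul_zero]
  obtain ⟨e, he⟩ : ∃ e : ℕ → II → V n, e = fun (j : ℕ) (l : II) => if ‖Y j‖ ≤ 1 / 4 ∧ ‖K j‖ ≤ 1 / 4 then
    (1 - (l : ℝ)) • Y j + (l : ℝ) • K j else 0 := ⟨_, rfl⟩
  have hen : ∀ j l, ‖e j l‖ ≤ ‖Y j‖ + ‖K j‖ := by
    intro j l
    rw [he]
    simp only
    split_ifs with hcond
    · have l0 := l.2.1
      have l1 := l.2.2
      refine (norm_add_le _ _).trans (add_le_add ?_ ?_)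
      · rw [norm_smul, Real.norm_of_nonneg (by linarith)]
        exact mul_le_of_le_one_left (norm_nonneg _) (by linarith)
      · rw [norm_smul, Real.norm_of_nonneg l0]
        exact mul_le_of_le_one_left (norm_nonneg _) l1
    · rw [norm_zero]
      positivity
  have hcond : ∀ᶠ j in UF, ‖Y j‖ ≤ 1 / 4 ∧ ‖K j‖ ≤ 1 / 4 :=
    (hY0.eventually_le_const (by norm_num)).and (hK0.eventually_le_const (by norm_num))
  refine ⟨e, ?_, ?_, ?_, ?_, ?_, ?_⟩
  · intro j
    rw [he]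
    by_cases hj : ‖Y j‖ ≤ 1 / 4 ∧ ‖K j‖ ≤ 1 / 4
    · simp only [if_pos hj]
      exact ((continuous_const.sub continuous_subtype_val).smul continuous_const).add
        (continuous_subtype_val.smul continuous_const)
    · simp only [if_neg hj]
      exact continuous_const
  · intro j l
    rw [he]
    simp only
    split_ifs with hj
    · rw [wp_add', wp_smul', wp_smul', hYw, hKw, smul_zero, smul_zero, add_zero]
    · exact wp_zero' W
  · intro j l
    rw [he]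
    simp only
    split_ifs with hj
    · have l0 := l.2.1
      have l1 := l.2.2
      refine (norm_add_le _ _).trans ?_
      rw [norm_smul, norm_smul, Real.norm_of_nonneg l0,
        Real.norm_of_nonneg (by linarith : (0 : ℝ) ≤ 1 - (l : ℝ))]
      have e1 := mul_le_mul_of_nonneg_left hj.1 (by linarith : (0 : ℝ) ≤ 1 - (l : ℝ))
      have e2 := mul_le_mul_of_nonneg_left hj.2 l0
      linarith
    · rw [norm_zero]
      norm_num
  · rw [tendsto_zero_iff_norm_tendsto_zero]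
    have h1 : Tendsto (fun q : ℕ × II => ‖Y q.1‖ + ‖K q.1‖) (LX II) (𝓝 0) := by
      have h2 := (hY0.add hK0).comp (tendsto_fst (f := UF) (g := (⊤ : Filter II)))
      rw [add_zero] at h2
      exact h2
    exact squeeze_zero (fun q => norm_nonneg _) (fun q => hen q.1 q.2) h1
  · filter_upwards [hcond] with j hj
    have e0 : e j 0 = Y j := by
      rw [he]
      simp only [if_pos hj]
      simp
    have e1 : g.c j 0 + (g.b j 0 : ℂ) • e j 0 = g.c j 0 + tp W (y j - g.c j 0) := by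
      rw [e0, hY]
      simp only
      rw [smul_smul, mul_inv_cancel₀ (Complex.ofReal_ne_zero.mpr (hb0 j).ne'), one_smul]
    have e2 : tp W (g.c j 0 + tp W (y j - g.c j 0)) = tp W (y j) := by
      rw [tp_add', tp_tp', tp_sub', add_sub_cancel]
    rw [e1]
    unfold lp xx
    rw [e2, hL.dep j 0 _ (y j) e2]
    nth_rewrite 1 [← tp_add_wp' W (y j)]
    abel
  · filter_upwards [hcond, hc.kw] with j hj hkw
    have e0 : e j 1 = K j := by
      rw [he]
      simp only [if_pos hj]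
      simp
    have e1 : g.c j 1 + (g.b j 1 : ℂ) • e j 1 = g.c j 1 + tp W (κ' j - g.c j 1) := by
      rw [e0, hK]
      simp only
      rw [smul_smul, mul_inv_cancel₀ (Complex.ofReal_ne_zero.mpr (hb1 j).ne'), one_smul]
    have e2 : tp W (g.c j 1 + tp W (κ' j - g.c j 1)) = tp W (κ' j) := by
      rw [tp_add', tp_tp', tp_sub', add_sub_cancel]
    rw [e1]
    unfold lp
    rw [e2, hL.dep j 1 _ (κ' j) e2]
    nth_rewrite 1 [← tp_add_wp' W (κ' j)]
    rw [hkw]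
    abel

theorem leafdiff (h : Pre F W g z κ Q φ) (hL : Leaf g W Q a D)
    (hc : Ctc F W g z κ a A y κ' θ μ δ) {ε : ℝ} (hε : 0 < ε) :
    ∀ᶠ j in UF, ‖a j 1 (θ j) - a j 1 (κ' j)‖ ≤
      ε * (slp A j (nr (xx W a y j)) * nr (xx W a y j)) := by
  have hb1 : ∀ j, 0 < g.b j 1 := fun j => h.pos j 1
  have h1 := ev_LX.mp (hL.der (ε / 2) (half_pos hε))
  have h2 : ∀ᶠ j in UF, ‖κ' j - g.c j 1‖ / g.b j 1 < 1 / 2 :=
    (tri_small hb1 hc.kk h.con.k0).eventually_lt_const (by norm_num)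
  have h3 : ∀ᶠ j in UF, ‖tp W (θ j - κ j)‖ / g.b j 1 < 1 / 4 :=
    hc.th.eventually_lt_const (by norm_num)
  have h4 : ∀ᶠ j in UF, ‖κ j - g.c j 1‖ / g.b j 1 < 1 / 4 :=
    h.con.k0.eventually_lt_const (by norm_num)
  filter_upwards [h1, h2, h3, h4, hc.kt 1 one_pos] with j j1 j2 j3 j4 j5
  have hb := hb1 j
  rw [div_lt_iff₀ hb] at j2 j3 j4
  have n1 : ‖tp W (tp W (κ' j) - g.c j 1)‖ ≤ g.b j 1 / 2 := by
    rw [tp_sub', tp_tp', ← tp_sub']
    exact (norm_tp_le' W _).trans (by linarith)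
  have n2 : ‖tp W (tp W (θ j) - g.c j 1)‖ ≤ g.b j 1 / 2 := by
    have e1 : tp W (tp W (θ j) - g.c j 1) = tp W (θ j - κ j) + tp W (κ j - g.c j 1) := by
      rw [tp_sub', tp_tp', tp_sub', tp_sub']
      abel
    rw [e1]
    have := norm_tp_le' W (κ j - g.c j 1)
    exact (norm_add_le _ _).trans (by linarith)
  obtain ⟨k1, k2⟩ := j1 1 (tp W (κ' j)) n1
  have k3 := k2 (tp W (θ j)) n2
  have k4 := k1 (tp W (θ j) - tp W (κ' j))
  rw [hL.dep j 1 (tp W (κ' j)) (κ' j) (tp_tp' W _), hL.dep j 1 (tp W (θ j)) (θ j) (tp_tp' W _)] at k3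
  obtain ⟨t, ht⟩ : ∃ t, t = ‖tp W (θ j) - tp W (κ' j)‖ := ⟨_, rfl⟩
  rw [← ht] at k3 k4
  have t0 : 0 ≤ t := by
    rw [ht]
    exact norm_nonneg _
  have tb : t ≤ g.b j 1 := by
    have e1 : tp W (θ j) - tp W (κ' j) = tp W (tp W (θ j) - g.c j 1) - tp W (tp W (κ' j) - g.c j 1) := by
      rw [tp_sub' W (tp W (θ j)), tp_sub' W (tp W (κ' j)), tp_tp', tp_tp']
      abel
    rw [ht, e1]
    exact (norm_sub_le _ _).trans (by linarith)
  have ts : t ≤ slp A j (nr (xx W a y j)) * nr (xx W a y j) := by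
    rw [ht, ← tp_sub', ← norm_neg, ← tp_smul_neg W, neg_sub]
    linarith
  have k5 : ε / 2 / g.b j 1 * t ^ 2 ≤ ε / 2 * t := by
    have e1 : ε / 2 / g.b j 1 * t ^ 2 = ε / 2 * t * (t / g.b j 1) := by
      field_simp
    rw [e1]
    exact mul_le_of_le_one_right (by positivity) ((div_le_one hb).mpr tb)
  have k6 : ‖a j 1 (θ j) - a j 1 (κ' j)‖ ≤ ε * t := by
    have e1 : a j 1 (θ j) - a j 1 (κ' j) = (a j 1 (θ j) - a j 1 (κ' j) -
        D j 1 (tp W (κ' j)) (tp W (θ j) - tp W (κ' j))) +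
        D j 1 (tp W (κ' j)) (tp W (θ j) - tp W (κ' j)) := by abel
    rw [e1]
    refine (norm_add_le _ _).trans ?_
    linarith
  exact k6.trans (mul_le_mul_of_nonneg_left ts hε.le)

theorem ynr (h : Pre F W g z κ Q φ) (hc : Ctc F W g z κ a A y κ' θ μ δ) :
    Tendsto (fun j => nr (y j)) UF atTop ∧ Tendsto (fun j => nr (κ' j)) UF atTop ∧
      (∀ᶠ j in UF, g.b j 0 ≤ 4 * nr (y j)) ∧ ∀ᶠ j in UF, g.b j 1 ≤ 4 * nr (κ' j) := by
  have h1 := nr_aux (fun j => h.pos j 0) hc.yz h.con.zt h.con.zb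
  have h2 := nr_aux (fun j => h.pos j 1) hc.kk h.con.kt h.con.kb
  exact ⟨h1.1, h2.1, h1.2, h2.2⟩

end Pool.Agent.H51.BJ
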