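import Pool.Agent.H51.BJ.ROA
import Pool.Agent.H57.BJ.BUJ

/-! # [H51 BJ COV] Unitary covariance of the operator `f ↦ P*(D)(P f)`

`Tf_rot`: `Tf (P ∘ U) (h ∘ U) = (Tf P h) ∘ U` for unitary `U`. With `Q(D)` for the constant
coefficient operator (`dop Q` of H57.BJ.Defs, `Tf P h = dop (Ps P) (P h)`, see module BUJ of
H57/BJ for lemmas on `dop`): by the chain rule `∂_l (f ∘ U) = ∑_k U_{kl} (∂_k f) ∘ U`, so
`(∑_l conj (U_{il}) ∂_l) (f ∘ U) = ∑_k (∑_l U_{kl} conj U_{il}) (∂_k f) ∘ U = (∂_i f) ∘ U`. The map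
`Q ↦ dop Q` is multiplicative and additive on entire functions (partial derivatives commute, `pd` of
H60/Entire), and `Ps (rotP U P)` is obtained from `Ps P` by substituting `∑_l conj (U_{il}) X_l` for
`X_i`; induction on `P` (`MvPolynomial.induction_on`) gives `dop (Ps (rotP U P)) (f ∘ U) = (dop (Ps P) f) ∘ U`.
`Dat.rot`: `nr (U z) = nr z`. -/

set_option autoImplicit false

open MvPolynomial Filter Pool.Agent.H60 Pool.Agent.H57.BJ
open scoped Topology Matrix

noncomputable section

namespace Pool.Agent.H51.BJ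

variable {n : ℕ} {U : Matrix (Fin n) (Fin n) ℂ}

private theorem dop_sum_left {ι : Type*} (s : Finset ι) (c : ι → ℂ)
    (q : ι → MvPolynomial (Fin n) ℂ) (f : V n → ℂ) (z : V n) :
    dop (∑ l ∈ s, C (c l) * q l) f z = ∑ l ∈ s, c l * dop (q l) f z := by
  classical
  induction s using Finset.induction_on with
  | empty =>
    rw [Finset.sum_empty, Finset.sum_empty, ← C_0, buj_C, zero_mul]
  | insert l s hl ih =>
    rw [Finset.sum_insert hl, Finset.sum_insert hl, buj_add, buj_C_mul, ih]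

private theorem dop_sum_right {ι : Type*} (s : Finset ι) (c : ι → ℂ) (p : MvPolynomial (Fin n) ℂ)
    {F : ι → V n → ℂ} (hF : ∀ l, Differentiable ℂ (F l)) (z : V n) :
    dop p (fun w => ∑ l ∈ s, c l * F l w) z = ∑ l ∈ s, c l * dop p (F l) z := by
  classical
  induction s using Finset.induction_on generalizing z with
  | empty =>
    simp only [Finset.sum_empty]
    have h1 := buj_fun_mul p (0 : ℂ) (f := fun _ : V n => (0 : ℂ)) (differentiable_const _) z
    simp only [zero_mul] at h1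
    exact h1
  | insert l s hl ih =>
    simp only [Finset.sum_insert hl]
    rw [buj_fun_add p (f := fun w => c l * F l w) (g := fun w => ∑ l ∈ s, c l * F l w)
      ((hF l).const_mul _) (Differentiable.fun_sum fun i _ => (hF i).const_mul _),
      buj_fun_mul p (c l) (hF l), ih]

private theorem hasFDerivAt_mulVec (U : Matrix (Fin n) (Fin n) ℂ) (z : V n) :
    HasFDerivAt (fun w : V n => U.mulVec w) (LinearMap.toContinuousLinearMap (Matrix.toLin' U)) z :=
  (LinearMap.toContinuousLinearMap (Matrix.toLin' U)).hasFDerivAt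

private theorem differentiable_rot (U : Matrix (Fin n) (Fin n) ℂ) {f : V n → ℂ}
    (hf : Differentiable ℂ f) : Differentiable ℂ (fun w => f (U.mulVec w)) :=
  fun z => ((hf (U.mulVec z)).hasFDerivAt.comp z (hasFDerivAt_mulVec U z)).differentiableAt

private theorem pd_rot (U : Matrix (Fin n) (Fin n) ℂ) {f : V n → ℂ}
    (hf : Differentiable ℂ f) (l : Fin n) (z : V n) :
    pd l (fun w => f (U.mulVec w)) z = ∑ k, U k l * pd k f (U.mulVec z) := by
  have h1 := ((hf (U.mulVec z)).hasFDerivAt.comp z (hasFDerivAt_mulVec U z)).fderiv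
  have h2 : pd l (fun w => f (U.mulVec w)) z = fderiv ℂ f (U.mulVec z) (U.mulVec (Pi.single l 1)) := by
    unfold pd
    have h3 : (fun w => f (U.mulVec w)) = f ∘ fun w => U.mulVec w := rfl
    rw [h3, h1]
    rfl
  rw [h2, buj_sum]
  refine Finset.sum_congr rfl fun k _ => ?_
  rw [Matrix.mulVec_single_one]
  rfl

private theorem sum_pd_rot (hU : U ∈ Matrix.unitaryGroup (Fin n) ℂ) {f : V n → ℂ}
    (hf : Differentiable ℂ f) (i : Fin n) (z : V n) :
    ∑ l, (starRingEnd ℂ) (U i l) * pd l (fun w => f (U.mulVec w)) z = pd i f (U.mulVec z) := by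
  have h1 : U * Uᴴ = 1 := Matrix.mem_unitaryGroup_iff.mp hU
  have h2 : ∀ k, ∑ l, U k l * (starRingEnd ℂ) (U i l) = if k = i then 1 else 0 := by
    intro k
    have h3 := congrFun (congrFun h1 k) i
    rw [Matrix.mul_apply, Matrix.one_apply] at h3
    exact h3
  simp only [pd_rot U hf]
  calc ∑ l, (starRingEnd ℂ) (U i l) * ∑ k, U k l * pd k f (U.mulVec z)
      = ∑ l, ∑ k, U k l * (starRingEnd ℂ) (U i l) * pd k f (U.mulVec z) := by
        refine Finset.sum_congr rfl fun l _ => ?_
        rw [Finset.mul_sum]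
        exact Finset.sum_congr rfl fun k _ => by ring
    _ = ∑ k, (∑ l, U k l * (starRingEnd ℂ) (U i l)) * pd k f (U.mulVec z) := by
        rw [Finset.sum_comm]
        exact Finset.sum_congr rfl fun k _ => by rw [Finset.sum_mul]
    _ = pd i f (U.mulVec z) := by
        simp only [h2, ite_mul, one_mul, zero_mul]
        rw [Finset.sum_ite_eq' Finset.univ i, if_pos (Finset.mem_univ _)]

private theorem dop_rot (hU : U ∈ Matrix.unitaryGroup (Fin n) ℂ) (Q : MvPolynomial (Fin n) ℂ)
    {f : V n → ℂ} (hf : Differentiable ℂ f) (z : V n) :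
    dop (bind₁ (fun i => ∑ l, C ((starRingEnd ℂ) (U i l)) * X l) Q) (fun w => f (U.mulVec w)) z
      = dop Q f (U.mulVec z) := by
  induction Q using MvPolynomial.induction_on generalizing f z with
  | C a => rw [bind₁_C_right, buj_C, buj_C]
  | add p q hp hq => rw [map_add, buj_add, buj_add, hp hf, hq hf]
  | mul_X p i hp =>
    rw [map_mul, bind₁_X_right, buj_mul_X p i hf, ← hp (differentiable_pd i hf)]
    have h1 : (bind₁ (fun i => ∑ l, C ((starRingEnd ℂ) (U i l)) * X l)) p *
        ∑ l, C ((starRingEnd ℂ) (U i l)) * X l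
        = ∑ l, C ((starRingEnd ℂ) (U i l)) *
          ((bind₁ (fun i => ∑ l, C ((starRingEnd ℂ) (U i l)) * X l)) p * X l) := by
      rw [Finset.mul_sum]
      exact Finset.sum_congr rfl fun l _ => by ring
    rw [h1, dop_sum_left]
    have h2 : (fun w => pd i f (U.mulVec w))
        = fun w => ∑ l, (starRingEnd ℂ) (U i l) * pd l (fun w => f (U.mulVec w)) w := by
      funext w
      exact (sum_pd_rot hU hf i w).symm
    rw [h2, dop_sum_right Finset.univ _ _ fun l => differentiable_pd l (differentiable_rot U hf)]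
    refine Finset.sum_congr rfl fun l _ => ?_
    rw [buj_mul_X _ l (differentiable_rot U hf)]

private theorem Nn_rot (hU : U ∈ Matrix.unitaryGroup (Fin n) ℂ) (z : V n) :
    Nn (U.mulVec z) = Nn z := by
  have h1 : ∀ w : V n, (Nn w : ℂ) = star w ⬝ᵥ w := by
    intro w
    unfold Nn dotProduct
    push_cast
    refine Finset.sum_congr rfl fun j _ => ?_
    rw [Pi.star_apply, mul_comm]
    exact (Complex.mul_conj' (w j)).symm
  have h2 : Uᴴ * U = 1 := Matrix.mem_unitaryGroup_iff'.mp hU
  have h3 : (Nn (U.mulVec z) : ℂ) = Nn z := by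
    rw [h1, h1, Matrix.star_mulVec, ← Matrix.dotProduct_mulVec, Matrix.mulVec_mulVec, h2,
      Matrix.one_mulVec]
  exact_mod_cast h3

theorem Tf_rot (hU : U ∈ Matrix.unitaryGroup (Fin n) ℂ) (P : MvPolynomial (Fin n) ℂ)
    {h : V n → ℂ} (hh : Differentiable ℂ h) (z : V n) :
    Tf (rotP U P) (fun w => h (U.mulVec w)) z = Tf P h (U.mulVec z) := by
  rw [Tf_dop, Tf_dop]
  have h1 : (fun w => ev (rotP U P) w * h (U.mulVec w))
      = fun w => (fun w => ev P w * h w) (U.mulVec w) := by
    funext w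
    rw [ev_rotP]
  have h2 : Ps (rotP U P) = bind₁ (fun i => ∑ l, C ((starRingEnd ℂ) (U i l)) * X l) (Ps P) := by
    unfold Ps rotP
    rw [map_bind₁]
    congr 2
    funext i
    rw [map_sum]
    refine Finset.sum_congr rfl fun l _ => ?_
    rw [map_mul, map_C, map_X]
  rw [h1, h2]
  exact dop_rot hU (Ps P) ((differentiable_ev P).mul hh) z

theorem Dat.rot (hU : U ∈ Matrix.unitaryGroup (Fin n) ℂ) {P : MvPolynomial (Fin n) ℂ}
    {h : ℕ → V n → ℂ} (hd : Dat P h) : Dat (rotP U P) (rotF U h) := by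
  obtain ⟨ρ, hρ⟩ := hd.rhs
  refine ⟨rotP_ne_zero hU hd.ne, fun j => differentiable_rot U (hd.diff j), ρ, fun j z => ?_⟩
  have h1 : Tf (rotP U P) (rotF U h j) z = Tf P (h j) (U.mulVec z) := Tf_rot hU P (hd.diff j) z
  have h2 : nr (U.mulVec z) = nr z := by
    unfold nr
    rw [Nn_rot hU]
  rw [h1, ← h2]
  exact hρ j _

theorem FF_rot (U : Matrix (Fin n) (Fin n) ℂ) (P : MvPolynomial (Fin n) ℂ)
    (h : ℕ → V n → ℂ) : FF (rotP U P) (rotF U h) = rotF U (FF P h) := by
  funext j z
  unfold FF rotF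
  rw [ev_rotP]

end Pool.Agent.H51.BJ
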