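import Pool.Agent.H51.BJ.LDef
import Pool.Agent.H51.BJ.TAM
import Pool.Agent.H57.BJ.CSQ

/-! # [H51 BJ CTB] The contact function: splitting of the coordinates

`tE W z` and `wG W z` are the coordinates of `z` outside `W` and in `W`, as points of euclidean spaces, `jn W` joins them. All statements are
elementary (finite sums over `Fin n` split into `i ∉ W` and `i ∈ W`; `‖·‖` on `V n` is the sup norm, `nr` the euclidean norm;
`inner ℝ x y = Re (inner ℂ x y)` on a complex euclidean space). `near_of_leaf`: `E`-norms dominate sup norms, sup norms dominate euclidean norms up to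
`sqrt n`; take `ε/(n+1)` in `Leaf.der` (the derivative of `t ↦ wG (a (jn (t,0)))` is `v ↦ wG (D (jn (x,0)) (jn (v,0)))` with real scalars); for `x` in the ball of radius `b/4`
about `tE z`: `‖tp W (jn (x,0) - c)‖ ≤ b/4 + ‖z - c‖ ≤ b/2` eventually. `gap_of_leaf`: `‖wp z - wp c‖ ≤ ε b` and `Leaf.small`. -/

set_option autoImplicit false

open MvPolynomial Filter Pool.Agent.H60 Pool.Agent.H57.BJ
open scoped Topology

noncomputable section

namespace Pool.Agent.H51.BJ

variable {n : ℕ}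

abbrev ES (W : Finset (Fin n)) : Type := EuclideanSpace ℂ {i : Fin n // i ∉ W}

abbrev GS (W : Finset (Fin n)) : Type := EuclideanSpace ℂ {i : Fin n // i ∈ W}

def tE (W : Finset (Fin n)) (z : V n) : ES W := WithLp.toLp 2 (fun i => z i.1)

def wG (W : Finset (Fin n)) (z : V n) : GS W := WithLp.toLp 2 (fun i => z i.1)

def jn (W : Finset (Fin n)) (p : ES W × GS W) : V n :=
  fun i => if h : i ∈ W then p.2 ⟨i, h⟩ else p.1 ⟨i, h⟩

def sp (W : Finset (Fin n)) (z : V n) : ES W × GS W := (tE W z, wG W z)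

theorem le_of_sq {a b : ℝ} (h : a ^ 2 ≤ b ^ 2) (hb : 0 ≤ b) : a ≤ b :=
  le_trans (le_abs_self a) (abs_le_of_sq_le_sq h hb)

theorem jn_sp (W : Finset (Fin n)) (z : V n) : jn W (sp W z) = z := by
  funext i
  by_cases h : i ∈ W <;> simp [jn, sp, tE, wG, h]

theorem sp_jn (W : Finset (Fin n)) (p : ES W × GS W) : sp W (jn W p) = p := by
  refine Prod.ext ?_ ?_
  · ext i
    simp [sp, tE, jn, i.2]
  · ext i
    simp [sp, wG, jn, i.2]

theorem jn_add (W : Finset (Fin n)) (p q : ES W × GS W) : jn W (p + q) = jn W p + jn W q := by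
  funext i
  by_cases h : i ∈ W <;> simp [jn, h]

theorem sp_add (W : Finset (Fin n)) (z w : V n) : sp W (z + w) = sp W z + sp W w := by
  refine Prod.ext ?_ ?_
  · ext i
    simp [sp, tE]
  · ext i
    simp [sp, wG]

theorem jn_cont (W : Finset (Fin n)) : Continuous (jn W) := by
  refine continuous_pi fun i => ?_
  by_cases h : i ∈ W
  · simp only [jn, h, dif_pos]
    fun_prop
  · simp only [jn, h, dif_neg, not_false_iff]
    fun_prop

theorem split_sum (W : Finset (Fin n)) (f : Fin n → ℝ) :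
    (∑ i : {i : Fin n // i ∉ W}, f i.1) + ∑ i : {i : Fin n // i ∈ W}, f i.1 = ∑ i, f i := by
  have h := Fintype.sum_subtype_add_sum_subtype (fun i : Fin n => i ∈ W) f
  rw [← h, add_comm]
  refine congrArg₂ (· + ·) ?_ ?_
  · exact Finset.sum_congr (by ext; simp) fun _ _ => rfl
  · exact Finset.sum_congr (by ext; simp) fun _ _ => rfl

theorem tE_sq (W : Finset (Fin n)) (z : V n) : ‖tE W z‖ ^ 2 = Nn (tp W z) := by
  rw [EuclideanSpace.norm_sq_eq]
  have h := split_sum W (fun i => ‖tp W z i‖ ^ 2)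
  have h1 : ∑ i : {i : Fin n // i ∈ W}, ‖tp W z i.1‖ ^ 2 = 0 := by
    refine Finset.sum_eq_zero fun i _ => ?_
    simp [tp, i.2]
  rw [h1, add_zero] at h
  unfold Nn
  rw [← h]
  refine Finset.sum_congr rfl fun i _ => ?_
  simp [tp, tE, i.2]

theorem wG_sq (W : Finset (Fin n)) (z : V n) : ‖wG W z‖ ^ 2 = Nn (wp W z) := by
  rw [EuclideanSpace.norm_sq_eq]
  have h := split_sum W (fun i => ‖wp W z i‖ ^ 2)
  have h1 : ∑ i : {i : Fin n // i ∉ W}, ‖wp W z i.1‖ ^ 2 = 0 := by
    refine Finset.sum_eq_zero fun i _ => ?_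
    simp [wp, i.2]
  rw [h1, zero_add] at h
  unfold Nn
  rw [← h]
  refine Finset.sum_congr rfl fun i _ => ?_
  simp [wp, wG]

theorem nsq_sp (W : Finset (Fin n)) (z : V n) : nsq (sp W z) = Nn z := by
  have h := split_sum W (fun i => ‖z i‖ ^ 2)
  unfold nsq sp
  simp only
  rw [EuclideanSpace.norm_sq_eq, EuclideanSpace.norm_sq_eq]
  exact h

theorem inner_cc {ι : Type*} [Fintype ι] (x y : EuclideanSpace ℂ ι) :
    (inner ℝ x y : ℝ) = ∑ i, (x i * (starRingEnd ℂ) (y i)).re := by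
  rw [PiLp.inner_apply]
  refine Finset.sum_congr rfl fun i _ => ?_
  rw [Complex.inner, ← Complex.conj_re]
  simp [mul_comm]

theorem ipr_sp (W : Finset (Fin n)) (z w : V n) : ipr (sp W z) (sp W w) = (hp z w).re := by
  have h := split_sum W (fun i => (z i * (starRingEnd ℂ) (w i)).re)
  unfold ipr sp hp
  simp only
  rw [inner_cc, inner_cc, Complex.re_sum]
  exact h

theorem Nn_le_sup (z : V n) : Nn z ≤ ((n + 1) * ‖z‖) ^ 2 := by
  unfold Nn
  calc ∑ i, ‖z i‖ ^ 2 ≤ ∑ _i : Fin n, ‖z‖ ^ 2 :=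
        Finset.sum_le_sum fun i _ => pow_le_pow_left₀ (norm_nonneg _) (norm_le_pi_norm z i) 2
    _ = n * ‖z‖ ^ 2 := by simp
    _ ≤ ((n + 1) * ‖z‖) ^ 2 := by
        have h1 : (n : ℝ) ≤ (n + 1) ^ 2 := by nlinarith [(Nat.cast_nonneg n : (0 : ℝ) ≤ n)]
        calc (n : ℝ) * ‖z‖ ^ 2 ≤ (n + 1) ^ 2 * ‖z‖ ^ 2 := by gcongr
          _ = _ := by ring

theorem norm_tE (W : Finset (Fin n)) (z : V n) :
    ‖tp W z‖ ≤ ‖tE W z‖ ∧ ‖tE W z‖ ≤ nr (tp W z) ∧ ‖tE W z‖ ≤ (n + 1) * ‖tp W z‖ := by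
  refine ⟨?_, ?_, ?_⟩
  · refine (pi_norm_le_iff_of_nonneg (norm_nonneg _)).2 fun i => ?_
    by_cases h : i ∈ W
    · simp [tp, h]
    · have := PiLp.norm_apply_le (tE W z) (⟨i, h⟩ : {i : Fin n // i ∉ W})
      simpa [tp, h, tE] using this
  · unfold nr
    rw [← tE_sq, Real.sqrt_sq (norm_nonneg _)]
  · refine le_of_sq ?_ (by positivity)
    rw [tE_sq]
    exact Nn_le_sup _

theorem norm_wG (W : Finset (Fin n)) (z : V n) :
    ‖wp W z‖ ≤ ‖wG W z‖ ∧ ‖wG W z‖ = nr (wp W z) ∧ ‖wG W z‖ ≤ (n + 1) * ‖wp W z‖ := by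
  refine ⟨?_, ?_, ?_⟩
  · refine (pi_norm_le_iff_of_nonneg (norm_nonneg _)).2 fun i => ?_
    by_cases h : i ∈ W
    · have := PiLp.norm_apply_le (wG W z) (⟨i, h⟩ : {i : Fin n // i ∈ W})
      simpa [wp, h, wG] using this
    · simp [wp, h]
  · unfold nr
    rw [← wG_sq, Real.sqrt_sq (norm_nonneg _)]
  · refine le_of_sq ?_ (by positivity)
    rw [wG_sq]
    exact Nn_le_sup _

theorem tE_add (W : Finset (Fin n)) (z w : V n) : tE W (z + w) = tE W z + tE W w :=
  congrArg Prod.fst (sp_add W z w)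

theorem wG_add (W : Finset (Fin n)) (z w : V n) : wG W (z + w) = wG W z + wG W w :=
  congrArg Prod.snd (sp_add W z w)

theorem tE_sub (W : Finset (Fin n)) (z w : V n) : tE W (z - w) = tE W z - tE W w := by
  rw [eq_sub_iff_add_eq, ← tE_add, sub_add_cancel]

theorem wG_sub (W : Finset (Fin n)) (z w : V n) : wG W (z - w) = wG W z - wG W w := by
  rw [eq_sub_iff_add_eq, ← wG_add, sub_add_cancel]

theorem tE_jn (W : Finset (Fin n)) (p : ES W × GS W) : tE W (jn W p) = p.1 :=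
  congrArg Prod.fst (sp_jn W p)

theorem wG_jn (W : Finset (Fin n)) (p : ES W × GS W) : wG W (jn W p) = p.2 :=
  congrArg Prod.snd (sp_jn W p)

theorem wp_norm_le (W : Finset (Fin n)) (z : V n) : ‖wp W z‖ ≤ ‖z‖ := by
  refine (pi_norm_le_iff_of_nonneg (norm_nonneg _)).2 fun i => ?_
  by_cases h : i ∈ W
  · simpa [wp, h] using norm_le_pi_norm z i
  · simp [wp, h]

theorem tp_norm_le (W : Finset (Fin n)) (z : V n) : ‖tp W z‖ ≤ ‖z‖ := by
  refine (pi_norm_le_iff_of_nonneg (norm_nonneg _)).2 fun i => ?_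
  by_cases h : i ∈ W
  · simp [tp, h]
  · simpa [tp, h] using norm_le_pi_norm z i

theorem jn_tE (W : Finset (Fin n)) (z : V n) : jn W (tE W z, 0) = tp W z := by
  funext i
  by_cases h : i ∈ W <;> simp [jn, tE, tp, h]

theorem jn_wG (W : Finset (Fin n)) (z : V n) : jn W (0, wG W z) = wp W z := by
  funext i
  by_cases h : i ∈ W <;> simp [jn, wG, wp, h]

theorem tp_jn (W : Finset (Fin n)) (t : ES W) (w : GS W) : tp W (jn W (t, w)) = jn W (t, 0) := by
  funext i
  by_cases h : i ∈ W <;> simp [jn, tp, h]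

theorem wp_jn (W : Finset (Fin n)) (t : ES W) (w : GS W) : wp W (jn W (t, w)) = jn W (0, w) := by
  funext i
  by_cases h : i ∈ W <;> simp [jn, wp, h]

theorem jn_norm_le (W : Finset (Fin n)) (t : ES W) : ‖jn W (t, 0)‖ ≤ ‖t‖ := by
  have h := (norm_tE W (jn W (t, 0))).1
  rwa [tp_jn, tE_jn] at h

theorem jn_sub (W : Finset (Fin n)) (t t' : ES W) :
    jn W (t, 0) - jn W (t', 0) = jn W (t - t', 0) := by
  funext i
  by_cases h : i ∈ W <;> simp [jn, h]

/-- the inclusion of the `t`-part, real linear -/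
def jnL (W : Finset (Fin n)) : ES W →ₗ[ℝ] V n where
  toFun t := jn W (t, 0)
  map_add' t t' := by
    funext i
    by_cases h : i ∈ W <;> simp [jn, h]
  map_smul' c t := by
    funext i
    by_cases h : i ∈ W <;> simp [jn, h]

/-- the projection to the `w`-part, real linear -/
def wGL (W : Finset (Fin n)) : V n →ₗ[ℝ] GS W where
  toFun z := wG W z
  map_add' z w := wG_add W z w
  map_smul' c z := by
    ext i
    simp [wG]

/-- the leaf at the parameter `l` in the split coordinates -/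
def af (W : Finset (Fin n)) (a : II → V n → V n) (l : II) (t : ES W) : GS W :=
  wG W (a l (jn W (t, 0)))

theorem af_eq {W : Finset (Fin n)} {g : Germ n} {Q : Fin n → MvPolynomial (Fin n) ℂ}
    {a : ℕ → II → V n → V n} {D : ℕ → II → V n → V n →L[ℂ] V n} (hL : Leaf g W Q a D)
    (j : ℕ) (l : II) (y : V n) : af W (a j) l (tE W y) = wG W (a j l y) ∧
      wp W (a j l y) = a j l y := by
  refine ⟨?_, ?_⟩
  · unfold af
    rw [jn_tE]
    refine congrArg _ (hL.dep j l _ _ ?_)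
    funext i
    by_cases h : i ∈ W <;> simp [tp, h]
  · have h := hL.tpz j l y
    funext i
    by_cases hi : i ∈ W
    · simp [wp, hi]
    · have := congrFun h i
      simp only [tp, hi, if_false, Pi.zero_apply] at this
      simp [wp, hi, this]

theorem near_of_leaf {W : Finset (Fin n)} {g : Germ n} {Q : Fin n → MvPolynomial (Fin n) ℂ}
    (hpos : ∀ j l, 0 < g.b j l) {a : ℕ → II → V n → V n} {D : ℕ → II → V n → V n →L[ℂ] V n}
    (hL : Leaf g W Q a D) (l : II) {z : ℕ → V n}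
    (hz : Tendsto (fun j => ‖z j - g.c j l‖ / g.b j l) UF (𝓝 0)) :
    ∃ D' : ℕ → ES W → ES W →L[ℝ] GS W, ∀ ε : ℝ, 0 < ε → ∀ᶠ j in UF,
      NearAffine (af W (a j) l) (D' j) (tE W (z j)) (g.b j l / 4) ε (ε / g.b j l) := by
  refine ⟨fun j x => (LinearMap.toContinuousLinearMap (wGL W)).comp
    (((D j l (jn W (x, 0))).restrictScalars ℝ).comp (LinearMap.toContinuousLinearMap (jnL W))),
    fun ε hε => ?_⟩
  have hn : (0 : ℝ) < n + 1 := by positivity
  have h1 := ev_LX.1 (hL.der (ε / (n + 1)) (by positivity))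
  have h2 : ∀ᶠ j in UF, ‖z j - g.c j l‖ / g.b j l < 1 / (4 * (n + 1)) :=
    hz.eventually (gt_mem_nhds (by positivity))
  filter_upwards [h1, h2] with j h1 h2
  have hb := hpos j l
  have hball : ∀ x ∈ Metric.closedBall (tE W (z j)) (g.b j l / 4),
      ‖tp W (jn W (x, 0) - g.c j l)‖ ≤ g.b j l / 2 := by
    intro x hx
    rw [mem_closedBall_iff_norm] at hx
    have e1 : tp W (jn W (x, 0) - g.c j l) = jn W (x - tE W (g.c j l), 0) := by
      rw [← jn_sub, jn_tE]
      funext i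
      by_cases h : i ∈ W <;> simp [jn, tp, h]
    rw [e1]
    refine (jn_norm_le W _).trans ?_
    have e2 : x - tE W (g.c j l) = (x - tE W (z j)) + tE W (z j - g.c j l) := by
      rw [tE_sub]; abel
    rw [e2]
    refine (norm_add_le _ _).trans ?_
    have e3 := (norm_tE W (z j - g.c j l)).2.2
    have e4 := tp_norm_le W (z j - g.c j l)
    rw [div_lt_iff₀ hb] at h2
    have e5 : (n + 1) * ‖tp W (z j - g.c j l)‖ ≤ g.b j l / 4 := by
      calc (n + 1) * ‖tp W (z j - g.c j l)‖ ≤ (n + 1) * (1 / (4 * (n + 1)) * g.b j l) := by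
            gcongr
            exact e4.trans h2.le
        _ = g.b j l / 4 := by field_simp
    linarith
  intro x hx
  obtain ⟨hD, hS⟩ := h1 l (jn W (x, 0)) (hball x hx)
  refine ⟨?_, fun x' hx' => ?_⟩
  · refine ContinuousLinearMap.opNorm_le_bound _ hε.le fun v => ?_
    have e1 := hD (jn W (v, 0))
    have e2 := (norm_wG W (D j l (jn W (x, 0)) (jn W (v, 0)))).2.2
    have e3 := wp_norm_le W (D j l (jn W (x, 0)) (jn W (v, 0)))
    have e4 := jn_norm_le W v
    calc ‖wG W (D j l (jn W (x, 0)) (jn W (v, 0)))‖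
        ≤ (n + 1) * ‖wp W (D j l (jn W (x, 0)) (jn W (v, 0)))‖ := e2
      _ ≤ (n + 1) * (ε / (n + 1) * ‖v‖) := by
          gcongr
          exact e3.trans (e1.trans (by gcongr))
      _ = ε * ‖v‖ := by field_simp
  · have e1 := hS (jn W (x', 0)) (hball x' hx')
    have e2 : af W (a j) l x' - af W (a j) l x -
        wG W (D j l (jn W (x, 0)) (jn W (x' - x, 0))) =
        wG W (a j l (jn W (x', 0)) - a j l (jn W (x, 0)) -
          D j l (jn W (x, 0)) (jn W (x', 0) - jn W (x, 0))) := by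
      rw [wG_sub, wG_sub, jn_sub]
      rfl
    change ‖af W (a j) l x' - af W (a j) l x -
        wG W (D j l (jn W (x, 0)) (jn W (x' - x, 0)))‖ ≤ _
    rw [e2]
    have e3 := (norm_wG W (a j l (jn W (x', 0)) - a j l (jn W (x, 0)) -
          D j l (jn W (x, 0)) (jn W (x', 0) - jn W (x, 0)))).2.2
    have e4 := wp_norm_le W (a j l (jn W (x', 0)) - a j l (jn W (x, 0)) -
          D j l (jn W (x, 0)) (jn W (x', 0) - jn W (x, 0)))
    have e5 : ‖jn W (x', 0) - jn W (x, 0)‖ ≤ ‖x' - x‖ := by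
      rw [jn_sub]; exact jn_norm_le W _
    calc _ ≤ _ := e3
      _ ≤ (n + 1) * (ε / (n + 1) / g.b j l * ‖x' - x‖ ^ 2) := by
          gcongr
          exact e4.trans (e1.trans (by gcongr))
      _ = ε / g.b j l * ‖x' - x‖ ^ 2 := by field_simp

theorem gap_of_leaf {W : Finset (Fin n)} {g : Germ n} {Q : Fin n → MvPolynomial (Fin n) ℂ}
    (hpos : ∀ j l, 0 < g.b j l) {a : ℕ → II → V n → V n} {D : ℕ → II → V n → V n →L[ℂ] V n}
    (hL : Leaf g W Q a D) (l : II) {z : ℕ → V n}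
    (hz : Tendsto (fun j => ‖z j - g.c j l‖ / g.b j l) UF (𝓝 0)) (ε : ℝ) (hε : 0 < ε) :
    ∀ᶠ j in UF, ‖wG W (z j) - af W (a j) l (tE W (z j))‖ ≤ ε * g.b j l := by
  have hn : (0 : ℝ) < n + 1 := by positivity
  have h1 := ev_LX.1 (hL.small (ε / (2 * (n + 1))) (by positivity))
  have h2 : ∀ᶠ j in UF, ‖z j - g.c j l‖ / g.b j l < min 1 (ε / (2 * (n + 1))) :=
    hz.eventually (gt_mem_nhds (by positivity))
  filter_upwards [h1, h2] with j h1 h2
  have hb := hpos j l
  rw [div_lt_iff₀ hb] at h2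
  have h3 : ‖z j - g.c j l‖ ≤ g.b j l := by
    refine h2.le.trans ?_
    calc min 1 (ε / (2 * (n + 1))) * g.b j l ≤ 1 * g.b j l := by
          gcongr
          exact min_le_left _ _
      _ = _ := one_mul _
  have h4 : ‖z j - g.c j l‖ ≤ ε / (2 * (n + 1)) * g.b j l := by
    refine h2.le.trans ?_
    gcongr
    exact min_le_right _ _
  have h5 := h1 l (z j) ((tp_norm_le W _).trans h3)
  rw [(af_eq hL j l (z j)).1, ← wG_sub]
  refine (norm_wG W (z j - a j l (z j))).2.2.trans ?_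
  have e1 : wp W (z j - a j l (z j)) = wp W (z j - g.c j l) - (a j l (z j) - wp W (g.c j l)) := by
    have e0 := (af_eq hL j l (z j)).2
    nth_rewrite 2 [← e0]
    funext i
    by_cases h : i ∈ W <;> simp [wp, h]
  rw [e1]
  calc (n + 1) * ‖wp W (z j - g.c j l) - (a j l (z j) - wp W (g.c j l))‖
      ≤ (n + 1) * (ε / (2 * (n + 1)) * g.b j l + ε / (2 * (n + 1)) * g.b j l) := by
        gcongr
        exact (norm_sub_le _ _).trans (add_le_add ((wp_norm_le W _).trans h4) h5)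
    _ = ε * g.b j l := by field_simp; ring

end Pool.Agent.H51.BJ
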