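import Pool.Agent.H51.BJ.CTB
import Pool.Agent.H51.BJ.PRF

/-! # [H51 BJ CTC] The contact function and the new maximum point (proofs id 313, Section 4, R4)

Family form of R4. From the contact conditions `Con F g z κ` at the germ, the almost flat leaf `a`
(with derivative `D`) and a profile `A` with the window of `b`, one gets new points `y` (maximum of
`|F| e^{-Ψ}` near `z`) and `κ'`, such that with `x = wp y - a_0 (y)` (the distance to the leaf) and
`ξ = (1 + o(1)) slp A |x| x`: `wp κ' = a_1(θ) + ξ`, `tp κ' = tp θ + o(|ξ|)`.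

Proof. Apply `contact_seq` with `E = ES W`, `G = GS W`, `r = b(·,0)`, `r' = b(·,1)`, `A j 1` (`Prof1` from `Profile`; `A j 1 r / r' → 1` by `hw`
at `s = b(j,0)`), `a0 = af W (a j) 0`, `a1 = af W (a j) 1` (`near_of_leaf`, `gap_of_leaf` with `Con.z0`, `Con.k0`), points `sp W (z j)`, `sp W (κ j)`,
`Φ j p = ‖F j (jn W p)‖` (positive at `z` by `Con.low`), (C2) from `Con.up` with `nsq_sp`, `ipr_sp`. It gives `e, s0, θE, ζ, x, L2`. Put
`y = z + jn s0`, `θ = jn (θE, 0)`, `κ' = jn (θE - ζ, a1 θE + L2 x)`, `μ = 1 + 8 e`, `δ = e`. `x = wG y - wG (a j 0 y)` (`af_eq`), so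
`nr (wp y - a j 0 y) = ‖x‖` and `L2 = μ slp A j ‖x‖`. `‖L2 x‖ = μ A j 1 ‖x‖ ≤ μ A j 1 (2 e r) = o(r')` by `profile_small` with
`s = 2 e r`; with `near_lip` this gives `‖κ' - κ‖ = o(r')`. Growth: `(1+4e)(1+8e) slp ≤ (1+ε) slp`. Last clause: with `r ≤ 2 nr z`, `r' ≤ 2 nr κ` (`Con.zb`,
`Con.kb`): `‖F z‖ ≤ ‖F y‖ exp (16 e nr z nr κ)`, `nr y ≤ (1+2e) nr z`, `nr κ' ≤ (1+o(1)) nr κ`, and `Con.low`; for `ε ≥ 1/4` the left side is at most `1 ≤ ‖F y‖`. -/

set_option autoImplicit false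

open MvPolynomial Filter Pool.Agent.H60 Pool.Agent.H57.BJ
open scoped Topology

noncomputable section

namespace Pool.Agent.H51.BJ

variable {n : ℕ}

theorem nr_eq (v : V n) : nr v = ‖(WithLp.toLp 2 v : EuclideanSpace ℂ (Fin n))‖ := by
  rw [EuclideanSpace.norm_eq]
  rfl

theorem nr_add_le' (v w : V n) : nr (v + w) ≤ nr v + nr w := by
  rw [nr_eq, nr_eq, nr_eq, WithLp.toLp_add]
  exact norm_add_le _ _

theorem nr_nn (v : V n) : 0 ≤ nr v := Real.sqrt_nonneg _

theorem Nn_nn (v : V n) : 0 ≤ Nn v := Finset.sum_nonneg fun _ _ => by positivity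

theorem sup_le_nr (v : V n) : ‖v‖ ≤ nr v := by
  refine (pi_norm_le_iff_of_nonneg (nr_nn v)).2 fun i => ?_
  refine Real.le_sqrt_of_sq_le ?_
  exact Finset.single_le_sum (f := fun j => ‖v j‖ ^ 2) (fun j _ => by positivity)
    (Finset.mem_univ i)

theorem nr_le_sup (v : V n) : nr v ≤ (n + 1) * ‖v‖ :=
  Real.sqrt_le_iff.2 ⟨by positivity, Nn_le_sup v⟩

theorem nr_jn (W : Finset (Fin n)) (p : ES W × GS W) : nr (jn W p) = Real.sqrt (nsq p) := by
  unfold nr
  rw [← nsq_sp W, sp_jn]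

theorem jn_norm (W : Finset (Fin n)) (p : ES W × GS W) : ‖jn W p‖ ≤ ‖p.1‖ + ‖p.2‖ := by
  refine (sup_le_nr _).trans ?_
  rw [nr_jn]
  refine Real.sqrt_le_iff.2 ⟨by positivity, ?_⟩
  unfold nsq
  nlinarith [norm_nonneg p.1, norm_nonneg p.2]

theorem tE_le (W : Finset (Fin n)) (v : V n) : ‖tE W v‖ ≤ nr v := by
  refine Real.le_sqrt_of_sq_le ?_
  rw [← nsq_sp W]
  unfold nsq sp
  simp only
  nlinarith [norm_nonneg (wG W v)]

theorem wG_le (W : Finset (Fin n)) (v : V n) : ‖wG W v‖ ≤ nr v := by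
  refine Real.le_sqrt_of_sq_le ?_
  rw [← nsq_sp W]
  unfold nsq sp
  simp only
  nlinarith [norm_nonneg (tE W v)]

theorem wp_sub' (W : Finset (Fin n)) (v w : V n) : wp W (v - w) = wp W v - wp W w := by
  funext i
  by_cases h : i ∈ W <;> simp [wp, h]

theorem slp_nn {A : ℕ → II → ℝ → ℝ} (hA : Profile A) (j : ℕ) {s : ℝ} (hs : 0 ≤ s) :
    0 ≤ slp A j s := by
  unfold slp
  split_ifs with h
  · exact zero_le_one
  · have h' : 0 < s := lt_of_le_of_ne hs (Ne.symm h)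
    exact (div_pos (hA.pos j 1 s h') h').le

theorem contact {F : ℕ → V n → ℂ} (hF : ∀ j, Continuous (F j)) {W : Finset (Fin n)} {g : Germ n}
    {z κ : ℕ → V n} {Q : Fin n → MvPolynomial (Fin n) ℂ} (hpos : ∀ j l, 0 < g.b j l)
    (htop : Tendsto (fun q : ℕ × II => g.b q.1 q.2) (LX II) atTop)
    (htame : Tame (fun q : ℕ × II => g.b q.1 q.2))
    (hcon : Con F g z κ) {a : ℕ → II → V n → V n} {D : ℕ → II → V n → V n →L[ℂ] V n}
    (hL : Leaf g W Q a D) {A : ℕ → II → ℝ → ℝ} (hA : Profile A)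
    (hw : Window A (fun q => g.b q.1 q.2)) :
    ∃ (y κ' θ : ℕ → V n) (μ : ℕ → ℝ),
      Tendsto (fun j => ‖y j - z j‖ / g.b j 0) UF (𝓝 0) ∧
      Tendsto (fun j => ‖tp W (θ j - κ j)‖ / g.b j 1) UF (𝓝 0) ∧
      Tendsto (fun j => ‖κ' j - κ j‖ / g.b j 1) UF (𝓝 0) ∧
      Tendsto μ UF (𝓝 1) ∧
      (∀ᶠ j in UF, wp W (κ' j) = a j 1 (θ j) +
        ((μ j * slp A j (nr (wp W (y j) - a j 0 (y j))) : ℝ) : ℂ) • (wp W (y j) - a j 0 (y j))) ∧
      (∀ ε : ℝ, 0 < ε → ∀ᶠ j in UF, ‖tp W (κ' j - θ j)‖ ≤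
        ε * (slp A j (nr (wp W (y j) - a j 0 (y j))) * nr (wp W (y j) - a j 0 (y j)))) ∧
      (∃ δ : ℕ → ℝ, Tendsto (fun j => δ j * g.b j 0) UF atTop ∧ Tendsto δ UF (𝓝 0) ∧
        (∀ᶠ j in UF, nr (wp W (y j) - a j 0 (y j)) ≤ 2 * δ j * g.b j 0) ∧
        ∀ ε : ℝ, 0 < ε → ∀ᶠ j in UF, ∀ s : V n, nr s ≤ δ j * g.b j 0 →
          ‖F j (y j + s)‖ ≤ ‖F j (y j)‖ * Real.exp ((hp s (κ' j)).re +
            (1 + ε) / 2 * slp A j (nr (wp W (y j) - a j 0 (y j))) * Nn s)) ∧
      (∀ ε : ℝ, 0 < ε → ∀ᶠ j in UF,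
        Real.exp ((1 / 4 - ε) * (nr (y j) * nr (κ' j))) ≤ ‖F j (y j)‖) := by
  obtain ⟨D0, hD0⟩ := near_of_leaf hpos hL 0 hcon.z0
  obtain ⟨D1, hD1⟩ := near_of_leaf hpos hL 1 hcon.k0
  have hb0 : Tendsto (fun j => g.b j 0) UF atTop := tendsto_at htop 0
  have hb1 : Tendsto (fun j => g.b j 1) UF atTop := tendsto_at htop 1
  have hAr : Tendsto (fun j => A j 1 (g.b j 0) / g.b j 1) UF (𝓝 1) := by
    refine Metric.tendsto_nhds.2 fun ε hε => ?_
    have h := ev_LX.1 (hw 1 le_rfl (ε / 2) (by positivity))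
    filter_upwards [h] with j h
    have h1 := h 1 (g.b j 0) (by simp) (by simp)
    have p0 := hpos j 0
    have p1 := hpos j 1
    rw [Real.dist_eq]
    have e1 : A j 1 (g.b j 0) / g.b j 1 - 1 =
        (A j 1 (g.b j 0) / g.b j 0 - g.b j 1 / g.b j 0) / (g.b j 1 / g.b j 0) := by
      field_simp
    rw [e1, abs_div, abs_of_pos (div_pos p1 p0), div_lt_iff₀ (div_pos p1 p0)]
    refine h1.trans_lt ?_
    have : 0 < g.b j 1 / g.b j 0 := div_pos p1 p0
    nlinarith
  have hpz : ∀ᶠ j in UF, 0 < ‖F j (z j)‖ := by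
    filter_upwards [hcon.low 1 one_pos] with j h
    exact (Real.exp_pos _).trans_le h
  obtain ⟨e, s0, θ, ζ, x, L2, he0, he, her, hev⟩ := contact_seq (E := ES W) (G := GS W)
    (fun j => g.b j 0) (fun j => g.b j 1) (fun j => hpos j 0) (fun j => hpos j 1) hb0 hb1
    (fun j => A j 1)
    (fun j => ⟨hA.conts j 1, hA.mono j 1, hA.one j 1, fun s t hs hst => by
      have := hA.anti j 1 s t hs.le hst
      linarith [mul_comm s (A j 1 t), mul_comm t (A j 1 s)]⟩)
    hAr (fun j => af W (a j) 0) (fun j => af W (a j) 1) D0 D1 (fun j => sp W (z j))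
    (fun j => sp W (κ j)) hD0 hD1
    (fun ε hε => gap_of_leaf hpos hL 0 hcon.z0 ε hε)
    (fun ε hε => gap_of_leaf hpos hL 1 hcon.k0 ε hε)
    (fun j p => ‖F j (jn W p)‖) (fun j => ((hF j).comp (jn_cont W)).norm)
    (fun j y => norm_nonneg _)
    (by filter_upwards [hpz] with j h; rwa [jn_sp])
    (by
      intro ε hε
      filter_upwards [hcon.up ε hε] with j h s hs
      have h1 : nr (jn W s) ≤ g.b j 0 / 10 := by
        rw [nr_jn]
        refine Real.sqrt_le_iff.2 ⟨(div_pos (hpos j 0) (by norm_num)).le, hs⟩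
      have h2 := h (jn W s) h1
      rw [jn_add, jn_sp]
      rw [← ipr_sp W, ← nsq_sp W, sp_jn] at h2
      exact h2)
  -- the remaining facts, for one index
  have hfact : ∀ᶠ j in UF,
      nr (jn W (s0 j)) ≤ e j * g.b j 0 ∧ ‖θ j - tE W (κ j)‖ ≤ 8 * e j * g.b j 1 ∧
      wp W (z j + jn W (s0 j)) - a j 0 (z j + jn W (s0 j)) = jn W (0, x j) ∧
      nr (wp W (z j + jn W (s0 j)) - a j 0 (z j + jn W (s0 j))) = ‖x j‖ ∧
      ‖x j‖ ≤ 2 * e j * g.b j 0 ∧ L2 j = (1 + 8 * e j) * slp A j ‖x j‖ ∧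
      ‖L2 j • x j‖ = (1 + 8 * e j) * (slp A j ‖x j‖ * ‖x j‖) ∧
      (1 + 8 * e j) * (slp A j ‖x j‖ * ‖x j‖) = (1 + 8 * e j) * A j 1 ‖x j‖ ∧
      ‖ζ j‖ ≤ e j * ‖L2 j • x j‖ := by
    filter_upwards [hev] with j hj
    obtain ⟨h1, h2, h3, h4, h5, h6, h7, -, -⟩ := hj
    have hx : jn W (0, x j) = wp W (z j + jn W (s0 j)) - a j 0 (z j + jn W (s0 j)) := by
      have e1 : x j = wG W (z j + jn W (s0 j) - a j 0 (z j + jn W (s0 j))) := by
        rw [h3, wG_sub, wG_add, wG_jn, ← (af_eq hL j 0 (z j + jn W (s0 j))).1, tE_add, tE_jn]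
        rfl
      rw [e1, jn_wG, wp_sub', (af_eq hL j 0 _).2]
    have hnx : nr (wp W (z j + jn W (s0 j)) - a j 0 (z j + jn W (s0 j))) = ‖x j‖ := by
      rw [← hx, nr_jn]
      unfold nsq
      simp only [norm_zero, ne_eq, OfNat.ofNat_ne_zero, not_false_eq_true, zero_pow, zero_add]
      exact Real.sqrt_sq (norm_nonneg _)
    have hs1 : slp A j ‖x j‖ * ‖x j‖ = A j 1 ‖x j‖ := by
      unfold slp
      split_ifs with h
      · rw [h, hA.one j 1 0 le_rfl zero_le_one]; simp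
      · field_simp
    have hL2 : L2 j = (1 + 8 * e j) * slp A j ‖x j‖ := by
      by_cases hx0 : x j = 0
      · rw [h6 hx0, hx0]; simp [slp]
      · have hn : ‖x j‖ ≠ 0 := norm_ne_zero_iff.2 hx0
        have e2 : L2 j * ‖x j‖ = (1 + 8 * e j) * slp A j ‖x j‖ * ‖x j‖ := by
          rw [h5, mul_assoc, hs1]
        exact mul_right_cancel₀ hn e2
    have hsn : 0 ≤ slp A j ‖x j‖ := slp_nn hA j (norm_nonneg _)
    have hL2n : 0 ≤ L2 j := by
      rw [hL2]
      have := he0 j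
      positivity
    refine ⟨?_, h2, hx.symm, hnx, h4, hL2, ?_, by rw [hs1], h7⟩
    · rw [nr_jn]
      exact Real.sqrt_le_iff.2 ⟨(mul_pos (he0 j) (hpos j 0)).le, h1⟩
    · rw [norm_smul, Real.norm_of_nonneg hL2n, hL2]; ring
  -- the size of the vector `L2 x`
  have hprof : Tendsto (fun j => A j 1 (2 * e j * g.b j 0) / g.b j 1) UF (𝓝 0) := by
    have h := profile_small hA (ρ := fun q => g.b q.1 q.2) (fun q => hpos q.1 q.2) hw
      (s := fun j => 2 * e j * g.b j 0)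
      (fun j => mul_pos (mul_pos two_pos (he0 j)) (hpos j 0)) (by
        have h1 : Tendsto (fun j => 2 * e j) UF (𝓝 0) := by simpa using he.const_mul 2
        refine h1.congr fun j => ?_
        have := (hpos j 0).ne'
        simp only
        field_simp)
    exact tendsto_at h 1
  have hgap : Tendsto (fun j => ‖wG W (κ j) - af W (a j) 1 (tE W (κ j))‖ / g.b j 1) UF (𝓝 0) := by
    refine Metric.tendsto_nhds.2 fun ε hε => ?_
    filter_upwards [gap_of_leaf hpos hL 1 hcon.k0 (ε / 2) (by positivity)] with j h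
    have p1 := hpos j 1
    rw [Real.dist_eq, sub_zero, abs_of_nonneg (by positivity), div_lt_iff₀ p1]
    nlinarith
  have hκ : Tendsto (fun j => ‖jn W (θ j - ζ j, af W (a j) 1 (θ j) + L2 j • x j) - κ j‖ / g.b j 1)
      UF (𝓝 0) := by
    have hbd : Tendsto (fun j => 20 * e j + (1 + e j) * (1 + 8 * e j) *
        (A j 1 (2 * e j * g.b j 0) / g.b j 1) +
        ‖wG W (κ j) - af W (a j) 1 (tE W (κ j))‖ / g.b j 1) UF (𝓝 0) := by
      have h1 : Tendsto (fun j => 20 * e j) UF (𝓝 0) := by simpa using he.const_mul 20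
      have h2 : Tendsto (fun j => (1 + e j) * (1 + 8 * e j)) UF (𝓝 1) := by
        have h3 : Tendsto (fun j => 1 + e j) UF (𝓝 1) := by simpa using he.const_add 1
        have h4 : Tendsto (fun j => 1 + 8 * e j) UF (𝓝 1) := by
          simpa using (he.const_mul 8).const_add 1
        simpa using h3.mul h4
      have h5 := (h1.add (h2.mul hprof)).add hgap
      simpa using h5
    refine squeeze_zero' (Eventually.of_forall fun j => by have := hpos j 1; positivity) ?_ hbd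
    have he8 : ∀ᶠ j in UF, e j < 1 / 32 := he.eventually (gt_mem_nhds (by norm_num))
    filter_upwards [hfact, he8, hD1 1 one_pos] with j hj h8 hn
    obtain ⟨-, h2, -, -, h5, hL2, h6, h7, h9⟩ := hj
    have p1 := hpos j 1
    have p0 := hpos j 0
    have pe := he0 j
    have hmono : A j 1 ‖x j‖ ≤ A j 1 (2 * e j * g.b j 0) :=
      hA.mono j 1 (Set.mem_Ici.2 (norm_nonneg _)) (Set.mem_Ici.2 (by positivity)) h5
    have hLx : ‖L2 j • x j‖ ≤ (1 + 8 * e j) * A j 1 (2 * e j * g.b j 0) := by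
      rw [h6, h7]
      gcongr
    have hlip := near_lip (af W (a j) 1) (D1 j) (tE W (κ j)) (g.b j 1 / 4) 1 (1 / g.b j 1)
      (by positivity) hn (tE W (κ j)) (θ j) (Metric.mem_closedBall_self (by positivity))
      (by
        rw [mem_closedBall_iff_norm]
        refine h2.trans ?_
        nlinarith)
    have hlip2 : ‖af W (a j) 1 (θ j) - af W (a j) 1 (tE W (κ j))‖ ≤ 12 * e j * g.b j 1 := by
      refine hlip.trans ?_
      have e1 : (1 + 2 * (g.b j 1 / 4) * (1 / g.b j 1)) = 3 / 2 := by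
        field_simp; norm_num
      rw [e1]
      nlinarith
    have e2 : jn W (θ j - ζ j, af W (a j) 1 (θ j) + L2 j • x j) - κ j =
        jn W (θ j - tE W (κ j) - ζ j, (af W (a j) 1 (θ j) - af W (a j) 1 (tE W (κ j)))
          - (wG W (κ j) - af W (a j) 1 (tE W (κ j))) + L2 j • x j) := by
      rw [sub_eq_iff_eq_add]
      nth_rewrite 5 [← jn_sp W (κ j)]
      rw [← jn_add]
      refine congrArg _ (Prod.ext ?_ ?_)
      · simp only [Prod.fst_add, sp]; abel
      · simp only [Prod.snd_add, sp]; abel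
    rw [e2, div_le_iff₀ p1]
    refine (jn_norm W _).trans ?_
    simp only
    have e3 : ‖θ j - tE W (κ j) - ζ j‖ ≤ 8 * e j * g.b j 1 +
        e j * ((1 + 8 * e j) * A j 1 (2 * e j * g.b j 0)) :=
      (norm_sub_le _ _).trans (add_le_add h2 (h9.trans (by gcongr)))
    have e4 : ‖(af W (a j) 1 (θ j) - af W (a j) 1 (tE W (κ j)))
          - (wG W (κ j) - af W (a j) 1 (tE W (κ j))) + L2 j • x j‖ ≤
        12 * e j * g.b j 1 + ‖wG W (κ j) - af W (a j) 1 (tE W (κ j))‖ +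
          (1 + 8 * e j) * A j 1 (2 * e j * g.b j 0) :=
      (norm_add_le _ _).trans (add_le_add ((norm_sub_le _ _).trans (add_le_add hlip2 le_rfl)) hLx)
    refine (add_le_add e3 e4).trans (le_of_eq ?_)
    field_simp
    ring
  have hμ : Tendsto (fun j => 1 + 8 * e j) UF (𝓝 1) := by
    simpa using (he.const_mul 8).const_add 1
  refine ⟨fun j => z j + jn W (s0 j),
    fun j => jn W (θ j - ζ j, af W (a j) 1 (θ j) + L2 j • x j), fun j => jn W (θ j, 0),
    fun j => 1 + 8 * e j, ?_, ?_, hκ, hμ, ?_, ?_, ⟨e, her, he, ?_, ?_⟩, ?_⟩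
  · refine squeeze_zero' (Eventually.of_forall fun j => by have := hpos j 0; positivity) ?_ he
    filter_upwards [hfact] with j hj
    have p0 := hpos j 0
    rw [add_sub_cancel_left, div_le_iff₀ p0]
    exact (sup_le_nr _).trans hj.1
  · have h8 : Tendsto (fun j => 8 * e j) UF (𝓝 0) := by simpa using he.const_mul 8
    refine squeeze_zero' (Eventually.of_forall fun j => by have := hpos j 1; positivity) ?_ h8
    filter_upwards [hfact] with j hj
    have p1 := hpos j 1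
    have e1 : tp W (jn W (θ j, 0) - κ j) = jn W (θ j - tE W (κ j), 0) := by
      rw [← jn_sub, jn_tE]
      funext i
      by_cases h : i ∈ W <;> simp [jn, tp, h]
    rw [div_le_iff₀ p1, e1]
    exact (jn_norm_le W _).trans hj.2.1
  · filter_upwards [hfact] with j hj
    obtain ⟨-, -, h3, h4, -, hL2, -, -, -⟩ := hj
    rw [h4, h3, wp_jn, ← hL2]
    have e1 : a j 1 (jn W (θ j, 0)) = jn W (0, af W (a j) 1 (θ j)) := by
      unfold af
      rw [jn_wG, (af_eq hL j 1 _).2]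
    rw [e1]
    funext i
    by_cases h : i ∈ W <;> simp [jn, h]
  · intro ε hε
    have h1 : Tendsto (fun j => e j * (1 + 8 * e j)) UF (𝓝 0) := by simpa using he.mul hμ
    filter_upwards [hfact, h1.eventually (gt_mem_nhds hε)] with j hj h1
    obtain ⟨-, -, -, h4, -, -, h6, -, h9⟩ := hj
    have e1 : tp W (jn W (θ j - ζ j, af W (a j) 1 (θ j) + L2 j • x j) - jn W (θ j, 0)) =
        jn W (0 - ζ j, 0) := by
      funext i
      by_cases h : i ∈ W <;> simp [jn, tp, h]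
    rw [e1, h4]
    refine (jn_norm_le W _).trans ?_
    rw [zero_sub, norm_neg]
    refine h9.trans ?_
    rw [h6, ← mul_assoc]
    have := slp_nn hA j (norm_nonneg (x j))
    gcongr
  · filter_upwards [hfact] with j hj
    rw [hj.2.2.2.1]
    exact hj.2.2.2.2.1
  · intro ε hε
    have h1 : Tendsto (fun j => (1 + 4 * e j) * (1 + 8 * e j)) UF (𝓝 1) := by
      have h3 : Tendsto (fun j => 1 + 4 * e j) UF (𝓝 1) := by
        simpa using (he.const_mul 4).const_add 1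
      simpa using h3.mul hμ
    filter_upwards [hfact, hev, h1.eventually (gt_mem_nhds (show (1 : ℝ) < 1 + ε by linarith))]
      with j hj hv h1 s hs
    obtain ⟨-, -, -, h4, -, hL2, -, -, -⟩ := hj
    obtain ⟨-, -, -, -, -, -, -, hgr, -⟩ := hv
    have hs2 : nsq (sp W s) ≤ (e j * g.b j 0) ^ 2 := by
      rw [nsq_sp]
      have e1 : Nn s = nr s ^ 2 := (Real.sq_sqrt (Nn_nn s)).symm
      rw [e1]
      have := nr_nn s
      gcongr
    have h2 := hgr (sp W s) hs2
    rw [jn_add, jn_add, jn_sp, jn_sp] at h2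
    have e2 : ipr (sp W s) (θ j - ζ j, af W (a j) 1 (θ j) + L2 j • x j) =
        (hp s (jn W (θ j - ζ j, af W (a j) 1 (θ j) + L2 j • x j))).re := by
      rw [← ipr_sp W, sp_jn]
    rw [e2, nsq_sp] at h2
    refine h2.trans ?_
    rw [h4]
    refine mul_le_mul_of_nonneg_left (Real.exp_le_exp.2 (add_le_add le_rfl ?_)) (norm_nonneg _)
    rw [hL2]
    have hsn := slp_nn hA j (norm_nonneg (x j))
    have hN := Nn_nn s
    have : (1 + 4 * e j) / 2 * ((1 + 8 * e j) * slp A j ‖x j‖) * Nn s =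
        ((1 + 4 * e j) * (1 + 8 * e j)) / 2 * slp A j ‖x j‖ * Nn s := by ring
    rw [this]
    gcongr
  · intro ε hε
    set ε' : ℝ := min ε (1 / 4) / 2 with hε'
    have hε'0 : 0 < ε' := by
      rw [hε']; have : 0 < min ε (1 / 4) := lt_min hε (by norm_num); positivity
    have hlim : Tendsto (fun j => max 0 (1 / 4 - ε) * ((1 + 2 * e j) *
        (1 + 2 * ((n : ℝ) + 1) * (‖jn W (θ j - ζ j, af W (a j) 1 (θ j) + L2 j • x j) - κ j‖ /
          g.b j 1))) + 16 * e j) UF (𝓝 (max 0 (1 / 4 - ε))) := by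
      have h1 : Tendsto (fun j => 1 + 2 * e j) UF (𝓝 1) := by
        simpa using (he.const_mul 2).const_add 1
      have h2 := (hκ.const_mul (2 * ((n : ℝ) + 1))).const_add 1
      have h3 := ((h1.mul h2).const_mul (max 0 (1 / 4 - ε))).add (he.const_mul 16)
      simpa using h3
    have hlt : max 0 (1 / 4 - ε) < 1 / 4 - ε' := by
      rw [hε']
      rcases le_total ε (1 / 4) with h | h
      · rw [min_eq_left h]
        refine max_lt (by linarith) (by linarith)
      · rw [min_eq_right h]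
        refine max_lt (by norm_num) (by linarith)
    filter_upwards [hfact, hev, hlim.eventually (gt_mem_nhds hlt), hcon.low ε' hε'0, hcon.zb,
      hcon.kb] with j hj hv hl hlow hzb hkb
    obtain ⟨h1, -, -, -, -, -, -, -, -⟩ := hj
    obtain ⟨-, -, -, -, -, -, -, -, hF0⟩ := hv
    have p0 := hpos j 0
    have p1 := hpos j 1
    have pe := he0 j
    have hz0 := nr_nn (z j)
    have hk0 := nr_nn (κ j)
    rw [jn_add, jn_sp] at hF0
    set κ' := jn W (θ j - ζ j, af W (a j) 1 (θ j) + L2 j • x j) with hκ'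
    have hy : nr (z j + jn W (s0 j)) ≤ (1 + 2 * e j) * nr (z j) := by
      refine (nr_add_le' _ _).trans ?_
      nlinarith
    have hk : nr κ' ≤ (1 + 2 * ((n : ℝ) + 1) * (‖κ' - κ j‖ / g.b j 1)) * nr (κ j) := by
      have e1 : κ' = κ j + (κ' - κ j) := by abel
      calc nr κ' = nr (κ j + (κ' - κ j)) := by rw [← e1]
        _ ≤ nr (κ j) + nr (κ' - κ j) := nr_add_le' _ _
        _ ≤ nr (κ j) + (n + 1) * ‖κ' - κ j‖ := by gcongr; exact nr_le_sup _
        _ = nr (κ j) + (n + 1) * (‖κ' - κ j‖ / g.b j 1) * g.b j 1 := by field_simp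
        _ ≤ nr (κ j) + (n + 1) * (‖κ' - κ j‖ / g.b j 1) * (2 * nr (κ j)) := by gcongr
        _ = _ := by ring
    have hexp : 2 * e j * (g.b j 0 * (‖(sp W (κ j)).1‖ + ‖(sp W (κ j)).2‖) + g.b j 0 * g.b j 1) ≤
        16 * e j * (nr (z j) * nr (κ j)) := by
      have e1 : ‖(sp W (κ j)).1‖ ≤ nr (κ j) := tE_le W _
      have e2 : ‖(sp W (κ j)).2‖ ≤ nr (κ j) := wG_le W _
      have e3 : g.b j 0 * (‖(sp W (κ j)).1‖ + ‖(sp W (κ j)).2‖) ≤
          (2 * nr (z j)) * (nr (κ j) + nr (κ j)) := by gcongr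
      have e4 : g.b j 0 * g.b j 1 ≤ (2 * nr (z j)) * (2 * nr (κ j)) := by gcongr
      calc _ ≤ 2 * e j * ((2 * nr (z j)) * (nr (κ j) + nr (κ j)) +
            (2 * nr (z j)) * (2 * nr (κ j))) := by gcongr
        _ = _ := by ring
    have hFy : Real.exp ((1 / 4 - ε' - 16 * e j) * (nr (z j) * nr (κ j))) ≤
        ‖F j (z j + jn W (s0 j))‖ := by
      have e1 : Real.exp ((1 / 4 - ε') * (nr (z j) * nr (κ j))) ≤
          ‖F j (z j + jn W (s0 j))‖ * Real.exp (16 * e j * (nr (z j) * nr (κ j))) :=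
        hlow.trans (hF0.trans (by gcongr))
      have e2 : (1 / 4 - ε' - 16 * e j) * (nr (z j) * nr (κ j)) =
          (1 / 4 - ε') * (nr (z j) * nr (κ j)) - 16 * e j * (nr (z j) * nr (κ j)) := by ring
      rw [e2, Real.exp_sub, div_le_iff₀ (Real.exp_pos _)]
      exact e1
    refine le_trans (Real.exp_le_exp.2 ?_) hFy
    have hprod : nr (z j + jn W (s0 j)) * nr κ' ≤
        ((1 + 2 * e j) * (1 + 2 * ((n : ℝ) + 1) * (‖κ' - κ j‖ / g.b j 1))) *
          (nr (z j) * nr (κ j)) := by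
      have := nr_nn κ'
      calc _ ≤ ((1 + 2 * e j) * nr (z j)) *
            ((1 + 2 * ((n : ℝ) + 1) * (‖κ' - κ j‖ / g.b j 1)) * nr (κ j)) := by gcongr
        _ = _ := by ring
    have hM : 0 ≤ max 0 (1 / 4 - ε) := le_max_left _ _
    have hN : 0 ≤ nr (z j + jn W (s0 j)) * nr κ' := mul_nonneg (nr_nn _) (nr_nn _)
    calc (1 / 4 - ε) * (nr (z j + jn W (s0 j)) * nr κ')
        ≤ max 0 (1 / 4 - ε) * (nr (z j + jn W (s0 j)) * nr κ') := by
          gcongr
          exact le_max_right _ _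
      _ ≤ max 0 (1 / 4 - ε) * (((1 + 2 * e j) *
            (1 + 2 * ((n : ℝ) + 1) * (‖κ' - κ j‖ / g.b j 1))) * (nr (z j) * nr (κ j))) := by
          gcongr
      _ = (max 0 (1 / 4 - ε) * ((1 + 2 * e j) *
            (1 + 2 * ((n : ℝ) + 1) * (‖κ' - κ j‖ / g.b j 1)))) * (nr (z j) * nr (κ j)) := by ring
      _ ≤ (1 / 4 - ε' - 16 * e j) * (nr (z j) * nr (κ j)) := by
          gcongr
          linarith

end Pool.Agent.H51.BJ
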