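import Pool.Agent.H51.BJ.LDef

/-! # [H51 BJ] The output of the contact step as a structure -/

set_option autoImplicit false

open MvPolynomial Filter Pool.Agent.H60 Pool.Agent.H57.BJ
open scoped Topology

noncomputable section

namespace Pool.Agent.H51.BJ

variable {n : ℕ}

/-- the vector from the leaf to the new point -/
def xx (W : Finset (Fin n)) (a : ℕ → II → V n → V n) (y : ℕ → V n) (j : ℕ) : V n :=
  wp W (y j) - a j 0 (y j)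

/-- the output of the contact step: new points `y`, `κ'` -/
structure Ctc (F : ℕ → V n → ℂ) (W : Finset (Fin n)) (g : Germ n) (z κ : ℕ → V n)
    (a : ℕ → II → V n → V n) (A : ℕ → II → ℝ → ℝ) (y κ' θ : ℕ → V n) (μ δ : ℕ → ℝ) : Prop where
  yz : Tendsto (fun j => ‖y j - z j‖ / g.b j 0) UF (𝓝 0)
  th : Tendsto (fun j => ‖tp W (θ j - κ j)‖ / g.b j 1) UF (𝓝 0)
  kk : Tendsto (fun j => ‖κ' j - κ j‖ / g.b j 1) UF (𝓝 0)
  mu : Tendsto μ UF (𝓝 1)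
  kw : ∀ᶠ j in UF, wp W (κ' j) = a j 1 (θ j) +
    ((μ j * slp A j (nr (xx W a y j)) : ℝ) : ℂ) • xx W a y j
  kt : ∀ ε : ℝ, 0 < ε → ∀ᶠ j in UF, ‖tp W (κ' j - θ j)‖ ≤
    ε * (slp A j (nr (xx W a y j)) * nr (xx W a y j))
  dinf : Tendsto (fun j => δ j * g.b j 0) UF atTop
  d0 : Tendsto δ UF (𝓝 0)
  dx : ∀ᶠ j in UF, nr (xx W a y j) ≤ 2 * δ j * g.b j 0
  up : ∀ ε : ℝ, 0 < ε → ∀ᶠ j in UF, ∀ s : V n, nr s ≤ δ j * g.b j 0 →
    ‖F j (y j + s)‖ ≤ ‖F j (y j)‖ * Real.exp ((hp s (κ' j)).re +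
      (1 + ε) / 2 * slp A j (nr (xx W a y j)) * Nn s)
  low : ∀ ε : ℝ, 0 < ε → ∀ᶠ j in UF,
    Real.exp ((1 / 4 - ε) * (nr (y j) * nr (κ' j))) ≤ ‖F j (y j)‖

end Pool.Agent.H51.BJ
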