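import Pool.Agent.H51.BJ.NUA

/-! # [H51 BJ NUB] Derivatives of never resolved polynomials

`ini_deriv`: for `D ≥ D0` let `B` be the limit of `f` at `σ_D`; the component of degree `μ - 1` of
`pderiv k B` is `t • pderiv k A ≠ 0` and the lower ones vanish. `HasLim.deriv` gives the limit
`C (nm (pderiv k B))⁻¹ * pderiv k B` of `pderiv k f`. As `μ - 1 ≥ 1` its constant coefficient is `0`,
so `pderiv k f` is not resolved at `σ_D` for `D ≥ D0`, hence at no `D` (`chain_res`).

`mem_LN`: induction on `μ`. `μ = 1`: `A = lf ℓ` with `ℓ i = coeff (single i 1) A`. `μ ≥ 2`: `m` has degree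
`μ ≥ 2` and `m i ≠ 0`; take `k = i` if `m i ≥ 2`, otherwise some `k ≠ i` with `m k ≠ 0`; the
coefficient of `pderiv k A` at `m - single k 1` is `m k * coeff m A ≠ 0`, and `(m - single k 1) i ≠ 0`.

`ini_supported`: if a variable `i ∉ W` occurred in `A` then `mem_LN` would give `ℓ ∈ LN σ` with `ℓ i ≠ 0`.

`ct_not_us`: for `f` in the variables outside `W` the initial form `A` (homogeneous of degree
`μ ≥ 1`, nonzero) would be in `supported W` by `ini_supported`, and in `supported Wᶜ` because all limits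
are (`HasLim.supported`): then `A` is constant, a contradiction. -/

set_option autoImplicit false

open MvPolynomial Filter Pool.Agent.H60 Pool.Agent.H57.BJ
open scoped Topology

noncomputable section

namespace Pool.Agent.H51.BJ

variable {n : ℕ} {F : ℕ → V n → ℂ} {P f A : MvPolynomial (Fin n) ℂ} {σ : ℕ → SS F} {μ : ℕ}
  {W : Finset (Fin n)}

theorem ini_deriv (hc : Chain F P σ) (hf : US σ f) (h : Ini σ f μ A) (hμ : 2 ≤ μ) (k : Fin n)
    (hk : pderiv k A ≠ 0) : US σ (pderiv k f) ∧ Ini σ (pderiv k f) (μ - 1) (pderiv k A) := by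
  classical
  obtain ⟨hhom, hA, D0, hD0⟩ := h
  have hdeg : ∀ m : Fin n →₀ ℕ, (m + Finsupp.single k 1).degree = m.degree + 1 := by
    intro m
    rw [map_add, Finsupp.degree_single]
  have hhom' : (pderiv k A).IsHomogeneous (μ - 1) := hhom.pderiv
  obtain ⟨m1, hm1⟩ := MvPolynomial.ne_zero_iff.mp hk
  have hm1d : m1.degree = μ - 1 := by
    by_contra hne
    exact hm1 (hhom'.coeff_eq_zero hne)
  have key : ∀ D, D0 ≤ D → ∃ (B' : MvPolynomial (Fin n) ℂ) (t : ℝ),
      HasLim (σ D).g (pderiv k f) B' ∧ pderiv k f ≠ 0 ∧ 0 < t ∧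
      (∀ m : Fin n →₀ ℕ, m.degree < μ - 1 → B'.coeff m = 0) ∧
      ∀ m : Fin n →₀ ℕ, m.degree = μ - 1 → B'.coeff m = t * (pderiv k A).coeff m := by
    intro D hD
    obtain ⟨B, t, hB, ht, h1, h2⟩ := hD0 D hD
    have e1 : ∀ m : Fin n →₀ ℕ, m.degree < μ - 1 → (pderiv k B).coeff m = 0 := by
      intro m hm
      rw [coeff_pderiv, h1 _ (by rw [hdeg]; omega), zero_mul]
    have e2 : ∀ m : Fin n →₀ ℕ, m.degree = μ - 1 → (pderiv k B).coeff m = t * (pderiv k A).coeff m := by
      intro m hm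
      rw [coeff_pderiv, h2 _ (by rw [hdeg]; omega), coeff_pderiv, mul_assoc]
    have hBne : pderiv k B ≠ 0 := by
      intro h
      have h3 := e2 m1 hm1d
      rw [h, coeff_zero] at h3
      have ht' : (t : ℂ) ≠ 0 := by exact_mod_cast ht.ne'
      exact (mul_ne_zero ht' hm1) h3.symm
    obtain ⟨h3, h4, -⟩ := HasLim.deriv (σ D).st.ok.pos k hB hBne
    have hn := nm_pos hBne
    refine ⟨_, (BJ.nm (pderiv k B))⁻¹ * t, h4, h3, mul_pos (inv_pos.mpr hn) ht, fun m hm => ?_, fun m hm => ?_⟩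
    · rw [coeff_C_mul, e1 m hm, mul_zero]
    · rw [coeff_C_mul, e2 m hm]
      push_cast
      ring
  have hne : pderiv k f ≠ 0 := (key D0 le_rfl).choose_spec.choose_spec.2.1
  refine ⟨⟨hne, fun D hres => ?_⟩, hhom', hk, D0, fun D hD => ?_⟩
  · have h1 := chain_res hc (le_max_left D D0) hne hres
    obtain ⟨B', t, h2, -, -, h3, -⟩ := key (max D D0) (le_max_right D D0)
    rw [res_iff h2] at h1
    apply h1
    apply h3
    rw [map_zero]
    omega
  · obtain ⟨B', t, h2, -, h4, h5, h6⟩ := key D hD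
    exact ⟨B', t, h2, h4, h5, h6⟩

private theorem deg_one {m : Fin n →₀ ℕ} (hm : m.degree = 1) {i : Fin n} (hi : m i ≠ 0) :
    m = Finsupp.single i 1 := by
  classical
  have h1 : m.degree = ∑ j, m j := Finsupp.degree_eq_sum m
  rw [hm, ← Finset.add_sum_erase _ _ (Finset.mem_univ i)] at h1
  ext j
  by_cases hj : j = i
  · subst hj
    rw [Finsupp.single_eq_same]
    omega
  · rw [Finsupp.single_eq_of_ne hj]
    have h2 : m j ≤ ∑ j ∈ Finset.univ.erase i, m j :=
      Finset.single_le_sum (fun _ _ => Nat.zero_le _) (Finset.mem_erase.mpr ⟨hj, Finset.mem_univ j⟩)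
    omega

private theorem lf_coeff (ℓ : V n) (m : Fin n →₀ ℕ) :
    (lf ℓ).coeff m = ∑ j, if Finsupp.single j 1 = m then ℓ j else 0 := by
  classical
  unfold lf
  rw [coeff_sum]
  refine Finset.sum_congr rfl fun j _ => ?_
  rw [coeff_C_mul, coeff_X']
  by_cases h : Finsupp.single j 1 = m
  · rw [if_pos h, if_pos h, mul_one]
  · rw [if_neg h, if_neg h, mul_zero]

private theorem lf_eq (A : MvPolynomial (Fin n) ℂ) (hA : A.IsHomogeneous 1) :
    lf (fun j => A.coeff (Finsupp.single j 1)) = A := by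
  classical
  refine MvPolynomial.ext _ _ fun m => ?_
  rw [lf_coeff]
  by_cases hm : m.degree = 1
  · obtain ⟨i, hi⟩ : ∃ i, m i ≠ 0 := by
      by_contra hne
      push Not at hne
      have : m = 0 := by
        ext i
        exact hne i
      rw [this, map_zero] at hm
      omega
    have h1 := deg_one hm hi
    rw [Finset.sum_eq_single i]
    · rw [h1, if_pos rfl]
    · intro j _ hj
      rw [if_neg]
      rw [h1]
      intro h2
      exact hj (Finsupp.single_left_injective one_ne_zero h2)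
    · intro h2
      exact absurd (Finset.mem_univ i) h2
  · rw [hA.coeff_eq_zero hm]
    refine Finset.sum_eq_zero fun j _ => ?_
    rw [if_neg]
    rintro rfl
    rw [Finsupp.degree_single] at hm
    exact hm rfl

theorem mem_LN (hc : Chain F P σ) (hμ : 1 ≤ μ) (hf : US σ f) (h : Ini σ f μ A)
    {m : Fin n →₀ ℕ} (hm : A.coeff m ≠ 0) {i : Fin n} (hi : m i ≠ 0) :
    ∃ ℓ ∈ LN σ, ℓ i ≠ 0 := by
  classical
  obtain ⟨ν, rfl⟩ : ∃ ν, μ = ν + 1 := ⟨μ - 1, by omega⟩
  clear hμ
  induction ν generalizing f A m with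
  | zero =>
    rw [zero_add] at h
    have hmd : m.degree = 1 := by
      by_contra hne
      exact hm (h.1.coeff_eq_zero hne)
    refine ⟨fun j => A.coeff (Finsupp.single j 1), ⟨f, hf, ?_⟩, ?_⟩
    · rw [lf_eq A h.1]
      exact h
    · show A.coeff (Finsupp.single i 1) ≠ 0
      rw [← deg_one hmd hi]
      exact hm
  | succ ν ih =>
    have hmd : m.degree = ν + 1 + 1 := by
      by_contra hne
      exact hm (h.1.coeff_eq_zero hne)
    have hk : ∃ k, m k ≠ 0 ∧ (m - Finsupp.single k 1 : Fin n →₀ ℕ) i ≠ 0 := by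
      by_cases h2 : 2 ≤ m i
      · refine ⟨i, hi, ?_⟩
        rw [Finsupp.tsub_apply, Finsupp.single_eq_same]
        omega
      · by_contra hne
        push Not at hne
        have h3 : ∀ k, k ≠ i → m k = 0 := by
          intro k hki
          by_contra h4
          have h5 := hne k h4
          rw [Finsupp.tsub_apply, Finsupp.single_eq_of_ne (Ne.symm hki)] at h5
          exact hi (by omega)
        have h4 : m.degree = m i := by
          rw [Finsupp.degree_eq_sum, Finset.sum_eq_single i (fun k _ hk => h3 k hk)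
            (fun h => absurd (Finset.mem_univ i) h)]
        omega
    obtain ⟨k, hk1, hk2⟩ := hk
    have e1 : m - Finsupp.single k 1 + Finsupp.single k 1 = m := by
      refine tsub_add_cancel_of_le ?_
      rw [Finsupp.single_le_iff]
      omega
    have hcf : (pderiv k A).coeff (m - Finsupp.single k 1) ≠ 0 := by
      rw [coeff_pderiv, e1]
      exact mul_ne_zero hm (Nat.cast_add_one_ne_zero _)
    have hpk : pderiv k A ≠ 0 := by
      intro h3
      rw [h3, coeff_zero] at hcf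
      exact hcf rfl
    obtain ⟨h3, h4⟩ := ini_deriv hc hf h (by omega) k hpk
    rw [Nat.add_sub_cancel] at h4
    exact ih h3 hcf hk2 h4

theorem ini_supported (hc : Chain F P σ) (hsub : ∀ ℓ ∈ LN σ, ∀ i, i ∉ W → ℓ i = 0)
    (hμ : 1 ≤ μ) (hf : US σ f) (h : Ini σ f μ A) :
    A ∈ MvPolynomial.supported ℂ (W : Set (Fin n)) := by
  rw [mem_supported]
  intro i hi
  rw [Finset.mem_coe, mem_vars] at hi
  obtain ⟨m, hm, him⟩ := hi
  obtain ⟨ℓ, hℓ, hℓi⟩ := mem_LN hc hμ hf h (mem_support_iff.mp hm) (Finsupp.mem_support_iff.mp him)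
  by_contra hiW
  exact hℓi (hsub ℓ hℓ i (fun h => hiW (Finset.mem_coe.mpr h)))

theorem ini_supported' (hc : Chain F P σ) {S : Set (Fin n)}
    (hS : f ∈ MvPolynomial.supported ℂ S) (h : Ini σ f μ A) :
    A ∈ MvPolynomial.supported ℂ S := by
  obtain ⟨hhom, hA, D0, hD0⟩ := h
  obtain ⟨B, t, hB, ht, h1, h2⟩ := hD0 D0 le_rfl
  have h3 := HasLim.supported hS hB
  rw [mem_supported] at h3 ⊢
  intro i hi
  apply h3
  rw [Finset.mem_coe, mem_vars] at hi ⊢
  obtain ⟨m, hm, him⟩ := hi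
  refine ⟨m, ?_, him⟩
  rw [mem_support_iff] at hm ⊢
  have hmd : m.degree = μ := by
    by_contra hne
    exact hm (hhom.coeff_eq_zero hne)
  rw [h2 m hmd]
  have ht' : (t : ℂ) ≠ 0 := by exact_mod_cast ht.ne'
  exact mul_ne_zero ht' hm

theorem ct_not_us (hc : Chain F P σ) (hsub : ∀ ℓ ∈ LN σ, ∀ i, i ∉ W → ℓ i = 0)
    (hf : CT W f) : ¬ US σ f := by
  intro hu
  obtain ⟨μ, A, hμ, h⟩ := ini_of_us hc hu
  have h1 := ini_supported hc hsub hμ hu h
  have h2 := ini_supported' hc hf.2 h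
  rw [mem_supported] at h1 h2
  obtain ⟨m, hm⟩ := MvPolynomial.ne_zero_iff.mp h.2.1
  have hmd : m.degree = μ := by
    by_contra hne
    exact hm (h.1.coeff_eq_zero hne)
  have hm0 : m ≠ 0 := by
    rintro rfl
    rw [map_zero] at hmd
    omega
  obtain ⟨i, hi⟩ := Finsupp.support_nonempty_iff.mpr hm0
  have hiv : i ∈ A.vars := (mem_vars i).mpr ⟨m, mem_support_iff.mpr hm, hi⟩
  exact (h2 (Finset.mem_coe.mpr hiv)) (h1 (Finset.mem_coe.mpr hiv))

/-- there is a nonzero element of `LN σ` (from `P` itself) -/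
theorem LN_ne (hc : Chain F P σ) (hP : P ≠ 0) : ∃ ℓ ∈ LN σ, ℓ ≠ 0 := by
  have hu : US σ P := ⟨hP, hc.unr⟩
  obtain ⟨μ, A, hμ, h⟩ := ini_of_us hc hu
  obtain ⟨m, hm⟩ := MvPolynomial.ne_zero_iff.mp h.2.1
  have hmd : m.degree = μ := by
    by_contra hne
    exact hm (h.1.coeff_eq_zero hne)
  have hm0 : m ≠ 0 := by
    rintro rfl
    rw [map_zero] at hmd
    omega
  obtain ⟨i, hi⟩ := Finsupp.support_nonempty_iff.mpr hm0
  obtain ⟨ℓ, hℓ, hℓi⟩ := mem_LN hc hμ hu h hm (Finsupp.mem_support_iff.mp hi)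
  refine ⟨ℓ, hℓ, ?_⟩
  rintro rfl
  exact hℓi rfl

end Pool.Agent.H51.BJ
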