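import Pool.Agent.H51.BJ.SAT
import Pool.Agent.H51.BJ.NUB

/-! # [H51 BJ DGA] Diagonal choices along a chain

A diagonal choice is `x : ℕ → ℕ × ℕ`, `x j = (m, M)`: at the index `j` take the data of the state `σ_m`,
with the radius divided by `M + 1`. `Diag prop`: the property `prop x` follows from countably many
conditions, each of which holds (for `UF`-many `j`) for the constant choices `(m, M)` for all large
`m` and then all large `M`.

`Diag.mk_ev`: one condition. `Diag.mono`, `Diag.and`, `Diag.all` (countable union of the sets of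
conditions). `Diag.exists`: `saturation` with the constant choices: for finitely many conditions take
`m` larger than all `m0`, then `M` larger than all `M0 (m)`.
`Diag.tendsto`: convergence to a real or complex number is the conjunction over `k` of
`‖f - a‖ ≤ 1/(k+1)`. -/

set_option autoImplicit false

open MvPolynomial Filter Pool.Agent.H60 Pool.Agent.H57.BJ
open scoped Topology

noncomputable section

namespace Pool.Agent.H51.BJ

variable {n : ℕ} {F : ℕ → V n → ℂ}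

/-- the diagonal germ -/
def dg (σ : ℕ → SS F) (x : ℕ → ℕ × ℕ) : Germ n :=
  ⟨fun j l => (σ (x j).1).g.c j l, fun j l => (σ (x j).1).g.b j l / ((x j).2 + 1)⟩

/-- the diagonal points -/
def dz (σ : ℕ → SS F) (x : ℕ → ℕ × ℕ) (j : ℕ) : V n := (σ (x j).1).z j

/-- the diagonal slopes -/
def dk (σ : ℕ → SS F) (x : ℕ → ℕ × ℕ) (j : ℕ) : V n := (σ (x j).1).κ j

/-- properties which follow from countably many eventual conditions -/
def Diag (prop : (ℕ → ℕ × ℕ) → Prop) : Prop :=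
  ∃ S : Set (ℕ → ℕ × ℕ → Prop), S.Countable ∧
    (∀ p ∈ S, ∃ m0, ∀ m, m0 ≤ m → ∃ M0, ∀ M, M0 ≤ M → ∀ᶠ j in UF, p j (m, M)) ∧
    ∀ x : ℕ → ℕ × ℕ, (∀ p ∈ S, ∀ᶠ j in UF, p j (x j)) → prop x

theorem Diag.mk_ev (p : ℕ → ℕ × ℕ → Prop)
    (h : ∃ m0, ∀ m, m0 ≤ m → ∃ M0, ∀ M, M0 ≤ M → ∀ᶠ j in UF, p j (m, M)) :
    Diag (fun x => ∀ᶠ j in UF, p j (x j)) := by
  refine ⟨{p}, Set.countable_singleton p, ?_, ?_⟩
  · intro p' hp'
    rw [Set.mem_singleton_iff] at hp'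
    rw [hp']
    exact h
  · intro x hx
    exact hx p rfl

theorem Diag.mono {p q : (ℕ → ℕ × ℕ) → Prop} (hp : Diag p) (h : ∀ x, p x → q x) : Diag q := by
  obtain ⟨S, h1, h2, h3⟩ := hp
  exact ⟨S, h1, h2, fun x hx => h x (h3 x hx)⟩

theorem Diag.and {p q : (ℕ → ℕ × ℕ) → Prop} (hp : Diag p) (hq : Diag q) :
    Diag (fun x => p x ∧ q x) := by
  obtain ⟨S, h1, h2, h3⟩ := hp
  obtain ⟨T, k1, k2, k3⟩ := hq
  refine ⟨S ∪ T, h1.union k1, ?_, ?_⟩
  · intro r hr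
    rcases hr with hr | hr
    · exact h2 r hr
    · exact k2 r hr
  · intro x hx
    exact ⟨h3 x fun r hr => hx r (Or.inl hr), k3 x fun r hr => hx r (Or.inr hr)⟩

theorem Diag.all {ι : Type*} [Countable ι] {p : ι → (ℕ → ℕ × ℕ) → Prop} (hp : ∀ i, Diag (p i)) :
    Diag (fun x => ∀ i, p i x) := by
  choose S h1 h2 h3 using hp
  refine ⟨⋃ i, S i, Set.countable_iUnion h1, ?_, ?_⟩
  · intro r hr
    rw [Set.mem_iUnion] at hr
    obtain ⟨i, hi⟩ := hr
    exact h2 i r hi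
  · intro x hx i
    exact h3 i x fun r hr => hx r (Set.mem_iUnion.mpr ⟨i, hr⟩)

theorem Diag.exists {p : (ℕ → ℕ × ℕ) → Prop} (hp : Diag p) : ∃ x, p x := by
  classical
  obtain ⟨S, h1, h2, h3⟩ := hp
  obtain ⟨x, hx⟩ := saturation S h1 (by
    intro s hs
    have k1 : ∀ r : ℕ → ℕ × ℕ → Prop, ∃ m0, r ∈ s → ∀ m, m0 ≤ m → ∃ M0, ∀ M, M0 ≤ M →
        ∀ᶠ j in UF, r j (m, M) := by
      intro r
      by_cases hr : r ∈ s
      · obtain ⟨m0, hm0⟩ := h2 r (hs hr)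
        exact ⟨m0, fun _ => hm0⟩
      · exact ⟨0, fun hr' => absurd hr' hr⟩
    choose m0 hm0 using k1
    obtain ⟨m, hm⟩ := Finset.exists_le (s.image m0)
    have k2 : ∀ r : ℕ → ℕ × ℕ → Prop, ∃ M0, r ∈ s → ∀ M, M0 ≤ M →
        ∀ᶠ j in UF, r j (m, M) := by
      intro r
      by_cases hr : r ∈ s
      · obtain ⟨M0, hM0⟩ := hm0 r hr m (hm _ (Finset.mem_image_of_mem m0 hr))
        exact ⟨M0, fun _ => hM0⟩
      · exact ⟨0, fun hr' => absurd hr' hr⟩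
    choose M0 hM0 using k2
    obtain ⟨M, hM⟩ := Finset.exists_le (s.image M0)
    exact ⟨fun _ => (m, M), fun r hr => hM0 r hr M (hM _ (Finset.mem_image_of_mem M0 hr))⟩)
  exact ⟨x, h3 x hx⟩

/-- convergence of `f j (x j) l` to `a`, uniformly in `l` -/
theorem Diag.tendsto {E : Type*} [NormedAddCommGroup E] {X : Type*} (f : ℕ → ℕ × ℕ → X → E) (a : E)
    (h : ∀ ε : ℝ, 0 < ε → ∃ m0, ∀ m, m0 ≤ m → ∃ M0, ∀ M, M0 ≤ M →
      ∀ᶠ j in UF, ∀ l, ‖f j (m, M) l - a‖ ≤ ε) :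
    Diag (fun x => Tendsto (fun q : ℕ × X => f q.1 (x q.1) q.2) (LX X) (𝓝 a)) := by
  have h1 : Diag (fun x => ∀ k : ℕ, ∀ᶠ j in UF, ∀ l, ‖f j (x j) l - a‖ ≤ 1 / ((k : ℝ) + 1)) := by
    refine Diag.all fun k => ?_
    exact Diag.mk_ev (fun j y => ∀ l, ‖f j y l - a‖ ≤ 1 / ((k : ℝ) + 1))
      (h _ Nat.one_div_pos_of_nat)
  refine h1.mono fun x hx => ?_
  rw [Metric.tendsto_nhds]
  intro ε hε
  obtain ⟨k, hk⟩ := exists_nat_one_div_lt hε
  rw [ev_LX]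
  filter_upwards [hx k] with j hj
  intro l
  rw [dist_eq_norm]
  exact (hj l).trans_lt hk

theorem Diag.tendsto_atTop {X : Type*} (f : ℕ → ℕ × ℕ → X → ℝ)
    (h : ∀ K : ℝ, ∃ m0, ∀ m, m0 ≤ m → ∃ M0, ∀ M, M0 ≤ M →
      ∀ᶠ j in UF, ∀ l, K ≤ f j (m, M) l) :
    Diag (fun x => Tendsto (fun q : ℕ × X => f q.1 (x q.1) q.2) (LX X) atTop) := by
  have h1 : Diag (fun x => ∀ k : ℕ, ∀ᶠ j in UF, ∀ l, (k : ℝ) ≤ f j (x j) l) := by
    refine Diag.all fun k => ?_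
    exact Diag.mk_ev (fun j y => ∀ l, (k : ℝ) ≤ f j y l) (h _)
  refine h1.mono fun x hx => ?_
  rw [Filter.tendsto_atTop]
  intro K
  obtain ⟨k, hk⟩ := exists_nat_ge K
  rw [ev_LX]
  filter_upwards [hx k] with j hj
  intro l
  exact hk.trans (hj l)

end Pool.Agent.H51.BJ
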