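import Pool.Agent.H51.BJ.DGA

/-! # [H51 BJ DGB] The diagonal germ: refinement, radius, contact conditions

All by `Diag.tendsto`, `Diag.tendsto_atTop`, `Diag.mk_ev`, `Diag.all`. For fixed `(m, M)`, `m ≥ D`:
`σ_m = σ_D` or it is a refinement of it (`chain_le`), so `‖c_m - c_D‖/b_D → 0` and
`b_m/(M+1)/b_D ≤ 2/(M+1)`. Radius: `b_m/(M+1) → ∞`. Contact: all conditions at `(m, M)` follow from
those of `σ_m`: `‖z_m - c_m(0)‖ (M+1)/b_m(0) → 0`, the radius in `up` is smaller, the ratio `b(1)/b(0)`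
is the same; the quantifiers `∀ ε` reduce to `ε = 1/(k+1)` (monotonicity in `ε`, `nr z ≥ 0`). -/

set_option autoImplicit false

open MvPolynomial Filter Pool.Agent.H60 Pool.Agent.H57.BJ
open scoped Topology

noncomputable section

namespace Pool.Agent.H51.BJ

variable {n : ℕ} {F : ℕ → V n → ℂ} {P : MvPolynomial (Fin n) ℂ} {σ : ℕ → SS F}

theorem diag_ref (hc : Chain F P σ) (D : ℕ) : Diag (fun x => Ref (dg σ x) (σ D).g) := by
  have h1 : Diag (fun x => Tendsto (fun q : ℕ × II =>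
      ‖(σ (x q.1).1).g.c q.1 q.2 - (σ D).g.c q.1 q.2‖ / (σ D).g.b q.1 q.2) (LX II) (𝓝 0)) := by
    refine Diag.tendsto (fun j y l => ‖(σ y.1).g.c j l - (σ D).g.c j l‖ / (σ D).g.b j l) 0 ?_
    intro ε hε
    refine ⟨D, fun m hm => ⟨0, fun M _ => ?_⟩⟩
    rcases chain_le hc hm with h | h
    · refine Filter.Eventually.of_forall fun j l => ?_
      rw [h, sub_self, norm_zero, zero_div, sub_zero, norm_zero]
      exact hε.le
    · have h2 : ∀ᶠ q : ℕ × II in LX II,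
          ‖(σ m).g.c q.1 q.2 - (σ D).g.c q.1 q.2‖ / (σ D).g.b q.1 q.2 < ε := h.1.eventually_lt_const hε
      rw [ev_LX] at h2
      filter_upwards [h2] with j hj l
      rw [sub_zero, Real.norm_eq_abs, abs_of_nonneg (div_nonneg (norm_nonneg _) ((σ D).st.ok.pos j l).le)]
      exact (hj l).le
  have h2 : Diag (fun x => Tendsto (fun q : ℕ × II =>
      (σ (x q.1).1).g.b q.1 q.2 / ((x q.1).2 + 1) / (σ D).g.b q.1 q.2) (LX II) (𝓝 0)) := by
    refine Diag.tendsto (fun j y l => (σ y.1).g.b j l / (y.2 + 1) / (σ D).g.b j l) 0 ?_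
    intro ε hε
    obtain ⟨M0, hM0⟩ := exists_nat_gt (1 / ε)
    refine ⟨D, fun m hm => ⟨M0, fun M hM => ?_⟩⟩
    have hMp : (0 : ℝ) < M + 1 := by positivity
    have hM1 : 1 / ((M : ℝ) + 1) ≤ ε := by
      rw [div_le_iff₀ hMp]
      have h3 : (M0 : ℝ) ≤ M := by exact_mod_cast hM
      rw [div_lt_iff₀ hε] at hM0
      nlinarith
    have hpos : ∀ j l, 0 ≤ (σ m).g.b j l / ((M : ℝ) + 1) / (σ D).g.b j l := fun j l =>
      div_nonneg (div_nonneg ((σ m).st.ok.pos j l).le hMp.le) ((σ D).st.ok.pos j l).le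
    rcases chain_le hc hm with h | h
    · refine Filter.Eventually.of_forall fun j l => ?_
      rw [sub_zero, Real.norm_eq_abs, abs_of_nonneg (hpos j l), h, div_right_comm,
        div_self ((σ D).st.ok.pos j l).ne']
      exact hM1
    · have h2 : ∀ᶠ q : ℕ × II in LX II,
          (σ m).g.b q.1 q.2 / (σ D).g.b q.1 q.2 < ε := h.2.eventually_lt_const hε
      rw [ev_LX] at h2
      filter_upwards [h2] with j hj l
      rw [sub_zero, Real.norm_eq_abs, abs_of_nonneg (hpos j l), div_right_comm]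
      have h4 : 0 ≤ (σ m).g.b j l / (σ D).g.b j l :=
        div_nonneg ((σ m).st.ok.pos j l).le ((σ D).st.ok.pos j l).le
      have h5 : (1 : ℝ) ≤ (M : ℝ) + 1 := by
        have : (0 : ℝ) ≤ M := Nat.cast_nonneg M
        linarith
      exact (div_le_self h4 h5).trans (hj l).le
  exact (h1.and h2).mono fun x hx => hx

theorem diag_top (hc : Chain F P σ) :
    Diag (fun x => Tendsto (fun q : ℕ × II => (dg σ x).b q.1 q.2) (LX II) atTop) := by
  refine Diag.tendsto_atTop (fun j y l => (σ y.1).g.b j l / (y.2 + 1)) ?_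
  intro K
  refine ⟨0, fun m _ => ⟨0, fun M _ => ?_⟩⟩
  have hMp : (0 : ℝ) < M + 1 := by positivity
  have h2 : ∀ᶠ q : ℕ × II in LX II, K * (M + 1) ≤ (σ m).g.b q.1 q.2 :=
    (σ m).st.top.eventually_ge_atTop _
  rw [ev_LX] at h2
  filter_upwards [h2] with j hj l
  rw [le_div_iff₀ hMp]
  exact hj l

private theorem dgb_at {x : ℕ → ℕ × ℕ} {f : ℕ → ℕ × ℕ → ℝ} {L : Filter ℝ}
    (h : Tendsto (fun q : ℕ × II => f q.1 (x q.1)) (LX II) L) : Tendsto (fun j => f j (x j)) UF L :=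
  tendsto_at h 0

private theorem dgb_small (hc : Chain F P σ) (u : SS F → ℕ → V n) (l : II)
    (h : ∀ m, Tendsto (fun j => ‖u (σ m) j - (σ m).g.c j l‖ / (σ m).g.b j l) UF (𝓝 0)) :
    Diag (fun x => Tendsto (fun j => ‖u (σ (x j).1) j - (σ (x j).1).g.c j l‖ /
      ((σ (x j).1).g.b j l / ((x j).2 + 1))) UF (𝓝 0)) := by
  have h1 := Diag.tendsto (X := II) (fun j y _ => ‖u (σ y.1) j - (σ y.1).g.c j l‖ /
    ((σ y.1).g.b j l / ((y.2 : ℝ) + 1))) (0 : ℝ) (by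
      intro ε hε
      refine ⟨0, fun m _ => ⟨0, fun M _ => ?_⟩⟩
      have hMp : (0 : ℝ) < M + 1 := by positivity
      have h2 : ∀ᶠ j in UF, ‖u (σ m) j - (σ m).g.c j l‖ / (σ m).g.b j l < ε / (M + 1) :=
        (h m).eventually_lt_const (div_pos hε hMp)
      filter_upwards [h2] with j hj _
      have hb := (σ m).st.ok.pos j l
      rw [sub_zero, Real.norm_eq_abs, abs_of_nonneg (div_nonneg (norm_nonneg _) (div_pos hb hMp).le),
        div_div_eq_mul_div]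
      rw [lt_div_iff₀ hMp] at hj
      rw [mul_div_right_comm]
      exact hj.le)
  exact h1.mono fun x hx => tendsto_at hx 0

private theorem dgb_top (hc : Chain F P σ) (u : SS F → ℕ → ℝ)
    (h : ∀ m, Tendsto (fun j => u (σ m) j) UF atTop) :
    Diag (fun x => Tendsto (fun j => u (σ (x j).1) j) UF atTop) := by
  have h1 := Diag.tendsto_atTop (X := II) (fun j y _ => u (σ y.1) j) (by
      intro K
      refine ⟨0, fun m _ => ⟨0, fun M _ => ?_⟩⟩
      have h2 : ∀ᶠ j in UF, K ≤ u (σ m) j := (h m).eventually_ge_atTop K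
      filter_upwards [h2] with j hj _
      exact hj)
  exact h1.mono fun x hx => tendsto_at hx 0

private theorem Nn_nonneg' (s : V n) : 0 ≤ Nn s := by
  unfold Nn
  exact Finset.sum_nonneg fun j _ => sq_nonneg _

private theorem nr_nonneg' (s : V n) : 0 ≤ nr s := Real.sqrt_nonneg _

theorem diag_con (hc : Chain F P σ) : Diag (fun x => Con F (dg σ x) (dz σ x) (dk σ x)) := by
  have hone : ∀ M : ℕ, (1 : ℝ) ≤ (M : ℝ) + 1 := by
    intro M
    have : (0 : ℝ) ≤ M := Nat.cast_nonneg M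
    linarith
  have d1 := dgb_small hc (fun u => u.z) 0 (fun m => (σ m).st.con.z0)
  have d2 := dgb_small hc (fun u => u.κ) 1 (fun m => (σ m).st.con.k0)
  have d3 := dgb_top hc (fun u j => nr (u.z j)) (fun m => (σ m).st.con.zt)
  have d4 := dgb_top hc (fun u j => nr (u.κ j)) (fun m => (σ m).st.con.kt)
  have d5 : Diag (fun x => ∀ᶠ j in UF, (σ (x j).1).g.b j 0 / ((x j).2 + 1) ≤ 2 * nr ((σ (x j).1).z j)) := by
    refine Diag.mk_ev (fun j y => (σ y.1).g.b j 0 / (y.2 + 1) ≤ 2 * nr ((σ y.1).z j))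
      ⟨0, fun m _ => ⟨0, fun M _ => ?_⟩⟩
    filter_upwards [(σ m).st.con.zb] with j hj
    exact (div_le_self ((σ m).st.ok.pos j 0).le (hone M)).trans hj
  have d6 : Diag (fun x => ∀ᶠ j in UF, (σ (x j).1).g.b j 1 / ((x j).2 + 1) ≤ 2 * nr ((σ (x j).1).κ j)) := by
    refine Diag.mk_ev (fun j y => (σ y.1).g.b j 1 / (y.2 + 1) ≤ 2 * nr ((σ y.1).κ j))
      ⟨0, fun m _ => ⟨0, fun M _ => ?_⟩⟩
    filter_upwards [(σ m).st.con.kb] with j hj
    exact (div_le_self ((σ m).st.ok.pos j 1).le (hone M)).trans hj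
  have d7 : Diag (fun x => ∀ᶠ j in UF, (σ (x j).1).g.b j 1 / ((x j).2 + 1) ≤
      2 * ((σ (x j).1).g.b j 0 / ((x j).2 + 1))) := by
    refine Diag.mk_ev (fun j y => (σ y.1).g.b j 1 / (y.2 + 1) ≤ 2 * ((σ y.1).g.b j 0 / (y.2 + 1)))
      ⟨0, fun m _ => ⟨0, fun M _ => ?_⟩⟩
    filter_upwards [(σ m).st.con.bb] with j hj
    rw [← mul_div_assoc]
    exact div_le_div_of_nonneg_right hj (by linarith [hone M])
  have d8 : Diag (fun x => ∀ k : ℕ, ∀ᶠ j in UF, ∀ s : V n,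
      nr s ≤ (σ (x j).1).g.b j 0 / ((x j).2 + 1) / 10 →
      ‖F j ((σ (x j).1).z j + s)‖ ≤ 2 * ‖F j ((σ (x j).1).z j)‖ *
        Real.exp ((hp s ((σ (x j).1).κ j)).re + (1 + 1 / ((k : ℝ) + 1)) / 2 *
          ((σ (x j).1).g.b j 1 / (σ (x j).1).g.b j 0) * Nn s)) := by
    refine Diag.all fun k => Diag.mk_ev (fun j y => ∀ s : V n,
      nr s ≤ (σ y.1).g.b j 0 / (y.2 + 1) / 10 →
      ‖F j ((σ y.1).z j + s)‖ ≤ 2 * ‖F j ((σ y.1).z j)‖ *
        Real.exp ((hp s ((σ y.1).κ j)).re + (1 + 1 / ((k : ℝ) + 1)) / 2 *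
          ((σ y.1).g.b j 1 / (σ y.1).g.b j 0) * Nn s)) ⟨0, fun m _ => ⟨0, fun M _ => ?_⟩⟩
    filter_upwards [(σ m).st.con.up (1 / ((k : ℝ) + 1)) (by positivity)] with j hj s hs
    refine hj s (hs.trans ?_)
    exact div_le_div_of_nonneg_right (div_le_self ((σ m).st.ok.pos j 0).le (hone M)) (by norm_num)
  have d9 : Diag (fun x => ∀ k : ℕ, ∀ᶠ j in UF,
      Real.exp ((1 / 4 - 1 / ((k : ℝ) + 1)) * (nr ((σ (x j).1).z j) * nr ((σ (x j).1).κ j))) ≤
        ‖F j ((σ (x j).1).z j)‖) := by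
    refine Diag.all fun k => Diag.mk_ev (fun j y =>
      Real.exp ((1 / 4 - 1 / ((k : ℝ) + 1)) * (nr ((σ y.1).z j) * nr ((σ y.1).κ j))) ≤
        ‖F j ((σ y.1).z j)‖) ⟨0, fun m _ => ⟨0, fun M _ => ?_⟩⟩
    filter_upwards [(σ m).st.con.low (1 / ((k : ℝ) + 1)) (by positivity)] with j hj
    exact hj
  refine ((d1.and d2).and ((d3.and d4).and ((d5.and d6).and (d7.and (d8.and d9))))).mono ?_
  rintro x ⟨⟨x1, x2⟩, ⟨x3, x4⟩, ⟨x5, x6⟩, x7, x8, x9⟩
  have hk : ∀ ε : ℝ, 0 < ε → ∃ k : ℕ, 1 / ((k : ℝ) + 1) < ε := fun ε hε => exists_nat_one_div_lt hε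
  refine ⟨x1, x2, x3, x4, x5, x6, x7, fun ε hε => ?_, fun ε hε => ?_⟩
  · obtain ⟨k, hk⟩ := hk ε hε
    filter_upwards [x8 k] with j hj s hs
    refine (hj s hs).trans ?_
    refine mul_le_mul_of_nonneg_left ?_ (by positivity)
    refine Real.exp_le_exp.mpr ?_
    have hMp : (0 : ℝ) < ((x j).2 : ℝ) + 1 := by positivity
    have e1 : (dg σ x).b j 1 / (dg σ x).b j 0 = (σ (x j).1).g.b j 1 / (σ (x j).1).g.b j 0 :=
      div_div_div_cancel_right₀ hMp.ne' _ _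
    have e2 : dk σ x j = (σ (x j).1).κ j := rfl
    rw [e1, e2]
    have p1 : 0 ≤ (σ (x j).1).g.b j 1 / (σ (x j).1).g.b j 0 :=
      div_nonneg ((σ (x j).1).st.ok.pos j 1).le ((σ (x j).1).st.ok.pos j 0).le
    have p2 := mul_nonneg p1 (Nn_nonneg' s)
    have p3 : (1 + 1 / ((k : ℝ) + 1)) / 2 ≤ (1 + ε) / 2 := by linarith
    have p4 := mul_le_mul_of_nonneg_right p3 p2
    rw [← mul_assoc, ← mul_assoc] at p4
    linarith
  · obtain ⟨k, hk⟩ := hk ε hε
    filter_upwards [x9 k] with j hj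
    refine le_trans ?_ hj
    refine Real.exp_le_exp.mpr ?_
    have p1 : 0 ≤ nr ((σ (x j).1).z j) * nr ((σ (x j).1).κ j) :=
      mul_nonneg (nr_nonneg' _) (nr_nonneg' _)
    exact mul_le_mul_of_nonneg_right (by linarith) p1

end Pool.Agent.H51.BJ
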