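import Pool.Agent.H51.BJ.DGA

/-! # [H51 BJ DGC] The diagonal germ: limits of the near-linear polynomials and of `ℂ[t]`

For fixed `(m, M)` the rescaled polynomial at the diagonal germ is `rs 0 (1/(M+1)) (rg σ_m f)`
(`rs_rs`), so by `coeff_rs_zero` its coefficient at `k` is `(M+1)^{-|k|}` times that of `rg σ_m f`, and
divided by `NN σ_m f` it tends (for `j → ∞` along `UF`) to `(M+1)^{-|k|} coeff k B_m`, `B_m` the limit of
`f` at `σ_m`. Let `B_m` have lowest component `t_m A`, `A` of degree `μ`. As `M → ∞`, `(M+1)^μ` times this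
tends to `t_m coeff k A` for `|k| = μ` and to `0` for `|k| > μ`. Normalising by the norm: for `m`
large, then `M` large, then `UF`-many `j` and all `l`, the coefficients of the normalised polynomial at
the diagonal germ are within `ε` of those of `A/nm A`. This is `diag_ini`.
`diag_lim_ct`: `f ∈ ℂ[t]` is resolved at `σ_m` for `m ≥ deg f` (`chain_res_deg`, `ct_not_us`), here `μ = 0` and
`A = C (coeff 0 B_m/|coeff 0 B_m|)` does not depend on `m` (`ref_frozen` for a strict step). -/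

set_option autoImplicit false

open MvPolynomial Filter Pool.Agent.H60 Pool.Agent.H57.BJ
open scoped Topology

noncomputable section

namespace Pool.Agent.H51.BJ

variable {n : ℕ} {F : ℕ → V n → ℂ} {P f A : MvPolynomial (Fin n) ℂ} {σ : ℕ → SS F} {μ : ℕ}
  {W : Finset (Fin n)}

/-- the germ with the radii multiplied by `e` -/
private def ge (g : Germ n) (e : ℝ) : Germ n := ⟨g.c, fun j l => g.b j l * e⟩

private theorem ge_lim {g : Germ n} (hb : ∀ j l, 0 < g.b j l) {e : ℝ} (he : 0 < e) (hf : f ≠ 0)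
    {B : MvPolynomial (Fin n) ℂ} (h : HasLim g f B) :
    HasLim (ge g e) f (C ((nm (rs 0 e B) : ℂ)⁻¹) * rs 0 e B) := by
  have hb' : ∀ j l, 0 < (ge g e).b j l := fun j l => mul_pos (hb j l) he
  have hB : rs 0 e B ≠ 0 := rs_ne_zero 0 he.ne' (HasLim.ne_zero hb hf h)
  refine (HasLim.of_norm hb' hf (ν := fun q => NN g f q)
    (Filter.Eventually.of_forall fun q => NN_pos hb hf q) hB ?_).1
  have h1 := PT.rs (D := f.totalDegree) h (Filter.Eventually.of_forall fun q =>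
    (degree_C_mul_le _ _).trans (rg_degree f q)) (x := fun _ => (0 : V n)) (x0 := 0) tendsto_const_nhds
    (e := fun _ => e) (e0 := e) tendsto_const_nhds
  refine h1.congr' (Filter.Eventually.of_forall fun q => ?_)
  rw [rs_C_mul]
  have h2 : rs 0 e (rg g f q) = rg (ge g e) f q := by
    have h3 := rs_rs (g.c q.1 q.2) 0 (g.b q.1 q.2) e f
    rw [smul_zero, add_zero] at h3
    exact h3
  rw [h2]

private theorem ge_PT {B A : MvPolynomial (Fin n) ℂ} {t : ℝ}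
    (hA : A.IsHomogeneous μ) (h1 : ∀ m : Fin n →₀ ℕ, m.degree < μ → B.coeff m = 0)
    (h2 : ∀ m : Fin n →₀ ℕ, m.degree = μ → B.coeff m = t * A.coeff m) :
    PT atTop (fun M : ℕ => C ((((1 : ℝ) / ((M : ℝ) + 1) : ℝ) : ℂ) ^ μ)⁻¹ * rs 0 (1 / ((M : ℝ) + 1)) B)
      (C (t : ℂ) * A) := by
  intro m
  have he : Tendsto (fun M : ℕ => (((1 : ℝ) / ((M : ℝ) + 1) : ℝ) : ℂ)) atTop (𝓝 ((0 : ℝ) : ℂ)) :=
    (Complex.continuous_ofReal.tendsto 0).comp tendsto_one_div_add_atTop_nhds_zero_nat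
  have hne : ∀ M : ℕ, (((1 : ℝ) / ((M : ℝ) + 1) : ℝ) : ℂ) ≠ 0 := by
    intro M
    have : (0 : ℝ) < 1 / ((M : ℝ) + 1) := by positivity
    exact_mod_cast this.ne'
  rcases lt_trichotomy m.degree μ with hm | hm | hm
  · have e1 : (C (t : ℂ) * A).coeff m = 0 := by
      rw [coeff_C_mul, hA.coeff_eq_zero (by omega), mul_zero]
    rw [e1]
    refine tendsto_const_nhds.congr fun M => ?_
    rw [coeff_C_mul, coeff_rs_zero, h1 m hm, mul_zero, mul_zero]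
  · rw [coeff_C_mul, ← h2 m hm]
    refine tendsto_const_nhds.congr fun M => ?_
    rw [coeff_C_mul, coeff_rs_zero, hm, ← mul_assoc, inv_mul_cancel₀ (pow_ne_zero _ (hne M)), one_mul]
  · have e1 : (C (t : ℂ) * A).coeff m = 0 := by
      rw [coeff_C_mul, hA.coeff_eq_zero (by omega), mul_zero]
    rw [e1]
    have h3 := (he.pow (m.degree - μ)).mul_const (B.coeff m)
    rw [Complex.ofReal_zero, zero_pow (by omega), zero_mul] at h3
    refine h3.congr fun M => ?_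
    rw [coeff_C_mul, coeff_rs_zero, ← mul_assoc]
    congr 1
    have e2 : (((1 : ℝ) / ((M : ℝ) + 1) : ℝ) : ℂ) ^ m.degree =
        (((1 : ℝ) / ((M : ℝ) + 1) : ℝ) : ℂ) ^ μ * (((1 : ℝ) / ((M : ℝ) + 1) : ℝ) : ℂ) ^ (m.degree - μ) := by
      rw [← pow_add]
      congr 1
      omega
    rw [e2, ← mul_assoc, inv_mul_cancel₀ (pow_ne_zero _ (hne M)), one_mul]

private theorem ge_coeff {B A : MvPolynomial (Fin n) ℂ} {t : ℝ} (ht : 0 < t) (hA0 : A ≠ 0)
    (hA : A.IsHomogeneous μ) (h1 : ∀ m : Fin n →₀ ℕ, m.degree < μ → B.coeff m = 0)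
    (h2 : ∀ m : Fin n →₀ ℕ, m.degree = μ → B.coeff m = t * A.coeff m) (m : Fin n →₀ ℕ) :
    Tendsto (fun M : ℕ => (C ((nm (rs 0 (1 / ((M : ℝ) + 1)) B) : ℂ)⁻¹) *
      rs 0 (1 / ((M : ℝ) + 1)) B).coeff m) atTop (𝓝 ((C ((nm A : ℂ)⁻¹) * A).coeff m)) := by
  have hP := ge_PT hA h1 h2
  have hN := PT.nm (D := B.totalDegree) hP (Filter.Eventually.of_forall fun M =>
    (degree_C_mul_le _ _).trans (totalDegree_rs_le _ _ _))
  have ht' : (t : ℂ) ≠ 0 := by exact_mod_cast ht.ne'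
  have hnA : (nm A : ℂ) ≠ 0 := by exact_mod_cast (nm_pos hA0).ne'
  have hnm : nm (C (t : ℂ) * A) = t * nm A := by
    rw [nm_C_mul, Complex.norm_real, Real.norm_eq_abs, abs_of_pos ht]
  rw [hnm] at hN
  have hN2 : Tendsto (fun M : ℕ => ((nm (C ((((1 : ℝ) / ((M : ℝ) + 1) : ℝ) : ℂ) ^ μ)⁻¹ *
      rs 0 (1 / ((M : ℝ) + 1)) B) : ℝ) : ℂ)⁻¹) atTop (𝓝 (((t * nm A : ℝ) : ℂ)⁻¹)) := by
    refine ((Complex.continuous_ofReal.tendsto _).comp hN).inv₀ ?_
    rw [Complex.ofReal_mul]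
    exact mul_ne_zero ht' hnA
  have h3 := hN2.mul (hP m)
  have e1 : ((t * nm A : ℝ) : ℂ)⁻¹ * (C (t : ℂ) * A).coeff m = (C ((nm A : ℂ)⁻¹) * A).coeff m := by
    rw [coeff_C_mul, coeff_C_mul, Complex.ofReal_mul]
    field_simp
  rw [e1] at h3
  refine h3.congr fun M => ?_
  have hpos : (0 : ℝ) < 1 / ((M : ℝ) + 1) := by positivity
  obtain ⟨e, he⟩ : ∃ e : ℝ, e = 1 / ((M : ℝ) + 1) := ⟨_, rfl⟩
  beta_reduce
  rw [← he] at hpos ⊢
  have hne : ((e : ℝ) : ℂ) ^ μ ≠ 0 := pow_ne_zero _ (by exact_mod_cast hpos.ne')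
  rw [nm_C_mul, norm_inv, norm_pow, Complex.norm_real, Real.norm_eq_abs, abs_of_pos hpos,
    coeff_C_mul, coeff_C_mul]
  push_cast
  rw [mul_inv, inv_inv]
  rw [show ((e : ℂ) ^ μ * ((nm (rs 0 e B) : ℂ))⁻¹) * (((e : ℂ) ^ μ)⁻¹ * (rs 0 e B).coeff m) =
    ((e : ℂ) ^ μ * ((e : ℂ) ^ μ)⁻¹) * (((nm (rs 0 e B) : ℂ))⁻¹ * (rs 0 e B).coeff m) by ring,
    mul_inv_cancel₀ hne, one_mul]

theorem diag_ini (hc : Chain F P σ) (hf : f ≠ 0) (h : Ini σ f μ A) :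
    Diag (fun x => HasLim (dg σ x) f (C ((nm A : ℂ)⁻¹) * A)) := by
  obtain ⟨hhom, hA0, D0, hD0⟩ := h
  have h1 : Diag (fun x => ∀ k : Fin n →₀ ℕ, Tendsto (fun q : ℕ × II =>
      (C ((nm (rs ((σ (x q.1).1).g.c q.1 q.2) ((σ (x q.1).1).g.b q.1 q.2 / ((x q.1).2 + 1)) f) : ℂ)⁻¹) *
        rs ((σ (x q.1).1).g.c q.1 q.2) ((σ (x q.1).1).g.b q.1 q.2 / ((x q.1).2 + 1)) f).coeff k) (LX II)
      (𝓝 ((C ((nm A : ℂ)⁻¹) * A).coeff k))) := by
    refine Diag.all fun k => Diag.tendsto (fun j y l =>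
      (C ((nm (rs ((σ y.1).g.c j l) ((σ y.1).g.b j l / (y.2 + 1)) f) : ℂ)⁻¹) *
        rs ((σ y.1).g.c j l) ((σ y.1).g.b j l / (y.2 + 1)) f).coeff k) _ ?_
    intro ε hε
    refine ⟨D0, fun m hm => ?_⟩
    obtain ⟨B, t, hB, ht, h2, h3⟩ := hD0 m hm
    have h4 := ge_coeff ht hA0 hhom h2 h3 k
    rw [Metric.tendsto_atTop] at h4
    obtain ⟨M0, hM0⟩ := h4 (ε / 2) (by positivity)
    refine ⟨M0, fun M hM => ?_⟩
    have h5 := hM0 M hM
    have he : (0 : ℝ) < 1 / ((M : ℝ) + 1) := by positivity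
    have h6 := ge_lim (σ m).st.ok.pos he hf hB k
    have h7 : ∀ᶠ q : ℕ × II in LX II, dist ((C ((NN (ge (σ m).g (1 / ((M : ℝ) + 1))) f q : ℂ)⁻¹) *
        rg (ge (σ m).g (1 / ((M : ℝ) + 1))) f q).coeff k)
        ((C ((nm (rs 0 (1 / ((M : ℝ) + 1)) B) : ℂ)⁻¹) * rs 0 (1 / ((M : ℝ) + 1)) B).coeff k) < ε / 2 :=
      (Metric.tendsto_nhds.mp h6) (ε / 2) (by positivity)
    rw [ev_LX] at h7
    filter_upwards [h7] with j hj l
    have h8 := hj l
    have e1 : rg (ge (σ m).g (1 / ((M : ℝ) + 1))) f (j, l) =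
        rs ((σ m).g.c j l) ((σ m).g.b j l / ((M : ℝ) + 1)) f := by
      show rs ((σ m).g.c j l) ((σ m).g.b j l * (1 / ((M : ℝ) + 1))) f = _
      rw [mul_one_div]
    have e2 : NN (ge (σ m).g (1 / ((M : ℝ) + 1))) f (j, l) =
        nm (rs ((σ m).g.c j l) ((σ m).g.b j l / ((M : ℝ) + 1)) f) := by
      unfold NN
      rw [e1]
    rw [e1, e2] at h8
    rw [← dist_eq_norm]
    have h9 := dist_triangle ((C ((nm (rs ((σ m).g.c j l) ((σ m).g.b j l / ((M : ℝ) + 1)) f) : ℂ)⁻¹) *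
        rs ((σ m).g.c j l) ((σ m).g.b j l / ((M : ℝ) + 1)) f).coeff k)
      ((C ((nm (rs 0 (1 / ((M : ℝ) + 1)) B) : ℂ)⁻¹) * rs 0 (1 / ((M : ℝ) + 1)) B).coeff k)
      ((C ((nm A : ℂ)⁻¹) * A).coeff k)
    refine h9.trans ?_
    linarith
  exact h1.mono fun x hx k => hx k

theorem ini_ct (hc : Chain F P σ) (hsub : ∀ ℓ ∈ LN σ, ∀ i, i ∉ W → ℓ i = 0) (hf : CT W f) :
    ∃ a : ℂ, ‖a‖ = 1 ∧ Ini σ f 0 (C a) := by
  have hres : ∀ D, f.totalDegree ≤ D → Res (σ D).g f := fun D hD =>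
    chain_res_deg hc hf.1 (ct_not_us hc hsub hf) hD
  obtain ⟨B, hB, hB0⟩ := hres f.totalDegree le_rfl
  have hn : ‖B.coeff 0‖ ≠ 0 := norm_ne_zero_iff.mpr hB0
  have hnc : (‖B.coeff 0‖ : ℂ) ≠ 0 := by exact_mod_cast hn
  refine ⟨B.coeff 0 / ‖B.coeff 0‖, ?_, isHomogeneous_C _ _, ?_, f.totalDegree, fun D hD => ?_⟩
  · rw [norm_div, Complex.norm_real, norm_norm, div_self hn]
  · intro h
    rw [C_eq_zero] at h
    exact (div_ne_zero hB0 hnc) h
  · rcases chain_le hc hD with h1 | h1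
    · refine ⟨B, ‖B.coeff 0‖, ?_, lt_of_le_of_ne (norm_nonneg _) (Ne.symm hn), fun m hm => ?_, fun m hm => ?_⟩
      · rw [h1]
        exact hB
      · exact absurd hm (Nat.not_lt_zero _)
      · rw [Finsupp.degree_eq_zero_iff] at hm
        rw [hm, coeff_C, if_pos rfl]
        field_simp
    · refine ⟨_, 1, (ref_frozen (σ _).st.ok.pos (σ D).st.ok.pos h1 hf.1 hB hB0).1, one_pos,
        fun m hm => ?_, fun m hm => ?_⟩
      · exact absurd hm (Nat.not_lt_zero _)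
      · rw [Complex.ofReal_one, one_mul]

end Pool.Agent.H51.BJ
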