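import Pool.Agent.H51.BJ.RFN

/-! # [H51 BJ STA] Pairwise incomparable polynomials are linearly independent

Let `f_i` (`i` in a finset `s`) be nonzero polynomials such that for `i ≠ k` in `s` the ratio
`NN g (f_i) / NN g (f_k)` does not tend to a positive constant. By tameness (`Tame.tri`) it tends to
`0` or to infinity. If `∑ a_i f_i = 0` with some `a_i ≠ 0`, restrict to the `i` with `a_i ≠ 0` and
choose `k` maximal (the relation (the ratio tends to `0`) is a strict total order on `s`, finite set):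
`f_k = - ∑_{i ≠ k} (a_i/a_k) f_i`, so `NN f_k ≤ ∑ |a_i/a_k| NN f_i`; divide by `NN f_k > 0`:
`1 ≤ o(1)`, contradiction. -/

set_option autoImplicit false

open MvPolynomial Filter Pool.Agent.H60 Pool.Agent.H57.BJ
open scoped Topology

noncomputable section

namespace Pool.Agent.H51.BJ

variable {n : ℕ} {g : Germ n}

/-- comparable polynomials -/
def Cmp (g : Germ n) (f h : MvPolynomial (Fin n) ℂ) : Prop :=
  ∃ c : ℝ, 0 < c ∧ Tendsto (fun q => NN g f q / NN g h q) (LX II) (𝓝 c)

theorem Cmp.symm {f h : MvPolynomial (Fin n) ℂ} (h1 : Cmp g f h) : Cmp g h f := by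
  obtain ⟨c, hc, h2⟩ := h1
  refine ⟨c⁻¹, inv_pos.mpr hc, (h2.inv₀ hc.ne').congr fun q => ?_⟩
  exact inv_div _ _

theorem Cmp.trans {f h k : MvPolynomial (Fin n) ℂ} (hb : ∀ j l, 0 < g.b j l) (hh : h ≠ 0)
    (h1 : Cmp g f h) (h2 : Cmp g h k) : Cmp g f k := by
  obtain ⟨c, hc, h3⟩ := h1
  obtain ⟨d, hd, h4⟩ := h2
  refine ⟨c * d, mul_pos hc hd, (h3.mul h4).congr fun q => ?_⟩
  exact div_mul_div_cancel₀ (NN_pos hb hh q).ne'

/-- a finite linear combination of pairwise incomparable polynomials is dominated by one of them -/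
theorem dominant (hg : GOk g) {ι : Type*} (f : ι → MvPolynomial (Fin n) ℂ)
    (hf : ∀ i, f i ≠ 0) (hc : ∀ i k, i ≠ k → ¬ Cmp g (f i) (f k)) (s : Finset ι) (a : ι → ℂ)
    (ha : ∀ i ∈ s, a i ≠ 0) (hs : s.Nonempty) :
    ∃ k ∈ s, ∀ i ∈ s, i ≠ k → Tendsto (fun q => NN g (f i) q / NN g (f k) q) (LX II) (𝓝 0) := by
  classical
  clear ha a
  induction s using Finset.induction_on with
  | empty => exact absurd hs Finset.not_nonempty_empty
  | insert x s hx ih =>
    rcases s.eq_empty_or_nonempty with rfl | hs'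
    · refine ⟨x, Finset.mem_insert_self _ _, fun i hi hne => ?_⟩
      rw [Finset.mem_insert] at hi
      rcases hi with rfl | hi
      · exact absurd rfl hne
      · exact absurd hi (Finset.notMem_empty _)
    obtain ⟨k, hk, hk2⟩ := ih hs'
    have hxk : x ≠ k := fun h => hx (h ▸ hk)
    rcases (hg.tame (f x) (f k) (hf x) (hf k)).tri with h1 | h1 | h1
    · refine ⟨k, Finset.mem_insert_of_mem hk, fun i hi hne => ?_⟩
      rw [Finset.mem_insert] at hi
      rcases hi with rfl | hi
      · exact h1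
      · exact hk2 i hi hne
    · exact absurd h1 (hc x k hxk)
    · have h2 : Tendsto (fun q => NN g (f k) q / NN g (f x) q) (LX II) (𝓝 0) := by
        refine (tendsto_inv_atTop_zero.comp h1).congr fun q => ?_
        rw [Function.comp_apply, inv_div]
      refine ⟨x, Finset.mem_insert_self _ _, fun i hi hne => ?_⟩
      rw [Finset.mem_insert] at hi
      rcases hi with rfl | hi
      · exact absurd rfl hne
      · by_cases hik : i = k
        · rw [hik]
          exact h2
        · have h3 := (hk2 i hi hik).mul h2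
          rw [zero_mul] at h3
          refine h3.congr fun q => ?_
          exact div_mul_div_cancel₀ (NN_pos hg.pos (hf k) q).ne'

theorem linInd_of_incomparable (hg : GOk g) {ι : Type*} (f : ι → MvPolynomial (Fin n) ℂ)
    (hf : ∀ i, f i ≠ 0) (hc : ∀ i k, i ≠ k → ¬ Cmp g (f i) (f k)) :
    LinearIndependent ℂ f := by
  classical
  rw [linearIndependent_iff']
  intro s a hsum
  by_contra hcon
  push Not at hcon
  obtain ⟨i0, hi0, hai0⟩ := hcon
  obtain ⟨t, ht⟩ : ∃ t, t = s.filter (fun i => a i ≠ 0) := ⟨_, rfl⟩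
  have htm : ∀ i, i ∈ t ↔ i ∈ s ∧ a i ≠ 0 := fun i => by rw [ht, Finset.mem_filter]
  have hsum2 : ∑ i ∈ t, a i • f i = 0 := by
    rw [← hsum, ht]
    refine Finset.sum_subset (Finset.filter_subset _ _) fun i hi hni => ?_
    have : a i = 0 := by
      by_contra hne
      exact hni (Finset.mem_filter.mpr ⟨hi, hne⟩)
    rw [this, zero_smul]
  obtain ⟨k, hk, hk2⟩ := dominant hg f hf hc t a (fun i hi => ((htm i).mp hi).2)
    ⟨i0, (htm i0).mpr ⟨hi0, hai0⟩⟩
  have hak : a k ≠ 0 := ((htm k).mp hk).2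
  have hNC : ∀ (x : ℂ) (p : MvPolynomial (Fin n) ℂ) (q : ℕ × II), NN g (C x * p) q = ‖x‖ * NN g p q := by
    intro x p q
    unfold NN rg
    rw [rs_C_mul, nm_C_mul]
  have heq : C (a k) * f k = ∑ i ∈ t.erase k, C (-a i) * f i := by
    have h1 := Finset.add_sum_erase t (fun i => a i • f i) hk
    rw [hsum2] at h1
    rw [← MvPolynomial.smul_eq_C_mul]
    have h2 : ∑ i ∈ t.erase k, C (-a i) * f i = -∑ i ∈ t.erase k, a i • f i := by
      rw [← Finset.sum_neg_distrib]
      refine Finset.sum_congr rfl fun i _ => ?_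
      rw [← MvPolynomial.smul_eq_C_mul, neg_smul]
    rw [h2]
    exact eq_neg_of_add_eq_zero_left h1
  have hle : ∀ q, ‖a k‖ ≤ ∑ i ∈ t.erase k, ‖a i‖ * (NN g (f i) q / NN g (f k) q) := by
    intro q
    have h1 := NN_sum_le (g := g) (t.erase k) (fun i => C (-a i) * f i) q
    rw [← heq, hNC] at h1
    have h2 : ∑ i ∈ t.erase k, ‖a i‖ * (NN g (f i) q / NN g (f k) q) =
        (∑ i ∈ t.erase k, NN g (C (-a i) * f i) q) / NN g (f k) q := by
      rw [Finset.sum_div]
      refine Finset.sum_congr rfl fun i _ => ?_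
      rw [hNC, norm_neg, mul_div_assoc]
    rw [h2, le_div_iff₀ (NN_pos hg.pos (hf k) q)]
    exact h1
  have hlim : Tendsto (fun q => ∑ i ∈ t.erase k, ‖a i‖ * (NN g (f i) q / NN g (f k) q)) (LX II)
      (𝓝 (∑ i ∈ t.erase k, ‖a i‖ * 0)) := by
    refine tendsto_finset_sum _ fun i hi => ?_
    exact (hk2 i (Finset.mem_of_mem_erase hi) (Finset.ne_of_mem_erase hi)).const_mul _
  have h3 := ge_of_tendsto' hlim hle
  simp only [mul_zero, Finset.sum_const_zero] at h3
  exact absurd (norm_le_zero_iff.mp h3) hak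

end Pool.Agent.H51.BJ
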