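import Pool.Agent.H51.BJ.DGC
import Pool.Agent.H51.BJ.STA

/-! # [H51 BJ DGE] The diagonal germ: tame ratios

Let `Q` be a never resolved polynomial with `Ini σ Q 1 (C a * X i)`, `e, e'` nonzero in `ℂ[t]`, `p` a
natural number. `tame_m`: at `σ_m` (`m` large) the family `T_m = b_m^p NN_m(e)/NN_m(e')` is tame: by
`HasLim.deriv` `b_m NN_m(∂_i Q)/NN_m(Q)` tends to a positive constant, by `HasLim.mul` (repeatedly)
`NN_m(Q^p e)/NN_m((∂_i Q)^p e')` is asymptotically a positive constant times `T_m`, and it is tame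
(`GOk.tame`); `Tame.congr`.

`diag_tame`: for fixed `(m, M)`: `NN_{(m,M)}(e)/NN_m(e)` tends (uniformly in `l`) to a positive number
`ν_{m,M}(e) = nm (rs 0 (1/(M+1)) B_e^{(m)})`, so the diagonal family at `(m, M)` is
`T_m (M+1)^{-p}` times a factor tending to a positive constant. The trichotomy type of `T_m` (`Tame.tri`: `→ ∞`, `→ c_m > 0`, `→ 0`)
can only decrease with `m` (`T_{m+1}/T_m` tends to a positive constant if `σ_{m+1} = σ_m` or `p = 0`
(`ref_frozen`), and to `0` otherwise), so it is constant for large `m`.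
(∞): for every `K`, `ε`: `≥ K` and `≤ (1+ε)` times the value at `l = 0`, at `(m, M)` for `UF`-many `j`,
all `l`: so `TInf` for the diagonal family. (0): the same for the inverse. (c), `p ≥ 1`: the limit at
`(m, M)` is `c_m ν/((M+1)^p ν')`, small for `M` large, uniformly constant in `l`: the inverse of the
diagonal family is `TInf`. (c), `p = 0`: the limit at `(m, M)` tends for `M → ∞` to
`lim_j |e(c_m)|/|e'(c_m)|`, which does not depend on `m` (`e(c_{m+1})/e(c_m) → 1`).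

`diag_incmp`: if `e, e'` are incomparable at all `σ_D`, `D ≥ d`, they are incomparable at the diagonal
germ: the ratio tends to `0`, or to infinity (types (0), (∞) with `p = 0`). -/

set_option autoImplicit false

open MvPolynomial Filter Pool.Agent.H60 Pool.Agent.H57.BJ
open scoped Topology

noncomputable section

namespace Pool.Agent.H51.BJ

variable {n : ℕ} {F : ℕ → V n → ℂ} {P Q e e' : MvPolynomial (Fin n) ℂ} {σ : ℕ → SS F}
  {W : Finset (Fin n)}

private theorem mul_ratio {g : Germ n} (hg : GOk g) {f h : MvPolynomial (Fin n) ℂ}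
    (hf : f ≠ 0) (hh : h ≠ 0) :
    ∃ c : ℝ, 0 < c ∧ Tendsto (fun q => NN g (f * h) q / (NN g f q * NN g h q)) (LX II) (𝓝 c) := by
  obtain ⟨A, hA⟩ := hg.lim f hf
  obtain ⟨B, hB⟩ := hg.lim h hh
  have h1 := HasLim.mul hg.pos hf hh hA hB
  exact ⟨_, h1.2.2, h1.2.1⟩

private theorem pow_ratio {g : Germ n} (hg : GOk g) {f h : MvPolynomial (Fin n) ℂ}
    (hf : f ≠ 0) (hh : h ≠ 0) (p : ℕ) :
    ∃ c : ℝ, 0 < c ∧
      Tendsto (fun q => NN g (f ^ p * h) q / (NN g f q ^ p * NN g h q)) (LX II) (𝓝 c) := by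
  induction p with
  | zero =>
    refine ⟨1, one_pos, tendsto_const_nhds.congr fun q => ?_⟩
    rw [pow_zero, pow_zero, one_mul, one_mul, div_self (NN_pos hg.pos hh q).ne']
  | succ p ih =>
    obtain ⟨c, hc, h1⟩ := ih
    obtain ⟨d, hd, h2⟩ := mul_ratio hg hf (mul_ne_zero (pow_ne_zero p hf) hh)
    refine ⟨d * c, mul_pos hd hc, (h2.mul h1).congr fun q => ?_⟩
    have e1 : f ^ (p + 1) * h = f * (f ^ p * h) := by
      rw [pow_succ]
      ring
    have p1 := (NN_pos hg.pos hf q).ne'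
    have p2 := (NN_pos hg.pos hh q).ne'
    have p3 := (NN_pos hg.pos (mul_ne_zero (pow_ne_zero p hf) hh) q).ne'
    rw [e1]
    field_simp
    ring

theorem tame_m (hc : Chain F P σ) (hQ : US σ Q) {a : ℂ} (ha : a ≠ 0) {i : Fin n}
    (hI : Ini σ Q 1 (C a * X i)) (he : e ≠ 0) (he' : e' ≠ 0) (p : ℕ) :
    ∃ m0, ∀ m, m0 ≤ m →
      Tame (fun q => (σ m).g.b q.1 q.2 ^ p * (NN (σ m).g e q / NN (σ m).g e' q)) := by
  obtain ⟨-, -, D0, hD0⟩ := hI
  refine ⟨D0, fun m hm => ?_⟩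
  obtain ⟨B, t, hB, ht, hl, hm1⟩ := hD0 m hm
  have hg := (σ m).st.ok
  have hpd : pderiv i B ≠ 0 := by
    intro h0
    have h1 := hm1 (Finsupp.single i 1) (by simp)
    have h2 : (pderiv i B).coeff 0 = B.coeff (Finsupp.single i 1) := by
      rw [coeff_pderiv]
      simp
    rw [h0, coeff_zero] at h2
    rw [← h2, coeff_C_mul, coeff_X, if_pos rfl, mul_one] at h1
    have h3 : (t : ℂ) ≠ 0 := by exact_mod_cast ht.ne'
    exact (mul_ne_zero h3 ha) h1.symm
  obtain ⟨k1, -, k3⟩ := HasLim.deriv hg.pos i hB hpd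
  have hG := hg.tame (Q ^ p * e) ((pderiv i Q) ^ p * e') (mul_ne_zero (pow_ne_zero p hQ.1) he)
    (mul_ne_zero (pow_ne_zero p k1) he')
  obtain ⟨c1, hc1, r1⟩ := pow_ratio hg hQ.1 he p
  obtain ⟨c2, hc2, r2⟩ := pow_ratio hg k1 he' p
  have hnm : 0 < nm (pderiv i B) := nm_pos hpd
  refine hG.congr (c := nm (pderiv i B) ^ p * c2 / c1) (by positivity) ?_
  refine ((((k3.pow p).mul r2).div r1 hc1.ne')).congr fun q => ?_
  have p1 := (NN_pos hg.pos hQ.1 q).ne'
  have p2 := (NN_pos hg.pos k1 q).ne'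
  have p3 := (NN_pos hg.pos he q).ne'
  have p4 := (NN_pos hg.pos he' q).ne'
  have p5 := (NN_pos hg.pos (mul_ne_zero (pow_ne_zero p hQ.1) he) q).ne'
  have p6 := (NN_pos hg.pos (mul_ne_zero (pow_ne_zero p k1) he') q).ne'
  simp only [Pi.div_apply]
  rw [div_pow, mul_pow]
  field_simp

/-- the norm at the state `y.1` with the radius divided by `y.2 + 1` -/
private def Nd (σ : ℕ → SS F) (f : MvPolynomial (Fin n) ℂ) (j : ℕ) (y : ℕ × ℕ) (l : II) : ℝ :=
  nm (rs ((σ y.1).g.c j l) ((σ y.1).g.b j l / (y.2 + 1)) f)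

private theorem Nd_pos {f : MvPolynomial (Fin n) ℂ} (hf : f ≠ 0) (j : ℕ) (y : ℕ × ℕ) (l : II) :
    0 < Nd σ f j y l :=
  nm_pos (rs_ne_zero _ (div_pos ((σ y.1).st.ok.pos j l) (by positivity)).ne' hf)

private theorem Nd_lim (m M : ℕ) {f B : MvPolynomial (Fin n) ℂ} (hf : f ≠ 0)
    (hB : HasLim (σ m).g f B) :
    Tendsto (fun q : ℕ × II => Nd σ f q.1 (m, M) q.2 / NN (σ m).g f q) (LX II)
      (𝓝 (nm (rs 0 (1 / ((M : ℝ) + 1)) B))) := by
  have h1 := PT.rs (D := f.totalDegree) hB (Filter.Eventually.of_forall fun q =>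
    (degree_C_mul_le _ _).trans (rg_degree f q)) (x := fun _ => (0 : V n)) (x0 := 0)
    tendsto_const_nhds (e := fun _ => 1 / ((M : ℝ) + 1)) (e0 := 1 / ((M : ℝ) + 1))
    tendsto_const_nhds
  have h2 := PT.nm (D := f.totalDegree) h1 (Filter.Eventually.of_forall fun q =>
    (totalDegree_rs_le _ _ _).trans ((degree_C_mul_le _ _).trans (rg_degree f q)))
  refine h2.congr fun q => ?_
  have hp := NN_pos (g := (σ m).g) (σ m).st.ok.pos hf q
  rw [rs_C_mul, nm_C_mul, norm_inv, Complex.norm_real, Real.norm_eq_abs, abs_of_pos hp]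
  unfold Nd rg
  rw [rs_rs, smul_zero, add_zero, mul_one_div, inv_mul_eq_div]

private theorem nu_lim (B : MvPolynomial (Fin n) ℂ) :
    Tendsto (fun M : ℕ => nm (rs 0 (1 / ((M : ℝ) + 1)) B)) atTop (𝓝 ‖B.coeff 0‖) := by
  classical
  have h1 := PT.rs (D := B.totalDegree) (PT.const (L := (atTop : Filter ℕ)) B)
    (Filter.Eventually.of_forall fun _ => le_refl _) (x := fun _ => (0 : V n)) (x0 := 0)
    tendsto_const_nhds (e := fun M : ℕ => 1 / ((M : ℝ) + 1)) (e0 := 0)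
    tendsto_one_div_add_atTop_nhds_zero_nat
  have h2 := PT.nm (D := B.totalDegree) h1 (Filter.Eventually.of_forall fun q =>
    totalDegree_rs_le _ _ _)
  have h3 : (BJ.rs 0 0 B : MvPolynomial (Fin n) ℂ) = C (B.coeff 0) := by
    refine MvPolynomial.ext _ _ fun m => ?_
    rw [coeff_rs_zero, coeff_C, Complex.ofReal_zero]
    by_cases hm : 0 = m
    · rw [if_pos hm, ← hm]
      simp
    · rw [if_neg hm, zero_pow, zero_mul]
      intro h5
      exact hm ((Finsupp.degree_eq_zero_iff m).mp h5).symm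
  rw [h3, nm_C] at h2
  exact h2

private theorem nu_pos {B : MvPolynomial (Fin n) ℂ} (hB : B ≠ 0) (M : ℕ) :
    0 < nm (rs 0 (1 / ((M : ℝ) + 1)) B) :=
  nm_pos (rs_ne_zero _ (by positivity : (0 : ℝ) < 1 / ((M : ℝ) + 1)).ne' hB)

/-- the family `T_m` -/
private def Tm (σ : ℕ → SS F) (p : ℕ) (e e' : MvPolynomial (Fin n) ℂ) (m : ℕ) (q : ℕ × II) : ℝ :=
  (σ m).g.b q.1 q.2 ^ p * (NN (σ m).g e q / NN (σ m).g e' q)

private theorem Tm_pos (p : ℕ) (he : e ≠ 0) (he' : e' ≠ 0) (m : ℕ) (q : ℕ × II) :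
    0 < Tm σ p e e' m q := by
  have h1 := (σ m).st.ok.pos
  exact mul_pos (pow_pos (h1 q.1 q.2) p) (div_pos (NN_pos h1 he q) (NN_pos h1 he' q))

/-- the diagonal family -/
private def Dd (σ : ℕ → SS F) (p : ℕ) (e e' : MvPolynomial (Fin n) ℂ) (j : ℕ) (y : ℕ × ℕ)
    (l : II) : ℝ :=
  ((σ y.1).g.b j l / (y.2 + 1)) ^ p * (Nd σ e j y l / Nd σ e' j y l)

private theorem Dd_pos (p : ℕ) (he : e ≠ 0) (he' : e' ≠ 0) (j : ℕ) (y : ℕ × ℕ) (l : II) :
    0 < Dd σ p e e' j y l := by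
  have h1 := (σ y.1).st.ok.pos j l
  exact mul_pos (pow_pos (div_pos h1 (by positivity)) p)
    (div_pos (Nd_pos he j y l) (Nd_pos he' j y l))

private theorem Dd_lim (p m M : ℕ) (he : e ≠ 0) (he' : e' ≠ 0) {B B' : MvPolynomial (Fin n) ℂ}
    (hB : HasLim (σ m).g e B) (hB' : HasLim (σ m).g e' B') :
    Tendsto (fun q : ℕ × II => Dd σ p e e' q.1 (m, M) q.2 / Tm σ p e e' m q) (LX II)
      (𝓝 ((1 / ((M : ℝ) + 1)) ^ p *
        (nm (rs 0 (1 / ((M : ℝ) + 1)) B) / nm (rs 0 (1 / ((M : ℝ) + 1)) B')))) := by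
  have hg := (σ m).st.ok
  have h1 := (Nd_lim m M he hB).div (Nd_lim m M he' hB')
    (nu_pos (HasLim.ne_zero hg.pos he' hB') M).ne'
  refine (h1.const_mul _).congr fun q => ?_
  have p1 := (hg.pos q.1 q.2).ne'
  have p2 := (NN_pos hg.pos he q).ne'
  have p3 := (NN_pos hg.pos he' q).ne'
  have p4 := (Nd_pos (σ := σ) he q.1 (m, M) q.2).ne'
  have p5 := (Nd_pos (σ := σ) he' q.1 (m, M) q.2).ne'
  have p6 : ((M : ℝ) + 1) ≠ 0 := by positivity
  unfold Dd Tm
  simp only [Pi.div_apply]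
  rw [div_pow, div_pow, one_pow]
  field_simp

private theorem Dd_tame (p m M : ℕ) (he : e ≠ 0) (he' : e' ≠ 0) (ht : Tame (Tm σ p e e' m)) :
    Tame (fun q : ℕ × II => Dd σ p e e' q.1 (m, M) q.2) := by
  have hg := (σ m).st.ok
  obtain ⟨B, hB⟩ := hg.lim e he
  obtain ⟨B', hB'⟩ := hg.lim e' he'
  have h2 := nu_pos (HasLim.ne_zero hg.pos he hB) M
  have h3 := nu_pos (HasLim.ne_zero hg.pos he' hB') M
  exact ht.congr (mul_pos (by positivity) (div_pos h2 h3)) (Dd_lim p m M he he' hB hB')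

/-- comparison of two states -/
private theorem Tm_mono (hc : Chain F P σ) (p : ℕ) (he : e ≠ 0) (he' : e' ≠ 0) {m m' : ℕ}
    (hm : m ≤ m') (hr : Res (σ m).g e) (hr' : Res (σ m).g e') :
    ∃ c : ℝ, 0 ≤ c ∧ Tendsto (fun q => Tm σ p e e' m' q / Tm σ p e e' m q) (LX II) (𝓝 c) := by
  rcases chain_le hc hm with h1 | h1
  · refine ⟨1, zero_le_one, tendsto_const_nhds.congr fun q => ?_⟩
    have h2 : Tm σ p e e' m' q = Tm σ p e e' m q := by
      unfold Tm
      rw [h1]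
    rw [h2, div_self (Tm_pos p he he' m q).ne']
  · have hg := (σ m).st.ok
    have hg' := (σ m').st.ok
    obtain ⟨B, hB, hB0⟩ := hr
    obtain ⟨B', hB', hB0'⟩ := hr'
    have k1 := (ref_frozen hg.pos hg'.pos h1 he hB hB0).2
    have k2 := (ref_frozen hg.pos hg'.pos h1 he' hB' hB0').2
    have k3 := (h1.2.pow p).mul (k1.div k2 (norm_pos_iff.mpr hB0').ne')
    refine ⟨(0 : ℝ) ^ p * (‖B.coeff 0‖ / ‖B'.coeff 0‖), by positivity, k3.congr fun q => ?_⟩
    have p1 := (hg.pos q.1 q.2).ne'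
    have p1' := (hg'.pos q.1 q.2).ne'
    have p2 := (NN_pos hg.pos he q).ne'
    have p3 := (NN_pos hg.pos he' q).ne'
    have p4 := (NN_pos hg'.pos he q).ne'
    have p5 := (NN_pos hg'.pos he' q).ne'
    unfold Tm
    simp only [Pi.div_apply]
    rw [div_pow]
    field_simp

/-- trichotomy for the families `T_m`, `m` large -/
private theorem Tm_tri (hc : Chain F P σ) (p : ℕ) (he : e ≠ 0) (he' : e' ≠ 0) (m1 : ℕ)
    (hr : ∀ m, m1 ≤ m → Res (σ m).g e) (hr' : ∀ m, m1 ≤ m → Res (σ m).g e')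
    (ht : ∀ m, m1 ≤ m → Tame (Tm σ p e e' m)) :
    ∃ m3, m1 ≤ m3 ∧ ((∀ m, m3 ≤ m → Tendsto (Tm σ p e e' m) (LX II) atTop) ∨
      (∀ m, m3 ≤ m → Tendsto (Tm σ p e e' m) (LX II) (𝓝 0)) ∨
      (∀ m, m3 ≤ m → ∃ c : ℝ, 0 < c ∧ Tendsto (Tm σ p e e' m) (LX II) (𝓝 c))) := by
  by_cases h1 : ∀ m, m1 ≤ m → Tendsto (Tm σ p e e' m) (LX II) atTop
  · exact ⟨m1, le_refl _, Or.inl h1⟩
  push Not at h1
  obtain ⟨m2, hm2, h2⟩ := h1
  by_cases h3 : ∃ m3, m2 ≤ m3 ∧ Tendsto (Tm σ p e e' m3) (LX II) (𝓝 0)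
  · obtain ⟨m3, hm3, h4⟩ := h3
    refine ⟨m3, hm2.trans hm3, Or.inr (Or.inl fun m hm => ?_)⟩
    obtain ⟨c, -, h5⟩ := Tm_mono hc p he he' hm (hr _ (hm2.trans hm3)) (hr' _ (hm2.trans hm3))
    have h6 := h5.mul h4
    rw [mul_zero] at h6
    refine h6.congr fun q => ?_
    exact div_mul_cancel₀ _ (Tm_pos p he he' m3 q).ne'
  · push Not at h3
    refine ⟨m2, hm2, Or.inr (Or.inr fun m hm => ?_)⟩
    rcases (ht m (hm2.trans hm)).tri with h4 | h4 | h4
    · exact absurd h4 (h3 m hm)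
    · exact h4
    · exfalso
      apply h2
      obtain ⟨c, hc0, h5⟩ := Tm_mono hc p he he' hm (hr _ hm2) (hr' _ hm2)
      have h6 : ∀ᶠ q in LX II, Tm σ p e e' m q / Tm σ p e e' m2 q < c + 1 :=
        h5.eventually_lt_const (by linarith)
      have h7 : Tendsto (fun q => Tm σ p e e' m q / (c + 1)) (LX II) atTop :=
        h4.atTop_div_const (by linarith)
      refine tendsto_atTop_mono' _ ?_ h7
      filter_upwards [h6] with q hq
      rw [div_lt_iff₀ (Tm_pos p he he' m2 q)] at hq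
      rw [div_le_iff₀ (by linarith), mul_comm]
      exact hq.le

private theorem diag_TInf (D : ℕ → ℕ × ℕ → II → ℝ)
    (h1 : ∀ K : ℝ, ∃ m0, ∀ m, m0 ≤ m → ∃ M0, ∀ M, M0 ≤ M → ∀ᶠ j in UF, ∀ l, K ≤ D j (m, M) l)
    (h2 : ∃ m0, ∀ m, m0 ≤ m → ∀ M, Tame (fun q : ℕ × II => D q.1 (m, M) q.2) ∧
      ¬ Tendsto (fun q : ℕ × II => D q.1 (m, M) q.2) (LX II) (𝓝 0)) :
    Diag (fun x => TInf (fun q => D q.1 (x q.1) q.2)) := by
  have k1 := Diag.tendsto_atTop D h1
  have k2 : Diag (fun x => ∀ k : ℕ, ∀ᶠ j in UF, ∀ l,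
      D j (x j) l ≤ (1 + 1 / ((k : ℝ) + 1)) * D j (x j) 0) := by
    refine Diag.all fun k => ?_
    refine Diag.mk_ev (fun j y => ∀ l, D j y l ≤ (1 + 1 / ((k : ℝ) + 1)) * D j y 0) ?_
    obtain ⟨m0, hm0⟩ := h2
    refine ⟨m0, fun m hm => ⟨0, fun M _ => ?_⟩⟩
    obtain ⟨t1, t2⟩ := hm0 m hm M
    have t3 := t1.not_zero t2 (ε := 1 / ((k : ℝ) + 1)) Nat.one_div_pos_of_nat
    rw [ev_LX] at t3
    exact t3
  refine (k1.and k2).mono fun x hx => ⟨hx.1, fun ε hε => ?_⟩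
  obtain ⟨k, hk⟩ := exists_nat_one_div_lt hε
  have h3 : ∀ᶠ q in LX II, 0 ≤ D q.1 (x q.1) q.2 := hx.1.eventually_ge_atTop 0
  rw [ev_LX] at h3 ⊢
  filter_upwards [h3, hx.2 k] with j hj1 hj2
  intro l
  refine (hj2 l).trans (mul_le_mul_of_nonneg_right ?_ (hj1 0))
  linarith

private theorem resolved (hc : Chain F P σ) (hsub : ∀ ℓ ∈ LN σ, ∀ i, i ∉ W → ℓ i = 0)
    (he : CT W e) {m : ℕ} (hm : e.totalDegree ≤ m) : Res (σ m).g e :=
  chain_res_deg hc he.1 (ct_not_us hc hsub he) hm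

/-- the conclusion for a given power, from the tameness of `T_m` -/
private theorem diag_types (hc : Chain F P σ) (p : ℕ) (he : e ≠ 0) (he' : e' ≠ 0) (m1 : ℕ)
    (hr : ∀ m, m1 ≤ m → Res (σ m).g e) (hr' : ∀ m, m1 ≤ m → Res (σ m).g e')
    (ht : ∀ m, m1 ≤ m → Tame (Tm σ p e e' m)) :
    (Diag (fun x => TInf (fun q => Dd σ p e e' q.1 (x q.1) q.2))) ∨
    (Diag (fun x => TInf (fun q => (Dd σ p e e' q.1 (x q.1) q.2)⁻¹))) ∨
    (∃ m3, m1 ≤ m3 ∧ (∀ m, m3 ≤ m → ∃ c : ℝ, 0 < c ∧ Tendsto (Tm σ p e e' m) (LX II) (𝓝 c)) ∧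
      ∃ C0 : ℝ, 0 < C0 ∧ Diag (fun x => Tendsto (fun q : ℕ × II => Dd σ p e e' q.1 (x q.1) q.2)
        (LX II) (𝓝 C0))) := by
  have hNB : (LX II).NeBot := by
    unfold LX UF
    infer_instance
  obtain ⟨m3, hm3, h | h | h⟩ := Tm_tri hc p he he' m1 hr hr' ht
  · left
    have key : ∀ m, m3 ≤ m → ∀ M,
        Tendsto (fun q : ℕ × II => Dd σ p e e' q.1 (m, M) q.2) (LX II) atTop := by
      intro m hm M
      have hg := (σ m).st.ok
      obtain ⟨B, hB⟩ := hg.lim e he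
      obtain ⟨B', hB'⟩ := hg.lim e' he'
      have h2 := nu_pos (HasLim.ne_zero hg.pos he hB) M
      have h3 := nu_pos (HasLim.ne_zero hg.pos he' hB') M
      have h4 : 0 < (1 / ((M : ℝ) + 1)) ^ p *
        (nm (rs 0 (1 / ((M : ℝ) + 1)) B) / nm (rs 0 (1 / ((M : ℝ) + 1)) B')) :=
        mul_pos (by positivity) (div_pos h2 h3)
      refine ((Dd_lim p m M he he' hB hB').pos_mul_atTop h4 (h m hm)).congr fun q => ?_
      exact div_mul_cancel₀ _ (Tm_pos p he he' m q).ne'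
    refine diag_TInf (Dd σ p e e') (fun K => ⟨m3, fun m hm => ⟨0, fun M _ => ?_⟩⟩)
      ⟨m3, fun m hm M => ⟨Dd_tame p m M he he' (ht m (hm3.trans hm)),
        not_tendsto_nhds_of_tendsto_atTop (key m hm M) 0⟩⟩
    have h5 := (key m hm M).eventually_ge_atTop K
    rw [ev_LX] at h5
    exact h5
  · right
    left
    have key : ∀ m, m3 ≤ m → ∀ M,
        Tendsto (fun q : ℕ × II => (Dd σ p e e' q.1 (m, M) q.2)⁻¹) (LX II) atTop := by
      intro m hm M
      have hg := (σ m).st.ok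
      obtain ⟨B, hB⟩ := hg.lim e he
      obtain ⟨B', hB'⟩ := hg.lim e' he'
      have h6 := (Dd_lim p m M he he' hB hB').mul (h m hm)
      rw [mul_zero] at h6
      have h7 : Tendsto (fun q : ℕ × II => Dd σ p e e' q.1 (m, M) q.2) (LX II) (𝓝[>] 0) := by
        refine tendsto_nhdsWithin_iff.mpr ⟨h6.congr fun q => ?_,
          Filter.Eventually.of_forall fun q => Dd_pos p he he' q.1 (m, M) q.2⟩
        exact div_mul_cancel₀ _ (Tm_pos p he he' m q).ne'
      exact tendsto_inv_nhdsGT_zero.comp h7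
    refine diag_TInf (fun j y l => (Dd σ p e e' j y l)⁻¹)
      (fun K => ⟨m3, fun m hm => ⟨0, fun M _ => ?_⟩⟩)
      ⟨m3, fun m hm M => ⟨(Dd_tame p m M he he' (ht m (hm3.trans hm))).inv,
        not_tendsto_nhds_of_tendsto_atTop (key m hm M) 0⟩⟩
    have h5 := (key m hm M).eventually_ge_atTop K
    rw [ev_LX] at h5
    exact h5
  · -- positive limits
    have lim1 : ∀ m, m3 ≤ m → ∀ c : ℝ, Tendsto (Tm σ p e e' m) (LX II) (𝓝 c) → ∀ B B',
        HasLim (σ m).g e B → HasLim (σ m).g e' B' → ∀ M : ℕ,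
        Tendsto (fun q : ℕ × II => Dd σ p e e' q.1 (m, M) q.2) (LX II)
          (𝓝 ((1 / ((M : ℝ) + 1)) ^ p *
            (nm (rs 0 (1 / ((M : ℝ) + 1)) B) / nm (rs 0 (1 / ((M : ℝ) + 1)) B')) * c)) := by
      intro m hm c hc1 B B' hB hB' M
      refine ((Dd_lim p m M he he' hB hB').mul hc1).congr fun q => ?_
      exact div_mul_cancel₀ _ (Tm_pos p he he' m q).ne'
    have lim2 : ∀ (c : ℝ) (B B' : MvPolynomial (Fin n) ℂ), B'.coeff 0 ≠ 0 →
        Tendsto (fun M : ℕ => (1 / ((M : ℝ) + 1)) ^ p *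
            (nm (rs 0 (1 / ((M : ℝ) + 1)) B) / nm (rs 0 (1 / ((M : ℝ) + 1)) B')) * c) atTop
          (𝓝 ((0 : ℝ) ^ p * (‖B.coeff 0‖ / ‖B'.coeff 0‖) * c)) := by
      intro c B B' hB'
      exact (((tendsto_one_div_add_atTop_nhds_zero_nat (𝕜 := ℝ)).pow p).mul
        ((nu_lim B).div (nu_lim B') (norm_pos_iff.mpr hB').ne')).mul_const c
    rcases Nat.eq_zero_or_pos p with hp | hp
    · right
      right
      subst hp
      obtain ⟨c3, hc3, hT3⟩ := h m3 (le_refl _)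
      obtain ⟨B3, hB3, hB30⟩ := hr m3 hm3
      obtain ⟨B3', hB3', hB30'⟩ := hr' m3 hm3
      refine ⟨m3, hm3, h, ‖B3.coeff 0‖ / ‖B3'.coeff 0‖ * c3,
        mul_pos (div_pos (norm_pos_iff.mpr hB30) (norm_pos_iff.mpr hB30')) hc3, ?_⟩
      refine Diag.tendsto (Dd σ 0 e e') _ fun ε hε => ⟨m3, fun m hm => ?_⟩
      obtain ⟨c, hc0, hT⟩ := h m hm
      obtain ⟨B, hB, hB0⟩ := hr m (hm3.trans hm)
      obtain ⟨B', hB', hB0'⟩ := hr' m (hm3.trans hm)
      -- the limit does not depend on `m`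
      have hC : ‖B.coeff 0‖ / ‖B'.coeff 0‖ * c = ‖B3.coeff 0‖ / ‖B3'.coeff 0‖ * c3 := by
        rcases chain_le hc hm with h8 | h8
        · have hT' : Tm σ 0 e e' m = Tm σ 0 e e' m3 := by
            funext q
            unfold Tm
            rw [h8]
          rw [hT'] at hT
          have e1 : c = c3 := tendsto_nhds_unique hT hT3
          rw [h8] at hB hB'
          have e2 : B = B3 := HasLim.unique hB hB3
          have e3 : B' = B3' := HasLim.unique hB' hB3'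
          rw [e1, e2, e3]
        · have hg := (σ m).st.ok
          have hg3 := (σ m3).st.ok
          have k1 := ref_frozen hg3.pos hg.pos h8 he hB3 hB30
          have k2 := ref_frozen hg3.pos hg.pos h8 he' hB3' hB30'
          have e2 := HasLim.unique hB k1.1
          have e3 := HasLim.unique hB' k2.1
          have n1 : ‖B.coeff 0‖ = 1 := by
            rw [e2, coeff_C, if_pos rfl, norm_div, Complex.norm_real, norm_norm,
              div_self (norm_pos_iff.mpr hB30).ne']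
          have n2 : ‖B'.coeff 0‖ = 1 := by
            rw [e3, coeff_C, if_pos rfl, norm_div, Complex.norm_real, norm_norm,
              div_self (norm_pos_iff.mpr hB30').ne']
          have k3 := (k1.2.div k2.2 (norm_pos_iff.mpr hB30').ne').mul hT3
          have k4 : c = ‖B3.coeff 0‖ / ‖B3'.coeff 0‖ * c3 := by
            refine tendsto_nhds_unique hT (k3.congr fun q => ?_)
            have p2 := (NN_pos hg.pos he q).ne'
            have p3 := (NN_pos hg.pos he' q).ne'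
            have p4 := (NN_pos hg3.pos he q).ne'
            have p5 := (NN_pos hg3.pos he' q).ne'
            unfold Tm
            simp only [Pi.div_apply]
            rw [pow_zero, pow_zero]
            field_simp
          rw [n1, n2, ← k4]
          norm_num
      have l2 := lim2 c B B' hB0'
      rw [pow_zero, one_mul, hC] at l2
      obtain ⟨M0, hM0⟩ := (Metric.tendsto_atTop.mp l2) (ε / 2) (half_pos hε)
      refine ⟨M0, fun M hM => ?_⟩
      have l1 := lim1 m hm c hT B B' hB hB' M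
      have l3 := (Metric.tendsto_nhds.mp l1) (ε / 2) (half_pos hε)
      rw [ev_LX] at l3
      filter_upwards [l3] with j hj
      intro l
      have a1 := hj l
      have a2 := hM0 M hM
      have a3 := dist_triangle (Dd σ 0 e e' j (m, M) l) ((1 / ((M : ℝ) + 1)) ^ 0 *
            (nm (rs 0 (1 / ((M : ℝ) + 1)) B) / nm (rs 0 (1 / ((M : ℝ) + 1)) B')) * c)
            (‖B3.coeff 0‖ / ‖B3'.coeff 0‖ * c3)
      rw [← dist_eq_norm]
      linarith
    · right
      left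
      have key : ∀ m, m3 ≤ m → ∃ L : ℕ → ℝ, (∀ M, 0 < L M) ∧ Tendsto L atTop atTop ∧
          ∀ M, Tendsto (fun q : ℕ × II => (Dd σ p e e' q.1 (m, M) q.2)⁻¹) (LX II) (𝓝 (L M)) := by
        intro m hm
        obtain ⟨c, hc0, hT⟩ := h m hm
        obtain ⟨B, hB, hB0⟩ := hr m (hm3.trans hm)
        obtain ⟨B', hB', hB0'⟩ := hr' m (hm3.trans hm)
        have hg := (σ m).st.ok
        have hpos : ∀ M : ℕ, 0 < (1 / ((M : ℝ) + 1)) ^ p *
            (nm (rs 0 (1 / ((M : ℝ) + 1)) B) / nm (rs 0 (1 / ((M : ℝ) + 1)) B')) * c := by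
          intro M
          have h2 := nu_pos (HasLim.ne_zero hg.pos he hB) M
          have h3 := nu_pos (HasLim.ne_zero hg.pos he' hB') M
          exact mul_pos (mul_pos (by positivity) (div_pos h2 h3)) hc0
        refine ⟨fun M => ((1 / ((M : ℝ) + 1)) ^ p *
            (nm (rs 0 (1 / ((M : ℝ) + 1)) B) / nm (rs 0 (1 / ((M : ℝ) + 1)) B')) * c)⁻¹,
          fun M => inv_pos.mpr (hpos M), ?_, ?_⟩
        · have l2 := lim2 c B B' hB0'
          rw [zero_pow hp.ne', zero_mul, zero_mul] at l2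
          exact tendsto_inv_nhdsGT_zero.comp (tendsto_nhdsWithin_iff.mpr
            ⟨l2, Filter.Eventually.of_forall hpos⟩)
        · intro M
          exact (lim1 m hm c hT B B' hB hB' M).inv₀ (hpos M).ne'
      refine diag_TInf (fun j y l => (Dd σ p e e' j y l)⁻¹)
        (fun K => ⟨m3, fun m hm => ?_⟩) ⟨m3, fun m hm M => ?_⟩
      · obtain ⟨L, hL, hL2, hL3⟩ := key m hm
        obtain ⟨M0, hM0⟩ := (Filter.tendsto_atTop.mp hL2 (K + 1)).exists_forall_of_atTop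
        refine ⟨M0, fun M hM => ?_⟩
        have h9 := (hL3 M).eventually_const_lt (u := K) (by linarith [hM0 M hM])
        rw [ev_LX] at h9
        filter_upwards [h9] with j hj
        exact fun l => (hj l).le
      · obtain ⟨L, hL, hL2, hL3⟩ := key m hm
        refine ⟨(Dd_tame p m M he he' (ht m (hm3.trans hm))).inv, fun h9 => ?_⟩
        exact (hL M).ne' (tendsto_nhds_unique (hL3 M) h9)

theorem diag_tame (hc : Chain F P σ) (hsub : ∀ ℓ ∈ LN σ, ∀ i, i ∉ W → ℓ i = 0)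
    (hQ : US σ Q) {a : ℂ} (ha : a ≠ 0) {i : Fin n}
    (hI : Ini σ Q 1 (C a * X i)) (he : CT W e) (he' : CT W e') (p : ℕ) :
    Diag (fun x => Tame (fun q => (dg σ x).b q.1 q.2 ^ p *
      (NN (dg σ x) e q / NN (dg σ x) e' q))) := by
  obtain ⟨m0, hm0⟩ := tame_m hc hQ ha hI he.1 he'.1 p
  have heq : ∀ x : ℕ → ℕ × ℕ, (fun q : ℕ × II => (dg σ x).b q.1 q.2 ^ p *
      (NN (dg σ x) e q / NN (dg σ x) e' q)) = fun q => Dd σ p e e' q.1 (x q.1) q.2 :=
    fun x => rfl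
  have hpos : ∀ x : ℕ → ℕ × ℕ, ∀ᶠ q in LX II, 0 < Dd σ p e e' q.1 (x q.1) q.2 :=
    fun x => Filter.Eventually.of_forall fun q => Dd_pos p he.1 he'.1 q.1 (x q.1) q.2
  rcases diag_types hc p he.1 he'.1 (max m0 (max e.totalDegree e'.totalDegree))
    (fun m hm => resolved hc hsub he (le_trans (by simp) hm))
    (fun m hm => resolved hc hsub he' (le_trans (by simp) hm))
    (fun m hm => hm0 m (le_trans (le_max_left _ _) hm)) with h | h | ⟨m3, -, -, C0, hC0, h⟩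
  · refine h.mono fun x hx => ?_
    rw [heq]
    exact ⟨hpos x, Or.inl hx⟩
  · refine h.mono fun x hx => ?_
    rw [heq]
    exact ⟨hpos x, Or.inr (Or.inl hx)⟩
  · refine h.mono fun x hx => ?_
    rw [heq]
    exact ⟨hpos x, Or.inr (Or.inr ⟨C0, hC0, hx⟩)⟩

theorem diag_incmp (hc : Chain F P σ) (hsub : ∀ ℓ ∈ LN σ, ∀ i, i ∉ W → ℓ i = 0)
    (he : CT W e) (he' : CT W e') (d : ℕ) (hne : ∀ D, d ≤ D → ¬ Cmp (σ D).g e e') :
    Diag (fun x => ¬ Cmp (dg σ x) e e') := by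
  have hNB : (LX II).NeBot := by
    unfold LX UF
    infer_instance
  have hT : ∀ m, Tm σ 0 e e' m = fun q => NN (σ m).g e q / NN (σ m).g e' q := by
    intro m
    funext q
    unfold Tm
    rw [pow_zero, one_mul]
  have heq : ∀ x : ℕ → ℕ × ℕ, (fun q : ℕ × II => NN (dg σ x) e q / NN (dg σ x) e' q) =
      fun q => Dd σ 0 e e' q.1 (x q.1) q.2 := by
    intro x
    funext q
    unfold Dd
    rw [pow_zero, one_mul]
    rfl
  rcases diag_types hc 0 he.1 he'.1 (max d (max e.totalDegree e'.totalDegree))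
    (fun m hm => resolved hc hsub he (le_trans (by simp) hm))
    (fun m hm => resolved hc hsub he' (le_trans (by simp) hm))
    (fun m _ => by
      rw [hT]
      exact (σ m).st.ok.tame e e' he.1 he'.1) with h | h | ⟨m3, hm3, h, -⟩
  · refine h.mono fun x hx hcmp => ?_
    obtain ⟨c, -, hc2⟩ := hcmp
    rw [heq] at hc2
    exact not_tendsto_nhds_of_tendsto_atTop hx.1 c hc2
  · refine h.mono fun x hx hcmp => ?_
    obtain ⟨c, hc1, hc2⟩ := hcmp
    rw [heq] at hc2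
    exact not_tendsto_nhds_of_tendsto_atTop hx.1 c⁻¹ (hc2.inv₀ hc1.ne')
  · exfalso
    obtain ⟨c, hc1, hc2⟩ := h m3 (le_refl _)
    rw [hT] at hc2
    exact hne m3 (le_trans (le_max_left _ _) hm3) ⟨c, hc1, hc2⟩

end Pool.Agent.H51.BJ
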