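import Pool.Agent.H51.BJ.STA

/-! # [H51 BJ DGF] From a basis of incomparable elements to all of `ℂ[t]`

`g` is a germ (only positivity of the radii is used). `dominant'` is `dominant` of STA with tameness
of the ratios of the family as hypothesis (the same proof). `ct_all`: `f ≠ 0` is `∑_{e ∈ s} a_e e` with
`s ⊆ S` nonempty and `a_e ≠ 0`; one `e_* ∈ s` dominates, so `rg f/NN e_* → a_* lim` (`HasLim.add_small`,
`HasLim.C_mul`, or directly `HasLim.of_norm`), hence the limit is constant and `NN f/NN e_*` tends to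
`|a_*| > 0`. `tame`: `Tame.congr`. -/

set_option autoImplicit false

open MvPolynomial Filter Pool.Agent.H60 Pool.Agent.H57.BJ
open scoped Topology

noncomputable section

namespace Pool.Agent.H51.BJ

variable {n : ℕ} {g : Germ n} {W : Finset (Fin n)}

theorem dominant' (hb : ∀ j l, 0 < g.b j l) (s : Finset (MvPolynomial (Fin n) ℂ))
    (h0 : ∀ e ∈ s, e ≠ 0) (hs : s.Nonempty)
    (ht : ∀ e ∈ s, ∀ e' ∈ s, Tame (fun q => NN g e q / NN g e' q))
    (hc : ∀ e ∈ s, ∀ e' ∈ s, e ≠ e' → ¬ Cmp g e e') :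
    ∃ k ∈ s, ∀ e ∈ s, e ≠ k → Tendsto (fun q => NN g e q / NN g k q) (LX II) (𝓝 0) := by
  classical
  induction s using Finset.induction_on with
  | empty => exact absurd hs Finset.not_nonempty_empty
  | insert x s hx ih =>
    rcases s.eq_empty_or_nonempty with rfl | hs'
    · refine ⟨x, Finset.mem_insert_self _ _, fun i hi hne => ?_⟩
      rw [Finset.mem_insert] at hi
      rcases hi with rfl | hi
      · exact absurd rfl hne
      · exact absurd hi (Finset.notMem_empty _)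
    obtain ⟨k, hk, hk2⟩ := ih (fun e he => h0 e (Finset.mem_insert_of_mem he)) hs'
      (fun e he e' he' => ht e (Finset.mem_insert_of_mem he) e' (Finset.mem_insert_of_mem he'))
      (fun e he e' he' => hc e (Finset.mem_insert_of_mem he) e' (Finset.mem_insert_of_mem he'))
    have hxk : x ≠ k := fun h => hx (h ▸ hk)
    have hxm := Finset.mem_insert_self x s
    have hkm := Finset.mem_insert_of_mem (a := k) (b := x) hk
    rcases (ht x hxm k hkm).tri with h1 | h1 | h1
    · refine ⟨k, hkm, fun i hi hne => ?_⟩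
      rw [Finset.mem_insert] at hi
      rcases hi with rfl | hi
      · exact h1
      · exact hk2 i hi hne
    · exact absurd h1 (hc x hxm k hkm hxk)
    · have h2 : Tendsto (fun q => NN g k q / NN g x q) (LX II) (𝓝 0) := by
        refine (tendsto_inv_atTop_zero.comp h1).congr fun q => ?_
        rw [Function.comp_apply, inv_div]
      refine ⟨x, hxm, fun i hi hne => ?_⟩
      rw [Finset.mem_insert] at hi
      rcases hi with rfl | hi
      · exact absurd rfl hne
      · by_cases hik : i = k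
        · rw [hik]
          exact h2
        · have h3 := (hk2 i hi hik).mul h2
          rw [zero_mul] at h3
          refine h3.congr fun q => ?_
          exact div_mul_div_cancel₀ (NN_pos hb (h0 k hkm) q).ne'

/-- every nonzero element of `ℂ[t]` has a constant limit and a norm comparable with one of `G` -/
theorem ct_all (hb : ∀ j l, 0 < g.b j l) (S : ℕ → Finset (MvPolynomial (Fin n) ℂ))
    (h0 : ∀ d, ∀ e ∈ S d, CT W e)
    (hl : ∀ d, ∀ e ∈ S d, ∃ a : ℂ, a ≠ 0 ∧ HasLim g e (C a))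
    (ht : ∀ d, ∀ e ∈ S d, ∀ e' ∈ S d, Tame (fun q => NN g e q / NN g e' q))
    (hc : ∀ d, ∀ e ∈ S d, ∀ e' ∈ S d, e ≠ e' → ¬ Cmp g e e')
    (hs : ∀ d, ∀ f, CT W f → f.totalDegree ≤ d →
      f ∈ Submodule.span ℂ (S d : Set (MvPolynomial (Fin n) ℂ)))
    (f : MvPolynomial (Fin n) ℂ) (hf : CT W f) :
    (∃ a : ℂ, a ≠ 0 ∧ HasLim g f (C a)) ∧ ∃ e ∈ S f.totalDegree, Cmp g f e := by
  classical
  obtain ⟨d, hd⟩ : ∃ d, d = f.totalDegree := ⟨_, rfl⟩
  have hspan := hs d f hf hd.ge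
  rw [← hd]
  obtain ⟨a, -, ha⟩ := Submodule.mem_span_finset.mp hspan
  obtain ⟨t, ht'⟩ : ∃ t, t = (S d).filter (fun e => a e ≠ 0) := ⟨_, rfl⟩
  have htm : ∀ e, e ∈ t ↔ e ∈ S d ∧ a e ≠ 0 := fun e => by rw [ht', Finset.mem_filter]
  have hsum : ∑ e ∈ t, a e • e = f := by
    rw [← ha, ht']
    refine Finset.sum_subset (Finset.filter_subset _ _) fun e he hne => ?_
    have h1 : a e = 0 := by
      by_contra h2
      exact hne (Finset.mem_filter.mpr ⟨he, h2⟩)
    rw [h1, zero_smul]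
  have htn : t.Nonempty := by
    rw [Finset.nonempty_iff_ne_empty]
    rintro rfl
    rw [Finset.sum_empty] at hsum
    exact hf.1 hsum.symm
  obtain ⟨k, hk, hk2⟩ := dominant' hb t (fun e he => (h0 d e ((htm e).mp he).1).1) htn
    (fun e he e' he' => ht d e ((htm e).mp he).1 e' ((htm e').mp he').1)
    (fun e he e' he' => hc d e ((htm e).mp he).1 e' ((htm e').mp he').1)
  obtain ⟨hkS, hak⟩ := (htm k).mp hk
  have hk0 : k ≠ 0 := (h0 d k hkS).1
  obtain ⟨c, hc0, hck⟩ := hl d k hkS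
  obtain ⟨h1, h2⟩ := HasLim.C_mul hb hk0 hak hck
  have hck0 : (C (a k) : MvPolynomial (Fin n) ℂ) * k ≠ 0 :=
    mul_ne_zero (fun h => hak (C_eq_zero.mp h)) hk0
  obtain ⟨r, hr⟩ : ∃ r, r = ∑ e ∈ t.erase k, (C (a e) : MvPolynomial (Fin n) ℂ) * e := ⟨_, rfl⟩
  have hfr : f = C (a k) * k + r := by
    rw [← hsum, ← Finset.add_sum_erase t _ hk, hr, MvPolynomial.smul_eq_C_mul]
    congr 1
    refine Finset.sum_congr rfl fun e _ => ?_
    rw [MvPolynomial.smul_eq_C_mul]
  have hrs : Tendsto (fun q => NN g r q / NN g (C (a k) * k) q) (LX II) (𝓝 0) := by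
    have h3 : Tendsto (fun q => ∑ e ∈ t.erase k, ‖a e‖ / ‖a k‖ * (NN g e q / NN g k q)) (LX II)
        (𝓝 (∑ e ∈ t.erase k, ‖a e‖ / ‖a k‖ * 0)) := by
      refine tendsto_finset_sum _ fun e he => ?_
      exact (hk2 e (Finset.mem_of_mem_erase he) (Finset.ne_of_mem_erase he)).const_mul _
    simp only [mul_zero, Finset.sum_const_zero] at h3
    refine squeeze_zero (fun q => div_nonneg (nm_nonneg _) (nm_nonneg _)) (fun q => ?_) h3
    rw [h2 q, div_le_iff₀ (mul_pos (norm_pos_iff.mpr hak) (NN_pos hb hk0 q)), hr]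
    refine (NN_sum_le _ _ q).trans (le_of_eq ?_)
    rw [Finset.sum_mul]
    refine Finset.sum_congr rfl fun e _ => ?_
    have p1 := norm_pos_iff.mpr hak
    have p2 := NN_pos hb hk0 q
    rw [NN_C_mul]
    field_simp
  obtain ⟨-, h4, h5⟩ := HasLim.add_small hb hck0 h1 hrs
  rw [← hfr] at h4 h5
  refine ⟨⟨a k / ‖a k‖ * c, ?_, ?_⟩, k, hkS, ‖a k‖, norm_pos_iff.mpr hak, ?_⟩
  · refine mul_ne_zero (div_ne_zero hak ?_) hc0
    exact_mod_cast (norm_pos_iff.mpr hak).ne'
  · rw [C_mul]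
    exact h4
  · have h6 := h5.const_mul ‖a k‖
    rw [mul_one] at h6
    refine h6.congr fun q => ?_
    have p1 := norm_pos_iff.mpr hak
    have p2 := NN_pos hb hk0 q
    rw [h2 q]
    field_simp

/-- tameness of the ratios for all of `ℂ[t]` from the countable set -/
theorem tame_all (hb : ∀ j l, 0 < g.b j l) (G : Set (MvPolynomial (Fin n) ℂ))
    (hG : ∀ e ∈ G, e ≠ 0)
    (ht : ∀ e ∈ G, ∀ e' ∈ G, ∀ p : ℕ, Tame (fun q => g.b q.1 q.2 ^ p * (NN g e q / NN g e' q)))
    {f h : MvPolynomial (Fin n) ℂ} (hf0 : f ≠ 0) (hh0 : h ≠ 0) (hf : ∃ e ∈ G, Cmp g f e)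
    (hh : ∃ e ∈ G, Cmp g h e) (p : ℕ) :
    Tame (fun q => g.b q.1 q.2 ^ p * (NN g f q / NN g h q)) := by
  obtain ⟨e, he, c, hc, h1⟩ := hf
  obtain ⟨e', he', d, hd, h2⟩ := hh
  refine (ht e he e' he' p).congr (c := c / d) (div_pos hc hd) ?_
  refine (h1.div h2 hd.ne').congr fun q => ?_
  have p1 := NN_pos hb hf0 q
  have p2 := NN_pos hb hh0 q
  have p3 := NN_pos hb (hG e he) q
  have p4 := NN_pos hb (hG e' he') q
  have p5 := pow_pos (hb q.1 q.2) p
  simp only [Pi.div_apply]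
  field_simp

end Pool.Agent.H51.BJ
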