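import Pool.Agent.H57.BJ.Defs

/-! # [H51 BJ] Definitions for the proof of S06801 (all `n`, all `P`), see proofs id 313

`UF` is the fixed ultrafilter, `LX X` the filter of statements which hold for `UF`-many `j`
uniformly in `x : X`. A germ is a path (parameter in `II = [0,1]`) of centres `c` and radii `b`,
for every `j`. `rs c b f` is the rescaled polynomial `s ↦ f (c + b s)`, `nm` the sum of the
absolute values of the coefficients. -/

set_option autoImplicit false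

open MvPolynomial Filter Pool.Agent.H60 Pool.Agent.H57.BJ
open scoped Topology

noncomputable section

namespace Pool.Agent.H51.BJ

variable {n : ℕ}

/-- the nonprincipal ultrafilter, as a filter -/
abbrev UF : Filter ℕ := (Filter.hyperfilter ℕ : Filter ℕ)

/-- statements which hold for `UF`-many `j`, uniformly in `x : X` -/
abbrev LX (X : Type*) : Filter (ℕ × X) := UF ×ˢ (⊤ : Filter X)

/-- the parameter interval `[0,1]` -/
abbrev II : Type := ↥unitInterval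

/-- the hermitian product -/
def hp (x y : V n) : ℂ := ∑ i, x i * (starRingEnd ℂ) (y i)

/-- the euclidean norm -/
def nr (z : V n) : ℝ := Real.sqrt (Nn z)

/-- the polynomial `s ↦ f (c + b s)` -/
def rs (c : V n) (b : ℝ) (f : MvPolynomial (Fin n) ℂ) : MvPolynomial (Fin n) ℂ :=
  bind₁ (fun i => C (c i) + C (b : ℂ) * X i) f

/-- the sum of the absolute values of the coefficients -/
def nm (p : MvPolynomial (Fin n) ℂ) : ℝ := ∑ m ∈ p.support, ‖p.coeff m‖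

/-- coefficientwise convergence of polynomials -/
def PT {ι : Type*} (L : Filter ι) (p : ι → MvPolynomial (Fin n) ℂ)
    (B : MvPolynomial (Fin n) ℂ) : Prop :=
  ∀ m, Tendsto (fun i => (p i).coeff m) L (𝓝 (B.coeff m))

/-- a family of centres and radii -/
structure Germ (n : ℕ) where
  c : ℕ → II → V n
  b : ℕ → II → ℝ

/-- the rescaled polynomial of `f` at a germ -/
def rg (g : Germ n) (f : MvPolynomial (Fin n) ℂ) (q : ℕ × II) : MvPolynomial (Fin n) ℂ :=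
  rs (g.c q.1 q.2) (g.b q.1 q.2) f

/-- the norm of `f` at a germ -/
def NN (g : Germ n) (f : MvPolynomial (Fin n) ℂ) (q : ℕ × II) : ℝ := nm (rg g f q)

/-- `B` is the limit of the normalised germ of `f` -/
def HasLim (g : Germ n) (f B : MvPolynomial (Fin n) ℂ) : Prop :=
  PT (LX II) (fun q => C ((NN g f q : ℂ)⁻¹) * rg g f q) B

/-- positive families tending to infinity, almost maximal at the parameter `0` -/
def TInf (h : ℕ × II → ℝ) : Prop :=
  Tendsto h (LX II) atTop ∧ ∀ ε : ℝ, 0 < ε → ∀ᶠ q in LX II, h q ≤ (1 + ε) * h (q.1, 0)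

/-- tame positive families -/
def Tame (h : ℕ × II → ℝ) : Prop :=
  (∀ᶠ q in LX II, 0 < h q) ∧
    (TInf h ∨ TInf (fun q => (h q)⁻¹) ∨ ∃ c : ℝ, 0 < c ∧ Tendsto h (LX II) (𝓝 c))

/-- tame germs -/
structure GOk (g : Germ n) : Prop where
  cc : ∀ j, Continuous (g.c j)
  cb : ∀ j, Continuous (g.b j)
  pos : ∀ j l, 0 < g.b j l
  lim : ∀ f, f ≠ 0 → ∃ B, HasLim g f B
  tame : ∀ f h, f ≠ 0 → h ≠ 0 → Tame (fun q => NN g f q / NN g h q)

/-- the contact conditions -/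
structure Con (F : ℕ → V n → ℂ) (g : Germ n) (z κ : ℕ → V n) : Prop where
  z0 : Tendsto (fun j => ‖z j - g.c j 0‖ / g.b j 0) UF (𝓝 0)
  k0 : Tendsto (fun j => ‖κ j - g.c j 1‖ / g.b j 1) UF (𝓝 0)
  zt : Tendsto (fun j => nr (z j)) UF atTop
  kt : Tendsto (fun j => nr (κ j)) UF atTop
  zb : ∀ᶠ j in UF, g.b j 0 ≤ 2 * nr (z j)
  kb : ∀ᶠ j in UF, g.b j 1 ≤ 2 * nr (κ j)
  bb : ∀ᶠ j in UF, g.b j 1 ≤ 2 * g.b j 0
  up : ∀ ε : ℝ, 0 < ε → ∀ᶠ j in UF, ∀ s : V n, nr s ≤ g.b j 0 / 10 →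
    ‖F j (z j + s)‖ ≤ 2 * ‖F j (z j)‖ *
      Real.exp ((hp s (κ j)).re + (1 + ε) / 2 * (g.b j 1 / g.b j 0) * Nn s)
  low : ∀ ε : ℝ, 0 < ε → ∀ᶠ j in UF,
    Real.exp ((1 / 4 - ε) * (nr (z j) * nr (κ j))) ≤ ‖F j (z j)‖

/-- states -/
structure St (F : ℕ → V n → ℂ) (g : Germ n) (z κ : ℕ → V n) : Prop where
  ok : GOk g
  top : Tendsto (fun q : ℕ × II => g.b q.1 q.2) (LX II) atTop
  con : Con F g z κ

/-- bundled states -/
structure SS (F : ℕ → V n → ℂ) where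
  g : Germ n
  z : ℕ → V n
  κ : ℕ → V n
  st : St F g z κ

/-- `g'` is a refinement of `g` -/
def Ref (g' g : Germ n) : Prop :=
  Tendsto (fun q : ℕ × II => ‖g'.c q.1 q.2 - g.c q.1 q.2‖ / g.b q.1 q.2) (LX II) (𝓝 0) ∧
    Tendsto (fun q : ℕ × II => g'.b q.1 q.2 / g.b q.1 q.2) (LX II) (𝓝 0)

/-- `f` is resolved at `g` -/
def Res (g : Germ n) (f : MvPolynomial (Fin n) ℂ) : Prop :=
  ∃ B, HasLim g f B ∧ B.coeff 0 ≠ 0

/-- stable chains of states at which `P` is not resolved -/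
structure Chain (F : ℕ → V n → ℂ) (P : MvPolynomial (Fin n) ℂ) (σ : ℕ → SS F) : Prop where
  ref : ∀ D, σ (D + 1) = σ D ∨ Ref (σ (D + 1)).g (σ D).g
  stab : ∀ (D : ℕ) (τ : SS F), Ref τ.g (σ D).g → ∀ f : MvPolynomial (Fin n) ℂ,
    f.totalDegree ≤ D → Res τ.g f → Res (σ D).g f
  unr : ∀ D, ¬ Res (σ D).g P

/-- the never resolved polynomials -/
def US {F : ℕ → V n → ℂ} (σ : ℕ → SS F) (f : MvPolynomial (Fin n) ℂ) : Prop :=
  f ≠ 0 ∧ ∀ D, ¬ Res (σ D).g f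

/-- `A` is (up to positive factors) the initial form, of degree `μ`, of the limits of `f` -/
def Ini {F : ℕ → V n → ℂ} (σ : ℕ → SS F) (f : MvPolynomial (Fin n) ℂ) (μ : ℕ)
    (A : MvPolynomial (Fin n) ℂ) : Prop :=
  A.IsHomogeneous μ ∧ A ≠ 0 ∧ ∃ D0, ∀ D, D0 ≤ D → ∃ (B : MvPolynomial (Fin n) ℂ) (t : ℝ),
    HasLim (σ D).g f B ∧ 0 < t ∧ (∀ m : Fin n →₀ ℕ, m.degree < μ → B.coeff m = 0) ∧
      ∀ m : Fin n →₀ ℕ, m.degree = μ → B.coeff m = t * A.coeff m

/-- the linear form with coefficients `ℓ` -/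
def lf (ℓ : V n) : MvPolynomial (Fin n) ℂ := ∑ i, C (ℓ i) * X i

/-- the linear forms which are initial forms of never resolved polynomials -/
def LN {F : ℕ → V n → ℂ} (σ : ℕ → SS F) : Set (V n) :=
  {ℓ | ∃ f, US σ f ∧ Ini σ f 1 (lf ℓ)}

/-- polynomials in the variables outside `W` -/
def CT (W : Finset (Fin n)) (f : MvPolynomial (Fin n) ℂ) : Prop :=
  f ≠ 0 ∧ f ∈ MvPolynomial.supported ℂ ((W : Set (Fin n))ᶜ)

/-- adapted chains: the span of the linear limits is the span of the coordinates in `W` -/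
structure Ad (F : ℕ → V n → ℂ) (P : MvPolynomial (Fin n) ℂ) (σ : ℕ → SS F)
    (W : Finset (Fin n)) : Prop where
  ch : Chain F P σ
  sub : ∀ ℓ ∈ LN σ, ∀ i, i ∉ W → ℓ i = 0
  sup : ∀ i ∈ W, (Pi.single i 1 : V n) ∈ Submodule.span ℂ (LN σ)
  ne : W.Nonempty

/-- the data of the problem: solutions `h j` with right sides of exponential type `ρ` -/
structure Dat (P : MvPolynomial (Fin n) ℂ) (h : ℕ → V n → ℂ) : Prop where
  ne : P ≠ 0
  diff : ∀ j, Differentiable ℂ (h j)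
  rhs : ∃ ρ : ℝ, ∀ j z, ‖Tf P (h j) z‖ ≤ Real.exp (ρ * nr z)

/-- the functions `P h` -/
def FF (P : MvPolynomial (Fin n) ℂ) (h : ℕ → V n → ℂ) (j : ℕ) (z : V n) : ℂ := ev P z * h j z

/-- pre-states: the diagonal of an adapted chain -/
structure Pre (F : ℕ → V n → ℂ) (W : Finset (Fin n)) (g : Germ n) (z κ : ℕ → V n)
    (Q : Fin n → MvPolynomial (Fin n) ℂ) (φ : Fin n → ℂ) : Prop where
  cc : ∀ j, Continuous (g.c j)
  cb : ∀ j, Continuous (g.b j)
  pos : ∀ j l, 0 < g.b j l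
  top : Tendsto (fun q : ℕ × II => g.b q.1 q.2) (LX II) atTop
  con : Con F g z κ
  sup : ∀ i ∈ W, Q i ∈ MvPolynomial.supported ℂ (((W : Set (Fin n))ᶜ) ∪ {i})
  phi : ∀ i ∈ W, φ i ≠ 0
  limQ : ∀ i ∈ W, HasLim g (Q i) (C (φ i) * X i)
  limT : ∀ f, CT W f → ∃ a : ℂ, a ≠ 0 ∧ HasLim g f (C a)
  tame : ∀ f h, CT W f → CT W h → ∀ p : ℕ,
    Tame (fun q => g.b q.1 q.2 ^ p * (NN g f q / NN g h q))

end Pool.Agent.H51.BJ
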