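import Pool.Agent.H51.BJ.HLB
import Pool.Agent.H57.BJ.BUJ

/-! # [H51 BJ EGG] The two good situations for the blow-up theorem

`shift z P = rs z 1 P` (`shift_eq_rs`), `Ps (shift κ P) = shift (conj κ) (Ps P)` and `Ps` commutes
with coefficientwise limits (`coeff (Ps p) = conj coeff p`). The norm `nm (shift κ P)` is bounded below
by the norm of the component of top degree of `P` (it is not changed by the shift), so the
normalising factors `N'` are bounded below. -/

set_option autoImplicit false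

open MvPolynomial Filter Pool.Agent.H60 Pool.Agent.H57.BJ
open scoped Topology

noncomputable section

namespace Pool.Agent.H51.BJ

variable {n : ℕ} {g : Germ n} {z κ : ℕ → V n} {P B : MvPolynomial (Fin n) ℂ}

/-- the conjugate points -/
def cjv (κ : ℕ → V n) (j : ℕ) : V n := fun i => (starRingEnd ℂ) (κ j i)

/-- the top coefficients of a rescaled monomial -/
theorem coeff_rs_monomial (c : V n) (b : ℝ) (s : Fin n →₀ ℕ) : ∀ m : Fin n →₀ ℕ,
    s.degree ≤ m.degree → (rs c b (monomial s (1 : ℂ))).coeff m =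
      if m = s then (b : ℂ) ^ s.degree else 0 := by
  classical
  obtain ⟨d, hd⟩ : ∃ d, d = s.degree := ⟨_, rfl⟩
  induction d generalizing s with
  | zero =>
    intro m hm
    have hs : s = 0 := (Finsupp.degree_eq_zero_iff s).mp hd.symm
    subst hs
    have h1 : (monomial (0 : Fin n →₀ ℕ) (1 : ℂ)) = C 1 := rfl
    rw [h1, rs_C, coeff_C]
    by_cases h : m = 0
    · subst h; simp
    · simp [h, Ne.symm h]
  | succ d ih =>
    intro m hm
    obtain ⟨i, hi⟩ : ∃ i, s i ≠ 0 := by
      by_contra hcon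
      push Not at hcon
      have : s = 0 := Finsupp.ext hcon
      rw [this] at hd
      simp at hd
    obtain ⟨s', hs'⟩ : ∃ s', s = s' + Finsupp.single i 1 := by
      refine ⟨s - Finsupp.single i 1, ?_⟩
      ext k
      simp only [Finsupp.add_apply, Finsupp.tsub_apply, Finsupp.single_apply]
      split_ifs with hk
      · subst hk; omega
      · omega
    subst hs'
    have hd' : d = s'.degree := by
      rw [map_add, Finsupp.degree_single] at hd
      omega
    have h1 : (monomial (s' + Finsupp.single i 1) (1 : ℂ)) = monomial s' (1 : ℂ) * X i := by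
      rw [X, monomial_mul, one_mul]
    have h2 : rs c b (X i : MvPolynomial (Fin n) ℂ) = C (c i) + C (b : ℂ) * X i := by
      unfold rs; rw [bind₁_X_right]
    have h3 : rs c b (monomial s' (1 : ℂ)) * (C (c i) + C (b : ℂ) * X i)
        = C (c i) * rs c b (monomial s' (1 : ℂ))
          + C (b : ℂ) * (rs c b (monomial s' (1 : ℂ)) * X i) := by ring
    rw [h1, rs_mul, h2, h3, coeff_add, coeff_C_mul, coeff_C_mul, coeff_mul_X']
    rw [map_add, Finsupp.degree_single] at hm
    have h4 : (rs c b (monomial s' (1 : ℂ))).coeff m = 0 := by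
      rw [ih s' hd' m (by omega), if_neg]
      rintro rfl
      omega
    rw [h4, mul_zero, zero_add]
    by_cases hmi : i ∈ m.support
    · rw [if_pos hmi]
      have hm1 : m i ≠ 0 := Finsupp.mem_support_iff.mp hmi
      have hm2 : m = (m - Finsupp.single i 1) + Finsupp.single i 1 := by
        ext k
        simp only [Finsupp.add_apply, Finsupp.tsub_apply, Finsupp.single_apply]
        split_ifs with hk
        · subst hk; omega
        · omega
      have hm3 : (m - Finsupp.single i 1).degree + 1 = m.degree := by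
        conv_rhs => rw [hm2]
        rw [map_add, Finsupp.degree_single]
      rw [ih s' hd' _ (by omega)]
      by_cases h5 : m - Finsupp.single i 1 = s'
      · have h6 : m = s' + Finsupp.single i 1 := by rw [← h5]; exact hm2
        rw [if_pos h5, if_pos h6, map_add, Finsupp.degree_single, pow_succ]
        ring
      · have h6 : m ≠ s' + Finsupp.single i 1 := by
          rintro h7
          apply h5
          rw [h7, add_tsub_cancel_right]
        rw [if_neg h5, if_neg h6, mul_zero]
    · rw [if_neg hmi, mul_zero, if_neg]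
      rintro h7
      apply hmi
      rw [h7]
      simp

/-- the top coefficients of a rescaled polynomial -/
theorem coeff_rs_top (c : V n) (b : ℝ) (f : MvPolynomial (Fin n) ℂ) (m : Fin n →₀ ℕ)
    (hm : f.totalDegree ≤ m.degree) :
    (rs c b f).coeff m = (b : ℂ) ^ m.degree * f.coeff m := by
  classical
  have h1 : rs c b f = ∑ s ∈ f.support, C (f.coeff s) * rs c b (monomial s (1 : ℂ)) := by
    conv_lhs => rw [f.as_sum]
    unfold rs
    rw [map_sum]
    apply Finset.sum_congr rfl
    intro s _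
    have : (monomial s (f.coeff s) : MvPolynomial (Fin n) ℂ)
        = C (f.coeff s) * monomial s 1 := by
      rw [C_mul_monomial, mul_one]
    rw [this, map_mul]
    congr 1
    exact bind₁_C_right _ _
  rw [h1, coeff_sum]
  have h2 : ∀ s ∈ f.support, (C (f.coeff s) * rs c b (monomial s (1 : ℂ))).coeff m
      = if m = s then (b : ℂ) ^ m.degree * f.coeff m else 0 := by
    intro s hs
    have h3 : s.degree ≤ f.totalDegree := by
      have := le_totalDegree hs
      rwa [Finsupp.degree_eq_sum, ← Finsupp.sum_fintype _ (fun _ x => x) (by simp)]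
    rw [coeff_C_mul, coeff_rs_monomial c b s m (h3.trans hm)]
    by_cases h : m = s
    · subst h; simp [mul_comm]
    · simp [h]
  rw [Finset.sum_congr rfl h2, Finset.sum_ite_eq]
  by_cases h : m ∈ f.support
  · rw [if_pos h]
  · rw [if_neg h, notMem_support_iff.mp h, mul_zero]

/-- a positive lower bound of the norm of the rescaled polynomials for `b ≥ 1` -/
theorem nm_rs_lower {P : MvPolynomial (Fin n) ℂ} (hP : P ≠ 0) :
    ∃ c0 : ℝ, 0 < c0 ∧ ∀ (c : V n) (b : ℝ), 1 ≤ b → c0 ≤ nm (rs c b P) := by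
  obtain ⟨m, hm, hm1⟩ : ∃ m ∈ P.support, m.degree = P.totalDegree := by
    obtain ⟨m, hm, h⟩ := Finset.exists_mem_eq_sup P.support
      (support_nonempty.mpr hP) (fun s => s.sum fun _ e => e)
    refine ⟨m, hm, ?_⟩
    have h2 : P.totalDegree = m.sum fun _ e => e := h
    rw [h2, Finsupp.degree_eq_sum, ← Finsupp.sum_fintype _ (fun _ x => x) (by simp)]
  refine ⟨‖P.coeff m‖, norm_pos_iff.mpr (mem_support_iff.mp hm), fun c b hb => ?_⟩
  have h1 := coeff_le_nm (rs c b P) m
  rw [coeff_rs_top c b P m hm1.ge, norm_mul, norm_pow, Complex.norm_real,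
    Real.norm_of_nonneg (by linarith)] at h1
  have h2 : 1 ≤ b ^ m.degree := one_le_pow₀ hb
  have h3 : 0 ≤ ‖P.coeff m‖ := norm_nonneg _
  nlinarith

theorem coeff_Ps (p : MvPolynomial (Fin n) ℂ) (m : Fin n →₀ ℕ) :
    (Ps p).coeff m = (starRingEnd ℂ) (p.coeff m) := by
  unfold Ps; rw [coeff_map]

theorem shift_Ps (κ : ℕ → V n) (j : ℕ) (P : MvPolynomial (Fin n) ℂ) :
    shift (cjv κ j) (Ps P) = Ps (shift (κ j) P) := by
  unfold shift Ps cjv
  rw [map_bind₁]
  congr 2
  funext i
  simp

/-- convergence of the shifts -/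
theorem shift_tendsto (hb : ∀ j l, 0 < g.b j l) (l : II) (hl : HasLim g P B)
    (x : ℕ → V n) (e0 : ℝ)
    (hz : Tendsto (fun j => ((g.b j l : ℂ))⁻¹ • (x j - g.c j l)) UF (𝓝 0))
    (he : Tendsto (fun j => (g.b j l)⁻¹) UF (𝓝 e0)) :
    PT UF (fun j => C ((NN g P (j, l) : ℂ)⁻¹) * shift (x j) P) (rs 0 e0 B) := by
  have h1 : PT UF (fun j => C ((NN g P (j, l) : ℂ)⁻¹) * rg g P (j, l)) B := fun m =>
    tendsto_at (hl m) l
  have h2 := PT.rs (D := P.totalDegree) h1 (Eventually.of_forall fun j => by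
    refine (totalDegree_mul _ _).trans ?_
    rw [totalDegree_C, zero_add]
    exact totalDegree_rs_le _ _ _) hz he
  refine PT.congr' h2 (Eventually.of_forall fun j => ?_)
  rw [rs_C_mul]
  congr 1
  unfold rg
  rw [rs_rs, shift_eq_rs]
  have hb' : (g.b j l : ℂ) ≠ 0 := by exact_mod_cast (hb j l).ne'
  congr 1
  · rw [smul_smul, mul_inv_cancel₀ hb', one_smul]
    abel
  · exact mul_inv_cancel₀ (hb j l).ne'

theorem norm_small (x : ℕ → V n) (b : ℕ → ℝ) (hb : ∀ j, 0 < b j)
    (h : Tendsto (fun j => ‖x j‖ / b j) UF (𝓝 0)) :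
    Tendsto (fun j => ((b j : ℂ))⁻¹ • x j) UF (𝓝 0) := by
  rw [tendsto_zero_iff_norm_tendsto_zero]
  refine h.congr fun j => ?_
  rw [norm_smul, norm_inv, Complex.norm_real, Real.norm_of_nonneg (hb j).le]
  rw [div_eq_inv_mul]

theorem goodU_state (hb : ∀ j l, 0 < g.b j l)
    (htop : Tendsto (fun q : ℕ × II => g.b q.1 q.2) (LX II) atTop)
    (hz : Tendsto (fun j => ‖z j - g.c j 0‖ / g.b j 0) UF (𝓝 0))
    (hk : Tendsto (fun j => ‖κ j - g.c j 1‖ / g.b j 1) UF (𝓝 0))
    (hP : P ≠ 0) (hr : Res g P) : GoodU P z (cjv κ) := by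
  obtain ⟨B, hB, hB0⟩ := hr
  have ht : ∀ l : II, Tendsto (fun j => g.b j l) UF atTop := fun l => tendsto_at htop l
  have e1 := shift_tendsto hb 0 hB z 0 (norm_small _ _ (fun j => hb j 0) hz)
    (tendsto_inv_atTop_zero.comp (ht 0))
  have e2 := shift_tendsto hb 1 hB κ 0 (norm_small _ _ (fun j => hb j 1) hk)
    (tendsto_inv_atTop_zero.comp (ht 1))
  have e3 : rs 0 0 B = C (B.coeff 0) := by
    ext m
    rw [coeff_rs_zero, coeff_C]
    by_cases h : m = 0
    · subst h; simp
    · have : m.degree ≠ 0 := fun h' => h ((Finsupp.degree_eq_zero_iff m).mp h')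
      simp [Ne.symm h, this]
  rw [e3] at e1 e2
  obtain ⟨c0, hc0, hlow⟩ := nm_rs_lower hP
  refine ⟨fun j => (NN g P (j, 0) : ℂ), fun j => (NN g P (j, 1) : ℂ), C (B.coeff 0),
    C ((starRingEnd ℂ) (B.coeff 0)), c0, hc0, ?_, ?_, e1, ?_, ?_, ?_⟩
  · exact Eventually.of_forall fun j => Complex.ofReal_ne_zero.mpr (NN_pos hb hP (j, 0)).ne'
  · filter_upwards [(ht 1).eventually_ge_atTop 1] with j hj
    rw [Complex.norm_real, Real.norm_of_nonneg (NN_pos hb hP (j, 1)).le]
    exact hlow _ _ hj
  · intro m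
    have h1 := (Complex.continuous_conj.tendsto _).comp (e2 m)
    have h2 : (C ((starRingEnd ℂ) (B.coeff 0)) : MvPolynomial (Fin n) ℂ).coeff m
        = (starRingEnd ℂ) ((C (B.coeff 0) : MvPolynomial (Fin n) ℂ).coeff m) := by
      rw [coeff_C, coeff_C]; split_ifs <;> simp
    rw [h2]
    refine h1.congr fun j => ?_
    simp only [Function.comp]
    rw [shift_Ps, coeff_C_mul, coeff_C_mul, coeff_Ps, map_mul, map_inv₀, Complex.conj_ofReal]
  · exact fun h => hB0 (by rwa [C_eq_zero] at h)
  · intro h _ h0 z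
    have h1 := h0 z
    rw [buj_C] at h1
    rcases mul_eq_zero.mp h1 with h2 | h2
    · exact absurd ((map_eq_zero _).mp h2) hB0
    · exact h2

theorem goodU_unit (hb : ∀ j l, g.b j l = 1)
    (hz : Tendsto (fun j => z j - g.c j 0) UF (𝓝 0))
    (hk : Tendsto (fun j => κ j - g.c j 1) UF (𝓝 0))
    (hP : P ≠ 0) (hl : HasLim g P B) (hI : Inj B (Ps B)) : GoodU P z (cjv κ) := by
  have hb' : ∀ j l, 0 < g.b j l := fun j l => by rw [hb]; exact one_pos
  have e1 := shift_tendsto hb' 0 hl z 1 (by simpa [hb] using hz) (by simp [hb])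
  have e2 := shift_tendsto hb' 1 hl κ 1 (by simpa [hb] using hk) (by simp [hb])
  have e3 : rs 0 1 B = B := by
    ext m
    rw [coeff_rs_zero]
    simp
  rw [e3] at e1 e2
  obtain ⟨c0, hc0, hlow⟩ := nm_rs_lower hP
  refine ⟨fun j => (NN g P (j, 0) : ℂ), fun j => (NN g P (j, 1) : ℂ), B, Ps B, c0, hc0, ?_, ?_,
    e1, ?_, hl.ne_zero hb' hP, hI⟩
  · exact Eventually.of_forall fun j => Complex.ofReal_ne_zero.mpr (NN_pos hb' hP (j, 0)).ne'
  · refine Eventually.of_forall fun j => ?_
    rw [Complex.norm_real, Real.norm_of_nonneg (NN_pos hb' hP (j, 1)).le]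
    exact hlow _ _ (by rw [hb])
  · intro m
    have h1 := (Complex.continuous_conj.tendsto _).comp (e2 m)
    rw [coeff_Ps]
    refine h1.congr fun j => ?_
    simp only [Function.comp]
    rw [shift_Ps, coeff_C_mul, coeff_C_mul, coeff_Ps, map_mul, map_inv₀, Complex.conj_ofReal]

end Pool.Agent.H51.BJ
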