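import Pool.Agent.H51.BJ.MAI

/-! # [H51 BJ FIN] The final theorem in the form of the frozen statement -/

set_option autoImplicit false

open MvPolynomial Filter Pool.Agent.H60 Pool.Agent.H57.BJ
open scoped Topology

noncomputable section

namespace Pool.Agent.H51.BJ

theorem bij_all (n : ℕ) (P : MvPolynomial (Fin n) ℂ) (hP : P ≠ 0) :
    Set.BijOn
      (fun f : (Fin n → ℂ) → ℂ => fun z : Fin n → ℂ =>
        ∑ m ∈ P.support, (starRingEnd ℂ) (P.coeff m) *
          ((List.finRange n).foldr
            (fun (j : Fin n) (g : (Fin n → ℂ) → ℂ) =>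
              (fun h : (Fin n → ℂ) → ℂ => fun w : Fin n → ℂ =>
                fderiv ℂ h w (Pi.single j (1 : ℂ) : Fin n → ℂ))^[m j] g)
            (fun w : Fin n → ℂ => MvPolynomial.eval w P * f w)) z)
      {f : (Fin n → ℂ) → ℂ | Differentiable ℂ f}
      {f : (Fin n → ℂ) → ℂ | Differentiable ℂ f} := by
  have h := bij_of_goodEst hP (good_all n P hP)
  rw [Tf_eq] at h
  exact h

end Pool.Agent.H51.BJ
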