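import Pool.Agent.H51.BJ.SLD
import Pool.Agent.H57.BJ.FOCK
import Pool.Agent.H28.FK.Mal
import Pool.Agent.H28.FK.Cau

/-! # [H51 BJ GES] Slow growth of the Fock solutions implies the local a priori estimate

Proof (helper57). Suppose `GoodEst P` fails for `ρ`: there are polynomials `F_j` and points `q_j`,
`‖q_j‖ ≤ ρ`, with `|F_j(q_j)| = 1` (after scaling) and `|T_P F_j| ≤ 1/j` on the ball (polydisc) of radius `j`.
By Cauchy `|coeff_β (T_P F_j)| ≤ j^{-|β|}/j`. With the Fock solution `(v_j, h_j)` for `a = q_j`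
(`fock_solution`): `1 = |F_j(q_j)| = |Bp v_j (T_P F_j)| ≤ ∑_β β! |coeff_β T_P F_j| |coeff_β v_j|`. From
`|P h_j| ≤ C exp (nr z om (nr z))` one gets the same kind of bound for `h_j` (division by `P`,
e.g. minimum modulus on polydiscs as in BU, or from the dual side), and by Cauchy on
polydiscs of radius `R`: `|coeff_β v_j| ≤ C' (C'R)^{N} exp (√n R' om (√n R')) / R^{|β|}`; with `R ~ |β| / om`
this gives `β! |coeff_β v_j| ≤ C (|β|+1)^N (C' om (C' |β|))^{|β|}`. So
`1 ≤ (C/j) ∑_{k ≤ deg T_P F_j} (k+1)^{n+N} (C' om(C' k)/j)^k`. The function `om` is chosen after the `F_j`,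
so slow that `C' om (C' k) ≤ j/2` for all `k ≤ deg T_P F_j` (all `j` large): contradiction. -/

set_option autoImplicit false

open MvPolynomial Filter Pool.Agent.H60 Pool.Agent.H57.BJ
open scoped Topology

noncomputable section

namespace Pool.Agent.H51.BJ

variable {n : ℕ}

private theorem ges_nr (w : V n) : nr w ≤ (Real.sqrt n + 1) * ‖w‖ := by
  have h1 : Nn w ≤ n * ‖w‖ ^ 2 := by
    unfold Nn
    calc ∑ j, ‖w j‖ ^ 2 ≤ ∑ _j : Fin n, ‖w‖ ^ 2 := by
          refine Finset.sum_le_sum (fun j _ => ?_)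
          exact pow_le_pow_left₀ (norm_nonneg _) (norm_le_pi_norm w j) 2
      _ = n * ‖w‖ ^ 2 := by rw [Finset.sum_const, Finset.card_univ, Fintype.card_fin, nsmul_eq_mul]
  unfold nr
  calc Real.sqrt (Nn w) ≤ Real.sqrt (n * ‖w‖ ^ 2) := Real.sqrt_le_sqrt h1
    _ = Real.sqrt n * ‖w‖ := by rw [Real.sqrt_mul (by positivity), Real.sqrt_sq (norm_nonneg _)]
    _ ≤ (Real.sqrt n + 1) * ‖w‖ := by nlinarith [norm_nonneg w]

private theorem ges_fac (β : Fin n →₀ ℕ) : (fac β : ℝ) ≤ ((β.degree : ℝ) + 1) ^ β.degree := by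
  unfold fac
  rw [Finsupp.degree_eq_sum, ← Finset.prod_pow_eq_pow_sum]
  push_cast
  refine Finset.prod_le_prod (fun j _ => by positivity) (fun j hj => ?_)
  have h1 : (((β j).factorial : ℕ) : ℝ) ≤ (β j : ℝ) ^ β j := by
    exact_mod_cast Nat.factorial_le_pow (β j)
  refine h1.trans (pow_le_pow_left₀ (by positivity) ?_ _)
  have h2 : (β j : ℝ) ≤ ∑ i, (β i : ℝ) :=
    Finset.single_le_sum (f := fun i => (β i : ℝ)) (fun i _ => by positivity) hj
  linarith

private theorem ges_coef {P : MvPolynomial (Fin n) ℂ} {c : ℝ} (hc : 0 < c)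
    (hmal : ∀ h : V n → ℂ, Differentiable ℂ h → ∀ (z : V n) (M : ℝ),
      (∀ w : V n, ‖w - z‖ ≤ 1 → ‖ev P w * h w‖ ≤ M) → c * ‖h z‖ ≤ M)
    (om : ℝ → ℝ) (hom : Monotone om) (hom1 : ∀ r, 1 ≤ om r) (C : ℝ) (v : MvPowerSeries (Fin n) ℂ)
    (h : V n → ℂ) (hd : Differentiable ℂ h)
    (hs : ∀ z, HasSum (fun α : Fin n →₀ ℕ => MvPowerSeries.coeff α v * ∏ j, z j ^ α j) (h z))
    (hb : ∀ z, ‖ev P z * h z‖ ≤ C * Real.exp (nr z * om (nr z))) (β : Fin n →₀ ℕ) (O : ℝ)
    (hO : om (2 * (Real.sqrt n + 1) * ((β.degree : ℝ) + 1)) ≤ O) :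
    (fac β : ℝ) * ‖MvPowerSeries.coeff β v‖ ≤ C / c * Real.exp (Real.sqrt n + 1) *
      Real.exp ((Real.sqrt n + 1) * O) * (Real.exp (Real.sqrt n + 1) * O) ^ β.degree := by
  set N₁ : ℝ := Real.sqrt n + 1 with hN₁
  have hN1 : 1 ≤ N₁ := by
    have := Real.sqrt_nonneg (n : ℝ)
    linarith
  set k' : ℝ := (β.degree : ℝ) + 1 with hk'
  have hk1 : 1 ≤ k' := by
    have : (0 : ℝ) ≤ (β.degree : ℝ) := by positivity
    linarith
  have hO1 : 1 ≤ O := (hom1 _).trans hO
  have hC0 : 0 ≤ C := by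
    have h1 := (norm_nonneg _).trans (hb 0)
    exact nonneg_of_mul_nonneg_left h1 (Real.exp_pos _)
  have hR : 0 < k' / O := by positivity
  have hRk : k' / O ≤ k' := div_le_self (by linarith) hO1
  have hhz : ∀ z : V n, ‖z‖ ≤ k' / O → ‖h z‖ ≤ C / c * Real.exp (N₁ * k' + N₁ * O) := by
    intro z hz
    have h1 := hmal h hd z (C * Real.exp (N₁ * k' + N₁ * O)) (fun w hw => by
      refine (hb w).trans (mul_le_mul_of_nonneg_left (Real.exp_le_exp.2 ?_) hC0)
      have h2 : ‖w‖ ≤ k' / O + 1 := by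
        have := norm_add_le (w - z) z
        rw [sub_add_cancel] at this
        linarith
      have h3 : nr w ≤ N₁ * (k' / O + 1) :=
        (ges_nr w).trans (mul_le_mul_of_nonneg_left h2 (by linarith))
      have h4 : om (nr w) ≤ O := by
        refine (hom (h3.trans ?_)).trans hO
        have h5 : k' / O + 1 ≤ 2 * k' := by linarith
        calc N₁ * (k' / O + 1) ≤ N₁ * (2 * k') := mul_le_mul_of_nonneg_left h5 (by linarith)
          _ = 2 * N₁ * k' := by ring
      have h6 : 0 ≤ om (nr w) := by linarith [hom1 (nr w)]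
      calc nr w * om (nr w) ≤ (N₁ * (k' / O + 1)) * O :=
            mul_le_mul h3 h4 h6 (by positivity)
        _ = N₁ * k' + N₁ * O := by field_simp)
    rw [div_mul_eq_mul_div, le_div_iff₀ hc]
    linarith
  have h1 := Pool.Agent.H28.FK.cauchy_series v h hs (k' / O) _ hR hhz β
  have h2 := ges_fac β
  rw [← hk'] at h2
  have h3 : (fac β : ℝ) ≤ (k' / O) ^ β.degree * O ^ β.degree := by
    rw [← mul_pow, div_mul_cancel₀ _ (by linarith)]
    exact h2
  have hOp : 0 ≤ O ^ β.degree := by positivity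
  calc (fac β : ℝ) * ‖MvPowerSeries.coeff β v‖
      ≤ ((k' / O) ^ β.degree * O ^ β.degree) * ‖MvPowerSeries.coeff β v‖ :=
        mul_le_mul_of_nonneg_right h3 (norm_nonneg _)
    _ = O ^ β.degree * (‖MvPowerSeries.coeff β v‖ * (k' / O) ^ β.degree) := by ring
    _ ≤ O ^ β.degree * (C / c * Real.exp (N₁ * k' + N₁ * O)) := mul_le_mul_of_nonneg_left h1 hOp
    _ = C / c * Real.exp N₁ * Real.exp (N₁ * O) * (Real.exp N₁ * O) ^ β.degree := by
        have h4 : Real.exp (N₁ * k' + N₁ * O) =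
            Real.exp N₁ * Real.exp (N₁ * O) * Real.exp N₁ ^ β.degree := by
          rw [← Real.exp_nat_mul, ← Real.exp_add, ← Real.exp_add, hk']
          congr 1
          ring
        rw [h4, mul_pow]
        ring

private theorem ges_om (T : ℕ → ℝ) (hT : ∀ j, 0 ≤ T j) (N₁ : ℝ) (hN : 1 ≤ N₁) :
    ∃ om : ℝ → ℝ, Monotone om ∧ Tendsto om atTop atTop ∧ (∀ r, 1 ≤ om r) ∧
      ∀ j : ℕ, om (T j) ≤ 1 + Real.log (1 + j) / (2 * N₁) := by
  set τ : ℕ → ℝ := fun j => ∑ i ∈ Finset.range (j + 1), T i + j with hτ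
  have hτm : ∀ i j, i ≤ j → τ i ≤ τ j := by
    intro i j hij
    have h1 : ∑ i ∈ Finset.range (i + 1), T i ≤ ∑ i ∈ Finset.range (j + 1), T i :=
      Finset.sum_le_sum_of_subset_of_nonneg (Finset.range_mono (by omega)) (fun k _ _ => hT k)
    have h2 : (i : ℝ) ≤ j := by exact_mod_cast hij
    simp only [hτ]
    linarith
  have hτT : ∀ j, T j ≤ τ j := by
    intro j
    have h1 : T j ≤ ∑ i ∈ Finset.range (j + 1), T i :=
      Finset.single_le_sum (f := T) (fun k _ => hT k) (Finset.mem_range.2 (Nat.lt_succ_self j))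
    have h2 : (0 : ℝ) ≤ j := by positivity
    simp only [hτ]
    linarith
  have hτj : ∀ j : ℕ, (j : ℝ) ≤ τ j := by
    intro j
    have h1 : 0 ≤ ∑ i ∈ Finset.range (j + 1), T i := Finset.sum_nonneg (fun k _ => hT k)
    simp only [hτ]
    linarith
  have hex : ∀ r : ℝ, ∃ j : ℕ, r ≤ τ j := by
    intro r
    obtain ⟨j, hj⟩ := exists_nat_ge r
    exact ⟨j, hj.trans (hτj j)⟩
  classical
  let N : ℝ → ℕ := fun r => Nat.find (hex r)
  have hN1 : ∀ r, r ≤ τ (N r) := fun r => Nat.find_spec (hex r)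
  have hN2 : ∀ r j, r ≤ τ j → N r ≤ j := fun r j h => Nat.find_min' (hex r) h
  have hNm : ∀ r r', r ≤ r' → N r ≤ N r' := fun r r' h => hN2 r _ (h.trans (hN1 r'))
  have hlog : ∀ a b : ℕ, a ≤ b → Real.log (1 + a) / (2 * N₁) ≤ Real.log (1 + b) / (2 * N₁) := by
    intro a b hab
    have h1 : (a : ℝ) ≤ b := by exact_mod_cast hab
    exact div_le_div_of_nonneg_right (Real.log_le_log (by positivity) (by linarith)) (by positivity)
  refine ⟨fun r => 1 + Real.log (1 + N r) / (2 * N₁), ?_, ?_, ?_, ?_⟩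
  · intro r r' h
    have := hlog _ _ (hNm r r' h)
    simp only
    linarith
  · have hNt : Tendsto N atTop atTop := by
      rw [tendsto_atTop]
      intro J
      filter_upwards [eventually_gt_atTop (τ J)] with r hr
      by_contra hc
      rw [not_le] at hc
      have h1 := (hN1 r).trans (hτm _ _ hc.le)
      linarith
    have h2 : Tendsto (fun r => (1 : ℝ) + (N r : ℝ)) atTop atTop :=
      tendsto_atTop_add_const_left _ _ (tendsto_natCast_atTop_atTop.comp hNt)
    have h3 : Tendsto (fun r => Real.log (1 + (N r : ℝ))) atTop atTop :=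
      Real.tendsto_log_atTop.comp h2
    exact tendsto_atTop_add_const_left _ _ (h3.atTop_div_const (by positivity))
  · intro r
    have h1 : 0 ≤ Real.log (1 + (N r : ℝ)) := Real.log_nonneg (by
      have : (0 : ℝ) ≤ (N r : ℝ) := by positivity
      linarith)
    have h2 : 0 ≤ Real.log (1 + (N r : ℝ)) / (2 * N₁) := by positivity
    simp only
    linarith
  · intro j
    have := hlog _ _ (hN2 (T j) j (hτT j))
    simp only
    linarith

private theorem ges_geo : Summable (fun α : Fin n →₀ ℕ => (1 / 2 : ℝ) ^ α.degree) := by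
  have h1 := summable_pi_prod (fun k => (1 / 2 : ℝ) ^ k)
    (summable_geometric_of_lt_one (by norm_num) (by norm_num)) (fun k => by positivity) n
  rw [← (Finsupp.equivFunOnFinite (α := Fin n) (M := ℕ)).summable_iff] at h1
  refine h1.congr fun α => ?_
  simp only [Function.comp, Finsupp.equivFunOnFinite_apply]
  rw [Finset.prod_pow_eq_pow_sum, Finsupp.degree_eq_sum]

theorem goodEst_of_slow {P : MvPolynomial (Fin n) ℂ} (hP : P ≠ 0) (hs : Slow P) : GoodEst P := by
  obtain ⟨c, hc, hmal⟩ := Pool.Agent.H28.FK.malgrange n P hP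
  intro ρ
  by_contra hcon
  -- the bad sequence
  have hbad : ∀ j : ℕ, ∃ (F : MvPolynomial (Fin n) ℂ) (s : ℝ) (q : V n), 0 ≤ s ∧
      (∀ z ∈ Metric.closedBall (0 : V n) ((j : ℝ) + 1), ‖ev (TP P F) z‖ ≤ s) ∧
      q ∈ Metric.closedBall (0 : V n) ρ ∧ ((j : ℝ) + 1) * s < ‖ev F q‖ := by
    intro j
    by_contra h
    apply hcon
    refine ⟨(j : ℝ) + 1, (j : ℝ) + 1, by positivity, fun F s hs0 hz q hq => ?_⟩
    by_contra h1
    exact h ⟨F, s, q, hs0, hz, hq, not_le.1 h1⟩
  choose F s q hs0 hz hq hlt using hbad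
  set N₁ : ℝ := Real.sqrt n + 1 with hN₁
  have hN1 : 1 ≤ N₁ := by
    have := Real.sqrt_nonneg (n : ℝ)
    linarith
  -- the slow function
  obtain ⟨om, hom, homt, hom1, homj⟩ := ges_om
    (fun j => 2 * N₁ * (((TP P (F j)).totalDegree : ℝ) + 1)) (fun j => by positivity) N₁ hN1
  obtain ⟨C0, hC0, hfock⟩ := fock_solution hP ρ
  obtain ⟨C, hC⟩ := hs om hom homt hom1 ρ C0
  set S : ℝ := ∑' α : Fin n →₀ ℕ, (1 / 2 : ℝ) ^ α.degree with hS
  have hS0 : 0 ≤ S := tsum_nonneg (fun α => by positivity)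
  set A : ℝ := C / c * Real.exp N₁ with hA
  -- the choice of j
  set K : ℝ := max (4 * Real.exp N₁) (A * S * Real.exp N₁) with hK
  obtain ⟨j, hj⟩ := exists_nat_ge (K ^ 2)
  set J : ℝ := (j : ℝ) + 1 with hJ
  have hJ1 : 1 ≤ J := by
    have : (0 : ℝ) ≤ (j : ℝ) := by positivity
    linarith
  have hK0 : 0 ≤ K := le_trans (by positivity) (le_max_left _ _)
  have hKJ : K ≤ Real.sqrt J := by
    refine Real.le_sqrt_of_sq_le ?_
    linarith
  have hsJ : Real.sqrt J * Real.sqrt J = J := Real.mul_self_sqrt (by linarith)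
  have hsJ1 : 1 ≤ Real.sqrt J := by
    rw [Real.one_le_sqrt]
    exact hJ1
  set O : ℝ := 1 + Real.log (1 + j) / (2 * N₁) with hO
  have hlogJ : Real.log (1 + j) ≤ 2 * Real.sqrt J := by
    have h1 : (1 : ℝ) + j = Real.sqrt J ^ 2 := by rw [sq, hsJ, hJ]; ring
    rw [h1, Real.log_pow]
    have h2 := Real.log_le_sub_one_of_pos (x := Real.sqrt J) (by linarith)
    push_cast
    linarith
  have hlog0 : 0 ≤ Real.log (1 + (j : ℝ)) := Real.log_nonneg (by
    have : (0 : ℝ) ≤ (j : ℝ) := by positivity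
    linarith)
  have hO1 : 1 ≤ O := by
    have : 0 ≤ Real.log (1 + (j : ℝ)) / (2 * N₁) := by positivity
    linarith
  have hO2 : O ≤ 2 * Real.sqrt J := by
    have h1 : Real.log (1 + (j : ℝ)) / (2 * N₁) ≤ Real.sqrt J := by
      rw [div_le_iff₀ (by positivity)]
      nlinarith
    linarith
  have hgood1 : Real.exp N₁ * O ≤ J / 2 := by
    have h1 : 4 * Real.exp N₁ ≤ Real.sqrt J := (le_max_left _ _).trans hKJ
    have h2 : Real.exp N₁ * O ≤ Real.exp N₁ * (2 * Real.sqrt J) :=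
      mul_le_mul_of_nonneg_left hO2 (Real.exp_pos _).le
    have h3 : 4 * Real.exp N₁ * Real.sqrt J ≤ Real.sqrt J * Real.sqrt J :=
      mul_le_mul_of_nonneg_right h1 (by linarith)
    rw [hsJ] at h3
    linarith
  have hexpO : Real.exp (N₁ * O) = Real.exp N₁ * Real.sqrt J := by
    have h1 : N₁ * O = N₁ + 1 / 2 * Real.log (1 + j) := by
      rw [hO]
      field_simp
    rw [h1, Real.exp_add]
    congr 1
    have h2 : 1 / 2 * Real.log (1 + (j : ℝ)) = Real.log (Real.sqrt (1 + (j : ℝ))) := by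
      rw [Real.log_sqrt (by positivity)]
      ring
    rw [h2, Real.exp_log (Real.sqrt_pos.2 (by positivity)), hJ, add_comm]
  have hgood2 : A * S * Real.exp (N₁ * O) ≤ J := by
    rw [hexpO]
    have h1 : A * S * Real.exp N₁ ≤ Real.sqrt J := (le_max_right _ _).trans hKJ
    have h3 : A * S * Real.exp N₁ * Real.sqrt J ≤ Real.sqrt J * Real.sqrt J :=
      mul_le_mul_of_nonneg_right h1 (by linarith)
    rw [hsJ] at h3
    linarith
  -- the Fock solution at q j
  obtain ⟨v, h, hd, hser, hdual, heqn, hbd⟩ := hfock (q j) (mem_closedBall_zero_iff.1 (hq j))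
  have hgr := hC (q j) v h (mem_closedBall_zero_iff.1 (hq j)) ⟨hd, hser, hdual, heqn, hbd⟩
  set W := TP P (F j) with hW
  have hW1 : ∀ β : Fin n →₀ ℕ, ‖W.coeff β‖ * J ^ β.degree ≤ s j :=
    Pool.Agent.H28.FK.cauchy_poly n W J (s j) (by linarith) (fun z hz' =>
      hz j z (mem_closedBall_zero_iff.2 hz'))
  have hA0 : 0 ≤ A := by
    have h1 := (norm_nonneg _).trans (hgr 0)
    have h2 : 0 ≤ C := nonneg_of_mul_nonneg_left h1 (Real.exp_pos _)
    rw [hA]
    positivity
  have hterm : ∀ β ∈ W.support, ‖W.coeff β‖ * ((fac β : ℝ) * ‖MvPowerSeries.coeff β v‖) ≤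
      s j * (A * Real.exp (N₁ * O)) * (1 / 2 : ℝ) ^ β.degree := by
    intro β hβ
    have hdeg : β.degree ≤ W.totalDegree := by
      have := le_totalDegree hβ
      rwa [Finsupp.degree_eq_sum, ← Finsupp.sum_fintype _ (fun _ x => x) (by simp)]
    have hdeg' : (β.degree : ℝ) ≤ W.totalDegree := by exact_mod_cast hdeg
    have h1 := ges_coef hc hmal om hom hom1 C v h hd hser hgr β O (by
      refine (hom ?_).trans (homj j)
      have h2 : (β.degree : ℝ) + 1 ≤ (W.totalDegree : ℝ) + 1 := by linarith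
      exact mul_le_mul_of_nonneg_left h2 (by positivity))
    have h2 := hW1 β
    have h3 : (Real.exp N₁ * O) ^ β.degree ≤ (J / 2) ^ β.degree :=
      pow_le_pow_left₀ (by positivity) hgood1 _
    have h4 : 0 ≤ C / c * Real.exp N₁ * Real.exp (N₁ * O) :=
      mul_nonneg hA0 (Real.exp_pos _).le
    calc ‖W.coeff β‖ * ((fac β : ℝ) * ‖MvPowerSeries.coeff β v‖)
        ≤ ‖W.coeff β‖ * (C / c * Real.exp N₁ * Real.exp (N₁ * O) * (J / 2) ^ β.degree) := by
          refine mul_le_mul_of_nonneg_left (h1.trans ?_) (norm_nonneg _)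
          exact mul_le_mul_of_nonneg_left h3 h4
      _ = (‖W.coeff β‖ * J ^ β.degree) * (A * Real.exp (N₁ * O)) * (1 / 2 : ℝ) ^ β.degree := by
          rw [hA, div_eq_mul_one_div J 2, mul_pow]
          ring
      _ ≤ s j * (A * Real.exp (N₁ * O)) * (1 / 2 : ℝ) ^ β.degree := by
          refine mul_le_mul_of_nonneg_right (mul_le_mul_of_nonneg_right h2 ?_) (by positivity)
          exact mul_nonneg hA0 (Real.exp_pos _).le
  have hsum : ‖ev (F j) (q j)‖ ≤ s j * (A * Real.exp (N₁ * O)) * S := by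
    rw [← hdual (F j), ← hW]
    have h1 : Bp v W = ∑ β ∈ W.support,
        W.coeff β * ((fac β : ℂ) * (starRingEnd ℂ) (MvPowerSeries.coeff β v)) := by
      conv_lhs => rw [W.as_sum]
      rw [map_sum]
      exact Finset.sum_congr rfl (fun β _ => Bp_monomial _ _ _)
    rw [h1]
    refine (norm_sum_le _ _).trans ?_
    have h2 : ∀ β ∈ W.support,
        ‖W.coeff β * ((fac β : ℂ) * (starRingEnd ℂ) (MvPowerSeries.coeff β v))‖ ≤
        s j * (A * Real.exp (N₁ * O)) * (1 / 2 : ℝ) ^ β.degree := by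
      intro β hβ
      rw [norm_mul, norm_mul, RCLike.norm_conj, Complex.norm_natCast]
      exact hterm β hβ
    refine (Finset.sum_le_sum h2).trans ?_
    rw [← Finset.mul_sum]
    refine mul_le_mul_of_nonneg_left ?_
      (mul_nonneg (hs0 j) (mul_nonneg hA0 (Real.exp_pos _).le))
    exact ges_geo.sum_le_tsum _ (fun α _ => by positivity)
  have h1 := hlt j
  have h2 : s j * (A * Real.exp (N₁ * O)) * S ≤ s j * J := by
    have : s j * (A * Real.exp (N₁ * O)) * S = s j * (A * S * Real.exp (N₁ * O)) := by ring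
    rw [this]
    exact mul_le_mul_of_nonneg_left hgood2 (hs0 j)
  linarith

end Pool.Agent.H51.BJ
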