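import Pool.Agent.H51.BJ.PTR
import Pool.Agent.H51.BJ.TAM

/-! # [H51 BJ HLB] Basic facts about `HasLim`, products, derivatives, sums

`LX II` is a nontrivial filter. `HasLim g f B` says `C (NN g f q)⁻¹ * rg g f q → B`
coefficientwise, `NN g f q = nm (rg g f q) > 0` for `f ≠ 0` (`rs_ne_zero`, `g.b > 0`). The norm of the
normalised polynomial is `1`, all degrees are at most `f.totalDegree`, so `nm B = 1` by `PT.nm`.
`of_norm`: if `C (ν q)⁻¹ * rg g f q → B`, `ν > 0`, `B ≠ 0`, then `NN g f q / ν q → nm B` and dividing gives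
`HasLim`. `mul`, `deriv`, `add_small` are instances of `of_norm` with `ν = NN f * NN h`,
`ν = NN f / b`, `ν = NN f`. -/

set_option autoImplicit false

open MvPolynomial Filter Pool.Agent.H60 Pool.Agent.H57.BJ
open scoped Topology

noncomputable section

namespace Pool.Agent.H51.BJ

variable {n : ℕ} {g : Germ n} {f h B A : MvPolynomial (Fin n) ℂ}

instance (X : Type*) [Nonempty X] : (LX X).NeBot := by
  unfold LX UF
  infer_instance

theorem NN_pos (hb : ∀ j l, 0 < g.b j l) (hf : f ≠ 0) (q : ℕ × II) : 0 < NN g f q :=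
  nm_pos (rs_ne_zero _ (hb q.1 q.2).ne' hf)

theorem NN_C_mul (a : ℂ) (f : MvPolynomial (Fin n) ℂ) (q : ℕ × II) :
    NN g (C a * f) q = ‖a‖ * NN g f q := by
  unfold NN rg
  rw [rs_C_mul, nm_C_mul]

theorem rg_degree (f : MvPolynomial (Fin n) ℂ) (q : ℕ × II) : (rg g f q).totalDegree ≤ f.totalDegree :=
  totalDegree_rs_le _ _ _

theorem degree_C_mul_le (a : ℂ) (p : MvPolynomial (Fin n) ℂ) : (C a * p).totalDegree ≤ p.totalDegree := by
  refine (totalDegree_mul _ _).trans ?_
  rw [totalDegree_C, zero_add]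

theorem HasLim.unique (h1 : HasLim g f A) (h2 : HasLim g f B) : A = B :=
  PT.unique h1 h2

theorem HasLim.nm (hb : ∀ j l, 0 < g.b j l) (hf : f ≠ 0) (h1 : HasLim g f B) : nm B = 1 := by
  have h2 := PT.nm (D := f.totalDegree) h1 (Filter.Eventually.of_forall fun q =>
    (degree_C_mul_le _ _).trans (rg_degree f q))
  refine tendsto_nhds_unique h2 (tendsto_const_nhds.congr fun q => ?_)
  rw [nm_C_mul, norm_inv, Complex.norm_real, Real.norm_eq_abs, abs_of_pos (NN_pos hb hf q)]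
  exact (inv_mul_cancel₀ (NN_pos hb hf q).ne').symm

theorem HasLim.ne_zero (hb : ∀ j l, 0 < g.b j l) (hf : f ≠ 0) (h1 : HasLim g f B) : B ≠ 0 := by
  rintro rfl
  have h2 := HasLim.nm hb hf h1
  rw [nm_eq_zero.mpr rfl] at h2
  exact zero_ne_one h2

theorem HasLim.totalDegree_le (h1 : HasLim g f B) : B.totalDegree ≤ f.totalDegree :=
  PT.totalDegree_le h1 (Filter.Eventually.of_forall fun q =>
    (degree_C_mul_le _ _).trans (rg_degree f q))

theorem HasLim.supported {S : Set (Fin n)} (hf : f ∈ MvPolynomial.supported ℂ S)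
    (h1 : HasLim g f B) : B ∈ MvPolynomial.supported ℂ S :=
  PT.supported h1 (Filter.Eventually.of_forall fun q =>
    Subalgebra.mul_mem _ (Subalgebra.algebraMap_mem _ _) (rs_supported _ _ hf))

theorem HasLim.of_norm (hb : ∀ j l, 0 < g.b j l) (hf : f ≠ 0) {ν : ℕ × II → ℝ}
    (hν : ∀ᶠ q in LX II, 0 < ν q) (hB : B ≠ 0)
    (hl : PT (LX II) (fun q => C ((ν q : ℂ)⁻¹) * rg g f q) B) :
    HasLim g f (C ((BJ.nm B : ℂ)⁻¹) * B) ∧
      Tendsto (fun q => NN g f q / ν q) (LX II) (𝓝 (BJ.nm B)) := by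
  have h2 := PT.nm (D := f.totalDegree) hl (Filter.Eventually.of_forall fun q =>
    (degree_C_mul_le _ _).trans (rg_degree f q))
  have h3 : Tendsto (fun q => NN g f q / ν q) (LX II) (𝓝 (BJ.nm B)) := by
    refine h2.congr' ?_
    filter_upwards [hν] with q hq
    rw [nm_C_mul, norm_inv, Complex.norm_real, Real.norm_eq_abs, abs_of_pos hq, div_eq_mul_inv, mul_comm]
    rfl
  refine ⟨?_, h3⟩
  have hB' : (BJ.nm B : ℂ) ≠ 0 := by exact_mod_cast (nm_pos hB).ne'
  have h4 : Tendsto (fun q => (((NN g f q / ν q : ℝ)) : ℂ)⁻¹) (LX II) (𝓝 ((BJ.nm B : ℂ)⁻¹)) :=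
    ((Complex.continuous_ofReal.tendsto _).comp h3).inv₀ hB'
  refine (PT.C_mul h4 hl).congr' ?_
  filter_upwards [hν] with q hq
  have hq' : (ν q : ℂ) ≠ 0 := by exact_mod_cast hq.ne'
  have hN : (NN g f q : ℂ) ≠ 0 := by exact_mod_cast (NN_pos hb hf q).ne'
  rw [← mul_assoc, ← C_mul]
  congr 2
  push_cast
  field_simp

theorem HasLim.mul (hb : ∀ j l, 0 < g.b j l) (hf : f ≠ 0) (hh : h ≠ 0)
    (h1 : HasLim g f A) (h2 : HasLim g h B) :
    HasLim g (f * h) (C ((BJ.nm (A * B) : ℂ)⁻¹) * (A * B)) ∧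
      Tendsto (fun q => NN g (f * h) q / (NN g f q * NN g h q)) (LX II)
        (𝓝 (BJ.nm (A * B))) ∧ 0 < BJ.nm (A * B) := by
  have hAB : A * B ≠ 0 := mul_ne_zero (HasLim.ne_zero hb hf h1) (HasLim.ne_zero hb hh h2)
  have h3 := HasLim.of_norm (g := g) (f := f * h) hb (mul_ne_zero hf hh)
    (ν := fun q => NN g f q * NN g h q)
    (Filter.Eventually.of_forall fun q => mul_pos (NN_pos hb hf q) (NN_pos hb hh q)) hAB (by
      have h4 := PT.mul h1 h2
      refine h4.congr' (Filter.Eventually.of_forall fun q => ?_)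
      have h5 : rg g (f * h) q = rg g f q * rg g h q := rs_mul _ _ _ _
      rw [h5, Complex.ofReal_mul, mul_inv, C_mul]
      ring)
  exact ⟨h3.1, h3.2, nm_pos hAB⟩

theorem HasLim.deriv (hb : ∀ j l, 0 < g.b j l) (i : Fin n) (h1 : HasLim g f B)
    (hB : pderiv i B ≠ 0) :
    pderiv i f ≠ 0 ∧ HasLim g (pderiv i f) (C ((BJ.nm (pderiv i B) : ℂ)⁻¹) * pderiv i B) ∧
      Tendsto (fun q => g.b q.1 q.2 * NN g (pderiv i f) q / NN g f q) (LX II)
        (𝓝 (BJ.nm (pderiv i B))) := by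
  have hpd := PT.pderiv h1 i
  have hrg : ∀ q, pderiv i (rg g f q) = C (g.b q.1 q.2 : ℂ) * rg g (pderiv i f) q := fun q =>
    pderiv_rs _ _ _ _
  have hf' : pderiv i f ≠ 0 := by
    intro h0
    apply hB
    refine PT.unique hpd ((PT.const 0).congr' (Filter.Eventually.of_forall fun q => ?_))
    have h5 : rg g (0 : MvPolynomial (Fin n) ℂ) q = 0 := by
      unfold rg rs
      exact map_zero _
    rw [pderiv_C_mul, hrg, h0, h5, mul_zero, mul_zero]
  have hf : f ≠ 0 := by
    rintro rfl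
    exact hf' (map_zero _)
  have h3 := HasLim.of_norm (g := g) (f := pderiv i f) hb hf'
    (ν := fun q => NN g f q / g.b q.1 q.2)
    (Filter.Eventually.of_forall fun q => div_pos (NN_pos hb hf q) (hb q.1 q.2)) hB (by
      refine hpd.congr' (Filter.Eventually.of_forall fun q => ?_)
      have hb' : (g.b q.1 q.2 : ℂ) ≠ 0 := by exact_mod_cast (hb q.1 q.2).ne'
      rw [pderiv_C_mul, hrg, ← mul_assoc, ← C_mul]
      congr 2
      push_cast
      rw [inv_div]
      field_simp)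
  refine ⟨hf', h3.1, h3.2.congr fun q => ?_⟩
  have hb' := hb q.1 q.2
  have hN := NN_pos hb hf q
  field_simp

/-- adding a polynomial of smaller order does not change the limit -/
theorem HasLim.add_small (hb : ∀ j l, 0 < g.b j l) (hf : f ≠ 0) (h1 : HasLim g f B)
    (h2 : Tendsto (fun q => NN g h q / NN g f q) (LX II) (𝓝 0)) :
    f + h ≠ 0 ∧ HasLim g (f + h) B ∧
      Tendsto (fun q => NN g (f + h) q / NN g f q) (LX II) (𝓝 1) := by
  have hB := HasLim.ne_zero hb hf h1
  have hnm := HasLim.nm hb hf h1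
  have hsum : PT (LX II) (fun q => C ((NN g f q : ℂ)⁻¹) * rg g (f + h) q) B := by
    have hh : PT (LX II) (fun q => C ((NN g f q : ℂ)⁻¹) * rg g h q) 0 := by
      intro m
      rw [coeff_zero]
      refine squeeze_zero_norm (fun q => ?_) h2
      rw [coeff_C_mul, norm_mul, norm_inv, Complex.norm_real, Real.norm_eq_abs,
        abs_of_pos (NN_pos hb hf q), div_eq_mul_inv, mul_comm]
      exact mul_le_mul_of_nonneg_right (coeff_le_nm _ _) (inv_pos.mpr (NN_pos hb hf q)).le
    have h3 := PT.add h1 hh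
    rw [add_zero] at h3
    refine h3.congr' (Filter.Eventually.of_forall fun q => ?_)
    have h5 : rg g (f + h) q = rg g f q + rg g h q := rs_add _ _ _ _
    rw [h5, mul_add]
  have hne : f + h ≠ 0 := by
    intro h0
    apply hB
    refine PT.unique hsum ((PT.const 0).congr' (Filter.Eventually.of_forall fun q => ?_))
    have h5 : rg g (0 : MvPolynomial (Fin n) ℂ) q = 0 := by
      unfold rg rs
      exact map_zero _
    rw [h0, h5, mul_zero]
  have h3 := HasLim.of_norm (g := g) (f := f + h) hb hne (ν := fun q => NN g f q)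
    (Filter.Eventually.of_forall fun q => NN_pos hb hf q) hB hsum
  rw [hnm] at h3
  refine ⟨hne, ?_, h3.2⟩
  have h4 := h3.1
  rwa [Complex.ofReal_one, inv_one, C_1, one_mul] at h4

theorem HasLim.C_mul (hb : ∀ j l, 0 < g.b j l) (hf : f ≠ 0) {a : ℂ} (ha : a ≠ 0)
    (h1 : HasLim g f B) : HasLim g (C a * f) (C (a / ‖a‖) * B) ∧ ∀ q, NN g (C a * f) q = ‖a‖ * NN g f q := by
  refine ⟨?_, fun q => NN_C_mul a f q⟩
  have h2 := PT.C_mul (L := LX II) (a := fun _ => a / (‖a‖ : ℂ)) (a0 := a / (‖a‖ : ℂ)) tendsto_const_nhds h1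
  refine h2.congr' (Filter.Eventually.of_forall fun q => ?_)
  have h5 : rg g (MvPolynomial.C a * f) q = MvPolynomial.C a * rg g f q := rs_C_mul _ _ _ _
  rw [h5, NN_C_mul, ← mul_assoc, ← mul_assoc, ← MvPolynomial.C_mul, ← MvPolynomial.C_mul]
  congr 2
  push_cast
  rw [mul_inv]
  ring

theorem NN_add_le (f h : MvPolynomial (Fin n) ℂ) (q : ℕ × II) :
    NN g (f + h) q ≤ NN g f q + NN g h q := by
  have h5 : rg g (f + h) q = rg g f q + rg g h q := rs_add _ _ _ _
  unfold NN
  rw [h5]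
  exact nm_add_le _ _

theorem NN_sum_le {ι : Type*} (s : Finset ι) (f : ι → MvPolynomial (Fin n) ℂ) (q : ℕ × II) :
    NN g (∑ i ∈ s, f i) q ≤ ∑ i ∈ s, NN g (f i) q := by
  classical
  induction s using Finset.induction_on with
  | empty =>
    rw [Finset.sum_empty, Finset.sum_empty]
    have h5 : rg g (0 : MvPolynomial (Fin n) ℂ) q = 0 := by
      unfold rg rs
      exact map_zero _
    unfold NN
    rw [h5, nm_eq_zero.mpr rfl]
  | insert k s hk ih =>
    rw [Finset.sum_insert hk, Finset.sum_insert hk]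
    exact (NN_add_le _ _ q).trans (add_le_add le_rfl ih)

theorem res_iff (hf : HasLim g f B) : Res g f ↔ B.coeff 0 ≠ 0 := by
  constructor
  · rintro ⟨B', h1, h2⟩
    rwa [HasLim.unique hf h1]
  · exact fun h => ⟨B, hf, h⟩

end Pool.Agent.H51.BJ
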