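import Mathlib

/-! # [H51 BJ INT] Integral relations modulo `Q_i (t, w_i)`

`W` a set of variables; for `i ∈ W` the polynomial `Q i` contains only the variables outside `W` and
`z_i`, and really contains `z_i` (`pderiv i (Q i) ≠ 0`). Every polynomial `f` satisfies
`∑_{k ≤ m} q_k f^k ∈ (Q i : i ∈ W)` with `q_k` polynomials in the variables outside `W`, not all zero.

Proof. `K = FractionRing (MvPolynomial Wᶜ ℂ)`. In `K[w]/(Q_i)` every monomial is a `K`-combination of the
monomials `w^β` with `β_i < deg_{w_i} Q_i` (divide by `Q_i`, whose leading coefficient is a unit of `K`): the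
quotient is finite dimensional over `K`, so the powers of `f` are linearly dependent over `K` modulo
`(Q_i) K[w]`. Clear the denominators. Alternative: for each `i` the class of `w_i` is integral over `K`
(equation `Q_i`), so the quotient algebra, generated by the `w_i`, is integral over `K`. -/

set_option autoImplicit false

open MvPolynomial TensorProduct

noncomputable section

namespace Pool.Agent.H51.BJ

variable {n : ℕ}

/-- integral over the fraction field -/
private def II {D A : Type} [CommRing D] [IsDomain D] [CommRing A] [Algebra D A] (x : A) : Prop :=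
  IsIntegral (FractionRing D) ((1 : FractionRing D) ⊗ₜ[D] x)

private theorem II_add {D A : Type} [CommRing D] [IsDomain D] [CommRing A] [Algebra D A] (x y : A)
    (hx : II (D := D) x) (hy : II (D := D) y) : II (D := D) (x + y) := by
  unfold II at *
  rw [TensorProduct.tmul_add]
  exact hx.add hy

private theorem II_mul {D A : Type} [CommRing D] [IsDomain D] [CommRing A] [Algebra D A] (x y : A)
    (hx : II (D := D) x) (hy : II (D := D) y) : II (D := D) (x * y) := by
  unfold II at *
  have h1 : ((1 : FractionRing D) ⊗ₜ[D] (x * y))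
      = ((1 : FractionRing D) ⊗ₜ[D] x) * ((1 : FractionRing D) ⊗ₜ[D] y) := by
    rw [Algebra.TensorProduct.tmul_mul_tmul, one_mul]
  rw [h1]
  exact hx.mul hy

private theorem II_alg {D A : Type} [CommRing D] [IsDomain D] [CommRing A] [Algebra D A] (x : D) :
    II (D := D) (algebraMap D A x) := by
  unfold II
  have h2 : ((1 : FractionRing D) ⊗ₜ[D] (algebraMap D A x))
      = algebraMap (FractionRing D) ((FractionRing D) ⊗[D] A) (algebraMap D (FractionRing D) x) := by
    rw [Algebra.TensorProduct.algebraMap_apply, Algebra.algebraMap_eq_smul_one (A := A),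
      TensorProduct.tmul_smul, TensorProduct.smul_tmul', ← Algebra.algebraMap_eq_smul_one]
    rfl
  rw [h2]
  exact isIntegral_algebraMap

/-- an element of an algebra over a domain whose image over the fraction field is integral satisfies an
equation over the domain -/
private theorem rel_of_int {D A : Type} [CommRing D] [IsDomain D] [CommRing A] [Algebra D A]
    (x : A) (hx : II (D := D) x) :
    ∃ (q : Polynomial D) (g : D), q ≠ 0 ∧ g ≠ 0 ∧ g • Polynomial.aeval x q = 0 := by
  let K := FractionRing D
  have h1 : IsAlgebraic K ((1 : K) ⊗ₜ[D] x) := hx.isAlgebraic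
  have h2 : IsAlgebraic D ((1 : K) ⊗ₜ[D] x) := (IsFractionRing.isAlgebraic_iff D K _).2 h1
  obtain ⟨q, hq, h3⟩ := h2
  have h4 : Polynomial.aeval ((1 : K) ⊗ₜ[D] x) q
      = (1 : K) ⊗ₜ[D] (Polynomial.aeval x q) := by
    have := Polynomial.aeval_algHom_apply (Algebra.TensorProduct.includeRight : A →ₐ[D] K ⊗[D] A)
      x q
    exact this
  rw [h4] at h3
  have : IsLocalizedModule (nonZeroDivisors D) (TensorProduct.mk D K A 1) :=
    (isLocalizedModule_iff_isBaseChange (nonZeroDivisors D) K _).2
      (TensorProduct.isBaseChange D A K)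
  obtain ⟨g, hg⟩ := (IsLocalizedModule.eq_zero_iff (nonZeroDivisors D)
    (TensorProduct.mk D K A 1)).1 h3
  exact ⟨q, g, hq, nonZeroDivisors.ne_zero g.2, hg⟩

/-- a root of a nonzero polynomial over the domain is integral over the fraction field -/
private theorem int_of_rel {D A : Type} [CommRing D] [IsDomain D] [CommRing A] [Algebra D A]
    (x : A) (q : Polynomial D) (hq : q ≠ 0) (h : Polynomial.aeval x q = 0) :
    II (D := D) x := by
  have h1 : IsAlgebraic D ((1 : FractionRing D) ⊗ₜ[D] x) := by
    refine ⟨q, hq, ?_⟩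
    have := Polynomial.aeval_algHom_apply
      (Algebra.TensorProduct.includeRight : A →ₐ[D] (FractionRing D) ⊗[D] A) x q
    rw [h, map_zero] at this
    exact this
  exact ((IsFractionRing.isAlgebraic_iff D (FractionRing D) _).1 h1).isIntegral

private theorem aeval_of_supp (W : Finset (Fin n)) (i : Fin n) (p : MvPolynomial (Fin n) ℂ)
    (hp : p ∈ MvPolynomial.supported ℂ (((W : Set (Fin n))ᶜ) ∪ {i})) :
    ∃ q : Polynomial (MvPolynomial.supported ℂ ((W : Set (Fin n))ᶜ)),
      Polynomial.aeval (X i : MvPolynomial (Fin n) ℂ) q = p := by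
  have h : MvPolynomial.supported ℂ (((W : Set (Fin n))ᶜ) ∪ {i}) ≤
      ((Polynomial.aeval (R := MvPolynomial.supported ℂ ((W : Set (Fin n))ᶜ))
        (X i : MvPolynomial (Fin n) ℂ)).restrictScalars ℂ).range := by
    refine Algebra.adjoin_le ?_
    rintro _ ⟨b, hb, rfl⟩
    rcases hb with hb | hb
    · exact ⟨Polynomial.C ⟨X b, X_mem_supported.2 hb⟩, by
        simp [Polynomial.aeval_C]⟩
    · rw [Set.mem_singleton_iff] at hb
      subst hb
      exact ⟨Polynomial.X, by simp⟩
  obtain ⟨q, hq⟩ := h hp
  exact ⟨q, hq⟩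

theorem integral_rel (W : Finset (Fin n)) (Q : Fin n → MvPolynomial (Fin n) ℂ)
    (hQ : ∀ i ∈ W, Q i ∈ MvPolynomial.supported ℂ (((W : Set (Fin n))ᶜ) ∪ {i}))
    (hd : ∀ i ∈ W, pderiv i (Q i) ≠ 0) (f : MvPolynomial (Fin n) ℂ) :
    ∃ (m : ℕ) (q : ℕ → MvPolynomial (Fin n) ℂ),
      (∀ k, q k ∈ MvPolynomial.supported ℂ ((W : Set (Fin n))ᶜ)) ∧
      (∃ k, k ≤ m ∧ q k ≠ 0) ∧
      ∑ k ∈ Finset.range (m + 1), q k * f ^ k ∈ Ideal.span (Q '' (W : Set (Fin n))) := by
  set I := Ideal.span (Q '' (W : Set (Fin n))) with hI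
  let D := MvPolynomial.supported ℂ ((W : Set (Fin n))ᶜ)
  let B := MvPolynomial (Fin n) ℂ ⧸ I
  have key : ∀ p : MvPolynomial (Fin n) ℂ, II (D := D) (Ideal.Quotient.mk I p : B) := by
    intro p
    induction p using MvPolynomial.induction_on with
    | C a =>
      have h1 : (Ideal.Quotient.mk I (C a) : B) = algebraMap D B (algebraMap ℂ D a) := rfl
      rw [h1]
      exact II_alg _
    | add p q hp hq =>
      rw [map_add]
      exact II_add _ _ hp hq
    | mul_X p i hp =>
      rw [map_mul]
      refine II_mul _ _ hp ?_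
      by_cases hi : i ∈ W
      · obtain ⟨q, hq⟩ := aeval_of_supp W i (Q i) (hQ i hi)
        refine int_of_rel (D := D) (A := B) _ q ?_ ?_
        · rintro rfl
          rw [map_zero] at hq
          exact hd i hi (by rw [← hq, map_zero])
        · have h2 : Polynomial.aeval (Ideal.Quotient.mk I (X i) : B) q
              = Ideal.Quotient.mk I (Polynomial.aeval (X i : MvPolynomial (Fin n) ℂ) q) :=
            Polynomial.aeval_algebraMap_apply B (X i : MvPolynomial (Fin n) ℂ) q
          rw [h2, hq, Ideal.Quotient.eq_zero_iff_mem]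
          exact Ideal.subset_span (Set.mem_image_of_mem Q hi)
      · have h1 : (Ideal.Quotient.mk I (X i) : B)
            = algebraMap D B ⟨X i, X_mem_supported.2 (by simpa using hi)⟩ := rfl
        rw [h1]
        exact II_alg _
  obtain ⟨q, g, hq, hg, h1⟩ := rel_of_int (D := D) (A := B) (Ideal.Quotient.mk I f) (key f)
  refine ⟨q.natDegree, fun k => (g : MvPolynomial (Fin n) ℂ) * (q.coeff k : MvPolynomial (Fin n) ℂ),
    fun k => mul_mem g.2 (q.coeff k).2, ⟨q.natDegree, le_rfl, ?_⟩, ?_⟩
  · refine mul_ne_zero (fun h => hg (Subtype.ext h)) (fun h => ?_)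
    exact hq (Polynomial.leadingCoeff_eq_zero.1 (Subtype.ext h))
  · rw [← Ideal.Quotient.eq_zero_iff_mem]
    have h2 : Polynomial.aeval (Ideal.Quotient.mk I f : B) q
        = Ideal.Quotient.mk I (Polynomial.aeval f q) :=
      Polynomial.aeval_algebraMap_apply B f q
    rw [h2, Polynomial.aeval_eq_sum_range, Algebra.smul_def] at h1
    have h3 : (algebraMap D B g) = Ideal.Quotient.mk I (g : MvPolynomial (Fin n) ℂ) := rfl
    rw [h3, ← map_mul] at h1
    rw [← h1, Finset.mul_sum]
    congr 1
    refine Finset.sum_congr rfl fun k _ => ?_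
    rw [Algebra.smul_def, mul_assoc]
    rfl

end Pool.Agent.H51.BJ
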