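import Pool.Agent.H51.BJ.HLB

/-! # [H51 BJ] Definitions for the refinement step: leaf, profile -/

set_option autoImplicit false

open MvPolynomial Filter Pool.Agent.H60 Pool.Agent.H57.BJ
open scoped Topology

noncomputable section

namespace Pool.Agent.H51.BJ

variable {n : ℕ}

/-- the part of a vector outside `W` (the variables `t`) -/
def tp (W : Finset (Fin n)) (z : V n) : V n := fun i => if i ∈ W then 0 else z i

/-- the part of a vector in `W` (the variables `w`) -/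
def wp (W : Finset (Fin n)) (z : V n) : V n := fun i => if i ∈ W then z i else 0

/-- The leaf: `a j l y` is the `W`-part of the leaf point `tp W y + a j l y` over `y`, a common zero
of the `Q i`; it is almost flat at the scale `b`; `D` is its derivative. -/
structure Leaf (g : Germ n) (W : Finset (Fin n)) (Q : Fin n → MvPolynomial (Fin n) ℂ)
    (a : ℕ → II → V n → V n) (D : ℕ → II → V n → V n →L[ℂ] V n) : Prop where
  tpz : ∀ j l y, tp W (a j l y) = 0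
  dep : ∀ j l y y', tp W y = tp W y' → a j l y = a j l y'
  tpD : ∀ j l y v, tp W (D j l y v) = 0 ∧ D j l y (wp W v) = 0
  zero : ∀ᶠ q in LX II, ∀ y : V n, ‖tp W (y - g.c q.1 q.2)‖ ≤ g.b q.1 q.2 → ∀ i ∈ W,
    ev (Q i) (tp W y + a q.1 q.2 y) = 0
  cont : ∀ j, ContinuousOn
    (fun p : II × V n => a j p.1 (g.c j p.1 + (g.b j p.1 : ℂ) • p.2))
    (Set.univ ×ˢ Metric.closedBall (0 : V n) 1)
  small : ∀ ε : ℝ, 0 < ε → ∀ᶠ q in LX II, ∀ y : V n, ‖tp W (y - g.c q.1 q.2)‖ ≤ g.b q.1 q.2 →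
    ‖a q.1 q.2 y - wp W (g.c q.1 q.2)‖ ≤ ε * g.b q.1 q.2
  der : ∀ ε : ℝ, 0 < ε → ∀ᶠ q in LX II, ∀ y : V n,
    ‖tp W (y - g.c q.1 q.2)‖ ≤ g.b q.1 q.2 / 2 →
    (∀ v, ‖D q.1 q.2 y v‖ ≤ ε * ‖v‖) ∧
      ∀ y' : V n, ‖tp W (y' - g.c q.1 q.2)‖ ≤ g.b q.1 q.2 / 2 →
        ‖a q.1 q.2 y' - a q.1 q.2 y - D q.1 q.2 y (y' - y)‖
          ≤ ε / g.b q.1 q.2 * ‖y' - y‖ ^ 2

/-- the leaf point over `y` -/
def lp (W : Finset (Fin n)) (a : ℕ → II → V n → V n) (j : ℕ) (l : II) (y : V n) : V n :=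
  tp W y + a j l y

/-- Profiles `A j l s` (`j` the index, `l ∈ [0,1]`, `s ≥ 0` the distance). -/
structure Profile (A : ℕ → II → ℝ → ℝ) : Prop where
  contl : ∀ j s, 0 ≤ s → Continuous fun l => A j l s
  conts : ∀ j l, ContinuousOn (A j l) (Set.Ici 0)
  zero : ∀ j s, 0 ≤ s → A j 0 s = s
  mono : ∀ j l, MonotoneOn (A j l) (Set.Ici 0)
  anti : ∀ j l s s', 0 ≤ s → s ≤ s' → s * A j l s' ≤ s' * A j l s
  one : ∀ j l s, 0 ≤ s → s ≤ 1 → A j l s = s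
  pos : ∀ j l s, 0 < s → 0 < A j l s

/-- the profile `A` has the window of the family `ρ` -/
def Window (A : ℕ → II → ℝ → ℝ) (ρ : ℕ × II → ℝ) : Prop :=
  ∀ M : ℝ, 1 ≤ M → ∀ ε : ℝ, 0 < ε → ∀ᶠ q in LX II, ∀ s : ℝ,
    ρ (q.1, 0) / M ≤ s → s ≤ M * ρ (q.1, 0) →
      |A q.1 q.2 s / s - ρ q / ρ (q.1, 0)| ≤ ε * (ρ q / ρ (q.1, 0))

/-- the slope of the profile at distance `s`, at the parameter `1` -/
def slp (A : ℕ → II → ℝ → ℝ) (j : ℕ) (s : ℝ) : ℝ := if s = 0 then 1 else A j 1 s / s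

end Pool.Agent.H51.BJ
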