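import Pool.Agent.H51.BJ.Defs

/-! # [H51 BJ RTE] Roots of small perturbations of `w`, and Cauchy estimates

`root`: `e x (ζ, w)` is small for `‖ζ‖ ≤ 2`, `‖w‖ ≤ 2`. For `‖ζ‖ ≤ 3/2` the map `w ↦ - e x (ζ, w)` maps the
disc `‖w‖ ≤ 1` into the disc of radius `η` and has Lipschitz constant `≤ 1/2` there (Cauchy estimate for
`∂_w e` on discs of radius `1`: `≤ η ≤ 1/8`). The fixed point `α x ζ` is unique in the disc `‖w‖ ≤ 1` and
depends continuously on `(x, ζ)` (contraction with parameters: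
`‖α - α'‖ ≤ 2 ‖e x (ζ, α') - e x' (ζ', α')‖`). Holomorphy in `ζ`: it is the locally
uniform limit of the iterates, or directly: `ζ ↦ α` is continuous and
`0 = (α(ζ+v) - α(ζ)) + e(ζ+v, α(ζ+v)) - e(ζ, α(ζ))` with `e` differentiable and `1 + ∂_w e ≠ 0`.

`taylor2`: `f` holomorphic and bounded by `M` on the ball of radius `3/2`: for `y, y'` in the ball of radius
`1/2` Cauchy estimates on complex lines (the ball of radius `1/2` about a point of the ball of radius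
`1/2 + 1/4` etc.): `‖f'(y)‖ ≤ 2 M`, `‖f(y') - f(y) - f'(y)(y' - y)‖ ≤ 16 M ‖y' - y‖²`. -/

set_option autoImplicit false

open Filter Pool.Agent.H60
open scoped Topology

noncomputable section

namespace Pool.Agent.H51.BJ

variable {n : ℕ}

/-- Lipschitz estimate in the last variable -/
theorem rte_lip {e : V n × ℂ → ℂ} (hd : Differentiable ℂ e) {η : ℝ}
    (hb : ∀ (ζ : V n) (w : ℂ), ‖ζ‖ ≤ 2 → ‖w‖ ≤ 2 → ‖e (ζ, w)‖ ≤ η) (ζ : V n) (hζ : ‖ζ‖ ≤ 2)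
    (w w' : ℂ) (hw : ‖w‖ ≤ 1) (hw' : ‖w'‖ ≤ 1) : ‖e (ζ, w') - e (ζ, w)‖ ≤ η * ‖w' - w‖ := by
  have hdg : Differentiable ℂ fun w : ℂ => e (ζ, w) :=
    hd.comp ((differentiable_const ζ).prodMk differentiable_id)
  refine Convex.norm_image_sub_le_of_norm_deriv_le (𝕜 := ℂ) (f := fun w : ℂ => e (ζ, w))
    (s := Metric.closedBall (0 : ℂ) 1) (fun x _ => hdg x) (fun x hx => ?_)
    (convex_closedBall (0 : ℂ) 1) (by simpa using hw) (by simpa using hw')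
  have h1 := Complex.norm_deriv_le_of_forall_mem_sphere_norm_le (c := x) (R := 1) (C := η)
    (f := fun w : ℂ => e (ζ, w)) one_pos hdg.diffContOnCl (fun z hz => by
      refine hb ζ z hζ ?_
      have hx1 : ‖x‖ ≤ 1 := by simpa using hx
      have hz1 : ‖z - x‖ = 1 := by simpa [dist_eq_norm] using hz
      have := norm_add_le (z - x) x
      rw [sub_add_cancel] at this
      linarith)
  simpa using h1

/-- existence of the root -/
theorem rte_ex {e : V n × ℂ → ℂ} (hd : Differentiable ℂ e) {η : ℝ} (hη : η ≤ 1 / 8)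
    (hb : ∀ (ζ : V n) (w : ℂ), ‖ζ‖ ≤ 2 → ‖w‖ ≤ 2 → ‖e (ζ, w)‖ ≤ η) (ζ : V n) (hζ : ‖ζ‖ ≤ 2) :
    ∃ w : ℂ, ‖w‖ ≤ 1 ∧ w + e (ζ, w) = 0 := by
  have hmaps : Set.MapsTo (fun w : ℂ => - e (ζ, w)) (Metric.closedBall (0 : ℂ) 1)
      (Metric.closedBall (0 : ℂ) 1) := by
    intro w hw
    have hw1 : ‖w‖ ≤ 1 := by simpa using hw
    have h1 := hb ζ w hζ (by linarith)
    have : ‖- e (ζ, w)‖ ≤ 1 := by
      rw [norm_neg]
      linarith
    simpa using this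
  have hcon : ContractingWith (1 / 2) (hmaps.restrict (fun w : ℂ => - e (ζ, w))
      (Metric.closedBall (0 : ℂ) 1) (Metric.closedBall (0 : ℂ) 1)) := by
    refine ⟨by norm_num, LipschitzWith.of_dist_le_mul ?_⟩
    rintro ⟨w, hw⟩ ⟨w', hw'⟩
    have hw1 : ‖w‖ ≤ 1 := by simpa using hw
    have hw1' : ‖w'‖ ≤ 1 := by simpa using hw'
    have h1 := rte_lip hd hb ζ hζ w' w hw1' hw1
    rw [Subtype.dist_eq, Subtype.dist_eq, dist_eq_norm, dist_eq_norm]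
    show ‖- e (ζ, w) - - e (ζ, w')‖ ≤ ((1 / 2 : NNReal) : ℝ) * ‖w - w'‖
    have h2 : - e (ζ, w) - - e (ζ, w') = -(e (ζ, w) - e (ζ, w')) := by ring
    rw [h2, norm_neg]
    have h3 : η * ‖w - w'‖ ≤ 1 / 2 * ‖w - w'‖ :=
      mul_le_mul_of_nonneg_right (by linarith) (norm_nonneg _)
    have h4 : ((1 / 2 : NNReal) : ℝ) = 1 / 2 := by norm_num
    rw [h4]
    linarith
  obtain ⟨y, hy, hfix, -⟩ := ContractingWith.exists_fixedPoint'
    (Metric.isClosed_closedBall : IsClosed (Metric.closedBall (0 : ℂ) 1)).isComplete hmaps hcon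
    (x := 0) (by simp) (edist_ne_top _ _)
  refine ⟨y, by simpa using hy, ?_⟩
  have h5 : - e (ζ, y) = y := hfix
  have h6 : y + e (ζ, y) = - e (ζ, y) + e (ζ, y) := by rw [h5]
  rw [h6]
  ring

/-- differentiability of the root -/
theorem rte_dif {e : V n × ℂ → ℂ} (hd : Differentiable ℂ e) {η : ℝ} (hη : η ≤ 1 / 8)
    (hb : ∀ (ζ : V n) (w : ℂ), ‖ζ‖ ≤ 2 → ‖w‖ ≤ 2 → ‖e (ζ, w)‖ ≤ η) (a : V n → ℂ)
    (ha : ∀ ζ : V n, ‖ζ‖ < 3 / 2 → ‖a ζ‖ ≤ 1 ∧ a ζ + e (ζ, a ζ) = 0)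
    (ζ₀ : V n) (h0 : ‖ζ₀‖ < 3 / 2) : DifferentiableAt ℂ a ζ₀ := by
  set a₀ := a ζ₀ with ha0
  set L := fderiv ℂ e (ζ₀, a₀) with hL
  have hLd : HasFDerivAt e L (ζ₀, a₀) := (hd _).hasFDerivAt
  set c : ℂ := L (0, 1) with hc
  have hη0 : 0 ≤ η := le_trans (norm_nonneg _) (hb 0 0 (by simp) (by simp))
  have ha1 : ‖a₀‖ ≤ η := by
    have h1 := (ha ζ₀ h0).2
    have h2 : a ζ₀ = - e (ζ₀, a ζ₀) := eq_neg_of_add_eq_zero_left h1
    rw [ha0, h2, norm_neg]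
    exact hb _ _ (by linarith) (by linarith [(ha ζ₀ h0).1])
  have hcn : ‖c‖ ≤ 1 / 8 := by
    have h1 : HasDerivAt (fun w : ℂ => e (ζ₀, w)) c a₀ := by
      have h2 : HasDerivAt (fun w : ℂ => ((ζ₀, w) : V n × ℂ)) (0, 1) a₀ :=
        (hasDerivAt_const a₀ ζ₀).prodMk (hasDerivAt_id a₀)
      exact hLd.comp_hasDerivAt a₀ h2
    have hdg : Differentiable ℂ fun w : ℂ => e (ζ₀, w) :=
      hd.comp ((differentiable_const ζ₀).prodMk differentiable_id)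
    have h3 := Complex.norm_deriv_le_of_forall_mem_sphere_norm_le (c := a₀) (R := 1) (C := η)
      (f := fun w : ℂ => e (ζ₀, w)) one_pos hdg.diffContOnCl (fun z hz => by
        refine hb ζ₀ z (by linarith) ?_
        have hz1 : ‖z - a₀‖ = 1 := by simpa [dist_eq_norm] using hz
        have := norm_add_le (z - a₀) a₀
        rw [sub_add_cancel] at this
        linarith)
    rw [h1.deriv] at h3
    simp only [div_one] at h3
    linarith
  have hc1 : (1 + c) ≠ 0 := by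
    intro h
    have h1 : c = -1 := by linear_combination h
    rw [h1] at hcn
    norm_num at hcn
  -- closeness
  have hclose : ∀ ζ : V n, ‖ζ‖ < 3 / 2 → ‖a ζ - a₀‖ ≤ 8 / 7 * ‖e (ζ, a₀) - e (ζ₀, a₀)‖ := by
    intro ζ hζ
    have h1 := (ha ζ hζ).2
    have h2 := (ha ζ₀ h0).2
    have h3 : a ζ - a₀ = -(e (ζ, a ζ) - e (ζ, a₀)) - (e (ζ, a₀) - e (ζ₀, a₀)) := by
      have h4 : a₀ + e (ζ₀, a₀) = 0 := h2
      linear_combination h1 - h4
    have h5 := rte_lip hd hb ζ (by linarith) a₀ (a ζ) (by linarith) (ha ζ hζ).1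
    have h6 : ‖a ζ - a₀‖ ≤ ‖e (ζ, a ζ) - e (ζ, a₀)‖ + ‖e (ζ, a₀) - e (ζ₀, a₀)‖ := by
      calc ‖a ζ - a₀‖ = ‖-(e (ζ, a ζ) - e (ζ, a₀)) - (e (ζ, a₀) - e (ζ₀, a₀))‖ := by rw [← h3]
        _ ≤ ‖-(e (ζ, a ζ) - e (ζ, a₀))‖ + ‖e (ζ, a₀) - e (ζ₀, a₀)‖ := norm_sub_le _ _
        _ = _ := by rw [norm_neg]
    have h7 : η * ‖a ζ - a₀‖ ≤ 1 / 8 * ‖a ζ - a₀‖ :=
      mul_le_mul_of_nonneg_right hη (norm_nonneg _)
    linarith
  have hball : ∀ᶠ ζ in 𝓝 ζ₀, ‖ζ‖ < 3 / 2 := by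
    have := (continuous_norm (E := V n)).continuousAt (x := ζ₀)
    exact this.eventually (gt_mem_nhds h0)
  -- big O
  have hO : (fun ζ => a ζ - a₀) =O[𝓝 ζ₀] fun ζ => ζ - ζ₀ := by
    have h1 : (fun ζ => a ζ - a₀) =O[𝓝 ζ₀] fun ζ => e (ζ, a₀) - e (ζ₀, a₀) := by
      refine Asymptotics.IsBigO.of_bound (8 / 7) ?_
      filter_upwards [hball] with ζ hζ
      exact hclose ζ hζ
    have h2 : DifferentiableAt ℂ (fun ζ : V n => e (ζ, a₀)) ζ₀ :=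
      (hd.comp (differentiable_id.prodMk (differentiable_const a₀))) ζ₀
    exact h1.trans h2.isBigO_sub
  have htend : Tendsto (fun ζ => ((ζ, a ζ) : V n × ℂ)) (𝓝 ζ₀) (𝓝 (ζ₀, a₀)) := by
    refine Filter.Tendsto.prodMk_nhds tendsto_id ?_
    have h1 : Tendsto (fun ζ : V n => ζ - ζ₀) (𝓝 ζ₀) (𝓝 0) := by
      have : Continuous fun ζ : V n => ζ - ζ₀ := by fun_prop
      simpa using this.tendsto ζ₀
    have h2 := hO.trans_tendsto h1
    have h3 := h2.add_const a₀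
    simpa using h3
  have hlit : (fun ζ => e (ζ, a ζ) - e (ζ₀, a₀) - L ((ζ, a ζ) - (ζ₀, a₀))) =o[𝓝 ζ₀]
      fun ζ => ζ - ζ₀ := by
    have h1 := hLd.isLittleO.comp_tendsto htend
    have h2 : ((fun x : V n × ℂ => x - (ζ₀, a₀)) ∘ fun ζ => ((ζ, a ζ) : V n × ℂ))
        =O[𝓝 ζ₀] fun ζ => ζ - ζ₀ := by
      have h3 : ((fun x : V n × ℂ => x - (ζ₀, a₀)) ∘ fun ζ => ((ζ, a ζ) : V n × ℂ))
          = fun ζ => ((ζ - ζ₀, a ζ - a₀) : V n × ℂ) := by
        funext ζ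
        simp
      rw [h3]
      exact (Asymptotics.isBigO_refl _ _).prod_left hO
    exact h1.trans_isBigO h2
  refine (HasFDerivAt.of_isLittleO (f' := (-(1 + c)⁻¹) • (L.comp (ContinuousLinearMap.inl ℂ (V n) ℂ)))
    ?_).differentiableAt
  have hev : (fun ζ => a ζ - a₀ - ((-(1 + c)⁻¹) • (L.comp (ContinuousLinearMap.inl ℂ (V n) ℂ)))
      (ζ - ζ₀)) =ᶠ[𝓝 ζ₀]
      fun ζ => (-(1 + c)⁻¹) * (e (ζ, a ζ) - e (ζ₀, a₀) - L ((ζ, a ζ) - (ζ₀, a₀))) := by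
    filter_upwards [hball] with ζ hζ
    have h1 := (ha ζ hζ).2
    have h2 : a₀ + e (ζ₀, a₀) = 0 := (ha ζ₀ h0).2
    have h3 : L ((ζ, a ζ) - (ζ₀, a₀)) = L (ζ - ζ₀, 0) + (a ζ - a₀) * c := by
      have h4 : ((ζ, a ζ) : V n × ℂ) - (ζ₀, a₀) = (ζ - ζ₀, 0) + (a ζ - a₀) • ((0, 1) : V n × ℂ) := by
        ext <;> simp
      rw [h4, map_add, map_smul, smul_eq_mul]
    have h5 : ((-(1 + c)⁻¹) • (L.comp (ContinuousLinearMap.inl ℂ (V n) ℂ))) (ζ - ζ₀)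
        = (-(1 + c)⁻¹) * L (ζ - ζ₀, 0) := by
      simp [ContinuousLinearMap.inl_apply]
    rw [h5, h3]
    field_simp
    linear_combination h1 - h2
  exact hev.trans_isLittleO (hlit.const_mul_left _)

/-- Taylor formula of order one in one variable -/
theorem rte_one {φ : ℂ → ℂ} {U : Set ℂ} (hU : IsOpen U) (hf : DifferentiableOn ℂ φ U) {M ρ : ℝ}
    (hρ : 0 < ρ) (hM : ∀ t ∈ U, ‖φ t‖ ≤ M) (h : ∀ s ∈ segment ℝ (0 : ℂ) 1, Metric.closedBall s ρ ⊆ U) :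
    ‖φ 1 - φ 0 - deriv φ 0‖ ≤ 2 * M / ρ ^ 2 := by
  have hM0 : 0 ≤ M := by
    have h1 : (0 : ℂ) ∈ U := h 0 (left_mem_segment ℝ 0 1) (Metric.mem_closedBall_self hρ.le)
    exact le_trans (norm_nonneg _) (hM 0 h1)
  have hmem : ∀ s ∈ segment ℝ (0 : ℂ) 1, s ∈ U := fun s hs =>
    h s hs (Metric.mem_closedBall_self hρ.le)
  have hdd : DifferentiableOn ℂ (deriv φ) U := hf.deriv hU
  have h2 : ∀ s ∈ segment ℝ (0 : ℂ) 1, ‖deriv (deriv φ) s‖ ≤ 2 * M / ρ ^ 2 := by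
    intro s hs
    have h3 := Complex.norm_iteratedDeriv_le_of_forall_mem_sphere_norm_le (c := s) (R := ρ)
      (C := M) (f := φ) 2 hρ ((hf.mono (h s hs)).diffContOnCl_ball (subset_refl _))
      (fun z hz => hM z (h s hs (Metric.sphere_subset_closedBall hz)))
    have h4 : iteratedDeriv 2 φ s = deriv (deriv φ) s := by
      rw [show (2 : ℕ) = 1 + 1 from rfl, iteratedDeriv_succ, iteratedDeriv_one]
    rw [h4] at h3
    simpa using h3
  have h5 : ∀ s ∈ segment ℝ (0 : ℂ) 1, ‖deriv φ s - deriv φ 0‖ ≤ 2 * M / ρ ^ 2 := by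
    intro s hs
    have h6 := Convex.norm_image_sub_le_of_norm_deriv_le (𝕜 := ℂ) (f := deriv φ)
      (s := segment ℝ (0 : ℂ) 1) (C := 2 * M / ρ ^ 2) (x := 0) (y := s)
      (fun x hx => (hdd x (hmem x hx)).differentiableAt (hU.mem_nhds (hmem x hx))) h2
      (convex_segment 0 1) (left_mem_segment ℝ 0 1) hs
    have h7 : ‖s - 0‖ ≤ 1 := by
      obtain ⟨a, b, ha, hb, hab, rfl⟩ := hs
      simp only [smul_zero, zero_add, sub_zero]
      have : ‖(b • (1 : ℂ))‖ = b := by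
        rw [norm_smul, norm_one, mul_one, Real.norm_of_nonneg hb]
      rw [this]
      linarith
    have h8 : 0 ≤ 2 * M / ρ ^ 2 := by positivity
    calc ‖deriv φ s - deriv φ 0‖ ≤ 2 * M / ρ ^ 2 * ‖s - 0‖ := h6
      _ ≤ 2 * M / ρ ^ 2 * 1 := mul_le_mul_of_nonneg_left h7 h8
      _ = 2 * M / ρ ^ 2 := mul_one _
  have hdg : ∀ x ∈ segment ℝ (0 : ℂ) 1,
      HasDerivAt (fun t => φ t - t * deriv φ 0) (deriv φ x - deriv φ 0) x := by
    intro x hx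
    have h1 : HasDerivAt φ (deriv φ x) x :=
      ((hf x (hmem x hx)).differentiableAt (hU.mem_nhds (hmem x hx))).hasDerivAt
    have h3 : HasDerivAt (fun t : ℂ => t * deriv φ 0) (1 * deriv φ 0) x :=
      (hasDerivAt_id x).mul_const (deriv φ 0)
    rw [one_mul] at h3
    exact h1.sub h3
  have h9 := Convex.norm_image_sub_le_of_norm_deriv_le (𝕜 := ℂ) (f := fun t => φ t - t * deriv φ 0)
    (s := segment ℝ (0 : ℂ) 1) (C := 2 * M / ρ ^ 2) (x := 0) (y := 1)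
    (fun x hx => (hdg x hx).differentiableAt)
    (fun x hx => by rw [(hdg x hx).deriv]; exact h5 x hx)
    (convex_segment 0 1) (left_mem_segment ℝ 0 1) (right_mem_segment ℝ 0 1)
  have h10 : (fun t => φ t - t * deriv φ 0) 1 - (fun t => φ t - t * deriv φ 0) 0
      = φ 1 - φ 0 - deriv φ 0 := by
    simp only
    ring
  rw [h10] at h9
  simpa using h9

theorem root {X : Type*} [TopologicalSpace X] (e : X → V n × ℂ → ℂ)
    (hc : Continuous fun p : X × (V n × ℂ) => e p.1 p.2) (hd : ∀ x, Differentiable ℂ (e x))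
    {η : ℝ} (hη : η ≤ 1 / 8)
    (hb : ∀ x (ζ : V n) (w : ℂ), ‖ζ‖ ≤ 2 → ‖w‖ ≤ 2 → ‖e x (ζ, w)‖ ≤ η) :
    ∃ α : X → V n → ℂ,
      ContinuousOn (fun p : X × V n => α p.1 p.2) (Set.univ ×ˢ Metric.closedBall (0 : V n) 1) ∧
      (∀ x, DifferentiableOn ℂ (α x) (Metric.ball (0 : V n) (3 / 2))) ∧
      (∀ x (ζ : V n), ‖ζ‖ < 3 / 2 → ‖α x ζ‖ ≤ η ∧ α x ζ + e x (ζ, α x ζ) = 0) ∧
      ∀ x (ζ : V n) (w : ℂ), ‖ζ‖ < 3 / 2 → ‖w‖ ≤ 1 → w + e x (ζ, w) = 0 → w = α x ζ := by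
  classical
  have hex : ∀ (x : X) (ζ : V n), ∃ w : ℂ, ‖ζ‖ ≤ 2 → ‖w‖ ≤ 1 ∧ w + e x (ζ, w) = 0 := by
    intro x ζ
    by_cases hζ : ‖ζ‖ ≤ 2
    · obtain ⟨w, hw⟩ := rte_ex (hd x) hη (hb x) ζ hζ
      exact ⟨w, fun _ => hw⟩
    · exact ⟨0, fun h => absurd h hζ⟩
  choose α hα using hex
  have hclose : ∀ (x x' : X) (ζ ζ' : V n), ‖ζ‖ < 3 / 2 → ‖ζ'‖ < 3 / 2 →
      ‖α x ζ - α x' ζ'‖ ≤ 8 / 7 * ‖e x (ζ, α x' ζ') - e x' (ζ', α x' ζ')‖ := by
    intro x x' ζ ζ' hζ hζ'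
    have h1 := hα x ζ (by linarith)
    have h2 := hα x' ζ' (by linarith)
    have h3 : α x ζ - α x' ζ' = -(e x (ζ, α x ζ) - e x (ζ, α x' ζ'))
        - (e x (ζ, α x' ζ') - e x' (ζ', α x' ζ')) := by
      linear_combination h1.2 - h2.2
    have h5 := rte_lip (hd x) (hb x) ζ (by linarith) (α x' ζ') (α x ζ) h2.1 h1.1
    have h6 : ‖α x ζ - α x' ζ'‖ ≤ ‖e x (ζ, α x ζ) - e x (ζ, α x' ζ')‖
        + ‖e x (ζ, α x' ζ') - e x' (ζ', α x' ζ')‖ := by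
      calc ‖α x ζ - α x' ζ'‖ = ‖-(e x (ζ, α x ζ) - e x (ζ, α x' ζ'))
            - (e x (ζ, α x' ζ') - e x' (ζ', α x' ζ'))‖ := by rw [← h3]
        _ ≤ ‖-(e x (ζ, α x ζ) - e x (ζ, α x' ζ'))‖
            + ‖e x (ζ, α x' ζ') - e x' (ζ', α x' ζ')‖ := norm_sub_le _ _
        _ = _ := by rw [norm_neg]
    have h7 : η * ‖α x ζ - α x' ζ'‖ ≤ 1 / 8 * ‖α x ζ - α x' ζ'‖ :=
      mul_le_mul_of_nonneg_right hη (norm_nonneg _)
    linarith
  refine ⟨α, ?_, ?_, ?_, ?_⟩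
  · rintro ⟨x₀, ζ₀⟩ ⟨-, hζ₀⟩
    have h0 : ‖ζ₀‖ ≤ 1 := by simpa using hζ₀
    rw [ContinuousWithinAt, tendsto_iff_norm_sub_tendsto_zero]
    have hcont : Continuous fun p : X × V n => e p.1 (p.2, α x₀ ζ₀) := by
      exact hc.comp (continuous_fst.prodMk (continuous_snd.prodMk continuous_const))
    have h1 : Tendsto (fun p : X × V n =>
        8 / 7 * ‖e p.1 (p.2, α x₀ ζ₀) - e x₀ (ζ₀, α x₀ ζ₀)‖) (𝓝 (x₀, ζ₀)) (𝓝 0) := by
      have h2 : Continuous fun p : X × V n =>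
          8 / 7 * ‖e p.1 (p.2, α x₀ ζ₀) - e x₀ (ζ₀, α x₀ ζ₀)‖ := by
        exact continuous_const.mul (hcont.sub continuous_const).norm
      have h3 := h2.tendsto (x₀, ζ₀)
      simpa using h3
    refine squeeze_zero' (Eventually.of_forall fun p => norm_nonneg _) ?_
      (h1.mono_left nhdsWithin_le_nhds)
    filter_upwards [self_mem_nhdsWithin] with p hp
    have hp1 : ‖p.2‖ ≤ 1 := by simpa using hp.2
    exact hclose p.1 x₀ p.2 ζ₀ (by linarith) (by linarith)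
  · intro x ζ₀ hζ₀
    have h0 : ‖ζ₀‖ < 3 / 2 := by simpa using hζ₀
    exact (rte_dif (hd x) hη (hb x) (α x) (fun ζ hζ => hα x ζ (by linarith)) ζ₀
      h0).differentiableWithinAt
  · intro x ζ hζ
    have h1 := hα x ζ (by linarith)
    refine ⟨?_, h1.2⟩
    have h2 : α x ζ = - e x (ζ, α x ζ) := eq_neg_of_add_eq_zero_left h1.2
    rw [h2, norm_neg]
    exact hb x ζ _ (by linarith) (by linarith [h1.1])
  · intro x ζ w hζ hw hw0
    have h1 := hα x ζ (by linarith)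
    have h2 := rte_lip (hd x) (hb x) ζ (by linarith) (α x ζ) w h1.1 hw
    have h3 : w - α x ζ = -(e x (ζ, w) - e x (ζ, α x ζ)) := by
      linear_combination hw0 - h1.2
    have h4 : ‖w - α x ζ‖ ≤ 1 / 8 * ‖w - α x ζ‖ := by
      calc ‖w - α x ζ‖ = ‖e x (ζ, w) - e x (ζ, α x ζ)‖ := by rw [h3, norm_neg]
        _ ≤ η * ‖w - α x ζ‖ := h2
        _ ≤ 1 / 8 * ‖w - α x ζ‖ := mul_le_mul_of_nonneg_right hη (norm_nonneg _)
    have h5 : ‖w - α x ζ‖ = 0 := by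
      have := norm_nonneg (w - α x ζ)
      linarith
    exact sub_eq_zero.1 (norm_eq_zero.1 h5)

theorem taylor2 {f : V n → ℂ} {M : ℝ}
    (hf : DifferentiableOn ℂ f (Metric.ball (0 : V n) (3 / 2)))
    (hM : ∀ ζ : V n, ‖ζ‖ < 3 / 2 → ‖f ζ‖ ≤ M) (y : V n) (hy : ‖y‖ ≤ 1 / 2) :
    ‖fderiv ℂ f y‖ ≤ 2 * M ∧ ∀ y' : V n, ‖y'‖ ≤ 1 / 2 →
      ‖f y' - f y - fderiv ℂ f y (y' - y)‖ ≤ 16 * M * ‖y' - y‖ ^ 2 := by
  have hM0 : 0 ≤ M := le_trans (norm_nonneg _) (hM 0 (by norm_num))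
  have hopen : IsOpen (Metric.ball (0 : V n) (3 / 2)) := Metric.isOpen_ball
  have hdat : ∀ z : V n, ‖z‖ < 3 / 2 → DifferentiableAt ℂ f z := fun z hz =>
    (hf z (by simpa using hz)).differentiableAt (hopen.mem_nhds (by simpa using hz))
  -- the restriction to a line
  have hline : ∀ v : V n, HasDerivAt (fun t : ℂ => f (y + t • v)) (fderiv ℂ f y v) 0 := by
    intro v
    have h1 : HasDerivAt (fun t : ℂ => y + t • v) v 0 := by
      have h2 : HasDerivAt (fun t : ℂ => t • v) ((1 : ℂ) • v) 0 := (hasDerivAt_id (0 : ℂ)).smul_const v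
      rw [one_smul] at h2
      exact h2.const_add y
    have h3 : HasFDerivAt f (fderiv ℂ f y) (y + (0 : ℂ) • v) := by
      rw [zero_smul, add_zero]
      exact (hdat y (by linarith)).hasFDerivAt
    exact h3.comp_hasDerivAt (0 : ℂ) h1
  have hlin : ∀ v : V n, DifferentiableOn ℂ (fun t : ℂ => f (y + t • v))
      {t : ℂ | ‖y + t • v‖ < 3 / 2} := by
    intro v t ht
    have h1 : DifferentiableAt ℂ (fun t : ℂ => y + t • v) t := by fun_prop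
    exact (DifferentiableAt.comp t (hdat _ ht) h1).differentiableWithinAt
  have hop : ∀ v : V n, IsOpen {t : ℂ | ‖y + t • v‖ < 3 / 2} := by
    intro v
    have h1 : Continuous fun t : ℂ => ‖y + t • v‖ := by fun_prop
    exact isOpen_lt h1 continuous_const
  have hfirst : ‖fderiv ℂ f y‖ ≤ 2 * M := by
    refine ContinuousLinearMap.opNorm_le_of_unit_norm (by positivity) (fun v hv => ?_)
    have hsub : Metric.closedBall (0 : ℂ) (1 / 2) ⊆ {t : ℂ | ‖y + t • v‖ < 3 / 2} := by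
      intro t ht
      have ht1 : ‖t‖ ≤ 1 / 2 := by simpa using ht
      have h1 : ‖y + t • v‖ ≤ ‖y‖ + ‖t‖ * ‖v‖ := by
        rw [← norm_smul]
        exact norm_add_le _ _
      rw [hv] at h1
      show ‖y + t • v‖ < 3 / 2
      linarith
    have h1 := Complex.norm_deriv_le_of_forall_mem_sphere_norm_le (c := 0) (R := 1 / 2) (C := M)
      (f := fun t : ℂ => f (y + t • v)) (by norm_num)
      (((hlin v).mono hsub).diffContOnCl_ball (subset_refl _))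
      (fun z hz => hM _ (hsub (Metric.sphere_subset_closedBall hz)))
    rw [(hline v).deriv] at h1
    calc ‖fderiv ℂ f y v‖ ≤ M / (1 / 2) := h1
      _ = 2 * M := by ring
  refine ⟨hfirst, fun y' hy' => ?_⟩
  set v := y' - y with hv
  by_cases hv0 : ‖v‖ = 0
  · have h1 : v = 0 := norm_eq_zero.1 hv0
    have h2 : y' = y := sub_eq_zero.1 (by rw [← hv]; exact h1)
    rw [h1, h2]
    simp
  have hvp : 0 < ‖v‖ := lt_of_le_of_ne (norm_nonneg _) (Ne.symm hv0)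
  have hρ : 0 < 1 / (2 * ‖v‖) := by positivity
  have hseg : ∀ s ∈ segment ℝ (0 : ℂ) 1, ‖y + s • v‖ ≤ 1 / 2 := by
    rintro s ⟨a, b, ha, hb, hab, rfl⟩
    have h1 : y + (a • (0 : ℂ) + b • (1 : ℂ)) • v = (a : ℂ) • y + (b : ℂ) • y' := by
      have ha' : (a : ℂ) = 1 - (b : ℂ) := by
        have h0 : a = 1 - b := by linarith
        rw [h0]
        push_cast
        ring
      have h2 : (a • (0 : ℂ) + b • (1 : ℂ)) = (b : ℂ) := by simp
      rw [h2, ha', hv, sub_smul, one_smul, smul_sub]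
      abel
    rw [h1]
    calc ‖(a : ℂ) • y + (b : ℂ) • y'‖ ≤ ‖(a : ℂ) • y‖ + ‖(b : ℂ) • y'‖ := norm_add_le _ _
      _ = a * ‖y‖ + b * ‖y'‖ := by
          rw [norm_smul, norm_smul, Complex.norm_real, Complex.norm_real, Real.norm_of_nonneg ha,
            Real.norm_of_nonneg hb]
      _ ≤ a * (1 / 2) + b * (1 / 2) := by
          gcongr
      _ = 1 / 2 := by rw [← add_mul, hab, one_mul]
  have h1 := rte_one (hop v) (hlin v) (M := M) hρ (fun t ht => hM _ ht) (fun s hs t ht => by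
    have h2 := hseg s hs
    have h3 : ‖t - s‖ ≤ 1 / (2 * ‖v‖) := by simpa [dist_eq_norm] using ht
    have h4 : y + t • v = (y + s • v) + (t - s) • v := by
      rw [sub_smul]
      abel
    have h5 : ‖y + t • v‖ ≤ ‖y + s • v‖ + ‖t - s‖ * ‖v‖ := by
      rw [h4, ← norm_smul]
      exact norm_add_le _ _
    have h6 : ‖t - s‖ * ‖v‖ ≤ 1 / (2 * ‖v‖) * ‖v‖ := mul_le_mul_of_nonneg_right h3 hvp.le
    have h7 : 1 / (2 * ‖v‖) * ‖v‖ = 1 / 2 := by field_simp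
    show ‖y + t • v‖ < 3 / 2
    linarith)
  rw [(hline v).deriv] at h1
  have h8 : y + (1 : ℂ) • v = y' := by
    rw [one_smul, hv]
    abel
  have h9 : y + (0 : ℂ) • v = y := by simp
  simp only [h8, h9] at h1
  calc ‖f y' - f y - fderiv ℂ f y v‖ ≤ 2 * M / (1 / (2 * ‖v‖)) ^ 2 := h1
    _ = 8 * M * ‖v‖ ^ 2 := by
        field_simp
        ring
    _ ≤ 16 * M * ‖v‖ ^ 2 := by
        have := mul_nonneg hM0 (sq_nonneg ‖v‖)
        linarith

end Pool.Agent.H51.BJ
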