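import Pool.Agent.H51.BJ.LDef
import Pool.Agent.H51.BJ.RTE

/-! # [H51 BJ LEA] Existence of the leaf of a pre-state (proofs id 313, Section 4, R1)

For `i ∈ W` the normalised rescaled polynomial `C (NN g (Q i))⁻¹ * rg g (Q i)` tends coefficientwise to
`C (φ i) * X i`, uniformly in `l`, its degree is bounded and it contains only the variables in
`Wᶜ ∪ {i}`. Divided by `φ i` and evaluated at `tp W ζ + w e_i` it is `w + e (ζ, w)` with `|e| ≤ η_j` for
`‖ζ‖ ≤ 2`, `‖w‖ ≤ 2`, all `l`, `η_j → 0` along `UF`, and it is jointly continuous in `(l, ζ, w)` (the centre and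
the radius are continuous in `l`, `NN > 0`). For the indices `j` with `η_j ≤ 1/8` (`UF`-many) take `α_i`
from `root` (with `X = II`, composed with `tp W`) and put
`a j l y = ∑_{i ∈ W} (c_i + b α_i (l, tp W (y - c)/b)) e_i` if `‖tp W (y - c)‖ ≤ b`, and for example `0`
otherwise; for the other `j` put `a = 0`. `D j l y` is the derivative of `y ↦ ∑ b α_i (tp W (y - c)/b) e_i`
(composed with `tp W`) in the half ball, `0` otherwise. The estimates `der` follow from `taylor2` with `M = η_j` (rescaled by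
`b`: `‖D‖ ≤ 2 η`, second order `16 η/b`), up to constants depending on `n`. -/

set_option autoImplicit false

open MvPolynomial Filter Pool.Agent.H60 Pool.Agent.H57.BJ
open scoped Topology

noncomputable section

namespace Pool.Agent.H51.BJ

variable {n : ℕ}

theorem lea_coeff_cont {Y : Type*} [TopologicalSpace Y] {c : Y → V n} {b : Y → ℝ}
    (hc : Continuous c) (hb : Continuous b) (f : MvPolynomial (Fin n) ℂ) :
    ∀ m, Continuous fun x => (rs (c x) (b x) f).coeff m := by
  induction f using MvPolynomial.induction_on with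
  | C a =>
    intro m
    simp only [rs_C]
    exact continuous_const
  | add p q hp hq =>
    intro m
    simp only [rs_add, coeff_add]
    exact (hp m).add (hq m)
  | mul_X p i hp =>
    intro m
    have e1 : ∀ x, rs (c x) (b x) (X i : MvPolynomial (Fin n) ℂ) =
        C (c x i) + C (b x : ℂ) * X i := by
      intro x
      unfold rs
      exact bind₁_X_right _ _
    have e2 : ∀ m', Continuous fun x => (rs (c x) (b x) (X i : MvPolynomial (Fin n) ℂ)).coeff m' := by
      intro m'
      simp only [e1, coeff_add, coeff_C_mul, coeff_C]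
      refine Continuous.add ?_ ?_
      · by_cases h0 : (0 : Fin n →₀ ℕ) = m'
        · simp only [h0, if_true]
          exact (continuous_apply i).comp hc
        · simp only [h0, if_false]
          exact continuous_const
      · exact (Complex.continuous_ofReal.comp hb).mul continuous_const
    simp only [rs_mul, coeff_mul]
    exact continuous_finsetSum _ fun x _ => (hp x.1).mul (e2 x.2)

theorem lea_NN_cont {g : Germ n} (hc : ∀ j, Continuous (g.c j)) (hb : ∀ j, Continuous (g.b j))
    (f : MvPolynomial (Fin n) ℂ) (j : ℕ) : Continuous fun l => NN g f (j, l) := by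
  have e1 : (fun l => NN g f (j, l)) = fun l => ∑ m ∈ expo n f.totalDegree,
      ‖(rs (g.c j l) (g.b j l) f).coeff m‖ := by
    funext l
    unfold NN rg
    exact nm_eq_sum _ _ (support_expo (totalDegree_rs_le _ _ _))
  rw [e1]
  exact continuous_finsetSum _ fun m _ => (lea_coeff_cont (hc j) (hb j) f m).norm

theorem lea_ev_congr {S : Set (Fin n)} {f : MvPolynomial (Fin n) ℂ}
    (hf : f ∈ MvPolynomial.supported ℂ S) {x y : V n} (hxy : ∀ i ∈ S, x i = y i) :
    ev f x = ev f y := by
  unfold ev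
  refine eval₂Hom_congr' rfl (fun i hi _ => hxy i ?_) rfl
  exact (mem_supported.1 hf) (Finset.mem_coe.2 hi)

theorem lea_ev_cont (f : MvPolynomial (Fin n) ℂ) : Continuous (ev f) := by
  unfold ev
  exact MvPolynomial.continuous_eval f

theorem lea_ev_diff (f : MvPolynomial (Fin n) ℂ) : Differentiable ℂ (ev f) := by
  unfold ev
  induction f using MvPolynomial.induction_on with
  | C a => simp only [eval_C]; exact differentiable_const _
  | add p q hp hq => simp only [map_add]; exact hp.add hq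
  | mul_X p i hp => simp only [map_mul, eval_X]; exact hp.mul (differentiable_apply i)

/-- the perturbation -/
def lea_e (g : Germ n) (W : Finset (Fin n)) (Q : Fin n → MvPolynomial (Fin n) ℂ) (φ : Fin n → ℂ)
    (j : ℕ) (i : Fin n) (l : II) (p : V n × ℂ) : ℂ :=
  (φ i)⁻¹ * ((NN g (Q i) (j, l) : ℂ)⁻¹ *
    ev (Q i) (g.c j l + (g.b j l : ℂ) • (tp W p.1 + Pi.single i p.2))) - p.2

theorem tp_cont (W : Finset (Fin n)) : Continuous (tp W : V n → V n) := by
  refine continuous_pi fun i => ?_
  by_cases h : i ∈ W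
  · simp only [tp, h, if_true]; exact continuous_const
  · simp only [tp, h, if_false]; exact continuous_apply i

theorem tp_diff (W : Finset (Fin n)) : Differentiable ℂ (tp W : V n → V n) := by
  refine differentiable_pi.2 fun i => ?_
  by_cases h : i ∈ W
  · simp only [tp, h, if_true]; exact differentiable_const _
  · simp only [tp, h, if_false]; exact differentiable_apply i

theorem lea_e_cont {F : ℕ → V n → ℂ} {W : Finset (Fin n)} {g : Germ n} {z κ : ℕ → V n}
    {Q : Fin n → MvPolynomial (Fin n) ℂ} {φ : Fin n → ℂ} (h : Pre F W g z κ Q φ) (j : ℕ)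
    {i : Fin n} (hi : Q i ≠ 0) :
    Continuous fun p : II × (V n × ℂ) => lea_e g W Q φ j i p.1 p.2 := by
  unfold lea_e
  have h1 : Continuous fun p : II × (V n × ℂ) => ((NN g (Q i) (j, p.1) : ℂ))⁻¹ := by
    refine Continuous.inv₀ (Complex.continuous_ofReal.comp
      ((lea_NN_cont h.cc h.cb (Q i) j).comp continuous_fst)) fun p => ?_
    exact_mod_cast (NN_pos h.pos hi _).ne'
  have h2 : Continuous fun p : II × (V n × ℂ) =>
      g.c j p.1 + (g.b j p.1 : ℂ) • (tp W p.2.1 + Pi.single i p.2.2) := by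
    have e1 : Continuous fun p : II × (V n × ℂ) => (Pi.single i p.2.2 : V n) := by
      refine continuous_pi fun k => ?_
      by_cases hk : k = i
      · subst hk; simp only [Pi.single_eq_same]; exact continuous_snd.comp continuous_snd
      · simp only [Pi.single_eq_of_ne hk]; exact continuous_const
    exact ((h.cc j).comp continuous_fst).add ((Complex.continuous_ofReal.comp
      ((h.cb j).comp continuous_fst)).smul
        (((tp_cont W).comp (continuous_fst.comp continuous_snd)).add e1))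
  exact (continuous_const.mul (h1.mul ((lea_ev_cont _).comp h2))).sub
    (continuous_snd.comp continuous_snd)

theorem lea_e_diff (g : Germ n) (W : Finset (Fin n)) (Q : Fin n → MvPolynomial (Fin n) ℂ)
    (φ : Fin n → ℂ) (j : ℕ) (i : Fin n) (l : II) : Differentiable ℂ (lea_e g W Q φ j i l) := by
  unfold lea_e
  have h2 : Differentiable ℂ fun p : V n × ℂ =>
      g.c j l + (g.b j l : ℂ) • (tp W p.1 + Pi.single i p.2) := by
    have e1 : Differentiable ℂ fun p : V n × ℂ => (Pi.single i p.2 : V n) := by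
      refine differentiable_pi.2 fun k => ?_
      by_cases hk : k = i
      · subst hk; simp only [Pi.single_eq_same]; exact differentiable_snd
      · simp only [Pi.single_eq_of_ne hk]; exact differentiable_const _
    have e2 : Differentiable ℂ fun p : V n × ℂ => tp W p.1 + (Pi.single i p.2 : V n) :=
      ((tp_diff W).comp differentiable_fst).add e1
    exact (differentiable_const _).add (e2.const_smul (g.b j l : ℂ))
  exact ((((lea_ev_diff (Q i)).comp h2).const_mul _).const_mul _).sub differentiable_snd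

/-- uniform smallness -/
theorem lea_e_small {F : ℕ → V n → ℂ} {W : Finset (Fin n)} {g : Germ n} {z κ : ℕ → V n}
    {Q : Fin n → MvPolynomial (Fin n) ℂ} {φ : Fin n → ℂ} (h : Pre F W g z κ Q φ)
    {η : ℝ} (hη : 0 < η) {i : Fin n} (hi : i ∈ W) :
    ∀ᶠ j in UF, ∀ (l : II) (ζ : V n) (w : ℂ), ‖ζ‖ ≤ 2 → ‖w‖ ≤ 2 →
      ‖lea_e g W Q φ j i l (ζ, w)‖ ≤ η := by
  have hlim := h.limQ i hi
  have hφ := h.phi i hi
  set D := max (Q i).totalDegree 1 with hD
  set A : MvPolynomial (Fin n) ℂ := C (φ i) * X i with hA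
  have h1 : PT (LX II) (fun q => C ((NN g (Q i) q : ℂ)⁻¹) * rg g (Q i) q + C (-1) * A) 0 := by
    have := PT.add hlim (PT.const (L := LX II) (C (-1) * A))
    have e0 : A + C (-1) * A = 0 := by rw [C_neg, C_1]; ring
    rwa [e0] at this
  have hAdeg : A.totalDegree ≤ D := by
    rw [hA]
    refine (totalDegree_mul _ _).trans ?_
    rw [totalDegree_C, zero_add]
    exact (totalDegree_X (R := ℂ) i).le.trans (le_max_right _ _)
  have hdeg : ∀ q : ℕ × II, (C ((NN g (Q i) q : ℂ)⁻¹) * rg g (Q i) q + C (-1) * A).totalDegree ≤ D := by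
    intro q
    refine (totalDegree_add _ _).trans (max_le ?_ ?_)
    · exact ((degree_C_mul_le _ _).trans (rg_degree _ q)).trans (le_max_left _ _)
    · exact (degree_C_mul_le _ _).trans hAdeg
  have h2 := PT.nm (D := D) h1 (Eventually.of_forall hdeg)
  have e0 : nm (0 : MvPolynomial (Fin n) ℂ) = 0 := nm_eq_zero.2 rfl
  rw [e0] at h2
  have h3 : ∀ᶠ q in LX II, nm (C ((NN g (Q i) q : ℂ)⁻¹) * rg g (Q i) q + C (-1) * A) <
      η * ‖φ i‖ / 4 ^ D := h2.eventually (gt_mem_nhds (by
        have := norm_pos_iff.2 hφ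
        positivity))
  filter_upwards [ev_LX.1 h3] with j h3 l ζ w hζ hw
  have h4 := h3 l
  set s : V n := tp W ζ + Pi.single i w with hs
  have hsn : ‖s‖ ≤ 4 := by
    rw [hs]
    refine (norm_add_le _ _).trans ?_
    have e1 : ‖tp W ζ‖ ≤ ‖ζ‖ := by
      refine (pi_norm_le_iff_of_nonneg (norm_nonneg _)).2 fun k => ?_
      by_cases hk : k ∈ W
      · simp [tp, hk]
      · simpa [tp, hk] using norm_le_pi_norm ζ k
    have e2 : ‖(Pi.single i w : V n)‖ ≤ ‖w‖ := by
      refine (pi_norm_le_iff_of_nonneg (norm_nonneg _)).2 fun k => ?_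
      by_cases hk : k = i
      · subst hk; simp
      · simp [Pi.single_eq_of_ne hk]
    linarith
  have h5 := norm_ev_le (C ((NN g (Q i) (j, l) : ℂ)⁻¹) * rg g (Q i) (j, l) + C (-1) * A) s
    (R := 4) (by norm_num) hsn
  have e1 : ev (C ((NN g (Q i) (j, l) : ℂ)⁻¹) * rg g (Q i) (j, l) + C (-1) * A) s =
      φ i * lea_e g W Q φ j i l (ζ, w) := by
    have e2 : ev (rg g (Q i) (j, l)) s = ev (Q i) (g.c j l + (g.b j l : ℂ) • s) := ev_rs _ _ _ _
    have e3 : ev (C ((NN g (Q i) (j, l) : ℂ)⁻¹) * rg g (Q i) (j, l) + C (-1) * A) s =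
        (NN g (Q i) (j, l) : ℂ)⁻¹ * ev (rg g (Q i) (j, l)) s - φ i * s i := by
      unfold ev
      simp [hA, sub_eq_add_neg]
    have e4 : s i = w := by simp [hs, tp, hi]
    rw [e3, e2, e4]
    unfold lea_e
    simp only
    rw [← hs]
    field_simp
  rw [e1, norm_mul] at h5
  have hφ0 : 0 < ‖φ i‖ := norm_pos_iff.2 hφ
  have h6 : nm (C ((NN g (Q i) (j, l) : ℂ)⁻¹) * rg g (Q i) (j, l) + C (-1) * A) *
      4 ^ (C ((NN g (Q i) (j, l) : ℂ)⁻¹) * rg g (Q i) (j, l) + C (-1) * A).totalDegree ≤
      η * ‖φ i‖ / 4 ^ D * 4 ^ D := by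
    refine mul_le_mul h4.le (pow_le_pow_right₀ (by norm_num) (hdeg (j, l))) (by positivity)
      (by positivity)
  rw [div_mul_cancel₀ _ (by positivity)] at h6
  have h7 : ‖φ i‖ * ‖lea_e g W Q φ j i l (ζ, w)‖ ≤ ‖φ i‖ * η := by
    calc _ ≤ _ := h5
      _ ≤ η * ‖φ i‖ := h6
      _ = _ := mul_comm _ _
  exact le_of_mul_le_mul_left h7 hφ0

/-- the derivative of the leaf -/
def lea_D (W : Finset (Fin n)) (α : Fin n → V n → ℂ) (ζ : V n) : V n →L[ℂ] V n :=
  ContinuousLinearMap.pi fun i => if i ∈ W then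
    (fderiv ℂ (α i) ζ).comp (ContinuousLinearMap.pi fun k =>
      if k ∈ W then (0 : V n →L[ℂ] ℂ) else ContinuousLinearMap.proj k) else 0

theorem lea_D_apply (W : Finset (Fin n)) (α : Fin n → V n → ℂ) (ζ v : V n) (i : Fin n) :
    lea_D W α ζ v i = if i ∈ W then fderiv ℂ (α i) ζ (tp W v) else 0 := by
  unfold lea_D
  simp only [ContinuousLinearMap.coe_pi', ContinuousLinearMap.pi_apply]
  by_cases hi : i ∈ W
  · simp only [hi, if_true, ContinuousLinearMap.comp_apply]
    congr 1
    funext k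
    by_cases hk : k ∈ W <;> simp [tp, hk]
  · simp [hi]

theorem exists_leaf {F : ℕ → V n → ℂ} {W : Finset (Fin n)} {g : Germ n} {z κ : ℕ → V n}
    {Q : Fin n → MvPolynomial (Fin n) ℂ} {φ : Fin n → ℂ} (h : Pre F W g z κ Q φ) :
    ∃ (a : ℕ → II → V n → V n) (D : ℕ → II → V n → V n →L[ℂ] V n), Leaf g W Q a D := by
  classical
  have hQ0 : ∀ i ∈ W, Q i ≠ 0 := by
    intro i hi h0
    have h1 := h.limQ i hi (Finsupp.single i 1)
    have h2 : Tendsto (fun _ : ℕ × II => (0 : ℂ)) (LX II) (𝓝 ((C (φ i) * X i).coeff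
        (Finsupp.single i 1))) := by
      refine h1.congr fun q => ?_
      have : rg g (Q i) q = 0 := by rw [h0]; unfold rg rs; exact map_zero _
      simp only [this, mul_zero, coeff_zero]
    have h3 := tendsto_nhds_unique h2 tendsto_const_nhds
    rw [coeff_C_mul] at h3
    simp only [coeff_X, if_true, mul_one] at h3
    exact h.phi i hi (by simpa using h3)
  let P : ℕ → Prop := fun j => ∀ i ∈ W, ∀ (l : II) (ζ : V n) (w : ℂ), ‖ζ‖ ≤ 2 → ‖w‖ ≤ 2 →
    ‖lea_e g W Q φ j i l (ζ, w)‖ ≤ 1 / 8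
  have hP : ∀ᶠ j in UF, P j := by
    have : ∀ᶠ j in UF, ∀ i ∈ (W : Set (Fin n)), ∀ (l : II) (ζ : V n) (w : ℂ), ‖ζ‖ ≤ 2 → ‖w‖ ≤ 2 →
        ‖lea_e g W Q φ j i l (ζ, w)‖ ≤ 1 / 8 :=
      (W.finite_toSet.eventually_all).2 fun i hi => lea_e_small h (by norm_num) hi
    exact this
  have hex : ∀ j, ∃ α : Fin n → II → V n → ℂ, P j → ∀ i ∈ W,
      ContinuousOn (fun p : II × V n => α i p.1 p.2) (Set.univ ×ˢ Metric.closedBall (0 : V n) 1) ∧
      (∀ x, DifferentiableOn ℂ (α i x) (Metric.ball (0 : V n) (3 / 2))) ∧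
      (∀ x (ζ : V n), ‖ζ‖ < 3 / 2 → ‖α i x ζ‖ ≤ 1 / 8 ∧
        α i x ζ + lea_e g W Q φ j i x (ζ, α i x ζ) = 0) := by
    intro j
    by_cases hj : P j
    · have h1 : ∀ i : Fin n, ∃ α : II → V n → ℂ, i ∈ W →
        ContinuousOn (fun p : II × V n => α p.1 p.2)
          (Set.univ ×ˢ Metric.closedBall (0 : V n) 1) ∧
        (∀ x, DifferentiableOn ℂ (α x) (Metric.ball (0 : V n) (3 / 2))) ∧
        (∀ x (ζ : V n), ‖ζ‖ < 3 / 2 → ‖α x ζ‖ ≤ 1 / 8 ∧
          α x ζ + lea_e g W Q φ j i x (ζ, α x ζ) = 0) := by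
        intro i
        by_cases hi : i ∈ W
        · obtain ⟨α, h2, h3, h4, -⟩ := root (lea_e g W Q φ j i) (lea_e_cont h j (hQ0 i hi))
            (lea_e_diff g W Q φ j i) (le_refl (1 / 8 : ℝ)) (hj i hi)
          exact ⟨α, fun _ => ⟨h2, h3, h4⟩⟩
        · exact ⟨fun _ _ => 0, fun hi' => absurd hi' hi⟩
      choose α hα using h1
      exact ⟨α, fun _ i hi => hα i hi⟩
    · exact ⟨fun _ _ _ => 0, fun hj' => absurd hj' hj⟩
  choose α hα using hex
  let ζf : ℕ → II → V n → V n := fun j l y => ((g.b j l : ℂ)⁻¹) • tp W (y - g.c j l)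
  let a : ℕ → II → V n → V n := fun j l y => if P j ∧ ‖tp W (y - g.c j l)‖ ≤ g.b j l then
    (fun i => if i ∈ W then g.c j l i + (g.b j l : ℂ) * α j i l (ζf j l y) else 0) else 0
  let D : ℕ → II → V n → V n →L[ℂ] V n := fun j l y => lea_D W (fun i => α j i l) (ζf j l y)
  have htps : ∀ v w : V n, tp W (v - w) = tp W v - tp W w := by
    intro v w
    funext k
    by_cases hk : k ∈ W <;> simp [tp, hk]
  have htpt : ∀ v : V n, tp W (tp W v) = tp W v := by
    intro v
    funext k
    by_cases hk : k ∈ W <;> simp [tp, hk]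
  have htpn : ∀ v : V n, ‖tp W v‖ ≤ ‖v‖ := by
    intro v
    refine (pi_norm_le_iff_of_nonneg (norm_nonneg _)).2 fun k => ?_
    by_cases hk : k ∈ W
    · simp [tp, hk]
    · simpa [tp, hk] using norm_le_pi_norm v k
  have hζn : ∀ j l y, ‖ζf j l y‖ = ‖tp W (y - g.c j l)‖ / g.b j l := by
    intro j l y
    change ‖((g.b j l : ℂ)⁻¹) • tp W (y - g.c j l)‖ = _
    rw [norm_smul, norm_inv, Complex.norm_real, Real.norm_of_nonneg (h.pos j l).le]
    field_simp
  -- smallness of the roots
  have hsm : ∀ η : ℝ, 0 < η → ∀ᶠ j in UF, ∀ i ∈ W, ∀ (l : II) (ζ : V n), ‖ζ‖ < 3 / 2 →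
      ‖α j i l ζ‖ ≤ η := by
    intro η hη
    have h1 : ∀ᶠ j in UF, ∀ i ∈ (W : Set (Fin n)), ∀ (l : II) (ζ : V n) (w : ℂ), ‖ζ‖ ≤ 2 →
        ‖w‖ ≤ 2 → ‖lea_e g W Q φ j i l (ζ, w)‖ ≤ η :=
      (W.finite_toSet.eventually_all).2 fun i hi => lea_e_small h hη hi
    filter_upwards [h1, hP] with j h1 hj i hi l ζ hζ
    obtain ⟨h2, h3⟩ := (hα j hj i hi).2.2 l ζ hζ
    have h4 := h1 i hi l ζ (α j i l ζ) (by linarith) (by linarith)
    have h5 : α j i l ζ = - lea_e g W Q φ j i l (ζ, α j i l ζ) := eq_neg_of_add_eq_zero_left h3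
    rw [h5, norm_neg]
    exact h4
  refine ⟨a, D, ?_, ?_, ?_, ?_, ?_, ?_, ?_⟩
  · intro j l y
    change tp W (if P j ∧ ‖tp W (y - g.c j l)‖ ≤ g.b j l then _ else _) = 0
    split_ifs
    · funext k
      by_cases hk : k ∈ W <;> simp [tp, hk]
    · funext k
      simp [tp]
  · intro j l y y' hy
    have e1 : tp W (y - g.c j l) = tp W (y' - g.c j l) := by rw [htps, htps, hy]
    change (if P j ∧ ‖tp W (y - g.c j l)‖ ≤ g.b j l then _ else _) =
      (if P j ∧ ‖tp W (y' - g.c j l)‖ ≤ g.b j l then _ else _)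
    have e2 : ζf j l y = ζf j l y' := by
      change ((g.b j l : ℂ)⁻¹) • tp W (y - g.c j l) = ((g.b j l : ℂ)⁻¹) • tp W (y' - g.c j l)
      rw [e1]
    rw [e1, e2]
  · intro j l y v
    constructor
    · funext k
      change tp W (lea_D W (fun i => α j i l) (ζf j l y) v) k = 0
      by_cases hk : k ∈ W
      · simp [tp, hk]
      · simp [tp, hk, lea_D_apply]
    · funext k
      change lea_D W (fun i => α j i l) (ζf j l y) (wp W v) k = 0
      rw [lea_D_apply]
      have e1 : tp W (wp W v) = 0 := by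
        funext k
        by_cases hk : k ∈ W <;> simp [tp, wp, hk]
      rw [e1]
      simp
  · refine ev_LX.2 ?_
    filter_upwards [hP] with j hj l y hy i hi
    have hb := h.pos j l
    have hζ1 : ‖ζf j l y‖ ≤ 1 := by
      rw [hζn, div_le_one hb]
      exact hy
    obtain ⟨-, h3⟩ := (hα j hj i hi).2.2 l (ζf j l y) (by linarith)
    have h4 : lea_e g W Q φ j i l (ζf j l y, α j i l (ζf j l y)) = - α j i l (ζf j l y) :=
      eq_neg_of_add_eq_zero_right h3
    unfold lea_e at h4
    simp only at h4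
    have h5 : (φ i)⁻¹ * ((NN g (Q i) (j, l) : ℂ)⁻¹ * ev (Q i) (g.c j l + (g.b j l : ℂ) •
        (tp W (ζf j l y) + Pi.single i (α j i l (ζf j l y))))) = 0 := by
      linear_combination h4
    have h6 : ev (Q i) (g.c j l + (g.b j l : ℂ) •
        (tp W (ζf j l y) + Pi.single i (α j i l (ζf j l y)))) = 0 := by
      have hn : (NN g (Q i) (j, l) : ℂ) ≠ 0 := by exact_mod_cast (NN_pos h.pos (hQ0 i hi) _).ne'
      rcases mul_eq_zero.1 h5 with h7 | h7
      · exact absurd h7 (inv_ne_zero (h.phi i hi))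
      · rcases mul_eq_zero.1 h7 with h8 | h8
        · exact absurd h8 (inv_ne_zero hn)
        · exact h8
    rw [← h6]
    refine lea_ev_congr (h.sup i hi) fun k hk => ?_
    have ha : a j l y = fun i => if i ∈ W then g.c j l i + (g.b j l : ℂ) * α j i l (ζf j l y)
        else 0 := if_pos ⟨hj, hy⟩
    change (tp W y + a j l y) k = _
    rw [ha]
    have hbc : (g.b j l : ℂ) ≠ 0 := by exact_mod_cast hb.ne'
    rcases hk with hk | hk
    · have hk' : k ∉ W := hk
      have hki : k ≠ i := fun e => hk' (e ▸ hi)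
      have e1 : ζf j l y k = (g.b j l : ℂ)⁻¹ * (y k - g.c j l k) := by
        change ((g.b j l : ℂ)⁻¹ • tp W (y - g.c j l)) k = _
        simp [tp, hk']
      simp only [Pi.add_apply, Pi.smul_apply, smul_eq_mul, tp, hk', if_false,
        Pi.single_eq_of_ne hki, e1, add_zero]
      field_simp
      ring
    · rw [Set.mem_singleton_iff] at hk
      subst hk
      simp [tp, hi]
  · intro j
    by_cases hj : P j
    · have e1 : ∀ p ∈ (Set.univ ×ˢ Metric.closedBall (0 : V n) 1 : Set (II × V n)),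
          a j p.1 (g.c j p.1 + (g.b j p.1 : ℂ) • p.2) = fun i => if i ∈ W then
            g.c j p.1 i + (g.b j p.1 : ℂ) * α j i p.1 (tp W p.2) else 0 := by
        rintro ⟨l, s⟩ ⟨-, hs⟩
        rw [mem_closedBall_zero_iff] at hs
        have hb := h.pos j l
        have hbc : (g.b j l : ℂ) ≠ 0 := by exact_mod_cast hb.ne'
        have e2 : tp W (g.c j l + (g.b j l : ℂ) • s - g.c j l) = (g.b j l : ℂ) • tp W s := by
          funext k
          by_cases hk : k ∈ W <;> simp [tp, hk]
        have e3 : ζf j l (g.c j l + (g.b j l : ℂ) • s) = tp W s := by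
          change (g.b j l : ℂ)⁻¹ • tp W (g.c j l + (g.b j l : ℂ) • s - g.c j l) = _
          rw [e2, smul_smul, inv_mul_cancel₀ hbc, one_smul]
        have e4 : ‖tp W (g.c j l + (g.b j l : ℂ) • s - g.c j l)‖ ≤ g.b j l := by
          rw [e2, norm_smul, Complex.norm_real, Real.norm_of_nonneg hb.le]
          have := (htpn s).trans hs
          nlinarith
        change (if P j ∧ ‖tp W (g.c j l + (g.b j l : ℂ) • s - g.c j l)‖ ≤ g.b j l then
          (fun i => if i ∈ W then g.c j l i + (g.b j l : ℂ) *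
            α j i l (ζf j l (g.c j l + (g.b j l : ℂ) • s)) else 0) else 0) = _
        rw [if_pos ⟨hj, e4⟩, e3]
      refine ContinuousOn.congr ?_ e1
      refine continuousOn_pi.2 fun i => ?_
      by_cases hi : i ∈ W
      · simp only [hi, if_true]
        have h1 := (hα j hj i hi).1
        have h2 : ContinuousOn (fun p : II × V n => α j i p.1 (tp W p.2))
            (Set.univ ×ˢ Metric.closedBall (0 : V n) 1) := by
          refine h1.comp (t := Set.univ ×ˢ Metric.closedBall (0 : V n) 1)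
            (f := fun p : II × V n => (p.1, tp W p.2)) ?_ ?_
          · exact (continuous_fst.prodMk ((tp_cont W).comp continuous_snd)).continuousOn
          · rintro ⟨l, s⟩ ⟨-, hs⟩
            rw [mem_closedBall_zero_iff] at hs
            exact ⟨trivial, mem_closedBall_zero_iff.2 ((htpn s).trans hs)⟩
        refine ContinuousOn.add ?_ (ContinuousOn.mul ?_ h2)
        · exact ((continuous_apply i).comp ((h.cc j).comp continuous_fst)).continuousOn
        · exact (Complex.continuous_ofReal.comp ((h.cb j).comp continuous_fst)).continuousOn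
      · simp only [hi, if_false]
        exact continuousOn_const
    · have e1 : (fun p : II × V n => a j p.1 (g.c j p.1 + (g.b j p.1 : ℂ) • p.2)) =
          fun _ => 0 := by
        funext p
        exact if_neg fun h => hj h.1
      rw [e1]
      exact continuousOn_const
  · intro ε hε
    refine ev_LX.2 ?_
    filter_upwards [hP, hsm ε hε] with j hj hs l y hy
    have hb := h.pos j l
    have hζ1 : ‖ζf j l y‖ ≤ 1 := by
      rw [hζn, div_le_one hb]
      exact hy
    have ha : a j l y = fun i => if i ∈ W then g.c j l i + (g.b j l : ℂ) * α j i l (ζf j l y)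
        else 0 := if_pos ⟨hj, hy⟩
    change ‖a j l y - wp W (g.c j l)‖ ≤ ε * g.b j l
    rw [ha]
    refine (pi_norm_le_iff_of_nonneg (by positivity)).2 fun i => ?_
    by_cases hi : i ∈ W
    · simp only [Pi.sub_apply, hi, if_true, wp, add_sub_cancel_left, norm_mul, Complex.norm_real,
        Real.norm_of_nonneg hb.le]
      have := hs i hi l (ζf j l y) (by linarith)
      rw [mul_comm]
      gcongr
    · simp only [Pi.sub_apply, hi, if_false, wp, sub_zero, norm_zero]
      positivity
  · intro ε hε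
    refine ev_LX.2 ?_
    filter_upwards [hP, hsm (ε / 16) (by positivity)] with j hj hs l y hy
    have hb := h.pos j l
    have hbc : (g.b j l : ℂ) ≠ 0 := by exact_mod_cast hb.ne'
    have hhalf : ∀ y : V n, ‖tp W (y - g.c j l)‖ ≤ g.b j l / 2 → ‖ζf j l y‖ ≤ 1 / 2 := by
      intro y hy
      rw [hζn, div_le_iff₀ hb]
      linarith
    have hζ1 := hhalf y hy
    change (∀ v, ‖lea_D W (fun i => α j i l) (ζf j l y) v‖ ≤ ε * ‖v‖) ∧ ∀ y' : V n,
      ‖tp W (y' - g.c j l)‖ ≤ g.b j l / 2 → ‖a j l y' - a j l y -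
        lea_D W (fun i => α j i l) (ζf j l y) (y' - y)‖ ≤ ε / g.b j l * ‖y' - y‖ ^ 2
    constructor
    · intro v
      refine (pi_norm_le_iff_of_nonneg (by positivity)).2 fun i => ?_
      rw [lea_D_apply]
      split_ifs with hi
      · obtain ⟨t1, -⟩ := taylor2 ((hα j hj i hi).2.1 l) (fun ζ hζ => hs i hi l ζ hζ)
          (ζf j l y) hζ1
        calc ‖fderiv ℂ (α j i l) (ζf j l y) (tp W v)‖
            ≤ ‖fderiv ℂ (α j i l) (ζf j l y)‖ * ‖tp W v‖ := ContinuousLinearMap.le_opNorm _ _
          _ ≤ (2 * (ε / 16)) * ‖v‖ := by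
              gcongr
              exact htpn v
          _ ≤ ε * ‖v‖ := by nlinarith [norm_nonneg v]
      · rw [norm_zero]; positivity
    · intro y' hy'
      have hζ2 := hhalf y' hy'
      have ha : a j l y = fun i => if i ∈ W then g.c j l i + (g.b j l : ℂ) * α j i l (ζf j l y)
        else 0 := if_pos ⟨hj, by linarith⟩
      have ha' : a j l y' = fun i => if i ∈ W then g.c j l i +
        (g.b j l : ℂ) * α j i l (ζf j l y') else 0 := if_pos ⟨hj, by linarith⟩
      refine (pi_norm_le_iff_of_nonneg (by positivity)).2 fun i => ?_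
      rw [Pi.sub_apply, Pi.sub_apply, lea_D_apply, ha, ha']
      by_cases hi : i ∈ W
      · simp only [hi, if_true]
        obtain ⟨-, t2⟩ := taylor2 ((hα j hj i hi).2.1 l) (fun ζ hζ => hs i hi l ζ hζ)
          (ζf j l y) hζ1
        have t3 := t2 (ζf j l y') hζ2
        have e1 : tp W (y' - y) = (g.b j l : ℂ) • (ζf j l y' - ζf j l y) := by
          change _ = (g.b j l : ℂ) • ((g.b j l : ℂ)⁻¹ • tp W (y' - g.c j l) -
            (g.b j l : ℂ)⁻¹ • tp W (y - g.c j l))
          rw [← smul_sub, smul_smul, mul_inv_cancel₀ hbc, one_smul, ← htps]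
          congr 1
          abel
        have e2 : ‖ζf j l y' - ζf j l y‖ ≤ ‖y' - y‖ / g.b j l := by
          have e3 : ‖tp W (y' - y)‖ = g.b j l * ‖ζf j l y' - ζf j l y‖ := by
            rw [e1, norm_smul, Complex.norm_real, Real.norm_of_nonneg hb.le]
          rw [le_div_iff₀ hb, mul_comm, ← e3]
          exact htpn _
        have e4 : g.c j l i + (g.b j l : ℂ) * α j i l (ζf j l y') -
            (g.c j l i + (g.b j l : ℂ) * α j i l (ζf j l y)) -
            fderiv ℂ (α j i l) (ζf j l y) (tp W (y' - y)) =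
            (g.b j l : ℂ) * (α j i l (ζf j l y') - α j i l (ζf j l y) -
              fderiv ℂ (α j i l) (ζf j l y) (ζf j l y' - ζf j l y)) := by
          rw [e1, map_smul, smul_eq_mul]
          ring
        rw [e4, norm_mul, Complex.norm_real, Real.norm_of_nonneg hb.le]
        calc g.b j l * ‖α j i l (ζf j l y') - α j i l (ζf j l y) -
              fderiv ℂ (α j i l) (ζf j l y) (ζf j l y' - ζf j l y)‖
            ≤ g.b j l * (16 * (ε / 16) * ‖ζf j l y' - ζf j l y‖ ^ 2) := by gcongr
          _ ≤ g.b j l * (16 * (ε / 16) * (‖y' - y‖ / g.b j l) ^ 2) := by gcongr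
          _ = ε / g.b j l * ‖y' - y‖ ^ 2 := by field_simp
      · simp only [hi, if_false, sub_zero, norm_zero]
        positivity

end Pool.Agent.H51.BJ
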