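import Pool.Agent.H51.BJ.TAM

/-! # [H51 BJ RTL] Limits of roots (abstract form; proofs id 313, Section 4, R2)

`X` is a connected space. `S` is the finite set of exponents which occur, `a k j x` the coefficients,
`ν k j x > 0` their sizes, `a k/ν k → θ k ≠ 0` uniformly in `x`; `y j` continuous with
`∑_{k ∈ S} a_k y^k = 0`. For `k < l` in `S` put `ρ_{kl} = (ν_k/ν_l)^{1/(l-k)}`, continuous in `x`; the
ratio of any two of them tends to `0`, or to a positive constant, or to infinity, uniformly in `x`.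
Claim: `y = 0` for `UF`-many `j` (all `x`), or `y/ρ_{kl}` tends to a nonzero constant for some `k < l`.

Proof. Step 1. Let `e = min S`. At each `x` either `y = 0` or `∑ a_k y^{k-e} = 0`; the two sets of `x` are
closed, disjoint (`a_e ≠ 0`) and cover `X`, so one of them is `X`; `UF` is an ultrafilter, so one case
holds for `UF`-many `j`. Suppose the second. Then `S` has at least two elements.
Step 2. Let `m = #S`. At every `x` take `k` with `|a_k y^k|` maximal; since the sum is `0` some other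
`l` has `|a_l y^l| ≥ |a_k y^k|/m`. So `|y|^{l-k} ≍ ν_k/ν_l`, i.e. `|y|/ρ_{kl} ∈ [1/C, C]` (`C` depends on `m`
and the `θ`). The sets `E_{kl}` of such `x` are closed and cover `X`. Group the pairs by comparability:
sets belonging to incomparable pairs are disjoint for `UF`-many `j` (the ratio of the `ρ` is
`< C^{-2}` or `> C^2` for all `x`). `X` is connected, so one class covers `X`, and there are finitely many classes, so one
class works for `UF`-many `j`: fix a pair in it, `ρ = ρ_{kl}`; then `|y|/ρ ∈ [1/C', C']` for all `x`.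
Step 3. `Y = y/ρ`. For `k', k''` in `S`: `ν_{k'} ρ^{k'}/(ν_{k''} ρ^{k''}) = (ρ_{k'k''}/ρ)^{k''-k'}` tends to
`0`, a positive constant or infinity; let `k0` be a maximal one. Dividing the equation by `ν_{k0} ρ^{k0}`:
`∑ b_{k'} Y^{k'} = 0` with `b_{k'} → Θ_{k'}` uniformly, `Θ_{k0} = θ_{k0} ≠ 0`. So `Θ(Y) → 0` uniformly for
a nonzero polynomial `Θ`; `|Θ(Y)| = |lead| ∏ |Y - r_i|`, so `Y(x)` is within `ε_j → 0` of the set of
roots; by connectedness it is near the same root for all `x`, and for `UF`-many `j` the same root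
`r`; `|r| ≥ 1/C' > 0`. -/

set_option autoImplicit false

open Filter
open scoped Topology

noncomputable section

namespace Pool.Agent.H51.BJ

/-- limits in a finite set, by connectedness -/
private theorem finite_limit {X : Type*} [TopologicalSpace X] [PreconnectedSpace X] [Nonempty X]
    {K : Type*} [TopologicalSpace K] [T2Space K] (G : ℕ × X → K)
    (hG : ∀ j, Continuous fun x => G (j, x)) {Z : Set K} (hZ : Z.Finite)
    (hU : ∀ U : Set K, IsOpen U → Z ⊆ U → ∀ᶠ q in LX X, G q ∈ U) :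
    ∃ z ∈ Z, Tendsto G (LX X) (𝓝 z) := by
  classical
  by_contra hno
  push Not at hno
  have h1 : ∀ z ∈ Z, ∃ V : Set K, IsOpen V ∧ z ∈ V ∧ ¬ ∀ᶠ q in LX X, G q ∈ V := by
    intro z hz
    have h2 := hno z hz
    rw [tendsto_nhds] at h2
    push Not at h2
    obtain ⟨V, hV, hzV, hV2⟩ := h2
    exact ⟨V, hV, hzV, hV2⟩
  choose! V hVo hVz hVn using h1
  obtain ⟨T, hT, hTd⟩ := hZ.t2_separation
  obtain ⟨R, hR⟩ : ∃ R : K → Set K, R = fun z => T z ∩ V z := ⟨_, rfl⟩
  have hRo : ∀ z ∈ Z, IsOpen (R z) := fun z hz => by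
    rw [hR]
    exact (hT z).2.inter (hVo z hz)
  have h2 : ∀ᶠ q in LX X, G q ∈ ⋃ z ∈ Z, R z := by
    refine hU _ (isOpen_biUnion hRo) fun z hz => ?_
    rw [Set.mem_iUnion₂]
    refine ⟨z, hz, ?_⟩
    rw [hR]
    exact ⟨(hT z).1, hVz z hz⟩
  have h3 : ∀ᶠ j in UF, ∃ z ∈ Z, ∀ x, G (j, x) ∈ R z := by
    filter_upwards [ev_LX.mp h2] with j hj
    obtain ⟨x0⟩ := (inferInstance : Nonempty X)
    obtain ⟨z0, hz0, hx0⟩ := Set.mem_iUnion₂.mp (hj x0)
    refine ⟨z0, hz0, ?_⟩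
    have c1 : IsOpen {x | G (j, x) ∈ R z0} := (hRo z0 hz0).preimage (hG j)
    have c2 : IsOpen {x | G (j, x) ∈ ⋃ z ∈ Z \ {z0}, R z} :=
      (isOpen_biUnion fun z hz => hRo z hz.1).preimage (hG j)
    have c3 : {x | G (j, x) ∈ R z0}ᶜ = {x | G (j, x) ∈ ⋃ z ∈ Z \ {z0}, R z} := by
      ext x
      constructor
      · intro hx
        obtain ⟨z, hz, hxz⟩ := Set.mem_iUnion₂.mp (hj x)
        refine Set.mem_iUnion₂.mpr ⟨z, ⟨hz, ?_⟩, hxz⟩
        rintro rfl
        exact hx hxz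
      · intro hx hx'
        obtain ⟨z, hz, hxz⟩ := Set.mem_iUnion₂.mp hx
        have h4 := hTd hz.1 hz0 (fun h5 => hz.2 h5)
        rw [hR] at hxz hx'
        exact Set.disjoint_left.mp h4 hxz.1 hx'.1
    have c4 : IsClopen {x | G (j, x) ∈ R z0} := by
      refine ⟨⟨?_⟩, c1⟩
      rw [c3]
      exact c2
    rcases isClopen_iff.mp c4 with c5 | c5
    · exact absurd (show x0 ∈ {x | G (j, x) ∈ R z0} from hx0) (by rw [c5]; exact Set.notMem_empty _)
    · intro x
      exact (Set.ext_iff.mp c5 x).mpr (Set.mem_univ _)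
  have h4 : (⋃ z ∈ Z, {j | ∀ x, G (j, x) ∈ R z}) ∈ Filter.hyperfilter ℕ := by
    refine mem_of_superset h3 ?_
    rintro j ⟨z, hz, hj⟩
    exact Set.mem_iUnion₂.mpr ⟨z, hz, hj⟩
  rw [Ultrafilter.finite_biUnion_mem_iff hZ] at h4
  obtain ⟨z, hz, hj⟩ := h4
  apply hVn z hz
  rw [ev_LX]
  refine mem_of_superset hj fun j hj x => ?_
  have := hj x
  rw [hR] at this
  exact this.2

private theorem exists_top {S : Finset ℕ} (hS : S.Nonempty) (R : ℕ → ℕ → Prop)
    (hr : ∀ m ∈ S, R m m)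
    (ht : ∀ a ∈ S, ∀ b ∈ S, ∀ c ∈ S, R a b → R b c → R a c)
    (hl : ∀ a ∈ S, ∀ b ∈ S, a < b → R a b ∨ R b a) : ∃ k ∈ S, ∀ m ∈ S, R m k := by
  classical
  have key : ∀ T : Finset ℕ, T ⊆ S → T.Nonempty → ∃ k ∈ T, ∀ m ∈ T, R m k := by
    intro T
    induction T using Finset.induction_on with
    | empty => intro _ h; exact absurd h Finset.not_nonempty_empty
    | insert x T hx ih =>
      intro hTS _
      rcases T.eq_empty_or_nonempty with rfl | hT
      · refine ⟨x, Finset.mem_insert_self _ _, fun m hm => ?_⟩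
        rw [Finset.mem_insert] at hm
        rcases hm with rfl | hm
        · exact hr _ (hTS (Finset.mem_insert_self _ _))
        · exact absurd hm (Finset.notMem_empty _)
      · obtain ⟨k, hk, hk2⟩ := ih ((Finset.subset_insert _ _).trans hTS) hT
        have hxS := hTS (Finset.mem_insert_self x T)
        have hkS := hTS (Finset.mem_insert_of_mem hk)
        have hxk : R x k ∨ R k x := by
          rcases lt_trichotomy x k with h | h | h
          · exact hl x hxS k hkS h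
          · exact absurd (h ▸ hk) hx
          · exact (hl k hkS x hxS h).symm
        rcases hxk with h | h
        · refine ⟨k, Finset.mem_insert_of_mem hk, fun m hm => ?_⟩
          rcases Finset.mem_insert.mp hm with rfl | hm
          · exact h
          · exact hk2 m hm
        · refine ⟨x, Finset.mem_insert_self _ _, fun m hm => ?_⟩
          rcases Finset.mem_insert.mp hm with rfl | hm'
          · exact hr _ hxS
          · exact ht m (hTS hm) k hkS x hxS (hk2 m hm') h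
  exact key S (Finset.Subset.refl _) hS

/-- the ratio whose power is `ν_k/ν_l` -/
private def rr {X : Type*} (ν : ℕ → ℕ × X → ℝ) (k l : ℕ) (q : ℕ × X) : ℝ :=
  (ν k q / ν l q) ^ ((1 : ℝ) / (l - k : ℕ))

private theorem rr_pos {X : Type*} {ν : ℕ → ℕ × X → ℝ} {k l : ℕ} {q : ℕ × X} (hk : 0 < ν k q)
    (hl : 0 < ν l q) : 0 < rr ν k l q := Real.rpow_pos_of_pos (div_pos hk hl) _

private theorem rr_pow {X : Type*} {ν : ℕ → ℕ × X → ℝ} {k l : ℕ} (hkl : k < l) {q : ℕ × X}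
    (hk : 0 < ν k q) (hl : 0 < ν l q) : rr ν k l q ^ (l - k) = ν k q / ν l q := by
  unfold rr
  rw [one_div]
  exact Real.rpow_inv_natCast_pow (div_pos hk hl).le (by omega)

private theorem pair_limit {X : Type*} [TopologicalSpace X] [PreconnectedSpace X] [Nonempty X]
    (S : Finset ℕ) (hS : S.Nonempty) (a : ℕ → ℕ × X → ℂ) (ν : ℕ → ℕ × X → ℝ) (θ : ℕ → ℂ)
    (hν : ∀ k ∈ S, ∀ q, 0 < ν k q)
    (hθ : ∀ k ∈ S, θ k ≠ 0)
    (hl : ∀ k ∈ S, Tendsto (fun q => a k q / (ν k q : ℂ)) (LX X) (𝓝 (θ k)))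
    (ρ : ℕ × X → ℝ) (hρ : ∀ q, 0 < ρ q) (hρc : ∀ j, Continuous fun x => ρ (j, x))
    (hr : ∀ k ∈ S, ∀ l ∈ S, k < l →
      Tendsto (fun q => rr ν k l q / ρ q) (LX X) (𝓝 0) ∨
      (∃ c : ℝ, 0 < c ∧ Tendsto (fun q => rr ν k l q / ρ q) (LX X) (𝓝 c)) ∨
      Tendsto (fun q => rr ν k l q / ρ q) (LX X) atTop)
    (y : ℕ × X → ℂ) (hy : ∀ j, Continuous fun x => y (j, x))
    (h0 : ∀ᶠ q in LX X, ∑ k ∈ S, a k q * y q ^ k = 0) :
    (∃ r : ℂ, Tendsto (fun q => y q / (ρ q : ℂ)) (LX X) (𝓝 r)) ∨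
      Tendsto (fun q => ‖y q / (ρ q : ℂ)‖) (LX X) atTop := by
  classical
  have hNB : (LX X).NeBot := by
    unfold LX UF
    infer_instance
  obtain ⟨T, hT⟩ : ∃ T : ℕ → ℕ × X → ℝ, T = fun m q => ν m q * ρ q ^ m := ⟨_, rfl⟩
  have hTpos : ∀ m ∈ S, ∀ q, 0 < T m q := fun m hm q => by
    rw [hT]
    exact mul_pos (hν m hm q) (pow_pos (hρ q) m)
  have hTr : ∀ m ∈ S, ∀ m' ∈ S, m < m' → ∀ q, T m q / T m' q = (rr ν m m' q / ρ q) ^ (m' - m) := by
    intro m hm m' hm' hlt q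
    rw [div_pow, rr_pow hlt (hν m hm q) (hν m' hm' q), hT]
    simp only
    have h1 : ρ q ^ m' = ρ q ^ m * ρ q ^ (m' - m) := by
      rw [← pow_add]
      congr 1
      omega
    rw [h1]
    have p1 := hν m hm q
    have p2 := hν m' hm' q
    have p3 := pow_pos (hρ q) m
    have p4 := pow_pos (hρ q) (m' - m)
    field_simp
  obtain ⟨k0, hk0, hk0m⟩ := exists_top hS
    (fun m k => ∃ c : ℝ, Tendsto (fun q => T m q / T k q) (LX X) (𝓝 c))
    (fun m hm => ⟨1, tendsto_const_nhds.congr fun q => (div_self (hTpos m hm q).ne').symm⟩)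
    (by
      rintro m1 h1 m2 h2 m3 h3 ⟨c, hc⟩ ⟨d, hd⟩
      refine ⟨c * d, (hc.mul hd).congr fun q => ?_⟩
      exact div_mul_div_cancel₀ (hTpos m2 h2 q).ne')
    (by
      intro m hm m' hm' hlt
      rcases hr m hm m' hm' hlt with h1 | ⟨c, hc, h1⟩ | h1
      · left
        exact ⟨0 ^ (m' - m), (h1.pow (m' - m)).congr fun q => (hTr m hm m' hm' hlt q).symm⟩
      · left
        exact ⟨c ^ (m' - m), (h1.pow (m' - m)).congr fun q => (hTr m hm m' hm' hlt q).symm⟩
      · right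
        refine ⟨0 ^ (m' - m), (((tendsto_inv_atTop_zero.comp h1).pow (m' - m))).congr fun q => ?_⟩
        rw [Function.comp_apply, inv_pow, ← hTr m hm m' hm' hlt q, inv_div])
  choose! c hc using hk0m
  have hck0 : c k0 = 1 := by
    refine tendsto_nhds_unique (hc k0 hk0) (tendsto_const_nhds.congr fun q => ?_)
    exact (div_self (hTpos k0 hk0 q).ne').symm
  obtain ⟨b, hb⟩ : ∃ b : ℕ → ℕ × X → ℂ, b = fun m q =>
    (a m q / (ν m q : ℂ)) * ((T m q / T k0 q : ℝ) : ℂ) := ⟨_, rfl⟩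
  have hbl : ∀ m ∈ S, Tendsto (b m) (LX X) (𝓝 (θ m * (c m : ℂ))) := by
    intro m hm
    rw [hb]
    exact (hl m hm).mul ((Complex.continuous_ofReal.tendsto (c m)).comp (hc m hm))
  obtain ⟨Y, hY⟩ : ∃ Y : ℕ × X → ℂ, Y = fun q => y q / (ρ q : ℂ) := ⟨_, rfl⟩
  have heq : ∀ᶠ q in LX X, ∑ m ∈ S, b m q * Y q ^ m = 0 := by
    filter_upwards [h0] with q hq
    have h1 : ∑ m ∈ S, b m q * Y q ^ m = ((T k0 q : ℝ) : ℂ)⁻¹ * ∑ m ∈ S, a m q * y q ^ m := by
      rw [Finset.mul_sum]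
      refine Finset.sum_congr rfl fun m hm => ?_
      rw [hb, hY, hT]
      simp only
      have p1 : (ν m q : ℂ) ≠ 0 := Complex.ofReal_ne_zero.mpr (hν m hm q).ne'
      have p2 : (ν k0 q : ℂ) ≠ 0 := Complex.ofReal_ne_zero.mpr (hν k0 hk0 q).ne'
      have p3 : (ρ q : ℂ) ≠ 0 := Complex.ofReal_ne_zero.mpr (hρ q).ne'
      push_cast
      rw [div_pow]
      field_simp
    rw [h1, hq, mul_zero]
  obtain ⟨P, hP⟩ : ∃ P : Polynomial ℂ, P = ∑ m ∈ S, Polynomial.monomial m (θ m * (c m : ℂ)) :=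
    ⟨_, rfl⟩
  have hPe : ∀ t, P.eval t = ∑ m ∈ S, θ m * (c m : ℂ) * t ^ m := by
    intro t
    rw [hP, Polynomial.eval_finsetSum]
    exact Finset.sum_congr rfl fun m _ => Polynomial.eval_monomial
  have hP0 : P ≠ 0 := by
    intro h1
    have h2 : P.coeff k0 = θ k0 := by
      rw [hP, Polynomial.finsetSum_coeff, Finset.sum_eq_single k0]
      · rw [Polynomial.coeff_monomial, if_pos rfl, hck0, Complex.ofReal_one, mul_one]
      · intro m _ hm
        rw [Polynomial.coeff_monomial, if_neg hm]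
      · intro h3
        exact absurd hk0 h3
    rw [h1, Polynomial.coeff_zero] at h2
    exact hθ k0 hk0 h2.symm
  have hfin : (insert (OnePoint.infty : OnePoint ℂ)
      ((fun t : ℂ => (t : OnePoint ℂ)) '' {t : ℂ | P.eval t = 0})).Finite := by
    refine Set.Finite.insert _ (Set.Finite.image _ ?_)
    refine (P.roots.toFinset.finite_toSet).subset fun t ht => ?_
    rw [Finset.mem_coe, Multiset.mem_toFinset, Polynomial.mem_roots hP0]
    exact ht
  have hYc : ∀ j, Continuous fun x => Y (j, x) := by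
    intro j
    rw [hY]
    exact (hy j).div (Complex.continuous_ofReal.comp (hρc j))
      fun x => Complex.ofReal_ne_zero.mpr (hρ _).ne'
  obtain ⟨z, hz, hzl⟩ := finite_limit (fun q => ((Y q : ℂ) : OnePoint ℂ))
    (fun j => OnePoint.continuous_coe.comp (hYc j)) hfin (by
      intro U hU hZU
      have hinf : (OnePoint.infty : OnePoint ℂ) ∈ U := hZU (Set.mem_insert _ _)
      obtain ⟨_, hcomp⟩ := (OnePoint.isOpen_iff_of_mem hinf).mp hU
      obtain ⟨K', hK'⟩ : ∃ K' : Set ℂ, K' = ((fun t : ℂ => (t : OnePoint ℂ)) ⁻¹' U)ᶜ := ⟨_, rfl⟩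
      have hKc : IsCompact K' := by
        rw [hK']
        exact hcomp
      obtain ⟨M0, hM0⟩ := isBounded_iff_forall_norm_le.mp hKc.isBounded
      obtain ⟨m0, hm0, hm0K⟩ := hKc.exists_forall_le' (f := fun t => ‖P.eval t‖) (a := 0)
        (P.continuous.norm.continuousOn) (by
          intro t ht
          rw [norm_pos_iff]
          intro h1
          rw [hK'] at ht
          exact ht (hZU (Set.mem_insert_of_mem _ ⟨t, h1, rfl⟩)))
      obtain ⟨M, hM⟩ : ∃ M : ℝ, M = max M0 0 := ⟨_, rfl⟩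
      have hlim : Tendsto (fun q => ∑ m ∈ S, ‖θ m * (c m : ℂ) - b m q‖ * M ^ m) (LX X) (𝓝 0) := by
        have h1 : Tendsto (fun q => ∑ m ∈ S, ‖θ m * (c m : ℂ) - b m q‖ * M ^ m) (LX X)
            (𝓝 (∑ m ∈ S, 0 * M ^ m)) := by
          refine tendsto_finsetSum _ fun m hm => Tendsto.mul_const _ ?_
          have h2 := (tendsto_iff_norm_sub_tendsto_zero.mp (hbl m hm))
          refine h2.congr fun q => norm_sub_rev _ _
        simpa using h1
      filter_upwards [heq, hlim.eventually_lt_const hm0] with q h1 h2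
      by_contra hq
      have hqK : Y q ∈ K' := by
        rw [hK']
        exact hq
      have h3 := hm0K _ hqK
      have h4 : P.eval (Y q) = ∑ m ∈ S, (θ m * (c m : ℂ) - b m q) * Y q ^ m := by
        simp only [sub_mul, Finset.sum_sub_distrib]
        rw [h1, sub_zero, hPe]
      have h5 : ‖P.eval (Y q)‖ ≤ ∑ m ∈ S, ‖θ m * (c m : ℂ) - b m q‖ * M ^ m := by
        rw [h4]
        refine norm_sum_le_of_le _ fun m _ => ?_
        rw [norm_mul, norm_pow]
        apply mul_le_mul_of_nonneg_left _ (norm_nonneg _)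
        apply pow_le_pow_left₀ (norm_nonneg _)
        rw [hM]
        exact (hM0 _ hqK).trans (le_max_left _ _)
      linarith)
  rcases Set.mem_insert_iff.mp hz with rfl | ⟨r, _, rfl⟩
  · right
    have h1 : Tendsto Y (LX X) (coclosedCompact ℂ) := by
      rw [← OnePoint.comap_coe_nhds_infty, tendsto_comap_iff]
      exact hzl
    rw [coclosedCompact_eq_cocompact] at h1
    have h2 := tendsto_norm_cocompact_atTop.comp h1
    rw [hY] at h2
    exact h2
  · left
    refine ⟨r, ?_⟩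
    have h1 : Tendsto Y (LX X) (𝓝 r) := by
      rw [← OnePoint.comap_coe_nhds, tendsto_comap_iff]
      exact hzl
    rw [hY] at h1
    exact h1

theorem root_limit {X : Type*} [TopologicalSpace X] [PreconnectedSpace X] [Nonempty X]
    (S : Finset ℕ) (hS : S.Nonempty) (a : ℕ → ℕ × X → ℂ) (ν : ℕ → ℕ × X → ℝ) (θ : ℕ → ℂ)
    (hν : ∀ k ∈ S, ∀ q, 0 < ν k q) (hνc : ∀ k ∈ S, ∀ j, Continuous fun x => ν k (j, x))
    (hac : ∀ k ∈ S, ∀ j, Continuous fun x => a k (j, x))
    (hθ : ∀ k ∈ S, θ k ≠ 0)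
    (hl : ∀ k ∈ S, Tendsto (fun q => a k q / (ν k q : ℂ)) (LX X) (𝓝 (θ k)))
    (hr : ∀ k ∈ S, ∀ l ∈ S, ∀ k' ∈ S, ∀ l' ∈ S, k < l → k' < l' →
      Tendsto (fun q => (ν k q / ν l q) ^ ((1 : ℝ) / (l - k : ℕ)) /
          (ν k' q / ν l' q) ^ ((1 : ℝ) / (l' - k' : ℕ))) (LX X) (𝓝 0) ∨
      (∃ c : ℝ, 0 < c ∧ Tendsto (fun q => (ν k q / ν l q) ^ ((1 : ℝ) / (l - k : ℕ)) /
          (ν k' q / ν l' q) ^ ((1 : ℝ) / (l' - k' : ℕ))) (LX X) (𝓝 c)) ∨
      Tendsto (fun q => (ν k q / ν l q) ^ ((1 : ℝ) / (l - k : ℕ)) /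
          (ν k' q / ν l' q) ^ ((1 : ℝ) / (l' - k' : ℕ))) (LX X) atTop)
    (y : ℕ × X → ℂ) (hy : ∀ j, Continuous fun x => y (j, x))
    (h0 : ∀ᶠ q in LX X, ∑ k ∈ S, a k q * y q ^ k = 0) :
    (∀ᶠ q in LX X, y q = 0) ∨
      ∃ k ∈ S, ∃ l ∈ S, k < l ∧ ∃ r : ℂ, r ≠ 0 ∧
        Tendsto (fun q => y q / (((ν k q / ν l q) ^ ((1 : ℝ) / (l - k : ℕ)) : ℝ) : ℂ)) (LX X)
          (𝓝 r) := by
  classical
  have hr' : ∀ k ∈ S, ∀ l ∈ S, ∀ k' ∈ S, ∀ l' ∈ S, k < l → k' < l' →
      Tendsto (fun q => rr ν k l q / rr ν k' l' q) (LX X) (𝓝 0) ∨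
      (∃ c : ℝ, 0 < c ∧ Tendsto (fun q => rr ν k l q / rr ν k' l' q) (LX X) (𝓝 c)) ∨
      Tendsto (fun q => rr ν k l q / rr ν k' l' q) (LX X) atTop := hr
  by_cases hex : ∃ k ∈ S, ∃ l ∈ S, k < l ∧ ∃ r : ℂ, r ≠ 0 ∧
      Tendsto (fun q => y q / ((rr ν k l q : ℝ) : ℂ)) (LX X) (𝓝 r)
  · right
    exact hex
  left
  have hpair : ∀ k ∈ S, ∀ l ∈ S, k < l →
      Tendsto (fun q => y q / ((rr ν k l q : ℝ) : ℂ)) (LX X) (𝓝 0) ∨
        Tendsto (fun q => ‖y q / ((rr ν k l q : ℝ) : ℂ)‖) (LX X) atTop := by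
    intro k hk l hl' hkl
    rcases pair_limit S hS a ν θ hν hθ hl (rr ν k l) (fun q => rr_pos (hν k hk q) (hν l hl' q))
      (fun j => by
        unfold rr
        refine Continuous.rpow_const ((hνc k hk j).div (hνc l hl' j)
          fun x => (hν l hl' _).ne') fun x => Or.inr (by positivity))
      (fun k1 hk1 l1 hl1 h1 => hr' k1 hk1 l1 hl1 k hk l hl' h1 hkl) y hy h0 with ⟨r, h1⟩ | h1
    · by_cases hr0 : r = 0
      · left
        rw [hr0] at h1
        exact h1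
      · exact absurd ⟨k, hk, l, hl', hkl, r, hr0, h1⟩ hex
    · right
      exact h1
  obtain ⟨T, hT⟩ : ∃ T : ℕ → ℕ × X → ℝ, T = fun m q => ν m q * ‖y q‖ ^ m := ⟨_, rfl⟩
  have hTn : ∀ m ∈ S, ∀ q, 0 ≤ T m q := fun m hm q => by
    rw [hT]
    exact mul_nonneg (hν m hm q).le (pow_nonneg (norm_nonneg _) m)
  have hTr : ∀ m ∈ S, ∀ m' ∈ S, m < m' → ∀ q,
      T m' q = T m q * ‖y q / ((rr ν m m' q : ℝ) : ℂ)‖ ^ (m' - m) := by
    intro m hm m' hm' hlt q
    have p0 := rr_pos (hν m hm q) (hν m' hm' q)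
    rw [norm_div, Complex.norm_real, Real.norm_of_nonneg p0.le, div_pow,
      rr_pow hlt (hν m hm q) (hν m' hm' q), hT]
    simp only
    have h1 : ‖y q‖ ^ m' = ‖y q‖ ^ m * ‖y q‖ ^ (m' - m) := by
      rw [← pow_add]
      congr 1
      omega
    rw [h1]
    have p1 := hν m hm q
    have p2 := hν m' hm' q
    field_simp
  obtain ⟨k0, hk0, hdom⟩ := exists_top hS
    (fun m k => m = k ∨ ∀ ε : ℝ, 0 < ε → ∀ᶠ q in LX X, T m q ≤ ε * T k q)
    (fun m _ => Or.inl rfl)
    (by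
      rintro m1 h1 m2 h2 m3 h3 (rfl | h4) h5
      · exact h5
      · rcases h5 with rfl | h5
        · exact Or.inr h4
        · right
          intro ε hε
          filter_upwards [h4 ε hε, h5 1 one_pos] with q q1 q2
          have := mul_le_mul_of_nonneg_left q2 hε.le
          linarith)
    (by
      intro m hm m' hm' hlt
      rcases hpair m hm m' hm' hlt with h1 | h1
      · right
        right
        intro ε hε
        have h2 := (h1.norm.pow (m' - m))
        rw [norm_zero, zero_pow (by omega)] at h2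
        filter_upwards [h2.eventually_le_const hε] with q hq
        rw [hTr m hm m' hm' hlt q, mul_comm]
        exact mul_le_mul_of_nonneg_right hq (hTn m hm q)
      · left
        right
        intro ε hε
        filter_upwards [h1.eventually_ge_atTop (max 1 ε⁻¹)] with q hq
        have h2 : ε⁻¹ ≤ ‖y q / ((rr ν m m' q : ℝ) : ℂ)‖ ^ (m' - m) := by
          have h3 : 1 ≤ ‖y q / ((rr ν m m' q : ℝ) : ℂ)‖ := (le_max_left _ _).trans hq
          calc ε⁻¹ ≤ ‖y q / ((rr ν m m' q : ℝ) : ℂ)‖ := (le_max_right _ _).trans hq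
            _ = ‖y q / ((rr ν m m' q : ℝ) : ℂ)‖ ^ 1 := (pow_one _).symm
            _ ≤ ‖y q / ((rr ν m m' q : ℝ) : ℂ)‖ ^ (m' - m) := pow_le_pow_right₀ h3 (by omega)
        rw [hTr m hm m' hm' hlt q]
        have h3 := mul_le_mul_of_nonneg_left h2 (mul_nonneg hε.le (hTn m hm q))
        have h4 : ε * T m q * ε⁻¹ = T m q := by
          field_simp
        rw [h4] at h3
        linarith)
  have hθ0 : 0 < ‖θ k0‖ := norm_pos_iff.mpr (hθ k0 hk0)
  obtain ⟨N, hN⟩ : ∃ N : ℝ, N = (S.card : ℝ) + 1 := ⟨_, rfl⟩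
  have hNp : 0 < N := by
    rw [hN]
    positivity
  have hsmall : ∀ m ∈ S.erase k0, ∀ᶠ q in LX X,
      ‖a m q * y q ^ m‖ ≤ ‖θ k0‖ / (4 * N) * T k0 q := by
    intro m hm
    have hmS := Finset.mem_of_mem_erase hm
    have hmk := Finset.ne_of_mem_erase hm
    have h1 : ∀ᶠ q in LX X, ‖a m q / (ν m q : ℂ)‖ < ‖θ m‖ + 1 :=
      (hl m hmS).norm.eventually_lt_const (by linarith)
    have hp : 0 < ‖θ m‖ + 1 := by positivity
    rcases hdom m hmS with h2 | h2
    · exact absurd h2 hmk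
    · filter_upwards [h1, h2 (‖θ k0‖ / (4 * N) / (‖θ m‖ + 1)) (by positivity)] with q q1 q2
      have p1 := hν m hmS q
      have e1 : ‖a m q * y q ^ m‖ = ‖a m q / (ν m q : ℂ)‖ * T m q := by
        rw [norm_mul, norm_pow, norm_div, Complex.norm_real, Real.norm_of_nonneg p1.le, hT]
        simp only
        field_simp
      rw [e1]
      calc ‖a m q / (ν m q : ℂ)‖ * T m q ≤ (‖θ m‖ + 1) * T m q :=
            mul_le_mul_of_nonneg_right q1.le (hTn m hmS q)
        _ ≤ (‖θ m‖ + 1) * (‖θ k0‖ / (4 * N) / (‖θ m‖ + 1) * T k0 q) :=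
            mul_le_mul_of_nonneg_left q2 hp.le
        _ = ‖θ k0‖ / (4 * N) * T k0 q := by
            field_simp
  have hbig : ∀ᶠ q in LX X, ‖θ k0‖ / 2 * T k0 q ≤ ‖a k0 q * y q ^ k0‖ := by
    have h1 : ∀ᶠ q in LX X, ‖θ k0‖ / 2 < ‖a k0 q / (ν k0 q : ℂ)‖ :=
      (hl k0 hk0).norm.eventually_const_lt (by linarith)
    filter_upwards [h1] with q q1
    have p1 := hν k0 hk0 q
    have e1 : ‖a k0 q * y q ^ k0‖ = ‖a k0 q / (ν k0 q : ℂ)‖ * T k0 q := by
      rw [norm_mul, norm_pow, norm_div, Complex.norm_real, Real.norm_of_nonneg p1.le, hT]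
      simp only
      field_simp
    rw [e1]
    exact mul_le_mul_of_nonneg_right q1.le (hTn k0 hk0 q)
  have hall : ∀ᶠ q in LX X, ∀ m ∈ S.erase k0, ‖a m q * y q ^ m‖ ≤ ‖θ k0‖ / (4 * N) * T k0 q :=
    (Finset.eventually_all _).mpr hsmall
  filter_upwards [h0, hbig, hall] with q q0 q1 q2
  have h1 : a k0 q * y q ^ k0 = -∑ m ∈ S.erase k0, a m q * y q ^ m := by
    rw [← Finset.add_sum_erase S _ hk0] at q0
    exact eq_neg_of_add_eq_zero_left q0
  have h2 : ‖a k0 q * y q ^ k0‖ ≤ ‖θ k0‖ / 4 * T k0 q := by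
    rw [h1, norm_neg]
    calc ‖∑ m ∈ S.erase k0, a m q * y q ^ m‖ ≤ ∑ m ∈ S.erase k0, ‖θ k0‖ / (4 * N) * T k0 q :=
          norm_sum_le_of_le _ q2
      _ = (S.erase k0).card * (‖θ k0‖ / (4 * N) * T k0 q) := by
          rw [Finset.sum_const, nsmul_eq_mul]
      _ ≤ N * (‖θ k0‖ / (4 * N) * T k0 q) := by
          apply mul_le_mul_of_nonneg_right
          · rw [hN]
            have : ((S.erase k0).card : ℝ) ≤ S.card := by
              exact_mod_cast Finset.card_erase_le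
            linarith
          · exact mul_nonneg (by positivity) (hTn k0 hk0 q)
      _ = ‖θ k0‖ / 4 * T k0 q := by
          field_simp
  have h3 := hTn k0 hk0 q
  have h4 : T k0 q = 0 := by
    by_contra hne
    have h5 : 0 < T k0 q := lt_of_le_of_ne h3 (Ne.symm hne)
    have h6 := mul_pos hθ0 h5
    linarith
  rw [hT] at h4
  simp only at h4
  rcases mul_eq_zero.mp h4 with h5 | h5
  · exact absurd h5 (hν k0 hk0 q).ne'
  · exact norm_eq_zero.mp (eq_zero_of_pow_eq_zero h5)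

end Pool.Agent.H51.BJ
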