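import Pool.Agent.H51.BJ.LDef
import Pool.Agent.H51.BJ.RTL
import Pool.Agent.H51.BJ.INT
import Pool.Agent.H51.BJ.NGC

/-! # [H51 BJ LVA] Values of polynomials on the leaf (proofs id 313, Section 4, R2)

`XX n = II × closed ball of radius 1/2` (connected, compact). The leaf point over `c + b ζ` is
`lp W a j l (c + b ζ) = c + b ζ'` with `ζ'` bounded (`Leaf.small`), so for `f ∈ ℂ[t]` nonzero
`ev f (leaf point)/NN g f → ` the constant limit (`ct_val`; `Pre.limT`, `norm_ev_le`).
For general `f`: `integral_rel` (INT, its hypothesis `pderiv i (Q i) ≠ 0`: the limit `C (φ i) * X i` of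
`Q i` has nonzero derivative, `HasLim.deriv`) gives `∑ q_k f^k ∈ (Q i)` and the `Q i` vanish at the leaf
points (`Leaf.zero`). Apply `root_limit` with `S = {k ≤ m : q_k ≠ 0}`, `a_k = ev (q_k)`, `ν_k = NN g (q_k)`, `y = ev f`. -/

set_option autoImplicit false

open MvPolynomial Filter Pool.Agent.H60 Pool.Agent.H57.BJ
open scoped Topology

noncomputable section

namespace Pool.Agent.H51.BJ

variable {n : ℕ}

/-- the parameter space: `[0,1]` times the closed ball of radius `1/2` -/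
abbrev XX (n : ℕ) : Type := II × ↥(Metric.closedBall (0 : V n) (1 / 2))

/-- the leaf point -/
def pt (g : Germ n) (W : Finset (Fin n)) (a : ℕ → II → V n → V n) (p : ℕ × XX n) : V n :=
  lp W a p.1 p.2.1 (g.c p.1 p.2.1 + (g.b p.1 p.2.1 : ℂ) • (p.2.2 : V n))

variable {F : ℕ → V n → ℂ} {W : Finset (Fin n)} {g : Germ n} {z κ : ℕ → V n}
    {Q : Fin n → MvPolynomial (Fin n) ℂ} {φ : Fin n → ℂ} {a : ℕ → II → V n → V n}
    {D : ℕ → II → V n → V n →L[ℂ] V n}

theorem continuous_NN (h : Pre F W g z κ Q φ) (f : MvPolynomial (Fin n) ℂ) (j : ℕ) :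
    Continuous fun l => NN g f (j, l) := by
  rw [continuous_iff_continuousAt]
  intro l0
  have h1 : PT (𝓝 l0) (fun l => rs (g.c j l) (g.b j l) f) (rs (g.c j l0) (g.b j l0) f) :=
    PT.rs (PT.const f) (Eventually.of_forall fun _ => le_rfl)
      ((h.cc j).tendsto l0) ((h.cb j).tendsto l0)
  exact PT.nm h1 (Eventually.of_forall fun l => totalDegree_rs_le _ _ _)

/-- the map forgetting the second parameter -/
theorem tendsto_fst_XX {X Y : Type*} : Tendsto (fun p : ℕ × (X × Y) => (p.1, p.2.1))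
    (LX (X × Y)) (LX X) := by
  refine Tendsto.prodMk tendsto_fst tendsto_top

theorem eventually_XX {A : ℕ × II → Prop} (h : ∀ᶠ q in LX II, A q) :
    ∀ᶠ p in LX (XX n), A (p.1, p.2.1) := tendsto_fst_XX.eventually h

private theorem tp_smul'' (W : Finset (Fin n)) (c : ℂ) (x : V n) : tp W (c • x) = c • tp W x := by
  funext i
  unfold tp
  by_cases hi : i ∈ W <;> simp [hi]

private theorem norm_tp_le'' (W : Finset (Fin n)) (x : V n) : ‖tp W x‖ ≤ ‖x‖ := by
  rw [pi_norm_le_iff_of_nonneg (norm_nonneg _)]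
  intro i
  unfold tp
  by_cases hi : i ∈ W
  · simp [hi]
  · simp only [hi, if_false]
    exact norm_le_pi_norm x i

theorem tp_sub_small (hb : ∀ j l, 0 < g.b j l) (p : ℕ × XX n) :
    ‖tp W (g.c p.1 p.2.1 + (g.b p.1 p.2.1 : ℂ) • (p.2.2 : V n) - g.c p.1 p.2.1)‖
      ≤ g.b p.1 p.2.1 := by
  rw [add_sub_cancel_left, tp_smul'', norm_smul, Complex.norm_real,
    Real.norm_of_nonneg (hb _ _).le]
  have h1 : ‖(p.2.2 : V n)‖ ≤ 1 / 2 := by
    have := p.2.2.2
    rwa [mem_closedBall_zero_iff] at this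
  have h2 := norm_tp_le'' W (p.2.2 : V n)
  have h3 := hb p.1 p.2.1
  nlinarith [norm_nonneg (tp W (p.2.2 : V n))]

/-- the leaf point in rescaled coordinates is bounded by `1` -/
theorem pt_small (hb : ∀ j l, 0 < g.b j l) (hL : Leaf g W Q a D) :
    ∀ᶠ p in LX (XX n), ∃ s : V n, ‖s‖ ≤ 1 ∧
      pt g W a p = g.c p.1 p.2.1 + (g.b p.1 p.2.1 : ℂ) • s := by
  filter_upwards [eventually_XX (n := n) (hL.small (1 / 2) (by norm_num))] with p hp
  have hb' : (g.b p.1 p.2.1 : ℂ) ≠ 0 := by exact_mod_cast (hb _ _).ne'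
  have h1 := hp _ (tp_sub_small (W := W) hb p)
  refine ⟨(g.b p.1 p.2.1 : ℂ)⁻¹ • (pt g W a p - g.c p.1 p.2.1), ?_, ?_⟩
  · rw [norm_smul, norm_inv, Complex.norm_real, Real.norm_of_nonneg (hb _ _).le,
      inv_mul_le_iff₀ (hb _ _), mul_one]
    rw [pi_norm_le_iff_of_nonneg (hb _ _).le]
    intro i
    by_cases hi : i ∈ W
    · have h2 : (pt g W a p - g.c p.1 p.2.1) i
          = (a p.1 p.2.1 (g.c p.1 p.2.1 + (g.b p.1 p.2.1 : ℂ) • (p.2.2 : V n))
            - wp W (g.c p.1 p.2.1)) i := by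
        simp [pt, lp, tp, wp, hi]
      rw [h2]
      refine (norm_le_pi_norm _ i).trans (h1.trans ?_)
      have := hb p.1 p.2.1
      linarith
    · have h2 : (pt g W a p - g.c p.1 p.2.1) i
          = (tp W (g.c p.1 p.2.1 + (g.b p.1 p.2.1 : ℂ) • (p.2.2 : V n) - g.c p.1 p.2.1)) i := by
        have h3 := congrFun (hL.tpz p.1 p.2.1
          (g.c p.1 p.2.1 + (g.b p.1 p.2.1 : ℂ) • (p.2.2 : V n))) i
        unfold tp at h3
        simp only [hi, if_false, Pi.zero_apply] at h3
        have e1 : pt g W a p i = g.c p.1 p.2.1 i + (g.b p.1 p.2.1 : ℂ) * (p.2.2 : V n) i := by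
          show tp W _ i + a p.1 p.2.1 _ i = _
          rw [h3]
          simp [tp, hi]
        show pt g W a p i - g.c p.1 p.2.1 i = _
        rw [e1]
        simp [tp, hi]
      rw [h2]
      exact (norm_le_pi_norm _ i).trans (tp_sub_small hb p)
  · rw [smul_smul, mul_inv_cancel₀ hb', one_smul]
    abel

theorem ct_val (h : Pre F W g z κ Q φ) (hL : Leaf g W Q a D) {f : MvPolynomial (Fin n) ℂ}
    (hf : CT W f) {A : ℂ} (hA : HasLim g f (C A)) :
    Tendsto (fun p : ℕ × XX n => ev f (pt g W a p) / (NN g f (p.1, p.2.1) : ℂ)) (LX (XX n))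
      (𝓝 A) := by
  have h1 : PT (LX II) (fun q => C ((NN g f q : ℂ)⁻¹) * rg g f q + C (-A)) (C A + C (-A)) :=
    PT.add hA (PT.const _)
  have h2 := PT.nm (D := f.totalDegree) h1 (Eventually.of_forall fun q => by
    refine (totalDegree_add _ _).trans (max_le ?_ ?_)
    · refine (totalDegree_mul _ _).trans ?_
      rw [totalDegree_C, zero_add]
      exact totalDegree_rs_le _ _ _
    · rw [totalDegree_C]; exact Nat.zero_le _)
  have h3 : nm (C A + C (-A) : MvPolynomial (Fin n) ℂ) = 0 := by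
    rw [← C_add, add_neg_cancel, C_0]
    exact nm_eq_zero.mpr rfl
  rw [h3] at h2
  have h4 := h2.comp (tendsto_fst_XX (X := II) (Y := ↥(Metric.closedBall (0 : V n) (1 / 2))))
  rw [tendsto_iff_norm_sub_tendsto_zero]
  refine squeeze_zero' (Eventually.of_forall fun _ => norm_nonneg _) ?_ h4
  filter_upwards [pt_small h.pos hL] with p hp
  obtain ⟨s, hs, hps⟩ := hp
  have h5 := norm_ev_le (C ((NN g f (p.1, p.2.1) : ℂ)⁻¹) * rg g f (p.1, p.2.1) + C (-A)) s
    le_rfl hs
  rw [one_pow, mul_one] at h5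
  have h6 : ev (C ((NN g f (p.1, p.2.1) : ℂ)⁻¹) * rg g f (p.1, p.2.1) + C (-A)) s
      = ev f (pt g W a p) / (NN g f (p.1, p.2.1) : ℂ) - A := by
    rw [ev_add, ev_mul, hps, ← ev_rs]
    unfold rg
    simp only [ev, eval_C]
    ring
  rw [h6] at h5
  exact h5

theorem pt_continuous (h : Pre F W g z κ Q φ) (hL : Leaf g W Q a D) (j : ℕ) :
    Continuous fun x : XX n => pt g W a (j, x) := by
  have h1 : Continuous fun x : XX n => g.c j x.1 + (g.b j x.1 : ℂ) • (x.2 : V n) :=
    ((h.cc j).comp continuous_fst).add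
      ((Complex.continuous_ofReal.comp ((h.cb j).comp continuous_fst)).smul
        (continuous_subtype_val.comp continuous_snd))
  have h2 : Continuous (tp W : V n → V n) := by
    refine continuous_pi fun i => ?_
    unfold tp
    by_cases hi : i ∈ W
    · simp [hi]
      exact continuous_const
    · simp only [hi, if_false]
      exact continuous_apply i
  have h3 : Continuous fun x : XX n =>
      a j x.1 (g.c j x.1 + (g.b j x.1 : ℂ) • (x.2 : V n)) := by
    refine (hL.cont j).comp_continuous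
      (f := fun x : XX n => ((x.1, (x.2 : V n)) : II × V n)) ?_ ?_
    · exact continuous_fst.prodMk (continuous_subtype_val.comp continuous_snd)
    · intro x
      refine ⟨Set.mem_univ _, ?_⟩
      have := x.2.2
      rw [mem_closedBall_zero_iff] at this ⊢
      show ‖(x.2 : V n)‖ ≤ 1
      linarith
  exact (h2.comp h1).add h3

theorem leaf_value (h : Pre F W g z κ Q φ) (hL : Leaf g W Q a D)
    (f : MvPolynomial (Fin n) ℂ) :
    (∀ᶠ p in LX (XX n), ev f (pt g W a p) = 0) ∨
      ∃ (k : ℕ) (f1 f2 : MvPolynomial (Fin n) ℂ) (y : ℂ), 1 ≤ k ∧ CT W f1 ∧ CT W f2 ∧ y ≠ 0 ∧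
        Tendsto (fun p : ℕ × XX n => ev f (pt g W a p) /
          (((NN g f1 (p.1, p.2.1) / NN g f2 (p.1, p.2.1)) ^ ((1 : ℝ) / k) : ℝ) : ℂ))
          (LX (XX n)) (𝓝 y) := by
  classical
  have hd : ∀ i ∈ W, pderiv i (Q i) ≠ 0 := by
    intro i hi
    refine (HasLim.deriv h.pos i (h.limQ i hi) ?_).1
    rw [pderiv_C_mul, pderiv_X_self, mul_one]
    intro h0
    rw [C_eq_zero] at h0
    exact h.phi i hi h0
  obtain ⟨m, q, hq, ⟨k0, hk0, hq0⟩, hrel⟩ := integral_rel W Q h.sup hd f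
  set S : Finset ℕ := (Finset.range (m + 1)).filter (fun k => q k ≠ 0) with hSdef
  have hS : ∀ k, k ∈ S → CT W (q k) := fun k hk => ⟨(Finset.mem_filter.mp hk).2, hq k⟩
  have hSn : S.Nonempty := ⟨k0, Finset.mem_filter.mpr ⟨Finset.mem_range.mpr (by omega), hq0⟩⟩
  have hT : ∀ k, ∃ A : ℂ, k ∈ S → (A ≠ 0 ∧ HasLim g (q k) (C A)) := by
    intro k
    by_cases hk : k ∈ S
    · obtain ⟨A, hA, hA'⟩ := h.limT (q k) (hS k hk)
      exact ⟨A, fun _ => ⟨hA, hA'⟩⟩
    · exact ⟨0, fun hk' => absurd hk' hk⟩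
  choose A hA using hT
  haveI : PreconnectedSpace ↥(Metric.closedBall (0 : V n) (1 / 2)) :=
    Subtype.preconnectedSpace (convex_closedBall _ _).isPreconnected
  haveI : Nonempty ↥(Metric.closedBall (0 : V n) (1 / 2)) :=
    ⟨⟨0, by rw [mem_closedBall_zero_iff, norm_zero]; norm_num⟩⟩
  have hcont := pt_continuous h hL
  have hres := root_limit (X := XX n) S hSn (fun k p => ev (q k) (pt g W a p))
    (fun k p => NN g (q k) (p.1, p.2.1)) A
    (fun k hk p => NN_pos h.pos (hS k hk).1 _)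
    (fun k hk j => (continuous_NN h (q k) j).comp continuous_fst)
    (fun k hk j => (differentiable_ev (q k)).continuous.comp (hcont j))
    (fun k hk => (hA k hk).1)
    (fun k hk => ct_val h hL (hS k hk) (hA k hk).2)
    ?_ (fun p => ev f (pt g W a p))
    (fun j => (differentiable_ev f).continuous.comp (hcont j)) ?_
  · rcases hres with h1 | ⟨k, hk, l, hl, hkl, r, hr, h1⟩
    · exact Or.inl h1
    · right
      exact ⟨l - k, q k, q l, r, by omega, hS k hk, hS l hl, hr, h1⟩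
  · intro k hk l hl k' hk' l' hl' hkl hkl'
    have h1 : Tame (fun p : ℕ × II => (NN g (q k) p / NN g (q l) p) ^ ((1 : ℝ) / (l - k : ℕ)) /
        (NN g (q k') p / NN g (q l') p) ^ ((1 : ℝ) / (l' - k' : ℕ))) := by
      have h2 := tame_HH (β := g.b) h.pos h.limT h.pos (fun f f' hf hf' p => h.tame f f' hf hf' p)
        (k := l - k) (k' := l' - k') (by omega) (by omega) (hS k hk) (hS l hl) (hS k' hk')
        (hS l' hl') 0 0
      simpa only [HH, pow_zero, mul_one] using h2
    rcases h1.tri with h3 | ⟨c, hc, h3⟩ | h3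
    · exact Or.inl (h3.comp tendsto_fst_XX)
    · exact Or.inr (Or.inl ⟨c, hc, h3.comp tendsto_fst_XX⟩)
    · exact Or.inr (Or.inr (h3.comp tendsto_fst_XX))
  · filter_upwards [eventually_XX (n := n) hL.zero] with p hp
    have h1 : ∀ i ∈ W, ev (Q i) (pt g W a p) = 0 := fun i hi =>
      hp _ (tp_sub_small h.pos p) i hi
    have h2 : Ideal.span (Q '' (W : Set (Fin n))) ≤
        RingHom.ker (MvPolynomial.eval (pt g W a p)) := by
      rw [Ideal.span_le]
      rintro _ ⟨i, hi, rfl⟩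
      exact h1 i hi
    have h3 := h2 hrel
    rw [RingHom.mem_ker, map_sum] at h3
    rw [← h3]
    simp only [map_mul, map_pow]
    rw [hSdef, Finset.sum_filter]
    refine Finset.sum_congr rfl fun k _ => ?_
    by_cases hqk : q k = 0
    · simp [hqk]
    · rw [if_pos hqk]
      rfl

end Pool.Agent.H51.BJ
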