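import Pool.Agent.H51.BJ.QEX

/-! # [H51 BJ QMN] The near-linear polynomials `Q_i`

Take `Q ∈ US σ` in the variables `Wᶜ ∪ {i}` (`q_us`) with `degreeOf i Q` minimal. `pderiv i Q ≠ 0`,
otherwise `Q` does not contain `z_i` (characteristic `0`), so `CT W Q`, contradicting `ct_not_us`.
`degreeOf i (pderiv i Q) < degreeOf i Q` and `pderiv i Q` is in the variables `Wᶜ ∪ {i}`, so it is not in
`US σ`. By `ini_of_us` `Ini σ Q μ A`, `μ ≥ 1`; `A` is in `supported W` (`ini_supported`) and in
`supported (Wᶜ ∪ {i})` (`ini_supported'`), homogeneous: `A = a X_i^μ`, `a ≠ 0`. If `μ ≥ 2` then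
`pderiv i A ≠ 0` and `ini_deriv` gives `pderiv i Q ∈ US σ`: contradiction. So `μ = 1`. -/

set_option autoImplicit false

open MvPolynomial Filter Pool.Agent.H60 Pool.Agent.H57.BJ
open scoped Topology

noncomputable section

namespace Pool.Agent.H51.BJ

variable {n : ℕ} {F : ℕ → V n → ℂ} {P : MvPolynomial (Fin n) ℂ} {σ : ℕ → SS F}
  {W : Finset (Fin n)}

theorem q_lin (h : Ad F P σ W) (i : Fin n) (hi : i ∈ W) :
    ∃ (Q : MvPolynomial (Fin n) ℂ) (a : ℂ), US σ Q ∧ a ≠ 0 ∧
      Q ∈ MvPolynomial.supported ℂ (((W : Set (Fin n))ᶜ) ∪ {i}) ∧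
      Ini σ Q 1 (C a * X i) ∧ pderiv i Q ≠ 0 ∧ ¬ US σ (pderiv i Q) := by
  classical
  have hex : ∃ d, ∃ Q : MvPolynomial (Fin n) ℂ, US σ Q ∧
      Q ∈ MvPolynomial.supported ℂ (((W : Set (Fin n))ᶜ) ∪ {i}) ∧ degreeOf i Q = d := by
    obtain ⟨Q, h1, h2⟩ := q_us h i hi
    exact ⟨_, Q, h1, h2, rfl⟩
  obtain ⟨Q, hQ, hQs, hQd⟩ := Nat.find_spec hex
  have hmin := fun d (hd : d < Nat.find hex) => Nat.find_min hex hd
  rw [← hQd] at hmin
  have hc := h.ch
  -- the derivative does not vanish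
  have hpd : pderiv i Q ≠ 0 := by
    intro h0
    refine ct_not_us hc h.sub ⟨hQ.1, ?_⟩ hQ
    rw [mem_supported]
    intro j hj
    have hj1 := (mem_supported.mp hQs) hj
    rcases hj1 with hj1 | hj1
    · exact hj1
    · exfalso
      rw [Set.mem_singleton_iff] at hj1
      subst hj1
      rw [Finset.mem_coe, mem_vars] at hj
      obtain ⟨m, hm, hjm⟩ := hj
      have e1 : m - Finsupp.single j 1 + Finsupp.single j 1 = m := by
        refine tsub_add_cancel_of_le ?_
        rw [Finsupp.single_le_iff]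
        have := Finsupp.mem_support_iff.mp hjm
        omega
      have e2 : (pderiv j Q).coeff (m - Finsupp.single j 1) = 0 := by rw [h0, coeff_zero]
      rw [coeff_pderiv, e1] at e2
      rcases mul_eq_zero.mp e2 with e3 | e3
      · exact (mem_support_iff.mp hm) e3
      · exact Nat.cast_add_one_ne_zero _ e3
  have hsup : ∀ m, (pderiv i Q).coeff m ≠ 0 → m + Finsupp.single i 1 ∈ Q.support := by
    intro m hm
    rw [coeff_pderiv] at hm
    exact mem_support_iff.mpr (left_ne_zero_of_mul hm)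
  have hps : pderiv i Q ∈ MvPolynomial.supported ℂ (((W : Set (Fin n))ᶜ) ∪ {i}) := by
    rw [mem_supported] at hQs ⊢
    intro j hj
    apply hQs
    rw [Finset.mem_coe, mem_vars] at hj ⊢
    obtain ⟨m, hm, hjm⟩ := hj
    refine ⟨_, hsup m (mem_support_iff.mp hm), ?_⟩
    rw [Finsupp.mem_support_iff] at hjm ⊢
    rw [Finsupp.add_apply]
    omega
  have hlt : degreeOf i (pderiv i Q) < degreeOf i Q := by
    have h1 : ∀ m ∈ (pderiv i Q).support, m i + 1 ≤ degreeOf i Q := by
      intro m hm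
      have h2 := (degreeOf_le_iff.mp (le_refl (degreeOf i Q))) _ (hsup m (mem_support_iff.mp hm))
      rw [Finsupp.add_apply, Finsupp.single_eq_same] at h2
      exact h2
    obtain ⟨m0, hm0⟩ := MvPolynomial.ne_zero_iff.mp hpd
    have h3 := h1 m0 (mem_support_iff.mpr hm0)
    have h4 : degreeOf i (pderiv i Q) ≤ degreeOf i Q - 1 := by
      rw [degreeOf_le_iff]
      intro m hm
      have := h1 m hm
      omega
    omega
  have hnu : ¬ US σ (pderiv i Q) := fun hu => hmin _ hlt ⟨_, hu, hps, rfl⟩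
  obtain ⟨μ, A, hμ, hini⟩ := ini_of_us hc hQ
  have hA1 := ini_supported hc h.sub hμ hQ hini
  have hA2 := ini_supported' hc hQs hini
  rw [mem_supported] at hA1 hA2
  have hAv : ∀ m, A.coeff m ≠ 0 → m = Finsupp.single i μ := by
    intro m hm
    have hmd : m.degree = μ := by
      by_contra hne
      exact hm (hini.1.coeff_eq_zero hne)
    have h3 : ∀ j, j ≠ i → m j = 0 := by
      intro j hj
      by_contra h4
      have hjv : j ∈ A.vars := (mem_vars j).mpr ⟨m, mem_support_iff.mpr hm, Finsupp.mem_support_iff.mpr h4⟩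
      rcases hA2 (Finset.mem_coe.mpr hjv) with h5 | h5
      · exact h5 (hA1 (Finset.mem_coe.mpr hjv))
      · exact hj h5
    have h4 : m i = μ := by
      rw [← hmd, Finsupp.degree_eq_sum, Finset.sum_eq_single i (fun k _ hk => h3 k hk)
        (fun h => absurd (Finset.mem_univ i) h)]
    ext j
    by_cases hj : j = i
    · subst hj
      rw [Finsupp.single_eq_same, h4]
    · rw [Finsupp.single_eq_of_ne hj, h3 j hj]
  obtain ⟨m1, hm1⟩ := MvPolynomial.ne_zero_iff.mp hini.2.1
  have hm1' : A.coeff (Finsupp.single i μ) ≠ 0 := by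
    rw [← hAv m1 hm1]
    exact hm1
  have hμ1 : μ = 1 := by
    by_contra hne
    refine hnu (ini_deriv hc hQ hini (by omega) i ?_).1
    intro h0
    have e2 : (pderiv i A).coeff (Finsupp.single i (μ - 1)) = 0 := by rw [h0, coeff_zero]
    have e1 : Finsupp.single i (μ - 1) + Finsupp.single i 1 = Finsupp.single i μ := by
      rw [← Finsupp.single_add]
      congr 1
      omega
    rw [coeff_pderiv, e1] at e2
    rcases mul_eq_zero.mp e2 with e3 | e3
    · exact hm1' e3
    · exact Nat.cast_add_one_ne_zero _ e3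
  subst hμ1
  have hAeq : A = C (A.coeff (Finsupp.single i 1)) * X i := by
    refine MvPolynomial.ext _ _ fun m => ?_
    rw [coeff_C_mul, coeff_X']
    by_cases hm : Finsupp.single i 1 = m
    · rw [if_pos hm, mul_one, ← hm]
    · rw [if_neg hm, mul_zero]
      by_contra h0
      exact hm (hAv m h0).symm
  refine ⟨Q, A.coeff (Finsupp.single i 1), hQ, hm1', hQs, ?_, hpd, hnu⟩
  rw [← hAeq]
  exact hini

end Pool.Agent.H51.BJ
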