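import Pool.Agent.H51.BJ.NUB
import Pool.Agent.H51.BJ.STA

/-! # [H51 BJ TBS] A basis of `ℂ[t]` with pairwise incomparable elements

Let `V_d` be the space of polynomials of degree at most `d` in the variables outside `W`. Its nonzero elements are
resolved at `σ_D` for all `D ≥ d` (`chain_res_deg`, `ct_not_us`) and frozen: `NN_{D'}(e)/NN_D(e)` tends to
a positive constant for `D' ≥ D ≥ d` (`chain_le`, `ref_frozen`), so `Cmp (σ D).g e e'` does not depend on
`D ≥ d`. Let `S ⊆ V_d ∖ {0}` be a finite set of pairwise incomparable elements with the maximal number of elements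
(at most `dim V_d` by `linInd_of_incomparable`). Claim: `S` spans `V_d`. Suppose `v ∈ V_d` is not in the
span. By maximality (`v ∉ S`) `v` is comparable with some `e ∈ S`. With the limits `B_v, B_e` at `σ_d`
(constant coefficients `≠ 0`, `coeff 0 (rg v) = v(c)`): `v(c)/e(c) → θ ≠ 0` uniformly in `l`. Put
`v' = v - θ e`: it is in `V_d`, not in the span, so nonzero and resolved, and `v'(c)/e(c) → 0`, so
`NN v'/NN e → 0` (as `|v'(c)|/NN v'` tends to a positive constant). `v'` is comparable with some `e' ∈ S`, and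
`NN e'/NN e → 0`. Repeating this gives an infinite strictly descending sequence in the finite set `S`
(the relation that the ratio tends to `0` is transitive and irreflexive): contradiction. -/

set_option autoImplicit false

open MvPolynomial Filter Pool.Agent.H60 Pool.Agent.H57.BJ
open scoped Topology

noncomputable section

namespace Pool.Agent.H51.BJ

variable {n : ℕ} {F : ℕ → V n → ℂ} {P : MvPolynomial (Fin n) ℂ} {σ : ℕ → SS F}
  {W : Finset (Fin n)}

private theorem lim0 {g : Germ n} {f B : MvPolynomial (Fin n) ℂ} (h : HasLim g f B) :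
    Tendsto (fun q => (rg g f q).coeff 0 / (NN g f q : ℂ)) (LX II) (𝓝 (B.coeff 0)) := by
  refine (h 0).congr fun q => ?_
  rw [coeff_C_mul, div_eq_inv_mul]

private theorem step {g : Germ n} (hb : ∀ j l, 0 < g.b j l) {v e : MvPolynomial (Fin n) ℂ}
    (hv : v ≠ 0) (rv : Res g v) (re : Res g e) (hc : Cmp g v e) :
    ∃ θ : ℂ, Tendsto (fun q => (rg g (v - C θ * e) q).coeff 0 / (NN g e q : ℂ)) (LX II) (𝓝 0) := by
  obtain ⟨Bv, hBv, _⟩ := rv
  obtain ⟨Be, hBe, hBe0⟩ := re
  obtain ⟨c, hc0, hc1⟩ := hc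
  refine ⟨Bv.coeff 0 * c / Be.coeff 0, ?_⟩
  have h1 : Tendsto (fun q => (rg g v q).coeff 0 / (NN g e q : ℂ)) (LX II) (𝓝 (Bv.coeff 0 * c)) := by
    have h2 := (lim0 hBv).mul ((Complex.continuous_ofReal.tendsto c).comp hc1)
    refine h2.congr fun q => ?_
    have h3 : (NN g v q : ℂ) ≠ 0 := Complex.ofReal_ne_zero.mpr (NN_pos hb hv q).ne'
    rw [Function.comp_apply, Complex.ofReal_div]
    exact div_mul_div_cancel₀ h3
  have h2 := h1.sub ((lim0 hBe).const_mul (Bv.coeff 0 * c / Be.coeff 0))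
  rw [div_mul_cancel₀ _ hBe0, sub_self] at h2
  refine h2.congr fun q => ?_
  have h3 : (rg g (v - C (Bv.coeff 0 * c / Be.coeff 0) * e) q).coeff 0
      = (rg g v q).coeff 0 - Bv.coeff 0 * c / Be.coeff 0 * (rg g e q).coeff 0 := by
    unfold rg
    simp only [coeff_zero_rs]
    unfold ev
    rw [map_sub, map_mul, eval_C]
  rw [h3]
  ring

private theorem small_of {g : Germ n} (hb : ∀ j l, 0 < g.b j l) {v e : MvPolynomial (Fin n) ℂ}
    (hv : v ≠ 0) (rv : Res g v)
    (h : Tendsto (fun q => (rg g v q).coeff 0 / (NN g e q : ℂ)) (LX II) (𝓝 0)) :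
    Tendsto (fun q => NN g v q / NN g e q) (LX II) (𝓝 0) := by
  obtain ⟨B, hB, hB0⟩ := rv
  have h1 := lim0 hB
  have h2 := (h.div h1 hB0).norm
  rw [zero_div, norm_zero] at h2
  refine h2.congr' ?_
  filter_upwards [h1.eventually_ne hB0] with q hq
  have h3 : (rg g v q).coeff 0 ≠ 0 := by
    intro h4
    rw [h4, zero_div] at hq
    exact hq rfl
  have h5 : (NN g v q : ℂ) ≠ 0 := Complex.ofReal_ne_zero.mpr (NN_pos hb hv q).ne'
  have h6 : ((rg g v q).coeff 0 / (NN g e q : ℂ)) / ((rg g v q).coeff 0 / (NN g v q : ℂ))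
      = ((NN g v q / NN g e q : ℝ) : ℂ) := by
    rw [Complex.ofReal_div]
    by_cases h7 : (NN g e q : ℂ) = 0
    · rw [h7, div_zero, zero_div, div_zero]
    · field_simp
  have h8 : 0 ≤ NN g v q / NN g e q := div_nonneg (nm_nonneg _) (nm_nonneg _)
  show ‖((rg g v q).coeff 0 / (NN g e q : ℂ)) / ((rg g v q).coeff 0 / (NN g v q : ℂ))‖ = _
  rw [h6, Complex.norm_real, Real.norm_of_nonneg h8]

private theorem cmp_down (hc : Chain F P σ) {D D' : ℕ} (hD : D ≤ D')
    {e e' : MvPolynomial (Fin n) ℂ} (he : e ≠ 0) (he' : e' ≠ 0)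
    (re : Res (σ D).g e) (re' : Res (σ D).g e') (h : Cmp (σ D').g e e') : Cmp (σ D).g e e' := by
  have hb := (σ D).st.ok.pos
  have hb' := (σ D').st.ok.pos
  rcases chain_le hc hD with h1 | h1
  · rw [← h1]
    exact h
  · obtain ⟨B, hB, hB0⟩ := re
    obtain ⟨B', hB', hB0'⟩ := re'
    have h2 := (ref_frozen hb hb' h1 he hB hB0).2
    have h3 := (ref_frozen hb hb' h1 he' hB' hB0').2
    obtain ⟨c, hc0, h4⟩ := h
    have n1 := norm_pos_iff.mpr hB0
    have n2 := norm_pos_iff.mpr hB0'
    refine ⟨c * ‖B'.coeff 0‖ / ‖B.coeff 0‖, by positivity, ?_⟩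
    refine ((h4.mul h3).div h2 n1.ne').congr fun q => ?_
    have p1 := NN_pos hb he q
    have p2 := NN_pos hb he' q
    have p3 := NN_pos hb' he q
    have p4 := NN_pos hb' he' q
    show NN (σ D').g e q / NN (σ D').g e' q * (NN (σ D').g e' q / NN (σ D).g e' q) /
      (NN (σ D').g e q / NN (σ D).g e q) = _
    field_simp

theorem ct_basis (hc : Chain F P σ) (hsub : ∀ ℓ ∈ LN σ, ∀ i, i ∉ W → ℓ i = 0) (d : ℕ) :
    ∃ S : Finset (MvPolynomial (Fin n) ℂ), (∀ e ∈ S, CT W e ∧ e.totalDegree ≤ d) ∧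
      (∀ e ∈ S, ∀ e' ∈ S, e ≠ e' → ∀ D, d ≤ D → ¬ Cmp (σ D).g e e') ∧
      ∀ f, CT W f → f.totalDegree ≤ d →
        f ∈ Submodule.span ℂ (S : Set (MvPolynomial (Fin n) ℂ)) := by
  classical
  have hb := (σ d).st.ok.pos
  have hres : ∀ f, CT W f → f.totalDegree ≤ d → Res (σ d).g f := fun f h1 h2 =>
    chain_res_deg hc h1.1 (ct_not_us hc hsub h1) h2
  obtain ⟨good, hgood⟩ : ∃ good : Finset (MvPolynomial (Fin n) ℂ) → Prop, good = fun S =>
    (∀ e ∈ S, CT W e ∧ e.totalDegree ≤ d) ∧
      ∀ e ∈ S, ∀ e' ∈ S, e ≠ e' → ¬ Cmp (σ d).g e e' := ⟨_, rfl⟩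
  have hcard : ∀ S, good S → S.card ≤
      Module.finrank ℂ (restrictTotalDegree (Fin n) ℂ d) := by
    intro S hS
    rw [hgood] at hS
    have h1 : LinearIndependent ℂ (fun e : S => (e : MvPolynomial (Fin n) ℂ)) :=
      linInd_of_incomparable (σ d).st.ok _ (fun e => (hS.1 e e.2).1.1)
        (fun i k hik => hS.2 i i.2 k k.2 (fun h => hik (Subtype.ext h)))
    have h2 : LinearIndependent ℂ (fun e : S => (⟨e, (mem_restrictTotalDegree _ _ _).mpr
        (hS.1 e e.2).2⟩ : restrictTotalDegree (Fin n) ℂ d)) :=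
      LinearIndependent.of_comp (restrictTotalDegree (Fin n) ℂ d).subtype h1
    have h3 := h2.fintype_card_le_finrank
    rwa [Fintype.card_coe] at h3
  obtain ⟨S, hS, hmax⟩ : ∃ S, good S ∧ ∀ S', good S' → S'.card ≤ S.card := by
    have h1 : ({k | ∃ S, good S ∧ S.card = k} : Set ℕ).Nonempty := by
      refine ⟨0, ∅, ?_, Finset.card_empty⟩
      rw [hgood]
      exact ⟨fun e he => absurd he (Finset.notMem_empty _),
        fun e he => absurd he (Finset.notMem_empty _)⟩
    have h2 : BddAbove ({k | ∃ S, good S ∧ S.card = k} : Set ℕ) := by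
      refine ⟨Module.finrank ℂ (restrictTotalDegree (Fin n) ℂ d), ?_⟩
      rintro _ ⟨S, hS, rfl⟩
      exact hcard S hS
    obtain ⟨S, hS, hk⟩ := Nat.sSup_mem h1 h2
    refine ⟨S, hS, fun S' hS' => ?_⟩
    rw [hk]
    exact le_csSup h2 ⟨S', hS', rfl⟩
  have hcmp : ∀ v, CT W v → v.totalDegree ≤ d →
      v ∉ Submodule.span ℂ (S : Set (MvPolynomial (Fin n) ℂ)) → ∃ e ∈ S, Cmp (σ d).g v e := by
    intro v hv hvd hvs
    by_contra hno
    push Not at hno
    have hvS : v ∉ S := fun h => hvs (Submodule.subset_span h)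
    have h1 : good (insert v S) := by
      rw [hgood] at hS ⊢
      refine ⟨fun e he => ?_, fun e he e' he' hne => ?_⟩
      · rcases Finset.mem_insert.mp he with rfl | he
        · exact ⟨hv, hvd⟩
        · exact hS.1 e he
      · rcases Finset.mem_insert.mp he with h2 | h2
        · rcases Finset.mem_insert.mp he' with h3 | h3
          · exact absurd (h2.trans h3.symm) hne
          · rw [h2]
            exact hno e' h3
        · rcases Finset.mem_insert.mp he' with h3 | h3
          · rw [h3]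
            exact fun h4 => hno e h2 h4.symm
          · exact hS.2 e h2 e' h3 hne
    have h2 := hmax _ h1
    rw [Finset.card_insert_of_notMem hvS] at h2
    omega
  have hS' := hS
  rw [hgood] at hS'
  refine ⟨S, hS'.1, fun e he e' he' hne D hD h1 => ?_, fun v hv hvd => ?_⟩
  · have m1 := hS'.1 e he
    have m2 := hS'.1 e' he'
    exact hS'.2 e he e' he' hne (cmp_down hc hD m1.1.1 m2.1.1 (hres e m1.1 m1.2)
      (hres e' m2.1 m2.2) h1)
  · by_contra hvs
    obtain ⟨r, hr⟩ : ∃ r : S → S → Prop, r = fun (e' e : S) => Tendsto (fun q =>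
      NN (σ d).g (e' : MvPolynomial (Fin n) ℂ) q / NN (σ d).g (e : MvPolynomial (Fin n) ℂ) q)
      (LX II) (𝓝 0) := ⟨_, rfl⟩
    have hSne : ∀ e : S, (e : MvPolynomial (Fin n) ℂ) ≠ 0 := fun e => (hS'.1 e e.2).1.1
    have i1 : IsTrans S r := by
      constructor
      intro a b c hab hbc
      rw [hr] at hab hbc ⊢
      have h1 := hab.mul hbc
      rw [zero_mul] at h1
      refine h1.congr fun q => ?_
      exact div_mul_div_cancel₀ (NN_pos hb (hSne b) q).ne'
    have i2 : Std.Irrefl r := by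
      constructor
      intro a haa
      rw [hr] at haa
      have h1 : Tendsto (fun q : ℕ × II => (1 : ℝ)) (LX II) (𝓝 0) := by
        refine haa.congr fun q => ?_
        exact div_self (NN_pos hb (hSne a) q).ne'
      exact zero_ne_one (tendsto_nhds_unique h1 tendsto_const_nhds)
    have hwf : WellFounded r := Finite.wellFounded_of_trans_of_irrefl r
    have key : ∀ e : S, ∀ v, CT W v → v.totalDegree ≤ d →
        v ∉ Submodule.span ℂ (S : Set (MvPolynomial (Fin n) ℂ)) →
        Cmp (σ d).g v e → False := by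
      intro e
      induction e using hwf.induction with
      | _ e ih =>
      intro v hv hvd hvs hve
      have me := hS'.1 e e.2
      obtain ⟨θ, hθ⟩ := step hb hv.1 (hres v hv hvd) (hres e me.1 me.2) hve
      have g1 : v - C θ * (e : MvPolynomial (Fin n) ℂ) ∉
          Submodule.span ℂ (S : Set (MvPolynomial (Fin n) ℂ)) := by
        intro h1
        apply hvs
        have h2 : v = (v - C θ * (e : MvPolynomial (Fin n) ℂ)) + θ • (e : MvPolynomial (Fin n) ℂ) := by
          rw [smul_eq_C_mul]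
          ring
        rw [h2]
        exact Submodule.add_mem _ h1 (Submodule.smul_mem _ _ (Submodule.subset_span e.2))
      have g2 : CT W (v - C θ * (e : MvPolynomial (Fin n) ℂ)) := by
        refine ⟨fun h1 => g1 (by rw [h1]; exact Submodule.zero_mem _), ?_⟩
        exact Subalgebra.sub_mem _ hv.2
          (Subalgebra.mul_mem _ (Subalgebra.algebraMap_mem _ _) me.1.2)
      have g3 : (v - C θ * (e : MvPolynomial (Fin n) ℂ)).totalDegree ≤ d :=
        (totalDegree_sub _ _).trans (max_le hvd ((degree_C_mul_le _ _).trans me.2))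
      obtain ⟨e', he', hcm⟩ := hcmp _ g2 g3 g1
      refine ih ⟨e', he'⟩ ?_ _ g2 g3 g1 hcm
      rw [hr]
      have h1 := small_of hb g2.1 (hres _ g2 g3) hθ
      obtain ⟨c, hc0, h2⟩ := hcm.symm
      have h3 := h2.mul h1
      rw [mul_zero] at h3
      refine h3.congr fun q => ?_
      exact div_mul_div_cancel₀ (NN_pos hb g2.1 q).ne'
    obtain ⟨e, he, hcm⟩ := hcmp v hv hvd hvs
    exact key ⟨e, he⟩ v hv hvd hvs hcm

end Pool.Agent.H51.BJ
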