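import Pool.Agent.H51.BJ.DGB
import Pool.Agent.H51.BJ.DGE
import Pool.Agent.H51.BJ.DGF
import Pool.Agent.H51.BJ.TBS
import Pool.Agent.H51.BJ.QMN

/-! # [H51 BJ PRE] Existence of the pre-state (assembly)

Choose `Q i`, `a i` for `i ∈ W` by `q_lin` (QMN), the finite sets `S d` by `ct_basis` (TBS), `G = ⋃ S d`
(countable). The conjunction of `diag_ref` (all `D`), `diag_top`, `diag_con`, `diag_ini` for the `Q i` (`nm (C a * X i) = ‖a‖`,
`φ i = a/‖a‖`) and for `e ∈ G` (`ini_ct`, DGC), `diag_tame` for all `e, e' ∈ G`, all `p` and one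
fixed `i ∈ W` (`Ad.ne`), `diag_incmp` for `e ≠ e'` in the same `S d`, is `Diag`; take a diagonal choice `x` by
`Diag.exists`. Then `ct_all` and `tame_all` give `limT` and `tame`. Continuity and positivity of
`dg σ x` are immediate from the states. -/

set_option autoImplicit false

open MvPolynomial Filter Pool.Agent.H60 Pool.Agent.H57.BJ
open scoped Topology

noncomputable section

namespace Pool.Agent.H51.BJ

variable {n : ℕ} {F : ℕ → V n → ℂ} {P : MvPolynomial (Fin n) ℂ} {σ : ℕ → SS F}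
  {W : Finset (Fin n)}

theorem exists_pre (h : Ad F P σ W) :
    ∃ (g : Germ n) (z κ : ℕ → V n) (Q : Fin n → MvPolynomial (Fin n) ℂ) (φ : Fin n → ℂ),
      Pre F W g z κ Q φ ∧ (∀ D, Ref g (σ D).g) ∧ (∀ i ∈ W, US σ (Q i)) ∧
      ∃ G : Set (MvPolynomial (Fin n) ℂ), G.Countable ∧ (∀ e ∈ G, CT W e) ∧
        ∀ f, CT W f → ∃ e ∈ G, Cmp g f e := by
  classical
  have hc := h.ch
  choose Q' a' hQus ha hQsup hQini _ _ using fun (i : Fin n) (hi : i ∈ W) => q_lin h i hi
  choose S hS1 hS2 hS3 using fun d => ct_basis hc h.sub d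
  obtain ⟨G, hG⟩ : ∃ G : Set (MvPolynomial (Fin n) ℂ), G = ⋃ d, (S d : Set _) := ⟨_, rfl⟩
  have hGc : G.Countable := by
    rw [hG]
    exact Set.countable_iUnion fun d => (S d).countable_toSet
  have hGct : ∀ e ∈ G, CT W e := by
    intro e he
    rw [hG, Set.mem_iUnion] at he
    obtain ⟨d, hd⟩ := he
    exact (hS1 d e hd).1
  have hSG : ∀ d, ∀ e ∈ S d, e ∈ G := by
    intro d e he
    rw [hG, Set.mem_iUnion]
    exact ⟨d, he⟩
  have : Countable G := hGc.to_subtype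
  obtain ⟨i0, hi0⟩ := h.ne
  have d1 : Diag (fun x => ∀ D, Ref (dg σ x) (σ D).g) := Diag.all fun D => diag_ref hc D
  have d2 := diag_top hc
  have d3 := diag_con hc
  have d4 : Diag (fun x => ∀ i : W, HasLim (dg σ x) (Q' i i.2)
      (C ((nm (C (a' i i.2) * X (i : Fin n)) : ℂ)⁻¹) * (C (a' i i.2) * X (i : Fin n)))) :=
    Diag.all fun i => diag_ini hc (hQus i i.2).1 (hQini i i.2)
  have d5 : Diag (fun x => ∀ e : G, ∃ b : ℂ, b ≠ 0 ∧
      HasLim (dg σ x) (e : MvPolynomial (Fin n) ℂ) (C b)) := by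
    refine Diag.all fun e => ?_
    obtain ⟨b, hb1, hb2⟩ := ini_ct hc h.sub (hGct e e.2)
    refine (diag_ini hc (hGct e e.2).1 hb2).mono fun x hx => ⟨b, ?_, ?_⟩
    · intro h0
      rw [h0, norm_zero] at hb1
      exact zero_ne_one hb1
    · rw [nm_C, hb1, Complex.ofReal_one, inv_one, C_1, one_mul] at hx
      exact hx
  have d6 : Diag (fun x => ∀ e : G, ∀ e' : G, ∀ p : ℕ, Tame (fun q => (dg σ x).b q.1 q.2 ^ p *
      (NN (dg σ x) (e : MvPolynomial (Fin n) ℂ) q / NN (dg σ x) (e' : MvPolynomial (Fin n) ℂ) q))) :=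
    Diag.all fun e => Diag.all fun e' => Diag.all fun p =>
      diag_tame hc h.sub (hQus i0 hi0) (ha i0 hi0) (hQini i0 hi0) (hGct e e.2) (hGct e' e'.2) p
  have d7 : Diag (fun x => ∀ d, ∀ e : S d, ∀ e' : S d, e ≠ e' →
      ¬ Cmp (dg σ x) (e : MvPolynomial (Fin n) ℂ) e') := by
    refine Diag.all fun d => Diag.all fun e => Diag.all fun e' => ?_
    by_cases hee : e = e'
    · exact d2.mono fun x _ hne => absurd hee hne
    · refine (diag_incmp hc h.sub (hS1 d e e.2).1 (hS1 d e' e'.2).1 d (hS2 d e e.2 e' e'.2 ?_)).mono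
        fun x hx _ => hx
      exact fun h1 => hee (Subtype.ext h1)
  obtain ⟨x, ⟨x1, x2⟩, ⟨x3, x4⟩, ⟨x5, x6⟩, x7⟩ :=
    ((d1.and d2).and ((d3.and d4).and ((d5.and d6).and d7))).exists
  have hpos : ∀ j l, 0 < (dg σ x).b j l := fun j l =>
    div_pos ((σ (x j).1).st.ok.pos j l) (by positivity)
  have hct := ct_all (W := W) hpos S (fun d e he => (hS1 d e he).1)
    (fun d e he => x5 ⟨e, hSG d e he⟩)
    (fun d e he e' he' => by
      have h1 := x6 ⟨e, hSG d e he⟩ ⟨e', hSG d e' he'⟩ 0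
      simp only [pow_zero, one_mul] at h1
      exact h1)
    (fun d e he e' he' hne => x7 d ⟨e, he⟩ ⟨e', he'⟩ (fun h1 => hne (congrArg Subtype.val h1)))
    hS3
  have hcmpG : ∀ f, CT W f → ∃ e ∈ G, Cmp (dg σ x) f e := by
    intro f hf
    obtain ⟨e, he, h1⟩ := (hct f hf).2
    exact ⟨e, hSG _ e he, h1⟩
  refine ⟨dg σ x, dz σ x, dk σ x, fun i => if hi : i ∈ W then Q' i hi else 0,
    fun i => if hi : i ∈ W then a' i hi / ‖a' i hi‖ else 1, ?_, x1, ?_, G, hGc, hGct, hcmpG⟩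
  · refine ⟨fun j => (σ (x j).1).st.ok.cc j, fun j => ((σ (x j).1).st.ok.cb j).div_const _,
      hpos, x2, x3, ?_, ?_, ?_, fun f hf => (hct f hf).1, ?_⟩
    · intro i hi
      simp only [dif_pos hi]
      exact hQsup i hi
    · intro i hi
      simp only [dif_pos hi]
      exact div_ne_zero (ha i hi) (Complex.ofReal_ne_zero.mpr (norm_ne_zero_iff.mpr (ha i hi)))
    · intro i hi
      simp only [dif_pos hi]
      have h1 := x4 ⟨i, hi⟩
      have h2 : nm (X i : MvPolynomial (Fin n) ℂ) = 1 := by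
        rw [nm_eq_sum (X i) {Finsupp.single i 1} (by rw [support_X]), Finset.sum_singleton,
          coeff_X_same]
        exact norm_one
      have h3 : C ((nm (C (a' i hi) * X i) : ℂ)⁻¹) * (C (a' i hi) * X i)
          = C (a' i hi / ‖a' i hi‖) * X i := by
        rw [nm_C_mul, h2, mul_one, ← mul_assoc, ← C_mul, div_eq_inv_mul]
      rw [← h3]
      exact h1
    · intro f f' hf hf' p
      exact tame_all hpos G (fun e he => (hGct e he).1)
        (fun e he e' he' p => x6 ⟨e, he⟩ ⟨e', he'⟩ p) hf.1 hf'.1 (hcmpG f hf) (hcmpG f' hf') p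
  · intro i hi
    simp only [dif_pos hi]
    exact hQus i hi

end Pool.Agent.H51.BJ
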