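import Pool.Agent.H51.BJ.ROB

/-! # [H51 BJ ROC] The adapted unitary frame

`exists_unitary`: let `k` be the dimension of the subspace `N` of `ℂⁿ`, take an orthonormal basis
`v_0, ..., v_{n-1}` of `ℂⁿ` (`EuclideanSpace ℂ (Fin n)`) such that `v_l`, `l < k`, is a basis of `N`, and
`U i l = conj (v_l i)`: `U` is unitary and `(Uᵀ)⁻¹ = conj U` has the columns `v_l`, so `Uᵀ v_l = e_l`
and `Uᵀ N = span {e_l : l < k}`, `W = {l : l < k}`.

`exists_adapted`: apply this to `N = span (LN σ)`; `LN` of the rotated chain is `Uᵀ LN σ` (`LN_rot`), its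
span is `span {e_i : i ∈ W}`: all elements vanish outside `W` and the span contains `e_i`, `i ∈ W`.
`W` is nonempty since `LN σ` contains a nonzero element (`LN_ne`). -/

set_option autoImplicit false

open MvPolynomial Filter Pool.Agent.H60 Pool.Agent.H57.BJ
open scoped Topology Matrix

noncomputable section

namespace Pool.Agent.H51.BJ

variable {n : ℕ}

theorem exists_unitary (N : Submodule ℂ (V n)) :
    ∃ (U : Matrix (Fin n) (Fin n) ℂ) (W : Finset (Fin n)), U ∈ Matrix.unitaryGroup (Fin n) ℂ ∧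
      (∀ ℓ ∈ N, ∀ i, i ∉ W → (Uᵀ).mulVec ℓ i = 0) ∧
      ∀ i ∈ W, ∃ ℓ ∈ N, (Uᵀ).mulVec ℓ = Pi.single i 1 := by
  classical
  set e := WithLp.linearEquiv 2 ℂ (Fin n → ℂ) with he
  let N' : Submodule ℂ (EuclideanSpace ℂ (Fin n)) := N.comap e.toLinearMap
  set k := Module.finrank ℂ N' with hk
  let b0 := stdOrthonormalBasis ℂ N'
  let v : Fin n → EuclideanSpace ℂ (Fin n) := fun i =>
    if h : (i : ℕ) < k then (b0 ⟨i, h⟩ : EuclideanSpace ℂ (Fin n)) else 0
  let s : Set (Fin n) := {i | (i : ℕ) < k}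
  have hv : Orthonormal ℂ (s.domRestrict v) := by
    have h1 : Orthonormal ℂ (fun x : s => (b0 ⟨(x : Fin n), x.2⟩ : EuclideanSpace ℂ (Fin n))) := by
      have h2 := b0.orthonormal
      have h3 : Orthonormal ℂ (fun i => (b0 i : EuclideanSpace ℂ (Fin n))) :=
        h2.comp_linearIsometry N'.subtypeₗᵢ
      refine h3.comp (fun x : s => (⟨(x : Fin n), x.2⟩ : Fin k)) ?_
      intro x y hxy
      apply Subtype.ext
      apply Fin.ext
      have h4 := congrArg (fun z : Fin k => (z : ℕ)) hxy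
      exact h4
    refine (congrArg (Orthonormal ℂ) ?_).mpr h1
    funext x
    change v x = _
    simp only [v]
    exact dif_pos x.2
  have hc : Module.finrank ℂ (EuclideanSpace ℂ (Fin n)) = Fintype.card (Fin n) := by
    rw [finrank_euclideanSpace]
  obtain ⟨b, hb⟩ := Orthonormal.exists_orthonormalBasis_extension_of_card_eq hc hv
  have hbv : ∀ (i : Fin n) (h : (i : ℕ) < k), b i = (b0 ⟨i, h⟩ : EuclideanSpace ℂ (Fin n)) := by
    intro i h
    rw [hb i h]
    simp only [v]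
    exact dif_pos h
  have hkn : k ≤ n := by
    have h1 := Submodule.finrank_le N'
    rwa [finrank_euclideanSpace, Fintype.card_fin] at h1
  have hin : ∀ (i : Fin n) (x : V n),
      (∑ j, (starRingEnd ℂ) (b i j) * x j) = inner ℂ (b i) (e.symm x) := by
    intro i x
    rw [PiLp.inner_apply]
    refine Finset.sum_congr rfl fun j _ => ?_
    rw [RCLike.inner_apply, mul_comm]
    rfl
  refine ⟨Matrix.of fun j i => (starRingEnd ℂ) (b i j), Finset.univ.filter fun i => (i : ℕ) < k,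
    ?_, ?_, ?_⟩
  · rw [Matrix.mem_unitaryGroup_iff']
    ext i l
    have h1 := b.inner_eq_ite l i
    rw [Matrix.mul_apply, Matrix.one_apply]
    rw [PiLp.inner_apply] at h1
    have h2 : (∑ j, (star (Matrix.of fun j i => (starRingEnd ℂ) (b i j)) :
        Matrix (Fin n) (Fin n) ℂ) i j * (Matrix.of fun j i => (starRingEnd ℂ) (b i j) :
        Matrix (Fin n) (Fin n) ℂ) j l) = ∑ j, inner ℂ (b l j) (b i j) := by
      refine Finset.sum_congr rfl fun j _ => ?_
      rw [RCLike.inner_apply, Matrix.star_apply, Matrix.of_apply, Matrix.of_apply,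
        ← starRingEnd_apply, Complex.conj_conj]
    rw [h2, h1]
    simp only [eq_comm]
  · intro ℓ hℓ i hi
    have hi' : ¬ (i : ℕ) < k := by
      intro h
      exact hi (Finset.mem_filter.2 ⟨Finset.mem_univ _, h⟩)
    have h0 : (Matrix.of fun j i => (starRingEnd ℂ) (b i j))ᵀ.mulVec ℓ i =
        inner ℂ (b i) (e.symm ℓ) := by
      rw [← hin]
      rfl
    rw [h0]
    have hℓ' : e.symm ℓ ∈ N' := by
      change e (e.symm ℓ) ∈ N
      rw [LinearEquiv.apply_symm_apply]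
      exact hℓ
    have h1 := b0.sum_repr ⟨e.symm ℓ, hℓ'⟩
    have h2 := congrArg (fun x : N' => (x : EuclideanSpace ℂ (Fin n))) h1
    have h3 : ∑ j, (b0.repr ⟨e.symm ℓ, hℓ'⟩ j) • (b0 j : EuclideanSpace ℂ (Fin n)) = e.symm ℓ := by
      refine Eq.trans ?_ h2
      simp
    rw [← h3, inner_sum]
    refine Finset.sum_eq_zero fun j _ => ?_
    rw [inner_smul_right]
    have hj : (j : ℕ) < n := lt_of_lt_of_le j.2 hkn
    have h4 := hbv ⟨j, hj⟩ j.2
    have h5 : (⟨((⟨j, hj⟩ : Fin n) : ℕ), j.2⟩ : Fin k) = j := Fin.ext rfl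
    rw [h5] at h4
    rw [← h4, b.inner_eq_ite]
    rw [if_neg, mul_zero]
    intro h
    apply hi'
    rw [h]
    exact j.2
  · intro i hi
    have hi' : (i : ℕ) < k := (Finset.mem_filter.1 hi).2
    refine ⟨e (b i), ?_, ?_⟩
    · have h1 : b i ∈ N' := by
        rw [hbv i hi']
        exact (b0 ⟨i, hi'⟩).2
      exact h1
    · funext l
      have h0 : (Matrix.of fun j i => (starRingEnd ℂ) (b i j))ᵀ.mulVec (e (b i)) l =
          inner ℂ (b l) (e.symm (e (b i))) := by
        rw [← hin]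
        rfl
      rw [h0, LinearEquiv.symm_apply_apply, b.inner_eq_ite, Pi.single_apply]

theorem exists_adapted {F : ℕ → V n → ℂ} {P : MvPolynomial (Fin n) ℂ} (hP : P ≠ 0)
    {σ : ℕ → SS F} (h : Chain F P σ) :
    ∃ (U : Matrix (Fin n) (Fin n) ℂ) (W : Finset (Fin n)) (σ' : ℕ → SS (rotF U F)),
      U ∈ Matrix.unitaryGroup (Fin n) ℂ ∧ Ad (rotF U F) (rotP U P) σ' W := by
  obtain ⟨U, W, hU, h1, h2⟩ := exists_unitary (Submodule.span ℂ (LN σ))
  refine ⟨U, W, fun D => rotS hU (σ D), hU, ⟨h.rot hU hP, ?_, ?_, ?_⟩⟩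
  · intro ℓ hℓ i hi
    rw [LN_rot hU h] at hℓ
    obtain ⟨ℓ', hℓ', rfl⟩ := hℓ
    exact h1 ℓ' (Submodule.subset_span hℓ') i hi
  · intro i hi
    obtain ⟨ℓ, hℓ, he⟩ := h2 i hi
    rw [LN_rot hU h, ← he]
    have h3 : (fun ℓ : V n => (Uᵀ).mulVec ℓ) '' LN σ = (Matrix.mulVecLin Uᵀ) '' LN σ := rfl
    rw [h3, ← Submodule.map_span]
    exact Submodule.mem_map_of_mem hℓ
  · obtain ⟨ℓ, hℓ, hne⟩ := LN_ne h hP
    by_contra hW
    rw [Finset.not_nonempty_iff_eq_empty] at hW
    apply hne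
    have h3 : (Uᵀ).mulVec ℓ = 0 := by
      funext i
      exact h1 ℓ (Submodule.subset_span hℓ) i (by rw [hW]; exact Finset.notMem_empty i)
    have h4 : (Uᴴᵀ).mulVec ((Uᵀ).mulVec ℓ) = ℓ := by
      rw [Matrix.mulVec_mulVec, ← Matrix.transpose_mul, uni_l hU, Matrix.transpose_one,
        Matrix.one_mulVec]
    rw [← h4, h3, Matrix.mulVec_zero]

end Pool.Agent.H51.BJ
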