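import Pool.Agent.H51.BJ.HLB

/-! # [H51 BJ SLG] The initial germ

`b j l = R^{1-l} R'^l`, `c j l = b j l • ζ` with `1 ≤ R' ≤ R`, `R' → ∞`. For `f ≠ 0` of degree `D` with leading form
`f_D`: `b^{-D} f(b ζ + b s) → f_D(ζ + s)`. -/

set_option autoImplicit false

open MvPolynomial Filter Pool.Agent.H60 Pool.Agent.H57.BJ
open scoped Topology

noncomputable section

namespace Pool.Agent.H51.BJ

variable {n : ℕ}

/-- the initial germ -/
def ig (R R' : ℕ → ℝ) (ζ : V n) : Germ n where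
  c j l := ((R j ^ (1 - (l : ℝ)) * R' j ^ (l : ℝ) : ℝ) : ℂ) • ζ
  b j l := R j ^ (1 - (l : ℝ)) * R' j ^ (l : ℝ)

theorem ig_zero {R R' : ℕ → ℝ} (ζ : V n) (j : ℕ) : (ig R R' ζ).b j 0 = R j := by
  show R j ^ (1 - ((0 : II) : ℝ)) * R' j ^ ((0 : II) : ℝ) = R j
  simp

theorem ig_one {R R' : ℕ → ℝ} (ζ : V n) (j : ℕ) : (ig R R' ζ).b j 1 = R' j := by
  show R j ^ (1 - ((1 : II) : ℝ)) * R' j ^ ((1 : II) : ℝ) = R' j
  simp

theorem ig_c {R R' : ℕ → ℝ} (ζ : V n) (j : ℕ) (l : II) :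
    (ig R R' ζ).c j l = (((ig R R' ζ).b j l : ℝ) : ℂ) • ζ := rfl

theorem ig_le {R R' : ℕ → ℝ} (h1 : ∀ j, 1 ≤ R' j) (h2 : ∀ j, R' j ≤ R j) (ζ : V n) (j : ℕ)
    (l : II) : R' j ≤ (ig R R' ζ).b j l ∧ (ig R R' ζ).b j l ≤ R j := by
  have h3 : 0 < R' j := by linarith [h1 j]
  have h4 : 0 < R j := by linarith [h2 j]
  have l0 : 0 ≤ (l : ℝ) := l.2.1
  have l1 : 0 ≤ 1 - (l : ℝ) := by linarith [l.2.2]
  constructor
  · show R' j ≤ R j ^ (1 - (l : ℝ)) * R' j ^ (l : ℝ)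
    calc R' j = R' j ^ (1 - (l : ℝ)) * R' j ^ (l : ℝ) := by
          rw [← Real.rpow_add h3, sub_add_cancel, Real.rpow_one]
      _ ≤ R j ^ (1 - (l : ℝ)) * R' j ^ (l : ℝ) := by
          refine mul_le_mul_of_nonneg_right ?_ (Real.rpow_nonneg h3.le _)
          exact Real.rpow_le_rpow h3.le (h2 j) l1
  · show R j ^ (1 - (l : ℝ)) * R' j ^ (l : ℝ) ≤ R j
    calc R j ^ (1 - (l : ℝ)) * R' j ^ (l : ℝ) ≤ R j ^ (1 - (l : ℝ)) * R j ^ (l : ℝ) := by
          refine mul_le_mul_of_nonneg_left ?_ (Real.rpow_nonneg h4.le _)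
          exact Real.rpow_le_rpow h3.le (h2 j) l0
      _ = R j := by rw [← Real.rpow_add h4, sub_add_cancel, Real.rpow_one]

theorem ig_pos {R R' : ℕ → ℝ} (h1 : ∀ j, 1 ≤ R' j) (h2 : ∀ j, R' j ≤ R j) (ζ : V n) (j : ℕ)
    (l : II) : 0 < (ig R R' ζ).b j l := by
  have := (ig_le h1 h2 ζ j l).1
  linarith [h1 j]

theorem ig_cont {R R' : ℕ → ℝ} (h1 : ∀ j, 1 ≤ R' j) (h2 : ∀ j, R' j ≤ R j) (ζ : V n) (j : ℕ) :
    Continuous ((ig R R' ζ).b j) := by
  have h3 : 0 < R' j := by linarith [h1 j]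
  have h4 : 0 < R j := by linarith [h2 j]
  show Continuous fun l : II => R j ^ (1 - (l : ℝ)) * R' j ^ (l : ℝ)
  refine Continuous.mul ?_ ?_
  · exact Continuous.rpow continuous_const (continuous_const.sub continuous_subtype_val)
      fun _ => Or.inl h4.ne'
  · exact Continuous.rpow continuous_const continuous_subtype_val fun _ => Or.inl h3.ne'

theorem ig_top {R R' : ℕ → ℝ} (h1 : ∀ j, 1 ≤ R' j) (h2 : ∀ j, R' j ≤ R j)
    (ht : Tendsto R' UF atTop) (ζ : V n) :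
    Tendsto (fun q : ℕ × II => (ig R R' ζ).b q.1 q.2) (LX II) atTop := by
  rw [tendsto_atTop]
  intro K
  rw [ev_LX]
  filter_upwards [ht.eventually_ge_atTop K] with j hj l
  exact hj.trans (ig_le h1 h2 ζ j l).1

theorem ig_tame {R R' : ℕ → ℝ} (h1 : ∀ j, 1 ≤ R' j) (h2 : ∀ j, R' j ≤ R j)
    (ht : Tendsto R' UF atTop) (ζ : V n) :
    Tame (fun q : ℕ × II => (ig R R' ζ).b q.1 q.2) := by
  refine ⟨Eventually.of_forall fun q => ig_pos h1 h2 ζ q.1 q.2, Or.inl
    ⟨ig_top h1 h2 ht ζ, fun ε hε => Eventually.of_forall fun q => ?_⟩⟩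
  have h3 := (ig_le h1 h2 ζ q.1 q.2).2
  have h4 : 0 < R q.1 := by linarith [h1 q.1, h2 q.1]
  show (ig R R' ζ).b q.1 q.2 ≤ (1 + ε) * (ig R R' ζ).b q.1 0
  rw [ig_zero]
  nlinarith

theorem slg_lead_ne {f : MvPolynomial (Fin n) ℂ} (hf : f ≠ 0) :
    homogeneousComponent f.totalDegree f ≠ 0 := by
  intro h0
  obtain ⟨m, hm, he⟩ := Finset.exists_mem_eq_sup f.support (support_nonempty.mpr hf)
    (fun s => s.sum fun _ e => e)
  have h1 : m.degree = f.totalDegree := he.symm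
  have h2 : coeff m (homogeneousComponent f.totalDegree f) = coeff m f := by
    rw [coeff_homogeneousComponent, if_pos h1]
  rw [h0, coeff_zero] at h2
  exact (mem_support_iff.mp hm) h2.symm

/-- the limit of the normalised polynomial -/
theorem ig_lim {R R' : ℕ → ℝ} (h1 : ∀ j, 1 ≤ R' j) (h2 : ∀ j, R' j ≤ R j)
    (ht : Tendsto R' UF atTop) (ζ : V n) {f : MvPolynomial (Fin n) ℂ} (hf : f ≠ 0) :
    PT (LX II) (fun q => C ((((ig R R' ζ).b q.1 q.2 ^ f.totalDegree : ℝ) : ℂ)⁻¹) *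
      rg (ig R R' ζ) f q) (rs ζ 1 (homogeneousComponent f.totalDegree f)) := by
  obtain ⟨b, hb⟩ : ∃ b : ℕ × II → ℝ, b = fun q => (ig R R' ζ).b q.1 q.2 := ⟨_, rfl⟩
  have hb0 : ∀ q, 0 < b q := fun q => by rw [hb]; exact ig_pos h1 h2 ζ q.1 q.2
  have hbt : Tendsto b (LX II) atTop := by rw [hb]; exact ig_top h1 h2 ht ζ
  have key : PT (LX II) (fun q => C (((b q ^ f.totalDegree : ℝ) : ℂ)⁻¹) * rs 0 (b q) f)
      (homogeneousComponent f.totalDegree f) := by
    intro m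
    have e1 : (fun q => (C (((b q ^ f.totalDegree : ℝ) : ℂ)⁻¹) * rs 0 (b q) f).coeff m) =
        fun q => (((b q ^ f.totalDegree : ℝ) : ℂ)⁻¹ * (b q : ℂ) ^ m.degree) * f.coeff m := by
      funext q
      rw [coeff_C_mul, coeff_rs_zero, mul_assoc]
    rw [e1, coeff_homogeneousComponent]
    by_cases hm : f.coeff m = 0
    · have e2 : (if m.degree = f.totalDegree then f.coeff m else 0) = 0 := by
        split_ifs <;> simp [hm]
      rw [e2]
      simp only [hm, mul_zero]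
      exact tendsto_const_nhds
    · have hd : m.degree ≤ f.totalDegree := by
        have := le_totalDegree (mem_support_iff.mpr hm)
        exact this
      rcases hd.eq_or_lt with he | hlt
      · rw [if_pos he]
        have e3 : (fun q => (((b q ^ f.totalDegree : ℝ) : ℂ)⁻¹ * (b q : ℂ) ^ m.degree) *
            f.coeff m) = fun _ => f.coeff m := by
          funext q
          have hbq : (b q : ℂ) ≠ 0 := by exact_mod_cast (hb0 q).ne'
          rw [he]
          push_cast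
          rw [inv_mul_cancel₀ (pow_ne_zero _ hbq), one_mul]
        rw [e3]
        exact tendsto_const_nhds
      · rw [if_neg hlt.ne]
        have e4 : Tendsto (fun q => ((b q ^ f.totalDegree : ℝ) : ℂ)⁻¹ * (b q : ℂ) ^ m.degree)
            (LX II) (𝓝 0) := by
          have e5 : (fun q => ((b q ^ f.totalDegree : ℝ) : ℂ)⁻¹ * (b q : ℂ) ^ m.degree) =
              fun q => (((b q ^ (f.totalDegree - m.degree))⁻¹ : ℝ) : ℂ) := by
            funext q
            have hbq : (b q : ℂ) ≠ 0 := by exact_mod_cast (hb0 q).ne'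
            have e6 : f.totalDegree = (f.totalDegree - m.degree) + m.degree := by omega
            conv_lhs => rw [e6]
            push_cast
            rw [pow_add]
            field_simp
          rw [e5]
          have e7 : Tendsto (fun q => (b q ^ (f.totalDegree - m.degree))⁻¹) (LX II) (𝓝 0) := by
            refine tendsto_inv_atTop_zero.comp ?_
            exact (tendsto_pow_atTop (by omega)).comp hbt
          have e8 := (Complex.continuous_ofReal.tendsto 0).comp e7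
          rw [Complex.ofReal_zero] at e8
          exact e8
        have e9 := e4.mul_const (f.coeff m)
        rw [zero_mul] at e9
        exact e9
  have hdeg : ∀ᶠ q in LX II,
      (C (((b q ^ f.totalDegree : ℝ) : ℂ)⁻¹) * rs 0 (b q) f).totalDegree ≤ f.totalDegree := by
    refine Eventually.of_forall fun q => ?_
    refine (totalDegree_mul _ _).trans ?_
    rw [totalDegree_C, zero_add]
    exact totalDegree_rs_le 0 (b q) f
  have key2 := PT.rs key hdeg (x := fun _ => ζ) (x0 := ζ) tendsto_const_nhds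
    (e := fun _ => (1 : ℝ)) (e0 := 1) tendsto_const_nhds
  refine key2.congr' (Eventually.of_forall fun q => ?_)
  show rs ζ 1 (C (((b q ^ f.totalDegree : ℝ) : ℂ)⁻¹) * rs 0 (b q) f) = _
  rw [rs_C_mul, rs_rs]
  have e10 : rg (ig R R' ζ) f q = rs ((b q : ℂ) • ζ) (b q) f := by rw [hb]; rfl
  rw [e10, zero_add, mul_one, hb]

theorem ig_ok {R R' : ℕ → ℝ} (h1 : ∀ j, 1 ≤ R' j) (h2 : ∀ j, R' j ≤ R j)
    (ht : Tendsto R' UF atTop) (ζ : V n) : GOk (ig R R' ζ) := by
  have hpos : ∀ j l, 0 < (ig R R' ζ).b j l := fun j l => ig_pos h1 h2 ζ j l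
  have hlim : ∀ f : MvPolynomial (Fin n) ℂ, f ≠ 0 →
      (∃ B, HasLim (ig R R' ζ) f B) ∧ ∃ c : ℝ, 0 < c ∧
        Tendsto (fun q : ℕ × II => NN (ig R R' ζ) f q / (ig R R' ζ).b q.1 q.2 ^ f.totalDegree)
          (LX II) (𝓝 c) := by
    intro f hf
    have hB : rs ζ 1 (homogeneousComponent f.totalDegree f) ≠ 0 :=
      rs_ne_zero ζ one_ne_zero (slg_lead_ne hf)
    have h3 := HasLim.of_norm (g := ig R R' ζ) hpos hf
      (ν := fun q => (ig R R' ζ).b q.1 q.2 ^ f.totalDegree)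
      (Eventually.of_forall fun q => pow_pos (hpos q.1 q.2) _) hB (ig_lim h1 h2 ht ζ hf)
    exact ⟨⟨_, h3.1⟩, _, nm_pos hB, h3.2⟩
  refine ⟨fun j => ?_, ig_cont h1 h2 ζ, hpos, fun f hf => (hlim f hf).1, fun f h hf hh => ?_⟩
  · show Continuous fun l => (((ig R R' ζ).b j l : ℝ) : ℂ) • ζ
    exact (Complex.continuous_ofReal.comp (ig_cont h1 h2 ζ j)).smul continuous_const
  · obtain ⟨-, c, hc, hcl⟩ := hlim f hf
    obtain ⟨-, c', hc', hcl'⟩ := hlim h hh
    have h3 := (ig_tame h1 h2 ht ζ).rpow ((f.totalDegree : ℝ) - h.totalDegree)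
    refine h3.congr (div_pos hc hc') ?_
    refine (hcl.div hcl' hc'.ne').congr fun q => ?_
    have hb := hpos q.1 q.2
    show NN (ig R R' ζ) f q / (ig R R' ζ).b q.1 q.2 ^ f.totalDegree /
      (NN (ig R R' ζ) h q / (ig R R' ζ).b q.1 q.2 ^ h.totalDegree) =
      NN (ig R R' ζ) f q / NN (ig R R' ζ) h q /
        (ig R R' ζ).b q.1 q.2 ^ ((f.totalDegree : ℝ) - h.totalDegree)
    rw [Real.rpow_sub hb, Real.rpow_natCast, Real.rpow_natCast]
    have e1 : (ig R R' ζ).b q.1 q.2 ^ f.totalDegree ≠ 0 := (pow_pos hb _).ne'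
    have e2 : (ig R R' ζ).b q.1 q.2 ^ h.totalDegree ≠ 0 := (pow_pos hb _).ne'
    have e3 : NN (ig R R' ζ) h q ≠ 0 := (NN_pos hpos hh q).ne'
    field_simp

end Pool.Agent.H51.BJ
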