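import Mathlib

/-! # [H51 BJ SLM] The weights of the initial state (Mathlib only)

`exists_m`: a slowly growing minorant `m` of `om` with `m r / r` nonincreasing: the minimum of
`max 1 r` and of the infimum over `t > 0` of `max 1 (r/t) * om t`. `sw m T` is the slope: `m` up to `T`, then
`r min(1, c log r)`. `pw m T` is its primitive. The facts used later: `sw_log` (the function
`sw r / (r log r)` is nonincreasing), `pw_sub` (the second order estimate of the primitive), `pw_low`. -/

set_option autoImplicit false

open Filter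
open scoped Topology

noncomputable section

namespace Pool.Agent.H51.BJ

/-- minorants used for the weights -/
structure Wm (m : ℝ → ℝ) : Prop where
  one : ∀ r, 1 ≤ m r
  mono : Monotone m
  top : Tendsto m atTop atTop
  lin : ∀ r, 1 ≤ r → m r ≤ r
  conc : ∀ r r', 0 < r → r ≤ r' → r * m r' ≤ r' * m r

theorem exists_m {om : ℝ → ℝ} (hmono : Monotone om) (htop : Tendsto om atTop atTop)
    (h1 : ∀ r, 1 ≤ om r) : ∃ m : ℝ → ℝ, Wm m ∧ ∀ r, 0 < r → m r ≤ om r := by
  have : Nonempty {t : ℝ // 0 < t} := ⟨⟨1, one_pos⟩⟩
  have hb : ∀ r : ℝ, BddBelow (Set.range fun t : {t : ℝ // 0 < t} => max 1 (r / t) * om t) := by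
    intro r
    refine ⟨0, ?_⟩
    rintro _ ⟨t, rfl⟩
    have h2 : 0 ≤ om t := zero_le_one.trans (h1 t)
    exact mul_nonneg (zero_le_one.trans (le_max_left _ _)) h2
  refine ⟨fun r => min (⨅ t : {t : ℝ // 0 < t}, max 1 (r / t) * om t) (max 1 r),
    ⟨fun r => ?_, fun r r' hr => ?_, ?_, fun r hr => ?_, fun r r' hr hrr => ?_⟩, fun r hr => ?_⟩
  · refine le_min (le_ciInf fun t => ?_) (le_max_left _ _)
    exact one_le_mul_of_one_le_of_one_le (le_max_left _ _) (h1 t)
  · refine min_le_min (ciInf_mono (hb r) fun t => ?_) (max_le_max le_rfl hr)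
    have h2 : 0 ≤ om t := zero_le_one.trans (h1 t)
    refine mul_le_mul_of_nonneg_right (max_le_max le_rfl ?_) h2
    exact div_le_div_of_nonneg_right hr t.2.le
  · rw [tendsto_atTop]
    intro K
    obtain ⟨t₀, ht₀⟩ := ((tendsto_atTop.mp htop) (max K 1)).exists_forall_of_atTop
    obtain ⟨a, ha⟩ : ∃ a : ℝ, a = max t₀ 1 := ⟨_, rfl⟩
    have ha1 : 1 ≤ a := by rw [ha]; exact le_max_right _ _
    have ha0 : 0 < a := by linarith
    have hoa : max K 1 ≤ om a := ht₀ a (by rw [ha]; exact le_max_left _ _)
    filter_upwards [eventually_ge_atTop (max K 1 * a)] with r hr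
    have hK1 : 1 ≤ max K 1 := le_max_right _ _
    have hKr : max K 1 ≤ r := by nlinarith
    refine le_min (le_ciInf fun t => ?_) ((le_max_left _ _).trans (hKr.trans (le_max_right _ _)))
    by_cases ht : a ≤ t
    · have h2 : max K 1 ≤ om t := hoa.trans (hmono ht)
      calc K ≤ max K 1 := le_max_left _ _
        _ ≤ om t := h2
        _ = 1 * om t := (one_mul _).symm
        _ ≤ max 1 (r / t) * om t :=
          mul_le_mul_of_nonneg_right (le_max_left _ _) (by linarith [h1 (t : ℝ)])
    · have ht' : (t : ℝ) ≤ a := (not_le.mp ht).le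
      have h2 : max K 1 ≤ r / t := by
        rw [le_div_iff₀ t.2]
        calc max K 1 * t ≤ max K 1 * a := mul_le_mul_of_nonneg_left ht' (by linarith)
          _ ≤ r := hr
      calc K ≤ max K 1 := le_max_left _ _
        _ ≤ max 1 (r / t) := h2.trans (le_max_right _ _)
        _ = max 1 (r / t) * 1 := (mul_one _).symm
        _ ≤ max 1 (r / t) * om t :=
          mul_le_mul_of_nonneg_left (h1 t) (zero_le_one.trans (le_max_left _ _))
  · exact (min_le_right _ _).trans (max_le hr le_rfl)
  · have hr' : 0 < r' := lt_of_lt_of_le hr hrr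
    have key : r / r' * min (⨅ t : {t : ℝ // 0 < t}, max 1 (r' / t) * om t) (max 1 r') ≤
        min (⨅ t : {t : ℝ // 0 < t}, max 1 (r / t) * om t) (max 1 r) := by
      have hq : 0 ≤ r / r' := by positivity
      have hq1 : r / r' ≤ 1 := (div_le_one hr').mpr hrr
      refine le_min (le_ciInf fun t => ?_) ?_
      · have h2 : 0 ≤ om t := zero_le_one.trans (h1 t)
        have h3 : min (⨅ t : {t : ℝ // 0 < t}, max 1 (r' / t) * om t) (max 1 r') ≤
            max 1 (r' / t) * om t := (min_le_left _ _).trans (ciInf_le (hb r') t)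
        calc _ ≤ r / r' * (max 1 (r' / t) * om t) := mul_le_mul_of_nonneg_left h3 hq
          _ = (r / r' * max 1 (r' / t)) * om t := by ring
          _ ≤ max 1 (r / t) * om t := by
            refine mul_le_mul_of_nonneg_right ?_ h2
            rw [mul_max_of_nonneg _ _ hq, mul_one]
            refine max_le_max hq1 (le_of_eq ?_)
            field_simp
      · calc _ ≤ r / r' * max 1 r' := mul_le_mul_of_nonneg_left (min_le_right _ _) hq
          _ ≤ max 1 r := by
            rw [mul_max_of_nonneg _ _ hq, mul_one]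
            refine max_le_max hq1 (le_of_eq ?_)
            field_simp
    have h4 := mul_le_mul_of_nonneg_left key hr'.le
    rw [← mul_assoc, mul_div_cancel₀ _ hr'.ne'] at h4
    exact h4
  · refine (min_le_left _ _).trans ((ciInf_le (hb r) ⟨r, hr⟩).trans ?_)
    show max 1 (r / r) * om r ≤ om r
    rw [div_self hr.ne', max_self, one_mul]

/-- the slope of the weight -/
def sw (m : ℝ → ℝ) (T r : ℝ) : ℝ :=
  if r ≤ T then m r else r * min 1 (m T / T * (Real.log r / Real.log T))

/-- the weight -/
def pw (m : ℝ → ℝ) (T r : ℝ) : ℝ := ∫ t in (0 : ℝ)..r, sw m T t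

theorem log_three : 1 ≤ Real.log 3 := by
  rw [Real.le_log_iff_exp_le (by norm_num)]
  exact (Real.exp_one_lt_d9.trans (by norm_num)).le

theorem log_ge {r : ℝ} (hr : 3 ≤ r) : 1 ≤ Real.log r :=
  log_three.trans (Real.log_le_log (by norm_num) hr)

variable {m : ℝ → ℝ} {T : ℝ}

theorem m_le_sw (hm : Wm m) (hT : 3 ≤ T) {r : ℝ} (hr : 0 < r) : m r ≤ sw m T r := by
  unfold sw
  by_cases h : r ≤ T
  · rw [if_pos h]
  · rw [if_neg h]
    have h' : T < r := not_le.mp h
    have hT0 : 0 < T := by linarith
    have hlT : 0 < Real.log T := by linarith [log_ge hT]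
    have h1 : m r ≤ r := hm.lin r (by linarith)
    have h2 : m r ≤ r * (m T / T) := by
      have := hm.conc T r hT0 h'.le
      rw [mul_div_assoc', le_div_iff₀ hT0]
      linarith
    have h3 : 1 ≤ Real.log r / Real.log T := by
      rw [one_le_div hlT]
      exact Real.log_le_log hT0 h'.le
    have h4 : 0 ≤ m T / T := by have := hm.one T; positivity
    rw [mul_min_of_nonneg _ _ hr.le, mul_one]
    refine le_min h1 (h2.trans ?_)
    refine mul_le_mul_of_nonneg_left ?_ hr.le
    exact le_mul_of_one_le_right h4 h3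

theorem one_le_sw (hm : Wm m) (hT : 3 ≤ T) {r : ℝ} (hr : 0 < r) : 1 ≤ sw m T r :=
  (hm.one r).trans (m_le_sw hm hT hr)

theorem sw_le (hm : Wm m) (hT : 3 ≤ T) {r : ℝ} (hr : 1 ≤ r) : sw m T r ≤ r := by
  unfold sw
  by_cases h : r ≤ T
  · rw [if_pos h]
    exact hm.lin r hr
  · rw [if_neg h]
    exact (mul_le_mul_of_nonneg_left (min_le_left _ _) (by linarith)).trans_eq (mul_one r)

theorem sw_mono (hm : Wm m) (hT : 3 ≤ T) : Monotone (sw m T) := by
  intro r r' hrr
  have hT0 : 0 < T := by linarith
  have hlT : 0 < Real.log T := by linarith [log_ge hT]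
  have h4 : 0 ≤ m T / T := by have := hm.one T; positivity
  by_cases h' : r' ≤ T
  · have h : r ≤ T := hrr.trans h'
    unfold sw
    rw [if_pos h, if_pos h']
    exact hm.mono hrr
  · have h'' : T < r' := not_le.mp h'
    by_cases h : r ≤ T
    · have h1 : sw m T r = m r := by unfold sw; rw [if_pos h]
      rw [h1]
      refine (hm.mono h).trans ?_
      exact (hm.mono h''.le).trans (m_le_sw hm hT (by linarith))
    · have h3 : T < r := not_le.mp h
      unfold sw
      rw [if_neg h, if_neg h']
      have hr0 : 0 < r := by linarith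
      refine mul_le_mul hrr (min_le_min le_rfl ?_) ?_ (by linarith)
      · refine mul_le_mul_of_nonneg_left ?_ h4
        exact div_le_div_of_nonneg_right (Real.log_le_log hr0 hrr) hlT.le
      · refine le_min zero_le_one (mul_nonneg h4 (div_nonneg ?_ hlT.le))
        exact Real.log_nonneg (by linarith)

/-- `sw r / (r log r)` is nonincreasing -/
theorem sw_log (hm : Wm m) (hT : 3 ≤ T) {r r' : ℝ} (hr : 1 < r) (hrr : r ≤ r') :
    sw m T r' * r * Real.log r ≤ sw m T r * r' * Real.log r' := by
  have hT0 : 0 < T := by linarith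
  have hlT : 0 < Real.log T := by linarith [log_ge hT]
  have hr0 : 0 < r := by linarith
  have hr0' : 0 < r' := by linarith
  have hl : 0 < Real.log r := Real.log_pos hr
  have hll : Real.log r ≤ Real.log r' := Real.log_le_log hr0 hrr
  have hl' : 0 < Real.log r' := lt_of_lt_of_le hl hll
  by_cases h' : r' ≤ T
  · have h : r ≤ T := hrr.trans h'
    unfold sw
    rw [if_pos h, if_pos h']
    have h1 := hm.conc r r' hr0 hrr
    have h2 := hm.one r
    have h3 := hm.one r'
    calc m r' * r * Real.log r = (r * m r') * Real.log r := by ring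
      _ ≤ (r' * m r) * Real.log r' := mul_le_mul h1 hll hl.le (by positivity)
      _ = m r * r' * Real.log r' := by ring
  · have h'' : T < r' := not_le.mp h'
    obtain ⟨a, ha⟩ : ∃ a : ℝ, a = m T / T / Real.log T := ⟨_, rfl⟩
    have ha0 : 0 ≤ a := by rw [ha]; have := hm.one T; positivity
    have e1 : ∀ x : ℝ, m T / T * (Real.log x / Real.log T) = a * Real.log x := by
      intro x
      rw [ha]
      field_simp
    have e2 : sw m T r' = r' * min 1 (a * Real.log r') := by
      unfold sw
      rw [if_neg h', e1]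
    by_cases h : r ≤ T
    · have e3 : sw m T r = m r := by unfold sw; rw [if_pos h]
      rw [e2, e3]
      have h1 := hm.conc r T hr0 h
      have h2 : Real.log r ≤ Real.log T := Real.log_le_log hr0 h
      have h3 := hm.one r
      have h5 := hm.one T
      have h4 : a * r * Real.log r ≤ m r := by
        have h6 : a * r * Real.log r = (r * m T) * Real.log r / (T * Real.log T) := by
          rw [ha]
          field_simp
        rw [h6, div_le_iff₀ (by positivity)]
        calc (r * m T) * Real.log r ≤ (T * m r) * Real.log T :=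
              mul_le_mul h1 h2 hl.le (by positivity)
          _ = m r * (T * Real.log T) := by ring
      calc r' * min 1 (a * Real.log r') * r * Real.log r
          ≤ r' * (a * Real.log r') * r * Real.log r := by
            gcongr
            exact min_le_right _ _
        _ = (a * r * Real.log r) * (r' * Real.log r') := by ring
        _ ≤ m r * (r' * Real.log r') := mul_le_mul_of_nonneg_right h4 (by positivity)
        _ = m r * r' * Real.log r' := by ring
    · have e3 : sw m T r = r * min 1 (a * Real.log r) := by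
        unfold sw
        rw [if_neg h, e1]
      rw [e2, e3]
      have h5 : min 1 (a * Real.log r') * Real.log r ≤ min 1 (a * Real.log r) * Real.log r' := by
        rw [min_mul_of_nonneg _ _ hl.le, min_mul_of_nonneg _ _ hl'.le, one_mul, one_mul]
        refine min_le_min hll (le_of_eq ?_)
        ring
      calc r' * min 1 (a * Real.log r') * r * Real.log r
          = (r * r') * (min 1 (a * Real.log r') * Real.log r) := by ring
        _ ≤ (r * r') * (min 1 (a * Real.log r) * Real.log r') :=
            mul_le_mul_of_nonneg_left h5 (by positivity)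
        _ = r * min 1 (a * Real.log r) * r' * Real.log r' := by ring

theorem sw_int (hm : Wm m) (hT : 3 ≤ T) (a b : ℝ) :
    IntervalIntegrable (sw m T) MeasureTheory.volume a b :=
  (sw_mono hm hT).intervalIntegrable

theorem pw_sub_eq (hm : Wm m) (hT : 3 ≤ T) (r R : ℝ) :
    pw m T r - pw m T R = ∫ t in R..r, sw m T t := by
  unfold pw
  exact intervalIntegral.integral_interval_sub_left (sw_int hm hT 0 r) (sw_int hm hT 0 R)

theorem pw_mono (hm : Wm m) (hT : 3 ≤ T) {r r' : ℝ} (hr : 0 ≤ r) (hrr : r ≤ r') :
    pw m T r ≤ pw m T r' := by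
  have h1 := pw_sub_eq hm hT r' r
  have h2 : 0 ≤ ∫ t in r..r', sw m T t := by
    refine intervalIntegral.integral_nonneg_of_ae_restrict hrr ?_
    rw [Filter.EventuallyLE, MeasureTheory.ae_restrict_iff' measurableSet_Icc]
    have h3 : ∀ᵐ t : ℝ ∂MeasureTheory.volume, t ≠ 0 := by
      rw [MeasureTheory.ae_iff]
      simp
    filter_upwards [h3] with t ht htI
    have : 0 < t := lt_of_le_of_ne (hr.trans htI.1) (Ne.symm ht)
    exact zero_le_one.trans (one_le_sw hm hT this)
  linarith

theorem pw_nonneg (hm : Wm m) (hT : 3 ≤ T) {r : ℝ} (hr : 0 ≤ r) : 0 ≤ pw m T r := by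
  have h1 := pw_mono hm hT le_rfl hr
  have h2 : pw m T 0 = 0 := by unfold pw; simp
  linarith

theorem pw_gauss (hm : Wm m) (hT : 3 ≤ T) : ∃ C : ℝ, ∀ r, 0 ≤ r → r ^ 2 / 2 - C ≤ pw m T r := by
  have hT0 : 0 < T := by linarith
  have hlT : 0 < Real.log T := by linarith [log_ge hT]
  obtain ⟨A, hA⟩ : ∃ A : ℝ, A = Real.exp (T * Real.log T) := ⟨_, rfl⟩
  have hAT : T ≤ A := by
    rw [hA]
    calc T = Real.exp (Real.log T) := (Real.exp_log hT0).symm
      _ ≤ Real.exp (T * Real.log T) := Real.exp_le_exp.mpr (by nlinarith)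
  have hsw : ∀ r, A ≤ r → r ≤ sw m T r := by
    intro r hr
    have hr0 : 0 < r := by linarith
    by_cases h : r ≤ T
    · have h1 : r = T := le_antisymm h (hAT.trans hr)
      have h2 : A = T := le_antisymm (by linarith) hAT
      exfalso
      have h3 : Real.log A = T * Real.log T := by rw [hA, Real.log_exp]
      rw [h2] at h3
      nlinarith
    · unfold sw
      rw [if_neg h]
      have h1 : 1 ≤ m T / T * (Real.log r / Real.log T) := by
        have h2 : T * Real.log T ≤ Real.log r := by
          rw [Real.le_log_iff_exp_le hr0, ← hA]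
          exact hr
        have h3 : 1 / T ≤ m T / T := div_le_div_of_nonneg_right (hm.one T) hT0.le
        have h4 : T ≤ Real.log r / Real.log T := by
          rw [le_div_iff₀ hlT]
          exact h2
        calc (1 : ℝ) = 1 / T * T := by field_simp
          _ ≤ m T / T * (Real.log r / Real.log T) :=
            mul_le_mul h3 h4 hT0.le (le_trans (by positivity) h3)
      rw [min_eq_left h1, mul_one]
  refine ⟨A ^ 2 / 2, fun r hr => ?_⟩
  by_cases h : r ≤ A
  · have h1 := pw_nonneg hm hT hr
    have h2 : r ^ 2 ≤ A ^ 2 := pow_le_pow_left₀ hr h 2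
    linarith
  · have h' : A ≤ r := (not_le.mp h).le
    have h1 := pw_sub_eq hm hT r A
    have h2 : (∫ t in A..r, t) ≤ ∫ t in A..r, sw m T t :=
      intervalIntegral.integral_mono_on h' (continuous_id.intervalIntegrable _ _) (sw_int hm hT A r)
        fun t ht => hsw t ht.1
    rw [integral_id] at h2
    have h3 := pw_nonneg hm hT (r := A) (by linarith)
    linarith

theorem pw_le (hm : Wm m) (hT : 3 ≤ T) {r : ℝ} (hr : 0 ≤ r) (hrT : r ≤ T) :
    pw m T r ≤ r * m r := by
  have h1 : (∫ t in (0 : ℝ)..r, sw m T t) ≤ ∫ _ in (0 : ℝ)..r, m r := by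
    refine intervalIntegral.integral_mono_on hr (sw_int hm hT 0 r) (by simp) fun t ht => ?_
    have h2 : sw m T t = m t := by unfold sw; rw [if_pos (ht.2.trans hrT)]
    rw [h2]
    exact hm.mono ht.2
  rw [intervalIntegral.integral_const, sub_zero, smul_eq_mul] at h1
  exact h1

theorem pw_phi (q L R r : ℝ) :
    ∫ t in R..r, q * (t + 2 * (t - R) / L) = q * ((r ^ 2 - R ^ 2) / 2 + (r - R) ^ 2 / L) := by
  have h1 : ∀ t ∈ Set.uIcc R r, HasDerivAt (fun t => q * (t ^ 2 / 2 + (t - R) ^ 2 / L))
      (q * (t + 2 * (t - R) / L)) t := by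
    intro t _
    have h2 : HasDerivAt (fun t : ℝ => t ^ 2 / 2) t t := by
      have := (hasDerivAt_pow 2 t).div_const 2
      simpa using this
    have h3 : HasDerivAt (fun t : ℝ => (t - R) ^ 2 / L) (2 * (t - R) / L) t := by
      have := (((hasDerivAt_id t).sub_const R).pow 2).div_const L
      simpa using this
    exact (h2.add h3).const_mul q
  have h4 : Continuous fun t : ℝ => q * (t + 2 * (t - R) / L) := by fun_prop
  rw [intervalIntegral.integral_eq_sub_of_hasDerivAt h1 (h4.intervalIntegrable _ _)]
  ring

theorem pw_sub (hm : Wm m) (hT : 3 ≤ T) {r R : ℝ} (hR : 8 ≤ R) (hr : |r - R| ≤ R / 10) :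
    pw m T r - pw m T R ≤
      sw m T R / R * ((r ^ 2 - R ^ 2) / 2 + (r - R) ^ 2 / Real.log R) := by
  have hR0 : 0 < R := by linarith
  have hL : 1 ≤ Real.log R := log_ge (by linarith)
  have hL0 : 0 < Real.log R := by linarith
  have hs0 : 0 < sw m T R := by linarith [one_le_sw hm hT hR0]
  rw [abs_le] at hr
  have hup : ∀ t, R ≤ t → t ≤ 2 * R →
      sw m T t ≤ sw m T R / R * (t + 2 * (t - R) / Real.log R) := by
    intro t ht ht2
    have ht0 : 0 < t := by linarith
    have h1 := sw_log hm hT (by linarith) ht
    have h2 : Real.log t ≤ Real.log R + (t / R - 1) := by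
      have h3 : Real.log (t / R) ≤ t / R - 1 := Real.log_le_sub_one_of_pos (by positivity)
      rw [Real.log_div ht0.ne' hR0.ne'] at h3
      linarith
    have h4 : sw m T t ≤ sw m T R / R * (t * Real.log t / Real.log R) := by
      have h5 : sw m T R / R * (t * Real.log t / Real.log R) =
          sw m T R * t * Real.log t / (R * Real.log R) := by field_simp
      rw [h5, le_div_iff₀ (by positivity)]
      linarith
    refine h4.trans (mul_le_mul_of_nonneg_left ?_ (by positivity))
    rw [div_le_iff₀ hL0, add_mul, div_mul_cancel₀ _ hL0.ne']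
    calc t * Real.log t ≤ t * (Real.log R + (t / R - 1)) :=
          mul_le_mul_of_nonneg_left h2 ht0.le
      _ = t * Real.log R + t / R * (t - R) := by field_simp
      _ ≤ t * Real.log R + 2 * (t - R) := by
          have h6 : t / R ≤ 2 := by rw [div_le_iff₀ hR0]; linarith
          have := mul_le_mul_of_nonneg_right h6 (sub_nonneg.mpr ht)
          linarith
  have hlow : ∀ t, 1 < t → t ≤ R →
      sw m T R / R * (t + 2 * (t - R) / Real.log R) ≤ sw m T t := by
    intro t ht ht2
    have ht0 : 0 < t := by linarith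
    have h1 := sw_log hm hT ht ht2
    have h2 : Real.log R ≤ Real.log t + (R / t - 1) := by
      have h3 : Real.log (R / t) ≤ R / t - 1 := Real.log_le_sub_one_of_pos (by positivity)
      rw [Real.log_div hR0.ne' ht0.ne'] at h3
      linarith
    have h4 : sw m T R / R * (t * Real.log t / Real.log R) ≤ sw m T t := by
      have h5 : sw m T R / R * (t * Real.log t / Real.log R) =
          sw m T R * t * Real.log t / (R * Real.log R) := by field_simp
      rw [h5, div_le_iff₀ (by positivity)]
      linarith
    refine le_trans (mul_le_mul_of_nonneg_left ?_ (by positivity)) h4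
    rw [le_div_iff₀ hL0, add_mul, div_mul_cancel₀ _ hL0.ne']
    have h7 : t * Real.log R ≤ t * Real.log t + (R - t) := by
      calc t * Real.log R ≤ t * (Real.log t + (R / t - 1)) :=
            mul_le_mul_of_nonneg_left h2 ht0.le
        _ = t * Real.log t + (R - t) := by field_simp
    linarith
  have hcont : Continuous fun t : ℝ => sw m T R / R * (t + 2 * (t - R) / Real.log R) := by
    fun_prop
  rw [pw_sub_eq hm hT, ← pw_phi]
  by_cases h : R ≤ r
  · exact intervalIntegral.integral_mono_on h (sw_int hm hT R r) (hcont.intervalIntegrable _ _)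
      fun t ht => hup t ht.1 (by linarith [ht.2])
  · have h' : r ≤ R := (not_le.mp h).le
    rw [intervalIntegral.integral_symm, intervalIntegral.integral_symm r R]
    refine neg_le_neg ?_
    exact intervalIntegral.integral_mono_on h' (hcont.intervalIntegrable _ _)
      (sw_int hm hT r R) fun t ht => hlow t (by linarith [ht.1]) ht.2

theorem pw_low (hm : Wm m) (hT : 3 ≤ T) {R : ℝ} (hR : 8 ≤ R) :
    1 / 4 * (R * sw m T R) ≤ pw m T R := by
  have hR0 : 0 < R := by linarith
  have hL : 1 ≤ Real.log R := log_ge (by linarith)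
  have hL0 : 0 < Real.log R := by linarith
  have hs0 : 0 < sw m T R := by linarith [one_le_sw hm hT hR0]
  have h1 := pw_sub_eq hm hT R (R / 2)
  have h2 := pw_nonneg hm hT (r := R / 2) (by linarith)
  have hlog : 2 / 3 * Real.log R ≤ Real.log (R / 2) := by
    have h3 : Real.log (R ^ 2) ≤ Real.log ((R / 2) ^ 3) := by
      refine Real.log_le_log (by positivity) ?_
      have : (R / 2) ^ 3 = R ^ 2 * (R / 8) := by ring
      rw [this]
      have h8 : 1 ≤ R / 8 := by linarith
      exact le_mul_of_one_le_right (by positivity) h8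
    rw [Real.log_pow, Real.log_pow] at h3
    push_cast at h3
    linarith
  have h3 : (∫ t in (R / 2)..R, sw m T R / R * (2 / 3) * t) ≤ ∫ t in (R / 2)..R, sw m T t := by
    refine intervalIntegral.integral_mono_on (by linarith)
      ((continuous_const.mul continuous_id).intervalIntegrable _ _) (sw_int hm hT _ _)
      fun t ht => ?_
    have ht1 : 1 < t := by linarith [ht.1]
    have ht0 : 0 < t := by linarith
    have h4 := sw_log hm hT ht1 ht.2
    have h5 : 2 / 3 * Real.log R ≤ Real.log t :=
      hlog.trans (Real.log_le_log (by linarith) ht.1)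
    have h6 : sw m T R / R * (2 / 3) * t =
        sw m T R * t * (2 / 3 * Real.log R) / (R * Real.log R) := by field_simp
    rw [h6, div_le_iff₀ (by positivity)]
    calc sw m T R * t * (2 / 3 * Real.log R) ≤ sw m T R * t * Real.log t :=
          mul_le_mul_of_nonneg_left h5 (by positivity)
      _ ≤ sw m T t * R * Real.log R := h4
      _ = sw m T t * (R * Real.log R) := by ring
  rw [intervalIntegral.integral_const_mul, integral_id] at h3
  have h4 : sw m T R / R * (2 / 3) * ((R ^ 2 - (R / 2) ^ 2) / 2) = 1 / 4 * (R * sw m T R) := by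
    field_simp
    ring
  rw [h4] at h3
  linarith

end Pool.Agent.H51.BJ
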