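import Pool.Agent.H51.BJ.Defs

/-! # [H51 BJ SLN] The euclidean norm `nr` and the hermitian product `hp` -/

set_option autoImplicit false

open MvPolynomial Filter Pool.Agent.H60 Pool.Agent.H57.BJ
open scoped Topology

noncomputable section

namespace Pool.Agent.H51.BJ

variable {n : ℕ}

theorem sln_Nn_nonneg (z : V n) : 0 ≤ Nn z := Finset.sum_nonneg fun _ _ => sq_nonneg _

theorem sln_nonneg (z : V n) : 0 ≤ nr z := Real.sqrt_nonneg _

theorem sln_sq (z : V n) : nr z ^ 2 = Nn z := Real.sq_sqrt (sln_Nn_nonneg z)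

theorem sln_eq (z : V n) : nr z = ‖(WithLp.toLp 2 z : EuclideanSpace ℂ (Fin n))‖ := by
  rw [EuclideanSpace.norm_eq]
  rfl

theorem sln_add (x y : V n) : nr (x + y) ≤ nr x + nr y := by
  rw [sln_eq, sln_eq, sln_eq, WithLp.toLp_add]
  exact norm_add_le _ _

theorem sln_neg (x : V n) : nr (-x) = nr x := by
  rw [sln_eq, sln_eq, WithLp.toLp_neg, norm_neg]

theorem sln_abs (x y : V n) : |nr (x + y) - nr x| ≤ nr y := by
  rw [abs_le]
  constructor
  · have h1 := sln_add (x + y) (-y)
    rw [add_neg_cancel_right, sln_neg] at h1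
    linarith
  · linarith [sln_add x y]

theorem sln_norm_le (z : V n) : ‖z‖ ≤ nr z := by
  refine (pi_norm_le_iff_of_nonneg (sln_nonneg z)).mpr fun i => ?_
  refine Real.le_sqrt_of_sq_le ?_
  exact Finset.single_le_sum (f := fun j => ‖z j‖ ^ 2) (fun _ _ => sq_nonneg _)
    (Finset.mem_univ i)

theorem sln_smul (c : ℂ) (z : V n) : nr (c • z) = ‖c‖ * nr z := by
  rw [sln_eq, sln_eq, WithLp.toLp_smul, norm_smul]

theorem sln_Nn_add (x y : V n) : Nn (x + y) = Nn x + 2 * (hp y x).re + Nn y := by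
  unfold Nn hp
  rw [Complex.re_sum, Finset.mul_sum, ← Finset.sum_add_distrib, ← Finset.sum_add_distrib]
  refine Finset.sum_congr rfl fun i _ => ?_
  rw [Pi.add_apply, Complex.sq_norm, Complex.sq_norm, Complex.sq_norm, Complex.normSq_add]
  have h1 : (x i * (starRingEnd ℂ) (y i)).re = (y i * (starRingEnd ℂ) (x i)).re := by
    simp only [Complex.mul_re, Complex.conj_re, Complex.conj_im]
    ring
  rw [h1]
  ring

theorem sln_hp_smul (c : ℝ) (x y : V n) : (hp x ((c : ℂ) • y)).re = c * (hp x y).re := by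
  unfold hp
  rw [Complex.re_sum, Complex.re_sum, Finset.mul_sum]
  refine Finset.sum_congr rfl fun i _ => ?_
  rw [Pi.smul_apply, smul_eq_mul, map_mul, Complex.conj_ofReal]
  have h1 : x i * ((c : ℂ) * (starRingEnd ℂ) (y i)) = (c : ℂ) * (x i * (starRingEnd ℂ) (y i)) := by
    ring
  rw [h1, Complex.re_ofReal_mul]

end Pool.Agent.H51.BJ
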