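import Pool.Agent.H51.BJ.SLD
import Pool.Agent.H51.BJ.SLM
import Pool.Agent.H51.BJ.SLN
import Pool.Agent.H51.BJ.SLG

/-! # [H51 BJ SLW] If the Fock solutions are not slow there is an initial state

Proofs id 313, Section 0 (weights `ψ_T`) and (INITIAL STATE) of Section 1. From the failure: `om`,
`ρ`, `C0`, for every `j` some `a_j`, `h_j` and a point where `|P h_j| > (j+1) exp (nr z om (nr z))`. Choose
`T_j ≥ 3` and larger than this point, `S_j = sup |P h_j| e^{-ψ_{T_j}} ≥ j + 1`, `z_j` with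
`|P h_j (z_j)| ≥ (1/2) S_j e^{ψ(z_j)}`, `κ_j = s(nr z_j) z_j / nr z_j`, `ζ_0 = lim z_j / nr z_j` along `UF`,
`b j l = R^{1-l} R'^l`, `c j l = b j l • ζ_0`. -/

set_option autoImplicit false

open MvPolynomial Filter Pool.Agent.H60 Pool.Agent.H57.BJ
open scoped Topology

noncomputable section

namespace Pool.Agent.H51.BJ

variable {n : ℕ}

/-- almost maximal points for the weights -/
theorem slw_points {P : MvPolynomial (Fin n) ℂ} {om : ℝ → ℝ} {C0 : ℝ} {m : ℝ → ℝ} (hm : Wm m)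
    (hmo : ∀ r, 0 < r → m r ≤ om r) {h : V n → ℂ}
    (hF : ∀ z, ‖ev P z * h z‖ ≤ C0 * Real.exp (Nn z / 2)) {j : ℝ} (hj : 0 ≤ j) {y : V n}
    (hy : (j + 1) * Real.exp (nr y * om (nr y)) < ‖ev P y * h y‖) :
    ∃ (T : ℝ) (z : V n), 3 ≤ T ∧
      (∀ x, ‖ev P x * h x‖ ≤ 2 * ‖ev P z * h z‖ * Real.exp (pw m T (nr x) - pw m T (nr z))) ∧
      (j + 1) / 2 * Real.exp (pw m T (nr z)) ≤ ‖ev P z * h z‖ := by
  obtain ⟨T, hT⟩ : ∃ T : ℝ, T = max 3 (nr y) := ⟨_, rfl⟩
  have hT3 : 3 ≤ T := by rw [hT]; exact le_max_left _ _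
  have hTy : nr y ≤ T := by rw [hT]; exact le_max_right _ _
  obtain ⟨C, hC⟩ := pw_gauss hm hT3
  have hC0 : 0 ≤ C0 := by
    have h1 := (norm_nonneg _).trans (hF y)
    exact nonneg_of_mul_nonneg_left h1 (Real.exp_pos _)
  obtain ⟨G, hG⟩ : ∃ G : V n → ℝ, G = fun x => ‖ev P x * h x‖ * Real.exp (-pw m T (nr x)) :=
    ⟨_, rfl⟩
  have hbd : BddAbove (Set.range G) := by
    refine ⟨C0 * Real.exp C, ?_⟩
    rintro _ ⟨x, rfl⟩
    rw [hG]
    have h1 := hC (nr x) (sln_nonneg x)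
    rw [sln_sq] at h1
    calc ‖ev P x * h x‖ * Real.exp (-pw m T (nr x))
        ≤ C0 * Real.exp (Nn x / 2) * Real.exp (-pw m T (nr x)) :=
          mul_le_mul_of_nonneg_right (hF x) (Real.exp_pos _).le
      _ = C0 * Real.exp (Nn x / 2 - pw m T (nr x)) := by
          rw [mul_assoc, ← Real.exp_add, sub_eq_add_neg]
      _ ≤ C0 * Real.exp C :=
          mul_le_mul_of_nonneg_left (Real.exp_le_exp.mpr (by linarith)) hC0
  have hyS : j + 1 < G y := by
    have h1 : pw m T (nr y) ≤ nr y * om (nr y) := by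
      rcases (sln_nonneg y).eq_or_lt with h0 | h0
      · rw [← h0]
        simp [pw]
      · exact (pw_le hm hT3 h0.le hTy).trans (mul_le_mul_of_nonneg_left (hmo _ h0) h0.le)
    have h2 : (j + 1) * Real.exp (pw m T (nr y)) < ‖ev P y * h y‖ :=
      lt_of_le_of_lt (mul_le_mul_of_nonneg_left (Real.exp_le_exp.mpr h1) (by linarith)) hy
    rw [hG]
    show j + 1 < ‖ev P y * h y‖ * Real.exp (-pw m T (nr y))
    rw [Real.exp_neg, ← div_eq_mul_inv, lt_div_iff₀ (Real.exp_pos _)]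
    exact h2
  obtain ⟨S, hS⟩ : ∃ S : ℝ, S = ⨆ x, G x := ⟨_, rfl⟩
  have hSG : ∀ x, G x ≤ S := fun x => by rw [hS]; exact le_ciSup hbd x
  have hSj : j + 1 < S := lt_of_lt_of_le hyS (hSG y)
  have hS0 : 0 < S := by linarith
  obtain ⟨z, hz⟩ : ∃ z, S / 2 < G z := by
    rw [hS]
    refine exists_lt_of_lt_ciSup ?_
    rw [← hS]
    linarith
  have e1 : ∀ x, ‖ev P x * h x‖ = G x * Real.exp (pw m T (nr x)) := by
    intro x
    rw [hG]
    show ‖ev P x * h x‖ = ‖ev P x * h x‖ * Real.exp (-pw m T (nr x)) * Real.exp (pw m T (nr x))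
    rw [mul_assoc, ← Real.exp_add, neg_add_cancel, Real.exp_zero, mul_one]
  refine ⟨T, z, hT3, fun x => ?_, ?_⟩
  · rw [e1 x, e1 z]
    have h1 : G x ≤ 2 * G z := by linarith [hSG x]
    calc G x * Real.exp (pw m T (nr x)) ≤ 2 * G z * Real.exp (pw m T (nr x)) :=
          mul_le_mul_of_nonneg_right h1 (Real.exp_pos _).le
      _ = 2 * (G z * Real.exp (pw m T (nr z))) *
          Real.exp (pw m T (nr x) - pw m T (nr z)) := by
          rw [sub_eq_add_neg, Real.exp_add, Real.exp_neg]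
          field_simp
  · rw [e1 z]
    refine mul_le_mul_of_nonneg_right ?_ (Real.exp_pos _).le
    linarith

theorem slw_tendsto {x : ℕ → ℝ} {C0 : ℝ}
    (h : ∀ j : ℕ, ((j : ℝ) + 1) / 2 ≤ C0 * Real.exp (x j ^ 2 / 2)) (h0 : ∀ j, 0 ≤ x j) :
    Tendsto x atTop atTop := by
  rw [tendsto_atTop]
  intro K
  obtain ⟨j₀, hj₀⟩ := exists_nat_gt (2 * (|C0| * Real.exp (K ^ 2 / 2)))
  filter_upwards [eventually_ge_atTop j₀] with j hj
  by_contra hcon
  have h1 : x j < K := not_le.mp hcon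
  have h2 : x j ^ 2 ≤ K ^ 2 := pow_le_pow_left₀ (h0 j) h1.le 2
  have h3 : C0 * Real.exp (x j ^ 2 / 2) ≤ |C0| * Real.exp (K ^ 2 / 2) :=
    mul_le_mul (le_abs_self _) (Real.exp_le_exp.mpr (by linarith)) (Real.exp_pos _).le
      (abs_nonneg _)
  have h4 : (j₀ : ℝ) ≤ j := by exact_mod_cast hj
  have h5 := h j
  linarith

theorem slow_of_no_state {P : MvPolynomial (Fin n) ℂ} (hP : P ≠ 0)
    (hns : ∀ (h : ℕ → V n → ℂ) (g : Germ n) (z κ : ℕ → V n), Dat P h → ¬ St (FF P h) g z κ) :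
    Slow P := by
  intro om hmono htop h1 ρ C0
  by_contra hcon
  push Not at hcon
  choose a v h ha hF y hy using fun j : ℕ => hcon ((j : ℝ) + 1)
  obtain ⟨m, hm, hmo⟩ := exists_m hmono htop h1
  choose T z hT hmax hlow using fun j : ℕ =>
    slw_points (P := P) hm hmo (hF j).fock (Nat.cast_nonneg j) (hy j)
  -- the data
  have hDat : Dat P h := by
    refine ⟨hP, fun j => (hF j).diff, (n : ℝ) * ρ, fun j x => ?_⟩
    rw [(hF j).eqn x, Complex.norm_exp]
    refine Real.exp_le_exp.mpr ?_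
    have hρ : 0 ≤ ρ := (norm_nonneg _).trans (ha j)
    calc (∑ i, x i * (starRingEnd ℂ) (a j i)).re
        ≤ ‖∑ i, x i * (starRingEnd ℂ) (a j i)‖ := Complex.re_le_norm _
      _ ≤ ∑ i, ‖x i * (starRingEnd ℂ) (a j i)‖ := norm_sum_le _ _
      _ ≤ ∑ _i : Fin n, ρ * nr x := by
          refine Finset.sum_le_sum fun i _ => ?_
          rw [norm_mul, RCLike.norm_conj, mul_comm]
          exact mul_le_mul ((norm_le_pi_norm (a j) i).trans (ha j))
            ((norm_le_pi_norm x i).trans (sln_norm_le x)) (norm_nonneg _) hρ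
      _ = (n : ℝ) * ρ * nr x := by
          rw [Finset.sum_const, Finset.card_univ, Fintype.card_fin, nsmul_eq_mul]
          ring
  -- the points tend to infinity
  have hzt' : Tendsto (fun j => nr (z j)) atTop atTop := by
    refine slw_tendsto (C0 := C0) (fun j => ?_) fun j => sln_nonneg _
    have e1 : (1 : ℝ) ≤ Real.exp (pw m (T j) (nr (z j))) :=
      Real.one_le_exp (pw_nonneg hm (hT j) (sln_nonneg _))
    calc ((j : ℝ) + 1) / 2 = ((j : ℝ) + 1) / 2 * 1 := (mul_one _).symm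
      _ ≤ ((j : ℝ) + 1) / 2 * Real.exp (pw m (T j) (nr (z j))) :=
          mul_le_mul_of_nonneg_left e1 (by positivity)
      _ ≤ ‖ev P (z j) * h j (z j)‖ := hlow j
      _ ≤ C0 * Real.exp (nr (z j) ^ 2 / 2) := by
          rw [sln_sq]
          exact (hF j).fock (z j)
  have hUF : UF ≤ atTop := Nat.hyperfilter_le_atTop
  have hzt : Tendsto (fun j => nr (z j)) UF atTop := hzt'.mono_left hUF
  obtain ⟨R, hR⟩ : ∃ R : ℕ → ℝ, R = fun j => max (nr (z j)) 8 := ⟨_, rfl⟩
  have hR8 : ∀ j, 8 ≤ R j := fun j => by rw [hR]; exact le_max_right _ _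
  have hRz : ∀ᶠ j in UF, R j = nr (z j) := by
    filter_upwards [hzt.eventually_ge_atTop 8] with j hj
    rw [hR]
    exact max_eq_left hj
  have hRt : Tendsto R UF atTop := by
    rw [hR]
    exact tendsto_atTop_mono (fun j => le_max_left _ _) hzt
  obtain ⟨R', hR'⟩ : ∃ R' : ℕ → ℝ, R' = fun j => sw m (T j) (R j) := ⟨_, rfl⟩
  have hR'1 : ∀ j, 1 ≤ R' j := fun j => by
    rw [hR']
    exact one_le_sw hm (hT j) (by linarith [hR8 j])
  have hR'R : ∀ j, R' j ≤ R j := fun j => by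
    rw [hR']
    exact sw_le hm (hT j) (by linarith [hR8 j])
  have hR't : Tendsto R' UF atTop := by
    refine tendsto_atTop_mono (fun j => ?_) (hm.top.comp hRt)
    rw [hR']
    exact m_le_sw hm (hT j) (by linarith [hR8 j])
  -- the direction
  obtain ⟨ζ, hζ⟩ : ∃ ζ : V n, Tendsto (fun j => (((R j)⁻¹ : ℝ) : ℂ) • z j) UF (𝓝 ζ) := by
    have e1 : (((Filter.hyperfilter ℕ).map (fun j => (((R j)⁻¹ : ℝ) : ℂ) • z j) :
        Ultrafilter (V n)) : Filter (V n)) ≤ Filter.principal (Metric.closedBall (0 : V n) 1) := by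
      rw [Filter.le_principal_iff, Ultrafilter.coe_map, Filter.mem_map]
      refine Filter.Eventually.of_forall fun j => ?_
      rw [mem_closedBall_zero_iff, norm_smul, Complex.norm_real, Real.norm_eq_abs,
        abs_of_nonneg (inv_nonneg.mpr (by linarith [hR8 j])),
        inv_mul_le_iff₀ (by linarith [hR8 j]), mul_one]
      refine (sln_norm_le (z j)).trans ?_
      rw [hR]
      exact le_max_left _ _
    obtain ⟨x, -, hx⟩ := (isCompact_closedBall (0 : V n) 1).ultrafilter_le_nhds _ e1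
    exact ⟨x, hx⟩
  have hζ0 : Tendsto (fun j => ‖(((R j)⁻¹ : ℝ) : ℂ) • z j - ζ‖) UF (𝓝 0) := by
    have := (hζ.sub_const ζ).norm
    rwa [sub_self, norm_zero] at this
  obtain ⟨κ, hκ⟩ : ∃ κ : ℕ → V n, κ = fun j => ((R' j / R j : ℝ) : ℂ) • z j := ⟨_, rfl⟩
  have hκz : ∀ᶠ j in UF, nr (κ j) = R' j := by
    filter_upwards [hRz] with j hj
    have hR0 : 0 < R j := by linarith [hR8 j]
    have hR'0 : 0 < R' j := by linarith [hR'1 j]
    rw [hκ]
    show nr (((R' j / R j : ℝ) : ℂ) • z j) = R' j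
    rw [sln_smul, Complex.norm_real, Real.norm_eq_abs, abs_of_pos (div_pos hR'0 hR0), ← hj]
    field_simp
  have hb0 : ∀ j, (ig R R' ζ).b j 0 = R j := ig_zero ζ
  have hb1 : ∀ j, (ig R R' ζ).b j 1 = R' j := ig_one ζ
  refine hns h (ig R R' ζ) z κ hDat ⟨ig_ok hR'1 hR'R hR't ζ, ig_top hR'1 hR'R hR't ζ,
    ⟨?_, ?_, hzt, ?_, ?_, ?_, ?_, ?_, ?_⟩⟩
  · refine hζ0.congr fun j => ?_
    have hR0 : 0 < R j := by linarith [hR8 j]
    rw [ig_c, hb0]
    have e1 : (((R j)⁻¹ : ℝ) : ℂ) • z j - ζ = (((R j)⁻¹ : ℝ) : ℂ) • (z j - ((R j : ℝ) : ℂ) • ζ) := by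
      rw [smul_sub, smul_smul, ← Complex.ofReal_mul, inv_mul_cancel₀ hR0.ne', Complex.ofReal_one,
        one_smul]
    rw [e1, norm_smul, Complex.norm_real, Real.norm_eq_abs, abs_of_pos (inv_pos.mpr hR0),
      inv_mul_eq_div]
  · refine hζ0.congr fun j => ?_
    have hR0 : 0 < R j := by linarith [hR8 j]
    have hR'0 : 0 < R' j := by linarith [hR'1 j]
    rw [ig_c, hb1, hκ]
    have e1 : ((R' j / R j : ℝ) : ℂ) • z j - ((R' j : ℝ) : ℂ) • ζ =
        ((R' j : ℝ) : ℂ) • ((((R j)⁻¹ : ℝ) : ℂ) • z j - ζ) := by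
      rw [smul_sub, smul_smul, ← Complex.ofReal_mul, div_eq_mul_inv]
    show _ = ‖((R' j / R j : ℝ) : ℂ) • z j - ((R' j : ℝ) : ℂ) • ζ‖ / R' j
    rw [e1, norm_smul, Complex.norm_real, Real.norm_eq_abs, abs_of_pos hR'0]
    field_simp
  · refine hR't.congr' ?_
    filter_upwards [hκz] with j hj
    exact hj.symm
  · filter_upwards [hRz] with j hj
    rw [hb0, ← hj]
    linarith [hR8 j]
  · filter_upwards [hκz] with j hj
    rw [hb1, hj]
    linarith [hR'1 j]
  · refine Filter.Eventually.of_forall fun j => ?_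
    rw [hb0, hb1]
    linarith [hR'R j, hR8 j]
  · intro ε hε
    have hlog : ∀ᶠ j in UF, 2 / ε ≤ Real.log (R j) :=
      (Real.tendsto_log_atTop.comp hRt).eventually_ge_atTop _
    filter_upwards [hRz, hlog] with j hj hl s hs
    rw [hb0] at hs
    rw [hb0, hb1]
    have hR0 : 0 < R j := by linarith [hR8 j]
    have hR'0 : 0 < R' j := by linarith [hR'1 j]
    have hl0 : 0 < Real.log (R j) := by linarith [log_ge (r := R j) (by linarith [hR8 j])]
    refine (hmax j (z j + s)).trans ?_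
    refine mul_le_mul_of_nonneg_left ?_ (by positivity)
    refine Real.exp_le_exp.mpr ?_
    have e1 := sln_abs (z j) s
    have e2 := pw_sub hm (hT j) (r := nr (z j + s)) (hR8 j) (by rw [hj]; linarith)
    have e3 : sw m (T j) (R j) = R' j := by rw [hR']
    rw [e3] at e2
    rw [hj] at e2
    refine e2.trans ?_
    rw [sln_sq, sln_sq, sln_Nn_add, ← hj]
    have e4 : (nr (z j + s) - R j) ^ 2 ≤ Nn s := by
      rw [← sln_sq, hj, ← sq_abs]
      exact pow_le_pow_left₀ (abs_nonneg _) e1 2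
    have e5 : (nr (z j + s) - R j) ^ 2 / Real.log (R j) ≤ ε / 2 * Nn s := by
      rw [div_le_iff₀ hl0]
      have e6 : 1 ≤ ε / 2 * Real.log (R j) := by
        have := mul_le_mul_of_nonneg_left hl (show 0 ≤ ε / 2 by linarith)
        have e7 : ε / 2 * (2 / ε) = 1 := by field_simp
        linarith
      have e8 : Nn s * 1 ≤ Nn s * (ε / 2 * Real.log (R j)) :=
        mul_le_mul_of_nonneg_left e6 (sln_Nn_nonneg s)
      linarith
    have e9 : (hp s (κ j)).re = R' j / R j * (hp s (z j)).re := by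
      rw [hκ]
      exact sln_hp_smul _ _ _
    rw [e9]
    have hq : 0 ≤ R' j / R j := by positivity
    have e10 := mul_le_mul_of_nonneg_left e5 hq
    nlinarith [e10]
  · intro ε hε
    filter_upwards [hRz, hκz, hUF (eventually_ge_atTop 1)] with j hj hk hj1
    rw [hk, ← hj]
    have e1 : 1 / 4 * (R j * R' j) ≤ pw m (T j) (R j) := by
      have := pw_low hm (hT j) (hR8 j)
      rw [hR']
      exact this
    have e2 := hlow j
    rw [← hj] at e2
    have e3 : (1 : ℝ) ≤ ((j : ℝ) + 1) / 2 := by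
      have : (1 : ℝ) ≤ j := by exact_mod_cast hj1
      linarith
    have hRR : 0 ≤ R j * R' j := by
      have := hR8 j
      have := hR'1 j
      positivity
    calc Real.exp ((1 / 4 - ε) * (R j * R' j)) ≤ Real.exp (pw m (T j) (R j)) :=
          Real.exp_le_exp.mpr (by nlinarith)
      _ = 1 * Real.exp (pw m (T j) (R j)) := (one_mul _).symm
      _ ≤ ((j : ℝ) + 1) / 2 * Real.exp (pw m (T j) (R j)) :=
          mul_le_mul_of_nonneg_right e3 (Real.exp_pos _).le
      _ ≤ ‖ev P (z j) * h j (z j)‖ := e2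

end Pool.Agent.H51.BJ
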