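import Pool.Agent.H51.BJ.STA
import Pool.Agent.H51.BJ.PRF
import Pool.Agent.H51.BJ.LVA

/-! # [H51 BJ WIN] The profile of a pre-state

Let `G` be the countable set of elements of `ℂ[t]` such that every nonzero element of `ℂ[t]` is comparable with one
of them. Family `ρ`: `ρ_{e,e',k} = (NN e/NN e')^{1/k}` (`e, e' ∈ G`, `k ≥ 1`), `b`, and `1`. Each of them is tame and
the ratios are tame: raise to the product of the exponents and use `HasLim.mul` (products in `ℂ[t]` have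
constant limits, so `NN (f h) ~ const NN f NN h`), `Pre.tame`, `Tame.of_rpow`, `Tame.congr`. For the ratio with `b`:
`(ρ_{e,e',k}/b)^k = (b^k NN e'/NN e)^{-1}`. Continuity: `continuous_NN`. `profile` (PRF) gives `A`.
`window_congr`: if `ρ'/ρ → c > 0` then the window of `ρ` is a window of `ρ'`. So `A` has the windows of all
`(NN f/NN f')^{1/k}` not tending to `0`, `f, f' ∈ ℂ[t]`. Then for `s → ∞` by `profile_tame`:
`A(s)/(NN f'/NN f)^{1/p}` is tame, its `p`-th power is `A(s)^p NN f/NN f'` (`p ≥ 1`; `p = 0` is `Pre.tame`). -/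

set_option autoImplicit false

open MvPolynomial Filter Pool.Agent.H60 Pool.Agent.H57.BJ
open scoped Topology

noncomputable section

namespace Pool.Agent.H51.BJ

variable {n : ℕ} {F : ℕ → V n → ℂ} {W : Finset (Fin n)} {g : Germ n} {z κ : ℕ → V n}
    {Q : Fin n → MvPolynomial (Fin n) ℂ} {φ : Fin n → ℂ}

theorem window_congr {A : ℕ → II → ℝ → ℝ} {ρ ρ' : ℕ × II → ℝ} (hp : ∀ q, 0 < ρ q)
    (hp' : ∀ q, 0 < ρ' q) {c : ℝ} (hc : 0 < c)
    (hl : Tendsto (fun q => ρ' q / ρ q) (LX II) (𝓝 c)) (hw : Window A ρ) : Window A ρ' := by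
  intro M hM ε hε
  set K : ℝ := M * max (2 * c) (max (2 / c) 1) with hK
  have hM0 : 0 < M := by linarith
  have hmax1 : 1 ≤ max (2 * c) (max (2 / c) 1) := (le_max_right _ _).trans (le_max_right _ _)
  have hmax2 : 2 * c ≤ max (2 * c) (max (2 / c) 1) := le_max_left _ _
  have hmax3 : 2 / c ≤ max (2 * c) (max (2 / c) 1) := (le_max_left _ _).trans (le_max_right _ _)
  have hK1 : 1 ≤ K := by
    rw [hK]
    nlinarith
  have h0 : Tendsto (fun q : ℕ × II => ρ' (q.1, 0) / ρ (q.1, 0)) (LX II) (𝓝 c) :=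
    (tendsto_at hl 0).comp tendsto_fst
  have hκ : Tendsto (fun q : ℕ × II => (ρ' (q.1, 0) / ρ (q.1, 0)) / (ρ' q / ρ q)) (LX II) (𝓝 1) := by
    have := h0.div hl hc.ne'
    rwa [div_self hc.ne'] at this
  have hκ1 : ∀ᶠ q in LX II, |(ρ' (q.1, 0) / ρ (q.1, 0)) / (ρ' q / ρ q) - 1| < min 1 (ε / 2) := by
    have := Metric.tendsto_nhds.1 hκ (min 1 (ε / 2)) (lt_min one_pos (by positivity))
    simpa only [Real.dist_eq] using this
  have hr1 : ∀ᶠ q in LX II, ρ' (q.1, 0) / ρ (q.1, 0) < 2 * c :=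
    h0.eventually (gt_mem_nhds (by linarith))
  have hr2 : ∀ᶠ q in LX II, c / 2 < ρ' (q.1, 0) / ρ (q.1, 0) :=
    h0.eventually (lt_mem_nhds (by linarith))
  filter_upwards [hw K hK1 (ε / 4) (by positivity), hκ1, hr1, hr2] with q hq hk hr1 hr2 s hs1 hs2
  have p0 := hp (q.1, 0)
  have p0' := hp' (q.1, 0)
  have p1 := hp q
  have p1' := hp' q
  rw [div_lt_iff₀ p0] at hr1
  rw [lt_div_iff₀ p0] at hr2
  have hs1' : ρ (q.1, 0) / K ≤ s := by
    refine le_trans ?_ hs1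
    rw [div_le_div_iff₀ (by linarith) hM0]
    have e1 : ρ (q.1, 0) ≤ (2 / c) * ρ' (q.1, 0) := by
      have : ρ (q.1, 0) = (2 / c) * (c / 2 * ρ (q.1, 0)) := by field_simp
      rw [this]
      gcongr
    calc ρ (q.1, 0) * M ≤ ((2 / c) * ρ' (q.1, 0)) * M := by gcongr
      _ ≤ ((max (2 * c) (max (2 / c) 1)) * ρ' (q.1, 0)) * M := by gcongr
      _ = ρ' (q.1, 0) * K := by rw [hK]; ring
  have hs2' : s ≤ K * ρ (q.1, 0) := by
    refine hs2.trans ?_
    calc M * ρ' (q.1, 0) ≤ M * (2 * c * ρ (q.1, 0)) := by gcongr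
      _ ≤ M * (max (2 * c) (max (2 / c) 1) * ρ (q.1, 0)) := by gcongr
      _ = K * ρ (q.1, 0) := by rw [hK]; ring
  have hq1 := hq s hs1' hs2'
  set k : ℝ := (ρ' (q.1, 0) / ρ (q.1, 0)) / (ρ' q / ρ q) with hkdef
  have e1 : ρ q / ρ (q.1, 0) = k * (ρ' q / ρ' (q.1, 0)) := by
    rw [hkdef]; field_simp
  set R : ℝ := ρ' q / ρ' (q.1, 0) with hR
  have hRpos : 0 < R := div_pos p1' p0'
  rw [e1] at hq1
  have hk1 : |k - 1| < 1 := hk.trans_le (min_le_left _ _)
  have hk2 : |k - 1| < ε / 2 := hk.trans_le (min_le_right _ _)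
  have hk3 : k < 2 := by have := (abs_lt.1 hk1).2; linarith
  calc |A q.1 q.2 s / s - R| = |(A q.1 q.2 s / s - k * R) + (k - 1) * R| := by congr 1; ring
    _ ≤ |A q.1 q.2 s / s - k * R| + |(k - 1) * R| := abs_add_le _ _
    _ ≤ ε / 4 * (k * R) + |k - 1| * R := by
        rw [abs_mul, abs_of_pos hRpos]
        exact add_le_add hq1 le_rfl
    _ ≤ ε / 4 * (2 * R) + ε / 2 * R := by gcongr
    _ = ε * R := by ring

/-- families commensurable with a monomial in the radius times a quotient of norms -/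
def TyW (g : Germ n) (W : Finset (Fin n)) (ρ : ℕ × II → ℝ) : Prop :=
  (∀ q, 0 < ρ q) ∧ ∃ (N p p' : ℕ) (f f' : MvPolynomial (Fin n) ℂ) (c : ℝ),
    1 ≤ N ∧ CT W f ∧ CT W f' ∧ 0 < c ∧
    Tendsto (fun q => (ρ q ^ N * g.b q.1 q.2 ^ p' * NN g f' q) /
      (g.b q.1 q.2 ^ p * NN g f q)) (LX II) (𝓝 c)

theorem CT.mul {f f' : MvPolynomial (Fin n) ℂ} (h : CT W f) (h' : CT W f') : CT W (f * f') :=
  ⟨mul_ne_zero h.1 h'.1, Subalgebra.mul_mem _ h.2 h'.2⟩

theorem CT.one' : CT W (1 : MvPolynomial (Fin n) ℂ) :=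
  ⟨one_ne_zero, Subalgebra.one_mem _⟩

theorem CT.pow' {f : MvPolynomial (Fin n) ℂ} (h : CT W f) (k : ℕ) : CT W (f ^ k) :=
  ⟨pow_ne_zero k h.1, Subalgebra.pow_mem _ h.2 k⟩

theorem nn_mul (h : Pre F W g z κ Q φ) {f f' : MvPolynomial (Fin n) ℂ} (hf : CT W f)
    (hf' : CT W f') : ∃ c : ℝ, 0 < c ∧
      Tendsto (fun q => NN g (f * f') q / (NN g f q * NN g f' q)) (LX II) (𝓝 c) := by
  obtain ⟨a, -, ha⟩ := h.limT f hf
  obtain ⟨b, -, hb⟩ := h.limT f' hf'
  obtain ⟨-, h1, h2⟩ := HasLim.mul h.pos hf.1 hf'.1 ha hb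
  exact ⟨_, h2, h1⟩

theorem nn_pow (h : Pre F W g z κ Q φ) {f : MvPolynomial (Fin n) ℂ} (hf : CT W f) (k : ℕ) :
    ∃ c : ℝ, 0 < c ∧ Tendsto (fun q => NN g (f ^ k) q / NN g f q ^ k) (LX II) (𝓝 c) := by
  induction k with
  | zero =>
    refine ⟨1, one_pos, tendsto_const_nhds.congr fun q => ?_⟩
    have e1 : NN g (1 : MvPolynomial (Fin n) ℂ) q = 1 := by
      have h1 : NN g (C (1 : ℂ) : MvPolynomial (Fin n) ℂ) q = 1 := by
        unfold NN rg rs
        rw [bind₁_C_right, nm_C]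
        simp
      simpa using h1
    rw [pow_zero, pow_zero, e1, div_one]
  | succ k ih =>
    obtain ⟨c, hc, h1⟩ := ih
    obtain ⟨d, hd, h2⟩ := nn_mul h (hf.pow' k) hf
    refine ⟨d * c, mul_pos hd hc, (h2.mul h1).congr fun q => ?_⟩
    have p1 := (NN_pos h.pos (hf.pow' k).1 q).ne'
    have p2 := (NN_pos h.pos hf.1 q).ne'
    rw [pow_succ, pow_succ]
    field_simp

theorem TyW.inv {ρ : ℕ × II → ℝ} (h : Pre F W g z κ Q φ) (hρ : TyW g W ρ) :
    TyW g W (fun q => (ρ q)⁻¹) := by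
  obtain ⟨hp, N, p, p', f, f', c, hN, hf, hf', hc, hl⟩ := hρ
  refine ⟨fun q => inv_pos.2 (hp q), N, p', p, f', f, c⁻¹, hN, hf', hf, inv_pos.2 hc,
    (hl.inv₀ hc.ne').congr fun q => ?_⟩
  have := (hp q).ne'
  have := (h.pos q.1 q.2).ne'
  have := (NN_pos h.pos hf.1 q).ne'
  have := (NN_pos h.pos hf'.1 q).ne'
  rw [inv_pow]
  field_simp

theorem TyW.mul {ρ σ : ℕ × II → ℝ} (h : Pre F W g z κ Q φ) (hρ : TyW g W ρ) (hσ : TyW g W σ) :
    TyW g W (fun q => ρ q * σ q) := by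
  obtain ⟨hp, N, p, p', f, f', c, hN, hf, hf', hc, hl⟩ := hρ
  obtain ⟨hq, M, r, r', e, e', d, hM, he, he', hd, hm⟩ := hσ
  obtain ⟨c1, hc1, l1⟩ := nn_pow h hf M
  obtain ⟨c2, hc2, l2⟩ := nn_pow h he N
  obtain ⟨c3, hc3, l3⟩ := nn_mul h (hf.pow' M) (he.pow' N)
  obtain ⟨c4, hc4, l4⟩ := nn_pow h hf' M
  obtain ⟨c5, hc5, l5⟩ := nn_pow h he' N
  obtain ⟨c6, hc6, l6⟩ := nn_mul h (hf'.pow' M) (he'.pow' N)
  refine ⟨fun q => mul_pos (hp q) (hq q), N * M, p * M + r * N, p' * M + r' * N,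
    f ^ M * e ^ N, f' ^ M * e' ^ N,
    (c ^ M * d ^ N) * ((c4 * c5 * c6) / (c1 * c2 * c3)), Nat.one_le_iff_ne_zero.2
      (mul_ne_zero (by omega) (by omega)), (hf.pow' M).mul (he.pow' N),
    (hf'.pow' M).mul (he'.pow' N), by positivity, ?_⟩
  have hh := ((hl.pow M).mul (hm.pow N)).mul ((((l4.mul l5).mul l6)).div ((l1.mul l2).mul l3)
    (by positivity))
  refine hh.congr fun q => ?_
  have a1 := (hp q).ne'
  have a2 := (hq q).ne'
  have a3 := (h.pos q.1 q.2).ne'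
  have a4 := (NN_pos h.pos hf.1 q).ne'
  have a5 := (NN_pos h.pos hf'.1 q).ne'
  have a6 := (NN_pos h.pos he.1 q).ne'
  have a7 := (NN_pos h.pos he'.1 q).ne'
  have b1 := (NN_pos h.pos (hf.pow' M).1 q).ne'
  have b2 := (NN_pos h.pos (he.pow' N).1 q).ne'
  have b3 := (NN_pos h.pos (hf'.pow' M).1 q).ne'
  have b4 := (NN_pos h.pos (he'.pow' N).1 q).ne'
  have b5 := (NN_pos h.pos ((hf.pow' M).mul (he.pow' N)).1 q).ne'
  have b6 := (NN_pos h.pos ((hf'.pow' M).mul (he'.pow' N)).1 q).ne'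
  have r1 : (ρ q * σ q) ^ (N * M) = (ρ q ^ N) ^ M * (σ q ^ M) ^ N := by
    rw [mul_pow, pow_mul, mul_comm N M, pow_mul]
  have r2 : ∀ x : ℝ, x ^ (p * M + r * N) = (x ^ p) ^ M * (x ^ r) ^ N := by
    intro x; rw [pow_add, pow_mul, pow_mul]
  have r3 : ∀ x : ℝ, x ^ (p' * M + r' * N) = (x ^ p') ^ M * (x ^ r') ^ N := by
    intro x; rw [pow_add, pow_mul, pow_mul]
  rw [r1, r2, r3]
  simp only [Pi.div_apply, div_pow, mul_pow]
  field_simp

theorem TyW.tame {ρ : ℕ × II → ℝ} (h : Pre F W g z κ Q φ) (hρ : TyW g W ρ) : Tame ρ := by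
  obtain ⟨hp, N, p, p', f, f', c, hN, hf, hf', hc, hl⟩ := hρ
  have hT : Tame (fun q => (g.b q.1 q.2 ^ p * NN g f q) / (g.b q.1 q.2 ^ p' * NN g f' q)) := by
    rcases le_total p' p with hpp | hpp
    · obtain ⟨k, rfl⟩ := Nat.exists_eq_add_of_le hpp
      have h1 := h.tame f f' hf hf' k
      refine h1.congr one_pos (tendsto_const_nhds.congr fun q => ?_)
      have a3 := (h.pos q.1 q.2).ne'
      have a4 := (NN_pos h.pos hf.1 q).ne'
      have a5 := (NN_pos h.pos hf'.1 q).ne'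
      rw [pow_add]
      field_simp
    · obtain ⟨k, rfl⟩ := Nat.exists_eq_add_of_le hpp
      have h1 := (h.tame f' f hf' hf k).inv
      refine h1.congr one_pos (tendsto_const_nhds.congr fun q => ?_)
      have a3 := (h.pos q.1 q.2).ne'
      have a4 := (NN_pos h.pos hf.1 q).ne'
      have a5 := (NN_pos h.pos hf'.1 q).ne'
      rw [pow_add]
      field_simp
  have hN0 : (N : ℝ) ≠ 0 := by
    have : N ≠ 0 := by omega
    exact_mod_cast this
  refine Tame.of_rpow hN0 (Eventually.of_forall hp) ?_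
  refine hT.congr hc (hl.congr fun q => ?_)
  have a3 := (h.pos q.1 q.2).ne'
  have a4 := (NN_pos h.pos hf.1 q).ne'
  have a5 := (NN_pos h.pos hf'.1 q).ne'
  rw [Real.rpow_natCast]
  field_simp

theorem ty_b (h : Pre F W g z κ Q φ) : TyW g W (fun q => g.b q.1 q.2) := by
  refine ⟨fun q => h.pos _ _, 1, 1, 0, 1, 1, 1, le_rfl, CT.one', CT.one', one_pos,
    tendsto_const_nhds.congr fun q => ?_⟩
  have a3 := (h.pos q.1 q.2).ne'
  have a4 := (NN_pos h.pos (CT.one' (W := W)).1 q).ne'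
  field_simp

theorem ty_one (h : Pre F W g z κ Q φ) : TyW g W (fun _ => 1) := by
  refine ⟨fun q => one_pos, 1, 0, 0, 1, 1, 1, le_rfl, CT.one', CT.one', one_pos,
    tendsto_const_nhds.congr fun q => ?_⟩
  have a4 := (NN_pos h.pos (CT.one' (W := W)).1 q).ne'
  field_simp

theorem ty_root (h : Pre F W g z κ Q φ) {f f' : MvPolynomial (Fin n) ℂ} (hf : CT W f)
    (hf' : CT W f') (k : ℕ) :
    TyW g W (fun q => (NN g f q / NN g f' q) ^ ((1 : ℝ) / ((k + 1 : ℕ) : ℝ))) := by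
  have hpos : ∀ q, 0 < NN g f q / NN g f' q := fun q =>
    div_pos (NN_pos h.pos hf.1 q) (NN_pos h.pos hf'.1 q)
  refine ⟨fun q => Real.rpow_pos_of_pos (hpos q) _, k + 1, 0, 0, f, f', 1, by omega, hf, hf',
    one_pos, tendsto_const_nhds.congr fun q => ?_⟩
  have a4 := (NN_pos h.pos hf.1 q).ne'
  have a5 := (NN_pos h.pos hf'.1 q).ne'
  have e1 : ((NN g f q / NN g f' q) ^ ((1 : ℝ) / ((k + 1 : ℕ) : ℝ))) ^ (k + 1) =
      NN g f q / NN g f' q := by
    rw [← Real.rpow_natCast, ← Real.rpow_mul (hpos q).le, one_div, inv_mul_cancel₀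
      (by positivity), Real.rpow_one]
  rw [e1]
  field_simp

theorem exists_profile (h : Pre F W g z κ Q φ) (G : Set (MvPolynomial (Fin n) ℂ))
    (hG : G.Countable) (hG0 : ∀ e ∈ G, CT W e) (hG1 : ∀ f, CT W f → ∃ e ∈ G, Cmp g f e) :
    ∃ A : ℕ → II → ℝ → ℝ, Profile A ∧ Window A (fun q => g.b q.1 q.2) ∧
      Window A (fun _ => 1) ∧
      (∀ s : ℕ → ℝ, (∀ j, 0 < s j) → Tendsto s UF atTop → ∀ f f', CT W f → CT W f' →
        ∀ p : ℕ, Tame (fun q => A q.1 q.2 (s q.1) ^ p * (NN g f q / NN g f' q))) ∧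
      ∀ s : ℕ → ℝ, (∀ j, 0 < s j) → Tendsto s UF atTop →
        Tendsto (fun q : ℕ × II => A q.1 q.2 (s q.1)) (LX II) atTop := by
  haveI : Countable G := hG.to_subtype
  let ρ : ((G × G × ℕ) ⊕ Bool) → ℕ × II → ℝ := fun i => match i with
    | Sum.inl x => fun q => (NN g x.1.1 q / NN g x.2.1.1 q) ^ ((1 : ℝ) / ((x.2.2 + 1 : ℕ) : ℝ))
    | Sum.inr true => fun q => g.b q.1 q.2
    | Sum.inr false => fun _ => 1
  have hty : ∀ i, TyW g W (ρ i) := by
    rintro (⟨x, y, k⟩ | (_ | _))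
    · exact ty_root h (hG0 _ x.2) (hG0 _ y.2) k
    · exact ty_one h
    · exact ty_b h
  have hcont : ∀ i j, Continuous fun l => ρ i (j, l) := by
    rintro (⟨x, y, k⟩ | (_ | _)) j
    · refine Continuous.rpow_const ((continuous_NN h _ j).div (continuous_NN h _ j) fun l =>
        (NN_pos h.pos (hG0 _ y.2).1 _).ne') fun l => Or.inl ?_
      exact (div_pos (NN_pos h.pos (hG0 _ x.2).1 _) (NN_pos h.pos (hG0 _ y.2).1 _)).ne'
    · exact continuous_const
    · exact h.cb j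
  have hrat : ∀ i k, Tame (fun q => ρ i q / ρ k q) := by
    intro i k
    have := ((hty i).mul h ((hty k).inv h)).tame h
    simpa only [div_eq_mul_inv] using this
  obtain ⟨A, hA, hAw⟩ := profile ρ hcont (fun i q => (hty i).1 q) hrat (fun i => (hty i).tame h)
  have hwb : Window A (fun q => g.b q.1 q.2) := by
    refine hAw (Sum.inr true) fun h0 => ?_
    exact not_tendsto_nhds_of_tendsto_atTop h.top 0 h0
  have hw1 : Window A (fun _ => 1) := by
    refine hAw (Sum.inr false) fun h0 => ?_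
    have h1 : Tendsto (fun _ : ℕ × II => (1 : ℝ)) (LX II) (𝓝 1) := tendsto_const_nhds
    exact one_ne_zero (tendsto_nhds_unique h1 h0)
  refine ⟨A, hA, hwb, hw1, ?_, ?_⟩
  · intro s hs0 hs f f' hf hf' p
    rcases Nat.eq_zero_or_pos p with rfl | hp
    · have := h.tame f f' hf hf' 0
      simpa only [pow_zero] using this
    · obtain ⟨k, rfl⟩ := Nat.exists_eq_succ_of_ne_zero hp.ne'
      obtain ⟨e, he, c, hc, hcl⟩ := hG1 f hf
      obtain ⟨e', he', c', hc', hcl'⟩ := hG1 f' hf'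
      have hT := ty_root h hf' hf k
      have hratio : Tendsto (fun q =>
          ((NN g f' q / NN g f q) ^ ((1 : ℝ) / ((k + 1 : ℕ) : ℝ))) /
          ρ (Sum.inl (⟨e', he'⟩, ⟨e, he⟩, k)) q) (LX II)
          (𝓝 ((c' / c) ^ ((1 : ℝ) / ((k + 1 : ℕ) : ℝ)))) := by
        have h1 := (hcl'.div hcl hc.ne').rpow_const (p := (1 : ℝ) / ((k + 1 : ℕ) : ℝ))
          (Or.inl (div_pos hc' hc).ne')
        refine h1.congr fun q => ?_
        have a1 := NN_pos h.pos hf.1 q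
        have a2 := NN_pos h.pos hf'.1 q
        have a3 := NN_pos h.pos (hG0 e he).1 q
        have a4 := NN_pos h.pos (hG0 e' he').1 q
        change _ = _ / (NN g e' q / NN g e q) ^ ((1 : ℝ) / ((k + 1 : ℕ) : ℝ))
        rw [← Real.div_rpow (by positivity) (by positivity)]
        congr 1
        simp only [Pi.div_apply]
        field_simp
      have hcc : 0 < (c' / c) ^ ((1 : ℝ) / ((k + 1 : ℕ) : ℝ)) :=
        Real.rpow_pos_of_pos (div_pos hc' hc) _
      have hw : ¬ Tendsto (fun q => (NN g f' q / NN g f q) ^ ((1 : ℝ) / ((k + 1 : ℕ) : ℝ)))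
          (LX II) (𝓝 0) →
          Window A (fun q => (NN g f' q / NN g f q) ^ ((1 : ℝ) / ((k + 1 : ℕ) : ℝ))) := by
        intro hn
        refine window_congr (ρ := ρ (Sum.inl (⟨e', he'⟩, ⟨e, he⟩, k)))
          (hty (Sum.inl (⟨e', he'⟩, ⟨e, he⟩, k))).1 hT.1 hcc hratio
          (hAw (Sum.inl (⟨e', he'⟩, ⟨e, he⟩, k)) fun h0 => hn ?_)
        have h1 := hratio.mul h0
        rw [mul_zero] at h1
        refine h1.congr fun q => ?_
        exact div_mul_cancel₀ _ ((hty (Sum.inl (⟨e', he'⟩, ⟨e, he⟩, k))).1 q).ne'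
      have h2 := (profile_tame hA hT.1 (hT.tame h) hw hw1 hs hs0).1
      have h3 := h2.rpow ((k + 1 : ℕ) : ℝ)
      refine h3.congr one_pos (tendsto_const_nhds.congr fun q => ?_)
      have a1 := NN_pos h.pos hf.1 q
      have a2 := NN_pos h.pos hf'.1 q
      have a3 := hA.pos q.1 q.2 (s q.1) (hs0 q.1)
      rw [Real.rpow_natCast, div_pow, ← Real.rpow_natCast ((NN g f' q / NN g f q) ^ _),
        ← Real.rpow_mul (by positivity), one_div, inv_mul_cancel₀ (by positivity), Real.rpow_one]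
      change 1 = A q.1 q.2 (s q.1) ^ (k + 1) * (NN g f q / NN g f' q) / _
      field_simp
  · intro s hs0 hs
    exact (profile_tame hA (fun _ => one_pos) (Tame.const one_pos) (fun _ => hw1) hw1 hs hs0).2

end Pool.Agent.H51.BJ
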