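import Pool.Agent.H51.BJ.STC
import Pool.Agent.H51.BJ.ROC
import Pool.Agent.H51.BJ.COV
import Pool.Agent.H51.BJ.PRE
import Pool.Agent.H51.BJ.LEA
import Pool.Agent.H51.BJ.WIN
import Pool.Agent.H51.BJ.CTC
import Pool.Agent.H51.BJ.CAA
import Pool.Agent.H51.BJ.CAB
import Pool.Agent.H51.BJ.GES
import Pool.Agent.H51.BJ.SLW

/-! # [H51 BJ MAI] Assembly -/

set_option autoImplicit false

open MvPolynomial Filter Pool.Agent.H60 Pool.Agent.H57.BJ
open scoped Topology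

noncomputable section

namespace Pool.Agent.H51.BJ

variable {n : ℕ}

theorem tame_b {F : ℕ → V n → ℂ} {W : Finset (Fin n)} {g : Germ n} {z κ : ℕ → V n}
    {Q : Fin n → MvPolynomial (Fin n) ℂ} {φ : Fin n → ℂ} (h : Pre F W g z κ Q φ) :
    Tame (fun q : ℕ × II => g.b q.1 q.2) := by
  have h1 : CT W (1 : MvPolynomial (Fin n) ℂ) := ⟨one_ne_zero, Subalgebra.one_mem _⟩
  have h2 := h.tame 1 1 h1 h1 1
  have h3 : (fun q : ℕ × II => g.b q.1 q.2 ^ 1 * (NN g 1 q / NN g 1 q))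
      = fun q => g.b q.1 q.2 := by
    funext q
    rw [div_self (NN_pos h.pos one_ne_zero q).ne', pow_one, mul_one]
  rwa [h3] at h2

theorem exists_ctc {F : ℕ → V n → ℂ} (hF : ∀ j, Continuous (F j)) {W : Finset (Fin n)}
    {g : Germ n} {z κ : ℕ → V n} {Q : Fin n → MvPolynomial (Fin n) ℂ} {φ : Fin n → ℂ}
    (h : Pre F W g z κ Q φ) {a : ℕ → II → V n → V n} {D : ℕ → II → V n → V n →L[ℂ] V n}
    (hL : Leaf g W Q a D) {A : ℕ → II → ℝ → ℝ} (hA : Profile A)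
    (hw : Window A (fun q => g.b q.1 q.2)) :
    ∃ (y κ' θ : ℕ → V n) (μ δ : ℕ → ℝ), Ctc F W g z κ a A y κ' θ μ δ := by
  obtain ⟨y, κ', θ, μ, h1, h2, h3, h4, h5, h6, ⟨δ, h7, h8, h9, h10⟩, h11⟩ :=
    contact hF h.pos h.top (tame_b h) h.con hL hA hw
  exact ⟨y, κ', θ, μ, δ, h1, h2, h3, h4, h5, h6, h7, h8, h9, h10, h11⟩

theorem uf_dichotomy (s : ℕ → ℝ) : Tendsto s UF atTop ∨ ∃ M : ℝ, ∀ᶠ j in UF, s j ≤ M := by
  by_cases h : Tendsto s UF atTop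
  · exact Or.inl h
  · right
    rw [tendsto_atTop] at h
    push Not at h
    obtain ⟨M, hM⟩ := h
    exact ⟨M, hM.mono fun j hj => hj.le⟩

theorem no_adapted (hind : ∀ k, k < n → ∀ B : MvPolynomial (Fin k) ℂ, B ≠ 0 → GoodEst B)
    {P : MvPolynomial (Fin n) ℂ} {h : ℕ → V n → ℂ} (hd : Dat P h) {W : Finset (Fin n)}
    {σ : ℕ → SS (FF P h)} (hσ : Ad (FF P h) P σ W) : False := by
  obtain ⟨g, z, κ, Q, φ, hpre, href, hus, G, hG, hG0, hG1⟩ := exists_pre hσ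
  obtain ⟨a, D, hL⟩ := exists_leaf hpre
  obtain ⟨A, hA, hwb, hw1, hAt, hAi⟩ := exists_profile hpre G hG hG0 hG1
  have hF : ∀ j, Continuous (FF P h j) := fun j =>
    ((differentiable_ev P).continuous.mul (hd.diff j).continuous)
  obtain ⟨y, κ', θ, μ, δ, hc⟩ := exists_ctc hF hpre hL hA hwb
  rcases uf_dichotomy (fun j => nr (xx W a y j)) with hx | ⟨M, hx⟩
  · obtain ⟨τ', hr, i, hi, hres⟩ := case_infinite hpre hL hA hwb hAt hAi hc hx
    have h1 : Ref τ'.g (σ (Q i).totalDegree).g :=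
      Ref.trans (σ (Q i).totalDegree).st.ok.pos hpre.pos hr (href _)
    exact (hus i hi).2 _ (hσ.ch.stab _ τ' h1 _ le_rfl hres)
  · exact case_bounded hind hd hpre (w_ne_univ hσ) hL hA hw1 hc hx

theorem no_state (hind : ∀ k, k < n → ∀ B : MvPolynomial (Fin k) ℂ, B ≠ 0 → GoodEst B)
    {P : MvPolynomial (Fin n) ℂ} {h : ℕ → V n → ℂ} (hd : Dat P h) (τ : SS (FF P h)) :
    False := by
  obtain ⟨σ0, hσ0⟩ := exists_chain τ (endgame1 hd)
  obtain ⟨U, W, hU, hW⟩ : ∃ (U : Matrix (Fin n) (Fin n) ℂ) (W : Finset (Fin n)),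
      U ∈ Matrix.unitaryGroup (Fin n) ℂ ∧
      ∃ σ : ℕ → SS (FF (rotP U P) (rotF U h)), Ad (FF (rotP U P) (rotF U h)) (rotP U P) σ W := by
    obtain ⟨U, W, σ, hU, hσ⟩ := exists_adapted hd.ne hσ0
    refine ⟨U, W, hU, ?_⟩
    rw [FF_rot]
    exact ⟨σ, hσ⟩
  obtain ⟨σ, hσ⟩ := hW
  exact no_adapted hind (hd.rot hU) hσ

theorem good_all (n : ℕ) : ∀ P : MvPolynomial (Fin n) ℂ, P ≠ 0 → GoodEst P := by
  induction n using Nat.strong_induction_on with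
  | _ n ih =>
    intro P hP
    refine goodEst_of_slow hP (slow_of_no_state hP fun h g z κ hd hst => ?_)
    exact no_state (fun k hk B hB => ih k hk B hB) hd ⟨g, z, κ, hst⟩

end Pool.Agent.H51.BJ
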