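import Pool.Agent.H51.BJ.Defs

/-! # [H51 BJ NMF] The norm `nm` (sum of the absolute values of the coefficients)

All statements are elementary. `nm_eq_sum` is the useful form: the sum may be taken over any finite
set of exponents containing the support. `nm_mul_le`: expand the product over the supports
(`MvPolynomial.coeff_mul` and antidiagonals, or induction on one factor with `induction_on'`,
`nm (monomial m a * q) = ‖a‖ * nm q`). `cauchy`: Cauchy estimate on the unit polydisc (the norm of `V n` is the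
sup norm): e.g. induction on the number of variables is not needed: the coefficient is the mean
value of `ev p (e^{iθ}) e^{-i m·θ}` over the points `θ` with `θ_j ∈ (2π/N) ℤ`, `N` larger than all
exponents (finite sums of roots of unity), or use integrals over the torus. -/

set_option autoImplicit false

open MvPolynomial Filter Pool.Agent.H60 Pool.Agent.H57.BJ
open scoped Topology

noncomputable section

namespace Pool.Agent.H51.BJ

variable {n : ℕ}

theorem nm_nonneg (p : MvPolynomial (Fin n) ℂ) : 0 ≤ nm p := by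
  exact Finset.sum_nonneg fun m _ => norm_nonneg _

theorem nm_eq_sum (p : MvPolynomial (Fin n) ℂ) (S : Finset (Fin n →₀ ℕ)) (h : p.support ⊆ S) :
    nm p = ∑ m ∈ S, ‖p.coeff m‖ := by
  unfold nm
  refine Finset.sum_subset h fun m _ hm => ?_
  rw [MvPolynomial.notMem_support_iff.1 hm, norm_zero]

theorem nm_eq_zero {p : MvPolynomial (Fin n) ℂ} : nm p = 0 ↔ p = 0 := by
  constructor
  · intro h
    unfold nm at h
    rw [Finset.sum_eq_zero_iff_of_nonneg fun m _ => norm_nonneg _] at h
    ext m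
    rw [MvPolynomial.coeff_zero]
    by_cases hm : m ∈ p.support
    · exact norm_eq_zero.1 (h m hm)
    · exact MvPolynomial.notMem_support_iff.1 hm
  · rintro rfl
    simp [nm]

theorem nm_pos {p : MvPolynomial (Fin n) ℂ} (h : p ≠ 0) : 0 < nm p := by
  exact lt_of_le_of_ne (nm_nonneg p) fun h0 => h (nm_eq_zero.1 h0.symm)

theorem coeff_le_nm (p : MvPolynomial (Fin n) ℂ) (m : Fin n →₀ ℕ) : ‖p.coeff m‖ ≤ nm p := by
  by_cases hm : m ∈ p.support
  · exact Finset.single_le_sum (f := fun m => ‖p.coeff m‖) (fun m _ => norm_nonneg _) hm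
  · rw [MvPolynomial.notMem_support_iff.1 hm, norm_zero]
    exact nm_nonneg p

theorem nm_add_le (p q : MvPolynomial (Fin n) ℂ) : nm (p + q) ≤ nm p + nm q := by
  classical
  rw [nm_eq_sum (p + q) (p.support ∪ q.support) MvPolynomial.support_add,
    nm_eq_sum p (p.support ∪ q.support) Finset.subset_union_left,
    nm_eq_sum q (p.support ∪ q.support) Finset.subset_union_right, ← Finset.sum_add_distrib]
  refine Finset.sum_le_sum fun m _ => ?_
  rw [MvPolynomial.coeff_add]
  exact norm_add_le _ _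

theorem nm_C_mul (a : ℂ) (p : MvPolynomial (Fin n) ℂ) : nm (C a * p) = ‖a‖ * nm p := by
  rw [nm_eq_sum (C a * p) p.support (fun m hm => by
    rw [MvPolynomial.mem_support_iff, MvPolynomial.coeff_C_mul] at hm
    exact MvPolynomial.mem_support_iff.2 fun h => hm (by rw [h, mul_zero]))]
  unfold nm
  rw [Finset.mul_sum]
  refine Finset.sum_congr rfl fun m _ => ?_
  rw [MvPolynomial.coeff_C_mul, norm_mul]

theorem nm_C (a : ℂ) : nm (C a : MvPolynomial (Fin n) ℂ) = ‖a‖ := by
  classical
  rw [nm_eq_sum (C a : MvPolynomial (Fin n) ℂ) {0} (fun m hm => by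
    rw [MvPolynomial.mem_support_iff, MvPolynomial.coeff_C] at hm
    by_contra hne
    rw [Finset.mem_singleton] at hne
    exact hm (if_neg (fun h => hne h.symm)))]
  rw [Finset.sum_singleton, MvPolynomial.coeff_C, if_pos rfl]

private theorem nm_zero_aux : nm (0 : MvPolynomial (Fin n) ℂ) = 0 := nm_eq_zero.2 rfl

private theorem nm_sum_le_aux {ι : Type*} (s : Finset ι) (f : ι → MvPolynomial (Fin n) ℂ) :
    nm (∑ i ∈ s, f i) ≤ ∑ i ∈ s, nm (f i) := by
  classical
  induction s using Finset.induction_on with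
  | empty => simp [nm_zero_aux]
  | insert a s ha ih =>
    rw [Finset.sum_insert ha, Finset.sum_insert ha]
    exact (nm_add_le _ _).trans (by gcongr)

private theorem nm_monomial_mul_aux (m : Fin n →₀ ℕ) (a : ℂ) (q : MvPolynomial (Fin n) ℂ) :
    nm (monomial m a * q) = ‖a‖ * nm q := by
  classical
  rw [nm_eq_sum (monomial m a * q) (q.support.image (fun k => m + k)) (fun k hk => by
    rw [MvPolynomial.mem_support_iff, MvPolynomial.coeff_monomial_mul'] at hk
    by_cases hmk : m ≤ k
    · rw [if_pos hmk] at hk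
      rw [Finset.mem_image]
      refine ⟨k - m, MvPolynomial.mem_support_iff.2 fun h => hk (by rw [h, mul_zero]), ?_⟩
      exact add_tsub_cancel_of_le hmk
    · rw [if_neg hmk] at hk
      exact absurd rfl hk)]
  rw [Finset.sum_image (fun x _ y _ h => add_left_cancel h)]
  unfold nm
  rw [Finset.mul_sum]
  refine Finset.sum_congr rfl fun k _ => ?_
  rw [MvPolynomial.coeff_monomial_mul, norm_mul]

theorem nm_mul_le (p q : MvPolynomial (Fin n) ℂ) : nm (p * q) ≤ nm p * nm q := by
  have h1 : p * q = ∑ m ∈ p.support, monomial m (p.coeff m) * q := by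
    rw [← Finset.sum_mul, ← MvPolynomial.as_sum]
  rw [h1]
  refine (nm_sum_le_aux _ _).trans (le_of_eq ?_)
  conv_rhs => unfold nm
  rw [Finset.sum_mul]
  refine Finset.sum_congr rfl fun m _ => ?_
  rw [nm_monomial_mul_aux]
  rfl

theorem norm_ev_le (p : MvPolynomial (Fin n) ℂ) (s : V n) {R : ℝ} (hR : 1 ≤ R) (hs : ‖s‖ ≤ R) :
    ‖ev p s‖ ≤ nm p * R ^ p.totalDegree := by
  unfold ev
  rw [MvPolynomial.eval_eq']
  refine (norm_sum_le _ _).trans ?_
  unfold nm
  rw [Finset.sum_mul]
  refine Finset.sum_le_sum fun m hm => ?_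
  rw [norm_mul]
  refine mul_le_mul_of_nonneg_left ?_ (norm_nonneg _)
  rw [norm_prod]
  have h1 : ∏ i, ‖s i ^ m i‖ ≤ ∏ i, R ^ m i := by
    refine Finset.prod_le_prod (fun i _ => norm_nonneg _) fun i _ => ?_
    rw [norm_pow]
    exact pow_le_pow_left₀ (norm_nonneg _) ((norm_le_pi_norm s i).trans hs) _
  refine h1.trans ?_
  rw [Finset.prod_pow_eq_pow_sum]
  refine pow_le_pow_right₀ hR ?_
  have h2 := MvPolynomial.le_totalDegree hm
  rwa [Finsupp.sum_fintype _ _ (fun _ => rfl)] at h2

private theorem root_sum_aux {N : ℕ} {ζ : ℂ} (hζ : IsPrimitiveRoot ζ N) {a b : ℕ}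
    (ha : a < N) (hb : b < N) :
    ∑ j : Fin N, (ζ ^ (j : ℕ)) ^ (a + (N - b)) = if a = b then (N : ℂ) else 0 := by
  have hsum : ∑ j : Fin N, (ζ ^ (j : ℕ)) ^ (a + (N - b)) =
      ∑ j ∈ Finset.range N, (ζ ^ (a + (N - b))) ^ j := by
    rw [← Fin.sum_univ_eq_sum_range (fun j => (ζ ^ (a + (N - b))) ^ j) N]
    refine Finset.sum_congr rfl fun j _ => ?_
    rw [← pow_mul, ← pow_mul, mul_comm]
  rw [hsum]
  split_ifs with hab
  · subst hab
    have h1 : a + (N - a) = N := by omega
    rw [h1, hζ.pow_eq_one]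
    simp
  · have h1 : ζ ^ (a + (N - b)) ≠ 1 := by
      intro h
      rw [hζ.pow_eq_one_iff_dvd] at h
      obtain ⟨c, hc⟩ := h
      have hc1 : c = 0 ∨ c = 1 ∨ 2 ≤ c := by omega
      rcases hc1 with rfl | rfl | hc2
      · omega
      · omega
      · have : N * 2 ≤ N * c := Nat.mul_le_mul_left _ hc2
        omega
    rw [geom_sum_eq h1, ← pow_mul, mul_comm, pow_mul, hζ.pow_eq_one, one_pow, sub_self, zero_div]

theorem cauchy (p : MvPolynomial (Fin n) ℂ) {M : ℝ} (h : ∀ s : V n, ‖s‖ ≤ 1 → ‖ev p s‖ ≤ M)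
    (m : Fin n →₀ ℕ) : ‖p.coeff m‖ ≤ M := by
  classical
  have hM : 0 ≤ M := (norm_nonneg _).trans (h 0 (by simp))
  by_cases hm : m ∈ p.support
  swap
  · rw [MvPolynomial.notMem_support_iff.1 hm, norm_zero]
    exact hM
  obtain ⟨N, hN⟩ : ∃ N : ℕ, p.totalDegree < N := ⟨_, Nat.lt_succ_self _⟩
  have hN0 : N ≠ 0 := by omega
  have hζ := Complex.isPrimitiveRoot_exp N hN0
  set ζ : ℂ := Complex.exp (2 * Real.pi * Complex.I / N) with hζdef
  have hlt : ∀ a ∈ p.support, ∀ i, a i < N := by
    intro a ha i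
    have h2 := MvPolynomial.le_totalDegree ha
    rw [Finsupp.sum_fintype _ _ (fun _ => rfl)] at h2
    have h3 : a i ≤ ∑ i, a i := Finset.single_le_sum (fun i _ => Nat.zero_le _) (Finset.mem_univ i)
    omega
  have hζn : ‖ζ‖ = 1 := hζ.norm'_eq_one hN0
  have key : ∑ k : Fin n → Fin N, ev p (fun i => ζ ^ (k i : ℕ)) *
      ∏ i, (ζ ^ (k i : ℕ)) ^ (N - m i) = p.coeff m * (N : ℂ) ^ n := by
    have h1 : ∀ k : Fin n → Fin N, ev p (fun i => ζ ^ (k i : ℕ)) *
        ∏ i, (ζ ^ (k i : ℕ)) ^ (N - m i) =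
        ∑ a ∈ p.support, p.coeff a * ∏ i, (ζ ^ (k i : ℕ)) ^ (a i + (N - m i)) := by
      intro k
      unfold ev
      rw [MvPolynomial.eval_eq', Finset.sum_mul]
      refine Finset.sum_congr rfl fun a _ => ?_
      rw [mul_assoc, ← Finset.prod_mul_distrib]
      congr 1
      refine Finset.prod_congr rfl fun i _ => ?_
      rw [pow_add]
    rw [Finset.sum_congr rfl fun k _ => h1 k, Finset.sum_comm]
    have h2 : ∀ a ∈ p.support, ∑ k : Fin n → Fin N,
        p.coeff a * ∏ i, (ζ ^ (k i : ℕ)) ^ (a i + (N - m i)) =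
        if a = m then p.coeff m * (N : ℂ) ^ n else 0 := by
      intro a ha
      rw [← Finset.mul_sum]
      have h3 : ∑ k : Fin n → Fin N, ∏ i, (ζ ^ (k i : ℕ)) ^ (a i + (N - m i)) =
          ∏ i, ∑ j : Fin N, (ζ ^ (j : ℕ)) ^ (a i + (N - m i)) := by
        rw [Finset.prod_univ_sum, Fintype.piFinset_univ]
      rw [h3, Finset.prod_congr rfl fun i _ => root_sum_aux hζ (hlt a ha i) (hlt m hm i)]
      split_ifs with ham
      · subst ham
        simp
      · obtain ⟨i, hi⟩ : ∃ i, a i ≠ m i := by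
          by_contra hcon
          push Not at hcon
          exact ham (Finsupp.ext hcon)
        rw [Finset.prod_eq_zero (Finset.mem_univ i) (if_neg hi), mul_zero]
    rw [Finset.sum_congr rfl h2, Finset.sum_ite_eq' p.support m, if_pos hm]
  have h4 : ‖p.coeff m * (N : ℂ) ^ n‖ ≤ ∑ _k : Fin n → Fin N, M := by
    rw [← key]
    refine norm_sum_le_of_le _ fun k _ => ?_
    rw [norm_mul, norm_prod]
    have h5 : ∏ i, ‖(ζ ^ (k i : ℕ)) ^ (N - m i)‖ = 1 := by
      refine Finset.prod_eq_one fun i _ => ?_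
      rw [norm_pow, norm_pow, hζn, one_pow, one_pow]
    rw [h5, mul_one]
    refine h _ ?_
    rw [pi_norm_le_iff_of_nonneg zero_le_one]
    intro i
    rw [norm_pow, hζn, one_pow]
  rw [Finset.sum_const, Finset.card_univ, Fintype.card_fun, Fintype.card_fin, Fintype.card_fin,
    nsmul_eq_mul, norm_mul, norm_pow, Complex.norm_natCast, Nat.cast_pow, mul_comm] at h4
  have h6 : (0 : ℝ) < (N : ℝ) ^ n := by positivity
  exact le_of_mul_le_mul_left h4 h6

end Pool.Agent.H51.BJ
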