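import Pool.Agent.H51.BJ.RFN

/-! # [H51 BJ NUA] Initial forms of never resolved polynomials

`res_ref`: along a chain (weakly descending) resolved stays resolved (`Res.ref`); by stability a
polynomial of degree at most `D` resolved somewhere along the chain is resolved at `σ_D` (if it is
resolved at `σ_{D'}` with `D' > D`, then `σ_{D'} = σ_D` or `Ref (σ D').g (σ D).g` by `Ref.trans`).

`ini_of_us`: for every `D` let `B_D` be the limit of `f` at `σ_D` (`GOk.lim`), `B_D ≠ 0`
(`HasLim.ne_zero`), `coeff 0 B_D = 0` since `f` is not resolved; `μ_D ≥ 1` its order (smallest degree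
of an exponent with nonzero coefficient). If `σ_{D+1} = σ_D` then `B_{D+1} = B_D` (uniqueness);
otherwise `ref_order` gives `μ_{D+1} ≤ μ_D` (all coefficients of degree `> μ_D` of `B_{D+1}` vanish and
`B_{D+1} ≠ 0`). So `μ_D` is eventually constant `= μ`, for `D ≥ D0`. For `D ≥ D0` the component of
degree `μ` of `B_{D+1}` is `t` times that of `B_D`, `t ≥ 0`, and it is not zero, so `t > 0`. Take
`A = homogeneousComponent μ B_{D0}`. -/

set_option autoImplicit false

open MvPolynomial Filter Pool.Agent.H60 Pool.Agent.H57.BJ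
open scoped Topology

noncomputable section

namespace Pool.Agent.H51.BJ

variable {n : ℕ} {F : ℕ → V n → ℂ} {P f : MvPolynomial (Fin n) ℂ} {σ : ℕ → SS F}

theorem chain_le (hc : Chain F P σ) {D D' : ℕ} (h : D ≤ D') :
    σ D' = σ D ∨ Ref (σ D').g (σ D).g := by
  induction D', h using Nat.le_induction with
  | base => exact Or.inl rfl
  | succ D' _ ih =>
    rcases hc.ref D' with h1 | h1
    · rw [h1]
      exact ih
    · rcases ih with h2 | h2
      · rw [h2] at h1
        exact Or.inr h1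
      · exact Or.inr (Ref.trans (σ D).st.ok.pos (σ D').st.ok.pos h1 h2)

theorem chain_res (hc : Chain F P σ) {D D' : ℕ} (h : D ≤ D') (hf : f ≠ 0)
    (hr : Res (σ D).g f) : Res (σ D').g f := by
  rcases chain_le hc h with h1 | h1
  · rw [h1]
    exact hr
  · exact Res.ref (σ D).st.ok.pos (σ D').st.ok.pos h1 hf hr

theorem chain_res_deg (hc : Chain F P σ) (hf : f ≠ 0) (hu : ¬ US σ f) {D : ℕ}
    (hD : f.totalDegree ≤ D) : Res (σ D).g f := by
  have h1 : ∃ D', Res (σ D').g f := by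
    by_contra hne
    push Not at hne
    exact hu ⟨hf, hne⟩
  obtain ⟨D', h2⟩ := h1
  rcases le_total D' D with h3 | h3
  · exact chain_res hc h3 hf h2
  · rcases chain_le hc h3 with h4 | h4
    · rw [← h4]
      exact h2
    · exact hc.stab D (σ D') h4 f hD h2

theorem ini_of_us (hc : Chain F P σ) (hf : US σ f) :
    ∃ (μ : ℕ) (A : MvPolynomial (Fin n) ℂ), 1 ≤ μ ∧ Ini σ f μ A := by
  classical
  have hlim : ∀ D, ∃ B, HasLim (σ D).g f B := fun D => (σ D).st.ok.lim f hf.1
  choose B hB using hlim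
  have hne : ∀ D, B D ≠ 0 := fun D => HasLim.ne_zero (σ D).st.ok.pos hf.1 (hB D)
  have h0 : ∀ D, (B D).coeff 0 = 0 := by
    intro D
    by_contra h
    exact hf.2 D ⟨B D, hB D, h⟩
  have hex : ∀ D, ∃ k, ∃ m : Fin n →₀ ℕ, m.degree = k ∧ (B D).coeff m ≠ 0 := by
    intro D
    obtain ⟨m, hm⟩ := MvPolynomial.ne_zero_iff.mp (hne D)
    exact ⟨m.degree, m, rfl, hm⟩
  obtain ⟨o, ho⟩ : ∃ o : ℕ → ℕ, ∀ D, (∃ m : Fin n →₀ ℕ, m.degree = o D ∧ (B D).coeff m ≠ 0) ∧
      ∀ m : Fin n →₀ ℕ, m.degree < o D → (B D).coeff m = 0 := by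
    refine ⟨fun D => Nat.find (hex D), fun D => ⟨Nat.find_spec (hex D), fun m hm => ?_⟩⟩
    by_contra h
    exact Nat.find_min (hex D) hm ⟨m, rfl, h⟩
  have ho1 : ∀ D, 1 ≤ o D := by
    intro D
    by_contra h
    obtain ⟨m, hm, hm2⟩ := (ho D).1
    have h1 : m.degree = 0 := by omega
    rw [Finsupp.degree_eq_zero_iff] at h1
    rw [h1] at hm2
    exact hm2 (h0 D)
  have hstep : ∀ D, o (D + 1) ≤ o D ∧ ∃ t : ℝ, 0 ≤ t ∧ ∀ m : Fin n →₀ ℕ, m.degree = o D →
      (B (D + 1)).coeff m = t * (B D).coeff m := by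
    intro D
    rcases hc.ref D with h1 | h1
    · have h2 : B (D + 1) = B D := by
        have h3 := hB (D + 1)
        rw [h1] at h3
        exact HasLim.unique h3 (hB D)
      refine ⟨?_, 1, zero_le_one, fun m _ => ?_⟩
      · by_contra hlt
        push Not at hlt
        obtain ⟨m, hm, hm2⟩ := (ho D).1
        apply hm2
        rw [← h2]
        exact (ho (D + 1)).2 m (by omega)
      · rw [h2, Complex.ofReal_one, one_mul]
    · obtain ⟨h2, t, ht, h3⟩ := ref_order (σ D).st.ok.pos (σ (D + 1)).st.ok.pos h1 hf.1 (hB D) (hB (D + 1))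
        (o D) (ho D).2 (ho D).1
      refine ⟨?_, t, ht, h3⟩
      by_contra hlt
      push Not at hlt
      obtain ⟨m, hm, hm2⟩ := (ho (D + 1)).1
      exact hm2 (h2 m (by omega))
  have hanti : ∀ D k, o (D + k) ≤ o D := by
    intro D k
    induction k with
    | zero => exact le_rfl
    | succ k ih => exact ((hstep (D + k)).1).trans ih
  obtain ⟨μ, hμ⟩ : ∃ μ, (∃ D, o D = μ) ∧ ∀ D, μ ≤ o D := by
    have hx : ∃ k, ∃ D, o D = k := ⟨o 0, 0, rfl⟩
    exact ⟨Nat.find hx, Nat.find_spec hx, fun D => Nat.find_min' hx ⟨D, rfl⟩⟩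
  obtain ⟨⟨D0, hD0⟩, hmin⟩ := hμ
  have hconst : ∀ D, D0 ≤ D → o D = μ := by
    intro D hD
    obtain ⟨k, rfl⟩ := Nat.exists_eq_add_of_le hD
    have := hanti D0 k
    have := hmin (D0 + k)
    omega
  have hcoef : ∀ D, D0 ≤ D → ∃ t : ℝ, 0 < t ∧ ∀ m : Fin n →₀ ℕ, m.degree = μ →
      (B D).coeff m = t * (B D0).coeff m := by
    intro D hD
    induction D, hD using Nat.le_induction with
    | base => exact ⟨1, one_pos, fun m _ => by rw [Complex.ofReal_one, one_mul]⟩
    | succ D hD ih =>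
      obtain ⟨t, ht, h1⟩ := ih
      obtain ⟨-, u, hu, h2⟩ := hstep D
      have e1 := hconst D hD
      have e2 := hconst (D + 1) (by omega)
      have hu0 : u ≠ 0 := by
        rintro rfl
        obtain ⟨m, hm, hm2⟩ := (ho (D + 1)).1
        apply hm2
        rw [h2 m (by omega), Complex.ofReal_zero, zero_mul]
      refine ⟨u * t, mul_pos (lt_of_le_of_ne hu (Ne.symm hu0)) ht, fun m hm => ?_⟩
      rw [h2 m (by omega), h1 m hm, Complex.ofReal_mul, mul_assoc]
  have hcA : ∀ m : Fin n →₀ ℕ, m.degree = μ →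
      (homogeneousComponent μ (B D0)).coeff m = (B D0).coeff m := by
    intro m hm
    rw [coeff_homogeneousComponent, if_pos hm]
  refine ⟨μ, homogeneousComponent μ (B D0), by rw [← hD0]; exact ho1 D0,
    homogeneousComponent_isHomogeneous μ (B D0), ?_, D0, fun D hD => ?_⟩
  · obtain ⟨m, hm, hm2⟩ := (ho D0).1
    intro h
    apply hm2
    rw [← hcA m (by omega), h, coeff_zero]
  · obtain ⟨t, ht, h1⟩ := hcoef D hD
    refine ⟨B D, t, hB D, ht, fun m hm => ?_, fun m hm => ?_⟩
    · exact (ho D).2 m (by rw [hconst D hD]; exact hm)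
    · rw [h1 m hm, hcA m hm]

end Pool.Agent.H51.BJ
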