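import Pool.Agent.H51.BJ.NMF

/-! # [H51 BJ PTA] Algebra of coefficientwise convergence

Each coefficient of a product is a finite sum (antidiagonal), each coefficient of a derivative is a
multiple of one coefficient (`MvPolynomial.coeff_pderiv` or by `induction_on'`). `PT.nm`: the number
of exponents of degree at most `D` is finite, use `nm_eq_sum`. `PT.ev`: a finite sum of
`coeff * monomial`. -/

set_option autoImplicit false

open MvPolynomial Filter Pool.Agent.H60 Pool.Agent.H57.BJ
open scoped Topology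

noncomputable section

namespace Pool.Agent.H51.BJ

variable {n : ℕ} {ι : Type*} {L : Filter ι} {p q : ι → MvPolynomial (Fin n) ℂ}
  {A B : MvPolynomial (Fin n) ℂ}

theorem PT.add (hp : PT L p A) (hq : PT L q B) : PT L (fun i => p i + q i) (A + B) := by
  intro m
  simp only [coeff_add]
  exact (hp m).add (hq m)

theorem PT.mul (hp : PT L p A) (hq : PT L q B) : PT L (fun i => p i * q i) (A * B) := by
  classical
  intro m
  simp only [coeff_mul]
  exact tendsto_finset_sum _ fun x _ => (hp x.1).mul (hq x.2)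

theorem PT.const (A : MvPolynomial (Fin n) ℂ) : PT L (fun _ => A) A :=
  fun _ => tendsto_const_nhds

theorem PT.C_mul {a : ι → ℂ} {a0 : ℂ} (ha : Tendsto a L (𝓝 a0)) (hp : PT L p A) :
    PT L (fun i => C (a i) * p i) (C a0 * A) := by
  intro m
  simp only [coeff_C_mul]
  exact ha.mul (hp m)

theorem PT.pderiv (hp : PT L p A) (k : Fin n) :
    PT L (fun i => MvPolynomial.pderiv k (p i)) (MvPolynomial.pderiv k A) := by
  intro m
  simp only [coeff_pderiv]
  exact (hp _).mul_const _

theorem PT.congr' (hp : PT L p A) (h : ∀ᶠ i in L, p i = q i) : PT L q A := by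
  intro m
  refine (hp m).congr' ?_
  filter_upwards [h] with i hi
  rw [hi]

theorem PT.unique [L.NeBot] (hp : PT L p A) (hq : PT L p B) : A = B :=
  MvPolynomial.ext _ _ fun m => tendsto_nhds_unique (hp m) (hq m)

/-- a coefficient which vanishes eventually vanishes in the limit -/
private theorem PT.coeff_zero [L.NeBot] (hp : PT L p A) {m : Fin n →₀ ℕ}
    (h : ∀ᶠ i in L, (p i).coeff m = 0) : A.coeff m = 0 := by
  refine tendsto_nhds_unique (hp m) ?_
  refine tendsto_const_nhds.congr' ?_
  filter_upwards [h] with i hi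
  exact hi.symm

theorem PT.totalDegree_le [L.NeBot] {D : ℕ} (hp : PT L p A)
    (hd : ∀ᶠ i in L, (p i).totalDegree ≤ D) : A.totalDegree ≤ D := by
  rw [totalDegree]
  refine Finset.sup_le fun m hm => ?_
  by_contra hlt
  push Not at hlt
  refine (mem_support_iff.mp hm) (PT.coeff_zero hp ?_)
  filter_upwards [hd] with i hi
  exact coeff_eq_zero_of_totalDegree_lt (lt_of_le_of_lt hi hlt)

theorem PT.supported [L.NeBot] {S : Set (Fin n)} (hp : PT L p A)
    (hd : ∀ᶠ i in L, p i ∈ MvPolynomial.supported ℂ S) : A ∈ MvPolynomial.supported ℂ S := by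
  rw [mem_supported]
  intro k hk
  rw [Finset.mem_coe, mem_vars] at hk
  obtain ⟨m, hm, hkm⟩ := hk
  by_contra hkS
  refine (mem_support_iff.mp hm) (PT.coeff_zero hp ?_)
  filter_upwards [hd] with i hi
  rw [mem_supported] at hi
  by_contra hne
  apply hkS
  apply hi
  rw [Finset.mem_coe, mem_vars]
  exact ⟨m, mem_support_iff.mpr hne, hkm⟩

/-- the exponents of degree at most `D` -/
def expo (n D : ℕ) : Finset (Fin n →₀ ℕ) := (Finsupp.finite_of_degree_le (σ := Fin n) D).toFinset

theorem support_expo {D : ℕ} {f : MvPolynomial (Fin n) ℂ} (h : f.totalDegree ≤ D) :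
    f.support ⊆ expo n D := by
  intro m hm
  unfold expo
  rw [Set.Finite.mem_toFinset, Set.mem_setOf_eq, Finsupp.degree_apply]
  exact (le_totalDegree hm).trans h

theorem PT.nm {D : ℕ} (hp : PT L p A) (hd : ∀ᶠ i in L, (p i).totalDegree ≤ D) :
    Tendsto (fun i => nm (p i)) L (𝓝 (nm A)) := by
  rcases L.eq_or_neBot with hL | hL
  · rw [hL]
    exact tendsto_bot
  have hA : A.totalDegree ≤ D := PT.totalDegree_le hp hd
  rw [nm_eq_sum A _ (support_expo hA)]
  have h1 : Tendsto (fun i => ∑ m ∈ expo n D, ‖(p i).coeff m‖) L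
      (𝓝 (∑ m ∈ expo n D, ‖A.coeff m‖)) :=
    tendsto_finset_sum _ fun m _ => (hp m).norm
  refine h1.congr' ?_
  filter_upwards [hd] with i hi
  exact (nm_eq_sum (p i) _ (support_expo hi)).symm

theorem PT.ev {D : ℕ} (hp : PT L p A) (hd : ∀ᶠ i in L, (p i).totalDegree ≤ D)
    {s : ι → V n} {s0 : V n} (hs : Tendsto s L (𝓝 s0)) :
    Tendsto (fun i => Pool.Agent.H60.ev (p i) (s i)) L (𝓝 (Pool.Agent.H60.ev A s0)) := by
  rcases L.eq_or_neBot with hL | hL
  · rw [hL]
    exact tendsto_bot
  have hA : A.totalDegree ≤ D := PT.totalDegree_le hp hd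
  have hev : ∀ (f : MvPolynomial (Fin n) ℂ) (z : V n), f.totalDegree ≤ D →
      Pool.Agent.H60.ev f z = ∑ m ∈ expo n D, f.coeff m * ∏ i, z i ^ m i := by
    intro f z hf
    unfold Pool.Agent.H60.ev
    rw [eval_eq']
    refine Finset.sum_subset (support_expo hf) fun m _ hm => ?_
    rw [notMem_support_iff.mp hm, zero_mul]
  rw [hev A s0 hA]
  have h1 : Tendsto (fun i => ∑ m ∈ expo n D, (p i).coeff m * ∏ k, s i k ^ m k) L
      (𝓝 (∑ m ∈ expo n D, A.coeff m * ∏ k, s0 k ^ m k)) := by
    refine tendsto_finset_sum _ fun m _ => (hp m).mul ?_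
    refine tendsto_finset_prod _ fun k _ => ?_
    exact (((continuous_apply k).tendsto s0).comp hs).pow (m k)
  refine h1.congr' ?_
  filter_upwards [hd] with i hi
  exact (hev (p i) (s i) hi).symm

end Pool.Agent.H51.BJ
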