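import Pool.Agent.H51.BJ.RSF
import Pool.Agent.H51.BJ.PTA

/-! # [H51 BJ PTR] Coefficientwise convergence and rescaling

`coeff_rs`: the coefficient `m` of `rs x e p` is `e^{|m|}` times a polynomial expression in `x` and
the coefficients of `p` (the Hasse derivative `p_m (x)`), which at `x = 0` is `coeff m p`. A convenient way:
`rs x e p = rs 0 e (rs x 1 p)`, `coeff m (rs 0 e p) = e^{|m|} coeff m p`, and
`PT L (rs (x i) 1 (p i)) (rs x0 1 A)`. For the latter: `rs x 1 p = ∑ m ∈ support, C (coeff m p) * ∏ (C (x i) + X i)^(m i)`,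
a finite sum over the exponents of degree at most `D`, and `PT.mul`, `PT.add`. -/

set_option autoImplicit false

open MvPolynomial Filter Pool.Agent.H60 Pool.Agent.H57.BJ
open scoped Topology

noncomputable section

namespace Pool.Agent.H51.BJ

variable {n : ℕ} {ι : Type*} {L : Filter ι} {p : ι → MvPolynomial (Fin n) ℂ}
  {A : MvPolynomial (Fin n) ℂ}

theorem coeff_rs_zero (e : ℝ) (f : MvPolynomial (Fin n) ℂ) (m : Fin n →₀ ℕ) :
    (rs 0 e f).coeff m = (e : ℂ) ^ m.degree * f.coeff m := by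
  classical
  have hmon : ∀ (s : Fin n →₀ ℕ) (a : ℂ), BJ.rs 0 e (monomial s a) = monomial s ((e : ℂ) ^ s.degree * a) := by
    intro s a
    unfold BJ.rs
    rw [bind₁_monomial]
    have h1 : ∏ i ∈ s.support, (C ((0 : V n) i) + C (e : ℂ) * X i : MvPolynomial (Fin n) ℂ) ^ s i =
        C ((e : ℂ) ^ s.degree) * ∏ i ∈ s.support, (X i : MvPolynomial (Fin n) ℂ) ^ s i := by
      have h2 : ∀ i ∈ s.support, (C ((0 : V n) i) + C (e : ℂ) * X i : MvPolynomial (Fin n) ℂ) ^ s i =
          C ((e : ℂ) ^ s i) * (X i : MvPolynomial (Fin n) ℂ) ^ s i := by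
        intro i _
        rw [Pi.zero_apply, C_0, zero_add, mul_pow, C_pow]
      rw [Finset.prod_congr rfl h2, Finset.prod_mul_distrib, ← map_prod, Finset.prod_pow_eq_pow_sum,
        Finsupp.degree_apply]
    rw [h1, monomial_eq (s := s), C_mul, Finsupp.prod]
    ring
  induction f using MvPolynomial.induction_on' with
  | add p q hp hq => rw [rs_add, coeff_add, hp, hq, coeff_add, mul_add]
  | monomial s a =>
    rw [hmon, coeff_monomial, coeff_monomial]
    by_cases h : s = m
    · rw [if_pos h, if_pos h, h]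
    · rw [if_neg h, if_neg h, mul_zero]

private theorem PT.fsum {κ : Type*} (s : Finset κ) {P : κ → ι → MvPolynomial (Fin n) ℂ}
    {Q : κ → MvPolynomial (Fin n) ℂ} (h : ∀ k ∈ s, PT L (P k) (Q k)) :
    PT L (fun i => ∑ k ∈ s, P k i) (∑ k ∈ s, Q k) := by
  classical
  induction s using Finset.induction_on with
  | empty =>
    simp only [Finset.sum_empty]
    exact PT.const 0
  | insert k s hk ih =>
    simp only [Finset.sum_insert hk]
    exact PT.add (h k (Finset.mem_insert_self _ _))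
      (ih fun j hj => h j (Finset.mem_insert_of_mem hj))

private theorem PT.fprod {κ : Type*} (s : Finset κ) {P : κ → ι → MvPolynomial (Fin n) ℂ}
    {Q : κ → MvPolynomial (Fin n) ℂ} (h : ∀ k ∈ s, PT L (P k) (Q k)) :
    PT L (fun i => ∏ k ∈ s, P k i) (∏ k ∈ s, Q k) := by
  classical
  induction s using Finset.induction_on with
  | empty =>
    simp only [Finset.prod_empty]
    exact PT.const 1
  | insert k s hk ih =>
    simp only [Finset.prod_insert hk]
    exact PT.mul (h k (Finset.mem_insert_self _ _))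
      (ih fun j hj => h j (Finset.mem_insert_of_mem hj))

private theorem PT.fpow (hp : PT L p A) (k : ℕ) : PT L (fun i => p i ^ k) (A ^ k) := by
  induction k with
  | zero =>
    simp only [pow_zero]
    exact PT.const 1
  | succ k ih =>
    simp only [pow_succ]
    exact PT.mul ih hp

private theorem PT.fC {a : ι → ℂ} {a0 : ℂ} (ha : Tendsto a L (𝓝 a0)) :
    PT L (fun i => (C (a i) : MvPolynomial (Fin n) ℂ)) (C a0) := by
  have h := PT.C_mul ha (PT.const (L := L) (1 : MvPolynomial (Fin n) ℂ))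
  simpa only [mul_one] using h

private theorem rs_eq_sum {D : ℕ} (x : V n) (e : ℝ) {f : MvPolynomial (Fin n) ℂ} (hf : f.totalDegree ≤ D) :
    BJ.rs x e f = ∑ m ∈ expo n D, C (f.coeff m) *
      ∏ k ∈ m.support, (C (x k) + C (e : ℂ) * X k) ^ m k := by
  have h1 : BJ.rs x e f = ∑ m ∈ f.support, C (f.coeff m) *
      ∏ i ∈ m.support, (C (x i) + C (e : ℂ) * X i) ^ m i := by
    conv_lhs => rw [f.as_sum]
    unfold BJ.rs
    rw [map_sum]
    refine Finset.sum_congr rfl fun m _ => ?_
    rw [bind₁_monomial]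
  rw [h1]
  refine Finset.sum_subset (support_expo hf) fun m _ hm => ?_
  rw [notMem_support_iff.mp hm, C_0, zero_mul]

theorem PT.rs {D : ℕ} (hp : PT L p A) (hd : ∀ᶠ i in L, (p i).totalDegree ≤ D)
    {x : ι → V n} {x0 : V n} (hx : Tendsto x L (𝓝 x0)) {e : ι → ℝ} {e0 : ℝ}
    (he : Tendsto e L (𝓝 e0)) :
    PT L (fun i => BJ.rs (x i) (e i) (p i)) (BJ.rs x0 e0 A) := by
  rcases L.eq_or_neBot with hL | hL
  · intro m
    rw [hL]
    exact tendsto_bot
  have hA : A.totalDegree ≤ D := PT.totalDegree_le hp hd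
  rw [rs_eq_sum x0 e0 hA]
  have h1 : PT L (fun i => ∑ m ∈ expo n D, C ((p i).coeff m) *
      ∏ k ∈ m.support, (C (x i k) + C (e i : ℂ) * X k) ^ m k)
      (∑ m ∈ expo n D, C (A.coeff m) * ∏ k ∈ m.support, (C (x0 k) + C (e0 : ℂ) * X k) ^ m k) := by
    refine PT.fsum _ fun m _ => PT.C_mul (hp m) (PT.fprod _ fun k _ => PT.fpow ?_ (m k))
    refine PT.add (PT.fC (((continuous_apply k).tendsto x0).comp hx)) ?_
    exact PT.C_mul ((Complex.continuous_ofReal.tendsto e0).comp he) (PT.const _)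
  refine h1.congr' ?_
  filter_upwards [hd] with i hi
  exact (rs_eq_sum (x i) (e i) hi).symm

/-- the main formula: the coefficient `m` of `rs x e p` is `e^{|m|} (coeff m A + o(1))` -/
theorem PT.coeff_rs {D : ℕ} (hp : PT L p A) (hd : ∀ᶠ i in L, (p i).totalDegree ≤ D)
    {x : ι → V n} (hx : Tendsto x L (𝓝 0)) {e : ι → ℝ} (he : ∀ᶠ i in L, e i ≠ 0)
    (m : Fin n →₀ ℕ) :
    Tendsto (fun i => (BJ.rs (x i) (e i) (p i)).coeff m / (e i : ℂ) ^ m.degree) L
      (𝓝 (A.coeff m)) := by
  have h1 := PT.rs hp hd hx (e := fun _ => 1) (e0 := 1) tendsto_const_nhds m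
  have h2 : (BJ.rs 0 1 A).coeff m = A.coeff m := by
    rw [coeff_rs_zero, Complex.ofReal_one, one_pow, one_mul]
  rw [h2] at h1
  refine h1.congr' ?_
  filter_upwards [he] with i hi
  have h3 := rs_rs (x i) 0 1 (e i) (p i)
  rw [smul_zero, add_zero, one_mul] at h3
  have h4 : ((e i : ℝ) : ℂ) ^ m.degree ≠ 0 := pow_ne_zero _ (by exact_mod_cast hi)
  rw [← h3, coeff_rs_zero, mul_div_cancel_left₀ _ h4]

end Pool.Agent.H51.BJ
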