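import Pool.Agent.H51.BJ.HLB

/-! # [H51 BJ ZER] Common zeros of nondegenerate systems near the centre

`common_zero`: work at the parameter `l = 0` (`tendsto_at`). For `s = c + b ζ`, `ζ_i = 0` for `i ∉ W`:
`p_{a,j}(ζ) = f_a (c + b ζ)/NN f_a → B_a(ζ)` with all derivatives, uniformly for `‖ζ‖ ≤ 1` (`PT.ev` is
sequential; coefficientwise convergence and bounded degree give uniform convergence on bounded sets
by `norm_ev_le`). The map `Φ_j : ℂ^W → ℂ^W`, `ζ ↦ (p_{a,j}(ζ))_a`, satisfies `Φ_j(0) → 0` (`coeff 0 B_a = 0`) and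
`Φ_j' (ζ)` is within `ε'` of the invertible linear map `L = (coeff (single b 1) B_a)_{a,b}` for `‖ζ‖ ≤ r0`, `r0` small
and `j` large. So `Φ_j` approximates `L` on the ball of radius `r0` (`ApproximatesLinearOn`, mean value
inequality) with a constant `≤ ‖L⁻¹‖⁻¹/2`, and the image of the ball of radius `ε` contains the ball of
radius `ε ‖L⁻¹‖⁻¹/2` about `Φ_j(0)` (`ApproximatesLinearOn.surjOn_closedBall_of_nonlinearRightInverse` or the
contraction principle), in particular `0`.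

`res_nonzero`: `f(c + bζ)/NN f → B(ζ)` uniformly on bounded sets, and `B(ζ) ≠ 0` near `0`.
`det_lim`: `b rg (∂_l f_a)/NN f_a = ∂_l (rg f_a)/NN f_a → ∂_l B_a`; products and sums (`PT.mul`): the
determinant of the matrix of derivatives, multiplied by `b^k / ∏ NN f_a`, tends coefficientwise to
`det (∂_l B_a)`, whose constant coefficient is the determinant of the constant coefficients, `≠ 0`; then
`HasLim.of_norm`. -/

set_option autoImplicit false

open MvPolynomial Filter Pool.Agent.H60 Pool.Agent.H57.BJ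
open scoped Topology

noncomputable section

namespace Pool.Agent.H51.BJ

variable {n : ℕ} {g : Germ n} {W : Finset (Fin n)} {f B : W → MvPolynomial (Fin n) ℂ}

/-- the values of the polynomials are close to the constant coefficient of the limit near `0` -/
private theorem ev_joint {ι : Type*} {L : Filter ι} {p : ι → MvPolynomial (Fin n) ℂ}
    {A : MvPolynomial (Fin n) ℂ} {D : ℕ} (hp : PT L p A) (hd : ∀ᶠ i in L, (p i).totalDegree ≤ D)
    {η : ℝ} (hη : 0 < η) :
    ∃ r : ℝ, 0 < r ∧ ∀ᶠ i in L, ∀ s : V n, ‖s‖ ≤ r → ‖ev (p i) s - A.coeff 0‖ ≤ η := by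
  have h1 : PT (L ×ˢ 𝓝 (0 : V n)) (fun q => p q.1) A := fun m => (hp m).comp tendsto_fst
  have h2 : ∀ᶠ q in L ×ˢ 𝓝 (0 : V n), (p q.1).totalDegree ≤ D := tendsto_fst.eventually hd
  have h3 := PT.ev h1 h2 (s := fun q => q.2) (s0 := 0) tendsto_snd
  have h4 : ∀ᶠ q in L ×ˢ 𝓝 (0 : V n), ‖ev (p q.1) q.2 - A.coeff 0‖ < η := by
    have h5 : ev A 0 = A.coeff 0 := by
      unfold ev
      rw [MvPolynomial.eval_zero]
      rfl
    rw [h5] at h3
    exact (tendsto_iff_norm_sub_tendsto_zero.mp h3).eventually_lt_const hη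
  rw [eventually_prod_iff] at h4
  obtain ⟨pa, ha, pb, hb, hab⟩ := h4
  obtain ⟨r, hr, hrb⟩ := Metric.eventually_nhds_iff_ball.mp hb
  refine ⟨r / 2, half_pos hr, ?_⟩
  filter_upwards [ha] with i hi s hs
  exact (hab hi (hrb s (by rw [mem_ball_zero_iff]; linarith))).le

private theorem deg_norm (f : MvPolynomial (Fin n) ℂ) (a : ℂ) (q : ℕ × II) :
    (C a * rg g f q).totalDegree ≤ f.totalDegree := by
  refine (totalDegree_mul _ _).trans ?_
  rw [totalDegree_C, zero_add]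
  exact totalDegree_rs_le _ _ _

private theorem pderiv_norm (f : MvPolynomial (Fin n) ℂ) (a : ℂ) (q : ℕ × II) (b : Fin n) :
    pderiv b (C a * rg g f q) = C a * (C (g.b q.1 q.2 : ℂ) * rg g (pderiv b f) q) := by
  rw [pderiv_C_mul]
  unfold rg
  rw [pderiv_rs, ← smul_eq_C_mul]

private theorem deg_pderiv_norm (f : MvPolynomial (Fin n) ℂ) (a : ℂ) (q : ℕ × II) (b : Fin n) :
    (pderiv b (C a * rg g f q)).totalDegree ≤ (pderiv b f).totalDegree := by
  rw [pderiv_norm]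
  refine (totalDegree_mul _ _).trans ?_
  rw [totalDegree_C, zero_add]
  exact deg_norm _ _ _

private theorem coeff_zero_pderiv (p : MvPolynomial (Fin n) ℂ) (b : Fin n) :
    (pderiv b p).coeff 0 = p.coeff (Finsupp.single b 1) := by
  rw [coeff_pderiv]
  simp

private theorem sum_ext (F : Fin n → ℂ) (v : W → ℂ) :
    ∑ i, F i * (if h : i ∈ W then v ⟨i, h⟩ else 0) = ∑ b : W, F b * v b := by
  have h1 : ∑ i, F i * (if h : i ∈ W then v ⟨i, h⟩ else 0)
      = ∑ i ∈ W, F i * (if h : i ∈ W then v ⟨i, h⟩ else 0) := by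
    symm
    apply Finset.sum_subset (Finset.subset_univ _)
    intro i _ hi
    rw [dif_neg hi, mul_zero]
  rw [h1, ← Finset.sum_coe_sort]
  refine Finset.sum_congr rfl fun b _ => ?_
  rw [dif_pos b.2]

theorem common_zero (hb : ∀ j l, 0 < g.b j l) (hf : ∀ a, f a ≠ 0)
    (h : ∀ a, HasLim g (f a) (B a)) (h0 : ∀ a, (B a).coeff 0 = 0)
    (hd : Matrix.det (Matrix.of fun a b : W => (B a).coeff (Finsupp.single (b : Fin n) 1)) ≠ 0)
    {ε : ℝ} (hε : 0 < ε) :
    ∀ᶠ j in UF, ∃ s : V n, (∀ i, i ∉ W → s i = g.c j 0 i) ∧ ‖s - g.c j 0‖ ≤ ε * g.b j 0 ∧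
      ∀ a, ev (f a) s = 0 := by
  classical
  obtain ⟨p, hp⟩ : ∃ p : W → ℕ → MvPolynomial (Fin n) ℂ, p = fun a j =>
    C ((NN g (f a) (j, 0) : ℂ)⁻¹) * rg g (f a) (j, 0) := ⟨_, rfl⟩
  have hpt : ∀ a, PT UF (p a) (B a) := by
    intro a m
    rw [hp]
    exact tendsto_at (h a m) 0
  obtain ⟨M, hM⟩ : ∃ M : Matrix W W ℂ,
    M = Matrix.of fun a b : W => (B a).coeff (Finsupp.single (b : Fin n) 1) := ⟨_, rfl⟩
  have hMab : ∀ a b, M a b = (B a).coeff (Finsupp.single (b : Fin n) 1) := by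
    intro a b
    rw [hM, Matrix.of_apply]
  rw [← hM] at hd
  obtain ⟨L, hL⟩ : ∃ L : (W → ℂ) →L[ℂ] (W → ℂ), ∀ v a, L v a = ∑ b, M a b * v b :=
    ⟨LinearMap.toContinuousLinearMap (Matrix.toLin' M), fun v a => rfl⟩
  have hsurj : L.range = ⊤ := by
    rw [LinearMap.range_eq_top]
    have h1 : Function.Surjective M.mulVec :=
      Matrix.mulVec_surjective_iff_isUnit.mpr
        ((Matrix.isUnit_iff_isUnit_det _).mpr (isUnit_iff_ne_zero.mpr hd))
    intro y
    obtain ⟨x, hx⟩ := h1 y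
    refine ⟨x, ?_⟩
    rw [← hx]
    funext a
    exact hL x a
  have hRpos := ContinuousLinearMap.nonlinearRightInverseOfSurjective_nnnorm_pos L hsurj
  obtain ⟨R, hR⟩ : ∃ R, R = L.nonlinearRightInverseOfSurjective hsurj := ⟨_, rfl⟩
  rw [← hR] at hRpos
  have hRp : (0 : ℝ) < (R.nnnorm : ℝ) := by exact_mod_cast hRpos
  obtain ⟨c, hc⟩ : ∃ c : NNReal, c = R.nnnorm⁻¹ / 2 := ⟨_, rfl⟩
  have hcR : (c : ℝ) = (R.nnnorm : ℝ)⁻¹ / 2 := by
    rw [hc]
    push_cast
    rfl
  have hcpos : (0 : ℝ) < c := by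
    rw [hcR]
    positivity
  obtain ⟨K, hK⟩ : ∃ K : ℝ, K = Fintype.card W + 1 := ⟨_, rfl⟩
  have hKpos : 0 < K := by
    rw [hK]
    positivity
  have h1 : ∀ a b : W, ∃ r : ℝ, 0 < r ∧ ∀ᶠ j in UF, ∀ s : V n, ‖s‖ ≤ r →
      ‖ev (pderiv (b : Fin n) (p a j)) s - M a b‖ ≤ c / K := by
    intro a b
    have h2 := ev_joint (L := UF) ((hpt a).pderiv (b : Fin n))
      (D := (pderiv (b : Fin n) (f a)).totalDegree)
      (Eventually.of_forall fun j => by rw [hp]; exact deg_pderiv_norm _ _ _ _)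
      (div_pos hcpos hKpos)
    rw [coeff_zero_pderiv, ← hMab] at h2
    exact h2
  choose r hr hrj using h1
  obtain ⟨r0, hr0, hr0r⟩ : ∃ r0 : ℝ, 0 < r0 ∧ ∀ a b, r0 ≤ r a b := by
    have h2 : ∀ᶠ t in 𝓝[>] (0 : ℝ), ∀ a b, t ≤ r a b := by
      rw [eventually_all]
      intro a
      rw [eventually_all]
      intro b
      exact (eventually_le_nhds (hr a b)).filter_mono nhdsWithin_le_nhds
    obtain ⟨r0, h3, h4⟩ := (h2.and self_mem_nhdsWithin).exists
    exact ⟨r0, h4, h3⟩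
  have hall : ∀ᶠ j in UF, ∀ a b : W, ∀ s : V n, ‖s‖ ≤ r0 →
      ‖ev (pderiv (b : Fin n) (p a j)) s - M a b‖ ≤ c / K := by
    rw [eventually_all]
    intro a
    rw [eventually_all]
    intro b
    filter_upwards [hrj a b] with j hj s hs
    exact hj s (hs.trans (hr0r a b))
  obtain ⟨E, hE⟩ : ∃ E : (W → ℂ) →L[ℂ] V n,
      ∀ v i, E v i = if h : i ∈ W then v ⟨i, h⟩ else 0 := by
    refine ⟨ContinuousLinearMap.pi fun i => if h : i ∈ W then ContinuousLinearMap.proj ⟨i, h⟩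
      else 0, fun v i => ?_⟩
    rw [ContinuousLinearMap.coe_pi']
    by_cases hi : i ∈ W
    · simp only [dif_pos hi]
      rfl
    · simp only [dif_neg hi]
      rfl
  have hEn : ∀ v, ‖E v‖ ≤ ‖v‖ := by
    intro v
    rw [pi_norm_le_iff_of_nonneg (norm_nonneg _)]
    intro i
    rw [hE]
    split_ifs with hi
    · exact norm_le_pi_norm v _
    · rw [norm_zero]
      exact norm_nonneg _
  obtain ⟨ε1, hε1, hε1a, hε1b⟩ : ∃ ε1 : ℝ, 0 < ε1 ∧ ε1 ≤ ε ∧ ε1 ≤ r0 :=
    ⟨min ε r0, lt_min hε hr0, min_le_left _ _, min_le_right _ _⟩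
  have hz : ∀ᶠ j in UF, ∀ a : W, ‖ev (p a j) 0‖ ≤ c * ε1 := by
    rw [eventually_all]
    intro a
    obtain ⟨r', hr', h3⟩ := ev_joint (L := UF) (hpt a) (D := (f a).totalDegree)
      (Eventually.of_forall fun j => by rw [hp]; exact deg_norm _ _ _) (mul_pos hcpos hε1)
    filter_upwards [h3] with j hj
    have h4 := hj 0 (by rw [norm_zero]; exact hr'.le)
    rwa [h0 a, sub_zero] at h4
  filter_upwards [hall, hz] with j hj hjz
  obtain ⟨Φ, hΦ⟩ : ∃ Φ : (W → ℂ) → (W → ℂ), Φ = fun ζ a => ev (p a j) (E ζ) := ⟨_, rfl⟩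
  have hder : ∀ ζ, HasFDerivAt Φ (ContinuousLinearMap.pi fun a => (dev (p a j) (E ζ)).comp E) ζ := by
    intro ζ
    rw [hasFDerivAt_pi]
    intro a
    rw [hΦ]
    exact (hasFDerivAt_ev (p a j) (E ζ)).comp ζ E.hasFDerivAt
  have hbd : ∀ ζ ∈ Metric.closedBall (0 : W → ℂ) ε1,
      ‖(ContinuousLinearMap.pi fun a => (dev (p a j) (E ζ)).comp E) - L‖ ≤ c := by
    intro ζ hζ
    rw [mem_closedBall_zero_iff] at hζ
    apply ContinuousLinearMap.opNorm_le_bound _ hcpos.le
    intro v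
    rw [pi_norm_le_iff_of_nonneg (by positivity)]
    intro a
    have e1 : ((ContinuousLinearMap.pi (fun a => (dev (p a j) (E ζ)).comp E) - L :
        (W → ℂ) →L[ℂ] (W → ℂ)) v) a
        = ∑ b : W, (ev (pderiv (b : Fin n) (p a j)) (E ζ) - M a b) * v b := by
      have e2 : ((ContinuousLinearMap.pi (fun a => (dev (p a j) (E ζ)).comp E) - L :
        (W → ℂ) →L[ℂ] (W → ℂ)) v) a = dev (p a j) (E ζ) (E v) - L v a := rfl
      rw [e2, dev_apply, hL]
      simp only [hE, sub_mul, Finset.sum_sub_distrib]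
      rw [sum_ext]
    rw [e1]
    calc ‖∑ b : W, (ev (pderiv (b : Fin n) (p a j)) (E ζ) - M a b) * v b‖
        ≤ ∑ b : W, c / K * ‖v‖ := by
          refine norm_sum_le_of_le _ fun b _ => ?_
          rw [norm_mul]
          exact mul_le_mul (hj a b _ ((hEn ζ).trans (hζ.trans hε1b))) (norm_le_pi_norm v b)
            (norm_nonneg _) (by positivity)
      _ = Fintype.card W * (c / K * ‖v‖) := by
          rw [Finset.sum_const, nsmul_eq_mul, Finset.card_univ]
      _ ≤ K * (c / K * ‖v‖) := by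
          apply mul_le_mul_of_nonneg_right _ (by positivity)
          rw [hK]
          linarith
      _ = c * ‖v‖ := by
          field_simp
  have hap : ApproximatesLinearOn Φ L (Metric.closedBall (0 : W → ℂ) ε1) c := by
    intro x hx y hy
    exact (convex_closedBall (0 : W → ℂ) ε1).norm_image_sub_le_of_norm_hasFDerivWithin_le'
      (fun z _ => (hder z).hasFDerivWithinAt) hbd hy hx
  have hsur := hap.surjOn_closedBall_of_nonlinearRightInverse R hε1.le (le_refl _)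
  have h0mem : (0 : W → ℂ) ∈ Metric.closedBall (Φ 0) (((R.nnnorm : ℝ)⁻¹ - c) * ε1) := by
    rw [Metric.mem_closedBall, dist_zero_left]
    have e1 : (R.nnnorm : ℝ)⁻¹ - c = c := by
      rw [hcR]
      ring
    rw [e1, pi_norm_le_iff_of_nonneg (by positivity)]
    intro a
    rw [hΦ]
    simp only [map_zero]
    exact hjz a
  obtain ⟨ζ, hζ, hζ0⟩ := hsur h0mem
  rw [mem_closedBall_zero_iff] at hζ
  refine ⟨g.c j 0 + (g.b j 0 : ℂ) • E ζ, ?_, ?_, ?_⟩
  · intro i hi
    rw [Pi.add_apply, Pi.smul_apply, hE, dif_neg hi, smul_zero, add_zero]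
  · rw [add_sub_cancel_left, norm_smul, Complex.norm_real, Real.norm_of_nonneg (hb j 0).le, mul_comm]
    exact mul_le_mul_of_nonneg_right ((hEn ζ).trans (hζ.trans hε1a)) (hb j 0).le
  · intro a
    have e1 : ev (p a j) (E ζ) = 0 := by
      have := congrFun hζ0 a
      rw [hΦ] at this
      exact this
    rw [hp] at e1
    simp only [ev_mul] at e1
    have e2 : ev (C ((NN g (f a) (j, 0) : ℂ)⁻¹) : MvPolynomial (Fin n) ℂ) (E ζ)
        = (NN g (f a) (j, 0) : ℂ)⁻¹ := by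
      unfold ev
      rw [eval_C]
    rw [e2] at e1
    have e3 : (NN g (f a) (j, 0) : ℂ)⁻¹ ≠ 0 :=
      inv_ne_zero (Complex.ofReal_ne_zero.mpr (NN_pos hb (hf a) _).ne')
    rcases mul_eq_zero.mp e1 with e4 | e4
    · exact absurd e4 e3
    · unfold rg at e4
      rw [ev_rs] at e4
      exact e4

theorem res_nonzero (hb : ∀ j l, 0 < g.b j l) {p : MvPolynomial (Fin n) ℂ} (hp : p ≠ 0)
    (h : Res g p) :
    ∃ ε : ℝ, 0 < ε ∧ ∀ᶠ q in LX II, ∀ s : V n,
      ‖s - g.c q.1 q.2‖ ≤ ε * g.b q.1 q.2 → ev p s ≠ 0 := by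
  obtain ⟨B, hB, hB0⟩ := h
  obtain ⟨r, hr, h1⟩ := ev_joint (L := LX II) (p := fun q => C ((NN g p q : ℂ)⁻¹) * rg g p q) hB
    (D := p.totalDegree) (Eventually.of_forall fun q => deg_norm _ _ _)
    (half_pos (norm_pos_iff.mpr hB0))
  refine ⟨r, hr, ?_⟩
  filter_upwards [h1] with q hq s hs hs0
  have hbq := hb q.1 q.2
  have h2 := hq (((g.b q.1 q.2 : ℂ)⁻¹) • (s - g.c q.1 q.2)) (by
    rw [norm_smul, norm_inv, Complex.norm_real, Real.norm_of_nonneg hbq.le]
    rw [inv_mul_le_iff₀ hbq, mul_comm]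
    exact hs)
  have h3 : ev (C ((NN g p q : ℂ)⁻¹) * rg g p q) (((g.b q.1 q.2 : ℂ)⁻¹) • (s - g.c q.1 q.2)) = 0 := by
    rw [ev_mul]
    unfold rg
    rw [ev_rs, smul_smul, mul_inv_cancel₀ (Complex.ofReal_ne_zero.mpr hbq.ne'), one_smul,
      add_sub_cancel, hs0, mul_zero]
  rw [h3, zero_sub, norm_neg] at h2
  have := norm_pos_iff.mpr hB0
  linarith

theorem det_res (hb : ∀ j l, 0 < g.b j l) (hf : ∀ a, f a ≠ 0)
    (h : ∀ a, HasLim g (f a) (B a))
    (hd : Matrix.det (Matrix.of fun a b : W => (B a).coeff (Finsupp.single (b : Fin n) 1)) ≠ 0) :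
    Matrix.det (Matrix.of fun a b : W => pderiv (b : Fin n) (f a)) ≠ 0 ∧
      Res g (Matrix.det (Matrix.of fun a b : W => pderiv (b : Fin n) (f a))) := by
  classical
  obtain ⟨A, hA⟩ : ∃ A, A = Matrix.det (Matrix.of fun a b : W => pderiv (b : Fin n) (B a)) :=
    ⟨_, rfl⟩
  obtain ⟨D, hD⟩ : ∃ D, D = Matrix.det (Matrix.of fun a b : W => pderiv (b : Fin n) (f a)) :=
    ⟨_, rfl⟩
  rw [← hD]
  have hA0 : A.coeff 0 ≠ 0 := by
    have e1 : A.coeff 0 = Matrix.det (Matrix.of fun a b : W =>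
        (B a).coeff (Finsupp.single (b : Fin n) 1)) := by
      rw [hA, ← constantCoeff_eq, RingHom.map_det]
      congr 1
      ext a b
      rw [RingHom.mapMatrix_apply, Matrix.map_apply, Matrix.of_apply, Matrix.of_apply,
        constantCoeff_eq, coeff_zero_pderiv]
    rw [e1]
    exact hd
  have hAne : A ≠ 0 := by
    intro h1
    rw [h1, coeff_zero] at hA0
    exact hA0 rfl
  obtain ⟨ν, hν⟩ : ∃ ν : ℕ × II → ℝ, ν = fun q =>
    (∏ a : W, NN g (f a) q) / g.b q.1 q.2 ^ Fintype.card W := ⟨_, rfl⟩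
  have hνpos : ∀ q, 0 < ν q := by
    intro q
    rw [hν]
    exact div_pos (Finset.prod_pos fun a _ => NN_pos hb (hf a) q) (pow_pos (hb _ _) _)
  have key : ∀ q, C ((ν q : ℂ)⁻¹) * rg g D q = Matrix.det (Matrix.of fun a b : W =>
      pderiv (b : Fin n) (C ((NN g (f a) q : ℂ)⁻¹) * rg g (f a) q)) := by
    intro q
    have e1 : (Matrix.of fun a b : W => pderiv (b : Fin n) (C ((NN g (f a) q : ℂ)⁻¹) * rg g (f a) q))
        = Matrix.of fun a b : W => (C ((NN g (f a) q : ℂ)⁻¹) * C (g.b q.1 q.2 : ℂ)) *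
          (Matrix.of fun a b : W => rg g (pderiv (b : Fin n) (f a)) q) a b := by
      ext1 a b
      rw [Matrix.of_apply, Matrix.of_apply, Matrix.of_apply, pderiv_norm, mul_assoc]
    rw [e1, Matrix.det_mul_column]
    have e2 : rg g D q = Matrix.det (Matrix.of fun a b : W => rg g (pderiv (b : Fin n) (f a)) q) := by
      unfold rg rs
      rw [hD, AlgHom.map_det]
      rfl
    rw [← e2, Finset.prod_mul_distrib, Finset.prod_const, Finset.card_univ, ← map_prod, ← map_pow,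
      ← map_mul]
    congr 2
    rw [hν]
    push_cast
    rw [inv_div, Finset.prod_inv_distrib, div_eq_mul_inv, mul_comm]
  have hsum : ∀ (s : Finset (Equiv.Perm W)) (u : Equiv.Perm W → ℕ × II → MvPolynomial (Fin n) ℂ)
      (v : Equiv.Perm W → MvPolynomial (Fin n) ℂ), (∀ σ, PT (LX II) (u σ) (v σ)) →
      PT (LX II) (fun q => ∑ σ ∈ s, u σ q) (∑ σ ∈ s, v σ) := by
    intro s u v huv
    induction s using Finset.induction_on with
    | empty =>
      simp only [Finset.sum_empty]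
      exact PT.const 0
    | insert σ s hσ ih =>
      simp only [Finset.sum_insert hσ]
      exact (huv σ).add ih
  have hprod : ∀ (s : Finset W) (u : W → ℕ × II → MvPolynomial (Fin n) ℂ)
      (v : W → MvPolynomial (Fin n) ℂ), (∀ σ, PT (LX II) (u σ) (v σ)) →
      PT (LX II) (fun q => ∏ σ ∈ s, u σ q) (∏ σ ∈ s, v σ) := by
    intro s u v huv
    induction s using Finset.induction_on with
    | empty =>
      simp only [Finset.prod_empty]
      exact PT.const 1
    | insert σ s hσ ih =>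
      simp only [Finset.prod_insert hσ]
      exact (huv σ).mul ih
  have hlim : PT (LX II) (fun q => C ((ν q : ℂ)⁻¹) * rg g D q) A := by
    have e1 : (fun q => C ((ν q : ℂ)⁻¹) * rg g D q) = fun q => ∑ σ : Equiv.Perm W,
        C (((Equiv.Perm.sign σ : ℤ) : ℂ)) * ∏ a : W,
          pderiv (a : Fin n) (C ((NN g (f (σ a)) q : ℂ)⁻¹) * rg g (f (σ a)) q) := by
      funext q
      rw [key, Matrix.det_apply']
      refine Finset.sum_congr rfl fun σ _ => ?_
      rw [map_intCast]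
      rfl
    have e2 : A = ∑ σ : Equiv.Perm W, C (((Equiv.Perm.sign σ : ℤ) : ℂ)) * ∏ a : W,
          pderiv (a : Fin n) (B (σ a)) := by
      rw [hA, Matrix.det_apply']
      refine Finset.sum_congr rfl fun σ _ => ?_
      rw [map_intCast]
      rfl
    rw [e1, e2]
    refine hsum _ _ _ fun σ => (PT.const _).mul (hprod _ _ _ fun a => ?_)
    exact PT.pderiv (h (σ a)) (a : Fin n)
  have hDne : D ≠ 0 := by
    intro h1
    have e1 : PT (LX II) (fun q => C ((ν q : ℂ)⁻¹) * rg g D q) 0 := by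
      refine (PT.const 0).congr' (Eventually.of_forall fun q => ?_)
      rw [h1]
      unfold rg rs
      rw [map_zero, mul_zero]
    exact hAne (hlim.unique e1)
  refine ⟨hDne, _, (HasLim.of_norm hb hDne (Eventually.of_forall hνpos) hAne hlim).1, ?_⟩
  rw [coeff_C_mul]
  exact mul_ne_zero (inv_ne_zero (Complex.ofReal_ne_zero.mpr (nm_pos hAne).ne')) hA0

end Pool.Agent.H51.BJ
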