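import Pool.Agent.H51.BJ.NUB
import Pool.Agent.H51.BJ.ALG
import Pool.Agent.H51.BJ.ZER

/-! # [H51 BJ QEX] Never resolved polynomials `Q_i (t, w_i)`

`frame`: the linear forms in `LN σ` span `span {e_i : i ∈ W}` (`Ad.sub`, `Ad.sup`), so there are `|W|`
of them which are a basis; index them by `W`: `ℓ_a`, with polynomials `f_a ∈ US σ` and
`Ini σ (f_a) 1 (lf ℓ_a)`. For all large `D` the limits `B_a` of `f_a` at `σ_D` have constant coefficient
`0` and linear part `t_a ℓ_a`, `t_a > 0`; the determinant is `∏ t_a · det (ℓ_a b)_{a,b ∈ W} ≠ 0`.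

`q_us`: with the `f_a`, `J` and `Q = Q_i` of `elim` (ALG): `J` is resolved at `σ_D` (`det_res`), so
`J(s) ≠ 0` for `‖s - c(0)‖ ≤ ε b(0)` (`res_nonzero`). If `Q` were resolved at some `σ_D'`, it would be resolved
at all larger `D` (`chain_res`), so take one large `D`; by `common_zero` there is for `UF`-many `j` a
point `s` with `f_a(s) = 0`, `‖s - c(0)‖ ≤ ε b(0)`, so `J(s)^M Q(s) = 0`, `J(s) ≠ 0`, so `Q(s) = 0`,
contradicting `res_nonzero` for `Q`. So `Q ∈ US σ`.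

`w_ne_univ`: if `W = univ` then `Q_i` is a nonzero polynomial in the single variable `z_i`, for every `i`, and the
above points `s` satisfy `Q_i(s) = 0` for all `i`, so `s_i` is in a finite set independent of `j`: `‖s‖ ≤ C`. But
`‖s‖ ≥ ‖z‖ - ‖z - c(0)‖ - ‖s - c(0)‖ ≥ ‖z‖ - 2 ε b(0)`, `b(0) ≤ 2 nr z ≤ 2 √n ‖z‖`, `‖z‖ → ∞`: contradiction
for small `ε` (and `n ≥ 1` since `W` is nonempty). -/

set_option autoImplicit false

open MvPolynomial Filter Pool.Agent.H60 Pool.Agent.H57.BJ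
open scoped Topology

noncomputable section

namespace Pool.Agent.H51.BJ

variable {n : ℕ} {F : ℕ → V n → ℂ} {P : MvPolynomial (Fin n) ℂ} {σ : ℕ → SS F}
  {W : Finset (Fin n)}

private theorem coeff_lf (ℓ : V n) (b : Fin n) : (lf ℓ).coeff (Finsupp.single b 1) = ℓ b := by
  classical
  unfold lf
  rw [coeff_sum, Finset.sum_eq_single b]
  · rw [coeff_C_mul, coeff_X, if_pos rfl, mul_one]
  · intro i _ hi
    rw [coeff_C_mul, coeff_X, if_neg, mul_zero]
    intro h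
    exact hi (Finsupp.single_left_injective one_ne_zero h)
  · intro h
    exact absurd (Finset.mem_univ _) h

/-- linear forms in `LN σ` which are a basis -/
private theorem forms (h : Ad F P σ W) :
    ∃ ℓ : W → V n, (∀ a, ℓ a ∈ LN σ) ∧ Matrix.det (Matrix.of fun a b : W => ℓ a b) ≠ 0 := by
  classical
  obtain ⟨r, hr⟩ : ∃ r : V n →ₗ[ℂ] (W → ℂ), ∀ v a, r v a = v a :=
    ⟨LinearMap.funLeft ℂ ℂ (fun a : W => (a : Fin n)), fun v a => rfl⟩
  have h1 : Submodule.span ℂ (r '' LN σ) = ⊤ := by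
    rw [eq_top_iff, ← (Pi.basisFun ℂ W).span_eq, Submodule.span_le]
    rintro _ ⟨a, rfl⟩
    have h2 := Submodule.mem_map_of_mem (f := r) (h.sup a a.2)
    rw [Submodule.map_span] at h2
    have h3 : r (Pi.single (a : Fin n) 1) = Pi.basisFun ℂ W a := by
      funext b
      rw [hr, Pi.basisFun_apply]
      by_cases hab : b = a
      · subst hab
        simp
      · rw [Pi.single_eq_of_ne hab, Pi.single_eq_of_ne]
        intro h4
        exact hab (Subtype.ext h4)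
    rw [h3] at h2
    exact h2
  obtain ⟨s, hs1, hs2, hs3⟩ := exists_linearIndependent ℂ (r '' LN σ)
  rw [h1] at hs2
  have bs : Module.Basis s ℂ (W → ℂ) := Module.Basis.mk hs3 (by
    rw [Subtype.range_coe_subtype, Set.ofPred_mem_eq, hs2])
  have e : W ≃ s := (Pi.basisFun ℂ W).indexEquiv bs
  have h4 : ∀ a : W, ∃ ℓ ∈ LN σ, r ℓ = (e a : W → ℂ) := by
    intro a
    obtain ⟨ℓ, h5, h6⟩ := hs1 (e a).2
    exact ⟨ℓ, h5, h6⟩
  choose ℓ hℓ hre using h4
  refine ⟨ℓ, hℓ, ?_⟩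
  have h5 : LinearIndependent ℂ (Matrix.of fun a b : W => ℓ a b).row := by
    have h6 : (Matrix.of fun a b : W => ℓ a b).row = (fun x : s => (x : W → ℂ)) ∘ e := by
      funext a b
      rw [Function.comp_apply, ← hre, hr]
      rfl
    rw [h6]
    exact hs3.comp e e.injective
  rw [Matrix.linearIndependent_rows_iff_isUnit, Matrix.isUnit_iff_isUnit_det,
    isUnit_iff_ne_zero] at h5
  exact h5

theorem frame (h : Ad F P σ W) :
    ∃ f : W → MvPolynomial (Fin n) ℂ, (∀ a, US σ (f a)) ∧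
      ∃ D0, ∀ D, D0 ≤ D → ∃ B : W → MvPolynomial (Fin n) ℂ,
        (∀ a, HasLim (σ D).g (f a) (B a)) ∧ (∀ a, (B a).coeff 0 = 0) ∧
        Matrix.det (Matrix.of fun a b : W => (B a).coeff (Finsupp.single (b : Fin n) 1)) ≠ 0 := by
  classical
  obtain ⟨ℓ, hℓ, hdet⟩ := forms h
  choose f hf hini using hℓ
  have hD : ∀ a : W, ∃ D0, ∀ D, D0 ≤ D → ∃ (B : MvPolynomial (Fin n) ℂ) (t : ℝ),
    HasLim (σ D).g (f a) B ∧ 0 < t ∧ (∀ m : Fin n →₀ ℕ, m.degree < 1 → B.coeff m = 0) ∧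
      ∀ m : Fin n →₀ ℕ, m.degree = 1 → B.coeff m = t * (lf (ℓ a)).coeff m :=
    fun a => (hini a).2.2
  choose D0 hD0 using hD
  refine ⟨f, hf, Finset.univ.sup D0, fun D hDD => ?_⟩
  have h1 := fun a => hD0 a D ((Finset.le_sup (Finset.mem_univ a)).trans hDD)
  choose B t h2 h3 h4 h5 using h1
  refine ⟨B, h2, fun a => h4 a 0 (by simp), ?_⟩
  have e1 : (Matrix.of fun a b : W => (B a).coeff (Finsupp.single (b : Fin n) 1))
      = Matrix.of fun a b : W => (t a : ℂ) * (Matrix.of fun a b : W => ℓ a b) a b := by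
    ext a b
    rw [Matrix.of_apply, Matrix.of_apply, Matrix.of_apply, h5 a _ (by simp), coeff_lf]
  rw [e1, Matrix.det_mul_column]
  exact mul_ne_zero (Finset.prod_ne_zero_iff.mpr fun a _ =>
    Complex.ofReal_ne_zero.mpr (h3 a).ne') hdet

/-- common zeros near the centre, where the Jacobian does not vanish -/
private theorem good_points (h : Ad F P σ W) :
    ∃ f : W → MvPolynomial (Fin n) ℂ, ∃ D0, ∀ D, D0 ≤ D → ∀ ε : ℝ, 0 < ε →
      ∀ᶠ j in UF, ∃ s : V n, ‖s - (σ D).g.c j 0‖ ≤ ε * (σ D).g.b j 0 ∧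
        ∀ (Q : MvPolynomial (Fin n) ℂ) (M : ℕ),
          (Matrix.det (Matrix.of fun a b : W => pderiv (b : Fin n) (f a))) ^ M * Q
            ∈ Ideal.span (Set.range f) → ev Q s = 0 := by
  obtain ⟨f, hf, D0, hD0⟩ := frame h
  refine ⟨f, D0, fun D hD ε hε => ?_⟩
  obtain ⟨B, h1, h2, h3⟩ := hD0 D hD
  have hb := (σ D).st.ok.pos
  obtain ⟨h4, h5⟩ := det_res hb (fun a => (hf a).1) h1 h3
  obtain ⟨ε1, hε1, h6⟩ := res_nonzero hb h4 h5
  have h7 := common_zero hb (fun a => (hf a).1) h1 h2 h3 (lt_min hε hε1)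
  filter_upwards [h7, ev_LX.mp h6] with j ⟨s, _, h8, h9⟩ h10
  have hb0 := hb j 0
  refine ⟨s, h8.trans (mul_le_mul_of_nonneg_right (min_le_left _ _) hb0.le), fun Q M hQ => ?_⟩
  have h11 := h10 0 s (h8.trans (mul_le_mul_of_nonneg_right (min_le_right _ _) hb0.le))
  have h12 : Ideal.span (Set.range f) ≤ RingHom.ker (MvPolynomial.eval s) := by
    rw [Ideal.span_le]
    rintro _ ⟨a, rfl⟩
    exact h9 a
  have h13 := h12 hQ
  rw [RingHom.mem_ker, map_mul, map_pow] at h13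
  rcases mul_eq_zero.mp h13 with h14 | h14
  · exact absurd (eq_zero_of_pow_eq_zero h14) h11
  · exact h14

private theorem root_bound {Q : MvPolynomial (Fin n) ℂ} (hQ : Q ≠ 0) {i : Fin n}
    (hs : Q ∈ MvPolynomial.supported ℂ ({i} : Set (Fin n))) :
    ∃ C : ℝ, ∀ s : V n, ev Q s = 0 → ‖s i‖ ≤ C := by
  obtain ⟨q, hq⟩ : ∃ q : Polynomial ℂ, q = aeval (fun _ => Polynomial.X) Q := ⟨_, rfl⟩
  rw [mem_supported] at hs
  have h1 : ∀ s : V n, ev Q s = q.eval (s i) := by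
    intro s
    have e1 : ev Q s = ev Q (fun _ => s i) := by
      unfold ev MvPolynomial.eval
      refine eval₂Hom_congr' rfl (fun k hk _ => ?_) rfl
      have := hs hk
      rw [Set.mem_singleton_iff] at this
      rw [this]
    rw [e1, hq]
    unfold ev
    have e2 : (Polynomial.evalRingHom (s i)).comp
        ((aeval (fun _ => Polynomial.X) : MvPolynomial (Fin n) ℂ →ₐ[ℂ] Polynomial ℂ) :
          MvPolynomial (Fin n) ℂ →+* Polynomial ℂ) = MvPolynomial.eval (fun _ => s i) := by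
      refine MvPolynomial.ringHom_ext (fun a => ?_) (fun k => ?_)
      · simp
      · simp
    have e3 := congrArg (fun φ => φ Q) e2
    simp only [RingHom.comp_apply] at e3
    exact e3.symm
  have hq0 : q ≠ 0 := by
    intro h2
    apply hQ
    apply MvPolynomial.funext
    intro s
    have h3 := h1 s
    rw [h2, Polynomial.eval_zero] at h3
    rw [map_zero]
    exact h3
  obtain ⟨C, hC⟩ := isBounded_iff_forall_norm_le.mp (q.roots.toFinset.finite_toSet.isBounded)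
  refine ⟨C, fun s hs0 => hC _ ?_⟩
  rw [Finset.mem_coe, Multiset.mem_toFinset, Polynomial.mem_roots hq0, Polynomial.IsRoot, ← h1]
  exact hs0

private theorem nr_le_norm (z : V n) : nr z ≤ (n + 1) * ‖z‖ := by
  unfold nr
  rw [Real.sqrt_le_left (by positivity)]
  unfold Nn
  have h1 : ∀ i, ‖z i‖ ^ 2 ≤ ‖z‖ ^ 2 := fun i => by
    have := norm_le_pi_norm z i
    gcongr
  calc ∑ i, ‖z i‖ ^ 2 ≤ ∑ _i : Fin n, ‖z‖ ^ 2 := Finset.sum_le_sum fun i _ => h1 i
    _ = n * ‖z‖ ^ 2 := by simp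
    _ ≤ ((n + 1) * ‖z‖) ^ 2 := by
      rw [mul_pow]
      apply mul_le_mul_of_nonneg_right _ (by positivity)
      nlinarith [Nat.cast_nonneg (α := ℝ) n]

theorem q_us (h : Ad F P σ W) (i : Fin n) (hi : i ∈ W) :
    ∃ Q : MvPolynomial (Fin n) ℂ, US σ Q ∧
      Q ∈ MvPolynomial.supported ℂ (((W : Set (Fin n))ᶜ) ∪ {i}) := by
  obtain ⟨f, D0, hf⟩ := good_points h
  obtain ⟨Q, M, hQ, hQs, hQm⟩ := elim W f i hi
  refine ⟨Q, ⟨hQ, fun D' hres => ?_⟩, hQs⟩
  have h1 := chain_res h.ch (le_max_left D' D0) hQ hres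
  obtain ⟨ε, hε, h2⟩ := res_nonzero (σ (max D' D0)).st.ok.pos hQ h1
  obtain ⟨j, ⟨s, h3, h4⟩, h5⟩ := ((hf _ (le_max_right D' D0) ε hε).and (ev_LX.mp h2)).exists
  exact h5 0 s h3 (h4 Q M hQm)

theorem w_ne_univ (h : Ad F P σ W) : W ≠ Finset.univ := by
  intro hW
  obtain ⟨i0, hi0⟩ := h.ne
  obtain ⟨f, D0, hf⟩ := good_points h
  have h1 : ∀ i : Fin n, ∃ C : ℝ, ∀ s : V n, (∀ (Q : MvPolynomial (Fin n) ℂ) (M : ℕ),
      (Matrix.det (Matrix.of fun a b : W => pderiv (b : Fin n) (f a))) ^ M * Q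
        ∈ Ideal.span (Set.range f) → ev Q s = 0) → ‖s i‖ ≤ C := by
    intro i
    obtain ⟨Q, M, hQ, hQs, hQm⟩ := elim W f i (by rw [hW]; exact Finset.mem_univ _)
    have h2 : ((W : Set (Fin n))ᶜ) ∪ {i} = {i} := by
      rw [hW]
      simp
    rw [h2] at hQs
    obtain ⟨C, hC⟩ := root_bound hQ hQs
    exact ⟨C, fun s hs => hC s (hs Q M hQm)⟩
  choose C hC using h1
  obtain ⟨K, hK⟩ : ∃ K : ℝ, K = n + 1 := ⟨_, rfl⟩
  have hKpos : 0 < K := by
    rw [hK]
    positivity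
  obtain ⟨C1, hC1⟩ : ∃ C1 : ℝ, C1 = ∑ i, |C i| := ⟨_, rfl⟩
  have hC1n : 0 ≤ C1 := by
    rw [hC1]
    exact Finset.sum_nonneg fun i _ => abs_nonneg _
  have hε : 0 < 1 / (8 * K) := by positivity
  have con := (σ D0).st.con
  have hb := (σ D0).st.ok.pos
  obtain ⟨j, ⟨s, h3, h4⟩, h5, h6, h7⟩ := ((hf D0 (le_refl _) _ hε).and
    ((con.z0.eventually_lt_const hε).and (con.zb.and
      (con.zt.eventually_gt_atTop (2 * K * C1))))).exists
  have hb0 := hb j 0
  have h8 : ‖s‖ ≤ C1 := by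
    rw [pi_norm_le_iff_of_nonneg hC1n]
    intro i
    refine (hC i s h4).trans ((le_abs_self _).trans ?_)
    rw [hC1]
    exact Finset.single_le_sum (f := fun i => |C i|) (fun i _ => abs_nonneg _) (Finset.mem_univ i)
  rw [div_lt_iff₀ hb0] at h5
  have h9 : ‖(σ D0).z j‖ ≤ 2 * (1 / (8 * K) * (σ D0).g.b j 0) + C1 := by
    have e1 : (σ D0).z j = ((σ D0).z j - (σ D0).g.c j 0) - (s - (σ D0).g.c j 0) + s := by abel
    calc ‖(σ D0).z j‖ = ‖((σ D0).z j - (σ D0).g.c j 0) - (s - (σ D0).g.c j 0) + s‖ := by rw [← e1]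
      _ ≤ ‖((σ D0).z j - (σ D0).g.c j 0) - (s - (σ D0).g.c j 0)‖ + ‖s‖ := norm_add_le _ _
      _ ≤ (‖(σ D0).z j - (σ D0).g.c j 0‖ + ‖s - (σ D0).g.c j 0‖) + ‖s‖ := by
          gcongr
          exact norm_sub_le _ _
      _ ≤ 2 * (1 / (8 * K) * (σ D0).g.b j 0) + C1 := by linarith
  have h10 := nr_le_norm ((σ D0).z j)
  rw [← hK] at h10
  have h11 : 2 * (1 / (8 * K) * (σ D0).g.b j 0) ≤ ‖(σ D0).z j‖ / 2 := by
    have e1 : 1 / (8 * K) * (σ D0).g.b j 0 ≤ 1 / (8 * K) * (2 * (K * ‖(σ D0).z j‖)) :=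
      mul_le_mul_of_nonneg_left (by linarith) hε.le
    have e2 : 1 / (8 * K) * (2 * (K * ‖(σ D0).z j‖)) = ‖(σ D0).z j‖ / 4 := by
      field_simp
      ring
    linarith
  have h12 : ‖(σ D0).z j‖ ≤ 2 * C1 := by linarith
  have h13 : nr ((σ D0).z j) ≤ 2 * K * C1 := by
    calc nr ((σ D0).z j) ≤ K * ‖(σ D0).z j‖ := h10
      _ ≤ K * (2 * C1) := mul_le_mul_of_nonneg_left h12 hKpos.le
      _ = 2 * K * C1 := by ring
  linarith

end Pool.Agent.H51.BJ
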