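import Pool.Agent.H51.BJ.HLB

/-! # [H51 BJ RFN] Behaviour of the limits under refinement

`g'` is a refinement of `g`: `x = (c' - c)/b → 0`, `e = b'/b → 0`, and `rg g' f = rs x e (rg g f)`
by `rs_rs`. By `PT.coeff_rs` applied to `p = C (NN g f)⁻¹ * rg g f`: the coefficient `m` of
`rg g' f` is `e^{|m|} (coeff m B + o(1)) NN g f` (this is `coeff_ref`). Summing the absolute values over the
exponents of degree at most `f.totalDegree` gives `NN g' f`. (frozen): if `coeff 0 B ≠ 0` the term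
`m = 0` dominates. (small): if `coeff 0 B = 0` all terms are `o(NN g f)`. (order): if `μ` is the
order of `B`, then `NN g' f ≥ c e^μ NN g f`, so for `|m| > μ` the quotient by `NN g' f` tends to
`0`; for `|m| = μ` the quotient is `(e^μ NN g f / NN g' f) (coeff m B + o(1))` and the real factor
converges, because it converges for one `m` with `coeff m B ≠ 0`. -/

set_option autoImplicit false

open MvPolynomial Filter Pool.Agent.H60 Pool.Agent.H57.BJ
open scoped Topology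

noncomputable section

namespace Pool.Agent.H51.BJ

variable {n : ℕ} {g g' : Germ n} {f B B' : MvPolynomial (Fin n) ℂ}

theorem coeff_ref (hb : ∀ j l, 0 < g.b j l) (hb' : ∀ j l, 0 < g'.b j l) (hr : Ref g' g)
    (hf : f ≠ 0) (h1 : HasLim g f B) (m : Fin n →₀ ℕ) :
    Tendsto (fun q : ℕ × II => (rg g' f q).coeff m /
      (((g'.b q.1 q.2 / g.b q.1 q.2) ^ m.degree * NN g f q : ℝ) : ℂ)) (LX II)
      (𝓝 (B.coeff m)) := by
  have hx : Tendsto (fun q : ℕ × II => ((g.b q.1 q.2 : ℂ)⁻¹) • (g'.c q.1 q.2 - g.c q.1 q.2)) (LX II)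
      (𝓝 (0 : V n)) := by
    rw [tendsto_zero_iff_norm_tendsto_zero]
    refine hr.1.congr fun q => ?_
    rw [norm_smul, norm_inv, Complex.norm_real, Real.norm_eq_abs, abs_of_pos (hb q.1 q.2),
      div_eq_mul_inv, mul_comm]
  have h2 := PT.coeff_rs (D := f.totalDegree) h1 (Filter.Eventually.of_forall fun q =>
    (degree_C_mul_le _ _).trans (rg_degree f q)) hx
    (e := fun q => g'.b q.1 q.2 / g.b q.1 q.2)
    (Filter.Eventually.of_forall fun q => (div_pos (hb' q.1 q.2) (hb q.1 q.2)).ne') m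
  refine h2.congr fun q => ?_
  have hbq : (g.b q.1 q.2 : ℂ) ≠ 0 := by exact_mod_cast (hb q.1 q.2).ne'
  have h3 : BJ.rs (((g.b q.1 q.2 : ℂ)⁻¹) • (g'.c q.1 q.2 - g.c q.1 q.2)) (g'.b q.1 q.2 / g.b q.1 q.2)
      (rg g f q) = rg g' f q := by
    unfold rg
    rw [rs_rs, smul_smul, mul_inv_cancel₀ hbq, one_smul, add_sub_cancel,
      mul_div_cancel₀ _ (hb q.1 q.2).ne']
  rw [rs_C_mul, h3, coeff_C_mul]
  push_cast
  rw [mul_comm ((_ : ℂ) ^ m.degree), ← div_div, div_eq_inv_mul ((rg g' f q).coeff m)]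

private theorem ref_PT (hb : ∀ j l, 0 < g.b j l) (hb' : ∀ j l, 0 < g'.b j l) (hr : Ref g' g)
    (hf : f ≠ 0) (h1 : HasLim g f B) :
    PT (LX II) (fun q => C ((NN g f q : ℂ)⁻¹) * rg g' f q) (C (B.coeff 0)) := by
  classical
  intro m
  have h2 := coeff_ref hb hb' hr hf h1 m
  have he : Tendsto (fun q : ℕ × II => ((g'.b q.1 q.2 / g.b q.1 q.2 : ℝ) : ℂ) ^ m.degree) (LX II)
      (𝓝 (((0 : ℝ) : ℂ) ^ m.degree)) :=
    ((Complex.continuous_ofReal.tendsto 0).comp hr.2).pow m.degree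
  have h3 := h2.mul he
  have h4 : B.coeff m * ((0 : ℝ) : ℂ) ^ m.degree = (C (B.coeff 0) : MvPolynomial (Fin n) ℂ).coeff m := by
    rw [coeff_C, Complex.ofReal_zero]
    by_cases hm : 0 = m
    · rw [if_pos hm, ← hm]
      simp
    · rw [if_neg hm, zero_pow, mul_zero]
      intro h5
      exact hm ((Finsupp.degree_eq_zero_iff m).mp h5).symm
  rw [h4] at h3
  refine h3.congr fun q => ?_
  have p1 : ((g'.b q.1 q.2 / g.b q.1 q.2 : ℝ) : ℂ) ^ m.degree ≠ 0 :=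
    pow_ne_zero _ (by exact_mod_cast (div_pos (hb' q.1 q.2) (hb q.1 q.2)).ne')
  have p2 : (NN g f q : ℂ) ≠ 0 := by exact_mod_cast (NN_pos hb hf q).ne'
  rw [coeff_C_mul, Complex.ofReal_mul, Complex.ofReal_pow]
  field_simp

theorem ref_frozen (hb : ∀ j l, 0 < g.b j l) (hb' : ∀ j l, 0 < g'.b j l) (hr : Ref g' g)
    (hf : f ≠ 0) (h1 : HasLim g f B) (h0 : B.coeff 0 ≠ 0) :
    HasLim g' f (C (B.coeff 0 / ‖B.coeff 0‖)) ∧
      Tendsto (fun q => NN g' f q / NN g f q) (LX II) (𝓝 ‖B.coeff 0‖) := by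
  have hC : (C (B.coeff 0) : MvPolynomial (Fin n) ℂ) ≠ 0 := by
    intro h
    exact h0 (C_eq_zero.mp h)
  have h2 := HasLim.of_norm (g := g') (f := f) hb' hf (ν := fun q => NN g f q)
    (Filter.Eventually.of_forall fun q => NN_pos hb hf q) hC (ref_PT hb hb' hr hf h1)
  rw [nm_C] at h2
  refine ⟨?_, h2.2⟩
  have h3 : (C (B.coeff 0 / ‖B.coeff 0‖) : MvPolynomial (Fin n) ℂ) =
      C ((‖B.coeff 0‖ : ℂ)⁻¹) * C (B.coeff 0) := by
    rw [← C_mul, div_eq_mul_inv, mul_comm]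
  rw [h3]
  exact h2.1

theorem ref_small (hb : ∀ j l, 0 < g.b j l) (hb' : ∀ j l, 0 < g'.b j l) (hr : Ref g' g)
    (hf : f ≠ 0) (h1 : HasLim g f B) (h0 : B.coeff 0 = 0) :
    Tendsto (fun q => NN g' f q / NN g f q) (LX II) (𝓝 0) := by
  have h2 := ref_PT hb hb' hr hf h1
  rw [h0, C_0] at h2
  have h3 := PT.nm (D := f.totalDegree) h2 (Filter.Eventually.of_forall fun q =>
    (degree_C_mul_le _ _).trans (rg_degree f q))
  rw [nm_eq_zero.mpr rfl] at h3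
  refine h3.congr fun q => ?_
  rw [nm_C_mul, norm_inv, Complex.norm_real, Real.norm_eq_abs, abs_of_pos (NN_pos hb hf q),
    div_eq_mul_inv, mul_comm]
  rfl

theorem ref_order (hb : ∀ j l, 0 < g.b j l) (hb' : ∀ j l, 0 < g'.b j l) (hr : Ref g' g)
    (hf : f ≠ 0) (h1 : HasLim g f B) (h2 : HasLim g' f B') (μ : ℕ)
    (hμ : ∀ m : Fin n →₀ ℕ, m.degree < μ → B.coeff m = 0)
    (hne : ∃ m : Fin n →₀ ℕ, m.degree = μ ∧ B.coeff m ≠ 0) :
    (∀ m : Fin n →₀ ℕ, μ < m.degree → B'.coeff m = 0) ∧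
      ∃ t : ℝ, 0 ≤ t ∧ ∀ m : Fin n →₀ ℕ, m.degree = μ → B'.coeff m = t * B.coeff m := by
  obtain ⟨r, hr0⟩ : ∃ r : ℕ × II → ℝ, ∀ q, r q = (g'.b q.1 q.2 / g.b q.1 q.2) ^ μ * NN g f q / NN g' f q :=
    ⟨_, fun _ => rfl⟩
  have hpe : ∀ q : ℕ × II, 0 < g'.b q.1 q.2 / g.b q.1 q.2 := fun q => div_pos (hb' q.1 q.2) (hb q.1 q.2)
  have hrp : ∀ q, 0 < r q := fun q => by
    rw [hr0]
    exact div_pos (mul_pos (pow_pos (hpe q) μ) (NN_pos hb hf q)) (NN_pos hb' hf q)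
  have hB' : ∀ m, Tendsto (fun q => (rg g' f q).coeff m / (NN g' f q : ℂ)) (LX II) (𝓝 (B'.coeff m)) := by
    intro m
    refine (h2 m).congr fun q => ?_
    rw [coeff_C_mul, div_eq_mul_inv, mul_comm]
  obtain ⟨m0, hm0, hm0'⟩ := hne
  have hrlim : Tendsto (fun q => ((r q : ℝ) : ℂ)) (LX II) (𝓝 (B'.coeff m0 / B.coeff m0)) := by
    have h3 := coeff_ref hb hb' hr hf h1 m0
    refine ((hB' m0).div h3 hm0').congr' ?_
    have h4 : ∀ᶠ q in LX II, (rg g' f q).coeff m0 /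
      (((g'.b q.1 q.2 / g.b q.1 q.2) ^ m0.degree * NN g f q : ℝ) : ℂ) ≠ 0 := h3.eventually_ne hm0'
    filter_upwards [h4] with q hq
    rw [hm0] at hq
    have hc : (rg g' f q).coeff m0 ≠ 0 := by
      intro h
      rw [h, zero_div] at hq
      exact hq rfl
    have p1 : ((g'.b q.1 q.2 / g.b q.1 q.2 : ℝ) : ℂ) ^ μ ≠ 0 :=
      pow_ne_zero _ (by exact_mod_cast (hpe q).ne')
    have p2 : (NN g f q : ℂ) ≠ 0 := by exact_mod_cast (NN_pos hb hf q).ne'
    have p3 : (NN g' f q : ℂ) ≠ 0 := by exact_mod_cast (NN_pos hb' hf q).ne'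
    simp only [Pi.div_apply]
    rw [hr0, hm0]
    push_cast
    push_cast at p1
    field_simp
  have hre : Tendsto r (LX II) (𝓝 (B'.coeff m0 / B.coeff m0).re) := by
    have h3 := (Complex.continuous_re.tendsto _).comp hrlim
    exact h3.congr fun q => Complex.ofReal_re _
  obtain ⟨t, ht⟩ : ∃ t, t = (B'.coeff m0 / B.coeff m0).re := ⟨_, rfl⟩
  rw [← ht] at hre
  have ht0 : 0 ≤ t := ge_of_tendsto' hre fun q => (hrp q).le
  have hret : Tendsto (fun q => ((r q : ℝ) : ℂ)) (LX II) (𝓝 (t : ℂ)) :=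
    (Complex.continuous_ofReal.tendsto t).comp hre
  constructor
  · intro m hm
    have h3 := coeff_ref hb hb' hr hf h1 m
    have he : Tendsto (fun q : ℕ × II => ((g'.b q.1 q.2 / g.b q.1 q.2 : ℝ) : ℂ) ^ (m.degree - μ)) (LX II)
        (𝓝 (((0 : ℝ) : ℂ) ^ (m.degree - μ))) :=
      ((Complex.continuous_ofReal.tendsto 0).comp hr.2).pow _
    rw [Complex.ofReal_zero, zero_pow (by omega)] at he
    have h5 := (h3.mul he).mul hret
    rw [mul_zero, zero_mul] at h5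
    refine tendsto_nhds_unique (hB' m) (h5.congr fun q => ?_)
    have p1 : ((g'.b q.1 q.2 / g.b q.1 q.2 : ℝ) : ℂ) ≠ 0 := by exact_mod_cast (hpe q).ne'
    have p2 : (NN g f q : ℂ) ≠ 0 := by exact_mod_cast (NN_pos hb hf q).ne'
    have p3 : (NN g' f q : ℂ) ≠ 0 := by exact_mod_cast (NN_pos hb' hf q).ne'
    have e1 : ((g'.b q.1 q.2 / g.b q.1 q.2 : ℝ) : ℂ) ^ m.degree =
        ((g'.b q.1 q.2 / g.b q.1 q.2 : ℝ) : ℂ) ^ (m.degree - μ) *
          ((g'.b q.1 q.2 / g.b q.1 q.2 : ℝ) : ℂ) ^ μ := by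
      rw [← pow_add]
      congr 1
      omega
    rw [hr0, Complex.ofReal_mul, Complex.ofReal_pow, Complex.ofReal_div (_ * _), Complex.ofReal_mul (_ ^ μ),
      Complex.ofReal_pow, e1]
    have p4 := pow_ne_zero μ p1
    have p5 := pow_ne_zero (m.degree - μ) p1
    field_simp
  · refine ⟨t, ht0, fun m hm => ?_⟩
    have h3 := (coeff_ref hb hb' hr hf h1 m).mul hret
    rw [mul_comm (t : ℂ)]
    refine tendsto_nhds_unique (hB' m) (h3.congr fun q => ?_)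
    have p1 : ((g'.b q.1 q.2 / g.b q.1 q.2 : ℝ) : ℂ) ≠ 0 := by exact_mod_cast (hpe q).ne'
    have p2 : (NN g f q : ℂ) ≠ 0 := by exact_mod_cast (NN_pos hb hf q).ne'
    have p3 : (NN g' f q : ℂ) ≠ 0 := by exact_mod_cast (NN_pos hb' hf q).ne'
    rw [hr0, hm, Complex.ofReal_mul, Complex.ofReal_pow, Complex.ofReal_div (_ * _),
      Complex.ofReal_mul (_ ^ μ), Complex.ofReal_pow]
    have p4 := pow_ne_zero μ p1
    field_simp

theorem Ref.trans {g'' : Germ n} (hb : ∀ j l, 0 < g.b j l) (hb' : ∀ j l, 0 < g'.b j l)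
    (h1 : Ref g'' g') (h2 : Ref g' g) : Ref g'' g := by
  constructor
  · have h3 := (h1.1.mul h2.2).add h2.1
    rw [zero_mul, add_zero] at h3
    refine squeeze_zero (fun q => div_nonneg (norm_nonneg _) (hb q.1 q.2).le) (fun q => ?_) h3
    have p1 := hb q.1 q.2
    have p2 := hb' q.1 q.2
    have e1 : ‖g''.c q.1 q.2 - g'.c q.1 q.2‖ / g'.b q.1 q.2 * (g'.b q.1 q.2 / g.b q.1 q.2) =
        ‖g''.c q.1 q.2 - g'.c q.1 q.2‖ / g.b q.1 q.2 := div_mul_div_cancel₀ p2.ne'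
    rw [e1, ← add_div]
    refine div_le_div_of_nonneg_right ?_ p1.le
    have e2 : g''.c q.1 q.2 - g.c q.1 q.2 = (g''.c q.1 q.2 - g'.c q.1 q.2) + (g'.c q.1 q.2 - g.c q.1 q.2) := by
      abel
    rw [e2]
    exact norm_add_le _ _
  · have h3 := h1.2.mul h2.2
    rw [zero_mul] at h3
    exact h3.congr fun q => div_mul_div_cancel₀ (hb' q.1 q.2).ne'

/-- resolved polynomials stay resolved -/
theorem Res.ref (hb : ∀ j l, 0 < g.b j l) (hb' : ∀ j l, 0 < g'.b j l) (hr : Ref g' g)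
    (hf : f ≠ 0) (h : Res g f) : Res g' f := by
  obtain ⟨B, h1, h0⟩ := h
  refine ⟨_, (ref_frozen hb hb' hr hf h1 h0).1, ?_⟩
  rw [coeff_C, if_pos rfl]
  exact div_ne_zero h0 (by exact_mod_cast (norm_pos_iff.mpr h0).ne')

end Pool.Agent.H51.BJ
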