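import Pool.Agent.H51.BJ.ROD

/-! # [H51 BJ ROA] Unitary change of variables: polynomials and limits

`ev_rotP`: `ev (rotP U f) z = ev f (U z)`. `rotP_rotP`: composition; `rotP Uᴴ` is the inverse of
`rotP U` for unitary `U`. `rg_rot`: `rs (Uᴴ c) b (rotP U f) = rotP U (rs c b f)` (evaluate: at `s` both
sides are `f (c + b U s)`, `U Uᴴ = 1`). `PT.rotP`: each coefficient of `rotP U p` is a finite linear
combination of the coefficients of `p` of the same degree. `HasLim.rot`: use `HasLim.of_norm` with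
`ν = NN g f`, the limit is `rotP U B ≠ 0`, normalised; `NN_rot`: the ratio of the norms tends to
`nm (rotP U B) > 0`. `GOk.rot`: `T2` by `Tame.congr`. -/

set_option autoImplicit false

open MvPolynomial Filter Pool.Agent.H60 Pool.Agent.H57.BJ
open scoped Topology Matrix

noncomputable section

namespace Pool.Agent.H51.BJ

variable {n : ℕ} {U : Matrix (Fin n) (Fin n) ℂ} {g : Germ n} {f B : MvPolynomial (Fin n) ℂ}

theorem ev_rotP (U : Matrix (Fin n) (Fin n) ℂ) (f : MvPolynomial (Fin n) ℂ) (z : V n) :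
    ev (rotP U f) z = ev f (U.mulVec z) := by
  unfold ev rotP
  induction f using MvPolynomial.induction_on with
  | C a => simp
  | add p q hp hq => rw [map_add, map_add, hp, hq, map_add]
  | mul_X p i hp =>
    rw [map_mul, map_mul, hp, map_mul, bind₁_X_right]
    simp [Matrix.mulVec, dotProduct]

theorem rotP_rotP (U U' : Matrix (Fin n) (Fin n) ℂ) (f : MvPolynomial (Fin n) ℂ) :
    rotP U (rotP U' f) = rotP (U' * U) f := by
  refine MvPolynomial.funext fun z => ?_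
  have h1 := ev_rotP U (rotP U' f) z
  have h2 := ev_rotP U' f (U.mulVec z)
  have h3 := ev_rotP (U' * U) f z
  rw [h2, Matrix.mulVec_mulVec, ← h3] at h1
  exact h1

theorem rotP_mul (U : Matrix (Fin n) (Fin n) ℂ) (f h : MvPolynomial (Fin n) ℂ) :
    rotP U (f * h) = rotP U f * rotP U h := by
  unfold rotP
  exact map_mul _ _ _

theorem rotP_C (U : Matrix (Fin n) (Fin n) ℂ) (a : ℂ) :
    rotP U (C a : MvPolynomial (Fin n) ℂ) = C a := by
  unfold rotP
  exact bind₁_C_right _ _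

theorem rotP_one (f : MvPolynomial (Fin n) ℂ) : rotP 1 f = f := by
  refine MvPolynomial.funext fun z => ?_
  have h1 := ev_rotP (1 : Matrix (Fin n) (Fin n) ℂ) f z
  rw [Matrix.one_mulVec] at h1
  exact h1

theorem uni_l (hU : U ∈ Matrix.unitaryGroup (Fin n) ℂ) : U * Uᴴ = 1 :=
  Matrix.mem_unitaryGroup_iff.1 hU

theorem uni_r (hU : U ∈ Matrix.unitaryGroup (Fin n) ℂ) : Uᴴ * U = 1 :=
  Matrix.mem_unitaryGroup_iff'.1 hU

theorem uni_star (hU : U ∈ Matrix.unitaryGroup (Fin n) ℂ) : Uᴴ ∈ Matrix.unitaryGroup (Fin n) ℂ := by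
  rw [Matrix.mem_unitaryGroup_iff, Matrix.star_eq_conjTranspose, Matrix.conjTranspose_conjTranspose]
  exact uni_r hU

/-- `rotP Uᴴ` is inverse to `rotP U` -/
theorem rotP_inv (hU : U ∈ Matrix.unitaryGroup (Fin n) ℂ) (f : MvPolynomial (Fin n) ℂ) :
    rotP Uᴴ (rotP U f) = f := by
  rw [rotP_rotP, uni_l hU, rotP_one]

theorem rotP_inv' (hU : U ∈ Matrix.unitaryGroup (Fin n) ℂ) (f : MvPolynomial (Fin n) ℂ) :
    rotP U (rotP Uᴴ f) = f := by
  rw [rotP_rotP, uni_r hU, rotP_one]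

theorem rotP_ne_zero (hU : U ∈ Matrix.unitaryGroup (Fin n) ℂ) (hf : f ≠ 0) : rotP U f ≠ 0 := by
  intro h
  apply hf
  rw [← rotP_inv hU f, h]
  unfold rotP
  exact map_zero _

theorem totalDegree_rotP_le (U : Matrix (Fin n) (Fin n) ℂ) (f : MvPolynomial (Fin n) ℂ) :
    (rotP U f).totalDegree ≤ f.totalDegree := by
  have h1 : rotP U f = ∑ m ∈ f.support, C (f.coeff m) *
      ∏ i ∈ m.support, (∑ l, C (U i l) * X l) ^ m i := by
    conv_lhs => rw [f.as_sum]
    unfold rotP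
    rw [map_sum]
    refine Finset.sum_congr rfl fun m _ => ?_
    rw [bind₁_monomial]
  rw [h1]
  refine totalDegree_finsetSum_le fun m hm => ?_
  refine (totalDegree_mul _ _).trans ?_
  rw [totalDegree_C, zero_add]
  refine (totalDegree_finsetProd _ _).trans ?_
  refine le_trans ?_ (le_totalDegree hm)
  refine Finset.sum_le_sum fun i _ => ?_
  refine (totalDegree_pow _ _).trans ?_
  have h2 : (∑ l, C (U i l) * X l : MvPolynomial (Fin n) ℂ).totalDegree ≤ 1 := by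
    refine totalDegree_finsetSum_le fun l _ => ?_
    refine (totalDegree_mul _ _).trans ?_
    rw [totalDegree_C, totalDegree_X]
  calc m i * (∑ l, C (U i l) * X l : MvPolynomial (Fin n) ℂ).totalDegree ≤ m i * 1 :=
      Nat.mul_le_mul_left _ h2
    _ = m i := Nat.mul_one _

theorem totalDegree_rotP (hU : U ∈ Matrix.unitaryGroup (Fin n) ℂ) (f : MvPolynomial (Fin n) ℂ) :
    (rotP U f).totalDegree = f.totalDegree := by
  refine le_antisymm (totalDegree_rotP_le U f) ?_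
  have h := totalDegree_rotP_le Uᴴ (rotP U f)
  rwa [rotP_inv hU] at h

theorem rg_rot (hU : U ∈ Matrix.unitaryGroup (Fin n) ℂ) (g : Germ n) (f : MvPolynomial (Fin n) ℂ)
    (q : ℕ × II) : rg (rotG U g) (rotP U f) q = rotP U (rg g f q) := by
  refine MvPolynomial.funext fun s => ?_
  unfold rg
  have h1 := ev_rs ((rotG U g).c q.1 q.2) ((rotG U g).b q.1 q.2) (rotP U f) s
  have h2 := ev_rotP U (rs (g.c q.1 q.2) (g.b q.1 q.2) f) s
  have h3 := ev_rs (g.c q.1 q.2) (g.b q.1 q.2) f (U.mulVec s)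
  have h4 := ev_rotP U f ((rotG U g).c q.1 q.2 + ((rotG U g).b q.1 q.2 : ℂ) • s)
  have h5 : U.mulVec ((rotG U g).c q.1 q.2 + ((rotG U g).b q.1 q.2 : ℂ) • s) =
      g.c q.1 q.2 + (g.b q.1 q.2 : ℂ) • U.mulVec s := by
    rw [Matrix.mulVec_add, Matrix.mulVec_smul]
    change U.mulVec ((Uᴴ).mulVec (g.c q.1 q.2)) + (g.b q.1 q.2 : ℂ) • U.mulVec s = _
    rw [Matrix.mulVec_mulVec, uni_l hU, Matrix.one_mulVec]
  rw [h5] at h4
  rw [h4, ← h3, ← h2] at h1
  exact h1

theorem coeff_rotP_sum (U : Matrix (Fin n) (Fin n) ℂ) {D : ℕ} {f : MvPolynomial (Fin n) ℂ}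
    (hf : f.totalDegree ≤ D) (m : Fin n →₀ ℕ) :
    (rotP U f).coeff m = ∑ m' ∈ expo n D, f.coeff m' * (rotP U (monomial m' 1)).coeff m := by
  have h1 : rotP U f = ∑ m' ∈ f.support, C (f.coeff m') * rotP U (monomial m' 1) := by
    conv_lhs => rw [f.as_sum]
    unfold rotP
    rw [map_sum]
    refine Finset.sum_congr rfl fun m' _ => ?_
    rw [bind₁_monomial, bind₁_monomial, C_1, one_mul]
  rw [h1, coeff_sum]
  simp only [coeff_C_mul]
  refine Finset.sum_subset (support_expo hf) fun m' _ hm => ?_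
  rw [notMem_support_iff.mp hm, zero_mul]

theorem PT.rotP {ι : Type*} {L : Filter ι} {p : ι → MvPolynomial (Fin n) ℂ}
    {A : MvPolynomial (Fin n) ℂ} (U : Matrix (Fin n) (Fin n) ℂ) {D : ℕ} (hp : PT L p A)
    (hd : ∀ᶠ i in L, (p i).totalDegree ≤ D) (hA : A.totalDegree ≤ D) :
    PT L (fun i => BJ.rotP U (p i)) (BJ.rotP U A) := by
  intro m
  rw [coeff_rotP_sum U hA m]
  have h1 : Tendsto (fun i => ∑ m' ∈ expo n D, (p i).coeff m' *
      (BJ.rotP U (monomial m' 1)).coeff m) L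
      (𝓝 (∑ m' ∈ expo n D, A.coeff m' * (BJ.rotP U (monomial m' 1)).coeff m)) :=
    tendsto_finsetSum _ fun m' _ => (hp m').mul_const _
  refine h1.congr' ?_
  filter_upwards [hd] with i hi
  exact (coeff_rotP_sum U hi m).symm

theorem HasLim.rot (hU : U ∈ Matrix.unitaryGroup (Fin n) ℂ) (hb : ∀ j l, 0 < g.b j l)
    (hf : f ≠ 0) (h : HasLim g f B) :
    0 < BJ.nm (rotP U B) ∧
      HasLim (rotG U g) (rotP U f) (C ((BJ.nm (rotP U B) : ℂ)⁻¹) * rotP U B) ∧
      Tendsto (fun q => NN (rotG U g) (rotP U f) q / NN g f q) (LX II)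
        (𝓝 (BJ.nm (rotP U B))) := by
  have hB : B ≠ 0 := h.ne_zero hb hf
  have hB' : BJ.rotP U B ≠ 0 := rotP_ne_zero hU hB
  have hpt : PT (LX II) (fun q => C ((NN g f q : ℂ)⁻¹) * rg (rotG U g) (BJ.rotP U f) q)
      (BJ.rotP U B) := by
    have h1 := PT.rotP U (D := f.totalDegree) h
      (Eventually.of_forall fun q => (degree_C_mul_le _ _).trans (rg_degree f q)) h.totalDegree_le
    intro m
    refine (h1 m).congr fun q => ?_
    beta_reduce
    rw [rotP_mul, rotP_C, rg_rot hU]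
  have h2 := HasLim.of_norm (g := rotG U g) (f := BJ.rotP U f) hb (rotP_ne_zero hU hf)
    (ν := fun q => NN g f q) (Eventually.of_forall fun q => NN_pos hb hf q) hB' hpt
  exact ⟨nm_pos hB', h2.1, h2.2⟩

theorem GOk.rot (hU : U ∈ Matrix.unitaryGroup (Fin n) ℂ) (hg : GOk g) : GOk (rotG U g) where
  cc := fun j => by
    change Continuous fun l => (Uᴴ).mulVec (g.c j l)
    exact Continuous.matrix_mulVec continuous_const (hg.cc j)
  cb := hg.cb
  pos := hg.pos
  lim := by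
    intro f hf
    have hf' : BJ.rotP Uᴴ f ≠ 0 := rotP_ne_zero (uni_star hU) hf
    obtain ⟨B, hB⟩ := hg.lim _ hf'
    have h1 := (HasLim.rot hU hg.pos hf' hB).2.1
    rw [rotP_inv' hU] at h1
    exact ⟨_, h1⟩
  tame := by
    intro f h hf hh
    have hf' : BJ.rotP Uᴴ f ≠ 0 := rotP_ne_zero (uni_star hU) hf
    have hh' : BJ.rotP Uᴴ h ≠ 0 := rotP_ne_zero (uni_star hU) hh
    obtain ⟨B, hB⟩ := hg.lim _ hf'
    obtain ⟨B', hB'⟩ := hg.lim _ hh'
    obtain ⟨c1, -, l1⟩ := HasLim.rot hU hg.pos hf' hB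
    obtain ⟨c2, -, l2⟩ := HasLim.rot hU hg.pos hh' hB'
    rw [rotP_inv' hU] at l1 l2
    refine (hg.tame _ _ hf' hh').congr (div_pos c1 c2) ?_
    refine (l1.div l2 c2.ne').congr fun q => ?_
    have p1 := NN_pos hg.pos hf' q
    have p2 := NN_pos hg.pos hh' q
    have p3 := NN_pos (g := rotG U g) hg.pos hf q
    have p4 := NN_pos (g := rotG U g) hg.pos hh q
    simp only [Pi.div_apply]
    field_simp

theorem rotG_rotG (hU : U ∈ Matrix.unitaryGroup (Fin n) ℂ) (g : Germ n) :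
    rotG Uᴴ (rotG U g) = g := by
  have h1 : ∀ j l, (Uᴴᴴ).mulVec ((Uᴴ).mulVec (g.c j l)) = g.c j l := by
    intro j l
    rw [Matrix.conjTranspose_conjTranspose, Matrix.mulVec_mulVec, uni_l hU, Matrix.one_mulVec]
  obtain ⟨c, b⟩ := g
  unfold rotG
  congr 1
  funext j l
  exact h1 j l

theorem ev_zero_coeff (f : MvPolynomial (Fin n) ℂ) : ev f 0 = f.coeff 0 := by
  rw [← coeff_zero_rs 0 1 f]
  have h : rs (0 : V n) 1 f = f := by
    refine MvPolynomial.funext fun s => ?_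
    have h3 := ev_rs (0 : V n) 1 f s
    rw [Complex.ofReal_one, one_smul, zero_add] at h3
    exact h3
  rw [h]

theorem coeff_zero_rotP (U : Matrix (Fin n) (Fin n) ℂ) (f : MvPolynomial (Fin n) ℂ) :
    (rotP U f).coeff 0 = f.coeff 0 := by
  rw [← ev_zero_coeff, ← ev_zero_coeff, ev_rotP, Matrix.mulVec_zero]

private theorem res_rot_aux (hU : U ∈ Matrix.unitaryGroup (Fin n) ℂ) (hb : ∀ j l, 0 < g.b j l)
    (hf : f ≠ 0) (h : Res g f) : Res (rotG U g) (rotP U f) := by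
  obtain ⟨B, hB, h0⟩ := h
  obtain ⟨h1, h2, -⟩ := HasLim.rot hU hb hf hB
  refine ⟨_, h2, ?_⟩
  rw [coeff_C_mul, coeff_zero_rotP]
  refine mul_ne_zero (inv_ne_zero ?_) h0
  exact_mod_cast h1.ne'

theorem Res.rot (hU : U ∈ Matrix.unitaryGroup (Fin n) ℂ) (hb : ∀ j l, 0 < g.b j l)
    (hf : f ≠ 0) : Res (rotG U g) (rotP U f) ↔ Res g f := by
  constructor
  · intro h
    have h1 := res_rot_aux (uni_star hU) (g := rotG U g) hb (rotP_ne_zero hU hf) h
    rwa [rotG_rotG hU, rotP_inv hU] at h1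
  · exact res_rot_aux hU hb hf

theorem mulVec_bound (M : Matrix (Fin n) (Fin n) ℂ) :
    ∃ c : ℝ, 0 ≤ c ∧ ∀ x : V n, ‖M.mulVec x‖ ≤ c * ‖x‖ := by
  refine ⟨‖LinearMap.toContinuousLinearMap M.mulVecLin‖, norm_nonneg _, fun x => ?_⟩
  exact (LinearMap.toContinuousLinearMap M.mulVecLin).le_opNorm x

theorem Ref.rot {g' : Germ n} (hU : U ∈ Matrix.unitaryGroup (Fin n) ℂ) (hb : ∀ j l, 0 < g.b j l)
    (hr : Ref g' g) : Ref (rotG U g') (rotG U g) := by
  refine ⟨?_, hr.2⟩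
  obtain ⟨c, hc, h1⟩ := mulVec_bound (n := n) Uᴴ
  have h2 := hr.1.const_mul c
  rw [mul_zero] at h2
  refine squeeze_zero (fun q => div_nonneg (norm_nonneg _) (hb _ _).le) (fun q => ?_) h2
  change ‖(Uᴴ).mulVec (g'.c q.1 q.2) - (Uᴴ).mulVec (g.c q.1 q.2)‖ / g.b q.1 q.2 ≤ _
  rw [← Matrix.mulVec_sub, ← mul_div_assoc]
  exact div_le_div_of_nonneg_right (h1 _) (hb _ _).le

end Pool.Agent.H51.BJ
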