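import Pool.Agent.H51.BJ.ROA

/-! # [H51 BJ ROB] Unitary change of variables: states and chains

`St.rot`: `nr (Uᴴ z) = nr z`, `hp (U s) κ = hp s (Uᴴ κ)`, `Nn (U s) = Nn s`; sup norms and euclidean
norms are equivalent (for `z0`, `k0`). `rotS U σ` is the rotated bundled state. `Chain.rot`: stability:
a state `τ` of the rotated data below `rotS U (σ D)` rotates back (`St.rot` with `Uᴴ`, `rotF Uᴴ (rotF U F) = F`,
`rotP Uᴴ (rotP U f) = f`). `LN_rot`: `f` is never resolved iff `rotP U f` is never resolved for the rotated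
chain; the initial form of `rotP U f` is `rotP U A` up to a positive factor, and
`rotP U (lf ℓ) = lf (Uᵀ ℓ)`. -/

set_option autoImplicit false

open MvPolynomial Filter Pool.Agent.H60 Pool.Agent.H57.BJ
open scoped Topology Matrix

noncomputable section

namespace Pool.Agent.H51.BJ

variable {n : ℕ} {U : Matrix (Fin n) (Fin n) ℂ} {F : ℕ → V n → ℂ}

theorem hp_rot (U : Matrix (Fin n) (Fin n) ℂ) (x y : V n) :
    hp (U.mulVec x) y = hp x ((Uᴴ).mulVec y) := by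
  unfold hp
  simp only [Matrix.mulVec, dotProduct, Matrix.conjTranspose_apply, map_sum, map_mul,
    Finset.sum_mul, Finset.mul_sum]
  rw [Finset.sum_comm]
  refine Finset.sum_congr rfl fun l _ => Finset.sum_congr rfl fun i _ => ?_
  have h1 : (starRingEnd ℂ) (star (U i l)) = U i l := by
    rw [← starRingEnd_apply, Complex.conj_conj]
  rw [h1]
  ring

theorem hp_self (x : V n) : hp x x = (Nn x : ℂ) := by
  unfold hp Nn
  rw [Complex.ofReal_sum]
  refine Finset.sum_congr rfl fun i _ => ?_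
  rw [Complex.mul_conj, Complex.normSq_eq_norm_sq]

theorem Nn_rot (hU : U ∈ Matrix.unitaryGroup (Fin n) ℂ) (x : V n) : Nn (U.mulVec x) = Nn x := by
  have h1 : ((Nn (U.mulVec x) : ℝ) : ℂ) = (Nn x : ℂ) := by
    rw [← hp_self, ← hp_self, hp_rot, Matrix.mulVec_mulVec, uni_r hU, Matrix.one_mulVec]
  exact_mod_cast h1

theorem nr_rot (hU : U ∈ Matrix.unitaryGroup (Fin n) ℂ) (x : V n) : nr (U.mulVec x) = nr x := by
  unfold nr
  rw [Nn_rot hU]

theorem rotF_rotF (hU : U ∈ Matrix.unitaryGroup (Fin n) ℂ) (F : ℕ → V n → ℂ) :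
    rotF Uᴴ (rotF U F) = F := by
  funext j z
  unfold rotF
  rw [Matrix.mulVec_mulVec, uni_l hU, Matrix.one_mulVec]

private theorem cont_aux {b : ℕ → ℝ} (hb : ∀ j, 0 < b j) (M : Matrix (Fin n) (Fin n) ℂ)
    {x y : ℕ → V n} (h : Tendsto (fun j => ‖x j - y j‖ / b j) UF (𝓝 0)) :
    Tendsto (fun j => ‖M.mulVec (x j) - M.mulVec (y j)‖ / b j) UF (𝓝 0) := by
  obtain ⟨c, hc, h1⟩ := mulVec_bound (n := n) M
  have h2 := h.const_mul c
  rw [mul_zero] at h2
  refine squeeze_zero (fun q => div_nonneg (norm_nonneg _) (hb _).le) (fun q => ?_) h2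
  rw [← Matrix.mulVec_sub, ← mul_div_assoc]
  exact div_le_div_of_nonneg_right (h1 _) (hb _).le

theorem St.rot (hU : U ∈ Matrix.unitaryGroup (Fin n) ℂ) {g : Germ n} {z κ : ℕ → V n}
    (h : St F g z κ) :
    St (rotF U F) (rotG U g) (fun j => (Uᴴ).mulVec (z j)) (fun j => (Uᴴ).mulVec (κ j)) where
  ok := h.ok.rot hU
  top := h.top
  con :=
    { z0 := cont_aux (fun j => h.ok.pos j 0) Uᴴ h.con.z0
      k0 := cont_aux (fun j => h.ok.pos j 1) Uᴴ h.con.k0
      zt := h.con.zt.congr fun j => (nr_rot (uni_star hU) _).symm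
      kt := h.con.kt.congr fun j => (nr_rot (uni_star hU) _).symm
      zb := by
        filter_upwards [h.con.zb] with j hj
        rw [nr_rot (uni_star hU)]
        exact hj
      kb := by
        filter_upwards [h.con.kb] with j hj
        rw [nr_rot (uni_star hU)]
        exact hj
      bb := h.con.bb
      up := by
        intro ε hε
        filter_upwards [h.con.up ε hε] with j hj
        intro s hs
        have h1 := hj (U.mulVec s) (by rw [nr_rot hU]; exact hs)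
        have e1 : rotF U F j ((Uᴴ).mulVec (z j) + s) = F j (z j + U.mulVec s) := by
          unfold rotF
          rw [Matrix.mulVec_add, Matrix.mulVec_mulVec, uni_l hU, Matrix.one_mulVec]
        have e2 : rotF U F j ((Uᴴ).mulVec (z j)) = F j (z j) := by
          unfold rotF
          rw [Matrix.mulVec_mulVec, uni_l hU, Matrix.one_mulVec]
        rw [hp_rot, Nn_rot hU] at h1
        rw [e1, e2]
        exact h1
      low := by
        intro ε hε
        filter_upwards [h.con.low ε hε] with j hj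
        have e2 : rotF U F j ((Uᴴ).mulVec (z j)) = F j (z j) := by
          unfold rotF
          rw [Matrix.mulVec_mulVec, uni_l hU, Matrix.one_mulVec]
        rw [e2, nr_rot (uni_star hU), nr_rot (uni_star hU)]
        exact hj }

/-- the rotated bundled state -/
def rotS (hU : U ∈ Matrix.unitaryGroup (Fin n) ℂ) (σ : SS F) : SS (rotF U F) :=
  ⟨rotG U σ.g, fun j => (Uᴴ).mulVec (σ.z j), fun j => (Uᴴ).mulVec (σ.κ j), σ.st.rot hU⟩

private theorem res_ne_zero {g : Germ n} {f : MvPolynomial (Fin n) ℂ} (h : Res g f) : f ≠ 0 := by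
  rintro rfl
  obtain ⟨B, hB, h0⟩ := h
  apply h0
  have h1 := hB 0
  have h2 : ∀ q, (C ((NN g 0 q : ℂ)⁻¹) * rg g (0 : MvPolynomial (Fin n) ℂ) q).coeff 0 = 0 := by
    intro q
    unfold rg rs
    rw [map_zero, mul_zero, coeff_zero]
  exact tendsto_nhds_unique (h1.congr h2) tendsto_const_nhds

theorem Chain.rot (hU : U ∈ Matrix.unitaryGroup (Fin n) ℂ) {P : MvPolynomial (Fin n) ℂ}
    (hP : P ≠ 0) {σ : ℕ → SS F} (h : Chain F P σ) :
    Chain (rotF U F) (rotP U P) (fun D => rotS hU (σ D)) where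
  ref := by
    intro D
    rcases h.ref D with h1 | h1
    · left
      exact congrArg (rotS hU) h1
    · right
      exact Ref.rot hU (σ D).st.ok.pos h1
  stab := by
    intro D τ hτ f hf hr
    have h1 := τ.st.rot (uni_star hU)
    rw [rotF_rotF hU] at h1
    have hf0 : f ≠ 0 := res_ne_zero hr
    have h2 : Ref (rotG Uᴴ τ.g) (rotG Uᴴ (rotG U (σ D).g)) :=
      Ref.rot (uni_star hU) (g := rotG U (σ D).g) (σ D).st.ok.pos hτ
    rw [rotG_rotG hU] at h2
    have h3 : Res (rotG Uᴴ τ.g) (BJ.rotP Uᴴ f) :=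
      (Res.rot (uni_star hU) τ.st.ok.pos hf0).2 hr
    have h4 : (BJ.rotP Uᴴ f).totalDegree ≤ D := by
      rw [totalDegree_rotP (uni_star hU)]
      exact hf
    have h5 := h.stab D ⟨_, _, _, h1⟩ h2 _ h4 h3
    have h6 := (Res.rot hU (σ D).st.ok.pos (rotP_ne_zero (uni_star hU) hf0)).2 h5
    rw [rotP_inv' hU] at h6
    exact h6
  unr := by
    intro D hD
    exact h.unr D ((Res.rot hU (σ D).st.ok.pos hP).1 hD)

theorem rotP_lf (U : Matrix (Fin n) (Fin n) ℂ) (ℓ : V n) :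
    rotP U (lf ℓ) = lf ((Uᵀ).mulVec ℓ) := by
  unfold rotP lf
  rw [map_sum]
  simp only [map_mul, bind₁_C_right, bind₁_X_right, Matrix.mulVec, dotProduct,
    Matrix.transpose_apply, map_sum, Finset.mul_sum, Finset.sum_mul]
  rw [Finset.sum_comm]
  refine Finset.sum_congr rfl fun l _ => Finset.sum_congr rfl fun i _ => ?_
  ring

theorem lf_hom (ℓ : V n) : (lf ℓ).IsHomogeneous 1 := by
  unfold lf
  refine IsHomogeneous.sum _ _ _ fun i _ => ?_
  have h := (isHomogeneous_C (Fin n) (ℓ i)).mul (isHomogeneous_X ℂ i)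
  rwa [zero_add] at h

theorem rotP_hom (U : Matrix (Fin n) (Fin n) ℂ) {A : MvPolynomial (Fin n) ℂ} {μ : ℕ}
    (hA : A.IsHomogeneous μ) : (rotP U A).IsHomogeneous μ := by
  have h1 : ∀ i, (∑ l, C (U i l) * X l : MvPolynomial (Fin n) ℂ).IsHomogeneous 1 := by
    intro i
    exact lf_hom (fun l => U i l)
  have h := hA.aeval _ h1
  rw [one_mul] at h
  exact h

private theorem coeff_rot_aux (U : Matrix (Fin n) (Fin n) ℂ) {A B : MvPolynomial (Fin n) ℂ}
    {μ : ℕ} {t : ℂ} (h : ∀ m : Fin n →₀ ℕ, m.degree = μ → B.coeff m = t * A.coeff m)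
    {m : Fin n →₀ ℕ} (hm : m.degree = μ) :
    (rotP U B).coeff m = t * (rotP U A).coeff m := by
  rw [coeff_rotP_sum U (le_max_left B.totalDegree A.totalDegree) m,
    coeff_rotP_sum U (le_max_right B.totalDegree A.totalDegree) m, Finset.mul_sum]
  refine Finset.sum_congr rfl fun m' _ => ?_
  by_cases hd : m'.degree = μ
  · rw [h m' hd]
    ring
  · have h1 : (rotP U (monomial m' 1)).coeff m = 0 := by
      have h2 : (monomial m' (1 : ℂ)).IsHomogeneous m'.degree := isHomogeneous_monomial _ rfl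
      refine (rotP_hom U h2).coeff_eq_zero ?_
      rw [hm]
      exact fun h3 => hd h3.symm
    rw [h1, mul_zero, mul_zero, mul_zero]

private theorem ini_rot_aux (hU : U ∈ Matrix.unitaryGroup (Fin n) ℂ) {g : Germ n}
    (hb : ∀ j l, 0 < g.b j l) {f A : MvPolynomial (Fin n) ℂ} (hf : f ≠ 0) {μ : ℕ}
    (h : ∃ (B : MvPolynomial (Fin n) ℂ) (t : ℝ),
      HasLim g f B ∧ 0 < t ∧ (∀ m : Fin n →₀ ℕ, m.degree < μ → B.coeff m = 0) ∧
      ∀ m : Fin n →₀ ℕ, m.degree = μ → B.coeff m = t * A.coeff m) :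
    ∃ (B : MvPolynomial (Fin n) ℂ) (t : ℝ),
      HasLim (rotG U g) (BJ.rotP U f) B ∧ 0 < t ∧
      (∀ m : Fin n →₀ ℕ, m.degree < μ → B.coeff m = 0) ∧
      ∀ m : Fin n →₀ ℕ, m.degree = μ → B.coeff m = t * (BJ.rotP U A).coeff m := by
  obtain ⟨B, t, hB, ht, h0, h1⟩ := h
  obtain ⟨c1, l1, -⟩ := HasLim.rot hU hb hf hB
  refine ⟨_, (BJ.nm (BJ.rotP U B))⁻¹ * t, l1, mul_pos (inv_pos.2 c1) ht, ?_, ?_⟩
  · intro m hm
    rw [coeff_C_mul, coeff_rot_aux U (A := 0) (t := 0) (μ := m.degree) (fun m' hm' => ?_) rfl,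
      zero_mul, mul_zero]
    rw [h0 m' (by rw [hm']; exact hm), zero_mul]
  · intro m hm
    rw [coeff_C_mul, coeff_rot_aux U h1 hm]
    push_cast
    ring

private theorem ln_rot_aux (hU : U ∈ Matrix.unitaryGroup (Fin n) ℂ) {G : ℕ → Germ n}
    (hb : ∀ D j l, 0 < (G D).b j l) {f : MvPolynomial (Fin n) ℂ} {ℓ : V n} (hf : f ≠ 0)
    (hr : ∀ D, ¬ Res (G D) f)
    (h : (lf ℓ).IsHomogeneous 1 ∧ lf ℓ ≠ 0 ∧ ∃ D0, ∀ D, D0 ≤ D →
      ∃ (B : MvPolynomial (Fin n) ℂ) (t : ℝ),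
      HasLim (G D) f B ∧ 0 < t ∧ (∀ m : Fin n →₀ ℕ, m.degree < 1 → B.coeff m = 0) ∧
      ∀ m : Fin n →₀ ℕ, m.degree = 1 → B.coeff m = t * (lf ℓ).coeff m) :
    (BJ.rotP U f ≠ 0 ∧ ∀ D, ¬ Res (rotG U (G D)) (BJ.rotP U f)) ∧
    ((lf ((Uᵀ).mulVec ℓ)).IsHomogeneous 1 ∧ lf ((Uᵀ).mulVec ℓ) ≠ 0 ∧ ∃ D0, ∀ D, D0 ≤ D →
      ∃ (B : MvPolynomial (Fin n) ℂ) (t : ℝ),
      HasLim (rotG U (G D)) (BJ.rotP U f) B ∧ 0 < t ∧
      (∀ m : Fin n →₀ ℕ, m.degree < 1 → B.coeff m = 0) ∧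
      ∀ m : Fin n →₀ ℕ, m.degree = 1 → B.coeff m = t * (lf ((Uᵀ).mulVec ℓ)).coeff m) := by
  refine ⟨⟨rotP_ne_zero hU hf, fun D hD => hr D ((Res.rot hU (hb D) hf).1 hD)⟩, lf_hom _, ?_, ?_⟩
  · rw [← rotP_lf]
    exact rotP_ne_zero hU h.2.1
  · obtain ⟨D0, h1⟩ := h.2.2
    refine ⟨D0, fun D hD => ?_⟩
    rw [← rotP_lf]
    exact ini_rot_aux hU (hb D) hf (h1 D hD)

theorem LN_rot (hU : U ∈ Matrix.unitaryGroup (Fin n) ℂ) {P : MvPolynomial (Fin n) ℂ}
    {σ : ℕ → SS F} (h : Chain F P σ) :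
    LN (fun D => rotS hU (σ D)) = (fun ℓ => (Uᵀ).mulVec ℓ) '' LN σ := by
  ext ℓ
  constructor
  · rintro ⟨f, h1, h2⟩
    have hb : ∀ D j l, 0 < (rotG U (σ D).g).b j l := fun D => (σ D).st.ok.pos
    obtain ⟨h3, h4⟩ := ln_rot_aux (uni_star hU) (G := fun D => rotG U (σ D).g) hb h1.1 h1.2 h2
    have e1 : ∀ D, rotG Uᴴ (rotG U (σ D).g) = (σ D).g := fun D => rotG_rotG hU _
    simp only [e1] at h3 h4
    refine ⟨(Uᴴᵀ).mulVec ℓ, ⟨_, h3, h4⟩, ?_⟩
    change (Uᵀ).mulVec ((Uᴴᵀ).mulVec ℓ) = ℓ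
    rw [Matrix.mulVec_mulVec, ← Matrix.transpose_mul, uni_r hU, Matrix.transpose_one,
      Matrix.one_mulVec]
  · rintro ⟨ℓ', ⟨f, h1, h2⟩, rfl⟩
    have hb : ∀ D j l, 0 < ((σ D).g).b j l := fun D => (σ D).st.ok.pos
    obtain ⟨h3, h4⟩ := ln_rot_aux hU (G := fun D => (σ D).g) hb h1.1 h1.2 h2
    exact ⟨_, h3, h4⟩

end Pool.Agent.H51.BJ
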