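import Pool.Agent.H51.BJ.NUB

/-! # [H51 BJ] Definitions for the unitary change of variables -/

set_option autoImplicit false

open MvPolynomial Filter Pool.Agent.H60 Pool.Agent.H57.BJ
open scoped Topology Matrix

noncomputable section

namespace Pool.Agent.H51.BJ

variable {n : ℕ}

/-- `f ∘ U` for polynomials -/
def rotP (U : Matrix (Fin n) (Fin n) ℂ) (f : MvPolynomial (Fin n) ℂ) : MvPolynomial (Fin n) ℂ :=
  bind₁ (fun i => ∑ l, C (U i l) * X l) f

/-- `F ∘ U` for functions -/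
def rotF (U : Matrix (Fin n) (Fin n) ℂ) (F : ℕ → V n → ℂ) (j : ℕ) (z : V n) : ℂ :=
  F j (U.mulVec z)

/-- the rotated germ -/
def rotG (U : Matrix (Fin n) (Fin n) ℂ) (g : Germ n) : Germ n :=
  ⟨fun j l => (Uᴴ).mulVec (g.c j l), g.b⟩

end Pool.Agent.H51.BJ
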