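import Pool.Agent.H51.BJ.NMF

/-! # [H51 BJ RSF] The rescaling `rs c b f : s ↦ f (c + b s)`

`rs c b` is the algebra homomorphism `bind₁ _`. Identities between polynomials can be checked after
evaluation (`MvPolynomial.funext`) or as equality of algebra homomorphisms (`MvPolynomial.algHom_ext`).
`pderiv_rs`: induction on `f` or chain rule for `bind₁`. `rs_ne_zero`: `rs (-b⁻¹ c) b⁻¹` is a left
inverse by `rs_rs`. `rs_supported`: `MvPolynomial.supported` is the range / adjoin of variables, use
`mem_supported` with `vars_bind₁`, or `Algebra.adjoin_induction`. -/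

set_option autoImplicit false

open MvPolynomial Filter Pool.Agent.H60 Pool.Agent.H57.BJ
open scoped Topology

noncomputable section

namespace Pool.Agent.H51.BJ

variable {n : ℕ}

theorem ev_rs (c : V n) (b : ℝ) (f : MvPolynomial (Fin n) ℂ) (s : V n) :
    ev (rs c b f) s = ev f (c + (b : ℂ) • s) := by
  unfold ev rs
  induction f using MvPolynomial.induction_on with
  | C a => simp
  | add p q hp hq => rw [map_add, map_add, hp, hq, map_add]
  | mul_X p i hp =>
    rw [map_mul, map_mul, hp, map_mul, bind₁_X_right]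
    simp

theorem rs_add (c : V n) (b : ℝ) (f g : MvPolynomial (Fin n) ℂ) :
    rs c b (f + g) = rs c b f + rs c b g := by
  unfold rs
  exact map_add _ _ _

theorem rs_mul (c : V n) (b : ℝ) (f g : MvPolynomial (Fin n) ℂ) :
    rs c b (f * g) = rs c b f * rs c b g := by
  unfold rs
  exact map_mul _ _ _

theorem rs_C (c : V n) (b : ℝ) (a : ℂ) : rs c b (C a : MvPolynomial (Fin n) ℂ) = C a := by
  unfold rs
  exact bind₁_C_right _ _

theorem rs_C_mul (c : V n) (b : ℝ) (a : ℂ) (f : MvPolynomial (Fin n) ℂ) :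
    rs c b (C a * f) = C a * rs c b f := by
  rw [rs_mul, rs_C]

theorem rs_rs (c x : V n) (b e : ℝ) (f : MvPolynomial (Fin n) ℂ) :
    rs x e (rs c b f) = rs (c + (b : ℂ) • x) (b * e) f := by
  refine MvPolynomial.funext fun s => ?_
  have h1 := ev_rs x e (rs c b f) s
  have h2 := ev_rs c b f (x + (e : ℂ) • s)
  have h3 := ev_rs (c + (b : ℂ) • x) (b * e) f s
  have h4 : c + (b : ℂ) • (x + (e : ℂ) • s) = c + (b : ℂ) • x + ((b * e : ℝ) : ℂ) • s := by
    rw [smul_add, smul_smul, Complex.ofReal_mul, add_assoc]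
  rw [h4] at h2
  rw [h2, ← h3] at h1
  exact h1

theorem rs_ne_zero (c : V n) {b : ℝ} (hb : b ≠ 0) {f : MvPolynomial (Fin n) ℂ} (hf : f ≠ 0) :
    rs c b f ≠ 0 := by
  intro h
  apply hf
  have h1 := rs_rs c (-((b : ℂ)⁻¹ • c)) b b⁻¹ f
  have hb' : (b : ℂ) ≠ 0 := by exact_mod_cast hb
  rw [h, smul_neg, smul_smul, mul_inv_cancel₀ hb', one_smul, add_neg_cancel, mul_inv_cancel₀ hb] at h1
  have h2 : rs (0 : V n) 1 f = f := by
    refine MvPolynomial.funext fun s => ?_
    have h3 := ev_rs (0 : V n) 1 f s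
    rw [Complex.ofReal_one, one_smul, zero_add] at h3
    exact h3
  rw [h2] at h1
  rw [← h1]
  unfold rs
  exact map_zero _

theorem totalDegree_rs_le (c : V n) (b : ℝ) (f : MvPolynomial (Fin n) ℂ) :
    (rs c b f).totalDegree ≤ f.totalDegree := by
  have h1 : rs c b f = ∑ m ∈ f.support, C (f.coeff m) *
      ∏ i ∈ m.support, (C (c i) + C (b : ℂ) * X i) ^ m i := by
    conv_lhs => rw [f.as_sum]
    unfold rs
    rw [map_sum]
    refine Finset.sum_congr rfl fun m _ => ?_
    rw [bind₁_monomial]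
  rw [h1]
  refine totalDegree_finsetSum_le fun m hm => ?_
  refine (totalDegree_mul _ _).trans ?_
  rw [totalDegree_C, zero_add]
  refine (totalDegree_finsetProd _ _).trans ?_
  refine le_trans ?_ (le_totalDegree hm)
  refine Finset.sum_le_sum fun i _ => ?_
  refine (totalDegree_pow _ _).trans ?_
  have h2 : (C (c i) + C (b : ℂ) * X i : MvPolynomial (Fin n) ℂ).totalDegree ≤ 1 := by
    refine (totalDegree_add _ _).trans ?_
    rw [totalDegree_C]
    refine max_le (by omega) ?_
    refine (totalDegree_mul _ _).trans ?_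
    rw [totalDegree_C, totalDegree_X]
  calc m i * (C (c i) + C (b : ℂ) * X i : MvPolynomial (Fin n) ℂ).totalDegree ≤ m i * 1 :=
      Nat.mul_le_mul_left _ h2
    _ = m i := Nat.mul_one _

theorem pderiv_rs (c : V n) (b : ℝ) (f : MvPolynomial (Fin n) ℂ) (i : Fin n) :
    pderiv i (rs c b f) = C (b : ℂ) * rs c b (pderiv i f) := by
  induction f using MvPolynomial.induction_on with
  | C a =>
    rw [rs_C, pderiv_C]
    unfold rs
    rw [map_zero, mul_zero]
  | add p q hp hq => rw [rs_add, map_add, hp, hq, map_add, rs_add, mul_add]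
  | mul_X p j hp =>
    have hX : rs c b (X j : MvPolynomial (Fin n) ℂ) = C (c j) + C (b : ℂ) * X j := by
      unfold rs
      exact bind₁_X_right _ _
    have hd : pderiv i (C (c j) + C (b : ℂ) * X j : MvPolynomial (Fin n) ℂ) =
        C (b : ℂ) * pderiv i (X j : MvPolynomial (Fin n) ℂ) := by
      rw [map_add, pderiv_C, zero_add, pderiv_C_mul]
    have hdx : rs c b (pderiv i (X j : MvPolynomial (Fin n) ℂ)) = pderiv i (X j : MvPolynomial (Fin n) ℂ) := by
      rw [pderiv_X]
      by_cases hij : i = j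
      · subst hij
        rw [Pi.single_eq_same]
        unfold rs
        exact map_one _
      · rw [Pi.single_eq_of_ne (Ne.symm hij)]
        unfold rs
        exact map_zero _
    rw [rs_mul, pderiv_mul, hp, hX, hd, pderiv_mul, rs_add, rs_mul, rs_mul, hX, hdx]
    ring

theorem rs_supported (c : V n) (b : ℝ) {f : MvPolynomial (Fin n) ℂ} {S : Set (Fin n)}
    (hf : f ∈ MvPolynomial.supported ℂ S) : rs c b f ∈ MvPolynomial.supported ℂ S := by
  have h1 : MvPolynomial.supported ℂ S ≤ (MvPolynomial.supported ℂ S).comap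
      (bind₁ (fun i => C (c i) + C (b : ℂ) * X i) : MvPolynomial (Fin n) ℂ →ₐ[ℂ] MvPolynomial (Fin n) ℂ) := by
    refine Algebra.adjoin_le ?_
    rintro _ ⟨i, hi, rfl⟩
    rw [SetLike.mem_coe, Subalgebra.mem_comap]
    rw [bind₁_X_right]
    refine Subalgebra.add_mem _ (Subalgebra.algebraMap_mem _ (c i)) ?_
    refine Subalgebra.mul_mem _ (Subalgebra.algebraMap_mem _ (b : ℂ)) ?_
    exact Algebra.subset_adjoin ⟨i, hi, rfl⟩
  exact h1 hf

theorem coeff_zero_rs (c : V n) (b : ℝ) (f : MvPolynomial (Fin n) ℂ) :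
    (rs c b f).coeff 0 = ev f c := by
  have h1 := ev_rs c b f 0
  rw [smul_zero, add_zero] at h1
  rw [← h1]
  unfold ev
  rw [eval_zero, constantCoeff_eq]

theorem shift_eq_rs (c : V n) (f : MvPolynomial (Fin n) ℂ) : shift c f = rs c 1 f := by
  unfold shift rs
  have h : (fun j : Fin n => (X j + C (c j) : MvPolynomial (Fin n) ℂ)) =
      fun i => C (c i) + C ((1 : ℝ) : ℂ) * X i := by
    funext j
    rw [Complex.ofReal_one, C_1, one_mul, add_comm]
  rw [h]

end Pool.Agent.H51.BJ
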