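import Pool.Agent.H51.BJ.Defs

/-! # [H51 BJ] The statement SLOW -/

set_option autoImplicit false

open MvPolynomial Filter Pool.Agent.H60 Pool.Agent.H57.BJ
open scoped Topology

noncomputable section

namespace Pool.Agent.H51.BJ

variable {n : ℕ}

/-- Fock solutions of `T_P h = exp (z · conj a)`, see `H57.BJ.fock_solution` -/
structure FSol (P : MvPolynomial (Fin n) ℂ) (C : ℝ) (a : V n) (v : MvPowerSeries (Fin n) ℂ)
    (h : V n → ℂ) : Prop where
  diff : Differentiable ℂ h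
  ser : ∀ z, HasSum (fun α : Fin n →₀ ℕ => MvPowerSeries.coeff α v * ∏ j, z j ^ α j) (h z)
  dual : ∀ F : MvPolynomial (Fin n) ℂ, Bp v (TP P F) = ev F a
  eqn : ∀ z, Tf P h z = Complex.exp (∑ j, z j * (starRingEnd ℂ) (a j))
  fock : ∀ z, ‖ev P z * h z‖ ≤ C * Real.exp (Nn z / 2)

/-- all Fock solutions grow slower than `exp (|z| om |z|)`, for all `om` tending to infinity -/
def Slow (P : MvPolynomial (Fin n) ℂ) : Prop :=
  ∀ om : ℝ → ℝ, Monotone om → Tendsto om atTop atTop → (∀ r, 1 ≤ om r) → ∀ ρ C0 : ℝ,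
    ∃ C : ℝ, ∀ (a : V n) (v : MvPowerSeries (Fin n) ℂ) (h : V n → ℂ), ‖a‖ ≤ ρ →
      FSol P C0 a v h → ∀ z, ‖ev P z * h z‖ ≤ C * Real.exp (nr z * om (nr z))

end Pool.Agent.H51.BJ
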