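import Pool.Agent.H51.BJ.STA

/-! # [H51 BJ STB] No infinite chain of newly resolved polynomials of bounded degree

Proof. Let `f_i` be of degree at most `D`, unresolved at `σ_i`, resolved at `σ_{i+1}`. By `Res.ref`
it is resolved at all `σ_m`, `m > i` (so `f_i ≠ 0`: a resolved polynomial is nonzero because the
limit of `0` is `0`), and by `ref_frozen` `NN_{m'} (f_i) / NN_m (f_i)` tends to a positive constant
for `m' ≥ m > i`. So for `i, k < m` the truth of `Cmp (σ_m).g (f_i) (f_k)` does not depend on `m`: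
an equivalence relation `i ~ k` on the naturals. Pairwise inequivalent `i_1, ..., i_r` give linearly
independent polynomials (`linInd_of_incomparable` at `σ_m`, `m` large) of degree at most `D`, so
`r ≤ dim` (the space `MvPolynomial.restrictTotalDegree (Fin n) ℂ D` is finite dimensional). So some
class is infinite; let `g0 = f_{i0}` be one of its members and for `m > i0`
`W_m = {f of degree ≤ D : f = 0 or NN_m f / NN_m g0 does not tend to infinity}`. By the trichotomy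
`Tame.tri` the last condition means that the ratio tends to a real number `≥ 0`, equivalently (for
`f ≠ 0`) is eventually bounded; so `W_m` is a subspace. `W_m ≤ W_{m+1}`: `NN_{m+1} f ≤ C NN_m f`
(`ref_frozen`/`ref_small`) and `NN_{m+1} g0 / NN_m g0 → const > 0`. By finite dimension
`W_m = W_{m+1}` for all `m ≥ m0`. Take `i ≥ m0`, `i > i0` in the class of `i0`. At `σ_{i+1}`: `f_i` is comparable
with `g0`, so `f_i ∈ W_{i+1} = W_i`, so `NN_i f_i ≤ C NN_i g0`; by `ref_small`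
`NN_{i+1} f_i / NN_i f_i → 0`, so `NN_{i+1} f_i / NN_{i+1} g0 → 0`, contradicting comparability. -/

set_option autoImplicit false

open MvPolynomial Filter Pool.Agent.H60 Pool.Agent.H57.BJ
open scoped Topology

noncomputable section

namespace Pool.Agent.H51.BJ

variable {n : ℕ}

private theorem NN_zero' (g : Germ n) (q : ℕ × II) : NN g (0 : MvPolynomial (Fin n) ℂ) q = 0 := by
  have h : rg g (0 : MvPolynomial (Fin n) ℂ) q = 0 := by
    unfold rg rs
    exact map_zero _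
  unfold NN
  rw [h]
  exact nm_eq_zero.mpr rfl

private theorem NN_C_mul' (g : Germ n) (a : ℂ) (f : MvPolynomial (Fin n) ℂ) (q : ℕ × II) :
    NN g (C a * f) q = ‖a‖ * NN g f q := by
  unfold NN rg
  rw [rs_C_mul, nm_C_mul]

private theorem res_ne_zero {g : Germ n} {f : MvPolynomial (Fin n) ℂ} (h : Res g f) : f ≠ 0 := by
  rintro rfl
  obtain ⟨B, hB, hB0⟩ := h
  apply hB0
  have h1 := hB 0
  have h2 : Tendsto (fun _ : ℕ × II => (0 : ℂ)) (LX II) (𝓝 (B.coeff 0)) := by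
    refine h1.congr fun q => ?_
    have h : rg g (0 : MvPolynomial (Fin n) ℂ) q = 0 := by
      unfold rg rs
      exact map_zero _
    beta_reduce
    rw [h, mul_zero, coeff_zero]
  exact (tendsto_nhds_unique h2 tendsto_const_nhds)

/-- comparison of the norms of one polynomial at two states -/
private theorem ratio_lim {g g' : Germ n} (hg : GOk g) (hb' : ∀ j l, 0 < g'.b j l) (hr : Ref g' g)
    {f : MvPolynomial (Fin n) ℂ} (hf : f ≠ 0) :
    ∃ c : ℝ, Tendsto (fun q => NN g' f q / NN g f q) (LX II) (𝓝 c) := by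
  obtain ⟨B, hB⟩ := hg.lim f hf
  by_cases h0 : B.coeff 0 = 0
  · exact ⟨0, ref_small hg.pos hb' hr hf hB h0⟩
  · exact ⟨_, (ref_frozen hg.pos hb' hr hf hB h0).2⟩

private theorem ratio_pos {g g' : Germ n} (hg : GOk g) (hb' : ∀ j l, 0 < g'.b j l) (hr : Ref g' g)
    {f : MvPolynomial (Fin n) ℂ} (hf : f ≠ 0) (h : Res g f) :
    ∃ c : ℝ, 0 < c ∧ Tendsto (fun q => NN g' f q / NN g f q) (LX II) (𝓝 c) := by
  obtain ⟨B, hB, h0⟩ := h
  exact ⟨_, norm_pos_iff.mpr h0, (ref_frozen hg.pos hb' hr hf hB h0).2⟩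

/-- the polynomials of degree at most `D` dominated by `g0` -/
private def WW (g : Germ n) (g0 : MvPolynomial (Fin n) ℂ) (D : ℕ) :
    Submodule ℂ (restrictTotalDegree (Fin n) ℂ D) where
  carrier := {f | ∃ K : ℝ, ∀ᶠ q in LX II, NN g (f : MvPolynomial (Fin n) ℂ) q ≤ K * NN g g0 q}
  zero_mem' := by
    refine ⟨0, Filter.Eventually.of_forall fun q => ?_⟩
    rw [ZeroMemClass.coe_zero, NN_zero', zero_mul]
  add_mem' := by
    rintro a b ⟨K, hK⟩ ⟨L, hL⟩
    refine ⟨K + L, ?_⟩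
    filter_upwards [hK, hL] with q h1 h2
    have h3 := NN_add_le (g := g) (a : MvPolynomial (Fin n) ℂ) (b : MvPolynomial (Fin n) ℂ) q
    rw [Submodule.coe_add]
    linarith
  smul_mem' := by
    rintro c a ⟨K, hK⟩
    refine ⟨‖c‖ * K, ?_⟩
    filter_upwards [hK] with q h1
    have h3 : ((c • a : restrictTotalDegree (Fin n) ℂ D) : MvPolynomial (Fin n) ℂ) =
        C c * (a : MvPolynomial (Fin n) ℂ) := by
      rw [Submodule.coe_smul, MvPolynomial.smul_eq_C_mul]
    rw [h3, NN_C_mul', mul_assoc]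
    exact mul_le_mul_of_nonneg_left h1 (norm_nonneg c)

private theorem ref_lt (σ : ℕ → Germ n) (hσ : ∀ i, GOk (σ i)) (hr : ∀ i, Ref (σ (i + 1)) (σ i))
    (i k : ℕ) : Ref (σ (i + 1 + k)) (σ i) := by
  induction k with
  | zero => exact hr i
  | succ k ih =>
    exact Ref.trans (hσ i).pos (hσ (i + 1 + k)).pos (hr (i + 1 + k)) ih

private theorem res_lt (σ : ℕ → Germ n) (hσ : ∀ i, GOk (σ i)) (hr : ∀ i, Ref (σ (i + 1)) (σ i))
    {f : MvPolynomial (Fin n) ℂ} (hf : f ≠ 0) {i : ℕ} (h : Res (σ i) f) {m : ℕ} (hm : i ≤ m) :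
    Res (σ m) f := by
  obtain ⟨k, rfl⟩ := Nat.exists_eq_add_of_le hm
  rcases Nat.eq_zero_or_pos k with rfl | hk
  · exact h
  · obtain ⟨k', rfl⟩ : ∃ k', k = k' + 1 := ⟨k - 1, by omega⟩
    have h2 : i + (k' + 1) = i + 1 + k' := by omega
    rw [h2]
    exact Res.ref (hσ i).pos (hσ _).pos (ref_lt σ hσ hr i k') hf h

/-- the comparison of two resolved polynomials does not depend on the state -/
private theorem cmp_step {g g' : Germ n} (hg : GOk g) (hg' : GOk g') (hr : Ref g' g)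
    {f h : MvPolynomial (Fin n) ℂ} (hf : f ≠ 0) (hh : h ≠ 0) (rf : Res g f) (rh : Res g h) :
    Cmp g f h ↔ Cmp g' f h := by
  obtain ⟨c, hc, h1⟩ := ratio_pos hg hg'.pos hr hf rf
  obtain ⟨d, hd, h2⟩ := ratio_pos hg hg'.pos hr hh rh
  constructor
  · rintro ⟨e, he, h3⟩
    refine ⟨c * e / d, by positivity, ?_⟩
    refine ((h1.mul h3).div h2 hd.ne').congr fun q => ?_
    have p1 := NN_pos hg.pos hf q
    have p2 := NN_pos hg.pos hh q
    have p3 := NN_pos hg'.pos hf q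
    have p4 := NN_pos hg'.pos hh q
    simp only [Pi.div_apply]
    field_simp
  · rintro ⟨e, he, h3⟩
    refine ⟨e * d / c, by positivity, ?_⟩
    refine ((h3.mul h2).div h1 hc.ne').congr fun q => ?_
    have p1 := NN_pos hg.pos hf q
    have p2 := NN_pos hg.pos hh q
    have p3 := NN_pos hg'.pos hf q
    have p4 := NN_pos hg'.pos hh q
    simp only [Pi.div_apply]
    field_simp

private theorem cmp_any (σ : ℕ → Germ n) (hσ : ∀ i, GOk (σ i)) (hr : ∀ i, Ref (σ (i + 1)) (σ i))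
    {f h : MvPolynomial (Fin n) ℂ} (hf : f ≠ 0) (hh : h ≠ 0) {i : ℕ} (rf : Res (σ i) f)
    (rh : Res (σ i) h) {m : ℕ} (hm : i ≤ m) : Cmp (σ i) f h ↔ Cmp (σ m) f h := by
  obtain ⟨k, rfl⟩ := Nat.exists_eq_add_of_le hm
  rcases Nat.eq_zero_or_pos k with rfl | hk
  · exact Iff.rfl
  · obtain ⟨k', rfl⟩ : ∃ k', k = k' + 1 := ⟨k - 1, by omega⟩
    have h2 : i + (k' + 1) = i + 1 + k' := by omega
    rw [h2]
    exact cmp_step (hσ i) (hσ _) (ref_lt σ hσ hr i k') hf hh rf rh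

theorem no_infinite_chain (σ : ℕ → Germ n) (hσ : ∀ i, GOk (σ i)) (hr : ∀ i, Ref (σ (i + 1)) (σ i))
    (D : ℕ) (f : ℕ → MvPolynomial (Fin n) ℂ) (hd : ∀ i, (f i).totalDegree ≤ D)
    (h0 : ∀ i, ¬ Res (σ i) (f i)) (h1 : ∀ i, Res (σ (i + 1)) (f i)) : False := by
  classical
  have hf : ∀ i, f i ≠ 0 := fun i => res_ne_zero (h1 i)
  have hres : ∀ i m, i < m → Res (σ m) (f i) := fun i m him => res_lt σ hσ hr (hf i) (h1 i) him
  -- the relation
  obtain ⟨M, hM⟩ : ∃ M : ℕ → ℕ → ℕ, ∀ i k, M i k = max i k + 1 := ⟨_, fun _ _ => rfl⟩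
  have hcmp : ∀ i k m, i < m → k < m → (Cmp (σ (M i k)) (f i) (f k) ↔ Cmp (σ m) (f i) (f k)) := by
    intro i k m hi hk
    have e := hM i k
    exact cmp_any σ hσ hr (hf i) (hf k) (hres i _ (by omega)) (hres k _ (by omega)) (by omega)
  let S : Setoid ℕ :=
    { r := fun i k => Cmp (σ (M i k)) (f i) (f k)
      iseqv := by
        refine ⟨fun i => ?_, fun {i k} hik => ?_, fun {i k l} hik hkl => ?_⟩
        · refine ⟨1, one_pos, ?_⟩
          refine tendsto_const_nhds.congr fun q => ?_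
          exact (div_self (NN_pos (hσ _).pos (hf i) q).ne').symm
        · have e : M k i = M i k := by rw [hM, hM, max_comm]
          rw [e]
          exact hik.symm
        · have b1 : i < M i k + M k l + M i l := by have := hM i k; omega
          have b2 : k < M i k + M k l + M i l := by have := hM i k; omega
          have b3 : l < M i k + M k l + M i l := by have := hM k l; omega
          rw [hcmp i k _ b1 b2] at hik
          rw [hcmp k l _ b2 b3] at hkl
          rw [hcmp i l _ b1 b3]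
          exact hik.trans (hσ _).pos (hf k) hkl }
  have hSr : ∀ i k, S.r i k ↔ Cmp (σ (M i k)) (f i) (f k) := fun i k => Iff.rfl
  obtain ⟨N, hN⟩ : ∃ N, N = Module.finrank ℂ (restrictTotalDegree (Fin n) ℂ D) := ⟨_, rfl⟩
  have hfin : Finite (Quotient S) := by
    by_contra hinf
    rw [not_finite_iff_infinite] at hinf
    let em := Infinite.natEmbedding (Quotient S)
    let rp : Fin (N + 1) → ℕ := fun t => (em t.1).out
    have hrp : ∀ s t : Fin (N + 1), s ≠ t → ¬ S.r (rp s) (rp t) := by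
      intro s t hst hc
      apply hst
      have h3 : (⟦rp s⟧ : Quotient S) = ⟦rp t⟧ := Quotient.sound hc
      have h4 : em s.1 = em t.1 := by
        rw [← Quotient.out_eq (em s.1), ← Quotient.out_eq (em t.1)]
        exact h3
      exact Fin.ext (em.injective h4)
    obtain ⟨m, hm⟩ : ∃ m, ∀ t, rp t < m :=
      ⟨(Finset.univ.sup rp) + 1, fun t => Nat.lt_succ_of_le (Finset.le_sup (Finset.mem_univ t))⟩
    have hli := linInd_of_incomparable (hσ m) (fun t : Fin (N + 1) => f (rp t)) (fun t => hf _)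
      (by
        intro s t hst hc
        apply hrp s t hst
        rw [hSr, hcmp _ _ m (hm s) (hm t)]
        exact hc)
    have hli2 : LinearIndependent ℂ (fun t : Fin (N + 1) =>
        (⟨f (rp t), (mem_restrictTotalDegree _ _ _).mpr (hd _)⟩ : restrictTotalDegree (Fin n) ℂ D)) := by
      refine LinearIndependent.of_comp (restrictTotalDegree (Fin n) ℂ D).subtype ?_
      exact hli
    have h5 := hli2.fintype_card_le_finrank
    rw [Fintype.card_fin, ← hN] at h5
    omega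
  obtain ⟨y, hy⟩ := Finite.exists_infinite_fiber (fun i : ℕ => (⟦i⟧ : Quotient S))
  have hset : ((fun i : ℕ => (⟦i⟧ : Quotient S)) ⁻¹' {y}).Infinite := Set.infinite_coe_iff.mp hy
  obtain ⟨i0, hi0⟩ := hset.nonempty
  have hrel : ∀ i ∈ (fun i : ℕ => (⟦i⟧ : Quotient S)) ⁻¹' {y}, ∀ m, i < m → i0 < m →
      Cmp (σ m) (f i) (f i0) := by
    intro i hi m him h0m
    have h3 : (⟦i⟧ : Quotient S) = ⟦i0⟧ := by
      rw [Set.mem_preimage, Set.mem_singleton_iff] at hi hi0
      rw [hi, hi0]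
    have h4 : S.r i i0 := Quotient.exact h3
    rw [hSr, hcmp i i0 m him h0m] at h4
    exact h4
  -- the subspaces
  obtain ⟨W, hW⟩ : ∃ W : ℕ → Submodule ℂ (restrictTotalDegree (Fin n) ℂ D),
      ∀ k, W k = WW (σ (i0 + 1 + k)) (f i0) D := ⟨_, fun _ => rfl⟩
  have hWm : ∀ k (u : restrictTotalDegree (Fin n) ℂ D), u ∈ W k ↔
      ∃ K : ℝ, ∀ᶠ q in LX II, NN (σ (i0 + 1 + k)) (u : MvPolynomial (Fin n) ℂ) q ≤
        K * NN (σ (i0 + 1 + k)) (f i0) q := by
    intro k u
    rw [hW]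
    exact Iff.rfl
  have hmono : Monotone W := by
    refine monotone_nat_of_le_succ fun k => ?_
    intro u hu
    rw [hWm] at hu ⊢
    obtain ⟨K, hK⟩ := hu
    have e : i0 + 1 + (k + 1) = (i0 + 1 + k) + 1 := by omega
    rw [e]
    by_cases hu0 : (u : MvPolynomial (Fin n) ℂ) = 0
    · refine ⟨0, Filter.Eventually.of_forall fun q => ?_⟩
      rw [hu0, NN_zero', zero_mul]
    · obtain ⟨c, hc⟩ := ratio_lim (hσ (i0 + 1 + k)) (hσ (i0 + 1 + k + 1)).pos (hr (i0 + 1 + k)) hu0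
      obtain ⟨d, hd0, hd1⟩ := ratio_pos (hσ (i0 + 1 + k)) (hσ (i0 + 1 + k + 1)).pos (hr (i0 + 1 + k)) (hf i0)
        (hres i0 _ (by omega))
      refine ⟨(|c| + 1) * |K| * (2 / d), ?_⟩
      have h3 : ∀ᶠ q in LX II, NN (σ (i0 + 1 + k + 1)) (u : MvPolynomial (Fin n) ℂ) q /
          NN (σ (i0 + 1 + k)) (u : MvPolynomial (Fin n) ℂ) q < |c| + 1 :=
        hc.eventually_lt_const (by have := le_abs_self c; linarith)
      have h4 : ∀ᶠ q in LX II, d / 2 < NN (σ (i0 + 1 + k + 1)) (f i0) q / NN (σ (i0 + 1 + k)) (f i0) q :=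
        hd1.eventually_const_lt (by linarith)
      filter_upwards [h3, h4, hK] with q q1 q2 q3
      have p1 := NN_pos (hσ (i0 + 1 + k)).pos hu0 q
      have p2 := NN_pos (hσ (i0 + 1 + k)).pos (hf i0) q
      have p3 := NN_pos (hσ (i0 + 1 + k + 1)).pos hu0 q
      have p4 := NN_pos (hσ (i0 + 1 + k + 1)).pos (hf i0) q
      rw [div_lt_iff₀ p1] at q1
      rw [lt_div_iff₀ p2] at q2
      have q4 : NN (σ (i0 + 1 + k)) (f i0) q ≤ 2 / d * NN (σ (i0 + 1 + k + 1)) (f i0) q := by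
        rw [div_mul_eq_mul_div, le_div_iff₀ hd0]
        linarith
      have q5 : NN (σ (i0 + 1 + k)) (u : MvPolynomial (Fin n) ℂ) q ≤
          |K| * (2 / d * NN (σ (i0 + 1 + k + 1)) (f i0) q) := by
        refine q3.trans ((mul_le_mul_of_nonneg_right (le_abs_self K) p2.le).trans ?_)
        exact mul_le_mul_of_nonneg_left q4 (abs_nonneg K)
      have q6 : 0 ≤ |c| + 1 := by positivity
      have q7 := mul_le_mul_of_nonneg_left q5 q6
      refine q1.le.trans (q7.trans (le_of_eq ?_))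
      ring
  obtain ⟨k0, hk0⟩ := (monotone_stabilizes_iff_noetherian (R := ℂ)
    (M := restrictTotalDegree (Fin n) ℂ D)).mpr inferInstance ⟨W, hmono⟩
  obtain ⟨i, hi, hik⟩ := hset.exists_gt (i0 + 1 + k0)
  obtain ⟨k, rfl⟩ : ∃ k, i = i0 + 1 + k := ⟨i - (i0 + 1), by omega⟩
  have hkk : k0 ≤ k := by omega
  have hWeq : W k = W (k + 1) := by
    have e1 := hk0 k hkk
    have e2 := hk0 (k + 1) (by omega)
    have e3 : W k0 = W k := e1
    have e4 : W k0 = W (k + 1) := e2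
    rw [← e3, e4]
  obtain ⟨c, hc, hcc⟩ := hrel _ hi (i0 + 1 + k + 1) (by omega) (by omega)
  have hmem : (⟨f (i0 + 1 + k), (mem_restrictTotalDegree _ _ _).mpr (hd _)⟩ :
      restrictTotalDegree (Fin n) ℂ D) ∈ W (k + 1) := by
    rw [hWm]
    refine ⟨c + 1, ?_⟩
    have e : i0 + 1 + (k + 1) = (i0 + 1 + k) + 1 := by omega
    rw [e]
    have h3 : ∀ᶠ q in LX II, NN (σ (i0 + 1 + k + 1)) (f (i0 + 1 + k)) q /
        NN (σ (i0 + 1 + k + 1)) (f i0) q < c + 1 := hcc.eventually_lt_const (by linarith)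
    filter_upwards [h3] with q hq
    rw [div_lt_iff₀ (NN_pos (hσ _).pos (hf i0) q)] at hq
    exact hq.le
  rw [← hWeq, hWm] at hmem
  obtain ⟨K, hK⟩ := hmem
  obtain ⟨B, hB⟩ := (hσ (i0 + 1 + k)).lim (f (i0 + 1 + k)) (hf _)
  have hB0 : B.coeff 0 = 0 := by
    by_contra hne
    exact h0 (i0 + 1 + k) ⟨B, hB, hne⟩
  have hsm := ref_small (hσ (i0 + 1 + k)).pos (hσ (i0 + 1 + k + 1)).pos (hr (i0 + 1 + k)) (hf _) hB hB0
  obtain ⟨d, hd0, hd1⟩ := ratio_pos (hσ (i0 + 1 + k)) (hσ (i0 + 1 + k + 1)).pos (hr (i0 + 1 + k)) (hf i0)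
        (hres i0 _ (by omega))
  -- the ratio tends to zero
  have hz : Tendsto (fun q => (NN (σ (i0 + 1 + k + 1)) (f (i0 + 1 + k)) q /
      NN (σ (i0 + 1 + k)) (f (i0 + 1 + k)) q) * (|K| * (2 / d))) (LX II) (𝓝 0) := by
    have := hsm.mul_const (|K| * (2 / d))
    rwa [zero_mul] at this
  have hle : ∀ᶠ q in LX II, NN (σ (i0 + 1 + k + 1)) (f (i0 + 1 + k)) q /
      NN (σ (i0 + 1 + k + 1)) (f i0) q ≤ (NN (σ (i0 + 1 + k + 1)) (f (i0 + 1 + k)) q /
      NN (σ (i0 + 1 + k)) (f (i0 + 1 + k)) q) * (|K| * (2 / d)) := by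
    have h4 : ∀ᶠ q in LX II, d / 2 < NN (σ (i0 + 1 + k + 1)) (f i0) q / NN (σ (i0 + 1 + k)) (f i0) q :=
        hd1.eventually_const_lt (by linarith)
    filter_upwards [h4, hK] with q q2 q3
    have p1 := NN_pos (hσ (i0 + 1 + k)).pos (hf (i0 + 1 + k)) q
    have p2 := NN_pos (hσ (i0 + 1 + k)).pos (hf i0) q
    have p3 := NN_pos (hσ (i0 + 1 + k + 1)).pos (hf (i0 + 1 + k)) q
    have p4 := NN_pos (hσ (i0 + 1 + k + 1)).pos (hf i0) q
    rw [lt_div_iff₀ p2] at q2
    have q4 : NN (σ (i0 + 1 + k)) (f i0) q ≤ 2 / d * NN (σ (i0 + 1 + k + 1)) (f i0) q := by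
      rw [div_mul_eq_mul_div, le_div_iff₀ hd0]
      linarith
    have q5 : NN (σ (i0 + 1 + k)) (f (i0 + 1 + k)) q ≤
        |K| * (2 / d * NN (σ (i0 + 1 + k + 1)) (f i0) q) := by
      refine q3.trans ((mul_le_mul_of_nonneg_right (le_abs_self K) p2.le).trans ?_)
      exact mul_le_mul_of_nonneg_left q4 (abs_nonneg K)
    rw [div_le_iff₀ p4, div_mul_eq_mul_div, div_mul_eq_mul_div, le_div_iff₀ p1]
    have q6 := mul_le_mul_of_nonneg_left q5 p3.le
    refine q6.trans (le_of_eq ?_)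
    ring
  have hz2 : Tendsto (fun q => NN (σ (i0 + 1 + k + 1)) (f (i0 + 1 + k)) q /
      NN (σ (i0 + 1 + k + 1)) (f i0) q) (LX II) (𝓝 0) := by
    refine tendsto_of_tendsto_of_tendsto_of_le_of_le' tendsto_const_nhds hz ?_ hle
    exact Filter.Eventually.of_forall fun q => div_nonneg (NN_pos (hσ _).pos (hf _) q).le
      (NN_pos (hσ _).pos (hf _) q).le
  exact hc.ne' (tendsto_nhds_unique hcc hz2)

end Pool.Agent.H51.BJ
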