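import Pool.Agent.H51.BJ.STB

/-! # [H51 BJ STC] Existence of stable chains

`stable`: otherwise, starting with `σ`, by dependent choice there is a sequence of states
`σ_0 = σ, σ_1, ...`, each a refinement of the previous one, and `f_i` of degree at most `D` resolved
at `σ_{i+1}` and not at `σ_i`, contradicting `no_infinite_chain` (the states obtained are all
refinements of `σ` by `Ref.trans`, or `σ` itself).
`exists_chain`: start with a state, choose `σ_0` by `stable` for `D = 0`, and given `σ_D` choose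
`σ_{D+1}` from `σ_D` by `stable` for `D + 1`. -/

set_option autoImplicit false

open MvPolynomial Filter Pool.Agent.H60 Pool.Agent.H57.BJ
open scoped Topology

noncomputable section

namespace Pool.Agent.H51.BJ

variable {n : ℕ}

theorem stable {F : ℕ → V n → ℂ} (D : ℕ) (σ : SS F) :
    ∃ σ' : SS F, (σ' = σ ∨ Ref σ'.g σ.g) ∧ ∀ τ : SS F, Ref τ.g σ'.g →
      ∀ f : MvPolynomial (Fin n) ℂ, f.totalDegree ≤ D → Res τ.g f → Res σ'.g f := by
  classical
  by_contra hcon
  push Not at hcon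
  have hstep : ∀ u : {u : SS F // u = σ ∨ Ref u.g σ.g},
      ∃ v : {u : SS F // u = σ ∨ Ref u.g σ.g}, Ref v.1.g u.1.g ∧ ∃ f : MvPolynomial (Fin n) ℂ,
        f.totalDegree ≤ D ∧ Res v.1.g f ∧ ¬ Res u.1.g f := by
    rintro ⟨u, hu⟩
    obtain ⟨τ, h1, f, h2, h3, h4⟩ := hcon u hu
    refine ⟨⟨τ, Or.inr ?_⟩, h1, f, h2, h3, h4⟩
    rcases hu with rfl | hu
    · exact h1
    · exact Ref.trans σ.st.ok.pos u.st.ok.pos h1 hu
  choose nx h1 f h2 h3 h4 using hstep
  let s : ℕ → {u : SS F // u = σ ∨ Ref u.g σ.g} := fun i => Nat.rec ⟨σ, Or.inl rfl⟩ (fun _ u => nx u) i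
  have hs : ∀ i, s (i + 1) = nx (s i) := fun i => rfl
  exact no_infinite_chain (fun i => (s i).1.g) (fun i => (s i).1.st.ok)
    (fun i => by
      show Ref (s (i + 1)).1.g (s i).1.g
      rw [hs]
      exact h1 (s i)) D (fun i => f (s i)) (fun i => h2 (s i)) (fun i => h4 (s i))
    (fun i => by
      show Res (s (i + 1)).1.g (f (s i))
      rw [hs]
      exact h3 (s i))

theorem exists_chain {F : ℕ → V n → ℂ} {P : MvPolynomial (Fin n) ℂ} (σ : SS F)
    (hun : ∀ τ : SS F, ¬ Res τ.g P) :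
    ∃ σ' : ℕ → SS F, Chain F P σ' := by
  classical
  have h : ∀ (D : ℕ) (u : SS F), ∃ u' : SS F, (u' = u ∨ Ref u'.g u.g) ∧ ∀ τ : SS F, Ref τ.g u'.g →
      ∀ f : MvPolynomial (Fin n) ℂ, f.totalDegree ≤ D → Res τ.g f → Res u'.g f := fun D u => stable D u
  choose nx h1 h2 using h
  let s : ℕ → SS F := fun i => Nat.rec (nx 0 σ) (fun i u => nx (i + 1) u) i
  have hs : ∀ i, s (i + 1) = nx (i + 1) (s i) := fun i => rfl
  have hs0 : s 0 = nx 0 σ := rfl
  refine ⟨s, fun D => ?_, fun D τ hτ f hf hr => ?_, fun D => hun (s D)⟩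
  · rw [hs]
    exact h1 (D + 1) (s D)
  · cases D with
    | zero =>
      rw [hs0] at hτ ⊢
      exact h2 0 σ τ hτ f hf hr
    | succ D =>
      rw [hs] at hτ ⊢
      exact h2 (D + 1) (s D) τ hτ f hf hr

end Pool.Agent.H51.BJ
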